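import Pool.Agent.BEX.OPInt

/-!
# BEX part B, module OPMom: moments of the weight = derivatives of the kernel function at `0`

From OPSer and OPInt with `θ = π/4`.
-/

set_option autoImplicit false

namespace Pool.Agent.BEX

open Polynomial MeasureTheory

/-- Moments = derivatives, for every `θ`. -/
theorem kth_mom {θ : ℝ} (h0 : 0 ≤ θ) (h1 : θ < Real.pi) (j : ℕ) :
    iteratedDeriv (2 * j + 1) (kth θ) 0 = (-1) ^ j *
      ∫ k in Set.Ioi (0 : ℝ), 2 * k ^ (2 * j + 1) * (Real.cosh (θ * k) / Real.sinh (Real.pi * k)) := by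
  rw [kth_odd_deriv h0 h1, mom_eq h0 h1]

theorem kap_eq : kap = kth (Real.pi / 4) := by
  funext t
  rw [kap, kth, Real.cos_pi_div_four]

/-- Moments of the weight are the derivatives of the kernel function at `0`. -/
theorem kap_deriv (j : ℕ) : iteratedDeriv (2 * j + 1) kap 0 = (-1) ^ j * ip (X ^ j) 1 := by
  have hpi := Real.pi_pos
  rw [kap_eq, kth_mom (by positivity) (by linarith)]
  congr 1
  unfold ip wt
  refine setIntegral_congr_fun measurableSet_Ioi fun k _ => ?_
  simp only [eval_pow, eval_X, eval_one, mul_one]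
  rw [show Real.pi / 4 * k = Real.pi * k / 4 by ring, ← pow_mul]
  ring

/-- The even derivatives vanish. -/
theorem kap_deriv_even (j : ℕ) : iteratedDeriv (2 * j) kap 0 = 0 := by
  have hpi := Real.pi_pos
  rw [kap_eq, kth_even_deriv (by positivity) (by linarith)]

end Pool.Agent.BEX
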