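import Pool.Agent.BEX.OPInt

/-!
# BEX part B, module OPPos: the inner products `ip`, `ipn`: bilinearity, positivity, comparison

`ipn p q = ∫_{k>0} p(k²) q(k²) 2k/sinh (3πk/4) dk`.

PAPER PROOF. Integrability of (even polynomial)(k) · k · weight: linear combination of `mom_integrable` (`θ = π/4`), and for `ipn`
substitute `k = 4x/3` in `mom_integrable` (`θ = 0`), or bound `1/sinh (3πk/4) ≤ 2 wt k`. Comparison:
`wt k · sinh (3πk/4) = (sinh (πk) + sinh (πk/2)) / (2 sinh (πk)) = 1/2 + 1/(4 cosh (πk/2))`, between `1/2` and `3/4`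
(product formula `2 sinh a cosh b = sinh (a+b) + sinh (a-b)`, `sinh 2a = 2 sinh a cosh a`). Positivity: the integrand
`p(k²)² 2k wt k` is continuous on `k > 0`, nonnegative and not identically zero (finitely many zeros of `p`).
-/

set_option autoImplicit false

namespace Pool.Agent.BEX

open Polynomial MeasureTheory

/-- The comparison (Meixner-Pollaczek) inner product. -/
noncomputable def ipn (p q : ℝ[X]) : ℝ :=
  ∫ k in Set.Ioi (0 : ℝ), p.eval (k ^ 2) * q.eval (k ^ 2) * (2 * k / Real.sinh (3 * Real.pi * k / 4))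

private theorem OPPos_wt {k : ℝ} (hk : 0 < k) : ∃ s : ℝ, 0 < s ∧ wt k = 1 / (4 * s * (1 + 2 * s ^ 2)) ∧
    Real.sinh (3 * Real.pi * k / 4) = s * (3 + 4 * s ^ 2) := by
  have hu : 0 < Real.pi * k / 4 := by positivity
  refine ⟨Real.sinh (Real.pi * k / 4), Real.sinh_pos_iff.mpr hu, ?_, ?_⟩
  · have hs : 0 < Real.sinh (Real.pi * k / 4) := Real.sinh_pos_iff.mpr hu
    have hc : 0 < Real.cosh (Real.pi * k / 4) := Real.cosh_pos _
    have h1 : Real.pi * k = 2 * (2 * (Real.pi * k / 4)) := by ring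
    have h2 : Real.sinh (Real.pi * k) = 4 * Real.sinh (Real.pi * k / 4) * Real.cosh (Real.pi * k / 4) *
        (1 + 2 * Real.sinh (Real.pi * k / 4) ^ 2) := by
      conv_lhs => rw [h1]
      rw [Real.sinh_two_mul, Real.sinh_two_mul, Real.cosh_two_mul, Real.cosh_sq]
      ring
    unfold wt
    rw [h2]
    field_simp
  · have h1 : 3 * Real.pi * k / 4 = 3 * (Real.pi * k / 4) := by ring
    rw [h1, Real.sinh_three_mul]
    ring

private theorem OPPos_wt_nonneg {k : ℝ} (hk : 0 < k) : 0 ≤ wt k := by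
  obtain ⟨s, hs, h, -⟩ := OPPos_wt hk
  rw [h]
  positivity

private theorem OPPos_sinh_pos {k : ℝ} (hk : 0 < k) : 0 < Real.sinh (3 * Real.pi * k / 4) :=
  Real.sinh_pos_iff.mpr (by positivity)

private theorem OPPos_up {k : ℝ} (hk : 0 < k) : wt k ≤ 3 / 4 * (1 / Real.sinh (3 * Real.pi * k / 4)) := by
  obtain ⟨s, hs, h, h'⟩ := OPPos_wt hk
  rw [h, h']
  have h1 : 3 / 4 * (1 / (s * (3 + 4 * s ^ 2))) = 3 / (4 * (s * (3 + 4 * s ^ 2))) := by
    field_simp
  rw [h1, div_le_div_iff₀ (by positivity) (by positivity)]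
  nlinarith [mul_pos hs (pow_pos hs 2)]

private theorem OPPos_lo {k : ℝ} (hk : 0 < k) : 1 / Real.sinh (3 * Real.pi * k / 4) ≤ 2 * wt k := by
  obtain ⟨s, hs, h, h'⟩ := OPPos_wt hk
  rw [h, h']
  have h1 : 2 * (1 / (4 * s * (1 + 2 * s ^ 2))) = 2 / (4 * s * (1 + 2 * s ^ 2)) := by
    field_simp
  rw [h1, div_le_div_iff₀ (by positivity) (by positivity)]
  nlinarith [mul_pos hs (pow_pos hs 2)]

private theorem OPPos_int {w : ℝ → ℝ} (hw : ∀ j : ℕ, IntegrableOn (fun k : ℝ => k ^ (2 * j + 1) * w k)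
    (Set.Ioi (0 : ℝ))) (r : ℝ[X]) : IntegrableOn (fun k : ℝ => r.eval (k ^ 2) * (2 * k * w k))
    (Set.Ioi (0 : ℝ)) := by
  have h : (fun k : ℝ => r.eval (k ^ 2) * (2 * k * w k)) =
      fun k : ℝ => ∑ j ∈ Finset.range (r.natDegree + 1), (2 * r.coeff j) * (k ^ (2 * j + 1) * w k) := by
    funext k
    rw [Polynomial.eval_eq_sum_range, Finset.sum_mul]
    refine Finset.sum_congr rfl fun j _ => ?_
    rw [← pow_mul]
    ring
  rw [h]
  unfold IntegrableOn
  exact integrable_finsetSum _ fun j _ => (hw j).const_mul _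

private theorem OPPos_w1 (j : ℕ) : IntegrableOn (fun k : ℝ => k ^ (2 * j + 1) * wt k) (Set.Ioi (0 : ℝ)) := by
  have h := (mom_integrable (θ := Real.pi / 4) (by positivity) (by linarith [Real.pi_pos]) j).const_mul (1 / 2)
  have h1 : (fun k : ℝ => k ^ (2 * j + 1) * wt k) = fun k : ℝ => 1 / 2 * (2 * k ^ (2 * j + 1) *
      (Real.cosh (Real.pi / 4 * k) / Real.sinh (Real.pi * k))) := by
    funext k
    have h2 : Real.pi / 4 * k = Real.pi * k / 4 := by ring
    rw [h2]
    unfold wt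
    ring
  rw [h1]
  exact h

private theorem OPPos_w2 (j : ℕ) : IntegrableOn
    (fun k : ℝ => k ^ (2 * j + 1) * (1 / Real.sinh (3 * Real.pi * k / 4))) (Set.Ioi (0 : ℝ)) := by
  have h := (OPPos_w1 j).const_mul 2
  refine Integrable.mono' h ?_ ?_
  · apply Measurable.aestronglyMeasurable
    have h1 : Measurable fun k : ℝ => Real.sinh (3 * Real.pi * k / 4) :=
      Real.measurable_sinh.comp (by fun_prop)
    exact (measurable_id.pow_const _).mul (measurable_const.div h1)
  · refine (ae_restrict_iff' measurableSet_Ioi).mpr (Filter.Eventually.of_forall fun k hk => ?_)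
    have hk' : 0 < k := hk
    have h1 := OPPos_lo hk'
    have h2 : 0 < 1 / Real.sinh (3 * Real.pi * k / 4) := by
      have := OPPos_sinh_pos hk'
      positivity
    have h3 : 0 < k ^ (2 * j + 1) := by positivity
    rw [Real.norm_eq_abs, abs_of_nonneg (by positivity)]
    nlinarith

theorem ip_integrable (p q : ℝ[X]) : IntegrableOn
    (fun k : ℝ => p.eval (k ^ 2) * q.eval (k ^ 2) * (2 * k * wt k)) (Set.Ioi (0 : ℝ)) := by
  have h := OPPos_int OPPos_w1 (p * q)
  simpa only [eval_mul] using h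

theorem ipn_integrable (p q : ℝ[X]) : IntegrableOn
    (fun k : ℝ => p.eval (k ^ 2) * q.eval (k ^ 2) * (2 * k / Real.sinh (3 * Real.pi * k / 4)))
    (Set.Ioi (0 : ℝ)) := by
  have h := OPPos_int OPPos_w2 (p * q)
  have h1 : (fun k : ℝ => p.eval (k ^ 2) * q.eval (k ^ 2) * (2 * k / Real.sinh (3 * Real.pi * k / 4))) =
      fun k : ℝ => (p * q).eval (k ^ 2) * (2 * k * (1 / Real.sinh (3 * Real.pi * k / 4))) := by
    funext k
    rw [eval_mul]
    ring
  rw [h1]
  exact h

theorem ip_comm (p q : ℝ[X]) : ip p q = ip q p := by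
  unfold ip
  congr 1
  funext k
  ring

theorem ip_add_left (p p' q : ℝ[X]) : ip (p + p') q = ip p q + ip p' q := by
  unfold ip
  rw [← integral_add (ip_integrable p q) (ip_integrable p' q)]
  congr 1
  funext k
  rw [eval_add]
  ring

theorem ip_smul_left (c : ℝ) (p q : ℝ[X]) : ip (C c * p) q = c * ip p q := by
  unfold ip
  rw [← integral_const_mul]
  congr 1
  funext k
  rw [eval_mul, eval_C]
  ring

theorem ip_mul_left (r p q : ℝ[X]) : ip (r * p) q = ip p (r * q) := by
  unfold ip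
  congr 1
  funext k
  rw [eval_mul, eval_mul]
  ring

theorem ipn_comm (p q : ℝ[X]) : ipn p q = ipn q p := by
  unfold ipn
  congr 1
  funext k
  ring

theorem ipn_add_left (p p' q : ℝ[X]) : ipn (p + p') q = ipn p q + ipn p' q := by
  unfold ipn
  rw [← integral_add (ipn_integrable p q) (ipn_integrable p' q)]
  congr 1
  funext k
  rw [eval_add]
  ring

theorem ipn_smul_left (c : ℝ) (p q : ℝ[X]) : ipn (C c * p) q = c * ipn p q := by
  unfold ipn
  rw [← integral_const_mul]
  congr 1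
  funext k
  rw [eval_mul, eval_C]
  ring

theorem ipn_mul_left (r p q : ℝ[X]) : ipn (r * p) q = ipn p (r * q) := by
  unfold ipn
  congr 1
  funext k
  rw [eval_mul, eval_mul]
  ring

private theorem OPPos_nn (p : ℝ[X]) {k : ℝ} (hk : 0 < k) :
    0 ≤ p.eval (k ^ 2) * p.eval (k ^ 2) * (2 * k * wt k) := by
  have h1 := OPPos_wt_nonneg hk
  have h2 := mul_self_nonneg (p.eval (k ^ 2))
  positivity

private theorem OPPos_nnn (p : ℝ[X]) {k : ℝ} (hk : 0 < k) :
    0 ≤ p.eval (k ^ 2) * p.eval (k ^ 2) * (2 * k / Real.sinh (3 * Real.pi * k / 4)) := by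
  have h1 := OPPos_sinh_pos hk
  have h2 := mul_self_nonneg (p.eval (k ^ 2))
  positivity

theorem ip_self_nonneg (p : ℝ[X]) : 0 ≤ ip p p :=
  setIntegral_nonneg measurableSet_Ioi fun _ hk => OPPos_nn p hk

/-- Positivity. -/
theorem ip_pos {p : ℝ[X]} (hp : p ≠ 0) : 0 < ip p p := by
  unfold ip
  rw [setIntegral_pos_iff_support_of_nonneg_ae]
  · have hZ : ((fun y : ℝ => Real.sqrt y) '' (p.roots.toFinset : Set ℝ)).Finite :=
      (p.roots.toFinset.finite_toSet).image _
    have h1 : Set.Ioi (0 : ℝ) \ ((fun y : ℝ => Real.sqrt y) '' (p.roots.toFinset : Set ℝ)) ⊆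
        (Function.support fun k : ℝ => p.eval (k ^ 2) * p.eval (k ^ 2) * (2 * k * wt k)) ∩ Set.Ioi 0 := by
      rintro k ⟨hk, hkZ⟩
      have hk' : 0 < k := hk
      refine ⟨?_, hk⟩
      rw [Function.mem_support]
      have h2 : p.eval (k ^ 2) ≠ 0 := by
        intro h
        apply hkZ
        refine ⟨k ^ 2, ?_, Real.sqrt_sq hk'.le⟩
        rw [Finset.mem_coe, Multiset.mem_toFinset, mem_roots hp]
        exact h
      have h3 : wt k ≠ 0 := by
        obtain ⟨s, hs, h, -⟩ := OPPos_wt hk'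
        rw [h]
        positivity
      exact mul_ne_zero (mul_ne_zero h2 h2) (mul_ne_zero (by positivity) h3)
    refine lt_of_lt_of_le ?_ (measure_mono h1)
    rw [measure_sdiff_null (hZ.measure_zero _)]
    rw [Real.volume_Ioi]
    exact ENNReal.zero_lt_top
  · exact (ae_restrict_iff' measurableSet_Ioi).mpr (Filter.Eventually.of_forall fun k hk => OPPos_nn p hk)
  · exact ip_integrable p p

/-- The support is in `y > 0`. -/
theorem ip_X_nonneg (p : ℝ[X]) : 0 ≤ ip (X * p) p := by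
  refine setIntegral_nonneg measurableSet_Ioi fun k hk => ?_
  have hk' : 0 < k := hk
  have h := OPPos_nn p hk'
  rw [eval_mul, eval_X]
  have h1 : k ^ 2 * p.eval (k ^ 2) * p.eval (k ^ 2) * (2 * k * wt k) =
      k ^ 2 * (p.eval (k ^ 2) * p.eval (k ^ 2) * (2 * k * wt k)) := by ring
  rw [h1]
  positivity

theorem ipn_self_nonneg (p : ℝ[X]) : 0 ≤ ipn p p :=
  setIntegral_nonneg measurableSet_Ioi fun _ hk => OPPos_nnn p hk

theorem ip_le_ipn (p : ℝ[X]) : ip p p ≤ 3 / 4 * ipn p p := by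
  unfold ip ipn
  rw [← integral_const_mul]
  refine setIntegral_mono_on (ip_integrable p p) ((ipn_integrable p p).const_mul _) measurableSet_Ioi
    fun k hk => ?_
  have hk' : 0 < k := hk
  have h1 := OPPos_up hk'
  have h2 : 0 ≤ p.eval (k ^ 2) * p.eval (k ^ 2) * (2 * k) := by
    have := mul_self_nonneg (p.eval (k ^ 2))
    positivity
  calc p.eval (k ^ 2) * p.eval (k ^ 2) * (2 * k * wt k) = p.eval (k ^ 2) * p.eval (k ^ 2) * (2 * k) * wt k := by
        ring
    _ ≤ p.eval (k ^ 2) * p.eval (k ^ 2) * (2 * k) * (3 / 4 * (1 / Real.sinh (3 * Real.pi * k / 4))) :=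
        mul_le_mul_of_nonneg_left h1 h2
    _ = 3 / 4 * (p.eval (k ^ 2) * p.eval (k ^ 2) * (2 * k / Real.sinh (3 * Real.pi * k / 4))) := by ring

theorem ipn_le_ip (p : ℝ[X]) : ipn p p ≤ 2 * ip p p := by
  unfold ip ipn
  rw [← integral_const_mul]
  refine setIntegral_mono_on (ipn_integrable p p) ((ip_integrable p p).const_mul _) measurableSet_Ioi
    fun k hk => ?_
  have hk' : 0 < k := hk
  have h1 := OPPos_lo hk'
  have h2 : 0 ≤ p.eval (k ^ 2) * p.eval (k ^ 2) * (2 * k) := by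
    have := mul_self_nonneg (p.eval (k ^ 2))
    positivity
  calc p.eval (k ^ 2) * p.eval (k ^ 2) * (2 * k / Real.sinh (3 * Real.pi * k / 4)) =
        p.eval (k ^ 2) * p.eval (k ^ 2) * (2 * k) * (1 / Real.sinh (3 * Real.pi * k / 4)) := by ring
    _ ≤ p.eval (k ^ 2) * p.eval (k ^ 2) * (2 * k) * (2 * wt k) := mul_le_mul_of_nonneg_left h1 h2
    _ = 2 * (p.eval (k ^ 2) * p.eval (k ^ 2) * (2 * k * wt k)) := by ring

end Pool.Agent.BEX
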