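import Pool.Agent.BEX.AFix2

/-!
# BEX, part A: relabelling of the lines

`rl e m` is the state `m` with the labels renamed by `e : ι ≃ κ`. The transfer matrix is natural; so the
hypothesis `PowZero` for one order of the lines implies it for all orders.
-/

namespace Pool.Agent.BEX

open Complex Filter Topology Matrix

section

variable {ι κ : Type*}

/-- Relabelling of a state. -/
def rl (e : ι ≃ κ) : St ι ≃ St κ where
  toFun m := ⟨fun j => e (m (e.symm j)), fun j => by simp⟩
  invFun m := ⟨fun i => e.symm (m (e i)), fun i => by simp⟩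
  left_inv m := by
    apply St.ext'
    intro i
    simp
  right_inv m := by
    apply St.ext'
    intro i
    simp

@[simp] theorem rl_apply (e : ι ≃ κ) (m : St ι) (j : κ) : (rl e m) j = e (m (e.symm j)) := rfl

theorem rl_emp (e : ι ≃ κ) : rl e (St.emp : St ι) = St.emp := by
  apply St.ext'
  intro j
  simp [St.emp]

variable [DecidableEq ι] [DecidableEq κ]

theorem rl_sw (e : ι ≃ κ) (p q : ι) (m : St ι) :
    rl e (m.sw p q) = (rl e m).sw (e p) (e q) := by
  apply St.ext'
  intro j
  simp only [rl_apply, St.sw]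
  have h1 : ∀ i, e (Equiv.swap p q i) = Equiv.swap (e p) (e q) (e i) := by
    intro i
    rw [Equiv.swap_apply_def, Equiv.swap_apply_def]
    simp only [EmbeddingLike.apply_eq_iff_eq]
    split_ifs <;> rfl
  have h2 : Equiv.swap p q (e.symm j) = e.symm (Equiv.swap (e p) (e q) j) := by
    apply e.injective
    rw [h1]
    simp
  rw [h1, h2]

theorem rl_jn (e : ι ≃ κ) (p q : ι) (m : St ι) :
    rl e (m.jn p q) = (rl e m).jn (e p) (e q) := by
  apply St.ext'
  intro j
  have hp : ((rl e m) (e p) = e p) = (m p = p) := by simp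
  have hq : ((rl e m) (e q) = e q) = (m q = q) := by simp
  by_cases h : m p = p ∧ m q = q
  · have h' : (rl e m) (e p) = e p ∧ (rl e m) (e q) = e q := by rwa [hp, hq]
    simp only [rl_apply, St.jn, dif_pos h]
    rw [dif_pos (by simpa using h)]
    simp only [St.jnf]
    have e1 : (e.symm j = p) = (j = e p) := by
      rw [Equiv.symm_apply_eq]
    have e2 : (e.symm j = q) = (j = e q) := by
      rw [Equiv.symm_apply_eq]
    simp only [e1, e2]
    split_ifs <;> simp
  · have h' : ¬((rl e m) (e p) = e p ∧ (rl e m) (e q) = e q) := by rwa [hp, hq]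
    simp only [rl_apply, St.jn, dif_neg h]
    rw [dif_neg (by simpa using h)]
    simp

theorem rl_cp (e : ι ≃ κ) (p q : ι) (m : St ι) :
    rl e (m.cp p q) = (rl e m).cp (e p) (e q) := by
  apply St.ext'
  intro j
  by_cases h : m p ≠ p ∧ m q ≠ q
  · simp only [rl_apply, St.cp, dif_pos h]
    rw [dif_pos (by simpa using h)]
    simp only [St.cpf, rl_apply, Equiv.symm_apply_apply]
    have e1 : ∀ i, (e.symm j = i) = (j = e i) := by
      intro i
      rw [Equiv.symm_apply_eq]
    simp only [e1]
    split_ifs <;> simp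
  · simp only [rl_apply, St.cp, dif_neg h]
    rw [dif_neg (by simpa using h)]
    simp

theorem Rt_rl (e : ι ≃ κ) (p q : ι) (u : ℂ) (F : St κ → ℂ) (m : St ι) :
    Rt (e p) (e q) u F (rl e m) = Rt p q u (fun n => F (rl e n)) m := by
  have hp : ((rl e m) (e p) = e p) = (m p = p) := by simp
  have hq : ((rl e m) (e q) = e q) = (m q = q) := by simp
  have hr : ((rl e m) (e p) = e q) = (m p = q) := by simp
  simp only [Rt, hp, hq, hr, rl_sw, rl_jn, rl_cp]

/-- The extension of `e` to the auxiliary labels. -/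
def oc (e : ι ≃ κ) : Option (Option ι) ≃ Option (Option κ) := e.optionCongr.optionCongr

omit [DecidableEq ι] [DecidableEq κ] in
@[simp] theorem oc_lb (e : ι ≃ κ) (i : ι) : oc e (lb i) = lb (e i) := rfl

omit [DecidableEq ι] [DecidableEq κ] in
@[simp] theorem oc_ax (e : ι ≃ κ) : oc e ax = ax := rfl

omit [DecidableEq ι] [DecidableEq κ] in
@[simp] theorem oc_ax' (e : ι ≃ κ) : oc e ax' = ax' := rfl

omit [DecidableEq ι] [DecidableEq κ] in
@[simp] theorem oc_symm_lb (e : ι ≃ κ) (j : κ) : (oc e).symm (lb j) = lb (e.symm j) := by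
  rw [Equiv.symm_apply_eq]
  simp

omit [DecidableEq ι] [DecidableEq κ] in
@[simp] theorem oc_symm_ax (e : ι ≃ κ) : (oc e).symm ax = ax := by
  rw [Equiv.symm_apply_eq]
  simp

omit [DecidableEq ι] [DecidableEq κ] in
@[simp] theorem oc_symm_ax' (e : ι ≃ κ) : (oc e).symm ax' = ax' := by
  rw [Equiv.symm_apply_eq]
  simp

omit [DecidableEq ι] [DecidableEq κ] in
theorem oc_eq_ax (e : ι ≃ κ) (z : Option (Option ι)) : (oc e z = ax) = (z = ax) := by
  rw [← Equiv.eq_symm_apply, oc_symm_ax]

omit [DecidableEq ι] [DecidableEq κ] in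
theorem oc_eq_ax' (e : ι ≃ κ) (z : Option (Option ι)) : (oc e z = ax') = (z = ax') := by
  rw [← Equiv.eq_symm_apply, oc_symm_ax']

omit [DecidableEq ι] [DecidableEq κ] in
theorem ext0_rl (e : ι ≃ κ) (m : St ι) : ext0 (rl e m) = rl (oc e) (ext0 m) := by
  apply St.ext'
  intro j
  rcases j with _ | _ | j
  · rfl
  · rfl
  · change _ = (rl (oc e) (ext0 m)) (lb j)
    rw [rl_apply, oc_symm_lb]
    rfl

theorem ext1_rl (e : ι ≃ κ) (m : St ι) : ext1 (rl e m) = rl (oc e) (ext1 m) := by
  unfold ext1
  rw [ext0_rl, rl_jn]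
  simp

theorem cupF_rl (e : ι ≃ κ) (G : St (Option (Option κ)) → ℂ) (m : St ι) :
    cupF G (rl e m) = cupF (fun n => G (rl (oc e) n)) m := by
  simp only [cupF, ext0_rl, ext1_rl]

omit [DecidableEq ι] [DecidableEq κ] in
theorem resf_rl (e : ι ≃ κ) (m : St (Option (Option ι))) (j : κ) :
    resf (rl (oc e) m) j = e (resf m (e.symm j)) := by
  unfold resf
  have h1 : (rl (oc e) m) (lb j) = oc e (m (lb (e.symm j))) := by
    rw [rl_apply]
    congr 2
  rw [h1]
  rcases hm : m (lb (e.symm j)) with _ | _ | i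
  · simp [oc]
  · simp [oc]
  · simp [oc]

theorem res_rl [Fintype ι] [Fintype κ] (e : ι ≃ κ) (m : St (Option (Option ι))) :
    res (rl (oc e) m) = rl e (res m) := by
  have h0 : (∀ j, resf (rl (oc e) m) (resf (rl (oc e) m) j) = j) ↔ ∀ i, resf m (resf m i) = i := by
    constructor
    · intro h i
      have := h (e i)
      simp only [resf_rl, Equiv.symm_apply_apply, EmbeddingLike.apply_eq_iff_eq] at this
      exact this
    · intro h j
      simp only [resf_rl, Equiv.symm_apply_apply, h, Equiv.apply_symm_apply]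
  by_cases h : ∀ i, resf m (resf m i) = i
  · unfold res
    rw [dif_pos h, dif_pos (h0.2 h)]
    apply St.ext'
    intro j
    exact resf_rl e m j
  · unfold res
    rw [dif_neg h, dif_neg (fun h' => h (h0.1 h')), rl_emp]

theorem capF_rl [Fintype ι] [Fintype κ] (e : ι ≃ κ) (F : St κ → ℂ) (m : St (Option (Option ι))) :
    capF F (rl (oc e) m) = capF (fun n => F (rl e n)) m := by
  have hp : ((rl (oc e) m) ax = ax) = (m ax = ax) := by
    rw [rl_apply, oc_symm_ax, oc_eq_ax]
  have hq : ((rl (oc e) m) ax' = ax') = (m ax' = ax') := by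
    rw [rl_apply, oc_symm_ax', oc_eq_ax']
  have hr : ((rl (oc e) m) ax = ax') = (m ax = ax') := by
    rw [rl_apply, oc_symm_ax, oc_eq_ax']
  have hc : (rl (oc e) m).cp ax ax' = rl (oc e) (m.cp ax ax') := by
    rw [rl_cp, oc_ax, oc_ax']
  simp only [capF, hp, hq, hr, hc, res_rl]

theorem Fo_rl (e : ι ≃ κ) (l : List ι) (v : ℂ) (U : κ → ℂ) (G : St (Option (Option κ)) → ℂ)
    (m : St (Option (Option ι))) :
    Fo (l.map e) v U G (rl (oc e) m) = Fo l v (fun i => U (e i)) (fun n => G (rl (oc e) n)) m := by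
  induction l generalizing m with
  | nil => rfl
  | cons i l ih =>
    rw [List.map_cons, Fo_cons, Fo_cons, ← oc_lb, ← oc_ax e, Rt_rl]
    congr 1
    funext n
    exact ih n

theorem Tt_rl [Fintype ι] [Fintype κ] (e : ι ≃ κ) (l : List ι) (v : ℂ) (U : κ → ℂ) (F : St κ → ℂ)
    (m : St ι) :
    Tt (l.map e) v U F (rl e m) = Tt l v (fun i => U (e i)) (fun n => F (rl e n)) m := by
  rw [Tt_eq, Tt_eq, cupF_rl]
  congr 1
  funext n
  rw [Fo_rl]
  congr 1
  funext k
  exact capF_rl e F k

omit [DecidableEq ι] [DecidableEq κ] in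
theorem nrm_rl (e : ι ≃ κ) (l : List ι) (U : κ → ℂ) :
    nrm (l.map e) U = nrm l (fun i => U (e i)) := by
  unfold nrm
  rw [List.map_map]
  rfl

theorem MT_rl [Fintype ι] [Fintype κ] (e : ι ≃ κ) (l : List ι) (U : κ → ℂ) :
    MT l (fun i => U (e i)) = (MT (l.map e) U).submatrix (rl e) (rl e) := by
  ext m' m
  simp only [MT, Matrix.of_apply, Matrix.submatrix_apply, nrm_rl, Tt_rl]
  congr 2
  funext n
  simp only [Pi.single_apply, EmbeddingLike.apply_eq_iff_eq]

theorem CC_submatrix {M N K : Type*} [Fintype M] [DecidableEq M] [Fintype N] [DecidableEq N]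
    [NormedField K] (E : M ≃ N) (e : M) (A : Matrix N N K) :
    CC e (A.submatrix E E) = (CC (E e) A).submatrix E E := by
  ext i j
  simp [CC, Matrix.one_apply, Matrix.single_apply]

theorem fixV_submatrix {M N K : Type*} [Fintype M] [DecidableEq M] [Fintype N] [DecidableEq N]
    [NormedField K] (E : M ≃ N) (e : M) (A : Matrix N N K) (i : M) :
    fixV e (A.submatrix E E) i = fixV (E e) A (E i) := by
  unfold fixV
  rw [CC_submatrix, Matrix.inv_submatrix_equiv]
  simp only [Matrix.mulVec, dotProduct, Matrix.submatrix_apply, Pi.single_apply]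
  simp

theorem RR_rl [Fintype ι] [Fintype κ] (e : ι ≃ κ) (l : List ι) (U : κ → ℂ) (F : St κ → ℂ) :
    RR (l.map e) U F = RR l (fun i => U (e i)) (fun n => F (rl e n)) := by
  unfold RR
  rw [MT_rl]
  rw [← Equiv.sum_comp (rl e)]
  refine Finset.sum_congr rfl fun m _ => ?_
  rw [fixV_submatrix, rl_emp]

theorem PowZero_rl [Fintype ι] [Fintype κ] (e : ι ≃ κ) (l : List ι) (h : PowZero l) :
    PowZero (l.map e) := by
  intro m' m hm' hm
  have h1 : ∀ n : ℕ, (MT (l.map e) (0 : κ → ℂ) ^ n) m' m =
      (MT l (0 : ι → ℂ) ^ n) ((rl e).symm m') ((rl e).symm m) := by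
    intro n
    have h2 : MT l (0 : ι → ℂ) = (MT (l.map e) (0 : κ → ℂ)).submatrix (rl e) (rl e) :=
      MT_rl e l 0
    have h3 : ∀ n : ℕ, (MT l (0 : ι → ℂ)) ^ n =
        ((MT (l.map e) (0 : κ → ℂ)) ^ n).submatrix (rl e) (rl e) := by
      intro n
      induction n with
      | zero =>
        ext i j
        simp [Matrix.one_apply]
      | succ n ih =>
        rw [pow_succ, ih, h2, Matrix.submatrix_mul_equiv, ← pow_succ]
    rw [h3 n]
    simp
  simp only [h1]
  apply h
  · intro h2
    apply hm'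
    have := congrArg (rl e) h2
    rwa [Equiv.apply_symm_apply, rl_emp] at this
  · intro h2
    apply hm
    have := congrArg (rl e) h2
    rwa [Equiv.apply_symm_apply, rl_emp] at this

/-- Two complete lists of the labels without repetition differ by a permutation of the labels. -/
theorem exists_perm (l l' : List ι) (hl : l.Nodup) (hl' : l'.Nodup) (h : ∀ i, i ∈ l)
    (h' : ∀ i, i ∈ l') : ∃ e : ι ≃ ι, l.map e = l' := by
  have hlen : l.length = l'.length := by
    have hs : l.toFinset = l'.toFinset := by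
      ext i
      simp [h, h']
    rw [← List.toFinset_card_of_nodup hl, ← List.toFinset_card_of_nodup hl', hs]
  set E := List.Nodup.getEquivOfForallMemList l hl h
  set E' := List.Nodup.getEquivOfForallMemList l' hl' h'
  refine ⟨(E.symm.trans (finCongr hlen)).trans E', ?_⟩
  apply List.ext_getElem
  · simpa using hlen
  · intro i h1 h2
    have h3 : i < l.length := by simpa using h1
    rw [List.getElem_map]
    have h4 : l[i] = E ⟨i, h3⟩ := rfl
    rw [h4]
    simp only [Equiv.trans_apply, Equiv.symm_apply_apply]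
    rfl

/-- `PowZero` for one order of the lines implies it for all orders. -/
theorem PowZero_all [Fintype ι] (l l' : List ι) (hl : l.Nodup) (hl' : l'.Nodup) (h : ∀ i, i ∈ l)
    (h' : ∀ i, i ∈ l') (hD : PowZero l) : PowZero l' := by
  obtain ⟨e, he⟩ := exists_perm l l' hl hl' h h'
  rw [← he]
  exact PowZero_rl e l hD

end

end Pool.Agent.BEX
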