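import Pool.Agent.BEX.AStep3
import Pool.Agent.BEX.AFix3
import Pool.Agent.BEX.A3.Trig

/-!
# BEX, part A: from the fixed functional to the input of part A3

`occ m` is the set of the occupied lines of the state `m`; `rhoF ρ T` is the part of the
functional `ρ` on the states with occupied set `T`, with the weight `b` for every occupied line.
Then `ρ (Om α) = ∑_T rhoF ρ T ∏_{l ∉ T} α l`.
-/

namespace Pool.Agent.BEX

open Complex Finset Filter Topology Polynomial

variable {L : ℕ}

/-- the occupied lines -/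
def occ (m : St (Fin L)) : Finset (Fin L) := univ.filter fun i => m i ≠ i

theorem mem_occ (m : St (Fin L)) (i : Fin L) : i ∈ occ m ↔ m i ≠ i := by
  simp [occ]

/-- the indicator of the states with occupied set `T`, with weight -/
noncomputable def indT (T : Finset (Fin L)) (m : St (Fin L)) : ℂ := if occ m = T then bb ^ T.card else 0

/-- the part of the functional on the states with occupied set `T` -/
noncomputable def rhoF (ρ : (St (Fin L) → ℂ) →ₗ[ℂ] ℂ) (T : Finset (Fin L)) : ℂ := ρ (indT T)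

theorem Om_eq (α : Fin L → ℂ) :
    Om α = ∑ T : Finset (Fin L), (∏ l ∈ Tᶜ, α l) • indT T := by
  funext m
  rw [Finset.sum_apply, Finset.sum_eq_single (occ m)]
  · rw [Pi.smul_apply, smul_eq_mul]
    unfold indT
    rw [if_pos rfl, ← prod_const]
    unfold Om
    rw [← prod_mul_prod_compl (occ m), mul_comm]
    congr 1
    · refine prod_congr rfl fun i hi => ?_
      rw [mem_compl, mem_occ, not_not] at hi
      rw [if_pos hi]
    · refine prod_congr rfl fun i hi => ?_
      rw [mem_occ] at hi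
      rw [if_neg hi]
  · intro T _ hT
    rw [Pi.smul_apply, smul_eq_mul]
    unfold indT
    rw [if_neg (Ne.symm hT), mul_zero]
  · intro h
    exact absurd (mem_univ _) h

theorem Ph_eq (ρ : (St (Fin L) → ℂ) →ₗ[ℂ] ℂ) (U : Fin L → ℂ) (v : ℂ) :
    Ph ρ U v = A3.Phi (rhoF ρ) U v := by
  unfold Ph A3.Phi
  rw [Om_eq, map_sum]
  refine sum_congr rfl fun T _ => ?_
  rw [map_smul, smul_eq_mul, mul_comm]
  rfl

theorem kk_eq (u : ℂ) : kk u = A3.kk u := by
  unfold kk A3.kk lam
  rw [show (2 * ((Real.pi : ℂ) / 8) + u) = (Real.pi : ℂ) / 4 + u by ring,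
    show (3 * ((Real.pi : ℂ) / 8) + u) = 3 * (Real.pi : ℂ) / 8 + u by ring]

theorem aa_eq : aa = 3 * (Real.pi : ℂ) / 8 := by
  unfold aa lam
  ring

theorem even_card_occ (m : St (Fin L)) : Even (occ m).card := by
  have h : ∑ i ∈ occ m, (1 : ZMod 2) = 0 := by
    refine Finset.sum_involution (fun i _ => m i) ?_ ?_ ?_ ?_
    · intro i _
      decide
    · intro i hi _
      exact (mem_occ m i).1 hi
    · intro i hi
      rw [mem_occ, m.inv]
      exact ((mem_occ m i).1 hi).symm
    · intro i _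
      exact m.inv i
  rw [sum_const, nsmul_eq_mul, mul_one] at h
  exact (ZMod.natCast_eq_zero_iff_even).1 h

theorem indT_odd {T : Finset (Fin L)} (hT : Odd T.card) : indT T = 0 := by
  funext m
  unfold indT
  rw [if_neg, Pi.zero_apply]
  rintro rfl
  exact (Nat.not_even_iff_odd.2 hT) (even_card_occ m)

theorem rhoF_odd (ρ : (St (Fin L) → ℂ) →ₗ[ℂ] ℂ) {T : Finset (Fin L)} (hT : Odd T.card) : rhoF ρ T = 0 := by
  unfold rhoF
  rw [indT_odd hT, map_zero]

theorem indT_empty : indT (∅ : Finset (Fin L)) = dE (Fin L) := by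
  classical
  funext m
  rw [dE_apply]
  unfold indT
  rw [card_empty, pow_zero]
  have h : occ m = ∅ ↔ m = St.emp := by
    constructor
    · intro h
      refine St.ext' fun i => ?_
      have h1 : i ∉ occ m := by
        rw [h]
        exact notMem_empty i
      rw [mem_occ, not_not] at h1
      exact h1
    · rintro rfl
      unfold occ
      rw [filter_eq_empty_iff]
      intro i _ h
      exact h rfl
  simp only [h]

theorem rhoF_empty (ρ : (St (Fin L) → ℂ) →ₗ[ℂ] ℂ) (h : ρ (dE (Fin L)) = 1) : rhoF ρ ∅ = 1 := by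
  unfold rhoF
  rw [indT_empty, h]

/-- the state with the single arc `i - j` -/
def arcS (i j : Fin L) : St (Fin L) := St.jn i j St.emp

theorem arcS_apply (i j k : Fin L) : arcS i j k = if k = i then j else if k = j then i else k :=
  jn_apply (m := (St.emp : St (Fin L))) rfl rfl k

/-- the indicator of the state with the single arc `i - j` -/
noncomputable def dA (i j : Fin L) (m : St (Fin L)) : ℂ := if m = arcS i j then 1 else 0

theorem occ_eq_pair {i j : Fin L} (hij : i ≠ j) (m : St (Fin L)) : occ m = {i, j} ↔ m = arcS i j := by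
  constructor
  · intro h
    have hi : m i ≠ i := by
      rw [← mem_occ, h]
      exact mem_insert_self i {j}
    have hj : m j ≠ j := by
      rw [← mem_occ, h]
      exact mem_insert_of_mem (mem_singleton_self j)
    have hij' : m i = j := by
      have h1 : m i ∈ occ m := by
        rw [mem_occ, m.inv]
        exact hi.symm
      rw [h, mem_insert, mem_singleton] at h1
      exact h1.resolve_left hi
    have hji' : m j = i := by
      rw [← hij', m.inv]
    refine St.ext' fun k => ?_
    rw [arcS_apply]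
    by_cases h1 : k = i
    · rw [if_pos h1, h1, hij']
    · by_cases h2 : k = j
      · rw [if_neg h1, if_pos h2, h2, hji']
      · rw [if_neg h1, if_neg h2]
        have h3 : k ∉ occ m := by
          rw [h, mem_insert, mem_singleton]
          push Not
          exact ⟨h1, h2⟩
        rw [mem_occ, not_not] at h3
        exact h3
  · rintro rfl
    ext k
    rw [mem_occ, arcS_apply, mem_insert, mem_singleton]
    by_cases h1 : k = i
    · subst h1
      simp [hij.symm]
    · by_cases h2 : k = j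
      · subst h2
        simp [h1, hij]
      · simp [h1, h2]

theorem rhoF_pair (ρ : (St (Fin L) → ℂ) →ₗ[ℂ] ℂ) {i j : Fin L} (hij : i ≠ j) :
    rhoF ρ {i, j} = bb ^ 2 * ρ (dA i j) := by
  have h : indT ({i, j} : Finset (Fin L)) = bb ^ 2 • dA i j := by
    funext m
    rw [Pi.smul_apply, smul_eq_mul]
    unfold indT dA
    rw [card_pair hij]
    simp only [occ_eq_pair hij m]
    split_ifs <;> ring
  unfold rhoF
  rw [h, map_smul, smul_eq_mul]

theorem sum_pairs (g : Finset (Fin L) → ℂ) :
    2 * ∑ T ∈ (univ : Finset (Finset (Fin L))).filter (fun T => T.card = 2), g T =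
      ∑ i : Fin L, ∑ j ∈ univ.erase i, g {i, j} := by
  have h1 : ∑ i : Fin L, ∑ j ∈ univ.erase i, g {i, j} =
      ∑ p ∈ (univ : Finset (Fin L)).offDiag, g {p.1, p.2} := by
    rw [sum_sigma']
    refine sum_bij' (fun p _ => (p.1, p.2)) (fun p _ => ⟨p.1, p.2⟩) ?_ ?_ ?_ ?_ ?_
    · intro p hp
      simp only [mem_sigma, mem_univ, mem_erase, true_and, mem_offDiag] at hp ⊢
      exact fun h => hp.1 h.symm
    · intro p hp
      simp only [mem_sigma, mem_univ, mem_erase, true_and, mem_offDiag] at hp ⊢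
      exact ⟨fun h => hp h.symm, trivial⟩
    · intro p _
      rfl
    · intro p _
      rfl
    · intro p _
      rfl
  have h3 : ∑ p ∈ (univ : Finset (Fin L)).offDiag, g {p.1, p.2} =
      ∑ T ∈ (univ : Finset (Finset (Fin L))).filter (fun T => T.card = 2),
        ∑ p ∈ (univ : Finset (Fin L)).offDiag.filter
          (fun p => ({p.1, p.2} : Finset (Fin L)) = T), g {p.1, p.2} :=
    (sum_fiberwise_of_maps_to (g := fun p : Fin L × Fin L => ({p.1, p.2} : Finset (Fin L))) (by
      intro p hp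
      rw [mem_offDiag] at hp
      rw [mem_filter]
      exact ⟨mem_univ _, card_pair hp.2.2⟩) _).symm
  rw [h1, h3, mul_sum]
  refine sum_congr rfl fun T hT => ?_
  rw [mem_filter] at hT
  obtain ⟨a, b, hab, rfl⟩ := card_eq_two.1 hT.2
  have h2 : (univ : Finset (Fin L)).offDiag.filter (fun p => ({p.1, p.2} : Finset (Fin L)) = {a, b}) =
      {(a, b), (b, a)} := by
    ext p
    rw [mem_filter, mem_offDiag, mem_insert, mem_singleton]
    constructor
    · rintro ⟨⟨-, -, h3⟩, h4⟩
      have h5 : p.1 ∈ ({a, b} : Finset (Fin L)) := h4 ▸ mem_insert_self _ _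
      have h6 : p.2 ∈ ({a, b} : Finset (Fin L)) := h4 ▸ mem_insert_of_mem (mem_singleton_self _)
      rw [mem_insert, mem_singleton] at h5 h6
      rcases h5 with h5 | h5 <;> rcases h6 with h6 | h6
      · exact absurd (h5.trans h6.symm) h3
      · exact Or.inl (Prod.ext h5 h6)
      · exact Or.inr (Prod.ext h5 h6)
      · exact absurd (h5.trans h6.symm) h3
    · rintro (rfl | rfl)
      · exact ⟨⟨mem_univ _, mem_univ _, hab⟩, rfl⟩
      · exact ⟨⟨mem_univ _, mem_univ _, hab.symm⟩, pair_comm b a⟩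
  rw [h2, sum_pair (by
    intro h
    exact hab (congrArg Prod.fst h)), pair_comm b a]
  ring

/-- Exchange and rotation of the fixed functionals at the rapidities `U`. -/
def HexRot {ι : Type*} [DecidableEq ι] [Fintype ι] (U : ι → ℂ) : Prop :=
  (∀ (l1 l2 : List ι) (p q : ι), (l1 ++ p :: q :: l2).Nodup → (∀ i, i ∈ l1 ++ p :: q :: l2) →
    ∀ F, RR (l1 ++ p :: q :: l2) U (Rt p q (U p - U q) F) =
      kk (U p - U q) * RR (l1 ++ q :: p :: l2) U F) ∧
  ∀ (j : ι) (l : List ι), (j :: l).Nodup → (∀ i, i ∈ j :: l) → ∀ F, RR (j :: l) U F = RR (l ++ [j]) U F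

theorem map_finRotate (n : ℕ) : (List.finRange (n + 1)).map (finRotate (n + 1)) =
    (List.finRange n).map Fin.succ ++ [0] := by
  rw [List.finRange_succ_last, List.map_append, List.map_map]
  congr 1
  · refine List.map_congr_left fun i _ => ?_
    simp
  · simp

theorem rl_arcS (e : Fin L ≃ Fin L) (i j : Fin L) : rl e (arcS i j) = arcS (e i) (e j) := by
  unfold arcS
  rw [rl_jn, rl_emp]

theorem dA_rl (e : Fin L ≃ Fin L) (i j : Fin L) (m : St (Fin L)) : dA (e i) (e j) (rl e m) = dA i j m := by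
  unfold dA
  rw [← rl_arcS]
  simp only [EmbeddingLike.apply_eq_iff_eq]

section rotation

variable {n : ℕ} (hrot : ∀ (j : Fin (n + 1)) (l : List (Fin (n + 1))), (j :: l).Nodup → (∀ i, i ∈ j :: l) →
  ∀ F, RR (j :: l) 0 F = RR (l ++ [j]) 0 F)

include hrot in
theorem RR_dA_rot (i j : Fin (n + 1)) :
    RR (List.finRange (n + 1)) 0 (dA (finRotate (n + 1) i) (finRotate (n + 1) j)) =
      RR (List.finRange (n + 1)) 0 (dA i j) := by
  have h1 : List.finRange (n + 1) = 0 :: (List.finRange n).map Fin.succ := List.finRange_succ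
  have h2 := hrot 0 ((List.finRange n).map Fin.succ) (by rw [← h1]; exact List.nodup_finRange _)
    (fun i => by rw [← h1]; exact List.mem_finRange i)
    (dA (finRotate (n + 1) i) (finRotate (n + 1) j))
  rw [← h1, ← map_finRotate, RR_rl] at h2
  rw [h2]
  have h3 : (fun m => dA (finRotate (n + 1) i) (finRotate (n + 1) j) (rl (finRotate (n + 1)) m)) =
      dA i j := funext fun m => dA_rl _ i j m
  rw [h3]
  rfl

include hrot in
theorem sum_dA (i : Fin (n + 1)) :
    ∑ j ∈ univ.erase i, RR (List.finRange (n + 1)) 0 (dA i j) =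
      ∑ j ∈ univ.erase (0 : Fin (n + 1)), RR (List.finRange (n + 1)) 0 (dA 0 j) := by
  induction i using Fin.induction with
  | zero => rfl
  | succ i ih =>
    rw [← ih]
    have h1 : finRotate (n + 1) i.castSucc = i.succ := by simp
    rw [← h1]
    symm
    refine sum_bij (fun j _ => finRotate (n + 1) j) ?_ ?_ ?_ ?_
    · intro j hj
      rw [mem_erase] at hj ⊢
      exact ⟨fun h => hj.1 ((finRotate (n + 1)).injective h), mem_univ _⟩
    · intro a _ b _ h
      exact (finRotate (n + 1)).injective h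
    · intro b hb
      rw [mem_erase] at hb
      refine ⟨(finRotate (n + 1)).symm b, ?_, by simp⟩
      rw [mem_erase]
      refine ⟨fun h => hb.1 ?_, mem_univ _⟩
      rw [← h]
      simp
    · intro j _
      exact (RR_dA_rot hrot i.castSucc j).symm

include hrot in
theorem sum_rhoF : 2 * (Real.sqrt 2 : ℂ) *
      ∑ T ∈ (univ : Finset (Finset (Fin (n + 1)))).filter (fun T => T.card = 2),
        rhoF (RRL (List.finRange (n + 1)) 0) T =
    ((n + 1 : ℕ) : ℂ) * ((Real.cos (3 * Real.pi / 8) : ℝ) : ℂ) *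
      ∑ j ∈ univ.erase (0 : Fin (n + 1)), RR (List.finRange (n + 1)) 0 (dA 0 j) := by
  have h1 := sum_pairs (rhoF (RRL (List.finRange (n + 1)) 0))
  have h2 : ∑ i : Fin (n + 1), ∑ j ∈ univ.erase i, rhoF (RRL (List.finRange (n + 1)) 0) {i, j} =
      bb ^ 2 * (((n + 1 : ℕ) : ℂ) *
        ∑ j ∈ univ.erase (0 : Fin (n + 1)), RR (List.finRange (n + 1)) 0 (dA 0 j)) := by
    have h3 : ∀ i : Fin (n + 1), ∑ j ∈ univ.erase i, rhoF (RRL (List.finRange (n + 1)) 0) {i, j} =
        bb ^ 2 * ∑ j ∈ univ.erase (0 : Fin (n + 1)), RR (List.finRange (n + 1)) 0 (dA 0 j) := by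
      intro i
      rw [← sum_dA hrot i, mul_sum]
      refine sum_congr rfl fun j hj => ?_
      rw [rhoF_pair _ (mem_erase.1 hj).1.symm, RRL_apply]
    rw [sum_congr rfl fun i _ => h3 i, sum_const, card_univ, Fintype.card_fin, nsmul_eq_mul]
    ring
  have h4 : (Real.sqrt 2 : ℂ) * bb ^ 2 = ((Real.cos (3 * Real.pi / 8) : ℝ) : ℂ) := by
    have h5 : ((Real.cos (3 * Real.pi / 8) : ℝ) : ℂ) = sin lam := by
      rw [← cos_3lam, Complex.ofReal_cos]
      congr 1
      unfold lam
      push_cast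
      ring
    rw [bb_sq, sin_2lam, h5, ← mul_assoc, ← Complex.ofReal_mul]
    have h6 : Real.sqrt 2 * (Real.sqrt 2 / 2) = 1 := by
      have := Real.mul_self_sqrt (show (0 : ℝ) ≤ 2 by norm_num)
      linarith
    rw [h6, Complex.ofReal_one, one_mul]
  rw [← h4, mul_comm (2 : ℂ), mul_assoc, h1, h2]
  ring

end rotation

/-- Total mass of the single arcs which end in the line `0`. -/
noncomputable def SR (L : ℕ) : ℂ := ∑ k : Fin L,
  if (⟨0, k.pos⟩ : Fin L) ≠ k then RR (List.finRange L) 0 (dA ⟨0, k.pos⟩ k) else 0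

theorem SR_succ (n : ℕ) : SR (n + 1) =
    ∑ j ∈ univ.erase (0 : Fin (n + 1)), RR (List.finRange (n + 1)) 0 (dA 0 j) := by
  unfold SR
  rw [← add_sum_erase univ _ (mem_univ (0 : Fin (n + 1)))]
  have h0 : (⟨0, (0 : Fin (n + 1)).pos⟩ : Fin (n + 1)) = 0 := rfl
  rw [h0, if_neg (fun h => h rfl), zero_add]
  refine sum_congr rfl fun j hj => ?_
  have hj' : (⟨0, j.pos⟩ : Fin (n + 1)) = 0 := rfl
  rw [hj', if_pos (mem_erase.1 hj).1.symm]

theorem sum_rhoF' (hL : 1 ≤ L) (h : HexRot (0 : Fin L → ℂ)) : 2 * (Real.sqrt 2 : ℂ) *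
      ∑ T ∈ (univ : Finset (Finset (Fin L))).filter (fun T => T.card = 2),
        rhoF (RRL (List.finRange L) 0) T =
    (L : ℂ) * ((Real.cos (3 * Real.pi / 8) : ℝ) : ℂ) * SR L := by
  obtain ⟨n, rfl⟩ : ∃ n, L = n + 1 := ⟨L - 1, by omega⟩
  rw [sum_rhoF h.2, SR_succ]

theorem tendsto_uu : Tendsto (fun ε : ℝ => (A3.uu ε : Fin L → ℂ)) (𝓝[≠] 0) (𝓝 0) := by
  rw [tendsto_pi_nhds]
  intro j
  have h : Continuous fun ε : ℝ => A3.uu ε j := by
    unfold A3.uu
    fun_prop
  have h1 := h.tendsto 0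
  have h2 : A3.uu (0 : ℝ) j = 0 := by
    unfold A3.uu
    simp
  rw [h2] at h1
  exact h1.mono_left nhdsWithin_le_nhds

theorem Rel_of {U : Fin L → ℂ} (h : HexRot U) : A3.Rel (rhoF (RRL (List.finRange L) U)) U := by
  intro j
  have h1 := step3 U (fun l => RR l U) h.1 h.2 (fun l c F => RR_smul l U c F) (List.finRange L)
    (List.nodup_finRange L) List.mem_finRange j
  have h2 : ∀ v, Ph (RR (List.finRange L) U) U v = A3.Phi (rhoF (RRL (List.finRange L) U)) U v :=
    fun v => Ph_eq (RRL (List.finRange L) U) U v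
  rw [h2, h2, aa_eq] at h1
  simp only [kk_eq] at h1
  exact h1

section main

variable (hD : PowZero (List.finRange L)) (hE : ∀ᶠ U in 𝓝 (0 : Fin L → ℂ), HexRot U)

include hD in
theorem ev_empty : ∀ᶠ ε in 𝓝[≠] (0 : ℝ), rhoF (RRL (List.finRange L) (A3.uu ε)) ∅ = 1 := by
  have h := (RR_main (List.finRange L) hD).2
  filter_upwards [tendsto_uu.eventually h] with ε hε
  exact rhoF_empty _ hε.2.1

theorem ev_odd : ∀ᶠ ε in 𝓝[≠] (0 : ℝ), ∀ T : Finset (Fin L), Odd T.card →
    rhoF (RRL (List.finRange L) (A3.uu ε)) T = 0 :=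
  Eventually.of_forall fun _ _ hT => rhoF_odd _ hT

include hE in
theorem ev_rel : ∀ᶠ ε in 𝓝[≠] (0 : ℝ),
    A3.Rel (rhoF (RRL (List.finRange L) (A3.uu ε))) (A3.uu ε) := by
  filter_upwards [tendsto_uu.eventually hE] with ε hε
  exact Rel_of hε

include hD in
theorem lim_rho (T : Finset (Fin L)) : Tendsto (fun ε : ℝ => rhoF (RRL (List.finRange L) (A3.uu ε)) T)
    (𝓝[≠] 0) (𝓝 (rhoF (RRL (List.finRange L) 0) T)) :=
  ((RR_main (List.finRange L) hD).1 (indT T)).tendsto.comp tendsto_uu

end main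

end Pool.Agent.BEX
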