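import Pool.Agent.BEX.AYb2

/-!
# BEX, part A: commutation of disjoint moves, and `capF_Rt`, `cupF_Rt`
-/

namespace Pool.Agent.BEX

section Moves

variable {ι : Type*}

theorem St.inv' (m : St ι) : ∀ x, m (m x) = x := m.2

variable [DecidableEq ι]

theorem St.cp_apply (m : St ι) (p q x : ι) (h : m p ≠ p) (h' : m q ≠ q) :
    m.cp p q x = if x = p then p else if x = q then q else
      if x = m p then m q else if x = m q then m p else m x := by
  unfold St.cp
  rw [dif_pos ⟨h, h'⟩]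
  rfl

theorem St.cp_junk (m : St ι) (p q : ι) (h : ¬ (m p ≠ p ∧ m q ≠ q)) : m.cp p q = m := by
  unfold St.cp
  rw [dif_neg h]

theorem St.jn_apply (m : St ι) (p q x : ι) (h : m p = p) (h' : m q = q) :
    m.jn p q x = if x = p then q else if x = q then p else m x := by
  unfold St.jn
  rw [dif_pos ⟨h, h'⟩]
  rfl

theorem St.jn_junk (m : St ι) (p q : ι) (h : ¬ (m p = p ∧ m q = q)) : m.jn p q = m := by
  unfold St.jn
  rw [dif_neg h]

theorem St.sw_apply (m : St ι) (p q x : ι) :
    m.sw p q x = Equiv.swap p q (m (Equiv.swap p q x)) := rfl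

theorem St.sw_fix (m : St ι) {p q r s : ι} (hpr : p ≠ r) (hqr : q ≠ r) (hps : p ≠ s)
    (hqs : q ≠ s) : (m.sw p q r = s ↔ m r = s) := by
  rw [m.sw_apply, Equiv.swap_apply_of_ne_of_ne hpr.symm hqr.symm, Equiv.swap_apply_eq_iff,
    Equiv.swap_apply_of_ne_of_ne hps.symm hqs.symm]

theorem St.jn_fix (m : St ι) {p q r : ι} (hpr : p ≠ r) (hqr : q ≠ r) : m.jn p q r = m r := by
  by_cases h : m p = p ∧ m q = q
  · rw [m.jn_apply p q r h.1 h.2, if_neg hpr.symm, if_neg hqr.symm]
  · rw [m.jn_junk p q h]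

theorem St.cp_fix (m : St ι) {p q r : ι} (hpq : p ≠ q) (hpr : p ≠ r) (hqr : q ≠ r) :
    (m.cp p q r = r ↔ m r = r) := by
  by_cases h : m p ≠ p ∧ m q ≠ q
  · rw [m.cp_apply p q r h.1 h.2]
    have i1 := m.inv' p
    have i2 := m.inv' q
    have i3 := m.inv' r
    obtain ⟨h1, h2⟩ := h
    grind
  · rw [m.cp_junk p q h]

/-- an arc `r - s` survives the cap on `p`, `q` -/
theorem St.cp_arc (m : St ι) {p q r s : ι} (hpr : p ≠ r) (hqr : q ≠ r)
    (hps : p ≠ s) (hqs : q ≠ s) (h : m r = s) : m.cp p q r = s := by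
  by_cases h' : m p ≠ p ∧ m q ≠ q
  · rw [m.cp_apply p q r h'.1 h'.2]
    have i1 := m.inv' p
    have i2 := m.inv' q
    have i3 := m.inv' r
    obtain ⟨h1, h2⟩ := h'
    grind
  · rw [m.cp_junk p q h', h]

theorem St.cp_cp (m : St ι) {p q r s : ι} (hpq : p ≠ q) (hpr : p ≠ r) (hps : p ≠ s)
    (hqr : q ≠ r) (hqs : q ≠ s) (hrs : r ≠ s) :
    (m.cp p q).cp r s = (m.cp r s).cp p q := by
  by_cases h1 : m p ≠ p ∧ m q ≠ q
  · by_cases h2 : m r ≠ r ∧ m s ≠ s
    · have a1 : m.cp p q r ≠ r := by rw [Ne, m.cp_fix hpq hpr hqr]; exact h2.1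
      have a2 : m.cp p q s ≠ s := by rw [Ne, m.cp_fix hpq hps hqs]; exact h2.2
      have a3 : m.cp r s p ≠ p := by rw [Ne, m.cp_fix hrs hpr.symm hps.symm]; exact h1.1
      have a4 : m.cp r s q ≠ q := by rw [Ne, m.cp_fix hrs hqr.symm hqs.symm]; exact h1.2
      ext x
      rw [St.cp_apply _ _ _ _ a1 a2, St.cp_apply _ _ _ _ a3 a4]
      simp only [m.cp_apply p q _ h1.1 h1.2, m.cp_apply r s _ h2.1 h2.2, if_neg hpr, if_neg hps,
        if_neg hqr, if_neg hqs, if_neg hpr.symm, if_neg hps.symm, if_neg hqr.symm, if_neg hqs.symm]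
      clear a1 a2 a3 a4
      have i1 := m.inv' p
      have i2 := m.inv' q
      have i3 := m.inv' r
      have i4 := m.inv' s
      have i5 := m.inv' x
      obtain ⟨h11, h12⟩ := h1
      obtain ⟨h21, h22⟩ := h2
      generalize m p = P at *
      generalize m q = Q at *
      generalize m r = R at *
      generalize m s = S at *
      generalize m x = X at *
      grind (splits := 40)
    · rw [m.cp_junk r s h2, St.cp_junk]
      rw [Ne, Ne, m.cp_fix hpq hpr hqr, m.cp_fix hpq hps hqs]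
      exact h2
  · rw [m.cp_junk p q h1, (m.cp r s).cp_junk p q]
    rw [Ne, Ne, m.cp_fix hrs hpr.symm hps.symm, m.cp_fix hrs hqr.symm hqs.symm]
    exact h1

theorem St.jn_cp (m : St ι) {p q r s : ι} (hpr : p ≠ r) (hps : p ≠ s)
    (hqr : q ≠ r) (hqs : q ≠ s) (hrs : r ≠ s) :
    (m.jn p q).cp r s = (m.cp r s).jn p q := by
  by_cases h1 : m p = p ∧ m q = q
  · by_cases h2 : m r ≠ r ∧ m s ≠ s
    · have a1 : m.jn p q r ≠ r := by rw [m.jn_fix hpr hqr]; exact h2.1
      have a2 : m.jn p q s ≠ s := by rw [m.jn_fix hps hqs]; exact h2.2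
      have a3 : m.cp r s p = p := by rw [m.cp_fix hrs hpr.symm hps.symm]; exact h1.1
      have a4 : m.cp r s q = q := by rw [m.cp_fix hrs hqr.symm hqs.symm]; exact h1.2
      ext x
      rw [St.cp_apply _ _ _ _ a1 a2, St.jn_apply _ _ _ _ a3 a4]
      simp only [m.jn_apply p q _ h1.1 h1.2, m.cp_apply r s _ h2.1 h2.2]
      clear a1 a2 a3 a4
      have i1 := m.inv' p
      have i2 := m.inv' q
      have i3 := m.inv' r
      have i4 := m.inv' s
      have i5 := m.inv' x
      obtain ⟨h11, h12⟩ := h1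
      obtain ⟨h21, h22⟩ := h2
      generalize m p = P at *
      generalize m q = Q at *
      generalize m r = R at *
      generalize m s = S at *
      generalize m x = X at *
      grind (splits := 40)
    · rw [m.cp_junk r s h2, St.cp_junk]
      rw [m.jn_fix hpr hqr, m.jn_fix hps hqs]
      exact h2
  · rw [m.jn_junk p q h1, (m.cp r s).jn_junk p q]
    rw [m.cp_fix hrs hpr.symm hps.symm, m.cp_fix hrs hqr.symm hqs.symm]
    exact h1

theorem St.cp_join_iff (m : St ι) {p q r s : ι} (hpq : p ≠ q) (hpr : p ≠ r) (hps : p ≠ s)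
    (hqr : q ≠ r) (_hqs : q ≠ s) (_hrs : r ≠ s) (h1 : m p ≠ p) (h2 : m q ≠ q) (h3 : m r ≠ r)
    (h4 : m s ≠ s) (h5 : m p ≠ q) (h6 : m r ≠ s) :
    m.cp p q r = s ↔ m.cp r s p = q := by
  rw [m.cp_apply p q r h1 h2, m.cp_apply r s p h3 h4]
  have i1 := m.inv' p
  have i2 := m.inv' q
  have i3 := m.inv' r
  have i4 := m.inv' s
  generalize m p = P at *
  generalize m q = Q at *
  generalize m r = R at *
  generalize m s = S at *
  grind (splits := 40)

/-- `sw` is the action of the relabelling `swap p q`. -/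
theorem Phi_swap (p q : ι) (m n : St ι) (h : Stab (Equiv.swap p q) m) :
    Phi (Equiv.swap p q) (Equiv.swap p q).injective m h n = n.sw p q := by
  ext x
  have : x = Equiv.swap p q (Equiv.swap p q x) := by simp
  rw [this, Phi_apply, St.sw_apply]
  simp

theorem St.sw_cp (m : St ι) {p q r s : ι} (hpr : p ≠ r) (hps : p ≠ s)
    (hqr : q ≠ r) (hqs : q ≠ s) :
    (m.sw p q).cp r s = (m.cp r s).sw p q := by
  have h : Stab (Equiv.swap p q) m := fun a => ⟨Equiv.swap p q (m (Equiv.swap p q a)), by simp⟩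
  rw [← Phi_swap p q m (m.cp r s) h, Phi_cp, Phi_swap,
    Equiv.swap_apply_of_ne_of_ne hpr.symm hqr.symm,
    Equiv.swap_apply_of_ne_of_ne hps.symm hqs.symm]

theorem St.sw_jn (m : St ι) {p q r s : ι} (hpr : p ≠ r) (hps : p ≠ s)
    (hqr : q ≠ r) (hqs : q ≠ s) :
    (m.sw p q).jn r s = (m.jn r s).sw p q := by
  have h : Stab (Equiv.swap p q) m := fun a => ⟨Equiv.swap p q (m (Equiv.swap p q a)), by simp⟩
  rw [← Phi_swap p q m (m.jn r s) h, Phi_jn, Phi_swap,
    Equiv.swap_apply_of_ne_of_ne hpr.symm hqr.symm,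
    Equiv.swap_apply_of_ne_of_ne hps.symm hqs.symm]

end Moves

section Cap

variable {ι : Type*}

theorem lb_inj : Function.Injective (lb : ι → Option (Option ι)) := by
  intro a b h
  simpa [lb] using h

@[simp] theorem lb_ne_ax (i : ι) : lb i ≠ ax := by simp [lb, ax]
@[simp] theorem lb_ne_ax' (i : ι) : lb i ≠ ax' := by simp [lb, ax']
@[simp] theorem ax_ne_lb (i : ι) : ax ≠ lb i := by simp [lb, ax]
@[simp] theorem ax'_ne_lb (i : ι) : ax' ≠ lb i := by simp [lb, ax']
@[simp] theorem ax_ne_ax' : (ax : Option (Option ι)) ≠ ax' := by simp [ax, ax']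
@[simp] theorem ax'_ne_ax : (ax' : Option (Option ι)) ≠ ax := by simp [ax, ax']

theorem oo_cases (x : Option (Option ι)) : x = ax ∨ x = ax' ∨ ∃ i, x = lb i := by
  rcases x with _ | _ | i
  · exact Or.inl rfl
  · exact Or.inr (Or.inl rfl)
  · exact Or.inr (Or.inr ⟨i, rfl⟩)

@[simp] theorem ext0_lb (m : St ι) (i : ι) : ext0 m (lb i) = lb (m i) := rfl
@[simp] theorem ext0_ax (m : St ι) : ext0 m ax = ax := rfl
@[simp] theorem ext0_ax' (m : St ι) : ext0 m ax' = ax' := rfl

theorem stab_emp {α β : Type*} (f : α → β) : Stab f (St.emp : St β) := fun a => ⟨a, rfl⟩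

theorem ext0_eq (m : St ι) : ext0 m = Phi lb lb_inj St.emp (stab_emp _) m := by
  refine St.ext' fun x => ?_
  rcases oo_cases x with rfl | rfl | ⟨i, rfl⟩
  · rw [Phi_out]
    · rfl
    · rintro ⟨a, ha⟩; simp at ha
  · rw [Phi_out]
    · rfl
    · rintro ⟨a, ha⟩; simp at ha
  · simp

theorem resf_of (M : St (Option (Option ι))) {i j : ι} (h : M (lb i) = lb j) :
    resf M i = j := by
  unfold resf
  rw [h]
  rfl

variable [DecidableEq ι]

theorem res_ext0 [Fintype ι] (m : St ι) : res (ext0 m) = m := by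
  have h : ∀ i, resf (ext0 m) i = m i := fun i => resf_of _ (ext0_lb m i)
  have h' : ∀ i, resf (ext0 m) (resf (ext0 m) i) = i := by
    intro i; rw [h, h, m.inv]
  unfold res
  rw [dif_pos h']
  ext i
  exact h i

theorem ext0_res [Fintype ι] (M : St (Option (Option ι))) (h : M ax = ax) (h' : M ax' = ax') :
    ext0 (res M) = M := by
  have h1 : ∀ i, ∃ j, M (lb i) = lb j := by
    intro i
    rcases oo_cases (M (lb i)) with e | e | ⟨j, e⟩
    · exact absurd (M.inj (e.trans h.symm)) (by simp)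
    · exact absurd (M.inj (e.trans h'.symm)) (by simp)
    · exact ⟨j, e⟩
  have h2 : ∀ i, resf M (resf M i) = i := by
    intro i
    obtain ⟨j, hj⟩ := h1 i
    rw [resf_of M hj]
    exact resf_of M (by rw [← hj]; simp)
  unfold res
  rw [dif_pos h2]
  refine St.ext' fun x => ?_
  rcases oo_cases x with rfl | rfl | ⟨i, rfl⟩
  · rw [h]; rfl
  · rw [h']; rfl
  · obtain ⟨j, hj⟩ := h1 i
    show lb (resf M i) = _
    rw [resf_of M hj, hj]

theorem stab_arc : Stab (lb : ι → Option (Option ι)) ((St.emp).jn ax ax') := by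
  intro a
  refine ⟨a, ?_⟩
  rw [St.jn_fix _ (by simp) (by simp)]
  rfl

theorem ext1_eq (m : St ι) :
    ext1 m = Phi lb lb_inj ((St.emp).jn ax ax') stab_arc m := by
  have e1 : (ext0 m) ax = ax := rfl
  have e2 : (ext0 m) ax' = ax' := rfl
  have e3 : (St.emp : St (Option (Option ι))) ax = ax := rfl
  have e4 : (St.emp : St (Option (Option ι))) ax' = ax' := rfl
  refine St.ext' fun x => ?_
  unfold ext1
  rcases oo_cases x with rfl | rfl | ⟨i, rfl⟩
  · rw [Phi_out, St.jn_apply _ _ _ _ e1 e2, St.jn_apply _ _ _ _ e3 e4]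
    · simp
    · rintro ⟨a, ha⟩; simp at ha
  · rw [Phi_out, St.jn_apply _ _ _ _ e1 e2, St.jn_apply _ _ _ _ e3 e4]
    · simp
    · rintro ⟨a, ha⟩; simp at ha
  · rw [Phi_apply, St.jn_fix _ (by simp) (by simp)]
    rfl

/-- The cup commutes with the operators on the lines. -/
theorem cupF_Rt (i j : ι) (x : ℂ) (G : St (Option (Option ι)) → ℂ) :
    cupF (Rt (lb i) (lb j) x G) = Rt i j x (cupF G) := by
  funext m
  unfold cupF
  rw [ext0_eq, ext1_eq, Rt_Phi, Rt_Phi]
  simp only [← ext0_eq, ← ext1_eq]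
  unfold Rt
  split_ifs <;> ring

variable [Fintype ι]

theorem capF_ext0 (F : St ι → ℂ) (m : St ι) : capF F (ext0 m) = F m := by
  unfold capF
  rw [if_pos (ext0_ax m), if_pos (ext0_ax' m), res_ext0]

theorem capF_zero (F : St ι → ℂ) (M : St (Option (Option ι))) (h : M ax = ax ∨ M ax' = ax')
    (h' : ¬ (M ax = ax ∧ M ax' = ax')) : capF F M = 0 := by
  unfold capF
  split_ifs with h1 h2 h3 h4
  · exact absurd ⟨h1, h2⟩ h'
  · rfl
  · rfl
  · rfl
  · exact absurd h (by push Not; exact ⟨h1, h3⟩)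

theorem capF_arc (F : St ι → ℂ) (M : St (Option (Option ι))) (h : M ax = ax') :
    capF F M = 0 := by
  unfold capF
  have h1 : M ax' = ax := by rw [← h]; simp
  rw [if_neg (by rw [h]; simp), if_neg (by rw [h1]; simp), if_pos h]

theorem capF_cp (F : St ι → ℂ) (M : St (Option (Option ι))) (h : M ax ≠ ax) (h' : M ax' ≠ ax')
    (h'' : M ax ≠ ax') : capF F M = F (res (M.cp ax ax')) := by
  unfold capF
  rw [if_neg h, if_neg h', if_neg h'']

omit [Fintype ι] in
theorem cp_ax {M : St (Option (Option ι))} (h : M ax ≠ ax) (h' : M ax' ≠ ax') :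
    (M.cp ax ax') ax = ax ∧ (M.cp ax ax') ax' = ax' := by
  rw [M.cp_apply _ _ _ h h', M.cp_apply _ _ _ h h']
  simp

/-- The cap commutes with the operators on the lines. -/
theorem capF_Rt {i j : ι} (hij : i ≠ j) (x : ℂ) (F : St ι → ℂ) :
    capF (Rt i j x F) = Rt (lb i) (lb j) x (capF F) := by
  have hL : (lb i : Option (Option ι)) ≠ lb j := fun h => hij (lb_inj h)
  funext M
  by_cases hA : M ax = ax ∧ M ax' = ax'
  · -- both auxiliary ends are empty
    obtain ⟨m, rfl⟩ : ∃ m, M = ext0 m := ⟨_, (ext0_res M hA.1 hA.2).symm⟩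
    rw [capF_ext0, ext0_eq, Rt_Phi]
    simp only [← ext0_eq, capF_ext0]
  by_cases hB : M ax = ax ∨ M ax' = ax'
  · -- exactly one of them is empty
    rw [capF_zero _ _ hB hA]
    have key : ∀ N : St (Option (Option ι)), (N ax = ax ↔ M ax = ax) →
        (N ax' = ax' ↔ M ax' = ax') → capF F N = 0 := fun N h1 h2 =>
      capF_zero _ _ (by rw [h1, h2]; exact hB) (by rw [h1, h2]; exact hA)
    have k0 := key M Iff.rfl Iff.rfl
    have k1 := key (M.sw (lb i) (lb j)) (M.sw_fix (by simp) (by simp) (by simp) (by simp))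
      (M.sw_fix (by simp) (by simp) (by simp) (by simp))
    have k2 := key (M.jn (lb i) (lb j)) (by rw [M.jn_fix (by simp) (by simp)])
      (by rw [M.jn_fix (by simp) (by simp)])
    have k3 := key (M.cp (lb i) (lb j)) (M.cp_fix hL (by simp) (by simp))
      (M.cp_fix hL (by simp) (by simp))
    have k4 := key ((M.cp (lb i) (lb j)).jn (lb i) (lb j))
      (by rw [St.jn_fix _ (by simp) (by simp)]; exact M.cp_fix hL (by simp) (by simp))
      (by rw [St.jn_fix _ (by simp) (by simp)]; exact M.cp_fix hL (by simp) (by simp))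
    unfold Rt
    rw [k0, k1, k2, k3, k4]
    split_ifs <;> ring
  by_cases hC : M ax = ax'
  · -- they are joined
    rw [capF_arc _ _ hC]
    have k0 := capF_arc F M hC
    have k1 := capF_arc F (M.sw (lb i) (lb j))
      ((M.sw_fix (by simp) (by simp) (by simp) (by simp)).2 hC)
    have k2 := capF_arc F (M.jn (lb i) (lb j)) (by rw [M.jn_fix (by simp) (by simp)]; exact hC)
    have k3 := capF_arc F (M.cp (lb i) (lb j))
      (M.cp_arc (by simp) (by simp) (by simp) (by simp) hC)
    have k4 := capF_arc F ((M.cp (lb i) (lb j)).jn (lb i) (lb j))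
      (by rw [St.jn_fix _ (by simp) (by simp)]
          exact M.cp_arc (by simp) (by simp) (by simp) (by simp) hC)
    unfold Rt
    rw [k0, k1, k2, k3, k4]
    split_ifs <;> ring
  -- both occupied, not joined
  push Not at hB
  obtain ⟨hB1, hB2⟩ := hB
  obtain ⟨c1, c2⟩ := cp_ax hB1 hB2
  rw [capF_cp _ _ hB1 hB2 hC]
  obtain ⟨m, hm⟩ : ∃ m, M.cp ax ax' = ext0 m := ⟨_, (ext0_res _ c1 c2).symm⟩
  rw [hm, res_ext0]
  -- the value of `capF F` after a move
  have key : ∀ (N : St (Option (Option ι))) (n : St ι), (N ax = ax ↔ M ax = ax) →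
      (N ax' = ax' ↔ M ax' = ax') → N ax ≠ ax' → N.cp ax ax' = ext0 n → capF F N = F n := by
    intro N n h1 h2 h3 h4
    rw [capF_cp _ _ (by rw [Ne, h1]; exact hB1) (by rw [Ne, h2]; exact hB2) h3, h4, res_ext0]
  have e_i : M (lb i) = lb i ↔ m i = i := by
    rw [← M.cp_fix (p := ax) (q := ax') (by simp) (by simp) (by simp), hm, ext0_lb, lb_inj.eq_iff]
  have e_j : M (lb j) = lb j ↔ m j = j := by
    rw [← M.cp_fix (p := ax) (q := ax') (by simp) (by simp) (by simp), hm, ext0_lb, lb_inj.eq_iff]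
  have k0 : capF F M = F m := key M m Iff.rfl Iff.rfl hC hm
  have k1 : capF F (M.sw (lb i) (lb j)) = F (m.sw i j) := by
    refine key _ _ (M.sw_fix (by simp) (by simp) (by simp) (by simp))
      (M.sw_fix (by simp) (by simp) (by simp) (by simp)) ?_ ?_
    · rw [Ne, M.sw_fix (by simp) (by simp) (by simp) (by simp)]
      exact hC
    · rw [St.sw_cp _ (by simp) (by simp) (by simp) (by simp), hm, ext0_eq, ext0_eq, Phi_sw]
  have k2 : capF F (M.jn (lb i) (lb j)) = F (m.jn i j) := by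
    refine key _ _ (by rw [M.jn_fix (by simp) (by simp)]) (by rw [M.jn_fix (by simp) (by simp)])
      (by rw [M.jn_fix (by simp) (by simp)]; exact hC) ?_
    rw [St.jn_cp _ (by simp) (by simp) (by simp) (by simp) (by simp), hm, ext0_eq, ext0_eq, Phi_jn]
  unfold Rt
  by_cases hi : m i = i
  · by_cases hj : m j = j
    · rw [if_pos hi, if_pos hj, if_pos (e_i.2 hi), if_pos (e_j.2 hj), k0, k2]
    · rw [if_pos hi, if_neg hj, if_pos (e_i.2 hi), if_neg (e_j.not.2 hj), k0, k1]
  by_cases hj : m j = j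
  · rw [if_neg hi, if_pos hj, if_neg (e_i.not.2 hi), if_pos (e_j.2 hj), k0, k1]
  have hi' := e_i.not.2 hi
  have hj' := e_j.not.2 hj
  rw [if_neg hi, if_neg hj, if_neg hi', if_neg hj']
  by_cases hJ : M (lb i) = lb j
  · have hJ' : m i = j := by
      have := M.cp_arc (p := ax) (q := ax') (by simp) (by simp) (by simp) (by simp) hJ
      rw [hm, ext0_lb, lb_inj.eq_iff] at this
      exact this
    rw [if_pos hJ, if_pos hJ', k0]
  have hiff : m i = j ↔ (M.cp (lb i) (lb j)) ax = ax' := by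
    rw [M.cp_join_iff hL (by simp) (by simp) (by simp) (by simp) (by simp) hi' hj' hB1 hB2 hJ hC,
      hm, ext0_lb, lb_inj.eq_iff]
  rw [if_neg hJ, k1]
  by_cases hJ' : m i = j
  · have a3 := hiff.1 hJ'
    have k3 := capF_arc F (M.cp (lb i) (lb j)) a3
    have k4 := capF_arc F ((M.cp (lb i) (lb j)).jn (lb i) (lb j))
      (by rw [St.jn_fix _ (by simp) (by simp)]; exact a3)
    have k5 : m.sw i j = m := by
      have hj2 : m j = i := by rw [← hJ']; simp
      ext y
      rw [St.sw_apply]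
      by_cases h1 : y = i
      · subst h1; simp [hJ', hj2]
      by_cases h2 : y = j
      · subst h2; simp [hJ', hj2]
      rw [Equiv.swap_apply_of_ne_of_ne h1 h2, Equiv.swap_apply_of_ne_of_ne]
      · exact fun h => h2 (m.inj (h.trans hj2.symm))
      · exact fun h => h1 (m.inj (h.trans hJ'.symm))
    rw [if_pos hJ', k3, k4, k5]
    ring
  · have k3 : capF F (M.cp (lb i) (lb j)) = F (m.cp i j) := by
      refine key _ _ (M.cp_fix hL (by simp) (by simp)) (M.cp_fix hL (by simp) (by simp))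
        (hiff.not.1 hJ') ?_
      rw [St.cp_cp _ hL (by simp) (by simp) (by simp) (by simp) (by simp), hm, ext0_eq, ext0_eq,
        Phi_cp]
    have k4 : capF F ((M.cp (lb i) (lb j)).jn (lb i) (lb j)) = F ((m.cp i j).jn i j) := by
      refine key _ _ (by rw [St.jn_fix _ (by simp) (by simp)]; exact M.cp_fix hL (by simp) (by simp))
        (by rw [St.jn_fix _ (by simp) (by simp)]; exact M.cp_fix hL (by simp) (by simp))
        (by rw [St.jn_fix _ (by simp) (by simp)]; exact hiff.not.1 hJ') ?_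
      rw [St.jn_cp _ (by simp) (by simp) (by simp) (by simp) (by simp),
        St.cp_cp _ hL (by simp) (by simp) (by simp) (by simp) (by simp), hm, ext0_eq, ext0_eq,
        Phi_jn, Phi_cp]
    rw [if_neg hJ', k3, k4]

end Cap

end Pool.Agent.BEX
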