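import Pool.Agent.BEX.AYb1

/-!
# BEX, part A: R-operators of disjoint pairs of lines commute
-/

set_option linter.unusedVariables false
set_option linter.unusedSectionVars false

namespace Pool.Agent.BEX

namespace Far

variable {ι : Type*} [DecidableEq ι]

theorem jn_ap {p q : ι} {m : St ι} (hp : m p = p) (hq : m q = q) (i : ι) :
    (m.jn p q) i = if i = p then q else if i = q then p else m i := by
  unfold St.jn
  rw [dif_pos ⟨hp, hq⟩]
  rfl

theorem jn_neg {p q : ι} {m : St ι} (h : ¬ (m p = p ∧ m q = q)) : m.jn p q = m := by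
  unfold St.jn
  rw [dif_neg h]

theorem cp_ap {p q : ι} {m : St ι} (hp : m p ≠ p) (hq : m q ≠ q) (i : ι) :
    (m.cp p q) i = if i = p then p else if i = q then q else
    if i = m p then m q else if i = m q then m p else m i := by
  unfold St.cp
  rw [dif_pos ⟨hp, hq⟩]
  rfl

theorem sw_ap (p q : ι) (m : St ι) (i : ι) :
    (m.sw p q) i = Equiv.swap p q (m (Equiv.swap p q i)) := rfl

theorem sw_ap' (p q : ι) (m : St ι) (i : ι) :
    (m.sw p q) i = if m (if i = p then q else if i = q then p else i) = p then q else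
      if m (if i = p then q else if i = q then p else i) = q then p else
        m (if i = p then q else if i = q then p else i) := by
  rw [sw_ap, Equiv.swap_apply_def, Equiv.swap_apply_def]

/-! ### the state at the other labels -/

section other

variable {p q r s : ι} {m : St ι}

theorem sw_fix (h1 : r ≠ p) (h2 : r ≠ q) : (m.sw p q) r = r ↔ m r = r := by
  rw [sw_ap']
  grind (splits := 40)

theorem sw_lnk (h1 : r ≠ p) (h2 : r ≠ q) (h3 : s ≠ p) (h4 : s ≠ q) :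
    (m.sw p q) r = s ↔ m r = s := by
  rw [sw_ap']
  grind (splits := 40)

theorem jn_fix (hp : m p = p) (hq : m q = q) (h1 : r ≠ p) (h2 : r ≠ q) :
    (m.jn p q) r = r ↔ m r = r := by
  rw [jn_ap hp hq]
  grind (splits := 40)

theorem jn_lnk (hp : m p = p) (hq : m q = q) (h1 : r ≠ p) (h2 : r ≠ q) :
    (m.jn p q) r = s ↔ m r = s := by
  rw [jn_ap hp hq]
  grind (splits := 40)

theorem cp_fix (hp : m p ≠ p) (hq : m q ≠ q) (hpq : p ≠ q) (h0 : m p ≠ q) (h1 : r ≠ p) (h2 : r ≠ q) :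
    (m.cp p q) r = r ↔ m r = r := by
  have i1 := m.inv p
  have i2 := m.inv q
  have i3 := m.inv r
  rw [cp_ap hp hq]
  grind (splits := 40)

theorem cp_lnk (hp : m p ≠ p) (hq : m q ≠ q) (hpq : p ≠ q) (h0 : m p ≠ q) (h1 : r ≠ p) (h2 : r ≠ q)
    (h3 : s ≠ p) (h4 : s ≠ q) :
    (m.cp p q) r = s ↔ (m r = s ∨ (r = m p ∧ s = m q) ∨ (r = m q ∧ s = m p)) := by
  have i1 := m.inv p
  have i2 := m.inv q
  have i3 := m.inv r
  have i4 := m.inv s
  rw [cp_ap hp hq]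
  grind (splits := 40)

theorem cp_p (hp : m p ≠ p) (hq : m q ≠ q) : (m.cp p q) p = p := by
  rw [cp_ap hp hq]; simp

theorem cp_q (hp : m p ≠ p) (hq : m q ≠ q) : (m.cp p q) q = q := by
  rw [cp_ap hp hq]; grind

end other

/-! ### commutation -/

section comm

variable {p q a b : ι} {m : St ι}

theorem sw_sw (hpa : p ≠ a) (hpb : p ≠ b) (hqa : q ≠ a) (hqb : q ≠ b) :
    (m.sw p q).sw a b = (m.sw a b).sw p q := by
  ext x
  rw [sw_ap, sw_ap, sw_ap, sw_ap]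
  have h : ∀ y, Equiv.swap a b (Equiv.swap p q y) = Equiv.swap p q (Equiv.swap a b y) := by
    intro y
    simp only [Equiv.swap_apply_def]
    grind (splits := 40)
  rw [h, h]

theorem jn_sw (hpa : p ≠ a) (hpb : p ≠ b) (hqa : q ≠ a) (hqb : q ≠ b) :
    (m.jn p q).sw a b = (m.sw a b).jn p q := by
  by_cases h : m p = p ∧ m q = q
  · obtain ⟨hp, hq⟩ := h
    have k1 : (m.sw a b) p = p := (sw_fix hpa hpb).2 hp
    have k2 : (m.sw a b) q = q := (sw_fix hqa hqb).2 hq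
    ext x
    have i1 := m.inv a
    have i2 := m.inv b
    have i3 := m.inv x
    rw [sw_ap', jn_ap hp hq, jn_ap k1 k2, sw_ap']
    grind (splits := 60)
  · have k : ¬ ((m.sw a b) p = p ∧ (m.sw a b) q = q) := by
      rw [sw_fix hpa hpb, sw_fix hqa hqb]
      exact h
    rw [jn_neg h, jn_neg k]

theorem cp_sw (hpa : p ≠ a) (hpb : p ≠ b) (hqa : q ≠ a) (hqb : q ≠ b) (hp : m p ≠ p) (hq : m q ≠ q) :
    (m.cp p q).sw a b = (m.sw a b).cp p q := by
  have k1 : (m.sw a b) p ≠ p := fun h => hp ((sw_fix hpa hpb).1 h)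
  have k2 : (m.sw a b) q ≠ q := fun h => hq ((sw_fix hqa hqb).1 h)
  ext x
  rw [cp_ap k1 k2, sw_ap, cp_ap hp hq, sw_ap, sw_ap, sw_ap]
  have e1 : Equiv.swap a b p = p := Equiv.swap_apply_of_ne_of_ne hpa hpb
  have e2 : Equiv.swap a b q = q := Equiv.swap_apply_of_ne_of_ne hqa hqb
  rw [e1, e2]
  have f1 : Equiv.swap a b x = p ↔ x = p := by
    constructor
    · intro h; rw [← e1] at h; exact (Equiv.swap a b).injective h
    · rintro rfl; exact e1
  have f2 : Equiv.swap a b x = q ↔ x = q := by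
    constructor
    · intro h; rw [← e2] at h; exact (Equiv.swap a b).injective h
    · rintro rfl; exact e2
  have f3 : ∀ y, Equiv.swap a b x = y ↔ x = Equiv.swap a b y := by
    intro y
    constructor
    · rintro rfl; simp
    · rintro rfl; simp
  simp only [f1, f2, f3 (m p), f3 (m q)]
  split_ifs <;> simp [e1, e2]

theorem jn_jn (hpa : p ≠ a) (hpb : p ≠ b) (hqa : q ≠ a) (hqb : q ≠ b) (hp : m p = p) (hq : m q = q)
    (ha : m a = a) (hb : m b = b) :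
    (m.jn p q).jn a b = (m.jn a b).jn p q := by
  have k1 : (m.jn p q) a = a := (jn_fix hp hq hpa.symm hqa.symm).2 ha
  have k2 : (m.jn p q) b = b := (jn_fix hp hq hpb.symm hqb.symm).2 hb
  have k3 : (m.jn a b) p = p := (jn_fix ha hb hpa hpb).2 hp
  have k4 : (m.jn a b) q = q := (jn_fix ha hb hqa hqb).2 hq
  ext x
  rw [jn_ap k1 k2, jn_ap k3 k4, jn_ap hp hq, jn_ap ha hb]
  grind (splits := 40)

theorem jn_cp (hpa : p ≠ a) (hpb : p ≠ b) (hqa : q ≠ a) (hqb : q ≠ b) (hp : m p = p) (hq : m q = q)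
    (ha : m a ≠ a) (hb : m b ≠ b) (hab : a ≠ b) (hl : m a ≠ b) :
    (m.jn p q).cp a b = (m.cp a b).jn p q := by
  have k1 : (m.jn p q) a ≠ a := fun h => ha ((jn_fix hp hq hpa.symm hqa.symm).1 h)
  have k2 : (m.jn p q) b ≠ b := fun h => hb ((jn_fix hp hq hpb.symm hqb.symm).1 h)
  have k3 : (m.cp a b) p = p := (cp_fix ha hb hab hl hpa hpb).2 hp
  have k4 : (m.cp a b) q = q := (cp_fix ha hb hab hl hqa hqb).2 hq
  have i1 := m.inv a
  have i2 := m.inv b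
  ext x
  rw [cp_ap k1 k2, jn_ap k3 k4, jn_ap hp hq, jn_ap hp hq, jn_ap hp hq, cp_ap ha hb]
  grind (splits := 40)

/-- cap and cap on four different labels -/
theorem cp_cp (hpa : p ≠ a) (hpb : p ≠ b) (hqa : q ≠ a)
    (hqb : q ≠ b) (hpq : p ≠ q) (hab : a ≠ b) (hp : m p ≠ p) (hq : m q ≠ q) (ha : m a ≠ a) (hb : m b ≠ b)
    (h1 : m p ≠ q) (h2 : m a ≠ b) (h3 : ¬ (m p = a ∧ m q = b)) (h4 : ¬ (m p = b ∧ m q = a)) :
    (m.cp p q).cp a b = (m.cp a b).cp p q := by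
  have i1 := m.inv p
  have i2 := m.inv q
  have i3 := m.inv a
  have i4 := m.inv b
  have k1 : (m.cp p q) a ≠ a := fun h => ha ((cp_fix hp hq hpq h1 hpa.symm hqa.symm).1 h)
  have k2 : (m.cp p q) b ≠ b := fun h => hb ((cp_fix hp hq hpq h1 hpb.symm hqb.symm).1 h)
  have k3 : (m.cp a b) p ≠ p := fun h => hp ((cp_fix ha hb hab h2 hpa hpb).1 h)
  have k4 : (m.cp a b) q ≠ q := fun h => hq ((cp_fix ha hb hab h2 hqa hqb).1 h)
  ext x
  have i5 := m.inv x
  rw [cp_ap k1 k2, cp_ap k3 k4, cp_ap hp hq, cp_ap hp hq, cp_ap hp hq, cp_ap ha hb, cp_ap ha hb, cp_ap ha hb]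
  grind (splits := 40)

end comm

open AY

theorem sw_comm' (a b : ι) (m : St ι) : m.sw a b = m.sw b a := by
  ext x
  rw [sw_ap, sw_ap, Equiv.swap_comm]

theorem jn_comm' {a b : ι} {m : St ι} (ha : m a = a) (hb : m b = b) : m.jn a b = m.jn b a := by
  ext x
  rw [jn_ap ha hb, jn_ap hb ha]
  grind

theorem cp_comm' {a b : ι} {m : St ι} (ha : m a ≠ a) (hb : m b ≠ b) : m.cp a b = m.cp b a := by
  ext x
  have i1 := m.inv a
  have i2 := m.inv b
  rw [cp_ap ha hb, cp_ap hb ha]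
  grind (splits := 40)

/-- The R-operator is symmetric in the two lines. -/
theorem Rt_comm' (a b : ι) (w : ℂ) (G : St ι → ℂ) : Rt a b w G = Rt b a w G := by
  funext m
  by_cases ha : m a = a
  · by_cases hb : m b = b
    · rw [Rt_ee ha hb rfl, Rt_ee hb ha rfl, jn_comm' ha hb]
    · rw [Rt_eo ha hb rfl, Rt_oe hb ha rfl, sw_comm']
  · by_cases hb : m b = b
    · rw [Rt_oe ha hb rfl, Rt_eo hb ha rfl, sw_comm']
    · by_cases h : m a = b
      · have h' : m b = a := by rw [← h]; simp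
        rw [Rt_jj ha hb h, Rt_jj hb ha h']
      · have h' : m b ≠ a := fun h' => h (by rw [← h']; simp)
        have c3 : (m.cp a b) a = a := cp_p ha hb
        have c4 : (m.cp a b) b = b := cp_q ha hb
        rw [Rt_oo ha hb h rfl rfl rfl, Rt_oo hb ha h' rfl rfl rfl, sw_comm' b a, cp_comm' hb ha,
          jn_comm' c4 c3]

theorem Rt_one {p q : ι} {u : ℂ} {F : St ι → ℂ} {m : St ι}
    (h : (m p = p ∧ m q ≠ q) ∨ (m p ≠ p ∧ m q = q)) :
    Rt p q u F m = w6 u * F m + w2 u * F (m.sw p q) := by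
  rcases h with ⟨h1, h2⟩ | ⟨h1, h2⟩
  · exact Rt_eo h1 h2 rfl
  · exact Rt_oe h1 h2 rfl

section far

variable {p q r s : ι} (hpr : p ≠ r) (hps : p ≠ s) (hqr : q ≠ r) (hqs : q ≠ s) (x y : ℂ)
  (F : St ι → ℂ) {m : St ι}

include hpr hps hqr hqs

/-- both empty -/
theorem far_ee (hp : m p = p) (hq : m q = q) (hpq : p ≠ q) (hrs : r ≠ s) :
    Rt p q x (Rt r s y F) m = Rt r s y (Rt p q x F) m := by
  rw [Rt_ee hp hq rfl]
  have j1 : (m.jn p q) r = r ↔ m r = r := jn_fix hp hq hpr.symm hqr.symm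
  have j2 : (m.jn p q) s = s ↔ m s = s := jn_fix hp hq hps.symm hqs.symm
  have j3 : (m.jn p q) r = s ↔ m r = s := jn_lnk hp hq hpr.symm hqr.symm
  by_cases hr : m r = r
  · by_cases hs : m s = s
    · -- ee
      rw [Rt_ee hr hs rfl, Rt_ee (j1.2 hr) (j2.2 hs) rfl, Rt_ee hr hs rfl, Rt_ee hp hq rfl,
        Rt_ee ((jn_fix hr hs hpr hps).2 hp) ((jn_fix hr hs hqr hqs).2 hq) rfl,
        jn_jn hpr hps hqr hqs hp hq hr hs]
      ring
    · have h1 : (m r = r ∧ m s ≠ s) ∨ (m r ≠ r ∧ m s = s) := Or.inl ⟨hr, hs⟩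
      have h2 : ((m.jn p q) r = r ∧ (m.jn p q) s ≠ s) ∨ ((m.jn p q) r ≠ r ∧ (m.jn p q) s = s) :=
        Or.inl ⟨j1.2 hr, fun h => hs (j2.1 h)⟩
      rw [Rt_one h1, Rt_one h2, Rt_one h1, Rt_ee hp hq rfl,
        Rt_ee ((sw_fix hpr hps).2 hp) ((sw_fix hqr hqs).2 hq) rfl, jn_sw hpr hps hqr hqs]
      ring
  · by_cases hs : m s = s
    · have h1 : (m r = r ∧ m s ≠ s) ∨ (m r ≠ r ∧ m s = s) := Or.inr ⟨hr, hs⟩
      have h2 : ((m.jn p q) r = r ∧ (m.jn p q) s ≠ s) ∨ ((m.jn p q) r ≠ r ∧ (m.jn p q) s = s) :=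
        Or.inr ⟨fun h => hr (j1.1 h), j2.2 hs⟩
      rw [Rt_one h1, Rt_one h2, Rt_one h1, Rt_ee hp hq rfl,
        Rt_ee ((sw_fix hpr hps).2 hp) ((sw_fix hqr hqs).2 hq) rfl, jn_sw hpr hps hqr hqs]
      ring
    · have k1 : (m.jn p q) r ≠ r := fun h => hr (j1.1 h)
      have k2 : (m.jn p q) s ≠ s := fun h => hs (j2.1 h)
      by_cases hl : m r = s
      · rw [Rt_jj hr hs hl, Rt_jj k1 k2 (j3.2 hl), Rt_jj hr hs hl, Rt_ee hp hq rfl]
        ring
      · have c1 : (m.cp r s) p = p := (cp_fix hr hs hrs hl hpr hps).2 hp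
        have c2 : (m.cp r s) q = q := (cp_fix hr hs hrs hl hqr hqs).2 hq
        have c3 : (m.cp r s) r = r := cp_p hr hs
        have c4 : (m.cp r s) s = s := cp_q hr hs
        have c5 : ((m.cp r s).jn r s) p = p := (jn_fix c3 c4 hpr hps).2 c1
        have c6 : ((m.cp r s).jn r s) q = q := (jn_fix c3 c4 hqr hqs).2 c2
        rw [Rt_oo hr hs hl rfl rfl rfl, Rt_oo k1 k2 (fun h => hl (j3.1 h)) rfl rfl rfl,
          Rt_oo hr hs hl rfl rfl rfl, Rt_ee ((sw_fix hpr hps).2 hp) ((sw_fix hqr hqs).2 hq) rfl,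
          Rt_ee c1 c2 rfl, Rt_ee c5 c6 rfl, jn_sw hpr hps hqr hqs,
          jn_cp hpr hps hqr hqs hp hq hr hs hrs hl, jn_jn hpr hps hqr hqs c1 c2 c3 c4]
        ring

/-- one of `p`, `q` is occupied -/
theorem far_one (hpq : p ≠ q) (hrs : r ≠ s) (h1 : (m p = p ∧ m q ≠ q) ∨ (m p ≠ p ∧ m q = q))
    (h2 : (m r = r ∧ m s ≠ s) ∨ (m r ≠ r ∧ m s = s)) :
    Rt p q x (Rt r s y F) m = Rt r s y (Rt p q x F) m := by
  have k1 : ((m.sw r s) p = p ∧ (m.sw r s) q ≠ q) ∨ ((m.sw r s) p ≠ p ∧ (m.sw r s) q = q) := by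
    rw [Ne, Ne, sw_fix hpr hps, sw_fix hqr hqs]
    exact h1
  have k2 : ((m.sw p q) r = r ∧ (m.sw p q) s ≠ s) ∨ ((m.sw p q) r ≠ r ∧ (m.sw p q) s = s) := by
    rw [Ne, Ne, sw_fix hpr.symm hqr.symm, sw_fix hps.symm hqs.symm]
    exact h2
  rw [Rt_one h1, Rt_one h2, Rt_one k2, Rt_one h2, Rt_one h1, Rt_one k1, sw_sw hpr hps hqr hqs]
  ring

theorem far_one_jj (hpq : p ≠ q) (hrs : r ≠ s) (h1 : (m p = p ∧ m q ≠ q) ∨ (m p ≠ p ∧ m q = q))
    (hr : m r ≠ r) (hs : m s ≠ s) (hl : m r = s) :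
    Rt p q x (Rt r s y F) m = Rt r s y (Rt p q x F) m := by
  have k1 : (m.sw p q) r ≠ r := fun h => hr ((sw_fix hpr.symm hqr.symm).1 h)
  have k2 : (m.sw p q) s ≠ s := fun h => hs ((sw_fix hps.symm hqs.symm).1 h)
  have k3 : (m.sw p q) r = s := (sw_lnk hpr.symm hqr.symm hps.symm hqs.symm).2 hl
  rw [Rt_one h1, Rt_jj hr hs hl, Rt_jj k1 k2 k3, Rt_jj hr hs hl, Rt_one h1]
  ring

theorem far_one_oo (hpq : p ≠ q) (hrs : r ≠ s) (h1 : (m p = p ∧ m q ≠ q) ∨ (m p ≠ p ∧ m q = q))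
    (hr : m r ≠ r) (hs : m s ≠ s) (hl : m r ≠ s) :
    Rt p q x (Rt r s y F) m = Rt r s y (Rt p q x F) m := by
  have k1 : (m.sw p q) r ≠ r := fun h => hr ((sw_fix hpr.symm hqr.symm).1 h)
  have k2 : (m.sw p q) s ≠ s := fun h => hs ((sw_fix hps.symm hqs.symm).1 h)
  have k3 : (m.sw p q) r ≠ s := fun h => hl ((sw_lnk hpr.symm hqr.symm hps.symm hqs.symm).1 h)
  have l1 : ((m.sw r s) p = p ∧ (m.sw r s) q ≠ q) ∨ ((m.sw r s) p ≠ p ∧ (m.sw r s) q = q) := by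
    rw [Ne, Ne, sw_fix hpr hps, sw_fix hqr hqs]
    exact h1
  have c3 : (m.cp r s) r = r := cp_p hr hs
  have c4 : (m.cp r s) s = s := cp_q hr hs
  have l2 : ((m.cp r s) p = p ∧ (m.cp r s) q ≠ q) ∨ ((m.cp r s) p ≠ p ∧ (m.cp r s) q = q) := by
    rw [Ne, Ne, cp_fix hr hs hrs hl hpr hps, cp_fix hr hs hrs hl hqr hqs]
    exact h1
  have l3 : (((m.cp r s).jn r s) p = p ∧ ((m.cp r s).jn r s) q ≠ q) ∨
      (((m.cp r s).jn r s) p ≠ p ∧ ((m.cp r s).jn r s) q = q) := by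
    rw [Ne, Ne, jn_fix c3 c4 hpr hps, jn_fix c3 c4 hqr hqs]
    exact l2
  rw [Rt_one h1, Rt_oo hr hs hl rfl rfl rfl, Rt_oo k1 k2 k3 rfl rfl rfl,
    Rt_oo hr hs hl rfl rfl rfl, Rt_one l1, Rt_one l2, Rt_one l3, sw_sw hpr hps hqr hqs,
    ← cp_sw hpr.symm hqr.symm hps.symm hqs.symm hr hs, ← jn_sw hpr.symm hqr.symm hps.symm hqs.symm]
  ring

theorem far_jj (hp : m p ≠ p) (hq : m q ≠ q) (hk : m p = q) (hr : m r ≠ r) (hs : m s ≠ s)
    (hl : m r = s) : Rt p q x (Rt r s y F) m = Rt r s y (Rt p q x F) m := by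
  rw [Rt_jj hp hq hk, Rt_jj hr hs hl, Rt_jj hr hs hl, Rt_jj hp hq hk]
  ring

theorem far_jj_oo (hpq : p ≠ q) (hrs : r ≠ s) (hp : m p ≠ p) (hq : m q ≠ q) (hk : m p = q)
    (hr : m r ≠ r) (hs : m s ≠ s) (hl : m r ≠ s) :
    Rt p q x (Rt r s y F) m = Rt r s y (Rt p q x F) m := by
  have i1 := m.inv p
  have i2 := m.inv q
  have i3 := m.inv r
  have i4 := m.inv s
  have c3 : (m.cp r s) r = r := cp_p hr hs
  have c4 : (m.cp r s) s = s := cp_q hr hs
  have a1 : (m.sw r s) p ≠ p := fun h => hp ((sw_fix hpr hps).1 h)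
  have a2 : (m.sw r s) q ≠ q := fun h => hq ((sw_fix hqr hqs).1 h)
  have a3 : (m.sw r s) p = q := (sw_lnk hpr hps hqr hqs).2 hk
  have b1 : (m.cp r s) p ≠ p := fun h => hp ((cp_fix hr hs hrs hl hpr hps).1 h)
  have b2 : (m.cp r s) q ≠ q := fun h => hq ((cp_fix hr hs hrs hl hqr hqs).1 h)
  have b3 : (m.cp r s) p = q := (cp_lnk hr hs hrs hl hpr hps hqr hqs).2 (Or.inl hk)
  have d1 : ((m.cp r s).jn r s) p ≠ p := fun h => b1 ((jn_fix c3 c4 hpr hps).1 h)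
  have d2 : ((m.cp r s).jn r s) q ≠ q := fun h => b2 ((jn_fix c3 c4 hqr hqs).1 h)
  have d3 : ((m.cp r s).jn r s) p = q := (jn_lnk c3 c4 hpr hps).2 b3
  rw [Rt_jj hp hq hk, Rt_oo hr hs hl rfl rfl rfl, Rt_oo hr hs hl rfl rfl rfl, Rt_jj a1 a2 a3,
    Rt_jj b1 b2 b3, Rt_jj d1 d2 d3]
  ring

/-- four occupied lines, no link of the pairs -/
theorem far_oo (hpq : p ≠ q) (hrs : r ≠ s) (hp : m p ≠ p) (hq : m q ≠ q) (hk : m p ≠ q)
    (hr : m r ≠ r) (hs : m s ≠ s) (hl : m r ≠ s) (h3 : ¬ (m p = r ∧ m q = s))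
    (h4 : ¬ (m p = s ∧ m q = r)) :
    Rt p q x (Rt r s y F) m = Rt r s y (Rt p q x F) m := by
  have i1 := m.inv p
  have i2 := m.inv q
  have i3 := m.inv r
  have i4 := m.inv s
  -- the state seen from `p`, `q` after an operation at `r`, `s`
  have c3 : (m.cp r s) r = r := cp_p hr hs
  have c4 : (m.cp r s) s = s := cp_q hr hs
  have a1 : (m.sw r s) p ≠ p := fun h => hp ((sw_fix hpr hps).1 h)
  have a2 : (m.sw r s) q ≠ q := fun h => hq ((sw_fix hqr hqs).1 h)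
  have a3 : (m.sw r s) p ≠ q := fun h => hk ((sw_lnk hpr hps hqr hqs).1 h)
  have b1 : (m.cp r s) p ≠ p := fun h => hp ((cp_fix hr hs hrs hl hpr hps).1 h)
  have b2 : (m.cp r s) q ≠ q := fun h => hq ((cp_fix hr hs hrs hl hqr hqs).1 h)
  have b3 : (m.cp r s) p ≠ q := fun h => by
    rcases (cp_lnk hr hs hrs hl hpr hps hqr hqs).1 h with h | ⟨h, h'⟩ | ⟨h, h'⟩
    · exact hk h
    · exact h3 ⟨by rw [h, i3], by rw [h', i4]⟩
    · exact h4 ⟨by rw [h, i4], by rw [h', i3]⟩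
  have d1 : ((m.cp r s).jn r s) p ≠ p := fun h => b1 ((jn_fix c3 c4 hpr hps).1 h)
  have d2 : ((m.cp r s).jn r s) q ≠ q := fun h => b2 ((jn_fix c3 c4 hqr hqs).1 h)
  have d3 : ((m.cp r s).jn r s) p ≠ q := fun h => b3 ((jn_lnk c3 c4 hpr hps).1 h)
  -- the state seen from `r`, `s` after an operation at `p`, `q`
  have c5 : (m.cp p q) p = p := cp_p hp hq
  have c6 : (m.cp p q) q = q := cp_q hp hq
  have e1 : (m.sw p q) r ≠ r := fun h => hr ((sw_fix hpr.symm hqr.symm).1 h)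
  have e2 : (m.sw p q) s ≠ s := fun h => hs ((sw_fix hps.symm hqs.symm).1 h)
  have e3 : (m.sw p q) r ≠ s := fun h => hl ((sw_lnk hpr.symm hqr.symm hps.symm hqs.symm).1 h)
  have f1 : (m.cp p q) r ≠ r := fun h => hr ((cp_fix hp hq hpq hk hpr.symm hqr.symm).1 h)
  have f2 : (m.cp p q) s ≠ s := fun h => hs ((cp_fix hp hq hpq hk hps.symm hqs.symm).1 h)
  have f3 : (m.cp p q) r ≠ s := fun h => by
    rcases (cp_lnk hp hq hpq hk hpr.symm hqr.symm hps.symm hqs.symm).1 h with h | ⟨h, h'⟩ | ⟨h, h'⟩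
    · exact hl h
    · exact h3 ⟨h.symm, h'.symm⟩
    · exact h4 ⟨h'.symm, h.symm⟩
  have g1 : ((m.cp p q).jn p q) r ≠ r := fun h => f1 ((jn_fix c5 c6 hpr.symm hqr.symm).1 h)
  have g2 : ((m.cp p q).jn p q) s ≠ s := fun h => f2 ((jn_fix c5 c6 hps.symm hqs.symm).1 h)
  have g3 : ((m.cp p q).jn p q) r ≠ s := fun h => f3 ((jn_lnk c5 c6 hpr.symm hqr.symm).1 h)
  -- fixed points of double caps
  have u1 : ((m.cp p q).cp r s) p = p := (cp_fix f1 f2 hrs f3 hpr hps).2 c5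
  have u2 : ((m.cp p q).cp r s) q = q := (cp_fix f1 f2 hrs f3 hqr hqs).2 c6
  have u3 : ((m.cp p q).cp r s) r = r := cp_p f1 f2
  have u4 : ((m.cp p q).cp r s) s = s := cp_q f1 f2
  have cc : (m.cp p q).cp r s = (m.cp r s).cp p q :=
    cp_cp hpr hps hqr hqs hpq hrs hp hq hr hs hk hl h3 h4
  rw [Rt_oo hp hq hk rfl rfl rfl, Rt_oo hr hs hl rfl rfl rfl, Rt_oo e1 e2 e3 rfl rfl rfl,
    Rt_oo f1 f2 f3 rfl rfl rfl, Rt_oo g1 g2 g3 rfl rfl rfl, Rt_oo a1 a2 a3 rfl rfl rfl,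
    Rt_oo b1 b2 b3 rfl rfl rfl, Rt_oo d1 d2 d3 rfl rfl rfl]
  have s1 : (m.sw p q).cp r s = (m.cp r s).sw p q := (cp_sw hpr.symm hqr.symm hps.symm hqs.symm hr hs).symm
  have s2 : (m.sw r s).cp p q = (m.cp p q).sw r s := (cp_sw hpr hps hqr hqs hp hq).symm
  have s3 : ((m.cp p q).jn p q).sw r s = ((m.cp p q).sw r s).jn p q := jn_sw hpr hps hqr hqs
  have s4 : ((m.cp r s).jn r s).sw p q = ((m.cp r s).sw p q).jn r s :=
    jn_sw hpr.symm hqr.symm hps.symm hqs.symm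
  have s5 : ((m.cp p q).jn p q).cp r s = ((m.cp p q).cp r s).jn p q :=
    jn_cp hpr hps hqr hqs c5 c6 f1 f2 hrs f3
  have s6 : ((m.cp r s).jn r s).cp p q = ((m.cp r s).cp p q).jn r s :=
    jn_cp hpr.symm hqr.symm hps.symm hqs.symm c3 c4 b1 b2 hpq b3
  have s7 : (((m.cp p q).cp r s).jn p q).jn r s = (((m.cp p q).cp r s).jn r s).jn p q :=
    jn_jn hpr hps hqr hqs u1 u2 u3 u4
  rw [s1, s2, s3, s4, s5, s6, s7, cc, sw_sw hpr hps hqr hqs]
  ring

/-- four occupied lines, linked: `p - r`, `q - s` -/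
theorem far_lk (hpq : p ≠ q) (hrs : r ≠ s) (h3 : m p = r) (h4 : m q = s) :
    Rt p q x (Rt r s y F) m = Rt r s y (Rt p q x F) m := by
  have i1 := m.inv p
  have i2 := m.inv q
  have h3' : m r = p := by rw [← h3, i1]
  have h4' : m s = q := by rw [← h4, i2]
  have hp : m p ≠ p := by rw [h3]; exact hpr.symm
  have hq : m q ≠ q := by rw [h4]; exact hqs.symm
  have hr : m r ≠ r := by rw [h3']; exact hpr
  have hs : m s ≠ s := by rw [h4']; exact hqs
  have hk : m p ≠ q := by rw [h3]; exact hqr.symm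
  have hl : m r ≠ s := by rw [h3']; exact hps
  have c3 : (m.cp r s) r = r := cp_p hr hs
  have c4 : (m.cp r s) s = s := cp_q hr hs
  have c5 : (m.cp p q) p = p := cp_p hp hq
  have c6 : (m.cp p q) q = q := cp_q hp hq
  have a1 : (m.sw r s) p ≠ p := fun h => hp ((sw_fix hpr hps).1 h)
  have a2 : (m.sw r s) q ≠ q := fun h => hq ((sw_fix hqr hqs).1 h)
  have a3 : (m.sw r s) p ≠ q := fun h => hk ((sw_lnk hpr hps hqr hqs).1 h)
  have e1 : (m.sw p q) r ≠ r := fun h => hr ((sw_fix hpr.symm hqr.symm).1 h)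
  have e2 : (m.sw p q) s ≠ s := fun h => hs ((sw_fix hps.symm hqs.symm).1 h)
  have e3 : (m.sw p q) r ≠ s := fun h => hl ((sw_lnk hpr.symm hqr.symm hps.symm hqs.symm).1 h)
  have b1 : (m.cp r s) p ≠ p := fun h => hp ((cp_fix hr hs hrs hl hpr hps).1 h)
  have b2 : (m.cp r s) q ≠ q := fun h => hq ((cp_fix hr hs hrs hl hqr hqs).1 h)
  have b3 : (m.cp r s) p = q :=
    (cp_lnk hr hs hrs hl hpr hps hqr hqs).2 (Or.inr (Or.inl ⟨h3'.symm, h4'.symm⟩))
  have f1 : (m.cp p q) r ≠ r := fun h => hr ((cp_fix hp hq hpq hk hpr.symm hqr.symm).1 h)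
  have f2 : (m.cp p q) s ≠ s := fun h => hs ((cp_fix hp hq hpq hk hps.symm hqs.symm).1 h)
  have f3 : (m.cp p q) r = s :=
    (cp_lnk hp hq hpq hk hpr.symm hqr.symm hps.symm hqs.symm).2 (Or.inr (Or.inl ⟨h3.symm, h4.symm⟩))
  have d1 : ((m.cp r s).jn r s) p ≠ p := fun h => b1 ((jn_fix c3 c4 hpr hps).1 h)
  have d2 : ((m.cp r s).jn r s) q ≠ q := fun h => b2 ((jn_fix c3 c4 hqr hqs).1 h)
  have d3 : ((m.cp r s).jn r s) p = q := (jn_lnk c3 c4 hpr hps).2 b3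
  have g1 : ((m.cp p q).jn p q) r ≠ r := fun h => f1 ((jn_fix c5 c6 hpr.symm hqr.symm).1 h)
  have g2 : ((m.cp p q).jn p q) s ≠ s := fun h => f2 ((jn_fix c5 c6 hps.symm hqs.symm).1 h)
  have g3 : ((m.cp p q).jn p q) r = s := (jn_lnk c5 c6 hpr.symm hqr.symm).2 f3
  rw [Rt_oo hp hq hk rfl rfl rfl, Rt_oo hr hs hl rfl rfl rfl, Rt_oo e1 e2 e3 rfl rfl rfl,
    Rt_jj f1 f2 f3, Rt_jj g1 g2 g3, Rt_oo a1 a2 a3 rfl rfl rfl, Rt_jj b1 b2 b3, Rt_jj d1 d2 d3]
  have s0 : (m.sw p q).sw r s = (m.sw r s).sw p q := sw_sw hpr hps hqr hqs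
  -- the four states
  have t1 : (m.sw p q).cp r s = m.cp r s := by
    ext z
    have i5 := m.inv z
    rw [cp_ap e1 e2, cp_ap hr hs, sw_ap', sw_ap', sw_ap']
    grind (splits := 60)
  have t2 : (m.sw r s).cp p q = m.cp p q := by
    ext z
    have i5 := m.inv z
    rw [cp_ap a1 a2, cp_ap hp hq, sw_ap', sw_ap', sw_ap']
    grind (splits := 60)
  have t3 : (m.cp p q).jn p q = (m.cp r s).jn r s := by
    ext z
    have i5 := m.inv z
    rw [jn_ap c5 c6, jn_ap c3 c4, cp_ap hp hq, cp_ap hr hs]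
    grind (splits := 60)
  rw [t1, t2, t3, s0]
  ring

end far

end Far

open Far AY

variable {ι : Type*} [DecidableEq ι]

/-- R-operators of disjoint pairs of lines commute. -/
theorem rt_far {p q r s : ι} (hpq : p ≠ q) (hpr : p ≠ r) (hps : p ≠ s) (hqr : q ≠ r) (hqs : q ≠ s)
    (hrs : r ≠ s) (x y : ℂ) (F : St ι → ℂ) :
    Rt p q x (Rt r s y F) = Rt r s y (Rt p q x F) := by
  funext m
  by_cases ep : m p = p <;> by_cases eq : m q = q <;> by_cases er : m r = r <;>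
    by_cases es : m s = s
  all_goals first
    | exact far_ee hpr hps hqr hqs x y F ep eq hpq hrs
    | exact (far_ee hpr.symm hqr.symm hps.symm hqs.symm y x F er es hrs hpq).symm
    | exact far_one hpr hps hqr hqs x y F hpq hrs (by tauto) (by tauto)
    | skip
  · by_cases hl : m r = s
    · exact far_one_jj hpr hps hqr hqs x y F hpq hrs (by tauto) er es hl
    · exact far_one_oo hpr hps hqr hqs x y F hpq hrs (by tauto) er es hl
  · by_cases hl : m r = s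
    · exact far_one_jj hpr hps hqr hqs x y F hpq hrs (by tauto) er es hl
    · exact far_one_oo hpr hps hqr hqs x y F hpq hrs (by tauto) er es hl
  · by_cases hk : m p = q
    · exact (far_one_jj hpr.symm hqr.symm hps.symm hqs.symm y x F hrs hpq (by tauto) ep eq hk).symm
    · exact (far_one_oo hpr.symm hqr.symm hps.symm hqs.symm y x F hrs hpq (by tauto) ep eq hk).symm
  · by_cases hk : m p = q
    · exact (far_one_jj hpr.symm hqr.symm hps.symm hqs.symm y x F hrs hpq (by tauto) ep eq hk).symm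
    · exact (far_one_oo hpr.symm hqr.symm hps.symm hqs.symm y x F hrs hpq (by tauto) ep eq hk).symm
  · by_cases hk : m p = q
    · by_cases hl : m r = s
      · exact far_jj hpr hps hqr hqs x y F ep eq hk er es hl
      · exact far_jj_oo hpr hps hqr hqs x y F hpq hrs ep eq hk er es hl
    · by_cases hl : m r = s
      · exact (far_jj_oo hpr.symm hqr.symm hps.symm hqs.symm y x F hrs hpq er es hl ep eq hk).symm
      · by_cases h3 : m p = r ∧ m q = s
        · exact far_lk hpr hps hqr hqs x y F hpq hrs h3.1 h3.2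
        · by_cases h4 : m p = s ∧ m q = r
          · rw [Rt_comm' r s, Rt_comm' r s]
            exact far_lk hps hpr hqs hqr x y F hpq hrs.symm h4.1 h4.2
          · exact far_oo hpr hps hqr hqs x y F hpq hrs ep eq hk er es hl h3 h4

end Pool.Agent.BEX
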