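import Mathlib

/-!
Project BEX, abstract fixed vector lemma. `A x` is a family of square matrices whose row `e` is the unit row
`e` (the component `e` of a vector is preserved), continuous at `x0`, and the powers of `A x0` tend to `0`
outside `e`. Then near `x0` there is a unique fixed vector with component `e` equal to `1`; it is continuous at
`x0`, and at `x0` it is the limit of `(A x0)^n` applied to the unit vector `e`.
-/

namespace Pool.Agent.BEX

open Filter Topology Matrix

section

variable {M : Type*} [Fintype M] [DecidableEq M] {K : Type*} [NormedField K]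

/-- The auxiliary matrix `1 - A + E_(e,e)`. -/
def CC (e : M) (A : Matrix M M K) : Matrix M M K := 1 - A + Matrix.single e e 1

/-- The candidate for the fixed vector. -/
noncomputable def fixV (e : M) (A : Matrix M M K) : M → K := (CC e A)⁻¹ *ᵥ Pi.single e 1

lemma CC_mulVec (e : M) (A : Matrix M M K) (v : M → K) :
    CC e A *ᵥ v = v - A *ᵥ v + Pi.single e (v e) := by
  unfold CC
  rw [Matrix.add_mulVec, Matrix.sub_mulVec, Matrix.one_mulVec]
  congr 1
  ext i
  by_cases h : i = e
  · subst h
    simp [Matrix.mulVec, dotProduct, Matrix.single_apply]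
  · simp [Matrix.mulVec, dotProduct, h, Ne.symm h]

lemma row_apply {e : M} {A : Matrix M M K} (hrow : ∀ j, A e j = if j = e then 1 else 0) (v : M → K) :
    (A *ᵥ v) e = v e := by
  simp [Matrix.mulVec, dotProduct, hrow]

/-- A fixed vector is a multiple of `fixV`. -/
lemma eq_smul_fixV {e : M} {A : Matrix M M K} (hdet : (CC e A).det ≠ 0) {v : M → K} (hv : A *ᵥ v = v) :
    v = v e • fixV e A := by
  have h1 : CC e A *ᵥ v = v e • Pi.single e 1 := by
    rw [CC_mulVec, hv, sub_self, zero_add]
    ext i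
    by_cases h : i = e
    · subst h; simp
    · simp [h]
  have h2 : (CC e A)⁻¹ *ᵥ (CC e A *ᵥ v) = v := by
    rw [Matrix.mulVec_mulVec, Matrix.nonsing_inv_mul _ (isUnit_iff_ne_zero.2 hdet), Matrix.one_mulVec]
  rw [h1, Matrix.mulVec_smul] at h2
  exact h2.symm

/-- `fixV` is a fixed vector with component `1` at `e`. -/
lemma fixV_spec {e : M} {A : Matrix M M K} (hrow : ∀ j, A e j = if j = e then 1 else 0)
    (hdet : (CC e A).det ≠ 0) : fixV e A e = 1 ∧ A *ᵥ fixV e A = fixV e A := by
  have h1 : CC e A *ᵥ fixV e A = Pi.single e 1 := by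
    unfold fixV
    rw [Matrix.mulVec_mulVec, Matrix.mul_nonsing_inv _ (isUnit_iff_ne_zero.2 hdet), Matrix.one_mulVec]
  rw [CC_mulVec] at h1
  have h2 : fixV e A e = 1 := by
    have := congrFun h1 e
    simp only [Pi.add_apply, Pi.sub_apply, row_apply hrow, sub_self, Pi.single_eq_same, zero_add] at this
    exact this
  refine ⟨h2, ?_⟩
  rw [h2] at h1
  have h3 : fixV e A - A *ᵥ fixV e A = 0 := by
    have := congrArg (fun w => w - Pi.single e (1 : K)) h1
    simpa using this
  exact (sub_eq_zero.1 h3).symm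

lemma tendsto_pow_mulVec {e : M} {A : Matrix M M K}
    (hrow : ∀ j, A e j = if j = e then 1 else 0)
    (hpow : ∀ i j, i ≠ e → j ≠ e → Tendsto (fun n : ℕ => (A ^ n) i j) atTop (𝓝 0))
    {w : M → K} (hw : w e = 0) : Tendsto (fun n : ℕ => (A ^ n) *ᵥ w) atTop (𝓝 0) := by
  rw [tendsto_pi_nhds]
  intro i
  by_cases hi : i = e
  · subst hi
    have : ∀ n : ℕ, ((A ^ n) *ᵥ w) i = 0 := by
      intro n
      induction n with
      | zero => simpa using hw
      | succ n ih =>
        rw [pow_succ', ← Matrix.mulVec_mulVec, row_apply hrow, ih]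
    simp [this]
  · have h1 : (fun n : ℕ => ((A ^ n) *ᵥ w) i) = fun n : ℕ => ∑ j, (A ^ n) i j * w j := rfl
    rw [h1]
    have h2 : (0 : M → K) i = ∑ j : M, (0 : K) := by simp
    rw [h2]
    refine tendsto_finsetSum _ fun j _ => ?_
    by_cases hj : j = e
    · subst hj; simp [hw]
    · have := (hpow i j hi hj).mul_const (w j)
      simpa using this

lemma det_ne_zero {e : M} {A : Matrix M M K}
    (hrow : ∀ j, A e j = if j = e then 1 else 0)
    (hpow : ∀ i j, i ≠ e → j ≠ e → Tendsto (fun n : ℕ => (A ^ n) i j) atTop (𝓝 0)) :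
    (CC e A).det ≠ 0 := by
  intro hdet
  obtain ⟨v, hv0, hv⟩ := Matrix.exists_mulVec_eq_zero_iff.2 hdet
  rw [CC_mulVec] at hv
  have h1 : v e = 0 := by
    have := congrFun hv e
    simpa [row_apply hrow] using this
  rw [h1, Pi.single_zero, add_zero, sub_eq_zero] at hv
  have h2 : ∀ n : ℕ, (A ^ n) *ᵥ v = v := by
    intro n
    induction n with
    | zero => simp
    | succ n ih => rw [pow_succ', ← Matrix.mulVec_mulVec, ih, ← hv]
  have h3 := tendsto_pow_mulVec hrow hpow h1
  simp only [h2] at h3
  exact hv0 (tendsto_nhds_unique tendsto_const_nhds h3)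

/-- The fixed vector at `x0` is the limit of the powers applied to the unit vector. -/
lemma tendsto_pow_single {e : M} {A : Matrix M M K}
    (hrow : ∀ j, A e j = if j = e then 1 else 0)
    (hpow : ∀ i j, i ≠ e → j ≠ e → Tendsto (fun n : ℕ => (A ^ n) i j) atTop (𝓝 0)) :
    Tendsto (fun n : ℕ => (A ^ n) *ᵥ (Pi.single e 1 : M → K)) atTop (𝓝 (fixV e A)) := by
  obtain ⟨h1, h2⟩ := fixV_spec hrow (det_ne_zero hrow hpow)
  have h3 : ∀ n : ℕ, (A ^ n) *ᵥ fixV e A = fixV e A := by
    intro n
    induction n with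
    | zero => simp
    | succ n ih => rw [pow_succ', ← Matrix.mulVec_mulVec, ih, h2]
  have h4 : (fixV e A - (Pi.single e 1 : M → K)) e = 0 := by simp [h1]
  have h5 := tendsto_pow_mulVec hrow hpow h4
  have h6 : ∀ n : ℕ, (A ^ n) *ᵥ (Pi.single e 1 : M → K) =
      fixV e A - (A ^ n) *ᵥ (fixV e A - Pi.single e 1) := by
    intro n
    rw [Matrix.mulVec_sub, h3 n]
    abel
  simp only [h6]
  simpa using (tendsto_const_nhds (x := fixV e A)).sub h5

variable {X : Type*} [TopologicalSpace X]

omit [Fintype M] in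
lemma continuousAt_CC {e : M} {A : X → Matrix M M K} {x0 : X}
    (hc : ∀ i j, ContinuousAt (fun x => A x i j) x0) : ContinuousAt (fun x => CC e (A x)) x0 := by
  have h : ContinuousAt A x0 := continuousAt_pi.2 fun i => continuousAt_pi.2 fun j => hc i j
  unfold CC
  exact (continuousAt_const.sub h).add continuousAt_const

/-- Main statement: existence, uniqueness and continuity of the fixed vector near `x0`. -/
theorem fixV_main {e : M} {A : X → Matrix M M K} {x0 : X}
    (hc : ∀ i j, ContinuousAt (fun x => A x i j) x0)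
    (hrow : ∀ᶠ x in 𝓝 x0, ∀ j, A x e j = if j = e then 1 else 0)
    (hpow : ∀ i j, i ≠ e → j ≠ e → Tendsto (fun n : ℕ => (A x0 ^ n) i j) atTop (𝓝 0)) :
    ContinuousAt (fun x => fixV e (A x)) x0 ∧
    (∀ᶠ x in 𝓝 x0, fixV e (A x) e = 1 ∧ A x *ᵥ fixV e (A x) = fixV e (A x) ∧
      ∀ v, A x *ᵥ v = v → v = v e • fixV e (A x)) := by
  have hC := continuousAt_CC (e := e) hc
  have hd0 := det_ne_zero hrow.self_of_nhds hpow
  have hD : ContinuousAt (fun x => (CC e (A x)).det) x0 :=
    (Continuous.matrix_det continuous_id).continuousAt.comp hC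
  have hAd : ContinuousAt (fun x => (CC e (A x)).adjugate) x0 :=
    (Continuous.matrix_adjugate continuous_id).continuousAt.comp hC
  refine ⟨?_, ?_⟩
  · have h1 : ContinuousAt (fun x => (CC e (A x))⁻¹) x0 := by
      simp only [Matrix.inv_def, Ring.inverse_eq_inv']
      exact (hD.inv₀ hd0).smul hAd
    rw [continuousAt_pi]
    intro i
    unfold fixV
    simp only [Matrix.mulVec, dotProduct]
    refine tendsto_finsetSum _ fun j _ => ?_
    have h2 : ContinuousAt (fun x => (CC e (A x))⁻¹ i j) x0 :=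
      (continuousAt_pi.1 ((continuousAt_pi.1 h1) i)) j
    exact h2.mul continuousAt_const
  · filter_upwards [hD.eventually_ne hd0, hrow] with x hx hr
    obtain ⟨h1, h2⟩ := fixV_spec hr hx
    exact ⟨h1, h2, fun v hv => eq_smul_fixV hx hv⟩

omit [DecidableEq M] in
/-- Transport: if `B` intertwines `A` and `A'`, it maps the fixed vector to a multiple of the fixed vector. -/
lemma transport {M' : Type*} [Fintype M'] {e' : M'} {A : Matrix M M K}
    {A' : Matrix M' M' K} {B : Matrix M' M K} {R : M → K} {R' : M' → K} (hR : A *ᵥ R = R)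
    (hu : ∀ v, A' *ᵥ v = v → v = v e' • R') (hB : B * A = A' * B) :
    B *ᵥ R = (B *ᵥ R) e' • R' := by
  apply hu
  rw [Matrix.mulVec_mulVec, ← hB, ← Matrix.mulVec_mulVec, hR]

end

end Pool.Agent.BEX
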