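import Pool.Agent.BEX.AFix1
import Pool.Agent.BEX.FV0

/-!
# BEX, part A: the fixed functional `RR l U` of the transfer matrix `Tt l lam U` near `U = 0`
-/

namespace Pool.Agent.BEX

open Complex Filter Topology Matrix

section

variable {ι : Type*} [DecidableEq ι] [Fintype ι]

/-- The normalisation `∏ k(lam - u_i)`. -/
noncomputable def nrm (l : List ι) (U : ι → ℂ) : ℂ := (l.map fun i => kk (lam - U i)).prod

/-- The matrix of the normalised transfer matrix: `MT l U m' m` = coefficient of the state `m'` in the image of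
the state `m`. -/
noncomputable def MT (l : List ι) (U : ι → ℂ) : Matrix (St ι) (St ι) ℂ :=
  Matrix.of fun m' m => (nrm l U)⁻¹ * Tt l lam U (Pi.single m' 1) m

/-- The powers of the normalised transfer matrix at `U = 0` tend to `0` on the nonempty states (part D). -/
def PowZero (l : List ι) : Prop :=
  ∀ m' m : St ι, m' ≠ St.emp → m ≠ St.emp →
    Tendsto (fun n : ℕ => (MT l (0 : ι → ℂ) ^ n) m' m) atTop (𝓝 0)

/-- The fixed functional, normalised by `RR l U (dE ι) = 1`. -/
noncomputable def RR (l : List ι) (U : ι → ℂ) (F : St ι → ℂ) : ℂ :=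
  ∑ m, F m * fixV St.emp (MT l U) m

theorem RR_add (l : List ι) (U : ι → ℂ) (F G : St ι → ℂ) : RR l U (F + G) = RR l U F + RR l U G := by
  simp only [RR, Pi.add_apply, add_mul, Finset.sum_add_distrib]

theorem RR_smul (l : List ι) (U : ι → ℂ) (c : ℂ) (F : St ι → ℂ) : RR l U (c • F) = c * RR l U F := by
  simp only [RR, Pi.smul_apply, smul_eq_mul, mul_assoc, Finset.mul_sum]

/-- `RR` as a linear functional. -/
noncomputable def RRL (l : List ι) (U : ι → ℂ) : (St ι → ℂ) →ₗ[ℂ] ℂ where
  toFun := RR l U
  map_add' := RR_add l U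
  map_smul' := fun c F => RR_smul l U c F

@[simp] theorem RRL_apply (l : List ι) (U : ι → ℂ) (F : St ι → ℂ) : RRL l U F = RR l U F := rfl

theorem kk_lam_ne : kk lam ≠ 0 := by
  have h1 : kk lam = ((Real.sin (3 * (Real.pi / 8)) * Real.sin (4 * (Real.pi / 8)) : ℝ) : ℂ) := by
    unfold kk lam
    push_cast
    rw [show (2 * ((Real.pi : ℂ) / 8) + (Real.pi : ℂ) / 8) = 3 * ((Real.pi : ℂ) / 8) by ring,
      show (3 * ((Real.pi : ℂ) / 8) + (Real.pi : ℂ) / 8) = 4 * ((Real.pi : ℂ) / 8) by ring]
  rw [h1]
  have hpi := Real.pi_pos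
  have h2 : 0 < Real.sin (3 * (Real.pi / 8)) := Real.sin_pos_of_pos_of_lt_pi (by linarith) (by linarith)
  have h3 : 0 < Real.sin (4 * (Real.pi / 8)) := Real.sin_pos_of_pos_of_lt_pi (by linarith) (by linarith)
  exact_mod_cast (mul_pos h2 h3).ne'

omit [DecidableEq ι] [Fintype ι] in
theorem continuous_nrm (l : List ι) : Continuous fun U : ι → ℂ => nrm l U := by
  unfold nrm
  induction l with
  | nil => simpa using continuous_const
  | cons i l ih =>
    simp only [List.map_cons, List.prod_cons]
    exact (continuous_kk.comp (continuous_const.sub (continuous_apply i))).mul ih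

omit [DecidableEq ι] [Fintype ι] in
theorem nrm_zero_ne (l : List ι) : nrm l (0 : ι → ℂ) ≠ 0 := by
  unfold nrm
  apply List.prod_ne_zero
  intro h
  rw [List.mem_map] at h
  obtain ⟨i, _, hi⟩ := h
  simp only [Pi.zero_apply, sub_zero] at hi
  exact kk_lam_ne hi

omit [DecidableEq ι] [Fintype ι] in
theorem nrm_eventually_ne (l : List ι) : ∀ᶠ U : ι → ℂ in 𝓝 0, nrm l U ≠ 0 :=
  (continuous_nrm l).continuousAt.eventually_ne (nrm_zero_ne l)

/-- Expansion of a function in the unit functions. -/
theorem Tt_expand (l : List ι) (v : ℂ) (U : ι → ℂ) (F : St ι → ℂ) (m : St ι) :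
    Tt l v U F m = ∑ m', F m' * Tt l v U (Pi.single m' 1) m := by
  have h1 : F = ∑ m', F m' • (Pi.single m' 1 : St ι → ℂ) := by
    funext m
    simp [Finset.sum_apply, Pi.single_apply]
  have h2 : Tt l v U F = ∑ m', F m' • Tt l v U (Pi.single m' 1) := by
    conv_lhs => rw [h1]
    rw [← TtL_apply, map_sum]
    refine Finset.sum_congr rfl fun m' _ => ?_
    rw [map_smul]
    rfl
  rw [h2]
  simp [Finset.sum_apply]

/-- The functional attached to a vector is invariant iff the vector is fixed by `MT`. -/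
theorem fixed_iff (l : List ι) (U : ι → ℂ) (hn : nrm l U ≠ 0) (R : St ι → ℂ) :
    MT l U *ᵥ R = R ↔ ∀ F : St ι → ℂ, ∑ m, Tt l lam U F m * R m = nrm l U * ∑ m, F m * R m := by
  constructor
  · intro h F
    have h1 : ∀ m', ∑ m, Tt l lam U (Pi.single m' 1) m * R m = nrm l U * R m' := by
      intro m'
      have := congrFun h m'
      simp only [Matrix.mulVec, dotProduct, MT, Matrix.of_apply] at this
      rw [← this, Finset.mul_sum]
      refine Finset.sum_congr rfl fun m _ => ?_
      field_simp
    calc ∑ m, Tt l lam U F m * R m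
        = ∑ m, ∑ m', F m' * (Tt l lam U (Pi.single m' 1) m * R m) := by
          refine Finset.sum_congr rfl fun m _ => ?_
          rw [Tt_expand, Finset.sum_mul]
          refine Finset.sum_congr rfl fun m' _ => ?_
          ring
      _ = ∑ m', F m' * ∑ m, Tt l lam U (Pi.single m' 1) m * R m := by
          rw [Finset.sum_comm]
          refine Finset.sum_congr rfl fun m' _ => ?_
          rw [Finset.mul_sum]
      _ = nrm l U * ∑ m, F m * R m := by
          rw [Finset.mul_sum]
          refine Finset.sum_congr rfl fun m' _ => ?_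
          rw [h1]
          ring
  · intro h
    funext m'
    have h1 := h (Pi.single m' 1)
    have h2 : ∑ m, (Pi.single m' (1 : ℂ) : St ι → ℂ) m * R m = R m' := by
      simp [Pi.single_apply]
    rw [h2] at h1
    simp only [Matrix.mulVec, dotProduct, MT, Matrix.of_apply]
    have h3 : ∑ m, (nrm l U)⁻¹ * Tt l lam U (Pi.single m' 1) m * R m
        = (nrm l U)⁻¹ * ∑ m, Tt l lam U (Pi.single m' 1) m * R m := by
      rw [Finset.mul_sum]
      refine Finset.sum_congr rfl fun m _ => ?_
      ring
    rw [h3, h1]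
    field_simp

theorem dE_eq_single : dE ι = Pi.single St.emp 1 := by
  funext m
  rw [dE_apply, Pi.single_apply]

theorem MT_row (l : List ι) (U : ι → ℂ) (hn : nrm l U ≠ 0) (m : St ι) :
    MT l U St.emp m = if m = St.emp then 1 else 0 := by
  simp only [MT, Matrix.of_apply]
  rw [← dE_eq_single, Tt_dE]
  simp only [Pi.smul_apply, smul_eq_mul]
  rw [dE_apply]
  unfold nrm at hn ⊢
  field_simp

theorem MT_continuousAt (l : List ι) (m' m : St ι) :
    ContinuousAt (fun U : ι → ℂ => MT l U m' m) 0 := by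
  simp only [MT, Matrix.of_apply]
  exact ((continuous_nrm l).continuousAt.inv₀ (nrm_zero_ne l)).mul (continuous_Tt l lam _ _).continuousAt

/-- MAIN THEOREM of the fixed vector part. -/
theorem RR_main (l : List ι) (hD : PowZero l) :
    (∀ F : St ι → ℂ, ContinuousAt (fun U : ι → ℂ => RR l U F) 0) ∧
    ∀ᶠ U : ι → ℂ in 𝓝 0, nrm l U ≠ 0 ∧ RR l U (dE ι) = 1 ∧
      (∀ F : St ι → ℂ, RR l U (Tt l lam U F) = nrm l U * RR l U F) ∧
      (∀ ρ : (St ι → ℂ) →ₗ[ℂ] ℂ, (∀ F, ρ (Tt l lam U F) = nrm l U * ρ F) →
        ∀ F, ρ F = ρ (dE ι) * RR l U F) := by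
  obtain ⟨h1, h2⟩ := fixV_main (e := St.emp) (A := fun U : ι → ℂ => MT l U) (x0 := 0)
    (fun i j => MT_continuousAt l i j)
    ((nrm_eventually_ne l).mono fun U hU j => MT_row l U hU j)
    (fun i j hi hj => hD i j hi hj)
  refine ⟨?_, ?_⟩
  · intro F
    unfold RR
    refine tendsto_finsetSum _ fun m _ => ?_
    exact continuousAt_const.mul ((continuousAt_pi.1 h1) m)
  · filter_upwards [h2, nrm_eventually_ne l] with U hU hn
    obtain ⟨e1, e2, e3⟩ := hU
    refine ⟨hn, ?_, ?_, ?_⟩
    · unfold RR
      rw [dE_eq_single]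
      simp [Pi.single_apply, e1]
    · intro F
      exact (fixed_iff l U hn _).1 e2 F
    · intro ρ hρ F
      set R : St ι → ℂ := fun m => ρ (Pi.single m 1) with hR
      have hρR : ∀ G : St ι → ℂ, ρ G = ∑ m, G m * R m := by
        intro G
        have hG : G = ∑ m', G m' • (Pi.single m' 1 : St ι → ℂ) := by
          funext m
          simp [Finset.sum_apply, Pi.single_apply]
        conv_lhs => rw [hG]
        rw [map_sum]
        refine Finset.sum_congr rfl fun m _ => ?_
        rw [map_smul]
        rfl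
      have h3 : MT l U *ᵥ R = R := by
        rw [fixed_iff l U hn]
        intro G
        rw [← hρR, ← hρR]
        exact hρ G
      have h4 := e3 R h3
      have h5 : R St.emp = ρ (dE ι) := by rw [hR, dE_eq_single]
      rw [hρR F]
      unfold RR
      rw [Finset.mul_sum]
      refine Finset.sum_congr rfl fun m _ => ?_
      have h6 := congrFun h4 m
      rw [Pi.smul_apply, smul_eq_mul, h5] at h6
      rw [h6]
      ring

end

end Pool.Agent.BEX
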