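import Pool.Agent.BEX.AYbe
import Pool.Agent.BEX.AFar
import Pool.Agent.BEX.ACapRt
import Pool.Agent.BEX.AFix2

/-!
# BEX, part A: the RTT relation
-/

set_option linter.unusedSectionVars false

namespace Pool.Agent.BEX

open Complex

variable {ι : Type*} [DecidableEq ι]

theorem Fo_append (l₁ l₂ : List ι) (v : ℂ) (U : ι → ℂ) (G : St (Option (Option ι)) → ℂ) :
    Fo (l₁ ++ l₂) v U G = Fo l₁ v U (Fo l₂ v U G) := by
  unfold Fo
  rw [List.foldr_append]

/-- The R-operator of two lines passes the crossings of the auxiliary line with the other lines. -/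
theorem Fo_Rt {i j : ι} (hij : i ≠ j) (w v : ℂ) (U : ι → ℂ) (l : List ι) (hi : i ∉ l) (hj : j ∉ l)
    (G : St (Option (Option ι)) → ℂ) :
    Fo l v U (Rt (lb i) (lb j) w G) = Rt (lb i) (lb j) w (Fo l v U G) := by
  induction l with
  | nil => rfl
  | cons k l ih =>
    have hik : i ≠ k := fun h => hi (h ▸ List.mem_cons_self)
    have hjk : j ≠ k := fun h => hj (h ▸ List.mem_cons_self)
    have h1 : ∀ {a b : ι}, a ≠ b → (lb a : Option (Option ι)) ≠ lb b := fun hab h => hab (lb_inj h)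
    rw [Fo_cons, Fo_cons, ih (fun h => hi (List.mem_cons_of_mem k h)) fun h => hj (List.mem_cons_of_mem k h)]
    exact rt_far (ax_ne k) (ax_ne i) (ax_ne j) (h1 hik.symm) (h1 hjk.symm) (h1 hij) _ _ _

theorem Fo_rtt {i j : ι} (l₁ l₂ : List ι) (hn : (l₁ ++ i :: j :: l₂).Nodup) (v : ℂ) (U : ι → ℂ)
    (G : St (Option (Option ι)) → ℂ) :
    Fo (l₁ ++ i :: j :: l₂) v U (Rt (lb i) (lb j) (U i - U j) G) =
      Rt (lb i) (lb j) (U i - U j) (Fo (l₁ ++ j :: i :: l₂) v U G) := by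
  rw [List.nodup_append] at hn
  obtain ⟨_, h2, h3⟩ := hn
  rw [List.nodup_cons, List.nodup_cons] at h2
  obtain ⟨h4, h5, _⟩ := h2
  have hij : i ≠ j := fun h => h4 (h ▸ List.mem_cons_self)
  have hi2 : i ∉ l₂ := fun h => h4 (List.mem_cons_of_mem j h)
  have hi1 : i ∉ l₁ := fun h => h3 i h i List.mem_cons_self rfl
  have hj1 : j ∉ l₁ := fun h => h3 j h j (List.mem_cons_of_mem i List.mem_cons_self) rfl
  have hL : (lb i : Option (Option ι)) ≠ lb j := fun h => hij (lb_inj h)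
  rw [Fo_append, Fo_append, Fo_cons, Fo_cons, Fo_cons, Fo_cons, Fo_Rt hij _ _ _ _ hi2 h5]
  have h6 := rt_ybe (ax_ne i) (ax_ne j) hL (v - U i) (U i - U j) (Fo l₂ v U G)
  rw [sub_add_sub_cancel] at h6
  rw [h6, Fo_Rt hij _ _ _ _ hi1 hj1]

section

variable [Fintype ι]

/-- The RTT relation: exchange of two neighbouring lines. -/
theorem rtt {i j : ι} (l₁ l₂ : List ι) (hn : (l₁ ++ i :: j :: l₂).Nodup) (v : ℂ) (U : ι → ℂ)
    (F : St ι → ℂ) :
    Tt (l₁ ++ i :: j :: l₂) v U (Rt i j (U i - U j) F) =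
      Rt i j (U i - U j) (Tt (l₁ ++ j :: i :: l₂) v U F) := by
  have hij : i ≠ j := by
    rw [List.nodup_append] at hn
    intro h
    have := (List.nodup_cons.1 hn.2.1).1
    exact this (h ▸ List.mem_cons_self)
  rw [Tt_eq, Tt_eq, capF_Rt hij, Fo_rtt l₁ l₂ hn, cupF_Rt]

/-- `R` is a fixed functional of the lines in the order `l`, and it is the only one. -/
structure Fixd (l : List ι) (U : ι → ℂ) : Prop where
  nz : nrm l U ≠ 0
  one : RR l U (dE ι) = 1
  fix : ∀ F : St ι → ℂ, RR l U (Tt l lam U F) = nrm l U * RR l U F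
  uniq : ∀ ρ : (St ι → ℂ) →ₗ[ℂ] ℂ, (∀ F, ρ (Tt l lam U F) = nrm l U * ρ F) →
    ∀ F, ρ F = ρ (dE ι) * RR l U F

theorem nrm_perm {l l' : List ι} (h : l.Perm l') (U : ι → ℂ) : nrm l U = nrm l' U := by
  unfold nrm
  exact (h.map _).prod_eq

/-- exchange relation of the fixed functionals (`hex` of `step3`) -/
theorem RR_hex {U : ι → ℂ} {p q : ι} (l₁ l₂ : List ι) (hn : (l₁ ++ p :: q :: l₂).Nodup)
    (h : Fixd (l₁ ++ p :: q :: l₂) U) (h' : Fixd (l₁ ++ q :: p :: l₂) U) (F : St ι → ℂ) :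
    RR (l₁ ++ p :: q :: l₂) U (Rt p q (U p - U q) F) =
      kk (U p - U q) * RR (l₁ ++ q :: p :: l₂) U F := by
  have hpq : p ≠ q := by
    rw [List.nodup_append] at hn
    intro h
    have := (List.nodup_cons.1 hn.2.1).1
    exact this (h ▸ List.mem_cons_self)
  have hperm : (l₁ ++ p :: q :: l₂).Perm (l₁ ++ q :: p :: l₂) :=
    (List.Perm.swap q p l₂).append_left l₁
  have h1 := h'.uniq ((RRL (l₁ ++ p :: q :: l₂) U).comp (RtL p q (U p - U q))) (by
    intro G
    simp only [LinearMap.comp_apply, RtL_apply, RRL_apply]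
    rw [← rtt l₁ l₂ hn, h.fix, nrm_perm hperm]) F
  simp only [LinearMap.comp_apply, RtL_apply, RRL_apply] at h1
  rw [h1, Rt_dE hpq, RR_smul, h.one, mul_one]

/-- rotation of the fixed functionals (`hrot` of `step3`), from the cyclicity of the transfer matrix -/
theorem RR_hrot {U : ι → ℂ} {l l' : List ι} (hp : l.Perm l') (hc : ∀ F : St ι → ℂ, Tt l lam U F = Tt l' lam U F)
    (h : Fixd l U) (h' : Fixd l' U) (F : St ι → ℂ) : RR l U F = RR l' U F := by
  have h1 := h'.uniq (RRL l U) (by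
    intro G
    simp only [RRL_apply]
    rw [← hc, h.fix, nrm_perm hp]) F
  simp only [RRL_apply] at h1
  rw [h1, h.one, one_mul]

end

end Pool.Agent.BEX
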