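import Pool.Agent.BEX.ACyc
import Pool.Agent.BEX.ARtt
import Pool.Agent.BEX.AFix3
import Pool.Agent.BEX.ALink

/-!
# BEX, part A: exchange and rotation of the fixed functionals for rapidities near zero
-/

namespace Pool.Agent.BEX

open Filter Topology

theorem fixd_ev {ι : Type*} [DecidableEq ι] [Fintype ι] (l : List ι) (hD : PowZero l) :
    ∀ᶠ U in 𝓝 (0 : ι → ℂ), Fixd l U :=
  (RR_main l hD).2.mono fun _ h => ⟨h.1, h.2.1, h.2.2.1, h.2.2.2⟩

theorem fixd_ev_all {L : ℕ} (hD : PowZero (List.finRange L)) :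
    ∀ᶠ U in 𝓝 (0 : Fin L → ℂ), ∀ l : List (Fin L), l.Nodup → (∀ i, i ∈ l) → Fixd l U := by
  have h : ∀ᶠ U in 𝓝 (0 : Fin L → ℂ),
      ∀ l ∈ (List.finRange L).permutations.toFinset, Fixd l U := by
    rw [Filter.eventually_all_finset]
    intro l hl
    rw [List.mem_toFinset, List.mem_permutations] at hl
    refine fixd_ev l (PowZero_all _ l (List.nodup_finRange L) ?_ List.mem_finRange ?_ hD)
    · exact hl.nodup_iff.2 (List.nodup_finRange L)
    · intro i; exact hl.mem_iff.2 (List.mem_finRange i)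
  filter_upwards [h] with U hU l hn hm
  apply hU
  rw [List.mem_toFinset, List.mem_permutations]
  exact (List.perm_ext_iff_of_nodup hn (List.nodup_finRange L)).2 fun i =>
    ⟨fun _ => List.mem_finRange i, fun _ => hm i⟩

/-- Exchange and rotation, for rapidities near `0`. -/
theorem hexrot_ev {L : ℕ} (hD : PowZero (List.finRange L)) :
    ∀ᶠ U in 𝓝 (0 : Fin L → ℂ), HexRot U := by
  filter_upwards [fixd_ev_all hD] with U hU
  refine ⟨?_, ?_⟩
  · intro l1 l2 p q hn hm F
    have hperm : (l1 ++ p :: q :: l2).Perm (l1 ++ q :: p :: l2) :=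
      (List.Perm.swap q p l2).append_left l1
    exact RR_hex l1 l2 hn (hU _ hn hm)
      (hU _ (hperm.nodup_iff.1 hn) fun i => hperm.mem_iff.1 (hm i)) F
  · intro j l hn hm F
    have hperm : (j :: l).Perm (l ++ [j]) := (List.perm_append_singleton j l).symm
    exact RR_hrot hperm (fun F => Tt_cyc j l hn lam U F) (hU _ hn hm)
      (hU _ (hperm.nodup_iff.1 hn) fun i => hperm.mem_iff.1 (hm i)) F

end Pool.Agent.BEX
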