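import Pool.Agent.BEX.Row
import Pool.Agent.BEX.AFix3

/-!
# BEX: the row operator `K L` of `Row.lean` is the normalised transfer matrix `MT` at `U = 0`
-/

namespace Pool.Agent.BEX

open Complex Filter Topology Matrix
open Pool.Agent.Hhelper14.SAW

/-- `x_c` as a complex number. -/
noncomputable def xC : ℂ := ((xc : ℝ) : ℂ)

theorem sin_4lam : sin (4 * lam) = 1 := by
  rw [← Complex.sin_pi_div_two]
  congr 1
  unfold lam
  ring

theorem sin_2lam_sq : sin (2 * lam) ^ 2 = 1 / 2 := by
  have h1 : sin (4 * lam) = 2 * sin (2 * lam) * cos (2 * lam) := by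
    rw [← Complex.sin_two_mul]; congr 1; ring
  have h2 : sin (2 * lam) = cos (2 * lam) := by
    rw [← Complex.cos_pi_div_two_sub]
    congr 1
    unfold lam
    ring
  rw [sin_4lam, ← h2] at h1
  linear_combination -(1 / 2) * h1

theorem sin3_eq_cos : sin (3 * lam) = cos lam := by
  rw [← Complex.sin_pi_div_two_sub]
  congr 1
  unfold lam
  ring

theorem kk_lam : kk lam = cos lam := by
  unfold kk
  rw [show (2 * lam + lam : ℂ) = 3 * lam by ring, show (3 * lam + lam : ℂ) = 4 * lam by ring,
    sin_4lam, sin3_eq_cos, mul_one]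

theorem xC_cos : xC * (2 * cos lam) = 1 := by
  have h1 : cos lam = ((Real.cos (Real.pi / 8) : ℝ) : ℂ) := by
    unfold lam
    push_cast
    rfl
  have h2 : xc * (2 * Real.cos (Real.pi / 8)) = 1 := by
    have := xc_mu
    unfold mu at this
    exact this
  unfold xC
  rw [h1]
  exact_mod_cast h2

theorem cos_lam_ne : cos lam ≠ 0 := by
  intro h
  have := xC_cos
  rw [h] at this
  simp at this

theorem w2_lam : w2 lam = kk lam * xC := by
  rw [kk_lam]
  unfold w2
  rw [show (3 * lam - lam : ℂ) = 2 * lam by ring]
  linear_combination sin_2lam_sq - (1 / 2) * xC_cos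

theorem sin2_sin : sin (2 * lam) * sin lam = kk lam * xC ^ 2 := by
  rw [kk_lam]
  have h1 : sin (2 * lam) = 2 * sin lam * cos lam := Complex.sin_two_mul lam
  have h2 := sin_2lam_sq
  have h3 := xC_cos
  have h4 : 2 * cos lam * (sin (2 * lam) * sin lam - cos lam * xC ^ 2) = 0 := by
    have e1 : 2 * cos lam * (sin (2 * lam) * sin lam) = sin (2 * lam) ^ 2 := by
      rw [h1]; ring
    have e2 : 2 * cos lam * (cos lam * xC ^ 2) = 1 / 2 * (xC * (2 * cos lam)) ^ 2 := by ring
    rw [mul_sub, e1, e2, h2, h3]
    ring
  have h5 : (2 : ℂ) * cos lam ≠ 0 := mul_ne_zero two_ne_zero cos_lam_ne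
  have := (mul_eq_zero.1 h4).resolve_left h5
  linear_combination this

theorem w4_lam : w4 lam = kk lam * xC ^ 2 := by
  unfold w4
  exact sin2_sin

theorem w6_lam : w6 lam = kk lam * xC ^ 2 := by
  unfold w6
  rw [show (3 * lam - lam : ℂ) = 2 * lam by ring, mul_comm]
  exact sin2_sin

theorem w8_lam : w8 lam = kk lam * xC ^ 2 := by
  unfold w8
  rw [show (3 * lam - lam : ℂ) = 2 * lam by ring, show (2 * lam - lam : ℂ) = lam by ring, mul_comm]
  exact sin2_sin

theorem w9_lam : w9 lam = 0 := by
  unfold w9
  simp

/-- The labels of `Row.lean`. -/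
def EE (L : ℕ) : Option (Option (Fin L)) ≃ Fin L ⊕ Bool where
  toFun z := match z with
    | none => Sum.inr true
    | some none => Sum.inr false
    | some (some i) => Sum.inl i
  invFun z := match z with
    | Sum.inr true => none
    | Sum.inr false => some none
    | Sum.inl i => some (some i)
  left_inv z := by rcases z with _ | _ | i <;> rfl
  right_inv z := by rcases z with i | (_ | _) <;> rfl

variable {L : ℕ}

/-- The sum over the choices along a list of lines. -/
noncomputable def SumH (Φ : (Fin L ⊕ Bool → Fin L ⊕ Bool) → ℂ) :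
    List (Fin L) → (Fin L ⊕ Bool → Fin L ⊕ Bool) → ℂ
  | [], f => Φ f
  | j :: l, f => ∑ c : Bool, match hop c (Sum.inr true) (Sum.inl j) f with
      | none => 0
      | some g => xC ^ g.2 * SumH Φ l g.1

/-- The product of the R-matrices at `lam` in the labels of `Row.lean`. -/
noncomputable def Fo2 (l : List (Fin L)) (G : St (Fin L ⊕ Bool) → ℂ) : St (Fin L ⊕ Bool) → ℂ :=
  l.foldr (fun j G => Rt (Sum.inr true) (Sum.inl j) lam G) G

theorem Fo_Fo2 (l : List (Fin L)) (G : St (Fin L ⊕ Bool) → ℂ)
    (m : St (Option (Option (Fin L)))) :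
    Fo l lam 0 (fun n => G (rl (EE L) n)) m = Fo2 l G (rl (EE L) m) := by
  induction l generalizing m with
  | nil => rfl
  | cons j l ih =>
    have h1 : Fo l lam 0 (fun n => G (rl (EE L) n)) = fun n => Fo2 l G (rl (EE L) n) := by
      funext n
      exact ih n
    rw [Fo_cons, h1]
    have h2 := Rt_rl (EE L) ax (lb j) lam (Fo2 l G) m
    simp only [Pi.zero_apply, sub_zero]
    exact h2.symm

theorem Fo2_eq (Φ : (Fin L ⊕ Bool → Fin L ⊕ Bool) → ℂ) (G : St (Fin L ⊕ Bool) → ℂ)
    (hG : ∀ n, G n = Φ n.1) (l : List (Fin L)) (n : St (Fin L ⊕ Bool)) :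
    Fo2 l G n = (kk lam) ^ l.length * SumH Φ l n.1 := by
  induction l generalizing n with
  | nil => simp [Fo2, SumH, hG]
  | cons j l ih =>
    have h0 : Fo2 (j :: l) G = Rt (Sum.inr true) (Sum.inl j) lam (Fo2 l G) := rfl
    rw [h0]
    have hb : ∀ z : Fin L ⊕ Bool, z = Sum.inr true → z ≠ Sum.inl j := by
      intro z hz; rw [hz]; simp
    simp only [Rt, ih, w2_lam, w4_lam, w6_lam, w8_lam, w9_lam, SumH, Fintype.sum_bool, hop,
      List.length_cons, pow_succ]
    by_cases hp : n (Sum.inr true) = Sum.inr true
    · by_cases hq : n (Sum.inl j) = Sum.inl j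
      · have e1 : (n.jn (Sum.inr true) (Sum.inl j)).1 = ar (Sum.inr true) (Sum.inl j) n.1 := by
          unfold St.jn
          rw [dif_pos ⟨hp, hq⟩]
          rfl
        have e2 : cj (Sum.inr true) (Sum.inl j) n.1 = n.1 := by
          funext z
          unfold cj
          by_cases h1 : z = Sum.inr true
          · subst h1
            rw [Equiv.swap_apply_left]
            rw [hq, Equiv.swap_apply_right, hp]
          · by_cases h2 : z = Sum.inl j
            · subst h2
              rw [Equiv.swap_apply_right]
              rw [hp, Equiv.swap_apply_left, hq]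
            · rw [Equiv.swap_apply_of_ne_of_ne h1 h2, Equiv.swap_apply_of_ne_of_ne]
              · intro h3
                exact h1 (n.inj (h3.trans hp.symm))
              · intro h3
                exact h2 (n.inj (h3.trans hq.symm))
        rw [if_pos hp, if_pos hq, e1]
        simp [hp, hq, e2]
        ring
      · rw [if_pos hp, if_neg hq]
        have e1 : (n.sw (Sum.inr true) (Sum.inl j)).1 = cj (Sum.inr true) (Sum.inl j) n.1 := rfl
        rw [e1]
        simp [hp, hq]
        ring
    · by_cases hq : n (Sum.inl j) = Sum.inl j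
      · rw [if_neg hp, if_pos hq]
        have e1 : (n.sw (Sum.inr true) (Sum.inl j)).1 = cj (Sum.inr true) (Sum.inl j) n.1 := rfl
        rw [e1]
        simp [hp, hq]
        ring
      · rw [if_neg hp, if_neg hq]
        by_cases hj : n (Sum.inr true) = Sum.inl j
        · have hj' : n (Sum.inl j) = Sum.inr true := by rw [← hj]; simp
          have e2 : cj (Sum.inr true) (Sum.inl j) n.1 = n.1 := by
            funext z
            unfold cj
            by_cases h1 : z = Sum.inr true
            · subst h1
              rw [Equiv.swap_apply_left]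
              rw [hj', Equiv.swap_apply_left, hj]
            · by_cases h2 : z = Sum.inl j
              · subst h2
                rw [Equiv.swap_apply_right]
                rw [hj, Equiv.swap_apply_right, hj']
              · rw [Equiv.swap_apply_of_ne_of_ne h1 h2, Equiv.swap_apply_of_ne_of_ne]
                · intro h3
                  apply h2
                  apply n.inj
                  rw [hj']
                  exact h3
                · intro h3
                  apply h1
                  apply n.inj
                  rw [hj]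
                  exact h3
          rw [if_pos hj]
          simp [hj, hj', e2]
          ring
        · have e1 : (n.sw (Sum.inr true) (Sum.inl j)).1 = cj (Sum.inr true) (Sum.inl j) n.1 := rfl
          have e3 : (n.cp (Sum.inr true) (Sum.inl j)).1 = ct (Sum.inr true) (Sum.inl j) n.1 := by
            unfold St.cp
            rw [dif_pos ⟨hp, hq⟩]
            rfl
          rw [if_neg hj, e1, e3]
          simp [hp, hq, hj]
          ring

/-- The contribution of the choices `r` along the list `l`. -/
noncomputable def XH (Φ : (Fin L ⊕ Bool → Fin L ⊕ Bool) → ℂ) (l : List (Fin L)) (r : Fin L → Bool)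
    (f : Fin L ⊕ Bool → Fin L ⊕ Bool) : ℂ :=
  match hops (Sum.inr true) (l.map (fun j => (r j, (Sum.inl j : Fin L ⊕ Bool)))) f with
  | none => 0
  | some g => xC ^ g.2 * Φ g.1

theorem XH_cons (Φ : (Fin L ⊕ Bool → Fin L ⊕ Bool) → ℂ) (j : Fin L) (l : List (Fin L))
    (r : Fin L → Bool) (f : Fin L ⊕ Bool → Fin L ⊕ Bool) :
    XH Φ (j :: l) r f = match hop (r j) (Sum.inr true) (Sum.inl j) f with
      | none => 0
      | some g => xC ^ g.2 * XH Φ l r g.1 := by
  unfold XH
  rw [List.map_cons]
  simp only [hops]
  cases h1 : hop (r j) (Sum.inr true) (Sum.inl j) f with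
  | none => simp
  | some g =>
    simp only [Option.bind_some]
    cases h2 : hops (Sum.inr true) (l.map (fun j => (r j, (Sum.inl j : Fin L ⊕ Bool)))) g.1 with
    | none => simp
    | some h =>
      simp only [Option.map_some, pow_add]
      ring

theorem XH_update (Φ : (Fin L ⊕ Bool → Fin L ⊕ Bool) → ℂ) (j : Fin L) (c : Bool)
    (l : List (Fin L)) (hj : j ∉ l) (r : Fin L → Bool) (f : Fin L ⊕ Bool → Fin L ⊕ Bool) :
    XH Φ l (Function.update r j c) f = XH Φ l r f := by
  unfold XH
  have h1 : l.map (fun i => (Function.update r j c i, (Sum.inl i : Fin L ⊕ Bool))) =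
      l.map (fun i => (r i, (Sum.inl i : Fin L ⊕ Bool))) := by
    apply List.map_congr_left
    intro i hi
    have : i ≠ j := fun h => hj (h ▸ hi)
    rw [Function.update_of_ne this]
  rw [h1]

/-- Summing over one choice. -/
theorem sum_choice (j : Fin L) (A : Bool → (Fin L → Bool) → ℂ)
    (hA : ∀ c c' r, A c (Function.update r j c') = A c r) :
    2 * ∑ r : Fin L → Bool, A (r j) r = ∑ c : Bool, ∑ r : Fin L → Bool, A c r := by
  have h1 : ∑ r : Fin L → Bool, A (r j) r = ∑ r : Fin L → Bool, A (!(r j)) r := by
    apply Fintype.sum_equiv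
      (e := Function.Involutive.toPerm (fun r : Fin L → Bool => Function.update r j (!(r j)))
        (by
          intro r
          funext i
          by_cases h : i = j
          · subst h; simp
          · simp [h]))
    intro r
    simp only [Function.Involutive.coe_toPerm, Function.update_self, Bool.not_not]
    rw [hA]
  calc 2 * ∑ r : Fin L → Bool, A (r j) r
      = ∑ r : Fin L → Bool, A (r j) r + ∑ r : Fin L → Bool, A (!(r j)) r := by rw [← h1]; ring
    _ = ∑ r : Fin L → Bool, ∑ c : Bool, A c r := by
        rw [← Finset.sum_add_distrib]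
        refine Finset.sum_congr rfl fun r _ => ?_
        rw [Fintype.sum_bool]
        cases r j <;> simp [add_comm]
    _ = _ := Finset.sum_comm

theorem sum_XH (Φ : (Fin L ⊕ Bool → Fin L ⊕ Bool) → ℂ) (l : List (Fin L)) (hl : l.Nodup)
    (f : Fin L ⊕ Bool → Fin L ⊕ Bool) :
    2 ^ l.length * ∑ r : Fin L → Bool, XH Φ l r f = 2 ^ L * SumH Φ l f := by
  induction l generalizing f with
  | nil =>
    simp [XH, hops, SumH]
  | cons j l ih =>
    rw [List.nodup_cons] at hl
    set A : Bool → (Fin L → Bool) → ℂ := fun c r =>
      match hop c (Sum.inr true) (Sum.inl j) f with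
      | none => 0
      | some g => xC ^ g.2 * XH Φ l r g.1 with hAdef
    have hA : ∀ c c' r, A c (Function.update r j c') = A c r := by
      intro c c' r
      simp only [hAdef]
      cases h : hop c (Sum.inr true) (Sum.inl j) f with
      | none => rfl
      | some g =>
        simp only
        rw [XH_update _ _ _ _ hl.1]
    have h1 : ∑ r : Fin L → Bool, XH Φ (j :: l) r f = ∑ r : Fin L → Bool, A (r j) r := by
      refine Finset.sum_congr rfl fun r _ => ?_
      rw [XH_cons]
    have h2 : ∀ c, 2 ^ l.length * ∑ r : Fin L → Bool, A c r =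
        2 ^ L * (match hop c (Sum.inr true) (Sum.inl j) f with
          | none => 0
          | some g => xC ^ g.2 * SumH Φ l g.1) := by
      intro c
      simp only [hAdef]
      cases h : hop c (Sum.inr true) (Sum.inl j) f with
      | none => simp
      | some g =>
        simp only
        rw [← Finset.mul_sum]
        have := ih hl.2 g.1
        linear_combination xC ^ g.2 * this
    rw [List.length_cons, h1, pow_succ]
    have h3 := sum_choice j A hA
    calc (2 : ℂ) ^ l.length * 2 * ∑ r : Fin L → Bool, A (r j) r
        = 2 ^ l.length * (2 * ∑ r : Fin L → Bool, A (r j) r) := by ring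
      _ = ∑ c : Bool, 2 ^ l.length * ∑ r : Fin L → Bool, A c r := by
          rw [h3, Finset.mul_sum]
      _ = 2 ^ L * SumH Φ (j :: l) f := by
          simp only [h2, SumH]
          rw [Finset.mul_sum]

/-- The final function of `Row.lean`. -/
noncomputable def PhiR (τ : St (Fin L)) (f : Fin L ⊕ Bool → Fin L ⊕ Bool) : ℂ :=
  match cap (Sum.inr false) (Sum.inr true) f with
  | none => 0
  | some h => if (fun j => match h (Sum.inl j) with
        | Sum.inl i => i
        | Sum.inr _ => j) = τ.1 then 1 else 0

theorem K_eq_sum (σ τ : St (Fin L)) :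
    ((K L σ τ : ℝ) : ℂ) = ∑ q : Bool, ∑ r : Fin L → Bool,
      XH (PhiR τ) (List.finRange L) r
        (if q then ar (Sum.inr false) (Sum.inr true) (Sum.map σ.1 id) else Sum.map σ.1 id) := by
  unfold K
  push_cast
  refine Finset.sum_congr rfl fun q _ => Finset.sum_congr rfl fun r _ => ?_
  unfold row XH
  simp only
  cases h1 : hops (Sum.inr true) ((List.finRange L).map (fun j => (r j, (Sum.inl j : Fin L ⊕ Bool))))
    (if q = true then ar (Sum.inr false) (Sum.inr true) (Sum.map σ.1 id) else Sum.map σ.1 id) with
  | none => simp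
  | some g =>
    simp only [Option.bind_some, PhiR]
    cases h2 : cap (Sum.inr false) (Sum.inr true) g.1 with
    | none => simp
    | some h =>
      simp only [Option.map_some, xC]
      split_ifs with a b b
      · simp
      · exact absurd a b
      · exact absurd b a
      · simp

theorem res_of_ax {m : St (Option (Option (Fin L)))} (h1 : m ax = ax) (h2 : m ax' = ax') (i : Fin L) :
    (res m) i = resf m i := by
  have hl : ∀ i, ∃ j, m (lb i) = lb j := by
    intro i
    rcases hm : m (lb i) with _ | _ | j
    · exfalso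
      have : m (lb i) = m ax := by rw [hm, h1]; rfl
      exact absurd (m.inj this) (by simp [lb, ax])
    · exfalso
      have : m (lb i) = m ax' := by rw [hm, h2]; rfl
      exact absurd (m.inj this) (by simp [lb, ax'])
    · exact ⟨j, rfl⟩
  have hr : ∀ i, m (lb i) = lb (resf m i) := by
    intro i
    obtain ⟨j, hj⟩ := hl i
    rw [hj, resf_of hj]
  have hinv : ∀ i, resf m (resf m i) = i := by
    intro i
    have e1 : m (m (lb i)) = lb i := m.inv _
    rw [hr i, hr (resf m i)] at e1
    exact Option.some_injective _ (Option.some_injective _ e1)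
  unfold res
  rw [dif_pos hinv]

theorem proj_eq (m : St (Option (Option (Fin L)))) (j : Fin L) :
    (match (rl (EE L) m) (Sum.inl j) with
        | Sum.inl i => i
        | Sum.inr _ => j) = resf m j := by
  unfold resf
  have h1 : (rl (EE L) m) (Sum.inl j) = EE L (m (lb j)) := rfl
  rw [h1]
  rcases hm : m (lb j) with _ | _ | i <;> rfl

theorem capF_PhiR (τ : St (Fin L)) (m : St (Option (Option (Fin L)))) :
    capF (Pi.single τ 1) m = PhiR (L := L) τ (rl (EE L) m).1 := by
  have ha : ((rl (EE L) m).1 (Sum.inr false) = Sum.inr false) ↔ m ax' = ax' := by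
    have : (rl (EE L) m).1 (Sum.inr false) = EE L (m ax') := rfl
    rw [this]
    constructor
    · intro h
      apply (EE L).injective
      exact h
    · intro h
      rw [h]
      rfl
  have hb : ((rl (EE L) m).1 (Sum.inr true) = Sum.inr true) ↔ m ax = ax := by
    have : (rl (EE L) m).1 (Sum.inr true) = EE L (m ax) := rfl
    rw [this]
    constructor
    · intro h
      apply (EE L).injective
      exact h
    · intro h
      rw [h]
      rfl
  have hab : ((rl (EE L) m).1 (Sum.inr false) = Sum.inr true) ↔ m ax = ax' := by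
    have : (rl (EE L) m).1 (Sum.inr false) = EE L (m ax') := rfl
    rw [this]
    constructor
    · intro h
      have h1 : m ax' = ax := by
        apply (EE L).injective
        exact h
      rw [← h1]; simp
    · intro h
      have h1 : m ax' = ax := by rw [← h]; simp
      rw [h1]
      rfl
  unfold capF PhiR cap
  by_cases h1 : m ax = ax
  · by_cases h2 : m ax' = ax'
    · rw [if_pos h1, if_pos h2, if_pos (ha.2 h2), if_pos (hb.2 h1)]
      simp only [Pi.single_apply]
      have h3 : (res m = τ) ↔ ((fun j => match (rl (EE L) m).1 (Sum.inl j) with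
        | Sum.inl i => i
        | Sum.inr _ => j) = τ.1) := by
        constructor
        · intro h
          funext j
          rw [← h]
          rw [res_of_ax h1 h2]
          exact proj_eq m j
        · intro h
          apply St.ext'
          intro j
          rw [res_of_ax h1 h2, ← proj_eq m j]
          exact congrFun h j
      by_cases h4 : res m = τ
      · rw [if_pos h4, if_pos (h3.1 h4)]
      · rw [if_neg h4, if_neg (fun h => h4 (h3.2 h))]
    · rw [if_pos h1, if_neg h2, if_neg (fun h => h2 (ha.1 h)), if_pos (hb.2 h1)]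
  · by_cases h2 : m ax' = ax'
    · rw [if_neg h1, if_pos h2, if_pos (ha.2 h2), if_neg (fun h => h1 (hb.1 h))]
    · rw [if_neg h1, if_neg h2, if_neg (fun h => h2 (ha.1 h)), if_neg (fun h => h1 (hb.1 h))]
      by_cases h3 : m ax = ax'
      · rw [if_pos h3, if_pos (hab.2 h3)]
      · rw [if_neg h3, if_neg (fun h => h3 (hab.1 h))]
        have hne : m ax ≠ m ax' := by
          intro h
          exact absurd (m.inj h) (by simp [ax, ax'])
        have c2 : (m.cp ax ax') ax = ax := by
          simp only [St.cp, dif_pos (And.intro h1 h2)]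
          simp [St.cpf]
        have c3 : (m.cp ax ax') ax' = ax' := by
          simp only [St.cp, dif_pos (And.intro h1 h2)]
          simp [St.cpf, ax, ax']
        have hct : ct (Sum.inr false) (Sum.inr true) (rl (EE L) m).1 = (rl (EE L) (m.cp ax ax')).1 := by
          rw [rl_cp]
          have e1 : (EE L) ax = Sum.inr true := rfl
          have e2 : (EE L) ax' = Sum.inr false := rfl
          rw [e1, e2]
          unfold St.cp
          rw [dif_pos ⟨fun h => h1 (hb.1 h), fun h => h2 (ha.1 h)⟩]
          funext z
          change ct (Sum.inr false) (Sum.inr true) (rl (EE L) m).1 z =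
            St.cpf (Sum.inr true) (Sum.inr false) (rl (EE L) m) z
          unfold ct St.cpf
          have hne' : (rl (EE L) m) (Sum.inr true) ≠ (rl (EE L) m) (Sum.inr false) := by
            intro h
            exact absurd ((rl (EE L) m).inj h) (by simp)
          by_cases z1 : z = Sum.inr false
          · subst z1; simp
          · by_cases z2 : z = Sum.inr true
            · subst z2; simp
            · rw [if_neg z1, if_neg z2, if_neg z2, if_neg z1]
              by_cases z3 : z = (rl (EE L) m) (Sum.inr false)
              · rw [if_pos z3, if_neg (fun h => hne' (h.symm.trans z3)), if_pos z3]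
              · rw [if_neg z3]
                by_cases z4 : z = (rl (EE L) m) (Sum.inr true)
                · rw [if_pos z4, if_pos z4]
                · rw [if_neg z4, if_neg z4, if_neg z3]
        rw [hct]
        simp only [Pi.single_apply]
        have h5 : (res (m.cp ax ax') = τ) ↔ ((fun j => match (rl (EE L) (m.cp ax ax')).1 (Sum.inl j) with
          | Sum.inl i => i
          | Sum.inr _ => j) = τ.1) := by
          constructor
          · intro h
            funext j
            rw [← h]
            rw [res_of_ax c2 c3]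
            exact proj_eq _ j
          · intro h
            apply St.ext'
            intro j
            rw [res_of_ax c2 c3, ← proj_eq _ j]
            exact congrFun h j
        by_cases h4 : res (m.cp ax ax') = τ
        · rw [if_pos h4, if_pos (h5.1 h4)]
        · rw [if_neg h4, if_neg (fun h => h4 (h5.2 h))]

/-- The row operator is the normalised transfer matrix at `U = 0`. -/
theorem MT_zero_eq (L : ℕ) (m' m : St (Fin L)) :
    MT (List.finRange L) (0 : Fin L → ℂ) m' m = ((K L m m' : ℝ) : ℂ) := by
  have hn : nrm (List.finRange L) (0 : Fin L → ℂ) = kk lam ^ L := by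
    unfold nrm
    simp
  have hk : kk lam ≠ 0 := kk_lam_ne
  rw [K_eq_sum]
  simp only [MT, Matrix.of_apply, hn]
  have h1 : ∀ f, ∑ r : Fin L → Bool, XH (PhiR (L := L) m') (List.finRange L) r f =
      SumH (PhiR (L := L) m') (List.finRange L) f := by
    intro f
    have := sum_XH (PhiR (L := L) m') (List.finRange L) (List.nodup_finRange L) f
    rw [List.length_finRange] at this
    exact mul_left_cancel₀ (pow_ne_zero _ two_ne_zero) this
  simp only [h1, Fintype.sum_bool, if_true]
  have h2 : Tt (List.finRange L) lam 0 (Pi.single m' 1) m =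
      kk lam ^ L * SumH (PhiR (L := L) m') (List.finRange L) (Sum.map m.1 id) +
      kk lam ^ L * SumH (PhiR (L := L) m') (List.finRange L)
        (ar (Sum.inr false) (Sum.inr true) (Sum.map m.1 id)) := by
    rw [Tt_eq]
    have h3 : capF (Pi.single m' 1) = fun n => (fun k : St (Fin L ⊕ Bool) => PhiR (L := L) m' k.1)
        (rl (EE L) n) := by
      funext n
      exact capF_PhiR m' n
    have h4 : ∀ n, Fo (List.finRange L) lam 0 (capF (Pi.single m' 1)) n =
        kk lam ^ L * SumH (PhiR (L := L) m') (List.finRange L) (rl (EE L) n).1 := by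
      intro n
      rw [h3]
      have h5 := Fo_Fo2 (List.finRange L) (fun k : St (Fin L ⊕ Bool) => PhiR (L := L) m' k.1) n
      rw [h5, Fo2_eq (PhiR (L := L) m') _ (fun _ => rfl), List.length_finRange]
    unfold cupF
    rw [h4, h4]
    have e1 : (rl (EE L) (ext0 m)).1 = Sum.map m.1 id := by
      funext z
      rcases z with i | (_ | _) <;> rfl
    have e2 : (rl (EE L) (ext1 m)).1 = ar (Sum.inr false) (Sum.inr true) (Sum.map m.1 id) := by
      unfold ext1
      rw [rl_jn]
      unfold St.jn
      rw [dif_pos ⟨rfl, rfl⟩]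
      funext z
      change St.jnf ((EE L) ax) ((EE L) ax') (rl (EE L) (ext0 m)) z = _
      have e3 : (EE L) ax = Sum.inr true := rfl
      have e4 : (EE L) ax' = Sum.inr false := rfl
      rw [e3, e4]
      unfold St.jnf ar
      by_cases z1 : z = Sum.inr true
      · subst z1; simp
      · by_cases z2 : z = Sum.inr false
        · subst z2; simp
        · rw [if_neg z1, if_neg z2, if_neg z2, if_neg z1]
          exact congrFun e1 z
    rw [e1, e2]
  rw [h2]
  simp only [Bool.false_eq_true, if_false]
  field_simp
  ring

/-- The powers. -/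
theorem MT_zero_pow (L n : ℕ) (m' m : St (Fin L)) :
    (MT (List.finRange L) (0 : Fin L → ℂ) ^ n) m' m = (((K L ^ n) m m' : ℝ) : ℂ) := by
  induction n generalizing m' m with
  | zero =>
    simp only [pow_zero, Matrix.one_apply]
    by_cases h : m' = m
    · subst h; simp
    · rw [if_neg h, if_neg (Ne.symm h)]; simp
  | succ n ih =>
    rw [pow_succ, pow_succ', Matrix.mul_apply, Matrix.mul_apply]
    push_cast
    refine Finset.sum_congr rfl fun k _ => ?_
    rw [ih, MT_zero_eq]
    ring

/-- `PowZero` from the real row operator. -/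
theorem PowZero_of_K (L : ℕ) (h : ∀ σ τ : St (Fin L), σ ≠ em L → τ ≠ em L →
    Tendsto (fun n : ℕ => (K L ^ n) σ τ) atTop (𝓝 0)) : PowZero (List.finRange L) := by
  intro m' m hm' hm
  simp only [MT_zero_pow]
  have h1 := h m m' hm hm'
  have h2 := (Complex.continuous_ofReal.tendsto (0 : ℝ)).comp h1
  rw [Complex.ofReal_zero] at h2
  exact h2

/-- The masses `Rm L n` converge to the fixed functional at `U = 0`. -/
theorem tendsto_Rm (L : ℕ) (h : PowZero (List.finRange L)) (τ : St (Fin L)) :
    Tendsto (fun n : ℕ => ((Rm L n τ : ℝ) : ℂ)) atTop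
      (𝓝 (RR (List.finRange L) 0 (Pi.single τ 1))) := by
  have h1 := tendsto_pow_single (e := St.emp) (A := MT (List.finRange L) (0 : Fin L → ℂ))
    (fun j => MT_row _ _ (nrm_zero_ne _) j) (fun i j hi hj => h i j hi hj)
  have h2 := (tendsto_pi_nhds.1 h1) τ
  have h3 : RR (List.finRange L) (0 : Fin L → ℂ) (Pi.single τ 1) =
      fixV St.emp (MT (List.finRange L) (0 : Fin L → ℂ)) τ := by
    unfold RR
    simp [Pi.single_apply]
  rw [h3]
  refine h2.congr fun n => ?_
  simp only [Matrix.mulVec, dotProduct, Pi.single_apply, mul_ite, mul_one, mul_zero,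
    Finset.sum_ite_eq', Finset.mem_univ, if_true]
  rw [MT_zero_pow]
  rfl

/-- If the masses are monotone (or just converge to their supremum), the value is `Ri`. -/
theorem RR_eq_Ri (L : ℕ) (h : PowZero (List.finRange L)) (τ : St (Fin L))
    (hmono : Monotone fun n : ℕ => Rm L n τ) :
    RR (List.finRange L) 0 (Pi.single τ 1) = ((Ri L τ : ℝ) : ℂ) := by
  have h1 := tendsto_Rm L h τ
  have h2 : Tendsto (fun n : ℕ => Rm L n τ) atTop
      (𝓝 (RR (List.finRange L) 0 (Pi.single τ 1)).re) := by
    have := (Complex.continuous_re.tendsto _).comp h1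
    exact this
  have h3 : Tendsto (fun n : ℕ => Rm L n τ) atTop (𝓝 (Ri L τ)) := by
    unfold Ri
    apply tendsto_atTop_ciSup hmono
    exact h2.bddAbove_range
  have h4 : Tendsto (fun n : ℕ => ((Rm L n τ : ℝ) : ℂ)) atTop (𝓝 ((Ri L τ : ℝ) : ℂ)) :=
    (Complex.continuous_ofReal.tendsto _).comp h3
  exact tendsto_nhds_unique h1 h4

theorem K_nonneg (L : ℕ) (σ τ : St (Fin L)) : 0 ≤ K L σ τ := by
  unfold K
  refine Finset.sum_nonneg fun q _ => Finset.sum_nonneg fun r _ => ?_
  cases row q r σ.1 with
  | none => exact le_rfl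
  | some g =>
    simp only
    split_ifs
    · exact pow_nonneg xc_pos.le _
    · exact le_rfl

theorem K_em_em (L : ℕ) : K L (em L) (em L) = 1 := by
  have h1 := MT_zero_eq L St.emp St.emp
  rw [MT_row _ _ (nrm_zero_ne _), if_pos rfl] at h1
  exact_mod_cast h1.symm

theorem K_pow_nonneg (L n : ℕ) (σ τ : St (Fin L)) : 0 ≤ (K L ^ n) σ τ := by
  induction n generalizing σ τ with
  | zero =>
    simp only [pow_zero, Matrix.one_apply]
    split_ifs
    · exact zero_le_one
    · exact le_rfl
  | succ n ih =>
    rw [pow_succ, Matrix.mul_apply]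
    exact Finset.sum_nonneg fun k _ => mul_nonneg (ih _ _) (K_nonneg _ _ _)

/-- The masses increase with the number of rows. -/
theorem Rm_mono (L : ℕ) (σ : St (Fin L)) : Monotone fun n : ℕ => Rm L n σ := by
  apply monotone_nat_of_le_succ
  intro n
  unfold Rm
  rw [pow_succ', Matrix.mul_apply]
  calc (K L ^ n) (em L) σ = K L (em L) (em L) * (K L ^ n) (em L) σ := by rw [K_em_em, one_mul]
    _ ≤ _ := Finset.single_le_sum
      (f := fun k => K L (em L) k * (K L ^ n) k σ)
      (fun k _ => mul_nonneg (K_nonneg _ _ _) (K_pow_nonneg _ _ _ _)) (Finset.mem_univ (em L))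

/-- The fixed functional at `U = 0` gives the masses of the half-infinite cylinder. -/
theorem RR_eq_Ri' (L : ℕ) (h : PowZero (List.finRange L)) (τ : St (Fin L)) :
    RR (List.finRange L) 0 (Pi.single τ 1) = ((Ri L τ : ℝ) : ℂ) :=
  RR_eq_Ri L h τ (Rm_mono L τ)

/-- The fixed functional at `U = 0`. -/
theorem RR_eq_sum (L : ℕ) (h : PowZero (List.finRange L)) (F : St (Fin L) → ℂ) :
    RR (List.finRange L) 0 F = ∑ τ, F τ * ((Ri L τ : ℝ) : ℂ) := by
  have h1 : F = ∑ m', F m' • (Pi.single m' 1 : St (Fin L) → ℂ) := by
    funext m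
    simp [Finset.sum_apply, Pi.single_apply]
  conv_lhs => rw [h1]
  rw [← RRL_apply, map_sum]
  refine Finset.sum_congr rfl fun m' _ => ?_
  rw [map_smul, RRL_apply, RR_eq_Ri' L h, smul_eq_mul]

theorem Ri_nonneg (L : ℕ) (σ : St (Fin L)) : 0 ≤ Ri L σ := by
  unfold Ri
  exact Real.iSup_nonneg fun n => K_pow_nonneg _ _ _ _

theorem jn_eq_ars {L : ℕ} (i j : Fin L) (h : i ≠ j) : St.jn i j (St.emp : St (Fin L)) = ars i j h := by
  unfold St.jn
  rw [dif_pos ⟨rfl, rfl⟩]
  rfl

/-- `S L` in terms of the fixed functional. -/
theorem S_eq_RR (L : ℕ) (h : PowZero (List.finRange L)) :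
    (∑ k : Fin L, if (⟨0, k.pos⟩ : Fin L) ≠ k then
      RR (List.finRange L) 0 (fun m => if m = St.jn ⟨0, k.pos⟩ k St.emp then 1 else 0) else 0) =
      ((S L : ℝ) : ℂ) := by
  unfold S
  push_cast
  refine Finset.sum_congr rfl fun k _ => ?_
  by_cases hk : (⟨0, k.pos⟩ : Fin L) ≠ k
  · rw [if_pos hk, dif_pos hk, jn_eq_ars _ _ hk, ← RR_eq_Ri' L h]
    congr 1
    funext m
    rw [Pi.single_apply]
  · rw [if_neg hk, dif_neg hk]
    simp

end Pool.Agent.BEX
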