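import Pool.Agent.BEX.OPGrow

/-!
# BEX part B, module OPProd: the product bound

PAPER PROOF (helper45, helper57). `p` of degree `≤ n`, orthogonal to lower degrees, `p(0) = 1`; `σ` of degree `< m`,
`m ∈ {n, n + 1}`, reproducing at `0` in degree `< m`. Put `(X + 1) k' = p(-1) σ - σ(-1) p` and `k = X k' + σ(-1) p`. Then
`(X + 1) k = p(-1) X σ + σ(-1) p` is orthogonal to degree `< m - 1`, so `ip k q = q(-1) ip k 1` in degree `< m`; with
`q = σ`: `σ(-1) = k(0) = ip k σ = σ(-1) ip k 1` and `σ(-1) ≠ 0` (otherwise `σ = (X + 1) ρ`,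
`0 = ip σ (X ρ) = ip (X ρ) (X ρ) + ip (X ρ) ρ > 0`), so `k` is the kernel at `-1`, and `ip (X k') q = q(-1)` in degree `< n`.
Hence `σ(-1) p(-1) = k(-1) + k'(-1)`. Comparison with the Meixner-Pollaczek weight: with `K = Σ_{l<m} E_l(-1)²/N_l`:
`0 ≤ ip (k - (4/3) q) (k - (4/3) q) ≤ k(-1) - (4/3) K` for `q = Σ (E_l(-1)/N_l) E_l`, and `k(-1) ≤ k(-1)/2 + K` by the
inequality `c E ≤ c² N/4 + E²/N` in the expansion of `k`. The same for `k'` with the odd family
`O_l = - Σ_{j≤l} (2/(2j+1)) E_j`, `X O_l = (16(l+1)/9) (E_{l+1} - E_l)`, so `ipn (X O_l) O_j = 0` for `j ≠ l` and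
`ipn (X O_l) O_l = (256/81) (l+1)`.
-/

set_option autoImplicit false

namespace Pool.Agent.BEX

open Polynomial MeasureTheory Finset

/-! ### bilinearity -/

private theorem OPProd_add_right (p q q' : ℝ[X]) : ip p (q + q') = ip p q + ip p q' := by
  rw [ip_comm, ip_add_left, ip_comm q, ip_comm q']

private theorem OPProd_smul_right (c : ℝ) (p q : ℝ[X]) : ip p (C c * q) = c * ip p q := by
  rw [ip_comm, ip_smul_left, ip_comm]

private theorem OPProd_zero_left (q : ℝ[X]) : ip 0 q = 0 := by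
  have h := ip_smul_left 0 0 q
  rwa [mul_zero, zero_mul] at h

private theorem OPProd_zero_right (p : ℝ[X]) : ip p 0 = 0 := by
  rw [ip_comm, OPProd_zero_left]

private theorem OPProd_nzero_left (q : ℝ[X]) : ipn 0 q = 0 := by
  have h := ipn_smul_left 0 0 q
  rwa [mul_zero, zero_mul] at h

private theorem OPProd_nsum_left (s : Finset ℕ) (f : ℕ → ℝ[X]) (q : ℝ[X]) :
    ipn (∑ l ∈ s, f l) q = ∑ l ∈ s, ipn (f l) q := by
  classical
  induction s using Finset.induction_on with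
  | empty => rw [Finset.sum_empty, Finset.sum_empty, OPProd_nzero_left]
  | insert a s ha ih => rw [Finset.sum_insert ha, Finset.sum_insert ha, ipn_add_left, ih]

private theorem OPProd_nsmul_right (c : ℝ) (p q : ℝ[X]) : ipn p (C c * q) = c * ipn p q := by
  rw [ipn_comm, ipn_smul_left, ipn_comm]

private theorem OPProd_nsum_right (s : Finset ℕ) (f : ℕ → ℝ[X]) (q : ℝ[X]) :
    ipn q (∑ l ∈ s, f l) = ∑ l ∈ s, ipn q (f l) := by
  rw [ipn_comm, OPProd_nsum_left]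
  exact Finset.sum_congr rfl fun l _ => ipn_comm _ _

/-! ### division by `X + 1` -/

private theorem OPProd_factor {g : ℝ[X]} (hg : g.eval (-1) = 0) :
    ∃ r : ℝ[X], g = (X + 1) * r ∧ (r = 0 ∨ r.natDegree + 1 = g.natDegree) := by
  obtain ⟨r, hr⟩ := dvd_iff_isRoot.2 hg
  have h2 : X - C (-1 : ℝ) = X + 1 := by
    rw [C_neg, C_1, sub_neg_eq_add]
  rw [h2] at hr
  refine ⟨r, hr, ?_⟩
  by_cases h0 : r = 0
  · exact Or.inl h0
  · right
    have h4 : (X + 1 : ℝ[X]).natDegree = 1 := by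
      rw [← C_1]
      exact natDegree_X_add_C 1
    have h3 : (X + 1 : ℝ[X]) ≠ 0 := by
      intro h
      rw [h, natDegree_zero] at h4
      exact absurd h4 (by norm_num)
    rw [hr, natDegree_mul h3 h0, h4, add_comm]

/-! ### the kernels at `-1` -/

theorem OPProd_kernel {n m : ℕ} (hm : m = n ∨ m = n + 1) (h1 : 1 ≤ m) {p σ : ℝ[X]}
    (hp : p.natDegree ≤ n) (hpo : ∀ q : ℝ[X], q.natDegree < n → ip p q = 0) (hp0 : p.eval 0 = 1)
    (hσ : σ.natDegree < m) (hσr : ∀ q : ℝ[X], q.natDegree < m → ip σ q = q.eval 0) :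
    ∃ k k' : ℝ[X], k = X * k' + C (σ.eval (-1)) * p ∧ k.natDegree < m ∧
      (k' = 0 ∨ k'.natDegree < n) ∧ (∀ q : ℝ[X], q.natDegree < m → ip k q = q.eval (-1)) ∧
      ∀ q : ℝ[X], q.natDegree < n → ip (X * k') q = q.eval (-1) := by
  have hXdeg : ∀ r : ℝ[X], (X * r).natDegree ≤ r.natDegree + 1 := by
    intro r
    have h := natDegree_mul_le (p := (X : ℝ[X])) (q := r)
    have h' := natDegree_X_le (R := ℝ)
    omega
  have hσ1 : σ.eval (-1) ≠ 0 := by
    intro h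
    obtain ⟨ρ, hρ, hd⟩ := OPProd_factor h
    have h2 : ip σ (X * ρ) = 0 := by
      rw [hσr _ ?_]
      · rw [eval_mul, eval_X, zero_mul]
      · rcases hd with hd | hd
        · rw [hd, mul_zero, natDegree_zero]
          omega
        · have h3 := hXdeg ρ
          omega
    have h3 : ip σ (X * ρ) = ip (X * ρ) (X * ρ) + ip (X * ρ) ρ := by
      have h4 : σ = X * ρ + ρ := by
        rw [hρ]
        ring
      calc ip σ (X * ρ) = ip (X * ρ + ρ) (X * ρ) := by rw [← h4]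
        _ = ip (X * ρ) (X * ρ) + ip ρ (X * ρ) := ip_add_left _ _ _
        _ = _ := by rw [ip_mul_left X ρ ρ]
    have h5 := ip_X_nonneg ρ
    have h6 : X * ρ = 0 := by
      by_contra hne
      have h7 := ip_pos hne
      linarith
    have h8 : ρ = 0 := by
      rcases mul_eq_zero.1 h6 with h9 | h9
      · exact absurd h9 X_ne_zero
      · exact h9
    have h9 := hσr 1 (by rw [natDegree_one]; omega)
    rw [hρ, h8, mul_zero, OPProd_zero_left, eval_one] at h9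
    exact zero_ne_one h9
  have hg : (C (p.eval (-1)) * σ - C (σ.eval (-1)) * p).eval (-1) = 0 := by
    rw [eval_sub, eval_mul, eval_mul, eval_C, eval_C]
    ring
  obtain ⟨k', hk', hd'⟩ := OPProd_factor hg
  have hXk : (X + 1) * (X * k' + C (σ.eval (-1)) * p) =
      C (p.eval (-1)) * (X * σ) + C (σ.eval (-1)) * p := by
    calc (X + 1) * (X * k' + C (σ.eval (-1)) * p) =
        X * ((X + 1) * k') + (X + 1) * (C (σ.eval (-1)) * p) := by ring
      _ = X * (C (p.eval (-1)) * σ - C (σ.eval (-1)) * p) + (X + 1) * (C (σ.eval (-1)) * p) := by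
        rw [← hk']
      _ = _ := by ring
  obtain ⟨k, hk⟩ : ∃ k, k = X * k' + C (σ.eval (-1)) * p := ⟨_, rfl⟩
  rw [← hk] at hXk
  have hCm : ∀ (c : ℝ) (q : ℝ[X]), (C c * q).natDegree ≤ q.natDegree := fun c q => natDegree_C_mul_le c q
  have hkd' : k' = 0 ∨ k'.natDegree < n := by
    rcases hd' with h | h
    · exact Or.inl h
    · right
      have h2 := natDegree_sub_le (C (p.eval (-1)) * σ) (C (σ.eval (-1)) * p)
      have h3 := hCm (p.eval (-1)) σ
      have h4 := hCm (σ.eval (-1)) p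
      have h5 : max (C (p.eval (-1)) * σ).natDegree (C (σ.eval (-1)) * p).natDegree ≤ n :=
        max_le (by omega) (by omega)
      omega
  have hkd : k.natDegree < m := by
    by_cases h0 : k = 0
    · rw [h0, natDegree_zero]
      omega
    · have h4 : (X + 1 : ℝ[X]).natDegree = 1 := by
        rw [← C_1]
        exact natDegree_X_add_C 1
      have h3 : (X + 1 : ℝ[X]) ≠ 0 := by
        intro h
        rw [h, natDegree_zero] at h4
        exact absurd h4 (by norm_num)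
      have h5 : ((X + 1) * k).natDegree = 1 + k.natDegree := by rw [natDegree_mul h3 h0, h4]
      rw [hXk] at h5
      have h6 := natDegree_add_le (C (p.eval (-1)) * (X * σ)) (C (σ.eval (-1)) * p)
      have h7 := hCm (p.eval (-1)) (X * σ)
      have h8 := hCm (σ.eval (-1)) p
      have h9 := hXdeg σ
      have h10 : max (C (p.eval (-1)) * (X * σ)).natDegree (C (σ.eval (-1)) * p).natDegree ≤ m :=
        max_le (by omega) (by omega)
      omega
  have hkq : ∀ q : ℝ[X], q.natDegree < m → ip k q = q.eval (-1) * ip k 1 := by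
    intro q hq
    have h2 : (q - C (q.eval (-1))).eval (-1) = 0 := by
      rw [eval_sub, eval_C, sub_self]
    obtain ⟨r, hr, hrd⟩ := OPProd_factor h2
    have h3 : q = C (q.eval (-1)) * 1 + (X + 1) * r := by
      rw [← hr]
      ring
    have h4 : ip k ((X + 1) * r) = 0 := by
      rcases hrd with hrd | hrd
      · rw [hrd, mul_zero, OPProd_zero_right]
      · have h5 : (q - C (q.eval (-1))).natDegree ≤ q.natDegree := by
          rw [natDegree_sub_C]
        rw [← ip_mul_left, hXk, ip_add_left, ip_smul_left, ip_smul_left, ip_mul_left X σ r,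
          hσr (X * r) (by
            have := hXdeg r
            omega), hpo r (by omega), eval_mul, eval_X]
        ring
    calc ip k q = ip k (C (q.eval (-1)) * 1 + (X + 1) * r) := by rw [← h3]
      _ = q.eval (-1) * ip k 1 + 0 := by rw [OPProd_add_right, OPProd_smul_right, h4]
      _ = _ := add_zero _
  have hk1 : ip k 1 = 1 := by
    have h2 := hkq σ hσ
    have h3 : ip k σ = k.eval 0 := by
      rw [ip_comm]
      exact hσr k hkd
    have h4 : k.eval 0 = σ.eval (-1) := by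
      rw [hk, eval_add, eval_mul, eval_X, eval_mul, eval_C, hp0]
      ring
    rw [h3, h4] at h2
    have h5 : σ.eval (-1) * 1 = σ.eval (-1) * ip k 1 := by rw [mul_one]; exact h2
    exact (mul_left_cancel₀ hσ1 h5).symm
  have hkq' : ∀ q : ℝ[X], q.natDegree < m → ip k q = q.eval (-1) := by
    intro q hq
    rw [hkq q hq, hk1, mul_one]
  refine ⟨k, k', hk, hkd, hkd', hkq', fun q hq => ?_⟩
  have h2 := hkq' q (by omega)
  rw [hk, ip_add_left, ip_smul_left, hpo q hq, mul_zero, add_zero] at h2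
  exact h2

/-! ### the even kernel -/

private theorem OPProd_Epos (l : ℕ) : (0 : ℝ) < 8 / 9 * (2 * (l : ℝ) + 1) := by positivity

private theorem OPProd_even {m : ℕ} (h1 : 1 ≤ m) {k : ℝ[X]} (hk : k.natDegree < m)
    (hkr : ∀ q : ℝ[X], q.natDegree < m → ip k q = q.eval (-1)) :
    0 < k.eval (-1) ∧
    4 / 3 * ∑ l ∈ range m, (EO l).1.eval (-1) ^ 2 / (8 / 9 * (2 * (l : ℝ) + 1)) ≤ k.eval (-1) ∧
    k.eval (-1) ≤ 2 * ∑ l ∈ range m, (EO l).1.eval (-1) ^ 2 / (8 / 9 * (2 * (l : ℝ) + 1)) := by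
  obtain ⟨K, hK⟩ : ∃ K, K = ∑ l ∈ range m, (EO l).1.eval (-1) ^ 2 / (8 / 9 * (2 * (l : ℝ) + 1)) :=
    ⟨_, rfl⟩
  rw [← hK]
  have hkk : ip k k = k.eval (-1) := hkr k hk
  have hpos : 0 < k.eval (-1) := by
    rw [← hkk]
    refine ip_pos ?_
    rintro rfl
    have h2 := hkr 1 (by rw [natDegree_one]; omega)
    rw [OPProd_zero_left, eval_one] at h2
    exact zero_ne_one h2
  refine ⟨hpos, ?_, ?_⟩
  · obtain ⟨q, hq⟩ : ∃ q : ℝ[X], q = ∑ l ∈ range m,
        C ((EO l).1.eval (-1) / (8 / 9 * (2 * (l : ℝ) + 1))) * (EO l).1 := ⟨_, rfl⟩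
    have hqd : q.natDegree < m := by
      have h2 : q.natDegree ≤ m - 1 := by
        rw [hq]
        refine natDegree_sum_le_of_forall_le _ _ fun l hl => ?_
        have h3 := natDegree_C_mul_le ((EO l).1.eval (-1) / (8 / 9 * (2 * (l : ℝ) + 1))) (EO l).1
        rw [E_natDegree] at h3
        have h4 := mem_range.1 hl
        omega
      omega
    have hqe : q.eval (-1) = K := by
      rw [hq, eval_finsetSum, hK]
      refine Finset.sum_congr rfl fun l _ => ?_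
      rw [eval_mul, eval_C]
      ring
    have hqn : ipn q q = K := by
      rw [hq, ipn_expand, hK]
      refine Finset.sum_congr rfl fun l _ => ?_
      have h3 := (OPProd_Epos l).ne'
      field_simp
    have h2 : ip (k + C (-(4 / 3)) * q) (k + C (-(4 / 3)) * q) =
        k.eval (-1) - 8 / 3 * K + 16 / 9 * ip q q := by
      rw [ip_add_left, OPProd_add_right, OPProd_smul_right, hkk, ip_smul_left, OPProd_add_right,
        OPProd_smul_right, ip_comm q k, hkr q hqd, hqe]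
      ring
    have h3 := ip_self_nonneg (k + C (-(4 / 3)) * q)
    have h4 := ip_le_ipn q
    rw [hqn] at h4
    rw [h2] at h3
    linarith
  · obtain ⟨c, hc⟩ := E_expand (m - 1) k (by omega)
    rw [show m - 1 + 1 = m by omega] at hc
    have h2 : ipn k k = ∑ l ∈ range m, c l ^ 2 * (8 / 9 * (2 * (l : ℝ) + 1)) := by
      rw [← ipn_expand m c, ← hc]
    have h3 : k.eval (-1) = ∑ l ∈ range m, c l * (EO l).1.eval (-1) := by
      conv_lhs => rw [hc]
      rw [eval_finsetSum]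
      refine Finset.sum_congr rfl fun l _ => ?_
      rw [eval_mul, eval_C]
    have h4 : k.eval (-1) ≤ 1 / 4 * ipn k k + K := by
      rw [h2, h3, hK, Finset.mul_sum, ← Finset.sum_add_distrib]
      refine Finset.sum_le_sum fun l _ => ?_
      have h5 := OPProd_Epos l
      have h6 : c l * (EO l).1.eval (-1) ≤ 1 / 4 * (c l ^ 2 * (8 / 9 * (2 * (l : ℝ) + 1))) +
          (EO l).1.eval (-1) ^ 2 / (8 / 9 * (2 * (l : ℝ) + 1)) := by
        generalize (EO l).1.eval (-1) = e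
        generalize c l = x
        generalize 8 / 9 * (2 * (l : ℝ) + 1) = N at h5
        have h7 : 1 / 4 * (x ^ 2 * N) + e ^ 2 / N - x * e = (x * N / 2 - e) ^ 2 / N := by
          field_simp
          ring
        have h8 : 0 ≤ (x * N / 2 - e) ^ 2 / N := by positivity
        linarith
      exact h6
    have h5 := ipn_le_ip k
    rw [hkk] at h5
    linarith

/-! ### the odd family -/

private theorem OPProd_E_E {i j : ℕ} (h : i ≠ j) : ipn (EO i).1 (EO j).1 = 0 := by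
  rcases Nat.lt_or_gt_of_ne h with h | h
  · rw [ipn_comm]
    exact ipn_E_low j _ (by rw [E_natDegree]; exact h)
  · exact ipn_E_low i _ (by rw [E_natDegree]; exact h)

private theorem OPProd_O_sum (l : ℕ) :
    (EO l).2 = ∑ j ∈ range (l + 1), C (-(2 / (2 * (j : ℝ) + 1))) * (EO j).1 := by
  induction l with
  | zero =>
    rw [Finset.sum_range_one]
    simp [EO]
  | succ l ih =>
    rw [Finset.sum_range_succ, ← ih]
    have h1 : (EO (l + 1)).2 = (EO l).2 - C (2 / (2 * (l : ℝ) + 3)) * (EO (l + 1)).1 := rfl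
    have h2 : (2 * (((l + 1 : ℕ) : ℝ)) + 1) = 2 * (l : ℝ) + 3 := by
      push_cast
      ring
    rw [h1, h2, C_neg]
    ring

private theorem OPProd_XO (l : ℕ) :
    X * (EO l).2 = C (16 * ((l : ℝ) + 1) / 9) * ((EO (l + 1)).1 - (EO l).1) := by
  have h1 : (EO (l + 1)).1 = (EO l).1 + C (9 / (16 * ((l : ℝ) + 1))) * (X * (EO l).2) := rfl
  have h2 : C (16 * ((l : ℝ) + 1) / 9) * C (9 / (16 * ((l : ℝ) + 1))) = (1 : ℝ[X]) := by
    rw [← C_mul, ← C_1]
    congr 1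
    have h3 : (l : ℝ) + 1 ≠ 0 := by positivity
    field_simp
  rw [h1, add_sub_cancel_left, ← mul_assoc, h2, one_mul]

private theorem OPProd_E_O (j l : ℕ) : ipn (EO j).1 (EO l).2 = if j ≤ l then -(16 / 9) else 0 := by
  rw [OPProd_O_sum, OPProd_nsum_right]
  have h1 : ∀ i ∈ range (l + 1), ipn (EO j).1 (C (-(2 / (2 * (i : ℝ) + 1))) * (EO i).1) =
      if i = j then -(16 / 9 : ℝ) else 0 := by
    intro i _
    rw [OPProd_nsmul_right]
    by_cases h : i = j
    · rw [if_pos h, h, ipn_E_E]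
      have h3 : (2 * (j : ℝ) + 1) ≠ 0 := by positivity
      field_simp
      norm_num
    · rw [if_neg h, OPProd_E_E (Ne.symm h), mul_zero]
  rw [Finset.sum_congr rfl h1, Finset.sum_ite_eq']
  by_cases h : j ≤ l
  · rw [if_pos h, if_pos (mem_range.2 (by omega))]
  · rw [if_neg h, if_neg (fun h' => h (by
      have := mem_range.1 h'
      omega))]

private theorem OPProd_XO_O (l m : ℕ) :
    ipn (X * (EO l).2) (EO m).2 = if l = m then 256 / 81 * ((l : ℝ) + 1) else 0 := by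
  rw [OPProd_XO, ipn_smul_left, sub_eq_add_neg, ipn_add_left]
  have h1 : -(EO l).1 = C (-1) * (EO l).1 := by
    rw [C_neg, C_1]
    ring
  rw [h1, ipn_smul_left, OPProd_E_O, OPProd_E_O]
  by_cases h : l = m
  · rw [if_pos h, if_neg (by omega), if_pos (by omega)]
    ring
  · rw [if_neg h]
    by_cases h2 : l + 1 ≤ m
    · rw [if_pos h2, if_pos (by omega)]
      ring
    · rw [if_neg h2, if_neg (by omega)]
      ring

private theorem OPProd_O_expand (n : ℕ) (c : ℕ → ℝ) :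
    ∑ l ∈ range (n + 1), C (c l) * (EO l).1 =
      ∑ l ∈ range n, C (((2 * (l : ℝ) + 3) / 2) * c (l + 1) - ((2 * (l : ℝ) + 1) / 2) * c l) * (EO l).2 +
        C (-(((2 * (n : ℝ) + 1) / 2) * c n)) * (EO n).2 := by
  induction n with
  | zero =>
    rw [Finset.sum_range_one, Finset.sum_range_zero, zero_add]
    have h1 : (EO 0).2 = C (-2) := rfl
    have h2 : (EO 0).1 = 1 := rfl
    rw [h1, h2, ← C_mul, mul_one]
    congr 1
    push_cast
    ring
  | succ n ih =>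
    rw [Finset.sum_range_succ, ih, Finset.sum_range_succ]
    have h1 : (EO (n + 1)).2 = (EO n).2 - C (2 / (2 * (n : ℝ) + 3)) * (EO (n + 1)).1 := rfl
    have h2 : C (((2 * (n : ℝ) + 3) / 2)) * C (2 / (2 * (n : ℝ) + 3)) = (1 : ℝ[X]) := by
      rw [← C_mul, ← C_1]
      congr 1
      have h3 : 2 * (n : ℝ) + 3 ≠ 0 := by positivity
      field_simp
    have h4 : (EO (n + 1)).1 = C (((2 * (n : ℝ) + 3) / 2)) * ((EO n).2 - (EO (n + 1)).2) := by
      rw [h1, sub_sub_cancel, ← mul_assoc, h2, one_mul]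
    have h5 : (2 * (((n + 1 : ℕ) : ℝ)) + 1) / 2 = (2 * (n : ℝ) + 3) / 2 := by
      push_cast
      ring
    rw [h5]
    have h6 : C (c (n + 1)) * (EO (n + 1)).1 =
        C ((2 * (n : ℝ) + 3) / 2 * c (n + 1)) * ((EO n).2 - (EO (n + 1)).2) := by
      conv_lhs => rw [h4]
      rw [C_mul]
      ring
    rw [h6, C_sub, C_neg, C_neg]
    ring

private theorem OPProd_wt {k : ℝ} (hk : 0 < k) : 1 / Real.sinh (3 * Real.pi * k / 4) ≤ 2 * wt k := by
  obtain ⟨s, hs⟩ : ∃ s, s = Real.sinh (Real.pi * k / 4) := ⟨_, rfl⟩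
  have hu : 0 < Real.pi * k / 4 := by positivity
  have hs0 : 0 < s := by
    rw [hs]
    exact Real.sinh_pos_iff.mpr hu
  have hc : 0 < Real.cosh (Real.pi * k / 4) := Real.cosh_pos _
  have h1 : Real.pi * k = 2 * (2 * (Real.pi * k / 4)) := by ring
  have h2 : Real.sinh (Real.pi * k) = 4 * s * Real.cosh (Real.pi * k / 4) * (1 + 2 * s ^ 2) := by
    conv_lhs => rw [h1]
    rw [Real.sinh_two_mul, Real.sinh_two_mul, Real.cosh_two_mul, Real.cosh_sq, ← hs]
    ring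
  have h3 : Real.sinh (3 * Real.pi * k / 4) = s * (3 + 4 * s ^ 2) := by
    have h4 : 3 * Real.pi * k / 4 = 3 * (Real.pi * k / 4) := by ring
    rw [h4, Real.sinh_three_mul, ← hs]
    ring
  have h5 : 2 * wt k = 2 / (4 * s * (1 + 2 * s ^ 2)) := by
    unfold wt
    rw [h2]
    field_simp
  rw [h5, h3, div_le_div_iff₀ (by positivity) (by positivity)]
  nlinarith [mul_pos hs0 (pow_pos hs0 2)]

private theorem OPProd_ipn_X (p : ℝ[X]) : ipn (X * p) p ≤ 2 * ip (X * p) p := by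
  unfold ip ipn
  rw [← integral_const_mul]
  refine setIntegral_mono_on (ipn_integrable (X * p) p) ((ip_integrable (X * p) p).const_mul _)
    measurableSet_Ioi fun k hk => ?_
  have hk' : 0 < k := hk
  have h1 := OPProd_wt hk'
  have h2 : 0 ≤ (X * p).eval (k ^ 2) * p.eval (k ^ 2) * (2 * k) := by
    rw [eval_mul, eval_X]
    have h3 := mul_self_nonneg (p.eval (k ^ 2))
    have h4 : k ^ 2 * p.eval (k ^ 2) * p.eval (k ^ 2) * (2 * k) =
        k ^ 2 * (2 * k) * (p.eval (k ^ 2) * p.eval (k ^ 2)) := by ring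
    rw [h4]
    positivity
  calc (X * p).eval (k ^ 2) * p.eval (k ^ 2) * (2 * k / Real.sinh (3 * Real.pi * k / 4)) =
      (X * p).eval (k ^ 2) * p.eval (k ^ 2) * (2 * k) * (1 / Real.sinh (3 * Real.pi * k / 4)) := by
        ring
    _ ≤ (X * p).eval (k ^ 2) * p.eval (k ^ 2) * (2 * k) * (2 * wt k) :=
        mul_le_mul_of_nonneg_left h1 h2
    _ = 2 * ((X * p).eval (k ^ 2) * p.eval (k ^ 2) * (2 * k * wt k)) := by ring

private theorem OPProd_odd {n : ℕ} {k : ℝ[X]} (hk : k = 0 ∨ k.natDegree < n)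
    (hkr : ∀ q : ℝ[X], q.natDegree < n → ip (X * k) q = q.eval (-1)) :
    0 ≤ k.eval (-1) ∧
    k.eval (-1) ≤ 2 * ∑ l ∈ range n, (EO l).2.eval (-1) ^ 2 / (256 / 81 * ((l : ℝ) + 1)) := by
  have hKnn : 0 ≤ ∑ l ∈ range n, (EO l).2.eval (-1) ^ 2 / (256 / 81 * ((l : ℝ) + 1)) :=
    Finset.sum_nonneg fun l _ => by positivity
  by_cases h0 : k = 0
  · rw [h0, eval_zero]
    exact ⟨le_rfl, by positivity⟩
  have hkd : k.natDegree < n := by
    rcases hk with h | h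
    · exact absurd h h0
    · exact h
  have hkk : ip (X * k) k = k.eval (-1) := hkr k hkd
  refine ⟨by rw [← hkk]; exact ip_X_nonneg k, ?_⟩
  obtain ⟨c, hc⟩ := E_expand (n - 1) k (by omega)
  rw [OPProd_O_expand] at hc
  obtain ⟨b, hb⟩ : ∃ b : ℕ → ℝ, k = ∑ l ∈ range n, C (b l) * (EO l).2 := by
    refine ⟨fun l => if l < n - 1 then ((2 * (l : ℝ) + 3) / 2) * c (l + 1) - ((2 * (l : ℝ) + 1) / 2) * c l
      else -(((2 * (l : ℝ) + 1) / 2) * c l), ?_⟩
    obtain ⟨m, hm⟩ : ∃ m, n = m + 1 := ⟨n - 1, by omega⟩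
    subst hm
    rw [Finset.sum_range_succ, hc]
    simp only [Nat.add_sub_cancel]
    congr 1
    · refine Finset.sum_congr rfl fun l hl => ?_
      rw [if_pos (mem_range.1 hl)]
    · rw [if_neg (lt_irrefl m)]
  have h2 : ipn (X * k) k = ∑ l ∈ range n, b l ^ 2 * (256 / 81 * ((l : ℝ) + 1)) := by
    have h3 : X * k = ∑ l ∈ range n, C (b l) * (X * (EO l).2) := by
      conv_lhs => rw [hb]
      rw [Finset.mul_sum]
      refine Finset.sum_congr rfl fun l _ => ?_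
      ring
    rw [h3, OPProd_nsum_left]
    refine Finset.sum_congr rfl fun l hl => ?_
    rw [ipn_smul_left]
    have h4 : ipn (X * (EO l).2) k = b l * (256 / 81 * ((l : ℝ) + 1)) := by
      conv_lhs => rw [hb]
      rw [OPProd_nsum_right]
      rw [Finset.sum_eq_single l]
      · rw [OPProd_nsmul_right, OPProd_XO_O, if_pos rfl]
      · intro j _ hj
        rw [OPProd_nsmul_right, OPProd_XO_O, if_neg (Ne.symm hj), mul_zero]
      · intro h
        exact absurd hl h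
    rw [h4]
    ring
  have h3 : k.eval (-1) = ∑ l ∈ range n, b l * (EO l).2.eval (-1) := by
    conv_lhs => rw [hb]
    rw [eval_finsetSum]
    refine Finset.sum_congr rfl fun l _ => ?_
    rw [eval_mul, eval_C]
  obtain ⟨K, hK⟩ : ∃ K, K = ∑ l ∈ range n, (EO l).2.eval (-1) ^ 2 / (256 / 81 * ((l : ℝ) + 1)) :=
    ⟨_, rfl⟩
  rw [← hK]
  have h4 : k.eval (-1) ≤ 1 / 4 * ipn (X * k) k + K := by
    rw [h2, h3, hK, Finset.mul_sum, ← Finset.sum_add_distrib]
    refine Finset.sum_le_sum fun l _ => ?_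
    have h5 : (0 : ℝ) < 256 / 81 * ((l : ℝ) + 1) := by positivity
    generalize (EO l).2.eval (-1) = e
    generalize b l = x
    generalize 256 / 81 * ((l : ℝ) + 1) = N at h5
    have h7 : 1 / 4 * (x ^ 2 * N) + e ^ 2 / N - x * e = (x * N / 2 - e) ^ 2 / N := by
      field_simp
      ring
    have h8 : 0 ≤ (x * N / 2 - e) ^ 2 / N := by positivity
    linarith
  have h5 := OPProd_ipn_X k
  rw [hkk] at h5
  linarith

/-! ### growth -/

private theorem OPProd_sum_sqrt_le (m : ℕ) :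
    ∑ l ∈ range m, Real.sqrt ((l : ℝ) + 1) ≤ (m : ℝ) * Real.sqrt m := by
  calc ∑ l ∈ range m, Real.sqrt ((l : ℝ) + 1) ≤ ∑ _l ∈ range m, Real.sqrt m := by
        refine Finset.sum_le_sum fun l hl => Real.sqrt_le_sqrt ?_
        have := mem_range.1 hl
        exact_mod_cast this
    _ = (m : ℝ) * Real.sqrt m := by rw [Finset.sum_const, card_range, nsmul_eq_mul]

private theorem OPProd_sum_sqrt_ge (m : ℕ) :
    2 / 3 * ((m : ℝ) * Real.sqrt m) ≤ ∑ l ∈ range m, Real.sqrt ((l : ℝ) + 1) := by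
  induction m with
  | zero => simp
  | succ m ih =>
    rw [Finset.sum_range_succ]
    have hm : (0 : ℝ) ≤ m := Nat.cast_nonneg m
    have h1 := Real.sq_sqrt hm
    have h2 := Real.sq_sqrt (show (0 : ℝ) ≤ (m : ℝ) + 1 by linarith)
    have h3 := Real.sqrt_nonneg (m : ℝ)
    have h4 := Real.sqrt_nonneg ((m : ℝ) + 1)
    push_cast
    generalize Real.sqrt ((m : ℝ) + 1) = a at *
    generalize Real.sqrt (m : ℝ) = b at *
    have h5 : 0 ≤ (a - b) ^ 2 * (a + 2 * b) := by positivity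
    have h6 : ((m : ℝ) + 1) * a - (m : ℝ) * b ≤ 3 / 2 * a := by
      have h7 : a ^ 2 - b ^ 2 = 1 := by linarith
      have h8 : 3 / 2 * a - (((m : ℝ) + 1) * a - (m : ℝ) * b) = 1 / 2 * ((a - b) ^ 2 * (a + 2 * b)) := by
        rw [← h2, ← h1]
        have h9 : 3 / 2 * a = 3 / 2 * a * (a ^ 2 - b ^ 2) := by rw [h7, mul_one]
        rw [h9]
        ring
      linarith
    linarith

private theorem OPProd_rpow_sq (x : ℝ) (hx : 0 ≤ x) : (x ^ (3 / 4 : ℝ)) ^ 2 = x * Real.sqrt x := by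
  rw [← Real.rpow_natCast, ← Real.rpow_mul hx, Real.sqrt_eq_rpow]
  rcases hx.eq_or_lt with h | h
  · rw [← h, Real.zero_rpow (by norm_num), zero_mul]
  · conv_rhs => rw [← Real.rpow_one x, ← Real.rpow_mul hx, ← Real.rpow_add h]
    congr 1
    norm_num

private theorem OPProd_O_bound {C₀ : ℝ} (hC : 0 ≤ C₀)
    (h : ∀ l : ℕ, 0 ≤ (EO l).1.eval (-1) ∧ (EO l).1.eval (-1) ≤ C₀ * ((l : ℝ) + 1) ^ (3 / 4 : ℝ)) (l : ℕ) :
    |(EO l).2.eval (-1)| ≤ (2 + 4 * C₀) * ((l : ℝ) + 1) ^ (3 / 4 : ℝ) := by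
  induction l with
  | zero =>
    have h1 : (EO 0).2 = C (-2) := rfl
    rw [h1, eval_C]
    simp only [Nat.cast_zero, zero_add, Real.one_rpow, mul_one]
    rw [abs_neg, abs_of_pos (by norm_num : (0 : ℝ) < 2)]
    linarith
  | succ l ih =>
    have h1 : (EO (l + 1)).2 = (EO l).2 - C (2 / (2 * (l : ℝ) + 3)) * (EO (l + 1)).1 := rfl
    rw [h1, eval_sub, eval_mul, eval_C]
    obtain ⟨h2, h3⟩ := h (l + 1)
    push_cast at h3 ⊢
    obtain ⟨y, hy⟩ : ∃ y, y = ((l : ℝ) + 1 + 1) ^ (3 / 4 : ℝ) := ⟨_, rfl⟩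
    rw [← hy] at h3 ⊢
    have hy0 : 0 < y := by
      rw [hy]
      positivity
    have h4 : ((l : ℝ) + 1) ^ (3 / 4 : ℝ) ≤ y * (1 - 3 / 4 / ((l : ℝ) + 2)) := by
      have h5 : (l : ℝ) + 1 = ((l : ℝ) + 1 + 1) * (1 + -(1 / ((l : ℝ) + 2))) := by
        have h6 : (l : ℝ) + 2 ≠ 0 := by positivity
        field_simp
        ring
      have h7 : 1 / ((l : ℝ) + 2) ≤ 1 := by
        rw [div_le_one (by positivity)]
        have : (0 : ℝ) ≤ l := Nat.cast_nonneg l
        linarith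
      have h8 : (0 : ℝ) ≤ 1 + -(1 / ((l : ℝ) + 2)) := by linarith
      conv_lhs => rw [h5]
      rw [Real.mul_rpow (by positivity) h8, ← hy]
      refine mul_le_mul_of_nonneg_left ?_ hy0.le
      refine (rpow_one_add_le_one_add_mul_self (by linarith) (by norm_num) (by norm_num)).trans ?_
      have h9 : 1 + 3 / 4 * -(1 / ((l : ℝ) + 2)) = 1 - 3 / 4 / ((l : ℝ) + 2) := by ring
      rw [h9]
    have h10 : |(EO l).2.eval (-1) - 2 / (2 * (l : ℝ) + 3) * (EO (l + 1)).1.eval (-1)| ≤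
        |(EO l).2.eval (-1)| + 2 / (2 * (l : ℝ) + 3) * (EO (l + 1)).1.eval (-1) := by
      refine (abs_sub _ _).trans ?_
      rw [abs_of_nonneg (show 0 ≤ 2 / (2 * (l : ℝ) + 3) * (EO (l + 1)).1.eval (-1) by positivity)]
    refine h10.trans ?_
    have h11 : |(EO l).2.eval (-1)| ≤ (2 + 4 * C₀) * (y * (1 - 3 / 4 / ((l : ℝ) + 2))) :=
      ih.trans (mul_le_mul_of_nonneg_left h4 (by positivity))
    have h12 : 2 / (2 * (l : ℝ) + 3) * (EO (l + 1)).1.eval (-1) ≤ 2 / (2 * (l : ℝ) + 3) * (C₀ * y) :=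
      mul_le_mul_of_nonneg_left h3 (by positivity)
    have h13 : 2 / (2 * (l : ℝ) + 3) ≤ 3 / ((l : ℝ) + 2) := by
      rw [div_le_div_iff₀ (by positivity) (by positivity)]
      have : (0 : ℝ) ≤ l := Nat.cast_nonneg l
      linarith
    have h14 : 2 / (2 * (l : ℝ) + 3) * (C₀ * y) ≤ 3 / ((l : ℝ) + 2) * (C₀ * y) :=
      mul_le_mul_of_nonneg_right h13 (by positivity)
    have h15 : (2 + 4 * C₀) * (y * (1 - 3 / 4 / ((l : ℝ) + 2))) + 3 / ((l : ℝ) + 2) * (C₀ * y) =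
        (2 + 4 * C₀) * y - 3 / 2 / ((l : ℝ) + 2) * y := by
      have h6 : (l : ℝ) + 2 ≠ 0 := by positivity
      field_simp
      ring
    have h16 : 0 ≤ 3 / 2 / ((l : ℝ) + 2) * y := by positivity
    linarith

private theorem OPProd_sums : ∃ c C₀ : ℝ, 0 < c ∧ 0 < C₀ ∧ ∀ m : ℕ,
    c * ((m : ℝ) * Real.sqrt m) ≤ ∑ l ∈ range m, (EO l).1.eval (-1) ^ 2 / (8 / 9 * (2 * (l : ℝ) + 1)) ∧
    ∑ l ∈ range m, (EO l).1.eval (-1) ^ 2 / (8 / 9 * (2 * (l : ℝ) + 1)) ≤ C₀ * ((m : ℝ) * Real.sqrt m) ∧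
    ∑ l ∈ range m, (EO l).2.eval (-1) ^ 2 / (256 / 81 * ((l : ℝ) + 1)) ≤ C₀ * ((m : ℝ) * Real.sqrt m) := by
  obtain ⟨c, C₁, hc, h⟩ := E_neg_one_bounds
  have hC₁ : 0 ≤ C₁ := by
    have h1 := h 0
    simp only [Nat.cast_zero, zero_add, Real.one_rpow, mul_one] at h1
    linarith
  have hE0 : ∀ l : ℕ, 0 ≤ (EO l).1.eval (-1) ∧
      (EO l).1.eval (-1) ≤ C₁ * ((l : ℝ) + 1) ^ (3 / 4 : ℝ) := fun l =>
    ⟨le_trans (by positivity) (h l).1, (h l).2⟩
  have hO := OPProd_O_bound hC₁ hE0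
  refine ⟨9 / 16 * c ^ 2 * (2 / 3), 9 / 8 * C₁ ^ 2 + 81 / 256 * (2 + 4 * C₁) ^ 2, by positivity,
    by positivity, fun m => ⟨?_, ?_, ?_⟩⟩
  · calc 9 / 16 * c ^ 2 * (2 / 3) * ((m : ℝ) * Real.sqrt m) =
        9 / 16 * c ^ 2 * (2 / 3 * ((m : ℝ) * Real.sqrt m)) := by ring
      _ ≤ 9 / 16 * c ^ 2 * ∑ l ∈ range m, Real.sqrt ((l : ℝ) + 1) :=
        mul_le_mul_of_nonneg_left (OPProd_sum_sqrt_ge m) (by positivity)
      _ ≤ _ := by
        rw [Finset.mul_sum]
        refine Finset.sum_le_sum fun l _ => ?_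
        have h1 := (h l).1
        have hl : (0 : ℝ) < (l : ℝ) + 1 := by positivity
        have h2 : c ^ 2 * (((l : ℝ) + 1) * Real.sqrt ((l : ℝ) + 1)) ≤ (EO l).1.eval (-1) ^ 2 := by
          rw [← OPProd_rpow_sq _ hl.le, ← mul_pow]
          exact pow_le_pow_left₀ (by positivity) h1 2
        rw [le_div_iff₀ (OPProd_Epos l)]
        refine le_trans ?_ h2
        have h3 : 8 / 9 * (2 * (l : ℝ) + 1) ≤ 16 / 9 * ((l : ℝ) + 1) := by linarith
        calc 9 / 16 * c ^ 2 * Real.sqrt ((l : ℝ) + 1) * (8 / 9 * (2 * (l : ℝ) + 1)) ≤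
            9 / 16 * c ^ 2 * Real.sqrt ((l : ℝ) + 1) * (16 / 9 * ((l : ℝ) + 1)) :=
              mul_le_mul_of_nonneg_left h3 (by positivity)
          _ = _ := by ring
  · calc _ ≤ 9 / 8 * C₁ ^ 2 * ∑ l ∈ range m, Real.sqrt ((l : ℝ) + 1) := by
          rw [Finset.mul_sum]
          refine Finset.sum_le_sum fun l _ => ?_
          have hl : (0 : ℝ) < (l : ℝ) + 1 := by positivity
          have h2 : (EO l).1.eval (-1) ^ 2 ≤ C₁ ^ 2 * (((l : ℝ) + 1) * Real.sqrt ((l : ℝ) + 1)) := by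
            rw [← OPProd_rpow_sq _ hl.le, ← mul_pow]
            exact pow_le_pow_left₀ (hE0 l).1 (hE0 l).2 2
          rw [div_le_iff₀ (OPProd_Epos l)]
          refine h2.trans ?_
          have h3 : 8 / 9 * ((l : ℝ) + 1) ≤ 8 / 9 * (2 * (l : ℝ) + 1) := by
            have : (0 : ℝ) ≤ l := Nat.cast_nonneg l
            linarith
          calc C₁ ^ 2 * (((l : ℝ) + 1) * Real.sqrt ((l : ℝ) + 1)) =
              9 / 8 * C₁ ^ 2 * Real.sqrt ((l : ℝ) + 1) * (8 / 9 * ((l : ℝ) + 1)) := by ring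
            _ ≤ _ := mul_le_mul_of_nonneg_left h3 (by positivity)
      _ ≤ 9 / 8 * C₁ ^ 2 * ((m : ℝ) * Real.sqrt m) :=
          mul_le_mul_of_nonneg_left (OPProd_sum_sqrt_le m) (by positivity)
      _ ≤ _ := mul_le_mul_of_nonneg_right (by
          have : 0 ≤ 81 / 256 * (2 + 4 * C₁) ^ 2 := by positivity
          linarith) (by positivity)
  · calc _ ≤ 81 / 256 * (2 + 4 * C₁) ^ 2 * ∑ l ∈ range m, Real.sqrt ((l : ℝ) + 1) := by
          rw [Finset.mul_sum]
          refine Finset.sum_le_sum fun l _ => ?_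
          have hl : (0 : ℝ) < (l : ℝ) + 1 := by positivity
          have h2 : (EO l).2.eval (-1) ^ 2 ≤
              (2 + 4 * C₁) ^ 2 * (((l : ℝ) + 1) * Real.sqrt ((l : ℝ) + 1)) := by
            rw [← OPProd_rpow_sq _ hl.le, ← mul_pow, ← sq_abs]
            exact pow_le_pow_left₀ (abs_nonneg _) (hO l) 2
          rw [div_le_iff₀ (by positivity)]
          refine h2.trans (le_of_eq ?_)
          ring
      _ ≤ 81 / 256 * (2 + 4 * C₁) ^ 2 * ((m : ℝ) * Real.sqrt m) :=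
          mul_le_mul_of_nonneg_left (OPProd_sum_sqrt_le m) (by positivity)
      _ ≤ _ := mul_le_mul_of_nonneg_right (by
          have : 0 ≤ 9 / 8 * C₁ ^ 2 := by positivity
          linarith) (by positivity)

private theorem OPProd_rpow (L : ℕ) : (L : ℝ) ^ (3 / 2 : ℝ) = (L : ℝ) * Real.sqrt L := by
  have hx : (0 : ℝ) ≤ L := Nat.cast_nonneg L
  rw [Real.sqrt_eq_rpow]
  rcases hx.eq_or_lt with h | h
  · rw [← h, Real.zero_rpow (by norm_num), zero_mul]
  · conv_rhs => rw [← Real.rpow_one (L : ℝ), ← Real.rpow_mul hx, ← Real.rpow_add h]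
    congr 1
    norm_num

private theorem OPProd_half {L m : ℕ} (h1 : L ≤ 2 * m) :
    1 / 4 * ((L : ℝ) * Real.sqrt L) ≤ (m : ℝ) * Real.sqrt m := by
  have h2 : (L : ℝ) ≤ 2 * m := by exact_mod_cast h1
  have hL : (0 : ℝ) ≤ L := Nat.cast_nonneg L
  have h3 : Real.sqrt L ≤ 2 * Real.sqrt m := by
    have h4 : Real.sqrt (4 * (m : ℝ)) = 2 * Real.sqrt m := by
      rw [Real.sqrt_mul (by norm_num), show (4 : ℝ) = 2 ^ 2 by norm_num, Real.sqrt_sq (by norm_num)]
    rw [← h4]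
    exact Real.sqrt_le_sqrt (by linarith [(Nat.cast_nonneg m : (0 : ℝ) ≤ m)])
  calc 1 / 4 * ((L : ℝ) * Real.sqrt L) ≤ 1 / 4 * ((2 * m) * (2 * Real.sqrt m)) :=
        mul_le_mul_of_nonneg_left (mul_le_mul h2 h3 (Real.sqrt_nonneg _) (by positivity)) (by norm_num)
    _ = _ := by ring

private theorem OPProd_mono {m L : ℕ} (h : m ≤ L) :
    (m : ℝ) * Real.sqrt m ≤ (L : ℝ) * Real.sqrt L := by
  have h1 : (m : ℝ) ≤ L := by exact_mod_cast h
  exact mul_le_mul h1 (Real.sqrt_le_sqrt h1) (Real.sqrt_nonneg _) (Nat.cast_nonneg L)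

/-- The product bound: `d L = L (1 - c3 S_L)`. -/
theorem prod_d : ∃ c C : ℝ, 0 < c ∧ 0 < C ∧ ∀ d : ℕ → ℝ,
    (∀ n, ∃ p : ℝ[X], p.natDegree ≤ n ∧ (∀ q : ℝ[X], q.natDegree < n → ip p q = 0) ∧
      p.eval 0 = 1 ∧ d (2 * n + 1) = p.eval (-1)) →
    (∀ n, 1 ≤ n → ∃ s : ℝ[X], s.natDegree < n ∧
      (∀ q : ℝ[X], q.natDegree < n → ip s q = q.eval 0) ∧ d (2 * n) = s.eval (-1)) →
    ∀ L : ℕ, 1 ≤ L → 0 < d L ∧ c * (L : ℝ) ^ (3 / 2 : ℝ) ≤ d L * d (L + 1) ∧
      d L * d (L + 1) ≤ C * (L : ℝ) ^ (3 / 2 : ℝ) := by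
  obtain ⟨c, C₀, hc, hC₀, hsum⟩ := OPProd_sums
  refine ⟨1 / 4 * (4 / 3 * c), 4 * C₀, by positivity, by positivity, ?_⟩
  intro d h1 h2
  have key : ∀ n m L : ℕ, (m = n ∨ m = n + 1) → 1 ≤ m → L ≤ 2 * m → m ≤ L → ∀ x y : ℝ,
      (∃ p : ℝ[X], p.natDegree ≤ n ∧ (∀ q : ℝ[X], q.natDegree < n → ip p q = 0) ∧
        p.eval 0 = 1 ∧ x = p.eval (-1)) →
      (∃ s : ℝ[X], s.natDegree < m ∧ (∀ q : ℝ[X], q.natDegree < m → ip s q = q.eval 0) ∧
        y = s.eval (-1)) →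
      0 < x * y ∧ 1 / 4 * (4 / 3 * c) * (L : ℝ) ^ (3 / 2 : ℝ) ≤ x * y ∧
        x * y ≤ 4 * C₀ * (L : ℝ) ^ (3 / 2 : ℝ) := by
    intro n m L hmn hm hL hL' x y hx hy
    obtain ⟨p, hp, hpo, hp0, hpx⟩ := hx
    obtain ⟨s, hs, hsr, hsy⟩ := hy
    obtain ⟨k, k', hk, hkd, hkd', hkr, hkr'⟩ := OPProd_kernel hmn hm hp hpo hp0 hs hsr
    obtain ⟨e1, e2, e3⟩ := OPProd_even hm hkd hkr
    obtain ⟨o1, o2⟩ := OPProd_odd hkd' hkr'
    obtain ⟨s1, s2, -⟩ := hsum m
    obtain ⟨-, -, s3⟩ := hsum n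
    have h3 : x * y = k.eval (-1) + k'.eval (-1) := by
      rw [hk, eval_add, eval_mul, eval_X, eval_mul, eval_C, hpx, hsy]
      ring
    rw [OPProd_rpow]
    have h4 := OPProd_half hL
    have h5 := OPProd_mono hL'
    have h6 := OPProd_mono (show n ≤ L by omega)
    have h7 := mul_le_mul_of_nonneg_left h4 hc.le
    have h8 := mul_le_mul_of_nonneg_left h5 hC₀.le
    have h9 := mul_le_mul_of_nonneg_left h6 hC₀.le
    refine ⟨by rw [h3]; linarith, ?_, ?_⟩
    · rw [h3]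
      linarith
    · rw [h3]
      linarith
  have hprod : ∀ L : ℕ, 1 ≤ L → 0 < d L * d (L + 1) ∧
      1 / 4 * (4 / 3 * c) * (L : ℝ) ^ (3 / 2 : ℝ) ≤ d L * d (L + 1) ∧
      d L * d (L + 1) ≤ 4 * C₀ * (L : ℝ) ^ (3 / 2 : ℝ) := by
    intro L hL
    rcases Nat.even_or_odd' L with ⟨n, hn | hn⟩
    · have hn1 : 1 ≤ n := by omega
      have h := key n n L (Or.inl rfl) hn1 (by omega) (by omega) (d (2 * n + 1)) (d (2 * n)) (h1 n)
        (h2 n hn1)
      rw [mul_comm (d (2 * n + 1))] at h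
      rw [hn] at h ⊢
      exact h
    · have h := key n (n + 1) L (Or.inr rfl) (by omega) (by omega) (by omega) (d (2 * n + 1))
        (d (2 * (n + 1))) (h1 n) (h2 (n + 1) (by omega))
      rw [hn] at h ⊢
      exact h
  have hpos : ∀ L : ℕ, 1 ≤ L → 0 < d L := by
    intro L hL
    induction L, hL using Nat.le_induction with
    | base =>
      obtain ⟨p, hp, -, hp0, hpx⟩ := h1 0
      have h3 : d 1 = p.eval (-1) := hpx
      have h4 : p = C (p.coeff 0) := eq_C_of_natDegree_le_zero hp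
      rw [h4, eval_C] at hp0
      rw [h3, h4, eval_C, hp0]
      exact one_pos
    | succ L hL ih =>
      exact (mul_pos_iff_of_pos_left ih).1 (hprod L hL).1
  intro L hL
  exact ⟨hpos L hL, (hprod L hL).2⟩

/-- The product bound for `β L = d L / L`. -/
theorem prod_beta : ∃ c C : ℝ, 0 < c ∧ 0 < C ∧ ∀ β : ℕ → ℝ,
    (∀ n : ℕ, ∃ p : ℝ[X], p.natDegree ≤ n ∧ (∀ q : ℝ[X], q.natDegree < n → ip p q = 0) ∧
      p.eval 0 = 1 ∧ ((2 * n + 1 : ℕ) : ℝ) * β (2 * n + 1) = p.eval (-1)) →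
    (∀ n : ℕ, 1 ≤ n → ∃ s : ℝ[X], s.natDegree < n ∧
      (∀ q : ℝ[X], q.natDegree < n → ip s q = q.eval 0) ∧ ((2 * n : ℕ) : ℝ) * β (2 * n) = s.eval (-1)) →
    ∀ L : ℕ, 1 ≤ L → 0 < β L ∧ c * (L : ℝ) ^ (-(1 / 2) : ℝ) ≤ β L * β (L + 1) ∧
      β L * β (L + 1) ≤ C * (L : ℝ) ^ (-(1 / 2) : ℝ) := by
  obtain ⟨c, C₀, hc, hC₀, h⟩ := prod_d
  refine ⟨c / 2, C₀, by positivity, hC₀, ?_⟩
  intro β h1 h2 L hL
  obtain ⟨g1, g2, g3⟩ := h (fun L => (L : ℝ) * β L) h1 h2 L hL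
  have hLr : (0 : ℝ) < L := by exact_mod_cast hL
  have hL1 : (1 : ℝ) ≤ L := by exact_mod_cast hL
  have h3 : (L : ℝ) ^ (3 / 2 : ℝ) = (L : ℝ) ^ (-(1 / 2) : ℝ) * (L : ℝ) ^ 2 := by
    rw [← Real.rpow_natCast, ← Real.rpow_add hLr]
    congr 1
    norm_num
  obtain ⟨y, hy⟩ : ∃ y, y = (L : ℝ) ^ (-(1 / 2) : ℝ) := ⟨_, rfl⟩
  have hy0 : 0 < y := by
    rw [hy]
    positivity
  rw [h3, ← hy] at g2 g3
  rw [← hy]
  push_cast at g2 g3
  have h4 : 0 < β L := by
    rcases lt_or_ge 0 (β L) with h5 | h5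
    · exact h5
    · exact absurd g1 (not_lt.2 (mul_nonpos_of_nonneg_of_nonpos hLr.le h5))
  refine ⟨h4, ?_, ?_⟩
  · have h5 : c / 2 * y * ((L : ℝ) * ((L : ℝ) + 1)) ≤ c * (y * (L : ℝ) ^ 2) := by
      have h6 : (L : ℝ) * ((L : ℝ) + 1) ≤ 2 * (L : ℝ) ^ 2 := by nlinarith
      calc c / 2 * y * ((L : ℝ) * ((L : ℝ) + 1)) ≤ c / 2 * y * (2 * (L : ℝ) ^ 2) :=
            mul_le_mul_of_nonneg_left h6 (by positivity)
        _ = _ := by ring
    have h7 : c / 2 * y * ((L : ℝ) * ((L : ℝ) + 1)) ≤ β L * β (L + 1) * ((L : ℝ) * ((L : ℝ) + 1)) := by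
      refine (h5.trans g2).trans (le_of_eq ?_)
      ring
    exact le_of_mul_le_mul_right h7 (by positivity)
  · have h5 : C₀ * (y * (L : ℝ) ^ 2) ≤ C₀ * y * ((L : ℝ) * ((L : ℝ) + 1)) := by
      have h6 : (L : ℝ) ^ 2 ≤ (L : ℝ) * ((L : ℝ) + 1) := by nlinarith
      calc C₀ * (y * (L : ℝ) ^ 2) = C₀ * y * (L : ℝ) ^ 2 := by ring
        _ ≤ _ := mul_le_mul_of_nonneg_left h6 (by positivity)
    have h7 : β L * β (L + 1) * ((L : ℝ) * ((L : ℝ) + 1)) ≤ C₀ * y * ((L : ℝ) * ((L : ℝ) + 1)) := by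
      refine le_trans (le_of_eq ?_) (g3.trans h5)
      ring
    exact le_of_mul_le_mul_right h7 (by positivity)

end Pool.Agent.BEX
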