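import Pool.Agent.BEX.AForm
import Pool.Agent.BEX.AEv
import Pool.Agent.BEX.LinkKM
import Pool.Agent.BEX.OPProd

/-!
# BEX, parts A and B: the product bounds of the interface, from the decay `PowZero` (part D0).
-/

namespace Pool.Agent.BEX

open Filter Topology Polynomial

theorem SR_eq_S (L : ℕ) (h : PowZero (List.finRange L)) : SR L = ((S L : ℝ) : ℂ) := by
  rw [← S_eq_RR L h]
  rfl

/-- The product bounds of the interface. -/
theorem prod_bounds_of (hD : ∀ L : ℕ, 1 ≤ L → PowZero (List.finRange L)) :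
    ∃ c C : ℝ, 0 < c ∧ 0 < C ∧ ∀ L : ℕ, 1 ≤ L → 0 < 1 - c3 * S L ∧
      c * (L : ℝ) ^ (-(1 / 2) : ℝ) ≤ (1 - c3 * S L) * (1 - c3 * S (L + 1)) ∧
      (1 - c3 * S L) * (1 - c3 * S (L + 1)) ≤ C * (L : ℝ) ^ (-(1 / 2) : ℝ) := by
  obtain ⟨c, C, hc, hC, h⟩ := prod_beta
  refine ⟨c, C, hc, hC, h (fun L => 1 - c3 * S L) ?_ ?_⟩
  · intro n
    have hP := hD (2 * n + 1) (by omega)
    obtain ⟨p, h1, h2, h3, h4⟩ := A_odd n hP (hexrot_ev hP)
    refine ⟨p, h1, h2, h3, ?_⟩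
    rw [SR_eq_S _ hP] at h4
    exact_mod_cast h4
  · intro n hn
    have hP := hD (2 * n) (by omega)
    obtain ⟨s, h1, h2, h3⟩ := A_even n hn hP (hexrot_ev hP)
    refine ⟨s, h1, h2, ?_⟩
    rw [SR_eq_S _ hP] at h3
    exact_mod_cast h3

end Pool.Agent.BEX
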