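import Pool.Agent.BEX.AB
import Pool.Agent.BEX.D.D0
import Pool.Agent.QL.Main

/-!
# BEX: the product bounds of the interface (parts A, B, D complete)
-/

namespace Pool.Agent.BEX

theorem powZero_all (L : ℕ) : PowZero (List.finRange L) :=
  PowZero_of_bdd L fun M i j h => QL.Rm_ars_le L M i j h

/-- The product bounds of the interface. -/
theorem prod_bounds : ∃ c C : ℝ, 0 < c ∧ 0 < C ∧ ∀ L : ℕ, 1 ≤ L → 0 < 1 - c3 * S L ∧
    c * (L : ℝ) ^ (-(1 / 2) : ℝ) ≤ (1 - c3 * S L) * (1 - c3 * S (L + 1)) ∧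
    (1 - c3 * S L) * (1 - c3 * S (L + 1)) ≤ C * (L : ℝ) ^ (-(1 / 2) : ℝ) :=
  prod_bounds_of fun L _ => powZero_all L

end Pool.Agent.BEX
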