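import Pool.Agent.BEX.AYid

/-!
# BEX, part A: the Yang-Baxter equation at three labels, all local types (generated by a program)
-/

namespace Pool.Agent.BEX.AY

open Complex

section

variable {ι : Type*} [DecidableEq ι] {p q : ι} {u : ℂ} {F : St ι → ℂ} {m t t1 t2 t3 : St ι}

theorem Rt_ee (h1 : m p = p) (h2 : m q = q) (h3 : m.jn p q = t) :
    Rt p q u F m = kk u * F m + w4 u * F t := by
  subst h3
  simp only [Rt]
  rw [if_pos h1, if_pos h2]

theorem Rt_eo (h1 : m p = p) (h2 : m q ≠ q) (h3 : m.sw p q = t) :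
    Rt p q u F m = w6 u * F m + w2 u * F t := by
  subst h3
  simp only [Rt]
  rw [if_pos h1, if_neg h2]

theorem Rt_oe (h1 : m p ≠ p) (h2 : m q = q) (h3 : m.sw p q = t) :
    Rt p q u F m = w6 u * F m + w2 u * F t := by
  subst h3
  simp only [Rt]
  rw [if_neg h1, if_pos h2]

theorem Rt_jj (h1 : m p ≠ p) (h2 : m q ≠ q) (h3 : m p = q) :
    Rt p q u F m = w8 u * F m := by
  simp only [Rt]
  rw [if_neg h1, if_neg h2, if_pos h3]

theorem Rt_oo (h1 : m p ≠ p) (h2 : m q ≠ q) (h3 : m p ≠ q) (h4 : m.sw p q = t1)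
    (h5 : (m.cp p q).jn p q = t2) (h6 : m.cp p q = t3) :
    Rt p q u F m = w8 u * F t1 + w9 u * F t2 + w4 u * F t3 := by
  subst h4 h5 h6
  simp only [Rt]
  rw [if_neg h1, if_neg h2, if_neg h3]

end

/-! ### the states -/

def s3_012 : St (Fin 3) := ⟨![0, 1, 2], by decide⟩
def s3_021 : St (Fin 3) := ⟨![0, 2, 1], by decide⟩
def s3_102 : St (Fin 3) := ⟨![1, 0, 2], by decide⟩
def s3_210 : St (Fin 3) := ⟨![2, 1, 0], by decide⟩
def s4_0132 : St (Fin 4) := ⟨![0, 1, 3, 2], by decide⟩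
def s4_0321 : St (Fin 4) := ⟨![0, 3, 2, 1], by decide⟩
def s4_1032 : St (Fin 4) := ⟨![1, 0, 3, 2], by decide⟩
def s4_2301 : St (Fin 4) := ⟨![2, 3, 0, 1], by decide⟩
def s4_3120 : St (Fin 4) := ⟨![3, 1, 2, 0], by decide⟩
def s4_3210 : St (Fin 4) := ⟨![3, 2, 1, 0], by decide⟩
def s5_01243 : St (Fin 5) := ⟨![0, 1, 2, 4, 3], by decide⟩
def s5_02143 : St (Fin 5) := ⟨![0, 2, 1, 4, 3], by decide⟩
def s5_03412 : St (Fin 5) := ⟨![0, 3, 4, 1, 2], by decide⟩
def s5_04321 : St (Fin 5) := ⟨![0, 4, 3, 2, 1], by decide⟩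
def s5_10243 : St (Fin 5) := ⟨![1, 0, 2, 4, 3], by decide⟩
def s5_21043 : St (Fin 5) := ⟨![2, 1, 0, 4, 3], by decide⟩
def s5_31402 : St (Fin 5) := ⟨![3, 1, 4, 0, 2], by decide⟩
def s5_34201 : St (Fin 5) := ⟨![3, 4, 2, 0, 1], by decide⟩
def s5_41320 : St (Fin 5) := ⟨![4, 1, 3, 2, 0], by decide⟩
def s5_43210 : St (Fin 5) := ⟨![4, 3, 2, 1, 0], by decide⟩
def s6_013254 : St (Fin 6) := ⟨![0, 1, 3, 2, 5, 4], by decide⟩
def s6_014523 : St (Fin 6) := ⟨![0, 1, 4, 5, 2, 3], by decide⟩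
def s6_015432 : St (Fin 6) := ⟨![0, 1, 5, 4, 3, 2], by decide⟩
def s6_032154 : St (Fin 6) := ⟨![0, 3, 2, 1, 5, 4], by decide⟩
def s6_042513 : St (Fin 6) := ⟨![0, 4, 2, 5, 1, 3], by decide⟩
def s6_052431 : St (Fin 6) := ⟨![0, 5, 2, 4, 3, 1], by decide⟩
def s6_103254 : St (Fin 6) := ⟨![1, 0, 3, 2, 5, 4], by decide⟩
def s6_104523 : St (Fin 6) := ⟨![1, 0, 4, 5, 2, 3], by decide⟩
def s6_105432 : St (Fin 6) := ⟨![1, 0, 5, 4, 3, 2], by decide⟩
def s6_230154 : St (Fin 6) := ⟨![2, 3, 0, 1, 5, 4], by decide⟩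
def s6_240513 : St (Fin 6) := ⟨![2, 4, 0, 5, 1, 3], by decide⟩
def s6_250431 : St (Fin 6) := ⟨![2, 5, 0, 4, 3, 1], by decide⟩
def s6_312054 : St (Fin 6) := ⟨![3, 1, 2, 0, 5, 4], by decide⟩
def s6_321054 : St (Fin 6) := ⟨![3, 2, 1, 0, 5, 4], by decide⟩
def s6_345012 : St (Fin 6) := ⟨![3, 4, 5, 0, 1, 2], by decide⟩
def s6_354021 : St (Fin 6) := ⟨![3, 5, 4, 0, 2, 1], by decide⟩
def s6_412503 : St (Fin 6) := ⟨![4, 1, 2, 5, 0, 3], by decide⟩
def s6_421503 : St (Fin 6) := ⟨![4, 2, 1, 5, 0, 3], by decide⟩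
def s6_435102 : St (Fin 6) := ⟨![4, 3, 5, 1, 0, 2], by decide⟩
def s6_453201 : St (Fin 6) := ⟨![4, 5, 3, 2, 0, 1], by decide⟩
def s6_512430 : St (Fin 6) := ⟨![5, 1, 2, 4, 3, 0], by decide⟩
def s6_521430 : St (Fin 6) := ⟨![5, 2, 1, 4, 3, 0], by decide⟩
def s6_534120 : St (Fin 6) := ⟨![5, 3, 4, 1, 2, 0], by decide⟩
def s6_543210 : St (Fin 6) := ⟨![5, 4, 3, 2, 1, 0], by decide⟩

/-! ### the steps -/

theorem r3_01_012 (u : ℂ) (F : St (Fin 3) → ℂ) : Rt 0 1 u F s3_012 =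
    kk u * F s3_012 + w4 u * F s3_102 :=
  Rt_ee (by decide) (by decide) (St.ext' (by decide))

theorem r3_01_021 (u : ℂ) (F : St (Fin 3) → ℂ) : Rt 0 1 u F s3_021 =
    w6 u * F s3_021 + w2 u * F s3_210 :=
  Rt_eo (by decide) (by decide) (St.ext' (by decide))

theorem r3_01_102 (u : ℂ) (F : St (Fin 3) → ℂ) : Rt 0 1 u F s3_102 =
    w8 u * F s3_102 :=
  Rt_jj (by decide) (by decide) (by decide)

theorem r3_01_210 (u : ℂ) (F : St (Fin 3) → ℂ) : Rt 0 1 u F s3_210 =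
    w6 u * F s3_210 + w2 u * F s3_021 :=
  Rt_oe (by decide) (by decide) (St.ext' (by decide))

theorem r3_02_012 (u : ℂ) (F : St (Fin 3) → ℂ) : Rt 0 2 u F s3_012 =
    kk u * F s3_012 + w4 u * F s3_210 :=
  Rt_ee (by decide) (by decide) (St.ext' (by decide))

theorem r3_02_021 (u : ℂ) (F : St (Fin 3) → ℂ) : Rt 0 2 u F s3_021 =
    w6 u * F s3_021 + w2 u * F s3_102 :=
  Rt_eo (by decide) (by decide) (St.ext' (by decide))

theorem r3_02_102 (u : ℂ) (F : St (Fin 3) → ℂ) : Rt 0 2 u F s3_102 =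
    w6 u * F s3_102 + w2 u * F s3_021 :=
  Rt_oe (by decide) (by decide) (St.ext' (by decide))

theorem r3_02_210 (u : ℂ) (F : St (Fin 3) → ℂ) : Rt 0 2 u F s3_210 =
    w8 u * F s3_210 :=
  Rt_jj (by decide) (by decide) (by decide)

theorem r3_12_012 (u : ℂ) (F : St (Fin 3) → ℂ) : Rt 1 2 u F s3_012 =
    kk u * F s3_012 + w4 u * F s3_021 :=
  Rt_ee (by decide) (by decide) (St.ext' (by decide))

theorem r3_12_021 (u : ℂ) (F : St (Fin 3) → ℂ) : Rt 1 2 u F s3_021 =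
    w8 u * F s3_021 :=
  Rt_jj (by decide) (by decide) (by decide)

theorem r3_12_102 (u : ℂ) (F : St (Fin 3) → ℂ) : Rt 1 2 u F s3_102 =
    w6 u * F s3_102 + w2 u * F s3_210 :=
  Rt_oe (by decide) (by decide) (St.ext' (by decide))

theorem r3_12_210 (u : ℂ) (F : St (Fin 3) → ℂ) : Rt 1 2 u F s3_210 =
    w6 u * F s3_210 + w2 u * F s3_102 :=
  Rt_eo (by decide) (by decide) (St.ext' (by decide))

theorem r4_01_0132 (u : ℂ) (F : St (Fin 4) → ℂ) : Rt 0 1 u F s4_0132 =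
    kk u * F s4_0132 + w4 u * F s4_1032 :=
  Rt_ee (by decide) (by decide) (St.ext' (by decide))

theorem r4_01_0321 (u : ℂ) (F : St (Fin 4) → ℂ) : Rt 0 1 u F s4_0321 =
    w6 u * F s4_0321 + w2 u * F s4_3120 :=
  Rt_eo (by decide) (by decide) (St.ext' (by decide))

theorem r4_01_1032 (u : ℂ) (F : St (Fin 4) → ℂ) : Rt 0 1 u F s4_1032 =
    w8 u * F s4_1032 :=
  Rt_jj (by decide) (by decide) (by decide)

theorem r4_01_2301 (u : ℂ) (F : St (Fin 4) → ℂ) : Rt 0 1 u F s4_2301 =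
    w8 u * F s4_3210 + w9 u * F s4_1032 + w4 u * F s4_0132 :=
  Rt_oo (by decide) (by decide) (by decide) (St.ext' (by decide)) (St.ext' (by decide)) (St.ext' (by decide))

theorem r4_01_3120 (u : ℂ) (F : St (Fin 4) → ℂ) : Rt 0 1 u F s4_3120 =
    w6 u * F s4_3120 + w2 u * F s4_0321 :=
  Rt_oe (by decide) (by decide) (St.ext' (by decide))

theorem r4_01_3210 (u : ℂ) (F : St (Fin 4) → ℂ) : Rt 0 1 u F s4_3210 =
    w8 u * F s4_2301 + w9 u * F s4_1032 + w4 u * F s4_0132 :=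
  Rt_oo (by decide) (by decide) (by decide) (St.ext' (by decide)) (St.ext' (by decide)) (St.ext' (by decide))

theorem r4_02_0132 (u : ℂ) (F : St (Fin 4) → ℂ) : Rt 0 2 u F s4_0132 =
    w6 u * F s4_0132 + w2 u * F s4_3120 :=
  Rt_eo (by decide) (by decide) (St.ext' (by decide))

theorem r4_02_0321 (u : ℂ) (F : St (Fin 4) → ℂ) : Rt 0 2 u F s4_0321 =
    kk u * F s4_0321 + w4 u * F s4_2301 :=
  Rt_ee (by decide) (by decide) (St.ext' (by decide))

theorem r4_02_1032 (u : ℂ) (F : St (Fin 4) → ℂ) : Rt 0 2 u F s4_1032 =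
    w8 u * F s4_3210 + w9 u * F s4_2301 + w4 u * F s4_0321 :=
  Rt_oo (by decide) (by decide) (by decide) (St.ext' (by decide)) (St.ext' (by decide)) (St.ext' (by decide))

theorem r4_02_2301 (u : ℂ) (F : St (Fin 4) → ℂ) : Rt 0 2 u F s4_2301 =
    w8 u * F s4_2301 :=
  Rt_jj (by decide) (by decide) (by decide)

theorem r4_02_3120 (u : ℂ) (F : St (Fin 4) → ℂ) : Rt 0 2 u F s4_3120 =
    w6 u * F s4_3120 + w2 u * F s4_0132 :=
  Rt_oe (by decide) (by decide) (St.ext' (by decide))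

theorem r4_02_3210 (u : ℂ) (F : St (Fin 4) → ℂ) : Rt 0 2 u F s4_3210 =
    w8 u * F s4_1032 + w9 u * F s4_2301 + w4 u * F s4_0321 :=
  Rt_oo (by decide) (by decide) (by decide) (St.ext' (by decide)) (St.ext' (by decide)) (St.ext' (by decide))

theorem r4_12_0132 (u : ℂ) (F : St (Fin 4) → ℂ) : Rt 1 2 u F s4_0132 =
    w6 u * F s4_0132 + w2 u * F s4_0321 :=
  Rt_eo (by decide) (by decide) (St.ext' (by decide))

theorem r4_12_0321 (u : ℂ) (F : St (Fin 4) → ℂ) : Rt 1 2 u F s4_0321 =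
    w6 u * F s4_0321 + w2 u * F s4_0132 :=
  Rt_oe (by decide) (by decide) (St.ext' (by decide))

theorem r4_12_1032 (u : ℂ) (F : St (Fin 4) → ℂ) : Rt 1 2 u F s4_1032 =
    w8 u * F s4_2301 + w9 u * F s4_3210 + w4 u * F s4_3120 :=
  Rt_oo (by decide) (by decide) (by decide) (St.ext' (by decide)) (St.ext' (by decide)) (St.ext' (by decide))

theorem r4_12_2301 (u : ℂ) (F : St (Fin 4) → ℂ) : Rt 1 2 u F s4_2301 =
    w8 u * F s4_1032 + w9 u * F s4_3210 + w4 u * F s4_3120 :=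
  Rt_oo (by decide) (by decide) (by decide) (St.ext' (by decide)) (St.ext' (by decide)) (St.ext' (by decide))

theorem r4_12_3120 (u : ℂ) (F : St (Fin 4) → ℂ) : Rt 1 2 u F s4_3120 =
    kk u * F s4_3120 + w4 u * F s4_3210 :=
  Rt_ee (by decide) (by decide) (St.ext' (by decide))

theorem r4_12_3210 (u : ℂ) (F : St (Fin 4) → ℂ) : Rt 1 2 u F s4_3210 =
    w8 u * F s4_3210 :=
  Rt_jj (by decide) (by decide) (by decide)

theorem r5_01_01243 (u : ℂ) (F : St (Fin 5) → ℂ) : Rt 0 1 u F s5_01243 =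
    kk u * F s5_01243 + w4 u * F s5_10243 :=
  Rt_ee (by decide) (by decide) (St.ext' (by decide))

theorem r5_01_02143 (u : ℂ) (F : St (Fin 5) → ℂ) : Rt 0 1 u F s5_02143 =
    w6 u * F s5_02143 + w2 u * F s5_21043 :=
  Rt_eo (by decide) (by decide) (St.ext' (by decide))

theorem r5_01_03412 (u : ℂ) (F : St (Fin 5) → ℂ) : Rt 0 1 u F s5_03412 =
    w6 u * F s5_03412 + w2 u * F s5_31402 :=
  Rt_eo (by decide) (by decide) (St.ext' (by decide))

theorem r5_01_04321 (u : ℂ) (F : St (Fin 5) → ℂ) : Rt 0 1 u F s5_04321 =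
    w6 u * F s5_04321 + w2 u * F s5_41320 :=
  Rt_eo (by decide) (by decide) (St.ext' (by decide))

theorem r5_01_10243 (u : ℂ) (F : St (Fin 5) → ℂ) : Rt 0 1 u F s5_10243 =
    w8 u * F s5_10243 :=
  Rt_jj (by decide) (by decide) (by decide)

theorem r5_01_21043 (u : ℂ) (F : St (Fin 5) → ℂ) : Rt 0 1 u F s5_21043 =
    w6 u * F s5_21043 + w2 u * F s5_02143 :=
  Rt_oe (by decide) (by decide) (St.ext' (by decide))

theorem r5_01_31402 (u : ℂ) (F : St (Fin 5) → ℂ) : Rt 0 1 u F s5_31402 =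
    w6 u * F s5_31402 + w2 u * F s5_03412 :=
  Rt_oe (by decide) (by decide) (St.ext' (by decide))

theorem r5_01_34201 (u : ℂ) (F : St (Fin 5) → ℂ) : Rt 0 1 u F s5_34201 =
    w8 u * F s5_43210 + w9 u * F s5_10243 + w4 u * F s5_01243 :=
  Rt_oo (by decide) (by decide) (by decide) (St.ext' (by decide)) (St.ext' (by decide)) (St.ext' (by decide))

theorem r5_01_41320 (u : ℂ) (F : St (Fin 5) → ℂ) : Rt 0 1 u F s5_41320 =
    w6 u * F s5_41320 + w2 u * F s5_04321 :=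
  Rt_oe (by decide) (by decide) (St.ext' (by decide))

theorem r5_01_43210 (u : ℂ) (F : St (Fin 5) → ℂ) : Rt 0 1 u F s5_43210 =
    w8 u * F s5_34201 + w9 u * F s5_10243 + w4 u * F s5_01243 :=
  Rt_oo (by decide) (by decide) (by decide) (St.ext' (by decide)) (St.ext' (by decide)) (St.ext' (by decide))

theorem r5_02_01243 (u : ℂ) (F : St (Fin 5) → ℂ) : Rt 0 2 u F s5_01243 =
    kk u * F s5_01243 + w4 u * F s5_21043 :=
  Rt_ee (by decide) (by decide) (St.ext' (by decide))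

theorem r5_02_02143 (u : ℂ) (F : St (Fin 5) → ℂ) : Rt 0 2 u F s5_02143 =
    w6 u * F s5_02143 + w2 u * F s5_10243 :=
  Rt_eo (by decide) (by decide) (St.ext' (by decide))

theorem r5_02_03412 (u : ℂ) (F : St (Fin 5) → ℂ) : Rt 0 2 u F s5_03412 =
    w6 u * F s5_03412 + w2 u * F s5_43210 :=
  Rt_eo (by decide) (by decide) (St.ext' (by decide))

theorem r5_02_04321 (u : ℂ) (F : St (Fin 5) → ℂ) : Rt 0 2 u F s5_04321 =
    w6 u * F s5_04321 + w2 u * F s5_34201 :=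
  Rt_eo (by decide) (by decide) (St.ext' (by decide))

theorem r5_02_10243 (u : ℂ) (F : St (Fin 5) → ℂ) : Rt 0 2 u F s5_10243 =
    w6 u * F s5_10243 + w2 u * F s5_02143 :=
  Rt_oe (by decide) (by decide) (St.ext' (by decide))

theorem r5_02_31402 (u : ℂ) (F : St (Fin 5) → ℂ) : Rt 0 2 u F s5_31402 =
    w8 u * F s5_41320 + w9 u * F s5_21043 + w4 u * F s5_01243 :=
  Rt_oo (by decide) (by decide) (by decide) (St.ext' (by decide)) (St.ext' (by decide)) (St.ext' (by decide))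

theorem r5_02_34201 (u : ℂ) (F : St (Fin 5) → ℂ) : Rt 0 2 u F s5_34201 =
    w6 u * F s5_34201 + w2 u * F s5_04321 :=
  Rt_oe (by decide) (by decide) (St.ext' (by decide))

theorem r5_02_41320 (u : ℂ) (F : St (Fin 5) → ℂ) : Rt 0 2 u F s5_41320 =
    w8 u * F s5_31402 + w9 u * F s5_21043 + w4 u * F s5_01243 :=
  Rt_oo (by decide) (by decide) (by decide) (St.ext' (by decide)) (St.ext' (by decide)) (St.ext' (by decide))

theorem r5_02_43210 (u : ℂ) (F : St (Fin 5) → ℂ) : Rt 0 2 u F s5_43210 =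
    w6 u * F s5_43210 + w2 u * F s5_03412 :=
  Rt_oe (by decide) (by decide) (St.ext' (by decide))

theorem r5_12_01243 (u : ℂ) (F : St (Fin 5) → ℂ) : Rt 1 2 u F s5_01243 =
    kk u * F s5_01243 + w4 u * F s5_02143 :=
  Rt_ee (by decide) (by decide) (St.ext' (by decide))

theorem r5_12_02143 (u : ℂ) (F : St (Fin 5) → ℂ) : Rt 1 2 u F s5_02143 =
    w8 u * F s5_02143 :=
  Rt_jj (by decide) (by decide) (by decide)

theorem r5_12_03412 (u : ℂ) (F : St (Fin 5) → ℂ) : Rt 1 2 u F s5_03412 =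
    w8 u * F s5_04321 + w9 u * F s5_02143 + w4 u * F s5_01243 :=
  Rt_oo (by decide) (by decide) (by decide) (St.ext' (by decide)) (St.ext' (by decide)) (St.ext' (by decide))

theorem r5_12_04321 (u : ℂ) (F : St (Fin 5) → ℂ) : Rt 1 2 u F s5_04321 =
    w8 u * F s5_03412 + w9 u * F s5_02143 + w4 u * F s5_01243 :=
  Rt_oo (by decide) (by decide) (by decide) (St.ext' (by decide)) (St.ext' (by decide)) (St.ext' (by decide))

theorem r5_12_10243 (u : ℂ) (F : St (Fin 5) → ℂ) : Rt 1 2 u F s5_10243 =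
    w6 u * F s5_10243 + w2 u * F s5_21043 :=
  Rt_oe (by decide) (by decide) (St.ext' (by decide))

theorem r5_12_21043 (u : ℂ) (F : St (Fin 5) → ℂ) : Rt 1 2 u F s5_21043 =
    w6 u * F s5_21043 + w2 u * F s5_10243 :=
  Rt_eo (by decide) (by decide) (St.ext' (by decide))

theorem r5_12_31402 (u : ℂ) (F : St (Fin 5) → ℂ) : Rt 1 2 u F s5_31402 =
    w6 u * F s5_31402 + w2 u * F s5_34201 :=
  Rt_eo (by decide) (by decide) (St.ext' (by decide))

theorem r5_12_34201 (u : ℂ) (F : St (Fin 5) → ℂ) : Rt 1 2 u F s5_34201 =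
    w6 u * F s5_34201 + w2 u * F s5_31402 :=
  Rt_oe (by decide) (by decide) (St.ext' (by decide))

theorem r5_12_41320 (u : ℂ) (F : St (Fin 5) → ℂ) : Rt 1 2 u F s5_41320 =
    w6 u * F s5_41320 + w2 u * F s5_43210 :=
  Rt_eo (by decide) (by decide) (St.ext' (by decide))

theorem r5_12_43210 (u : ℂ) (F : St (Fin 5) → ℂ) : Rt 1 2 u F s5_43210 =
    w6 u * F s5_43210 + w2 u * F s5_41320 :=
  Rt_oe (by decide) (by decide) (St.ext' (by decide))

theorem r6_01_013254 (u : ℂ) (F : St (Fin 6) → ℂ) : Rt 0 1 u F s6_013254 =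
    kk u * F s6_013254 + w4 u * F s6_103254 :=
  Rt_ee (by decide) (by decide) (St.ext' (by decide))

theorem r6_01_014523 (u : ℂ) (F : St (Fin 6) → ℂ) : Rt 0 1 u F s6_014523 =
    kk u * F s6_014523 + w4 u * F s6_104523 :=
  Rt_ee (by decide) (by decide) (St.ext' (by decide))

theorem r6_01_015432 (u : ℂ) (F : St (Fin 6) → ℂ) : Rt 0 1 u F s6_015432 =
    kk u * F s6_015432 + w4 u * F s6_105432 :=
  Rt_ee (by decide) (by decide) (St.ext' (by decide))

theorem r6_01_032154 (u : ℂ) (F : St (Fin 6) → ℂ) : Rt 0 1 u F s6_032154 =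
    w6 u * F s6_032154 + w2 u * F s6_312054 :=
  Rt_eo (by decide) (by decide) (St.ext' (by decide))

theorem r6_01_042513 (u : ℂ) (F : St (Fin 6) → ℂ) : Rt 0 1 u F s6_042513 =
    w6 u * F s6_042513 + w2 u * F s6_412503 :=
  Rt_eo (by decide) (by decide) (St.ext' (by decide))

theorem r6_01_052431 (u : ℂ) (F : St (Fin 6) → ℂ) : Rt 0 1 u F s6_052431 =
    w6 u * F s6_052431 + w2 u * F s6_512430 :=
  Rt_eo (by decide) (by decide) (St.ext' (by decide))

theorem r6_01_103254 (u : ℂ) (F : St (Fin 6) → ℂ) : Rt 0 1 u F s6_103254 =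
    w8 u * F s6_103254 :=
  Rt_jj (by decide) (by decide) (by decide)

theorem r6_01_104523 (u : ℂ) (F : St (Fin 6) → ℂ) : Rt 0 1 u F s6_104523 =
    w8 u * F s6_104523 :=
  Rt_jj (by decide) (by decide) (by decide)

theorem r6_01_105432 (u : ℂ) (F : St (Fin 6) → ℂ) : Rt 0 1 u F s6_105432 =
    w8 u * F s6_105432 :=
  Rt_jj (by decide) (by decide) (by decide)

theorem r6_01_230154 (u : ℂ) (F : St (Fin 6) → ℂ) : Rt 0 1 u F s6_230154 =
    w8 u * F s6_321054 + w9 u * F s6_103254 + w4 u * F s6_013254 :=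
  Rt_oo (by decide) (by decide) (by decide) (St.ext' (by decide)) (St.ext' (by decide)) (St.ext' (by decide))

theorem r6_01_240513 (u : ℂ) (F : St (Fin 6) → ℂ) : Rt 0 1 u F s6_240513 =
    w8 u * F s6_421503 + w9 u * F s6_104523 + w4 u * F s6_014523 :=
  Rt_oo (by decide) (by decide) (by decide) (St.ext' (by decide)) (St.ext' (by decide)) (St.ext' (by decide))

theorem r6_01_250431 (u : ℂ) (F : St (Fin 6) → ℂ) : Rt 0 1 u F s6_250431 =
    w8 u * F s6_521430 + w9 u * F s6_105432 + w4 u * F s6_015432 :=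
  Rt_oo (by decide) (by decide) (by decide) (St.ext' (by decide)) (St.ext' (by decide)) (St.ext' (by decide))

theorem r6_01_312054 (u : ℂ) (F : St (Fin 6) → ℂ) : Rt 0 1 u F s6_312054 =
    w6 u * F s6_312054 + w2 u * F s6_032154 :=
  Rt_oe (by decide) (by decide) (St.ext' (by decide))

theorem r6_01_345012 (u : ℂ) (F : St (Fin 6) → ℂ) : Rt 0 1 u F s6_345012 =
    w8 u * F s6_435102 + w9 u * F s6_105432 + w4 u * F s6_015432 :=
  Rt_oo (by decide) (by decide) (by decide) (St.ext' (by decide)) (St.ext' (by decide)) (St.ext' (by decide))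

theorem r6_01_354021 (u : ℂ) (F : St (Fin 6) → ℂ) : Rt 0 1 u F s6_354021 =
    w8 u * F s6_534120 + w9 u * F s6_104523 + w4 u * F s6_014523 :=
  Rt_oo (by decide) (by decide) (by decide) (St.ext' (by decide)) (St.ext' (by decide)) (St.ext' (by decide))

theorem r6_01_412503 (u : ℂ) (F : St (Fin 6) → ℂ) : Rt 0 1 u F s6_412503 =
    w6 u * F s6_412503 + w2 u * F s6_042513 :=
  Rt_oe (by decide) (by decide) (St.ext' (by decide))

theorem r6_01_435102 (u : ℂ) (F : St (Fin 6) → ℂ) : Rt 0 1 u F s6_435102 =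
    w8 u * F s6_345012 + w9 u * F s6_105432 + w4 u * F s6_015432 :=
  Rt_oo (by decide) (by decide) (by decide) (St.ext' (by decide)) (St.ext' (by decide)) (St.ext' (by decide))

theorem r6_01_453201 (u : ℂ) (F : St (Fin 6) → ℂ) : Rt 0 1 u F s6_453201 =
    w8 u * F s6_543210 + w9 u * F s6_103254 + w4 u * F s6_013254 :=
  Rt_oo (by decide) (by decide) (by decide) (St.ext' (by decide)) (St.ext' (by decide)) (St.ext' (by decide))

theorem r6_01_512430 (u : ℂ) (F : St (Fin 6) → ℂ) : Rt 0 1 u F s6_512430 =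
    w6 u * F s6_512430 + w2 u * F s6_052431 :=
  Rt_oe (by decide) (by decide) (St.ext' (by decide))

theorem r6_01_534120 (u : ℂ) (F : St (Fin 6) → ℂ) : Rt 0 1 u F s6_534120 =
    w8 u * F s6_354021 + w9 u * F s6_104523 + w4 u * F s6_014523 :=
  Rt_oo (by decide) (by decide) (by decide) (St.ext' (by decide)) (St.ext' (by decide)) (St.ext' (by decide))

theorem r6_01_543210 (u : ℂ) (F : St (Fin 6) → ℂ) : Rt 0 1 u F s6_543210 =
    w8 u * F s6_453201 + w9 u * F s6_103254 + w4 u * F s6_013254 :=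
  Rt_oo (by decide) (by decide) (by decide) (St.ext' (by decide)) (St.ext' (by decide)) (St.ext' (by decide))

theorem r6_02_013254 (u : ℂ) (F : St (Fin 6) → ℂ) : Rt 0 2 u F s6_013254 =
    w6 u * F s6_013254 + w2 u * F s6_312054 :=
  Rt_eo (by decide) (by decide) (St.ext' (by decide))

theorem r6_02_014523 (u : ℂ) (F : St (Fin 6) → ℂ) : Rt 0 2 u F s6_014523 =
    w6 u * F s6_014523 + w2 u * F s6_412503 :=
  Rt_eo (by decide) (by decide) (St.ext' (by decide))

theorem r6_02_015432 (u : ℂ) (F : St (Fin 6) → ℂ) : Rt 0 2 u F s6_015432 =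
    w6 u * F s6_015432 + w2 u * F s6_512430 :=
  Rt_eo (by decide) (by decide) (St.ext' (by decide))

theorem r6_02_103254 (u : ℂ) (F : St (Fin 6) → ℂ) : Rt 0 2 u F s6_103254 =
    w8 u * F s6_321054 + w9 u * F s6_230154 + w4 u * F s6_032154 :=
  Rt_oo (by decide) (by decide) (by decide) (St.ext' (by decide)) (St.ext' (by decide)) (St.ext' (by decide))

theorem r6_02_104523 (u : ℂ) (F : St (Fin 6) → ℂ) : Rt 0 2 u F s6_104523 =
    w8 u * F s6_421503 + w9 u * F s6_240513 + w4 u * F s6_042513 :=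
  Rt_oo (by decide) (by decide) (by decide) (St.ext' (by decide)) (St.ext' (by decide)) (St.ext' (by decide))

theorem r6_02_105432 (u : ℂ) (F : St (Fin 6) → ℂ) : Rt 0 2 u F s6_105432 =
    w8 u * F s6_521430 + w9 u * F s6_250431 + w4 u * F s6_052431 :=
  Rt_oo (by decide) (by decide) (by decide) (St.ext' (by decide)) (St.ext' (by decide)) (St.ext' (by decide))

theorem r6_02_312054 (u : ℂ) (F : St (Fin 6) → ℂ) : Rt 0 2 u F s6_312054 =
    w6 u * F s6_312054 + w2 u * F s6_013254 :=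
  Rt_oe (by decide) (by decide) (St.ext' (by decide))

theorem r6_02_321054 (u : ℂ) (F : St (Fin 6) → ℂ) : Rt 0 2 u F s6_321054 =
    w8 u * F s6_103254 + w9 u * F s6_230154 + w4 u * F s6_032154 :=
  Rt_oo (by decide) (by decide) (by decide) (St.ext' (by decide)) (St.ext' (by decide)) (St.ext' (by decide))

theorem r6_02_345012 (u : ℂ) (F : St (Fin 6) → ℂ) : Rt 0 2 u F s6_345012 =
    w8 u * F s6_543210 + w9 u * F s6_240513 + w4 u * F s6_042513 :=
  Rt_oo (by decide) (by decide) (by decide) (St.ext' (by decide)) (St.ext' (by decide)) (St.ext' (by decide))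

theorem r6_02_354021 (u : ℂ) (F : St (Fin 6) → ℂ) : Rt 0 2 u F s6_354021 =
    w8 u * F s6_453201 + w9 u * F s6_250431 + w4 u * F s6_052431 :=
  Rt_oo (by decide) (by decide) (by decide) (St.ext' (by decide)) (St.ext' (by decide)) (St.ext' (by decide))

theorem r6_02_412503 (u : ℂ) (F : St (Fin 6) → ℂ) : Rt 0 2 u F s6_412503 =
    w6 u * F s6_412503 + w2 u * F s6_014523 :=
  Rt_oe (by decide) (by decide) (St.ext' (by decide))

theorem r6_02_421503 (u : ℂ) (F : St (Fin 6) → ℂ) : Rt 0 2 u F s6_421503 =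
    w8 u * F s6_104523 + w9 u * F s6_240513 + w4 u * F s6_042513 :=
  Rt_oo (by decide) (by decide) (by decide) (St.ext' (by decide)) (St.ext' (by decide)) (St.ext' (by decide))

theorem r6_02_435102 (u : ℂ) (F : St (Fin 6) → ℂ) : Rt 0 2 u F s6_435102 =
    w8 u * F s6_534120 + w9 u * F s6_230154 + w4 u * F s6_032154 :=
  Rt_oo (by decide) (by decide) (by decide) (St.ext' (by decide)) (St.ext' (by decide)) (St.ext' (by decide))

theorem r6_02_453201 (u : ℂ) (F : St (Fin 6) → ℂ) : Rt 0 2 u F s6_453201 =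
    w8 u * F s6_354021 + w9 u * F s6_250431 + w4 u * F s6_052431 :=
  Rt_oo (by decide) (by decide) (by decide) (St.ext' (by decide)) (St.ext' (by decide)) (St.ext' (by decide))

theorem r6_02_512430 (u : ℂ) (F : St (Fin 6) → ℂ) : Rt 0 2 u F s6_512430 =
    w6 u * F s6_512430 + w2 u * F s6_015432 :=
  Rt_oe (by decide) (by decide) (St.ext' (by decide))

theorem r6_02_521430 (u : ℂ) (F : St (Fin 6) → ℂ) : Rt 0 2 u F s6_521430 =
    w8 u * F s6_105432 + w9 u * F s6_250431 + w4 u * F s6_052431 :=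
  Rt_oo (by decide) (by decide) (by decide) (St.ext' (by decide)) (St.ext' (by decide)) (St.ext' (by decide))

theorem r6_02_534120 (u : ℂ) (F : St (Fin 6) → ℂ) : Rt 0 2 u F s6_534120 =
    w8 u * F s6_435102 + w9 u * F s6_230154 + w4 u * F s6_032154 :=
  Rt_oo (by decide) (by decide) (by decide) (St.ext' (by decide)) (St.ext' (by decide)) (St.ext' (by decide))

theorem r6_02_543210 (u : ℂ) (F : St (Fin 6) → ℂ) : Rt 0 2 u F s6_543210 =
    w8 u * F s6_345012 + w9 u * F s6_240513 + w4 u * F s6_042513 :=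
  Rt_oo (by decide) (by decide) (by decide) (St.ext' (by decide)) (St.ext' (by decide)) (St.ext' (by decide))

theorem r6_12_013254 (u : ℂ) (F : St (Fin 6) → ℂ) : Rt 1 2 u F s6_013254 =
    w6 u * F s6_013254 + w2 u * F s6_032154 :=
  Rt_eo (by decide) (by decide) (St.ext' (by decide))

theorem r6_12_014523 (u : ℂ) (F : St (Fin 6) → ℂ) : Rt 1 2 u F s6_014523 =
    w6 u * F s6_014523 + w2 u * F s6_042513 :=
  Rt_eo (by decide) (by decide) (St.ext' (by decide))

theorem r6_12_015432 (u : ℂ) (F : St (Fin 6) → ℂ) : Rt 1 2 u F s6_015432 =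
    w6 u * F s6_015432 + w2 u * F s6_052431 :=
  Rt_eo (by decide) (by decide) (St.ext' (by decide))

theorem r6_12_032154 (u : ℂ) (F : St (Fin 6) → ℂ) : Rt 1 2 u F s6_032154 =
    w6 u * F s6_032154 + w2 u * F s6_013254 :=
  Rt_oe (by decide) (by decide) (St.ext' (by decide))

theorem r6_12_042513 (u : ℂ) (F : St (Fin 6) → ℂ) : Rt 1 2 u F s6_042513 =
    w6 u * F s6_042513 + w2 u * F s6_014523 :=
  Rt_oe (by decide) (by decide) (St.ext' (by decide))

theorem r6_12_052431 (u : ℂ) (F : St (Fin 6) → ℂ) : Rt 1 2 u F s6_052431 =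
    w6 u * F s6_052431 + w2 u * F s6_015432 :=
  Rt_oe (by decide) (by decide) (St.ext' (by decide))

theorem r6_12_230154 (u : ℂ) (F : St (Fin 6) → ℂ) : Rt 1 2 u F s6_230154 =
    w8 u * F s6_103254 + w9 u * F s6_321054 + w4 u * F s6_312054 :=
  Rt_oo (by decide) (by decide) (by decide) (St.ext' (by decide)) (St.ext' (by decide)) (St.ext' (by decide))

theorem r6_12_240513 (u : ℂ) (F : St (Fin 6) → ℂ) : Rt 1 2 u F s6_240513 =
    w8 u * F s6_104523 + w9 u * F s6_421503 + w4 u * F s6_412503 :=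
  Rt_oo (by decide) (by decide) (by decide) (St.ext' (by decide)) (St.ext' (by decide)) (St.ext' (by decide))

theorem r6_12_250431 (u : ℂ) (F : St (Fin 6) → ℂ) : Rt 1 2 u F s6_250431 =
    w8 u * F s6_105432 + w9 u * F s6_521430 + w4 u * F s6_512430 :=
  Rt_oo (by decide) (by decide) (by decide) (St.ext' (by decide)) (St.ext' (by decide)) (St.ext' (by decide))

theorem r6_12_312054 (u : ℂ) (F : St (Fin 6) → ℂ) : Rt 1 2 u F s6_312054 =
    kk u * F s6_312054 + w4 u * F s6_321054 :=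
  Rt_ee (by decide) (by decide) (St.ext' (by decide))

theorem r6_12_321054 (u : ℂ) (F : St (Fin 6) → ℂ) : Rt 1 2 u F s6_321054 =
    w8 u * F s6_321054 :=
  Rt_jj (by decide) (by decide) (by decide)

theorem r6_12_345012 (u : ℂ) (F : St (Fin 6) → ℂ) : Rt 1 2 u F s6_345012 =
    w8 u * F s6_354021 + w9 u * F s6_321054 + w4 u * F s6_312054 :=
  Rt_oo (by decide) (by decide) (by decide) (St.ext' (by decide)) (St.ext' (by decide)) (St.ext' (by decide))

theorem r6_12_354021 (u : ℂ) (F : St (Fin 6) → ℂ) : Rt 1 2 u F s6_354021 =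
    w8 u * F s6_345012 + w9 u * F s6_321054 + w4 u * F s6_312054 :=
  Rt_oo (by decide) (by decide) (by decide) (St.ext' (by decide)) (St.ext' (by decide)) (St.ext' (by decide))

theorem r6_12_412503 (u : ℂ) (F : St (Fin 6) → ℂ) : Rt 1 2 u F s6_412503 =
    kk u * F s6_412503 + w4 u * F s6_421503 :=
  Rt_ee (by decide) (by decide) (St.ext' (by decide))

theorem r6_12_421503 (u : ℂ) (F : St (Fin 6) → ℂ) : Rt 1 2 u F s6_421503 =
    w8 u * F s6_421503 :=
  Rt_jj (by decide) (by decide) (by decide)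

theorem r6_12_435102 (u : ℂ) (F : St (Fin 6) → ℂ) : Rt 1 2 u F s6_435102 =
    w8 u * F s6_453201 + w9 u * F s6_421503 + w4 u * F s6_412503 :=
  Rt_oo (by decide) (by decide) (by decide) (St.ext' (by decide)) (St.ext' (by decide)) (St.ext' (by decide))

theorem r6_12_453201 (u : ℂ) (F : St (Fin 6) → ℂ) : Rt 1 2 u F s6_453201 =
    w8 u * F s6_435102 + w9 u * F s6_421503 + w4 u * F s6_412503 :=
  Rt_oo (by decide) (by decide) (by decide) (St.ext' (by decide)) (St.ext' (by decide)) (St.ext' (by decide))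

theorem r6_12_512430 (u : ℂ) (F : St (Fin 6) → ℂ) : Rt 1 2 u F s6_512430 =
    kk u * F s6_512430 + w4 u * F s6_521430 :=
  Rt_ee (by decide) (by decide) (St.ext' (by decide))

theorem r6_12_521430 (u : ℂ) (F : St (Fin 6) → ℂ) : Rt 1 2 u F s6_521430 =
    w8 u * F s6_521430 :=
  Rt_jj (by decide) (by decide) (by decide)

theorem r6_12_534120 (u : ℂ) (F : St (Fin 6) → ℂ) : Rt 1 2 u F s6_534120 =
    w8 u * F s6_543210 + w9 u * F s6_521430 + w4 u * F s6_512430 :=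
  Rt_oo (by decide) (by decide) (by decide) (St.ext' (by decide)) (St.ext' (by decide)) (St.ext' (by decide))

theorem r6_12_543210 (u : ℂ) (F : St (Fin 6) → ℂ) : Rt 1 2 u F s6_543210 =
    w8 u * F s6_534120 + w9 u * F s6_521430 + w4 u * F s6_512430 :=
  Rt_oo (by decide) (by decide) (by decide) (St.ext' (by decide)) (St.ext' (by decide)) (St.ext' (by decide))

/-! ### the types -/

theorem t3_012 (x y : ℂ) (F : St (Fin 3) → ℂ) :
    Rt 0 1 x (Rt 0 2 (x + y) (Rt 1 2 y F)) s3_012 =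
      Rt 1 2 y (Rt 0 2 (x + y) (Rt 0 1 x F)) s3_012 := by
  simp only [r3_01_012, r3_01_021, r3_01_102, r3_01_210, r3_02_012, r3_02_021, r3_02_102, r3_12_012, r3_12_021, r3_12_102, r3_12_210]
  linear_combination F s3_021 * yb1 x y + F s3_102 * yb2 x y + F s3_210 * yb3 x y

theorem t3_102 (x y : ℂ) (F : St (Fin 3) → ℂ) :
    Rt 0 1 x (Rt 0 2 (x + y) (Rt 1 2 y F)) s3_102 =
      Rt 1 2 y (Rt 0 2 (x + y) (Rt 0 1 x F)) s3_102 := by
  simp only [r3_01_021, r3_01_102, r3_01_210, r3_02_102, r3_02_210, r3_12_021, r3_12_102]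
  linear_combination F s3_021 * yb4 x y + F s3_210 * yb5 x y

theorem t3_210 (x y : ℂ) (F : St (Fin 3) → ℂ) :
    Rt 0 1 x (Rt 0 2 (x + y) (Rt 1 2 y F)) s3_210 =
      Rt 1 2 y (Rt 0 2 (x + y) (Rt 0 1 x F)) s3_210 := by
  simp only [r3_01_021, r3_01_102, r3_01_210, r3_02_021, r3_02_102, r3_02_210, r3_12_021, r3_12_102, r3_12_210]
  linear_combination F s3_021 * yb6 x y - F s3_102 * yb5 x y

theorem t3_021 (x y : ℂ) (F : St (Fin 3) → ℂ) :
    Rt 0 1 x (Rt 0 2 (x + y) (Rt 1 2 y F)) s3_021 =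
      Rt 1 2 y (Rt 0 2 (x + y) (Rt 0 1 x F)) s3_021 := by
  simp only [r3_01_021, r3_01_102, r3_02_021, r3_02_210, r3_12_021, r3_12_102, r3_12_210]
  linear_combination - F s3_102 * yb4 x y - F s3_210 * yb6 x y

theorem t4_3120 (x y : ℂ) (F : St (Fin 4) → ℂ) :
    Rt 0 1 x (Rt 0 2 (x + y) (Rt 1 2 y F)) s4_3120 =
      Rt 1 2 y (Rt 0 2 (x + y) (Rt 0 1 x F)) s4_3120 := by
  simp only [r4_01_0132, r4_01_0321, r4_01_1032, r4_01_2301, r4_01_3120, r4_02_0321, r4_02_3120, r4_02_3210, r4_12_0132, r4_12_0321, r4_12_2301, r4_12_3120]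
  linear_combination F s4_0132 * yb7 x y + F s4_0321 * yb8 x y + F s4_1032 * yb9 x y + F s4_3210 * yb10 x y

theorem t4_3210 (x y : ℂ) (F : St (Fin 4) → ℂ) :
    Rt 0 1 x (Rt 0 2 (x + y) (Rt 1 2 y F)) s4_3210 =
      Rt 1 2 y (Rt 0 2 (x + y) (Rt 0 1 x F)) s4_3210 := by
  simp only [r4_01_0321, r4_01_1032, r4_01_2301, r4_01_3210, r4_02_0132, r4_02_1032, r4_02_2301, r4_02_3210, r4_12_0132, r4_12_0321, r4_12_2301, r4_12_3120, r4_12_3210]
  linear_combination F s4_0132 * yb11 x y + F s4_0321 * yb12 x y - F s4_3120 * yb9 x y + F s4_3210 * yb13 x y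

theorem t4_0321 (x y : ℂ) (F : St (Fin 4) → ℂ) :
    Rt 0 1 x (Rt 0 2 (x + y) (Rt 1 2 y F)) s4_0321 =
      Rt 1 2 y (Rt 0 2 (x + y) (Rt 0 1 x F)) s4_0321 := by
  simp only [r4_01_0132, r4_01_0321, r4_01_2301, r4_01_3120, r4_02_0132, r4_02_0321, r4_02_3120, r4_12_0132, r4_12_0321, r4_12_2301, r4_12_3120]
  linear_combination F s4_0132 * yb14 x y - F s4_1032 * yb12 x y - F s4_3120 * yb8 x y + F s4_3210 * yb15 x y

theorem t4_2301 (x y : ℂ) (F : St (Fin 4) → ℂ) :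
    Rt 0 1 x (Rt 0 2 (x + y) (Rt 1 2 y F)) s4_2301 =
      Rt 1 2 y (Rt 0 2 (x + y) (Rt 0 1 x F)) s4_2301 := by
  simp only [r4_01_0132, r4_01_0321, r4_01_1032, r4_01_2301, r4_01_3120, r4_01_3210, r4_02_0132, r4_02_1032, r4_02_3120, r4_02_3210, r4_12_0132, r4_12_0321, r4_12_1032, r4_12_2301, r4_12_3120, r4_12_3210]
  linear_combination F s4_0132 * yb16 x y + F s4_0321 * yb17 x y + F s4_1032 * yb18 x y + F s4_3120 * yb19 x y + F s4_3210 * yb20 x y

theorem t4_0132 (x y : ℂ) (F : St (Fin 4) → ℂ) :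
    Rt 0 1 x (Rt 0 2 (x + y) (Rt 1 2 y F)) s4_0132 =
      Rt 1 2 y (Rt 0 2 (x + y) (Rt 0 1 x F)) s4_0132 := by
  simp only [r4_01_0132, r4_01_0321, r4_01_2301, r4_01_3120, r4_02_0132, r4_02_0321, r4_02_1032, r4_12_0132, r4_12_0321, r4_12_2301, r4_12_3120, r4_12_3210]
  linear_combination - F s4_0321 * yb14 x y - F s4_1032 * yb11 x y - F s4_3120 * yb7 x y + F s4_3210 * yb21 x y

theorem t4_1032 (x y : ℂ) (F : St (Fin 4) → ℂ) :
    Rt 0 1 x (Rt 0 2 (x + y) (Rt 1 2 y F)) s4_1032 =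
      Rt 1 2 y (Rt 0 2 (x + y) (Rt 0 1 x F)) s4_1032 := by
  simp only [r4_01_0132, r4_01_0321, r4_01_1032, r4_01_2301, r4_01_3120, r4_02_1032, r4_02_2301, r4_02_3120, r4_02_3210, r4_12_0321, r4_12_1032, r4_12_2301, r4_12_3210]
  linear_combination - F s4_0132 * yb21 x y - F s4_0321 * yb15 x y - F s4_1032 * yb13 x y - F s4_3120 * yb10 x y

theorem t5_34201 (x y : ℂ) (F : St (Fin 5) → ℂ) :
    Rt 0 1 x (Rt 0 2 (x + y) (Rt 1 2 y F)) s5_34201 =
      Rt 1 2 y (Rt 0 2 (x + y) (Rt 0 1 x F)) s5_34201 := by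
  simp only [r5_01_01243, r5_01_04321, r5_01_21043, r5_01_34201, r5_01_41320, r5_02_01243, r5_02_10243, r5_02_31402, r5_02_34201, r5_02_43210, r5_12_01243, r5_12_02143, r5_12_03412, r5_12_10243, r5_12_21043, r5_12_34201, r5_12_43210]
  linear_combination - F s5_01243 * yb2 x y + F s5_02143 * yb22 x y + F s5_04321 * yb4 x y + F s5_21043 * yb23 x y + F s5_41320 * yb5 x y

theorem t5_31402 (x y : ℂ) (F : St (Fin 5) → ℂ) :
    Rt 0 1 x (Rt 0 2 (x + y) (Rt 1 2 y F)) s5_31402 =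
      Rt 1 2 y (Rt 0 2 (x + y) (Rt 0 1 x F)) s5_31402 := by
  simp only [r5_01_01243, r5_01_04321, r5_01_21043, r5_01_31402, r5_01_34201, r5_01_41320, r5_02_03412, r5_02_31402, r5_02_34201, r5_12_01243, r5_12_03412, r5_12_21043, r5_12_31402, r5_12_41320, r5_12_43210]
  linear_combination - F s5_01243 * yb3 x y + F s5_02143 * yb24 x y + F s5_04321 * yb6 x y - F s5_10243 * yb23 x y - F s5_43210 * yb5 x y

theorem t5_43210 (x y : ℂ) (F : St (Fin 5) → ℂ) :
    Rt 0 1 x (Rt 0 2 (x + y) (Rt 1 2 y F)) s5_43210 =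
      Rt 1 2 y (Rt 0 2 (x + y) (Rt 0 1 x F)) s5_43210 := by
  simp only [r5_01_01243, r5_01_03412, r5_01_21043, r5_01_31402, r5_01_43210, r5_02_01243, r5_02_10243, r5_02_34201, r5_02_41320, r5_02_43210, r5_12_01243, r5_12_02143, r5_12_04321, r5_12_10243, r5_12_21043, r5_12_34201, r5_12_43210]
  linear_combination - F s5_01243 * yb2 x y + F s5_02143 * yb22 x y + F s5_03412 * yb4 x y + F s5_21043 * yb23 x y + F s5_31402 * yb5 x y

theorem t5_03412 (x y : ℂ) (F : St (Fin 5) → ℂ) :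
    Rt 0 1 x (Rt 0 2 (x + y) (Rt 1 2 y F)) s5_03412 =
      Rt 1 2 y (Rt 0 2 (x + y) (Rt 0 1 x F)) s5_03412 := by
  simp only [r5_01_01243, r5_01_02143, r5_01_03412, r5_01_04321, r5_01_10243, r5_01_21043, r5_01_34201, r5_02_01243, r5_02_02143, r5_02_03412, r5_02_04321, r5_02_31402, r5_12_01243, r5_12_03412, r5_12_21043, r5_12_41320, r5_12_43210]
  linear_combination - F s5_01243 * yb1 x y - F s5_10243 * yb22 x y - F s5_21043 * yb24 x y - F s5_41320 * yb6 x y - F s5_43210 * yb4 x y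

theorem t5_41320 (x y : ℂ) (F : St (Fin 5) → ℂ) :
    Rt 0 1 x (Rt 0 2 (x + y) (Rt 1 2 y F)) s5_41320 =
      Rt 1 2 y (Rt 0 2 (x + y) (Rt 0 1 x F)) s5_41320 := by
  simp only [r5_01_01243, r5_01_03412, r5_01_21043, r5_01_31402, r5_01_41320, r5_01_43210, r5_02_04321, r5_02_41320, r5_02_43210, r5_12_01243, r5_12_04321, r5_12_21043, r5_12_31402, r5_12_34201, r5_12_41320]
  linear_combination - F s5_01243 * yb3 x y + F s5_02143 * yb24 x y + F s5_03412 * yb6 x y - F s5_10243 * yb23 x y - F s5_34201 * yb5 x y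

theorem t5_04321 (x y : ℂ) (F : St (Fin 5) → ℂ) :
    Rt 0 1 x (Rt 0 2 (x + y) (Rt 1 2 y F)) s5_04321 =
      Rt 1 2 y (Rt 0 2 (x + y) (Rt 0 1 x F)) s5_04321 := by
  simp only [r5_01_01243, r5_01_02143, r5_01_03412, r5_01_04321, r5_01_10243, r5_01_21043, r5_01_43210, r5_02_01243, r5_02_02143, r5_02_03412, r5_02_04321, r5_02_41320, r5_12_01243, r5_12_04321, r5_12_21043, r5_12_31402, r5_12_34201]
  linear_combination - F s5_01243 * yb1 x y - F s5_10243 * yb22 x y - F s5_21043 * yb24 x y - F s5_31402 * yb6 x y - F s5_34201 * yb4 x y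

theorem t6_345012 (x y : ℂ) (F : St (Fin 6) → ℂ) :
    Rt 0 1 x (Rt 0 2 (x + y) (Rt 1 2 y F)) s6_345012 =
      Rt 1 2 y (Rt 0 2 (x + y) (Rt 0 1 x F)) s6_345012 := by
  simp only [r6_01_013254, r6_01_032154, r6_01_052431, r6_01_103254, r6_01_230154, r6_01_250431, r6_01_312054, r6_01_345012, r6_01_453201, r6_02_015432, r6_02_105432, r6_02_312054, r6_02_321054, r6_02_354021, r6_02_435102, r6_12_015432, r6_12_032154, r6_12_052431, r6_12_230154, r6_12_250431, r6_12_345012, r6_12_512430, r6_12_521430, r6_12_534120]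
  linear_combination - F s6_013254 * yb21 x y + F s6_015432 * yb11 x y - F s6_032154 * yb15 x y + F s6_052431 * yb12 x y - F s6_103254 * yb13 x y - F s6_312054 * yb10 x y - F s6_512430 * yb9 x y + F s6_521430 * yb13 x y

theorem t6_354021 (x y : ℂ) (F : St (Fin 6) → ℂ) :
    Rt 0 1 x (Rt 0 2 (x + y) (Rt 1 2 y F)) s6_354021 =
      Rt 1 2 y (Rt 0 2 (x + y) (Rt 0 1 x F)) s6_354021 := by
  simp only [r6_01_013254, r6_01_032154, r6_01_042513, r6_01_103254, r6_01_230154, r6_01_240513, r6_01_312054, r6_01_354021, r6_01_543210, r6_02_014523, r6_02_104523, r6_02_312054, r6_02_321054, r6_02_345012, r6_02_534120, r6_12_014523, r6_12_032154, r6_12_042513, r6_12_230154, r6_12_240513, r6_12_354021, r6_12_412503, r6_12_421503, r6_12_435102]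
  linear_combination - F s6_013254 * yb21 x y + F s6_014523 * yb11 x y - F s6_032154 * yb15 x y + F s6_042513 * yb12 x y - F s6_103254 * yb13 x y - F s6_312054 * yb10 x y - F s6_412503 * yb9 x y + F s6_421503 * yb13 x y

theorem t6_435102 (x y : ℂ) (F : St (Fin 6) → ℂ) :
    Rt 0 1 x (Rt 0 2 (x + y) (Rt 1 2 y F)) s6_435102 =
      Rt 1 2 y (Rt 0 2 (x + y) (Rt 0 1 x F)) s6_435102 := by
  simp only [r6_01_014523, r6_01_042513, r6_01_052431, r6_01_104523, r6_01_240513, r6_01_250431, r6_01_354021, r6_01_412503, r6_01_435102, r6_02_015432, r6_02_105432, r6_02_345012, r6_02_412503, r6_02_421503, r6_02_453201, r6_12_015432, r6_12_042513, r6_12_052431, r6_12_240513, r6_12_250431, r6_12_435102, r6_12_512430, r6_12_521430, r6_12_543210]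
  linear_combination - F s6_014523 * yb21 x y + F s6_015432 * yb11 x y - F s6_042513 * yb15 x y + F s6_052431 * yb12 x y - F s6_104523 * yb13 x y - F s6_412503 * yb10 x y - F s6_512430 * yb9 x y + F s6_521430 * yb13 x y

theorem t6_534120 (x y : ℂ) (F : St (Fin 6) → ℂ) :
    Rt 0 1 x (Rt 0 2 (x + y) (Rt 1 2 y F)) s6_534120 =
      Rt 1 2 y (Rt 0 2 (x + y) (Rt 0 1 x F)) s6_534120 := by
  simp only [r6_01_015432, r6_01_042513, r6_01_052431, r6_01_105432, r6_01_240513, r6_01_250431, r6_01_345012, r6_01_512430, r6_01_534120, r6_02_014523, r6_02_104523, r6_02_354021, r6_02_512430, r6_02_521430, r6_02_543210, r6_12_014523, r6_12_042513, r6_12_052431, r6_12_240513, r6_12_250431, r6_12_412503, r6_12_421503, r6_12_453201, r6_12_534120]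
  linear_combination F s6_014523 * yb11 x y - F s6_015432 * yb21 x y + F s6_042513 * yb12 x y - F s6_052431 * yb15 x y - F s6_105432 * yb13 x y - F s6_412503 * yb9 x y + F s6_421503 * yb13 x y - F s6_512430 * yb10 x y

theorem t6_453201 (x y : ℂ) (F : St (Fin 6) → ℂ) :
    Rt 0 1 x (Rt 0 2 (x + y) (Rt 1 2 y F)) s6_453201 =
      Rt 1 2 y (Rt 0 2 (x + y) (Rt 0 1 x F)) s6_453201 := by
  simp only [r6_01_014523, r6_01_032154, r6_01_042513, r6_01_104523, r6_01_230154, r6_01_240513, r6_01_412503, r6_01_453201, r6_01_534120, r6_02_013254, r6_02_103254, r6_02_412503, r6_02_421503, r6_02_435102, r6_02_543210, r6_12_013254, r6_12_032154, r6_12_042513, r6_12_230154, r6_12_240513, r6_12_312054, r6_12_321054, r6_12_345012, r6_12_453201]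
  linear_combination F s6_013254 * yb11 x y - F s6_014523 * yb21 x y + F s6_032154 * yb12 x y - F s6_042513 * yb15 x y - F s6_104523 * yb13 x y - F s6_312054 * yb9 x y + F s6_321054 * yb13 x y - F s6_412503 * yb10 x y

theorem t6_543210 (x y : ℂ) (F : St (Fin 6) → ℂ) :
    Rt 0 1 x (Rt 0 2 (x + y) (Rt 1 2 y F)) s6_543210 =
      Rt 1 2 y (Rt 0 2 (x + y) (Rt 0 1 x F)) s6_543210 := by
  simp only [r6_01_015432, r6_01_032154, r6_01_052431, r6_01_105432, r6_01_230154, r6_01_250431, r6_01_435102, r6_01_512430, r6_01_543210, r6_02_013254, r6_02_103254, r6_02_453201, r6_02_512430, r6_02_521430, r6_02_534120, r6_12_013254, r6_12_032154, r6_12_052431, r6_12_230154, r6_12_250431, r6_12_312054, r6_12_321054, r6_12_354021, r6_12_543210]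
  linear_combination F s6_013254 * yb11 x y - F s6_015432 * yb21 x y + F s6_032154 * yb12 x y - F s6_052431 * yb15 x y - F s6_105432 * yb13 x y - F s6_312054 * yb9 x y + F s6_321054 * yb13 x y - F s6_512430 * yb10 x y

end Pool.Agent.BEX.AY
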