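import Pool.Agent.BEX.ACapRt
import Pool.Agent.BEX.AYb1

/-!
# BEX, part A: crossing symmetry of the R-matrix at a closed auxiliary line
-/

namespace Pool.Agent.BEX

open Complex

section Weights

theorem lam8 : 8 * lam = (Real.pi : ℂ) := by unfold lam; ring

theorem kk_cross (x : ℂ) : kk (3 * lam - x) = kk x := by
  unfold kk
  rw [show 2 * lam + (3 * lam - x) = (Real.pi : ℂ) - (3 * lam + x) by rw [← lam8]; ring,
    show 3 * lam + (3 * lam - x) = (Real.pi : ℂ) - (2 * lam + x) by rw [← lam8]; ring,
    Complex.sin_pi_sub, Complex.sin_pi_sub]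
  ring

theorem w2_cross (x : ℂ) : w2 (3 * lam - x) = w4 x := by
  unfold w2 w4
  rw [show 3 * lam - (3 * lam - x) = x by ring]

theorem w4_cross (x : ℂ) : w4 (3 * lam - x) = w2 x := rfl

theorem w6_cross (x : ℂ) : w6 (3 * lam - x) = w6 x := by
  unfold w6
  rw [show 3 * lam - (3 * lam - x) = x by ring]
  ring

theorem w8_cross (x : ℂ) : w8 (3 * lam - x) = w9 x := by
  unfold w8 w9
  rw [show 2 * lam - (3 * lam - x) = -(lam - x) by ring,
    show 3 * lam - (3 * lam - x) = x by ring, Complex.sin_neg]
  ring

theorem w9_cross (x : ℂ) : w9 (3 * lam - x) = w8 x := by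
  unfold w8 w9
  rw [show lam - (3 * lam - x) = -(2 * lam - x) by ring, Complex.sin_neg]
  ring

end Weights

section Moves

variable {κ : Type*} [DecidableEq κ]

theorem St.sw_ap (m : St κ) (p q x : κ) : m.sw p q x =
    if m (if x = p then q else if x = q then p else x) = p then q
    else if m (if x = p then q else if x = q then p else x) = q then p
    else m (if x = p then q else if x = q then p else x) := by
  rw [m.sw_apply, Equiv.swap_apply_def, Equiv.swap_apply_def]

variable {a p j : κ}

theorem cr1 (hap : a ≠ p) (haj : a ≠ j) (hpj : p ≠ j) (M : St κ) (h1 : M a = a) (h2 : M j = j)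
    (h3 : M p ≠ p) : (M.jn a j).cp a p = M.sw p j := by
  have a1 : M.jn a j a ≠ a := by rw [M.jn_apply _ _ _ h1 h2]; simp [haj.symm]
  have a2 : M.jn a j p ≠ p := by rw [M.jn_apply _ _ _ h1 h2]; simp [hap.symm, hpj, h3]
  ext x
  rw [St.cp_apply _ _ _ _ a1 a2]
  simp only [M.jn_apply a j _ h1 h2, St.sw_ap]
  clear a1 a2
  have i1 := M.inv' p
  have i5 := M.inv' x
  grind (splits := 40)

theorem cr2 (hap : a ≠ p) (haj : a ≠ j) (hpj : p ≠ j) (M : St κ) (h1 : M a = a) (h2 : M j ≠ j)
    (h3 : M p ≠ p) (h4 : M p ≠ j) : (M.sw a j).cp a p = M.cp p j := by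
  have i1 := M.inv' p
  have i2 := M.inv' j
  have a1 : M.sw a j a ≠ a := by rw [M.sw_ap]; grind
  have a2 : M.sw a j p ≠ p := by rw [M.sw_ap]; grind
  ext x
  rw [St.cp_apply _ _ _ _ a1 a2, St.cp_apply _ _ _ _ h3 h2]
  simp only [St.sw_ap]
  clear a1 a2
  have i5 := M.inv' x
  grind (splits := 40)

theorem cp_comm (M : St κ) : M.cp p j = M.cp j p := by
  by_cases h : M p ≠ p ∧ M j ≠ j
  · ext x
    rw [M.cp_apply _ _ _ h.1 h.2, M.cp_apply _ _ _ h.2 h.1]
    have i1 := M.inv' p
    have i2 := M.inv' j
    have i5 := M.inv' x
    obtain ⟨h1, h2⟩ := h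
    grind
  · rw [M.cp_junk _ _ h, M.cp_junk _ _ (fun h' => h ⟨h'.2, h'.1⟩)]

/-- `a ~ j`, `p` occupied. -/
theorem cr3 (hap : a ≠ p) (haj : a ≠ j) (hpj : p ≠ j) (M : St κ) (h1 : M a = j)
    (h3 : M p ≠ p) : ((M.cp p j).jn p j).cp a p = M.cp a p := by
  have i0 := M.inv' a
  have i1 := M.inv' p
  have i2 := M.inv' j
  have h2 : M j ≠ j := by grind
  have h4 : M a ≠ a := by grind
  have b1 : M.cp p j p = p := by rw [M.cp_apply _ _ _ h3 h2]; simp
  have b2 : M.cp p j j = j := by rw [M.cp_apply _ _ _ h3 h2]; grind
  have a1 : (M.cp p j).jn p j a ≠ a := by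
    rw [St.jn_apply _ _ _ _ b1 b2, M.cp_apply _ _ _ h3 h2]; grind
  have a2 : (M.cp p j).jn p j p ≠ p := by
    rw [St.jn_apply _ _ _ _ b1 b2]; grind
  ext x
  rw [St.cp_apply _ _ _ _ a1 a2, M.cp_apply _ _ _ h4 h3]
  simp only [St.jn_apply _ _ _ _ b1 b2, M.cp_apply _ _ _ h3 h2]
  clear a1 a2 b1 b2
  have i5 := M.inv' x
  grind (splits := 40)

/-- `a ~ p`, `j` occupied. -/
theorem cr4 (hap : a ≠ p) (haj : a ≠ j) (hpj : p ≠ j) (M : St κ) (h1 : M a = p)
    (h3 : M j ≠ j) : ((M.cp p j).jn p j).cp a p = (M.sw a j).cp a p ∧
      ((M.cp a j).jn a j).cp a p = (M.sw p j).cp a p ∧ (M.sw p j).cp a p = (M.sw a j).cp a p := by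
  have i0 := M.inv' a
  have i1 := M.inv' p
  have i2 := M.inv' j
  have h2 : M p ≠ p := by grind
  have h4 : M a ≠ a := by grind
  have b1 : M.cp p j p = p := by rw [M.cp_apply _ _ _ h2 h3]; simp
  have b2 : M.cp p j j = j := by rw [M.cp_apply _ _ _ h2 h3]; grind
  have b3 : M.cp a j a = a := by rw [M.cp_apply _ _ _ h4 h3]; simp
  have b4 : M.cp a j j = j := by rw [M.cp_apply _ _ _ h4 h3]; grind
  have a1 : (M.cp p j).jn p j a ≠ a := by
    rw [St.jn_apply _ _ _ _ b1 b2, M.cp_apply _ _ _ h2 h3]; grind
  have a2 : (M.cp p j).jn p j p ≠ p := by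
    rw [St.jn_apply _ _ _ _ b1 b2]; grind
  have a3 : (M.cp a j).jn a j a ≠ a := by
    rw [St.jn_apply _ _ _ _ b3 b4]; grind
  have a4 : (M.cp a j).jn a j p ≠ p := by
    rw [St.jn_apply _ _ _ _ b3 b4, M.cp_apply _ _ _ h4 h3]; grind
  have a5 : M.sw a j a ≠ a := by rw [M.sw_ap]; grind
  have a6 : M.sw a j p ≠ p := by rw [M.sw_ap]; grind
  have a7 : M.sw p j a ≠ a := by rw [M.sw_ap]; grind
  have a8 : M.sw p j p ≠ p := by rw [M.sw_ap]; grind
  refine ⟨?_, ?_, ?_⟩
  · ext x
    rw [St.cp_apply _ _ _ _ a1 a2, St.cp_apply _ _ _ _ a5 a6]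
    simp only [St.jn_apply _ _ _ _ b1 b2, M.cp_apply _ _ _ h2 h3, St.sw_ap]
    clear a1 a2 a3 a4 a5 a6 a7 a8 b1 b2 b3 b4
    have i5 := M.inv' x
    grind (splits := 40)
  · ext x
    rw [St.cp_apply _ _ _ _ a3 a4, St.cp_apply _ _ _ _ a7 a8]
    simp only [St.jn_apply _ _ _ _ b3 b4, M.cp_apply _ _ _ h4 h3, St.sw_ap]
    clear a1 a2 a3 a4 a5 a6 a7 a8 b1 b2 b3 b4
    have i5 := M.inv' x
    grind (splits := 40)
  · ext x
    rw [St.cp_apply _ _ _ _ a7 a8, St.cp_apply _ _ _ _ a5 a6]
    simp only [St.sw_ap]
    clear a1 a2 a3 a4 a5 a6 a7 a8 b1 b2 b3 b4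
    have i5 := M.inv' x
    grind (splits := 40)

/-- the generic case -/
theorem cr5 (hap : a ≠ p) (haj : a ≠ j) (hpj : p ≠ j) (M : St κ) (h1 : M a ≠ a)
    (h2 : M p ≠ p) (h3 : M j ≠ j) (g1 : M a ≠ p) (g2 : M a ≠ j) (g3 : M p ≠ j) :
    ((M.cp p j).jn p j).cp a p = (M.sw a j).cp a p := by
  have i0 := M.inv' a
  have i1 := M.inv' p
  have i2 := M.inv' j
  have b1 : M.cp p j p = p := by rw [M.cp_apply _ _ _ h2 h3]; simp
  have b2 : M.cp p j j = j := by rw [M.cp_apply _ _ _ h2 h3]; grind
  have a1 : (M.cp p j).jn p j a ≠ a := by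
    rw [St.jn_apply _ _ _ _ b1 b2, M.cp_apply _ _ _ h2 h3]; grind
  have a2 : (M.cp p j).jn p j p ≠ p := by
    rw [St.jn_apply _ _ _ _ b1 b2]; grind
  have a5 : M.sw a j a ≠ a := by rw [M.sw_ap]; grind
  have a6 : M.sw a j p ≠ p := by rw [M.sw_ap]; grind
  ext x
  rw [St.cp_apply _ _ _ _ a1 a2, St.cp_apply _ _ _ _ a5 a6]
  simp only [St.jn_apply _ _ _ _ b1 b2, M.cp_apply _ _ _ h2 h3, St.sw_ap]
  clear a1 a2 a5 a6 b1 b2
  have i5 := M.inv' x
  grind (splits := 40)

/-- The crossing symmetry for a function which closes `a` with `p`. -/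
theorem cross_cap (hap : a ≠ p) (haj : a ≠ j) (hpj : p ≠ j) (G : St κ → ℂ)
    (H0 : ∀ M : St κ, (M a = a ∨ M p = p) → ¬ (M a = a ∧ M p = p) → G M = 0)
    (H1 : ∀ M : St κ, M a = p → G M = 0)
    (H2 : ∀ M : St κ, M a ≠ a → M p ≠ p → M a ≠ p → G M = G (M.cp a p)) (x : ℂ) :
    Rt a j x G = Rt p j (3 * lam - x) G := by
  funext M
  have i0 := M.inv' a
  have i1 := M.inv' p
  have i2 := M.inv' j
  by_cases ha : M a = a
  · by_cases hj : M j = j
    · by_cases hp : M p = p
      · have e1 : G (M.jn a j) = 0 := by
          have v1 := M.jn_apply a j a ha hj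
          have v2 := M.jn_apply a j p ha hj
          exact H0 _ (by grind) (by grind)
        have e2 : G (M.jn p j) = 0 := by
          have v1 := M.jn_apply p j a hp hj
          have v2 := M.jn_apply p j p hp hj
          exact H0 _ (by grind) (by grind)
        rw [AY.Rt_ee ha hj rfl, AY.Rt_ee hp hj rfl, kk_cross, e1, e2]
        ring
      · have e0 : G M = 0 := H0 _ (by grind) (by grind)
        have e1 : G (M.jn a j) = G ((M.jn a j).cp a p) := by
          have v1 := M.jn_apply a j a ha hj
          have v2 := M.jn_apply a j p ha hj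
          exact H2 _ (by grind) (by grind) (by grind)
        rw [AY.Rt_ee ha hj rfl, AY.Rt_oe hp hj rfl, w2_cross, e0, e1,
          cr1 hap haj hpj M ha hj hp]
        ring
    · by_cases hp : M p = p
      · have e1 : G (M.sw a j) = 0 := by
          have v1 := M.sw_ap a j a
          have v2 := M.sw_ap a j p
          exact H0 _ (by grind) (by grind)
        have e2 : G (M.sw p j) = 0 := by
          have v1 := M.sw_ap p j a
          have v2 := M.sw_ap p j p
          exact H0 _ (by grind) (by grind)
        rw [AY.Rt_eo ha hj rfl, AY.Rt_eo hp hj rfl, w6_cross, e1, e2]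
        ring
      · have e0 : G M = 0 := H0 _ (by grind) (by grind)
        by_cases hpj' : M p = j
        · have e1 : G (M.sw a j) = 0 := by
            have v1 := M.sw_ap a j a
            exact H1 _ (by grind)
          rw [AY.Rt_eo ha hj rfl, AY.Rt_jj hp hj hpj', e0, e1]
          ring
        · have e1 : G (M.sw a j) = G ((M.sw a j).cp a p) := by
            have v1 := M.sw_ap a j a
            have v2 := M.sw_ap a j p
            exact H2 _ (by grind) (by grind) (by grind)
          have e2 : G (M.sw p j) = 0 := by
            have v1 := M.sw_ap p j a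
            have v2 := M.sw_ap p j p
            exact H0 _ (by grind) (by grind)
          have b1 := M.cp_apply p j p hp hj
          have b2 := M.cp_apply p j j hp hj
          have b3 := M.cp_apply p j a hp hj
          have e3 : G ((M.cp p j).jn p j) = 0 := by
            have v1 := (M.cp p j).jn_apply p j a (by grind) (by grind)
            have v2 := (M.cp p j).jn_apply p j p (by grind) (by grind)
            exact H0 _ (by grind) (by grind)
          rw [AY.Rt_eo ha hj rfl, AY.Rt_oo hp hj hpj' rfl rfl rfl, w4_cross, e0, e1, e2, e3,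
            cr2 hap haj hpj M ha hj hp hpj']
          ring
  · by_cases hj : M j = j
    · by_cases hp : M p = p
      · have e0 : G M = 0 := H0 _ (by grind) (by grind)
        have e1 : G (M.jn p j) = G ((M.jn p j).cp p a) := by
          have v1 := M.jn_apply p j a hp hj
          have v2 := M.jn_apply p j p hp hj
          rw [cp_comm (M.jn p j)]
          exact H2 _ (by grind) (by grind) (by grind)
        rw [AY.Rt_oe ha hj rfl, AY.Rt_ee hp hj rfl, w4_cross, e0, e1,
          cr1 hap.symm hpj haj M hp hj ha]
        ring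
      · by_cases hap' : M a = p
        · have e0 : G M = 0 := H1 _ hap'
          have e1 : G (M.sw a j) = 0 := by
            have v1 := M.sw_ap a j a
            have v2 := M.sw_ap a j p
            exact H0 _ (by grind) (by grind)
          have e2 : G (M.sw p j) = 0 := by
            have v1 := M.sw_ap p j a
            have v2 := M.sw_ap p j p
            exact H0 _ (by grind) (by grind)
          rw [AY.Rt_oe ha hj rfl, AY.Rt_oe hp hj rfl, e0, e1, e2]
          ring
        · have e1 : G (M.sw a j) = 0 := by
            have v1 := M.sw_ap a j a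
            have v2 := M.sw_ap a j p
            exact H0 _ (by grind) (by grind)
          have e2 : G (M.sw p j) = 0 := by
            have v1 := M.sw_ap p j a
            have v2 := M.sw_ap p j p
            exact H0 _ (by grind) (by grind)
          rw [AY.Rt_oe ha hj rfl, AY.Rt_oe hp hj rfl, w6_cross, e1, e2]
          ring
    · by_cases haj' : M a = j
      · by_cases hp : M p = p
        · have e0 : G M = 0 := H0 _ (by grind) (by grind)
          have e1 : G (M.sw p j) = 0 := by
            have v1 := M.sw_ap p j a
            exact H1 _ (by grind)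
          rw [AY.Rt_jj ha hj haj', AY.Rt_eo hp hj rfl, e0, e1]
          ring
        · have hpj' : M p ≠ j := by grind
          have e0 : G M = G (M.cp a p) := H2 _ ha hp (by grind)
          have e1 : G (M.sw p j) = 0 := by
            have v1 := M.sw_ap p j a
            exact H1 _ (by grind)
          have b1 := M.cp_apply p j p hp hj
          have b2 := M.cp_apply p j j hp hj
          have b3 := M.cp_apply p j a hp hj
          have e2 : G (M.cp p j) = 0 := H0 _ (by grind) (by grind)
          have e3 : G ((M.cp p j).jn p j) = G (((M.cp p j).jn p j).cp a p) := by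
            have v1 := (M.cp p j).jn_apply p j a (by grind) (by grind)
            have v2 := (M.cp p j).jn_apply p j p (by grind) (by grind)
            exact H2 _ (by grind) (by grind) (by grind)
          rw [AY.Rt_jj ha hj haj', AY.Rt_oo hp hj hpj' rfl rfl rfl, w9_cross, e0, e1, e2, e3,
            cr3 hap haj hpj M haj' hp]
          ring
      · have b1 := M.cp_apply a j a ha hj
        have b2 := M.cp_apply a j j ha hj
        have b3 := M.cp_apply a j p ha hj
        by_cases hp : M p = p
        · have e0 : G M = 0 := H0 _ (by grind) (by grind)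
          have e1 : G (M.sw a j) = 0 := by
            have v1 := M.sw_ap a j a
            have v2 := M.sw_ap a j p
            exact H0 _ (by grind) (by grind)
          have e2 : G ((M.cp a j).jn a j) = 0 := by
            have v1 := (M.cp a j).jn_apply a j a (by grind) (by grind)
            have v2 := (M.cp a j).jn_apply a j p (by grind) (by grind)
            exact H0 _ (by grind) (by grind)
          have e3 : G (M.sw p j) = G ((M.sw p j).cp p a) := by
            have v1 := M.sw_ap p j a
            have v2 := M.sw_ap p j p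
            rw [cp_comm (M.sw p j)]
            exact H2 _ (by grind) (by grind) (by grind)
          rw [AY.Rt_oo ha hj haj' rfl rfl rfl, AY.Rt_eo hp hj rfl, w2_cross, e0, e1, e2, e3,
            cr2 hap.symm hpj haj M hp hj ha haj']
          ring
        · by_cases hap' : M a = p
          · have hpj' : M p ≠ j := by grind
            obtain ⟨q1, q2, q3⟩ := cr4 hap haj hpj M hap' hj
            have b4 := M.cp_apply p j p hp hj
            have b5 := M.cp_apply p j j hp hj
            have b6 := M.cp_apply p j a hp hj
            have e1 : G (M.sw a j) = G ((M.sw a j).cp a p) := by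
              have v1 := M.sw_ap a j a
              have v2 := M.sw_ap a j p
              exact H2 _ (by grind) (by grind) (by grind)
            have e2 : G (M.sw p j) = G ((M.sw p j).cp a p) := by
              have v1 := M.sw_ap p j a
              have v2 := M.sw_ap p j p
              exact H2 _ (by grind) (by grind) (by grind)
            have e3 : G ((M.cp a j).jn a j) = G (((M.cp a j).jn a j).cp a p) := by
              have v1 := (M.cp a j).jn_apply a j a (by grind) (by grind)
              have v2 := (M.cp a j).jn_apply a j p (by grind) (by grind)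
              exact H2 _ (by grind) (by grind) (by grind)
            have e4 : G ((M.cp p j).jn p j) = G (((M.cp p j).jn p j).cp a p) := by
              have v1 := (M.cp p j).jn_apply p j a (by grind) (by grind)
              have v2 := (M.cp p j).jn_apply p j p (by grind) (by grind)
              exact H2 _ (by grind) (by grind) (by grind)
            have e5 : G (M.cp a j) = 0 := H0 _ (by grind) (by grind)
            have e6 : G (M.cp p j) = 0 := H0 _ (by grind) (by grind)
            rw [AY.Rt_oo ha hj haj' rfl rfl rfl, AY.Rt_oo hp hj hpj' rfl rfl rfl, w8_cross,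
              w9_cross, e1, e2, e3, e4, e5, e6, q1, q2, q3]
            ring
          · have b4 := M.cp_apply p j p hp hj
            have b5 := M.cp_apply p j j hp hj
            have b6 := M.cp_apply p j a hp hj
            by_cases hpj' : M p = j
            · have e0 : G M = G (M.cp a p) := H2 _ ha hp hap'
              have e1 : G (M.sw a j) = 0 := by
                have v1 := M.sw_ap a j a
                exact H1 _ (by grind)
              have e2 : G (M.cp a j) = 0 := H0 _ (by grind) (by grind)
              have e3 : G ((M.cp a j).jn a j) = G (((M.cp a j).jn a j).cp p a) := by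
                have v1 := (M.cp a j).jn_apply a j a (by grind) (by grind)
                have v2 := (M.cp a j).jn_apply a j p (by grind) (by grind)
                rw [cp_comm ((M.cp a j).jn a j)]
                exact H2 _ (by grind) (by grind) (by grind)
              rw [AY.Rt_oo ha hj haj' rfl rfl rfl, AY.Rt_jj hp hj hpj', w8_cross, e0, e1, e2, e3,
                cr3 hap.symm hpj haj M hpj' ha, cp_comm M]
              ring
            · have e1 : G (M.sw a j) = G ((M.sw a j).cp a p) := by
                have v1 := M.sw_ap a j a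
                have v2 := M.sw_ap a j p
                exact H2 _ (by grind) (by grind) (by grind)
              have e2 : G (M.sw p j) = G ((M.sw p j).cp a p) := by
                have v1 := M.sw_ap p j a
                have v2 := M.sw_ap p j p
                exact H2 _ (by grind) (by grind) (by grind)
              have e3 : G ((M.cp a j).jn a j) = G (((M.cp a j).jn a j).cp a p) := by
                have v1 := (M.cp a j).jn_apply a j a (by grind) (by grind)
                have v2 := (M.cp a j).jn_apply a j p (by grind) (by grind)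
                exact H2 _ (by grind) (by grind) (by grind)
              have e4 : G ((M.cp p j).jn p j) = G (((M.cp p j).jn p j).cp a p) := by
                have v1 := (M.cp p j).jn_apply p j a (by grind) (by grind)
                have v2 := (M.cp p j).jn_apply p j p (by grind) (by grind)
                exact H2 _ (by grind) (by grind) (by grind)
              have e5 : G (M.cp a j) = 0 := H0 _ (by grind) (by grind)
              have e6 : G (M.cp p j) = 0 := H0 _ (by grind) (by grind)
              have q1 := cr5 hap haj hpj M ha hp hj hap' haj' hpj'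
              have q2 := cr5 hap.symm hpj haj M hp ha hj (by grind) hpj' haj'
              rw [cp_comm ((M.cp a j).jn a j), cp_comm (M.sw p j)] at q2
              rw [AY.Rt_oo ha hj haj' rfl rfl rfl, AY.Rt_oo hp hj hpj' rfl rfl rfl, w8_cross,
                w9_cross, e1, e2, e3, e4, e5, e6, q1, q2]
              ring

end Moves

end Pool.Agent.BEX
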