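import Pool.Agent.BEX.ACross

/-!
# BEX, part A: crossing symmetry at the cup and at the cap of the auxiliary line
-/

namespace Pool.Agent.BEX

open Complex

section Cup

variable {κ : Type*} [DecidableEq κ] {a p j : κ}

theorem cu1 (hap : a ≠ p) (haj : a ≠ j) (hpj : p ≠ j) (M : St κ) (h1 : M a = a) (h2 : M p = p)
    (h3 : M j = j) : (M.jn a p).sw p j = M.jn a j ∧ (M.jn a p).sw a j = M.jn p j := by
  refine ⟨?_, ?_⟩
  · ext x
    rw [St.sw_ap, M.jn_apply _ _ _ h1 h2, M.jn_apply _ _ _ h1 h3]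
    have i5 := M.inv' x
    grind (splits := 40)
  · ext x
    rw [St.sw_ap, M.jn_apply _ _ _ h1 h2, M.jn_apply _ _ _ h2 h3]
    have i5 := M.inv' x
    grind (splits := 40)

theorem cu2 (hap : a ≠ p) (haj : a ≠ j) (hpj : p ≠ j) (M : St κ) (h1 : M a = a) (h2 : M p = p)
    (h3 : M j ≠ j) : (M.jn a p).cp p j = M.sw a j ∧ (M.jn a p).cp a j = M.sw p j ∧
      ((M.jn a p).cp p j).jn p j = (M.jn a p).sw a j ∧
      ((M.jn a p).cp a j).jn a j = (M.jn a p).sw p j := by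
  have v1 := M.jn_apply a p a h1 h2
  have v2 := M.jn_apply a p p h1 h2
  have v3 := M.jn_apply a p j h1 h2
  have i0 := M.inv' j
  have a1 : M.jn a p a ≠ a := by grind
  have a2 : M.jn a p p ≠ p := by grind
  have a3 : M.jn a p j ≠ j := by grind
  have b1 : (M.jn a p).cp p j p = p := by rw [St.cp_apply _ _ _ _ a2 a3]; grind
  have b2 : (M.jn a p).cp p j j = j := by rw [St.cp_apply _ _ _ _ a2 a3]; grind
  have b3 : (M.jn a p).cp a j a = a := by rw [St.cp_apply _ _ _ _ a1 a3]; grind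
  have b4 : (M.jn a p).cp a j j = j := by rw [St.cp_apply _ _ _ _ a1 a3]; grind
  refine ⟨?_, ?_, ?_, ?_⟩
  · ext x
    rw [St.cp_apply _ _ _ _ a2 a3]
    simp only [M.jn_apply _ _ _ h1 h2, St.sw_ap]
    clear a1 a2 a3 b1 b2 b3 b4 v1 v2 v3
    have i5 := M.inv' x
    grind (splits := 40)
  · ext x
    rw [St.cp_apply _ _ _ _ a1 a3]
    simp only [M.jn_apply _ _ _ h1 h2, St.sw_ap]
    clear a1 a2 a3 b1 b2 b3 b4 v1 v2 v3
    have i5 := M.inv' x
    grind (splits := 40)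
  · ext x
    rw [St.jn_apply _ _ _ _ b1 b2, St.cp_apply _ _ _ _ a2 a3]
    simp only [M.jn_apply _ _ _ h1 h2, St.sw_ap]
    clear a1 a2 a3 b1 b2 b3 b4 v1 v2 v3
    have i5 := M.inv' x
    grind (splits := 40)
  · ext x
    rw [St.jn_apply _ _ _ _ b3 b4, St.cp_apply _ _ _ _ a1 a3]
    simp only [M.jn_apply _ _ _ h1 h2, St.sw_ap]
    clear a1 a2 a3 b1 b2 b3 b4 v1 v2 v3
    have i5 := M.inv' x
    grind (splits := 40)

/-- The crossing symmetry at a cup. -/
theorem cross_cup (hap : a ≠ p) (haj : a ≠ j) (hpj : p ≠ j) (G : St κ → ℂ) (M : St κ)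
    (h1 : M a = a) (h2 : M p = p) (x : ℂ) :
    Rt a j x G M + Rt a j x G (M.jn a p) =
      Rt p j (3 * lam - x) G M + Rt p j (3 * lam - x) G (M.jn a p) := by
  have v1 := M.jn_apply a p a h1 h2
  have v2 := M.jn_apply a p p h1 h2
  have v3 := M.jn_apply a p j h1 h2
  have a1 : M.jn a p a ≠ a := by grind
  have a2 : M.jn a p p ≠ p := by grind
  by_cases h3 : M j = j
  · have a3 : M.jn a p j = j := by grind
    obtain ⟨q1, q2⟩ := cu1 hap haj hpj M h1 h2 h3
    rw [AY.Rt_ee h1 h3 rfl, AY.Rt_oe a1 a3 rfl, AY.Rt_ee h2 h3 rfl, AY.Rt_oe a2 a3 rfl,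
      kk_cross, w4_cross, w6_cross, w2_cross, q1, q2]
    ring
  · have a3 : M.jn a p j ≠ j := by grind
    obtain ⟨q1, q2, q3, q4⟩ := cu2 hap haj hpj M h1 h2 h3
    rw [AY.Rt_eo h1 h3 rfl, AY.Rt_oo a1 a3 (by grind) rfl rfl rfl, AY.Rt_eo h2 h3 rfl,
      AY.Rt_oo a2 a3 (by grind) rfl rfl rfl, w8_cross, w9_cross, w4_cross, w6_cross, w2_cross,
      q3, q4, q1, q2]
    ring

end Cup

section Aux

variable {ι : Type*} [DecidableEq ι]

/-- Crossing at the cup of the auxiliary line. -/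
theorem cupF_cross (i : ι) (x : ℂ) (G : St (Option (Option ι)) → ℂ) :
    cupF (Rt ax (lb i) x G) = cupF (Rt ax' (lb i) (3 * lam - x) G) := by
  funext m
  unfold cupF ext1
  exact cross_cup (by simp) (by simp) (by simp) G (ext0 m) rfl rfl x

/-- Crossing at the cap of the auxiliary line. -/
theorem capF_cross [Fintype ι] (i : ι) (x : ℂ) (F : St ι → ℂ) :
    Rt ax (lb i) x (capF F) = Rt ax' (lb i) (3 * lam - x) (capF F) := by
  refine cross_cap (by simp) (by simp) (by simp) _ (fun M h h' => capF_zero F M h h')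
    (fun M h => capF_arc F M h) (fun M h1 h2 h3 => ?_) x
  obtain ⟨c1, c2⟩ := cp_ax h1 h2
  rw [capF_cp F M h1 h2 h3]
  unfold capF
  rw [if_pos c1, if_pos c2]

end Aux

end Pool.Agent.BEX
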