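import Pool.Agent.BEX.ACup
import Pool.Agent.BEX.AFar

/-!
# BEX, part A: cyclicity of the transfer matrix
-/

namespace Pool.Agent.BEX

variable {ι : Type*} [DecidableEq ι]

theorem foldr_far (i : ι) (x v : ℂ) (U : ι → ℂ) (l : List ι) (h : i ∉ l)
    (G : St (Option (Option ι)) → ℂ) :
    Rt ax' (lb i) x (l.foldr (fun j H => Rt ax (lb j) (v - U j) H) G) =
      l.foldr (fun j H => Rt ax (lb j) (v - U j) H) (Rt ax' (lb i) x G) := by
  induction l with
  | nil => rfl
  | cons k l ih =>
    rw [List.mem_cons, not_or] at h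
    rw [List.foldr_cons, List.foldr_cons, ← ih h.2]
    exact rt_far (by simp) (by simp) (by simp) (by simp) (fun e => h.1 (lb_inj e)) (by simp) _ _ _

/-- The transfer matrix is invariant under the rotation of the list of the lines. -/
theorem Tt_cyc [Fintype ι] (i : ι) (l : List ι) (h : (i :: l).Nodup) (v : ℂ) (U : ι → ℂ)
    (F : St ι → ℂ) : Tt (i :: l) v U F = Tt (l ++ [i]) v U F := by
  unfold Tt
  rw [List.foldr_cons, cupF_cross, foldr_far i _ v U l (List.nodup_cons.1 h).1,
    ← capF_cross, List.foldr_append]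
  rfl

end Pool.Agent.BEX
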