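import Mathlib

/-!
# BEX, part A: definitions (note 3044 of MP_8c6f77_pr)

States are partial matchings of a type `ι` of labels (lines): involutions `m`, with
`m i = i` for an empty line and `m i = j` for an arc `i - j`.  No planarity is used; closed
loops have weight `0`.  The R-matrix `R_pq(u)` of two lines is given by its action on
FUNCTIONS `F : St ι → ℂ` of the state (transposed action): for a product `A B` of operators
on vectors (`B` first) the function `F` is acted on by `Rt A` first and then `Rt B`.
-/

namespace Pool.Agent.BEX

/-- Partial matchings of `ι`. -/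
def St (ι : Type*) := {f : ι → ι // ∀ i, f (f i) = i}

namespace St

variable {ι : Type*}

instance : CoeFun (St ι) (fun _ => ι → ι) := ⟨fun m => m.1⟩

@[simp] theorem inv (m : St ι) (i : ι) : m (m i) = i := m.2 i

@[ext] theorem ext' {m n : St ι} (h : ∀ i, m i = n i) : m = n := Subtype.ext (funext h)

theorem inj (m : St ι) {i j : ι} (h : m i = m j) : i = j := by
  have := congrArg m.1 h
  simpa using this

instance [DecidableEq ι] [Fintype ι] : DecidableEq (St ι) := by
  unfold St; infer_instance

instance [DecidableEq ι] [Fintype ι] : Fintype (St ι) := by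
  unfold St; infer_instance

/-- the empty matching -/
def emp : St ι := ⟨fun i => i, fun _ => rfl⟩

variable [DecidableEq ι]

/-- exchange the two labels `p` and `q` -/
def sw (p q : ι) (m : St ι) : St ι :=
  ⟨fun i => Equiv.swap p q (m (Equiv.swap p q i)), fun i => by simp⟩

/-- underlying function of `jn` -/
def jnf (p q : ι) (m : St ι) (i : ι) : ι :=
  if i = p then q else if i = q then p else m i

theorem jnf_inv (p q : ι) (m : St ι) (hp : m p = p) (hq : m q = q) (i : ι) :
    jnf p q m (jnf p q m i) = i := by
  unfold jnf
  by_cases h1 : i = p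
  · subst h1
    by_cases h2 : q = i
    · subst h2; simp
    · simp [h2]
  · by_cases h2 : i = q
    · subst h2; simp [h1]
    · have h3 : m i ≠ p := fun h => h1 (m.inj (h.trans hp.symm))
      have h4 : m i ≠ q := fun h => h2 (m.inj (h.trans hq.symm))
      simp [h1, h2, h3, h4]

/-- join the two empty lines `p` and `q` by an arc (junk value `m` otherwise) -/
def jn (p q : ι) (m : St ι) : St ι :=
  if h : m p = p ∧ m q = q then ⟨jnf p q m, jnf_inv p q m h.1 h.2⟩ else m

/-- underlying function of `cp` -/
def cpf (p q : ι) (m : St ι) (i : ι) : ι :=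
  if i = p then p else if i = q then q else
    if i = m p then m q else if i = m q then m p else m i

theorem cpf_inv (p q : ι) (m : St ι) (hp : m p ≠ p) (hq : m q ≠ q) (i : ι) :
    cpf p q m (cpf p q m i) = i := by
  unfold cpf
  by_cases h1 : i = p
  · subst h1; simp
  by_cases h2 : i = q
  · subst h2; simp [h1]
  by_cases h3 : i = m p
  · subst h3
    by_cases h5 : m q = p
    · exfalso; apply h2; rw [← h5]; simp
    · by_cases h6 : m q = m p
      · have := m.inj h6; subst this; simp [h1, hp]
      · simp [h1, h2, h5, hq, h6]
  by_cases h4 : i = m q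
  · subst h4
    by_cases h5 : m p = q
    · exfalso; apply h1; rw [← h5]; simp
    · simp [h1, h2, h3, h5, hp]
  · have h5 : m i ≠ p := fun h => h3 (by rw [← h]; simp)
    have h6 : m i ≠ q := fun h => h4 (by rw [← h]; simp)
    have h7 : m i ≠ m p := fun h => h1 (m.inj h)
    have h8 : m i ≠ m q := fun h => h2 (m.inj h)
    simp [h1, h2, h3, h4, h5, h6, h7, h8]

/-- cap on the two occupied lines `p` and `q`: their partners are joined, `p` and `q` become
empty (if `p` and `q` are joined to each other the arc is removed: this case has weight `0`
everywhere; junk value `m` if one of them is empty) -/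
def cp (p q : ι) (m : St ι) : St ι :=
  if h : m p ≠ p ∧ m q ≠ q then ⟨cpf p q m, cpf_inv p q m h.1 h.2⟩ else m

end St

open Complex

/-- `lam = π/8` -/
noncomputable def lam : ℂ := (Real.pi : ℂ) / 8

/-- `a = 3π/8` -/
noncomputable def aa : ℂ := 3 * lam

/-- `k(u) = sin(2λ+u) sin(3λ+u)` -/
noncomputable def kk (u : ℂ) : ℂ := sin (2 * lam + u) * sin (3 * lam + u)

noncomputable def w2 (u : ℂ) : ℂ := sin (2 * lam) * sin (3 * lam - u)
noncomputable def w4 (u : ℂ) : ℂ := sin (2 * lam) * sin u
noncomputable def w6 (u : ℂ) : ℂ := sin u * sin (3 * lam - u)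
noncomputable def w8 (u : ℂ) : ℂ := sin (2 * lam - u) * sin (3 * lam - u)
noncomputable def w9 (u : ℂ) : ℂ := - (sin u * sin (lam - u))

variable {ι : Type*} [DecidableEq ι]

/-- The R-matrix of the lines `p`, `q` (difference of rapidities `u = u_p - u_q`), acting on
functions of the state. Symmetric in `p`, `q`. -/
noncomputable def Rt (p q : ι) (u : ℂ) (F : St ι → ℂ) (m : St ι) : ℂ :=
  if m p = p then
    if m q = q then kk u * F m + w4 u * F (m.jn p q)
    else w6 u * F m + w2 u * F (m.sw p q)
  else if m q = q then w6 u * F m + w2 u * F (m.sw p q)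
  else if m p = q then w8 u * F m
  else w8 u * F (m.sw p q) + w9 u * F ((m.cp p q).jn p q) + w4 u * F (m.cp p q)

/-- `b` with `b ^ 2 = x / 2`, `x = x_c = cos λ - cos 3λ = √2 sin λ`. -/
noncomputable def bb : ℂ := ((Real.sqrt (Real.sqrt 2 * Real.sin (Real.pi / 8) / 2) : ℝ) : ℂ)

/-- Product functional: weight `α i` for every empty line, `b` for every occupied line (so
`b ^ 2 = x / 2` for every arc). -/
noncomputable def Om [Fintype ι] (α : ι → ℂ) (m : St ι) : ℂ :=
  ∏ i, if m i = i then α i else bb

/-! ### the transfer matrix

The auxiliary line has the label `none : Option (Option ι)`, its other end the label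
`some none`, the lines of `ι` have the labels `some (some i)`. -/

/-- label of the line `i` -/
def lb (i : ι) : Option (Option ι) := some (some i)

/-- the auxiliary line -/
def ax : Option (Option ι) := none

/-- its other end -/
def ax' : Option (Option ι) := some none

omit [DecidableEq ι] in
theorem ext0_inv (m : St ι) (i : Option (Option ι)) :
    Option.map (Option.map m.1) (Option.map (Option.map m.1) i) = i := by
  rcases i with _ | _ | i <;> simp

/-- the state `m` with both auxiliary ends empty -/
def ext0 (m : St ι) : St (Option (Option ι)) :=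
  ⟨Option.map (Option.map m.1), ext0_inv m⟩

/-- the state `m` with the two auxiliary ends joined -/
def ext1 (m : St ι) : St (Option (Option ι)) := (ext0 m).jn ax ax'

/-- underlying function of `res` -/
def resf (m : St (Option (Option ι))) (i : ι) : ι :=
  match m (lb i) with
  | some (some j) => j
  | _ => i

/-- for a state with both auxiliary ends empty: the state on `ι` (junk: `emp`) -/
def res [Fintype ι] (m : St (Option (Option ι))) : St ι :=
  if h : ∀ i, resf m (resf m i) = i then ⟨resf m, h⟩ else St.emp

/-- closing the auxiliary line (action on functions of the state on `ι`) -/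
def capF [Fintype ι] (F : St ι → ℂ) (m : St (Option (Option ι))) : ℂ :=
  if m ax = ax then (if m ax' = ax' then F (res m) else 0)
  else if m ax' = ax' then 0
  else if m ax = ax' then 0
  else F (res (m.cp ax ax'))

/-- opening the auxiliary line -/
def cupF (G : St (Option (Option ι)) → ℂ) (m : St ι) : ℂ := G (ext0 m) + G (ext1 m)

/-- The transfer matrix `T(v; U)` with the lines in the order of the list `l` (first crossed
line = head of the list), acting on functions. -/
noncomputable def Tt [Fintype ι] (l : List ι) (v : ℂ) (U : ι → ℂ) (F : St ι → ℂ) : St ι → ℂ :=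
  cupF (l.foldr (fun i G => Rt ax (lb i) (v - U i) G) (capF F))

end Pool.Agent.BEX
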