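import Pool.Agent.BEX.ADef

/-!
# BEX, part A: linearity of the transfer matrix, the empty state, continuity in the rapidities
-/

namespace Pool.Agent.BEX

open Complex Filter Topology

section Lin

variable {ι : Type*} [DecidableEq ι]

theorem Rt_add (p q : ι) (u : ℂ) (F G : St ι → ℂ) :
    Rt p q u (F + G) = Rt p q u F + Rt p q u G := by
  funext m
  simp only [Rt, Pi.add_apply]
  split_ifs <;> ring

theorem Rt_smul (p q : ι) (u c : ℂ) (F : St ι → ℂ) : Rt p q u (c • F) = c • Rt p q u F := by
  funext m
  simp only [Rt, Pi.smul_apply, smul_eq_mul]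
  split_ifs <;> ring

theorem cupF_add (G H : St (Option (Option ι)) → ℂ) : cupF (G + H) = cupF G + cupF H := by
  funext m
  simp only [cupF, Pi.add_apply]
  ring

theorem cupF_smul (c : ℂ) (G : St (Option (Option ι)) → ℂ) : cupF (c • G) = c • cupF G := by
  funext m
  simp only [cupF, Pi.smul_apply, smul_eq_mul]
  ring

variable [Fintype ι]

theorem capF_add (F G : St ι → ℂ) : capF (F + G) = capF F + capF G := by
  funext m
  simp only [capF, Pi.add_apply]
  split_ifs <;> simp

theorem capF_smul (c : ℂ) (F : St ι → ℂ) : capF (c • F) = c • capF F := by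
  funext m
  simp only [capF, Pi.smul_apply, smul_eq_mul]
  split_ifs <;> simp

/-- The product of the R-matrices along the auxiliary line. -/
noncomputable def Fo (l : List ι) (v : ℂ) (U : ι → ℂ) (G : St (Option (Option ι)) → ℂ) :
    St (Option (Option ι)) → ℂ :=
  l.foldr (fun i G => Rt ax (lb i) (v - U i) G) G

omit [Fintype ι] in
@[simp] theorem Fo_nil (v : ℂ) (U : ι → ℂ) (G : St (Option (Option ι)) → ℂ) :
    Fo [] v U G = G := rfl

omit [Fintype ι] in
@[simp] theorem Fo_cons (i : ι) (l : List ι) (v : ℂ) (U : ι → ℂ)
    (G : St (Option (Option ι)) → ℂ) :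
    Fo (i :: l) v U G = Rt ax (lb i) (v - U i) (Fo l v U G) := rfl

theorem Tt_eq (l : List ι) (v : ℂ) (U : ι → ℂ) (F : St ι → ℂ) :
    Tt l v U F = cupF (Fo l v U (capF F)) := rfl

omit [Fintype ι] in
theorem Fo_add (l : List ι) (v : ℂ) (U : ι → ℂ) (G H : St (Option (Option ι)) → ℂ) :
    Fo l v U (G + H) = Fo l v U G + Fo l v U H := by
  induction l with
  | nil => rfl
  | cons i l ih => simp only [Fo_cons, ih, Rt_add]

omit [Fintype ι] in
theorem Fo_smul (l : List ι) (v : ℂ) (U : ι → ℂ) (c : ℂ) (G : St (Option (Option ι)) → ℂ) :
    Fo l v U (c • G) = c • Fo l v U G := by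
  induction l with
  | nil => rfl
  | cons i l ih => simp only [Fo_cons, ih, Rt_smul]

theorem Tt_add (l : List ι) (v : ℂ) (U : ι → ℂ) (F G : St ι → ℂ) :
    Tt l v U (F + G) = Tt l v U F + Tt l v U G := by
  simp only [Tt_eq, capF_add, Fo_add, cupF_add]

theorem Tt_smul (l : List ι) (v : ℂ) (U : ι → ℂ) (c : ℂ) (F : St ι → ℂ) :
    Tt l v U (c • F) = c • Tt l v U F := by
  simp only [Tt_eq, capF_smul, Fo_smul, cupF_smul]

/-- `Rt` as a linear map. -/
noncomputable def RtL (p q : ι) (u : ℂ) : (St ι → ℂ) →ₗ[ℂ] (St ι → ℂ) where
  toFun := Rt p q u
  map_add' := Rt_add p q u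
  map_smul' := fun c F => Rt_smul p q u c F

/-- `Tt` as a linear map. -/
noncomputable def TtL (l : List ι) (v : ℂ) (U : ι → ℂ) : (St ι → ℂ) →ₗ[ℂ] (St ι → ℂ) where
  toFun := Tt l v U
  map_add' := Tt_add l v U
  map_smul' := fun c F => Tt_smul l v U c F

omit [Fintype ι] in
@[simp] theorem RtL_apply (p q : ι) (u : ℂ) (F : St ι → ℂ) : RtL p q u F = Rt p q u F := rfl

@[simp] theorem TtL_apply (l : List ι) (v : ℂ) (U : ι → ℂ) (F : St ι → ℂ) :
    TtL l v U F = Tt l v U F := rfl

end Lin

section Emp

/-- The function which is `1` at the empty state. -/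
noncomputable def dE (ι : Type*) [DecidableEq ι] : St ι → ℂ := by
  classical exact fun m => if m = St.emp then 1 else 0

variable {ι : Type*} [DecidableEq ι]

theorem dE_apply [DecidableEq (St ι)] (m : St ι) : dE ι m = if m = St.emp then 1 else 0 := by
  unfold dE
  congr

theorem dE_emp : dE ι St.emp = 1 := by simp [dE]

theorem dE_ne {m : St ι} {i : ι} (h : m i ≠ i) : dE ι m = 0 := by
  unfold dE
  rw [if_neg]
  intro h1
  apply h
  rw [h1]
  rfl

theorem Rt_dE {p q : ι} (hpq : p ≠ q) (u : ℂ) : Rt p q u (dE ι) = kk u • dE ι := by
  funext m
  simp only [Rt, Pi.smul_apply, smul_eq_mul]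
  by_cases hp : m p = p
  · by_cases hq : m q = q
    · rw [if_pos hp, if_pos hq]
      have h1 : dE ι (m.jn p q) = 0 := by
        apply dE_ne (i := p)
        simp [St.jn, hp, hq, St.jnf, Ne.symm hpq]
      rw [h1, mul_zero, add_zero]
    · rw [if_pos hp, if_neg hq]
      have h1 : dE ι (m.sw p q) = 0 := by
        apply dE_ne (i := p)
        simp only [St.sw]
        rw [Equiv.swap_apply_left]
        intro h
        apply hq
        have := congrArg (Equiv.swap p q) h
        simpa using this
      rw [h1, dE_ne hq]
      ring
  · by_cases hq : m q = q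
    · rw [if_neg hp, if_pos hq]
      have h1 : dE ι (m.sw p q) = 0 := by
        apply dE_ne (i := q)
        simp only [St.sw]
        rw [Equiv.swap_apply_right]
        intro h
        apply hp
        have := congrArg (Equiv.swap p q) h
        simpa using this
      rw [h1, dE_ne hp]
      ring
    · rw [if_neg hp, if_neg hq, dE_ne hp]
      by_cases hj : m p = q
      · rw [if_pos hj]; ring
      · rw [if_neg hj]
        have h1 : dE ι (m.sw p q) = 0 := by
          apply dE_ne (i := p)
          simp only [St.sw]
          rw [Equiv.swap_apply_left]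
          intro h
          apply hq
          have := congrArg (Equiv.swap p q) h
          simpa using this
        have h5 : m q ≠ p := by
          intro h
          apply hj
          rw [← h]; simp
        have h2 : dE ι (m.cp p q) = 0 := by
          apply dE_ne (i := m p)
          simp only [St.cp, dif_pos (And.intro hp hq)]
          simp only [St.cpf]
          rw [if_neg hp, if_neg hj, if_pos trivial]
          intro h
          exact hpq (m.inj h).symm
        have h3 : dE ι ((m.cp p q).jn p q) = 0 := by
          have e1 : (m.cp p q) p = p := by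
            simp [St.cp, hp, hq, St.cpf]
          have e2 : (m.cp p q) q = q := by
            simp [St.cp, hp, hq, St.cpf, Ne.symm hpq]
          apply dE_ne (i := p)
          simp [St.jn, e1, e2, St.jnf, Ne.symm hpq]
        rw [h1, h2, h3]
        ring

omit [DecidableEq ι] in
theorem ax_ne (i : ι) : (ax : Option (Option ι)) ≠ lb i := by
  simp [ax, lb]

theorem Fo_dE (l : List ι) (v : ℂ) (U : ι → ℂ) :
    Fo l v U (dE (Option (Option ι))) =
      (l.map fun i => kk (v - U i)).prod • dE (Option (Option ι)) := by
  induction l with
  | nil => simp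
  | cons i l ih =>
    rw [Fo_cons, ih, Rt_smul, Rt_dE (ax_ne i), List.map_cons, List.prod_cons, smul_smul, mul_comm]

theorem cupF_dE : cupF (dE (Option (Option ι))) = dE ι := by
  funext m
  unfold cupF
  have h1 : dE (Option (Option ι)) (ext1 m) = 0 := by
    apply dE_ne (i := ax)
    have e3 : (ext1 m) ax = ax' := by
      unfold ext1 St.jn
      rw [dif_pos ⟨rfl, rfl⟩]
      change St.jnf (ax : Option (Option ι)) ax' (ext0 m) ax = ax'
      simp [St.jnf]
    rw [e3]
    simp [ax, ax']
  have h2 : dE (Option (Option ι)) (ext0 m) = dE ι m := by
    by_cases h : m = St.emp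
    · subst h
      have : ext0 (St.emp : St ι) = St.emp := by
        apply St.ext'
        intro i
        rcases i with _ | _ | i <;> rfl
      rw [this, dE_emp, dE_emp]
    · have : ∃ i, m i ≠ i := by
        by_contra hc
        push Not at hc
        exact h (St.ext' hc)
      obtain ⟨i, hi⟩ := this
      rw [dE_ne hi]
      apply dE_ne (i := lb i)
      simp [ext0, lb, hi]
  rw [h1, h2, add_zero]

omit [DecidableEq ι] in
theorem resf_of {m : St (Option (Option ι))} {i j : ι} (h : m (lb i) = lb j) :
    resf m i = j := by
  unfold resf
  rw [h]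
  rfl

theorem capF_dE [Fintype ι] : capF (dE ι) = dE (Option (Option ι)) := by
  funext m
  unfold capF
  by_cases h1 : m ax = ax
  · by_cases h2 : m ax' = ax'
    · rw [if_pos h1, if_pos h2]
      -- description of `m` on the other labels
      have hl : ∀ i, ∃ j, m (lb i) = lb j := by
        intro i
        rcases hm : m (lb i) with _ | _ | j
        · exfalso
          have : m (lb i) = m ax := by rw [hm, h1]; rfl
          exact absurd (m.inj this) (by simp [lb, ax])
        · exfalso
          have : m (lb i) = m ax' := by rw [hm, h2]; rfl
          exact absurd (m.inj this) (by simp [lb, ax'])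
        · exact ⟨j, rfl⟩
      have hr : ∀ i, m (lb i) = lb (resf m i) := by
        intro i
        obtain ⟨j, hj⟩ := hl i
        rw [hj, resf_of hj]
      have hinv : ∀ i, resf m (resf m i) = i := by
        intro i
        have e1 : m (m (lb i)) = lb i := m.inv _
        rw [hr i, hr (resf m i)] at e1
        simpa [lb] using e1
      have hres : res m = ⟨resf m, hinv⟩ := by
        unfold res
        rw [dif_pos hinv]
      by_cases h : ∃ i, m (lb i) ≠ lb i
      · obtain ⟨i, hi⟩ := h
        rw [dE_ne hi]
        apply dE_ne (i := i)
        rw [hres]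
        intro h3
        apply hi
        rw [hr i]
        exact congrArg lb h3
      · push Not at h
        have e1 : m = St.emp := by
          apply St.ext'
          intro j
          rcases j with _ | _ | j
          · exact h1
          · exact h2
          · exact h j
        have e2 : res m = St.emp := by
          rw [hres]
          apply St.ext'
          intro i
          have := h i
          rw [hr i] at this
          exact Option.some_injective _ (Option.some_injective _ this)
        rw [e2, e1, dE_emp, dE_emp]
    · rw [if_pos h1, if_neg h2, dE_ne h2]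
  · rw [if_neg h1, dE_ne h1]
    by_cases h2 : m ax' = ax'
    · rw [if_pos h2]
    · rw [if_neg h2]
      by_cases h3 : m ax = ax'
      · rw [if_pos h3]
      · rw [if_neg h3]
        -- `m ax = lb i`, `m ax' = lb j` are joined
        obtain ⟨i, hi⟩ : ∃ i, m ax = lb i := by
          rcases hm : m ax with _ | _ | i
          · exact absurd hm h1
          · exact absurd hm h3
          · exact ⟨i, rfl⟩
        obtain ⟨j, hj⟩ : ∃ j, m ax' = lb j := by
          rcases hm : m ax' with _ | _ | j
          · exfalso
            apply h3
            have : m (m ax') = m ax := by rw [hm]; rfl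
            rw [m.inv] at this
            exact this.symm
          · exact absurd hm h2
          · exact ⟨j, rfl⟩
        have hij : i ≠ j := by
          intro h
          subst h
          have : m ax = m ax' := by rw [hi, hj]
          exact absurd (m.inj this) (by simp [ax, ax'])
        set m' := m.cp ax ax' with hm'
        have c1 : m' (lb i) = lb j := by
          rw [hm']
          simp only [St.cp, dif_pos (And.intro h1 h2)]
          unfold St.cpf
          rw [if_neg (by simp [lb, ax]), if_neg (by simp [lb, ax']), if_pos hi.symm, hj]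
        have c2 : m' ax = ax := by
          rw [hm']
          simp only [St.cp, dif_pos (And.intro h1 h2)]
          simp [St.cpf]
        have c3 : m' ax' = ax' := by
          rw [hm']
          simp only [St.cp, dif_pos (And.intro h1 h2)]
          simp [St.cpf, ax, ax']
        have hl : ∀ i, ∃ j, m' (lb i) = lb j := by
          intro i
          rcases hm : m' (lb i) with _ | _ | j
          · exfalso
            have : m' (lb i) = m' ax := by rw [hm, c2]; rfl
            exact absurd (m'.inj this) (by simp [lb, ax])
          · exfalso
            have : m' (lb i) = m' ax' := by rw [hm, c3]; rfl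
            exact absurd (m'.inj this) (by simp [lb, ax'])
          · exact ⟨j, rfl⟩
        have hr : ∀ i, m' (lb i) = lb (resf m' i) := by
          intro i
          obtain ⟨j, hj⟩ := hl i
          rw [hj, resf_of hj]
        have hinv : ∀ i, resf m' (resf m' i) = i := by
          intro i
          have e1 : m' (m' (lb i)) = lb i := m'.inv _
          rw [hr i, hr (resf m' i)] at e1
          simpa [lb] using e1
        have hres : res m' = ⟨resf m', hinv⟩ := by
          unfold res
          rw [dif_pos hinv]
        apply dE_ne (i := i)
        rw [hres]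
        change resf m' i ≠ i
        have e2 := hr i
        rw [c1] at e2
        have e3 : j = resf m' i := by simpa [lb] using e2
        rw [← e3]
        exact hij.symm

/-- The empty state is preserved. -/
theorem Tt_dE [Fintype ι] (l : List ι) (v : ℂ) (U : ι → ℂ) :
    Tt l v U (dE ι) = (l.map fun i => kk (v - U i)).prod • dE ι := by
  rw [Tt_eq, capF_dE, Fo_dE, cupF_smul, cupF_dE]

end Emp

section Cont

variable {ι : Type*} [DecidableEq ι]

theorem continuous_kk : Continuous kk := by unfold kk; fun_prop
theorem continuous_w2 : Continuous w2 := by unfold w2; fun_prop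
theorem continuous_w4 : Continuous w4 := by unfold w4; fun_prop
theorem continuous_w6 : Continuous w6 := by unfold w6; fun_prop
theorem continuous_w8 : Continuous w8 := by unfold w8; fun_prop
theorem continuous_w9 : Continuous w9 := by unfold w9; fun_prop

theorem continuous_Rt {X : Type*} [TopologicalSpace X] (p q : ι) (u : X → ℂ) (hu : Continuous u)
    (G : X → St ι → ℂ) (hG : ∀ m, Continuous fun x => G x m) (m : St ι) :
    Continuous fun x => Rt p q (u x) (G x) m := by
  have k1 := continuous_kk.comp hu
  have k2 := continuous_w2.comp hu
  have k4 := continuous_w4.comp hu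
  have k6 := continuous_w6.comp hu
  have k8 := continuous_w8.comp hu
  have k9 := continuous_w9.comp hu
  simp only [Rt]
  split_ifs
  · exact (k1.mul (hG _)).add (k4.mul (hG _))
  · exact (k6.mul (hG _)).add (k2.mul (hG _))
  · exact (k6.mul (hG _)).add (k2.mul (hG _))
  · exact k8.mul (hG _)
  · exact ((k8.mul (hG _)).add (k9.mul (hG _))).add (k4.mul (hG _))

theorem continuous_Fo (l : List ι) (v : ℂ) (G : St (Option (Option ι)) → ℂ)
    (m : St (Option (Option ι))) : Continuous fun U : ι → ℂ => Fo l v U G m := by
  induction l generalizing m with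
  | nil => exact continuous_const
  | cons i l ih =>
    simp only [Fo_cons]
    exact continuous_Rt _ _ (fun U : ι → ℂ => v - U i)
      (continuous_const.sub (continuous_apply i)) _ (fun m => ih m) m

theorem continuous_Tt [Fintype ι] (l : List ι) (v : ℂ) (F : St ι → ℂ) (m : St ι) :
    Continuous fun U : ι → ℂ => Tt l v U F m := by
  simp only [Tt_eq, cupF]
  exact (continuous_Fo l v _ _).add (continuous_Fo l v _ _)

end Cont

end Pool.Agent.BEX
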