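import Pool.Agent.BEX.ALink
import Pool.Agent.BEX.A3.Result

/-!
# BEX, part A: the exact formula, from the fixed functional and part A3

`A_even`, `A_odd`: `L (1 - cos (3π/8) S_L)` is the value at `-1` of the reproducing kernel at `0`
resp. of the orthogonal polynomial with value `1` at `0`.
-/

namespace Pool.Agent.BEX

open Complex Finset Filter Topology Polynomial

/-- Even circumference. -/
theorem A_even (n : ℕ) (hn : 1 ≤ n) (hD : PowZero (List.finRange (2 * n)))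
    (hE : ∀ᶠ U in 𝓝 (0 : Fin (2 * n) → ℂ), HexRot U) :
    ∃ s : ℝ[X], s.natDegree < n ∧ (∀ q : ℝ[X], q.natDegree < n → ip s q = q.eval 0) ∧
      ((2 * n : ℕ) : ℂ) * (1 - ((Real.cos (3 * Real.pi / 8) : ℝ) : ℂ) * SR (2 * n)) =
        ((s.eval (-1) : ℝ) : ℂ) := by
  obtain ⟨s, h1, h2, h3⟩ := A3.result_even n hn (fun ε => rhoF (RRL (List.finRange (2 * n)) (A3.uu ε)))
    (rhoF (RRL (List.finRange (2 * n)) 0)) (ev_empty hD) ev_odd (ev_rel hE) (lim_rho hD)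
  refine ⟨s, h1, h2, ?_⟩
  rw [← h3, sum_rhoF' (by omega) hE.self_of_nhds]
  ring

/-- Odd circumference. -/
theorem A_odd (n : ℕ) (hD : PowZero (List.finRange (2 * n + 1)))
    (hE : ∀ᶠ U in 𝓝 (0 : Fin (2 * n + 1) → ℂ), HexRot U) :
    ∃ p : ℝ[X], p.natDegree ≤ n ∧ (∀ q : ℝ[X], q.natDegree < n → ip p q = 0) ∧ p.eval 0 = 1 ∧
      ((2 * n + 1 : ℕ) : ℂ) * (1 - ((Real.cos (3 * Real.pi / 8) : ℝ) : ℂ) * SR (2 * n + 1)) =
        ((p.eval (-1) : ℝ) : ℂ) := by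
  obtain ⟨p, h1, h2, h3, h4⟩ := A3.result_odd n
    (fun ε => rhoF (RRL (List.finRange (2 * n + 1)) (A3.uu ε)))
    (rhoF (RRL (List.finRange (2 * n + 1)) 0)) (ev_empty hD) ev_odd (ev_rel hE) (lim_rho hD)
  refine ⟨p, h1, h2, h3, ?_⟩
  rw [← h4, sum_rhoF' (by omega) hE.self_of_nhds]
  ring

end Pool.Agent.BEX
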