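import Mathlib
import Pool.Agent.BEX.ADef

/-!
# BEX, part A: the product functionals, pair propagation (note 3044 of MP_8c6f77_pr, step 2)

`Om α` is the product functional. If `α p = cos a` and `α q = cos (u + a)` then the R-matrix of the
lines `p`, `q` maps it to `k(-u)` times the product functional with `α q` replaced by
`cos (u - a)` (`Rt_Om`: five local cases, each a one-line identity at `λ = π/8`).
-/

namespace Pool.Agent.BEX

open Complex Finset

/-! ### constants -/

theorem AOm_lam : (((Real.pi / 8 : ℝ)) : ℂ) = lam := by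
  unfold lam
  push_cast
  ring

theorem sin_2lam : sin (2 * lam) = ((Real.sqrt 2 / 2 : ℝ) : ℂ) := by
  rw [← Real.sin_pi_div_four, ofReal_sin]
  congr 1
  unfold lam
  push_cast
  ring

theorem cos_2lam : cos (2 * lam) = ((Real.sqrt 2 / 2 : ℝ) : ℂ) := by
  rw [← Real.cos_pi_div_four, ofReal_cos]
  congr 1
  unfold lam
  push_cast
  ring

theorem sin_3lam : sin (3 * lam) = cos lam := by
  rw [← Complex.sin_pi_div_two_sub]
  congr 1
  unfold lam
  ring

theorem cos_3lam : cos (3 * lam) = sin lam := by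
  rw [← Complex.cos_pi_div_two_sub]
  congr 1
  unfold lam
  ring

theorem bb_sq : bb ^ 2 = sin (2 * lam) * sin lam := by
  have h0 : 0 ≤ Real.sqrt 2 * Real.sin (Real.pi / 8) / 2 := by
    have h1 : 0 ≤ Real.sin (Real.pi / 8) := by
      apply Real.sin_nonneg_of_nonneg_of_le_pi
      · positivity
      · linarith [Real.pi_pos]
    positivity
  unfold bb
  rw [← ofReal_pow, Real.sq_sqrt h0, sin_2lam, ← AOm_lam, ← ofReal_sin, ← ofReal_mul]
  congr 1
  ring

section ids

variable (u : ℂ)

private theorem AOm_rel : ∃ c s h C S : ℂ, cos lam = c ∧ sin lam = s ∧ sin (2 * lam) = h ∧ cos (2 * lam) = h ∧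
    cos u = C ∧ sin u = S ∧ h ^ 2 = 1 / 2 ∧ 2 * s * c = h ∧ c ^ 2 - s ^ 2 = h ∧ s ^ 2 + c ^ 2 = 1 ∧
    S ^ 2 + C ^ 2 = 1 := by
  refine ⟨_, _, _, _, _, rfl, rfl, rfl, ?_, rfl, rfl, ?_, ?_, ?_, ?_, ?_⟩
  · rw [sin_2lam, cos_2lam]
  · rw [sin_2lam, ← ofReal_pow, div_pow, Real.sq_sqrt (by norm_num)]
    push_cast
    norm_num
  · rw [sin_two_mul]
  · rw [sin_2lam, ← cos_2lam, cos_two_mul]
    linear_combination (-1 : ℂ) * sin_sq_add_cos_sq lam
  · exact sin_sq_add_cos_sq lam
  · exact sin_sq_add_cos_sq u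

theorem id00 : kk u * (cos aa * cos (u + aa)) + w4 u * bb ^ 2 = kk (-u) * (cos aa * cos (u - aa)) := by
  obtain ⟨c, s, h, C, S, hc, hs, hh, hh', hC, hS, h1, h2, h3, h4, h5⟩ := AOm_rel u
  rw [bb_sq]
  unfold kk w4 aa
  rw [← sub_eq_add_neg, ← sub_eq_add_neg, sin_add, sin_add, sin_sub, sin_sub, cos_add, cos_sub, sin_3lam,
    cos_3lam, hc, hs, hh, hh', hC, hS]
  linear_combination (h * s * S * (C ^ 2 - S ^ 2)) * h2 + (-2 * h * s * S * C ^ 2) * h3 + (-h ^ 2 * s * S) * h5

theorem id01 : w6 u * cos aa + w2 u * cos (u + aa) = kk (-u) * cos aa := by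
  obtain ⟨c, s, h, C, S, hc, hs, hh, hh', hC, hS, h1, h2, h3, h4, h5⟩ := AOm_rel u
  unfold kk w6 w2 aa
  rw [← sub_eq_add_neg, ← sub_eq_add_neg, sin_sub, sin_sub, cos_add, sin_3lam,
    cos_3lam, hc, hs, hh, hh', hC, hS]
  linear_combination (c * C - s * S) * S * (s * (-h4 - h3 + h2) + (c - s) * h2)

theorem id10 : w6 u * cos (u + aa) + w2 u * cos aa = kk (-u) * cos (u - aa) := by
  obtain ⟨c, s, h, C, S, hc, hs, hh, hh', hC, hS, h1, h2, h3, h4, h5⟩ := AOm_rel u
  unfold kk w6 w2 aa
  rw [← sub_eq_add_neg, ← sub_eq_add_neg, sin_sub, sin_sub, cos_add, cos_sub, sin_3lam,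
    cos_3lam, hc, hs, hh, hh', hC, hS]
  linear_combination (c * C - s * S) * (S * C * (s * (-h4 - h3 + h2) + (c - s) * h2) + S ^ 2 * (-(c + s) * h2 + c * (h4 - h3 + h2)) - h * s * h5)

theorem id11 : w9 u * bb ^ 2 + w4 u * (cos aa * cos (u + aa)) = 0 := by
  obtain ⟨c, s, h, C, S, hc, hs, hh, hh', hC, hS, h1, h2, h3, h4, h5⟩ := AOm_rel u
  rw [bb_sq]
  unfold w9 w4 aa
  rw [sin_sub, cos_add, sin_3lam, cos_3lam, hc, hs, hh, hC, hS]
  ring

end ids

/-! ### the product functional -/

section om

variable {ι : Type*} [DecidableEq ι] [Fintype ι]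

/-- product over the labels other than `p`, `q` -/
noncomputable def omr (α : ι → ℂ) (p q : ι) (m : St ι) : ℂ :=
  ∏ i ∈ (univ.erase p).erase q, if m i = i then α i else bb

theorem Om_split (α : ι → ℂ) {p q : ι} (hpq : p ≠ q) (m : St ι) :
    Om α m = (if m p = p then α p else bb) * (if m q = q then α q else bb) * omr α p q m := by
  unfold Om omr
  rw [← mul_prod_erase univ _ (mem_univ p),
    ← mul_prod_erase (univ.erase p) _ (mem_erase.2 ⟨hpq.symm, mem_univ q⟩), mul_assoc]

theorem omr_congr {α β : ι → ℂ} {p q : ι} {m n : St ι} (h : ∀ i, i ≠ p → i ≠ q → (m i = i ↔ n i = i))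
    (hα : ∀ i, i ≠ p → i ≠ q → α i = β i) : omr α p q m = omr β p q n := by
  unfold omr
  refine prod_congr rfl fun i hi => ?_
  rw [mem_erase, mem_erase] at hi
  simp only [h i hi.2.1 hi.1, hα i hi.2.1 hi.1]

omit [Fintype ι] in
theorem sw_apply (p q : ι) (m : St ι) (i : ι) :
    m.sw p q i = Equiv.swap p q (m (Equiv.swap p q i)) := rfl

omit [Fintype ι] in
theorem sw_left (p q : ι) (m : St ι) : m.sw p q p = p ↔ m q = q := by
  rw [sw_apply, Equiv.swap_apply_left]
  constructor
  · intro h
    have := congrArg (Equiv.swap p q) h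
    simpa using this
  · intro h
    rw [h, Equiv.swap_apply_right]

omit [Fintype ι] in
theorem sw_right (p q : ι) (m : St ι) : m.sw p q q = q ↔ m p = p := by
  rw [sw_apply, Equiv.swap_apply_right]
  constructor
  · intro h
    have := congrArg (Equiv.swap p q) h
    simpa using this
  · intro h
    rw [h, Equiv.swap_apply_left]

omit [Fintype ι] in
theorem sw_other {p q : ι} {m : St ι} {i : ι} (hp : i ≠ p) (hq : i ≠ q) : m.sw p q i = i ↔ m i = i := by
  rw [sw_apply, Equiv.swap_apply_of_ne_of_ne hp hq]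
  constructor
  · intro h
    have := congrArg (Equiv.swap p q) h
    rw [Equiv.swap_apply_of_ne_of_ne hp hq] at this
    simpa using this
  · intro h
    rw [h, Equiv.swap_apply_of_ne_of_ne hp hq]

omit [Fintype ι] in
theorem jn_apply {p q : ι} {m : St ι} (hp : m p = p) (hq : m q = q) (i : ι) :
    m.jn p q i = if i = p then q else if i = q then p else m i := by
  have h : m.jn p q = ⟨St.jnf p q m, St.jnf_inv p q m hp hq⟩ := dif_pos ⟨hp, hq⟩
  rw [h]
  rfl

omit [Fintype ι] in
theorem cp_apply {p q : ι} {m : St ι} (hp : m p ≠ p) (hq : m q ≠ q) (i : ι) :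
    m.cp p q i = if i = p then p else if i = q then q else
      if i = m p then m q else if i = m q then m p else m i := by
  have h : m.cp p q = ⟨St.cpf p q m, St.cpf_inv p q m hp hq⟩ := dif_pos ⟨hp, hq⟩
  rw [h]
  rfl

omit [Fintype ι] in
theorem jn_left {p q : ι} (hpq : p ≠ q) {m : St ι} (hp : m p = p) (hq : m q = q) : m.jn p q p ≠ p := by
  rw [jn_apply hp hq, if_pos rfl]
  exact hpq.symm

omit [Fintype ι] in
theorem jn_right {p q : ι} (hpq : p ≠ q) {m : St ι} (hp : m p = p) (hq : m q = q) : m.jn p q q ≠ q := by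
  rw [jn_apply hp hq, if_neg hpq.symm, if_pos rfl]
  exact hpq

omit [Fintype ι] in
theorem jn_other {p q : ι} {m : St ι} (hp : m p = p) (hq : m q = q) {i : ι} (hip : i ≠ p) (hiq : i ≠ q) :
    m.jn p q i = i ↔ m i = i := by
  rw [jn_apply hp hq, if_neg hip, if_neg hiq]

omit [Fintype ι] in
theorem cp_left {p q : ι} {m : St ι} (hp : m p ≠ p) (hq : m q ≠ q) : m.cp p q p = p := by
  rw [cp_apply hp hq, if_pos rfl]

omit [Fintype ι] in
theorem cp_right {p q : ι} {m : St ι} (hp : m p ≠ p) (hq : m q ≠ q) : m.cp p q q = q := by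
  rw [cp_apply hp hq]
  by_cases h : q = p
  · rw [if_pos h, h]
  · rw [if_neg h, if_pos rfl]

omit [Fintype ι] in
theorem cp_other {p q : ι} (hpq : p ≠ q) {m : St ι} (hp : m p ≠ p) (hq : m q ≠ q) {i : ι} (hip : i ≠ p)
    (hiq : i ≠ q) : m.cp p q i = i ↔ m i = i := by
  rw [cp_apply hp hq, if_neg hip, if_neg hiq]
  have hne : m p ≠ m q := fun h => hpq (m.inj h)
  split_ifs with h1 h2
  · subst h1
    constructor
    · intro h
      exact absurd h.symm hne
    · intro h
      rw [m.inv] at h
      exact absurd h.symm hip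
  · subst h2
    constructor
    · intro h
      exact absurd h hne
    · intro h
      rw [m.inv] at h
      exact absurd h.symm hiq
  · exact Iff.rfl

/-- Pair propagation (step 2): the R-matrix of two lines maps a product functional to a product
functional. -/
theorem Rt_Om {p q : ι} (hpq : p ≠ q) (u : ℂ) {α : ι → ℂ} (hp : α p = cos aa)
    (hq : α q = cos (u + aa)) :
    Rt p q u (Om α) = fun m => kk (-u) * Om (Function.update α q (cos (u - aa))) m := by
  funext m
  have hup : Function.update α q (cos (u - aa)) p = cos aa := by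
    rw [Function.update_of_ne hpq, hp]
  have huq : Function.update α q (cos (u - aa)) q = cos (u - aa) := Function.update_self ..
  have hother : ∀ n : St ι, (∀ i, i ≠ p → i ≠ q → (n i = i ↔ m i = i)) →
      omr α p q n = omr (Function.update α q (cos (u - aa))) p q m := fun n hn =>
    omr_congr hn fun i _ hi => (Function.update_of_ne hi _ _).symm
  have e0 := hother m fun _ _ _ => Iff.rfl
  have e1 := hother (m.sw p q) fun i h1 h2 => sw_other h1 h2
  rw [Om_split (Function.update α q (cos (u - aa))) hpq m, hup, huq]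
  unfold Rt
  by_cases h1 : m p = p
  · by_cases h2 : m q = q
    · rw [if_pos h1, if_pos h2, if_pos h1, if_pos h2, Om_split α hpq m, Om_split α hpq (m.jn p q),
        if_pos h1, if_pos h2, if_neg (jn_left hpq h1 h2), if_neg (jn_right hpq h1 h2), hp, hq, e0,
        hother (m.jn p q) fun i h3 h4 => jn_other h1 h2 h3 h4]
      linear_combination omr (Function.update α q (cos (u - aa))) p q m * id00 u
    · rw [if_pos h1, if_neg h2, if_pos h1, if_neg h2, Om_split α hpq m, Om_split α hpq (m.sw p q),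
        if_pos h1, if_neg h2, if_neg (fun h => h2 ((sw_left p q m).1 h)), if_pos ((sw_right p q m).2 h1),
        hp, hq, e0, e1]
      linear_combination bb * omr (Function.update α q (cos (u - aa))) p q m * id01 u
  · by_cases h2 : m q = q
    · rw [if_neg h1, if_pos h2, if_neg h1, if_pos h2, Om_split α hpq m, Om_split α hpq (m.sw p q),
        if_neg h1, if_pos h2, if_pos ((sw_left p q m).2 h2), if_neg (fun h => h1 ((sw_right p q m).1 h)),
        hp, hq, e0, e1]
      linear_combination bb * omr (Function.update α q (cos (u - aa))) p q m * id10 u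
    · have h8 : w8 u = kk (-u) := by
        unfold w8 kk
        rw [← sub_eq_add_neg, ← sub_eq_add_neg]
      by_cases h3 : m p = q
      · rw [if_neg h1, if_neg h2, if_pos h3, if_neg h1, if_neg h2, Om_split α hpq m, if_neg h1, if_neg h2,
          e0, h8]
      · have c1 := cp_left (p := p) (q := q) h1 h2
        have c2 := cp_right (p := p) (q := q) h1 h2
        have c3 : ∀ i, i ≠ p → i ≠ q → (m.cp p q i = i ↔ m i = i) := fun i h4 h5 =>
          cp_other hpq h1 h2 h4 h5
        rw [if_neg h1, if_neg h2, if_neg h3, if_neg h1, if_neg h2, Om_split α hpq (m.sw p q),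
          Om_split α hpq ((m.cp p q).jn p q), Om_split α hpq (m.cp p q), if_pos c1, if_pos c2,
          if_neg (jn_left hpq c1 c2), if_neg (jn_right hpq c1 c2),
          if_neg (fun h => h2 ((sw_left p q m).1 h)), if_neg (fun h => h1 ((sw_right p q m).1 h)),
          hp, hq, e1, hother _ c3,
          hother _ fun i h4 h5 => (jn_other c1 c2 h4 h5).trans (c3 i h4 h5), h8]
        linear_combination omr (Function.update α q (cos (u - aa))) p q m * id11 u

/-- Pair propagation in the variable `y = u + a`. -/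
theorem Rt_Om' {p q : ι} (hpq : p ≠ q) (y : ℂ) {α : ι → ℂ} (hp : α p = cos aa) (hq : α q = cos y) :
    Rt p q (y - aa) (Om α) =
      fun m => kk (aa - y) * Om (Function.update α q (cos (y - 2 * aa))) m := by
  have h := Rt_Om hpq (y - aa) (α := α) hp (by rw [hq, sub_add_cancel])
  rw [h, neg_sub, show y - aa - aa = y - 2 * aa by ring]

end om

end Pool.Agent.BEX
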