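import Pool.Agent.BEX.AProp

/-!
# BEX, part A: transport of the line `j` around the cylinder (note 3044, step 3)

`R l` is the fixed functional of the lines in the order `l`. With exchange (`hex`) and rotation
(`hrot`), moving the line `j` through all other lines and around the cylinder gives the relation
between `Φ (u_j + a)` and `Φ (u_j - a)`, where `Φ v = R l (Om (cos (v - u_i)))`.
-/

namespace Pool.Agent.BEX

open Complex Finset

variable {ι : Type*} [DecidableEq ι]

theorem Rt_cmul (p q : ι) (u c : ℂ) (F : St ι → ℂ) :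
    Rt p q u (fun m => c * F m) = fun m => c * Rt p q u F m := by
  funext m
  unfold Rt
  split_ifs <;> ring

/-- The line `j` crosses the lines of `l` one after the other (first the head of `l`). -/
noncomputable def cross (j : ι) (U : ι → ℂ) (l : List ι) (F : St ι → ℂ) : St ι → ℂ :=
  l.foldr (fun i G => Rt j i (U j - U i) G) F

theorem cross_Om [Fintype ι] (j : ι) (U : ι → ℂ) (l : List ι) (hl : (j :: l).Nodup) (α : ι → ℂ)
    (hj : α j = cos aa) (hα : ∀ i ∈ l, α i = cos (U j - U i + aa)) :
    cross j U l (Om α) = fun m => (l.map fun i => kk (U i - U j)).prod *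
      Om (fun i => if i ∈ l then cos (U j - U i - aa) else α i) m := by
  induction l with
  | nil =>
    funext m
    simp [cross]
  | cons a l ih =>
    have hja : j ≠ a := fun h => (List.nodup_cons.1 hl).1 (h ▸ List.mem_cons_self)
    have hjl : j ∉ l := fun h => (List.nodup_cons.1 hl).1 (List.mem_cons_of_mem a h)
    have hal : a ∉ l := (List.nodup_cons.1 (List.nodup_cons.1 hl).2).1
    have hl' : (j :: l).Nodup := List.nodup_cons.2 ⟨hjl, (List.nodup_cons.1 (List.nodup_cons.1 hl).2).2⟩
    have ih' := ih hl' fun i hi => hα i (List.mem_cons_of_mem a hi)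
    have h1 : cross j U (a :: l) (Om α) = Rt j a (U j - U a) (cross j U l (Om α)) := rfl
    rw [h1, ih', Rt_cmul, Rt_Om hja (U j - U a) (α := fun i => if i ∈ l then cos (U j - U i - aa) else α i)
      (by simp only [if_neg hjl, hj]) (by simp only [if_neg hal, hα a List.mem_cons_self])]
    funext m
    rw [List.map_cons, List.prod_cons, neg_sub]
    have h2 : Function.update (fun i => if i ∈ l then cos (U j - U i - aa) else α i) a
        (cos (U j - U a - aa)) = fun i => if i ∈ a :: l then cos (U j - U i - aa) else α i := by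
      funext i
      by_cases h : i = a
      · subst h
        rw [Function.update_self, if_pos List.mem_cons_self]
      · rw [Function.update_of_ne h]
        simp only [List.mem_cons, h, false_or]
    rw [h2]
    ring

/-- The product functional with the weights `cos (v - u_i)`, applied to a functional. -/
noncomputable def Ph [Fintype ι] (ρ : (St ι → ℂ) → ℂ) (U : ι → ℂ) (v : ℂ) : ℂ :=
  ρ (Om fun i => cos (v - U i))

section step3

variable (U : ι → ℂ) (R : List ι → (St ι → ℂ) → ℂ)
  (hex : ∀ (l1 l2 : List ι) (p q : ι), (l1 ++ p :: q :: l2).Nodup → (∀ i, i ∈ l1 ++ p :: q :: l2) →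
    ∀ F, R (l1 ++ p :: q :: l2) (Rt p q (U p - U q) F) = kk (U p - U q) * R (l1 ++ q :: p :: l2) F)
  (hrot : ∀ (j : ι) (l : List ι), (j :: l).Nodup → (∀ i, i ∈ j :: l) → ∀ F, R (j :: l) F = R (l ++ [j]) F)

include hex in
theorem cross_R (j : ι) (l l1 l2 : List ι) (hn : (l1 ++ j :: (l ++ l2)).Nodup)
    (hm : ∀ i, i ∈ l1 ++ j :: (l ++ l2)) (F : St ι → ℂ) :
    R (l1 ++ j :: (l ++ l2)) (cross j U l F) =
      (l.map fun i => kk (U j - U i)).prod * R (l1 ++ l ++ j :: l2) F := by
  induction l generalizing l1 with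
  | nil => simp [cross]
  | cons a l ih =>
    have h1 : cross j U (a :: l) F = Rt j a (U j - U a) (cross j U l F) := rfl
    have hp : (l1 ++ j :: ((a :: l) ++ l2)).Perm ((l1 ++ [a]) ++ j :: (l ++ l2)) := by
      rw [List.append_assoc]
      exact List.Perm.append_left l1 (List.Perm.swap a j (l ++ l2))
    have hn' := hp.nodup_iff.1 hn
    have hm' : ∀ i, i ∈ (l1 ++ [a]) ++ j :: (l ++ l2) := fun i => hp.mem_iff.1 (hm i)
    have h2 := ih (l1 ++ [a]) hn' hm'
    have h3 := hex l1 (l ++ l2) j a hn hm (cross j U l F)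
    rw [h1, List.cons_append, h3, List.map_cons, List.prod_cons, mul_assoc]
    congr 1
    have h4 : l1 ++ a :: j :: (l ++ l2) = (l1 ++ [a]) ++ j :: (l ++ l2) := by simp
    rw [h4, h2]
    congr 2
    simp

omit [DecidableEq ι] in
include hrot in
theorem rot_R (l1 l2 : List ι) (hn : (l1 ++ l2).Nodup) (hm : ∀ i, i ∈ l1 ++ l2) (F : St ι → ℂ) :
    R (l1 ++ l2) F = R (l2 ++ l1) F := by
  induction l1 generalizing l2 with
  | nil => simp
  | cons a l1 ih =>
    have h1 := hrot a (l1 ++ l2) hn hm F
    rw [List.cons_append, h1, List.append_assoc]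
    have hp : (a :: l1 ++ l2).Perm (l1 ++ (l2 ++ [a])) := by
      rw [← List.append_assoc]
      exact (List.perm_append_singleton a (l1 ++ l2)).symm
    rw [ih (l2 ++ [a]) (hp.nodup_iff.1 hn) fun i => hp.mem_iff.1 (hm i)]
    congr 1
    simp

include hex hrot in
/-- Step 3 for the first line. -/
theorem step3_head [Fintype ι] (hsm : ∀ l c F, R l (fun m => c * F m) = c * R l F) (j : ι) (l : List ι)
    (hn : (j :: l).Nodup) (hm : ∀ i, i ∈ j :: l) :
    (l.map fun i => kk (U j - U i)).prod * Ph (R (j :: l)) U (U j + aa) =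
      (l.map fun i => kk (U i - U j)).prod * Ph (R (j :: l)) U (U j - aa) := by
  have h1 := cross_R U R hex j l [] [] (by simpa using hn) (by simpa using hm)
    (Om fun i => cos (U j + aa - U i))
  have h2 := cross_Om j U l hn (fun i => cos (U j + aa - U i))
    (by rw [show U j + aa - U j = aa by ring]) (fun i _ => by rw [show U j + aa - U i = U j - U i + aa by ring])
  rw [h2, hsm] at h1
  simp only [List.nil_append, List.append_nil] at h1
  rw [← hrot j l hn hm] at h1
  unfold Ph
  rw [← h1]
  congr 2
  congr 1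
  funext i
  rcases List.mem_cons.1 (hm i) with h | h
  · subst h
    rw [if_neg (List.nodup_cons.1 hn).1, show U i + aa - U i = aa by ring, show U i - aa - U i = -aa by ring,
      cos_neg]
  · rw [if_pos h, show U j - aa - U i = U j - U i - aa by ring]

include hex hrot in
/-- Step 3: the relation between `Φ (u_j + a)` and `Φ (u_j - a)`, for every line `j` and every
order `l` of the lines. -/
theorem step3 [Fintype ι] (hsm : ∀ l c F, R l (fun m => c * F m) = c * R l F) (l : List ι)
    (hn : l.Nodup) (hm : ∀ i, i ∈ l) (j : ι) :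
    (∏ i ∈ univ.erase j, kk (U j - U i)) * Ph (R l) U (U j + aa) =
      (∏ i ∈ univ.erase j, kk (U i - U j)) * Ph (R l) U (U j - aa) := by
  obtain ⟨l1, l2, rfl⟩ := List.append_of_mem (hm j)
  have hr : ∀ F, R (l1 ++ j :: l2) F = R (j :: (l2 ++ l1)) F := fun F => rot_R R hrot l1 (j :: l2) hn hm F
  have hR : R (l1 ++ j :: l2) = R (j :: (l2 ++ l1)) := funext hr
  have hp : (l1 ++ j :: l2).Perm (j :: (l2 ++ l1)) := by
    have := List.perm_append_comm (l₁ := l1) (l₂ := j :: l2)
    simpa using this
  have hn' := hp.nodup_iff.1 hn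
  have hm' : ∀ i, i ∈ j :: (l2 ++ l1) := fun i => hp.mem_iff.1 (hm i)
  have h := step3_head U R hex hrot hsm j (l2 ++ l1) hn' hm'
  have hprod : ∀ f : ι → ℂ, ∏ i ∈ univ.erase j, f i = ((l2 ++ l1).map f).prod := by
    intro f
    rw [← List.prod_toFinset f (List.nodup_cons.1 hn').2]
    refine prod_congr ?_ fun _ _ => rfl
    ext i
    rw [mem_erase, List.mem_toFinset]
    constructor
    · rintro ⟨h1, -⟩
      rcases List.mem_cons.1 (hm' i) with h2 | h2
      · exact absurd h2 h1
      · exact h2
    · intro h1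
      refine ⟨?_, mem_univ i⟩
      rintro rfl
      exact (List.nodup_cons.1 hn').1 h1
  rw [hR, hprod, hprod]
  exact h

end step3

end Pool.Agent.BEX
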