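import Pool.Agent.BEX.ACapRt

/-!
# BEX: the uncrossing inequality, local operators

`UncF F`: for every state `s` with the arcs `a - c`, `b - d` (four different labels)
`F s ≤ F s₁ + F s₂`, where `s₁` has the arcs `a - d`, `b - c` and `s₂` the arcs `a - b`, `c - d` instead.
Every local operator with non-negative weights and with loops of weight `0` preserves this property.
-/

set_option linter.unusedSectionVars false
set_option linter.unusedVariables false

namespace Pool.Agent.BEX.Unc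

open Pool.Agent.BEX

variable {ι : Type*} [DecidableEq ι]

/-- The uncrossing inequality. -/
def UncF (F : St ι → ℝ) : Prop :=
  ∀ (s : St ι) (a b c d : ι), a ≠ b → a ≠ c → a ≠ d → b ≠ c → b ≠ d → c ≠ d → s a = c → s b = d →
    F s ≤ F (s.sw c d) + F (s.sw b c)

/-- local operator with real weights (`rho9 = 0`) -/
noncomputable def lopG (k e w6 w2 w8 w4 : ℝ) (p q : ι) (F : St ι → ℝ) (m : St ι) : ℝ :=
  if m p = p then
    if m q = q then k * F m + e * F (m.jn p q)
    else w6 * F m + w2 * F (m.sw p q)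
  else if m q = q then w6 * F m + w2 * F (m.sw p q)
  else if m p = q then w8 * F m
  else w8 * F (m.sw p q) + w4 * F (m.cp p q)

section steps

variable {k e w6 w2 w8 w4 : ℝ} {p q : ι} {F : St ι → ℝ} {m t t1 t3 : St ι}

theorem g_ee (h1 : m p = p) (h2 : m q = q) :
    lopG k e w6 w2 w8 w4 p q F m = k * F m + e * F (m.jn p q) := by
  unfold lopG
  rw [if_pos h1, if_pos h2]

theorem g_eo (h1 : m p = p) (h2 : m q ≠ q) :
    lopG k e w6 w2 w8 w4 p q F m = w6 * F m + w2 * F (m.sw p q) := by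
  unfold lopG
  rw [if_pos h1, if_neg h2]

theorem g_oe (h1 : m p ≠ p) (h2 : m q = q) :
    lopG k e w6 w2 w8 w4 p q F m = w6 * F m + w2 * F (m.sw p q) := by
  unfold lopG
  rw [if_neg h1, if_pos h2]

theorem g_jj (h1 : m p ≠ p) (h2 : m q ≠ q) (h3 : m p = q) :
    lopG k e w6 w2 w8 w4 p q F m = w8 * F m := by
  unfold lopG
  rw [if_neg h1, if_neg h2, if_pos h3]

theorem g_oo (h1 : m p ≠ p) (h2 : m q ≠ q) (h3 : m p ≠ q) :
    lopG k e w6 w2 w8 w4 p q F m = w8 * F (m.sw p q) + w4 * F (m.cp p q) := by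
  unfold lopG
  rw [if_neg h1, if_neg h2, if_neg h3]

theorem lopG_nonneg (hk : 0 ≤ k) (he : 0 ≤ e) (h6 : 0 ≤ w6) (h2 : 0 ≤ w2) (h8 : 0 ≤ w8)
    (h4 : 0 ≤ w4) (hF : ∀ m, 0 ≤ F m) (m : St ι) : 0 ≤ lopG k e w6 w2 w8 w4 p q F m := by
  unfold lopG
  have a1 := hF m
  have a2 := hF (m.jn p q)
  have a3 := hF (m.sw p q)
  have a4 := hF (m.cp p q)
  split_ifs <;> positivity

end steps

theorem sw_comm (p q : ι) (m : St ι) : m.sw p q = m.sw q p := by
  ext x
  rw [m.sw_apply, m.sw_apply, Equiv.swap_comm]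

theorem sw_ap' (p q : ι) (m : St ι) (i : ι) :
    (m.sw p q) i = if m (if i = p then q else if i = q then p else i) = p then q else
      if m (if i = p then q else if i = q then p else i) = q then p else
        m (if i = p then q else if i = q then p else i) := by
  rw [m.sw_apply, Equiv.swap_apply_def, Equiv.swap_apply_def]

theorem jn_comm (p q : ι) (m : St ι) : m.jn p q = m.jn q p := by
  by_cases h : m p = p ∧ m q = q
  · ext x
    rw [m.jn_apply p q x h.1 h.2, m.jn_apply q p x h.2 h.1]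
    grind
  · rw [m.jn_junk p q h, m.jn_junk q p fun h' => h ⟨h'.2, h'.1⟩]

theorem cp_comm (p q : ι) (m : St ι) : m.cp p q = m.cp q p := by
  by_cases h : m p ≠ p ∧ m q ≠ q
  · have i1 := m.inv p
    have i2 := m.inv q
    ext x
    rw [m.cp_apply p q x h.1 h.2, m.cp_apply q p x h.2 h.1]
    obtain ⟨h1, h2⟩ := h
    grind (splits := 40)
  · rw [m.cp_junk p q h, m.cp_junk q p fun h' => h ⟨h'.2, h'.1⟩]

theorem lopG_comm (k e w6 w2 w8 w4 : ℝ) (p q : ι) (F : St ι → ℝ) (m : St ι) :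
    lopG k e w6 w2 w8 w4 p q F m = lopG k e w6 w2 w8 w4 q p F m := by
  by_cases hp : m p = p
  · by_cases hq : m q = q
    · rw [g_ee hp hq, g_ee hq hp, jn_comm]
    · rw [g_eo hp hq, g_oe hq hp, sw_comm]
  · by_cases hq : m q = q
    · rw [g_oe hp hq, g_eo hq hp, sw_comm]
    · by_cases h : m p = q
      · have h' : m q = p := by rw [← h]; simp
        rw [g_jj hp hq h, g_jj hq hp h']
      · have h' : m q ≠ p := fun h' => h (by rw [← h']; simp)
        rw [g_oo hp hq h, g_oo hq hp h', sw_comm, cp_comm]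

/-! ### the three matchings of four labels -/

section four

variable {s : St ι} {a b c d : ι} (hab : a ≠ b) (hac : a ≠ c) (had : a ≠ d) (hbc : b ≠ c)
  (hbd : b ≠ d) (hcd : c ≠ d) (h1 : s a = c) (h2 : s b = d)

include hab hac had hbc hbd hcd h1 h2

theorem sw_ab : s.sw a b = s.sw c d := by
  have h3 : s c = a := by rw [← h1]; simp
  have h4 : s d = b := by rw [← h2]; simp
  ext x
  have i := s.inv x
  rw [sw_ap', sw_ap']
  grind (splits := 40)

theorem sw_ad : s.sw a d = s.sw b c := by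
  have h3 : s c = a := by rw [← h1]; simp
  have h4 : s d = b := by rw [← h2]; simp
  ext x
  have i := s.inv x
  rw [sw_ap', sw_ap']
  grind (splits := 40)

theorem val_cd : (s.sw c d) a = d ∧ (s.sw c d) b = c ∧ (s.sw c d) c = b ∧ (s.sw c d) d = a := by
  have h3 : s c = a := by rw [← h1]; simp
  have h4 : s d = b := by rw [← h2]; simp
  refine ⟨?_, ?_, ?_, ?_⟩ <;> rw [sw_ap'] <;> grind (splits := 40)

theorem val_bc : (s.sw b c) a = b ∧ (s.sw b c) b = a ∧ (s.sw b c) c = d ∧ (s.sw b c) d = c := by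
  have h3 : s c = a := by rw [← h1]; simp
  have h4 : s d = b := by rw [← h2]; simp
  refine ⟨?_, ?_, ?_, ?_⟩ <;> rw [sw_ap'] <;> grind (splits := 40)

theorem sw_sw_cd : (s.sw c d).sw c d = s := by
  ext x
  simp [St.sw_apply]

end four

theorem sw_sw_disj (m : St ι) {p q r s : ι} (hpr : p ≠ r) (hps : p ≠ s) (hqr : q ≠ r) (hqs : q ≠ s) :
    (m.sw p q).sw r s = (m.sw r s).sw p q := by
  ext x
  simp only [St.sw_apply]
  have h : ∀ y, Equiv.swap r s (Equiv.swap p q y) = Equiv.swap p q (Equiv.swap r s y) := by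
    intro y
    simp only [Equiv.swap_apply_def]
    grind (splits := 40)
  rw [h, h]

section main

variable {k e w6 w2 w8 w4 : ℝ} (hk : 0 ≤ k) (he : 0 ≤ e) (h6 : 0 ≤ w6) (hw2 : 0 ≤ w2) (h8 : 0 ≤ w8)
  (h4 : 0 ≤ w4) {F : St ι → ℝ} (hF : ∀ m, 0 ≤ F m) (hU : UncF F)

section AB

variable {p q : ι} {s : St ι} {b c d : ι} (hpb : p ≠ b) (hpc : p ≠ c) (hpd : p ≠ d)
  (hqb : q ≠ b) (hqc : q ≠ c) (hqd : q ≠ d)

include hk he h6 hw2 h8 h4 hpb hpc hpd hqb hqc hqd

/-- `p`, `q` are different from `b`, `c`, `d`: everything commutes -/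
theorem lop_of (h0 : F s ≤ F (s.sw c d) + F (s.sw b c))
    (hj : s p = p → s q = q → F (s.jn p q) ≤ F ((s.jn p q).sw c d) + F ((s.jn p q).sw b c))
    (hs : s p ≠ q → ¬ (s p = p ∧ s q = q) → F (s.sw p q) ≤ F ((s.sw p q).sw c d) + F ((s.sw p q).sw b c))
    (hc : s p ≠ p → s q ≠ q → s p ≠ q → F (s.cp p q) ≤ F ((s.cp p q).sw c d) + F ((s.cp p q).sw b c)) :
    lopG k e w6 w2 w8 w4 p q F s ≤ lopG k e w6 w2 w8 w4 p q F (s.sw c d) +
      lopG k e w6 w2 w8 w4 p q F (s.sw b c) := by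
  have a1 : (s.sw c d) p = p ↔ s p = p := s.sw_fix hpc.symm hpd.symm hpc.symm hpd.symm
  have a2 : (s.sw c d) q = q ↔ s q = q := s.sw_fix hqc.symm hqd.symm hqc.symm hqd.symm
  have a3 : (s.sw c d) p = q ↔ s p = q := s.sw_fix hpc.symm hpd.symm hqc.symm hqd.symm
  have b1 : (s.sw b c) p = p ↔ s p = p := s.sw_fix hpb.symm hpc.symm hpb.symm hpc.symm
  have b2 : (s.sw b c) q = q ↔ s q = q := s.sw_fix hqb.symm hqc.symm hqb.symm hqc.symm
  have b3 : (s.sw b c) p = q ↔ s p = q := s.sw_fix hpb.symm hpc.symm hqb.symm hqc.symm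
  have e1 : (s.sw c d).jn p q = (s.jn p q).sw c d := s.sw_jn hpc.symm hqc.symm hpd.symm hqd.symm
  have e2 : (s.sw b c).jn p q = (s.jn p q).sw b c := s.sw_jn hpb.symm hqb.symm hpc.symm hqc.symm
  have e3 : (s.sw c d).cp p q = (s.cp p q).sw c d := s.sw_cp hpc.symm hqc.symm hpd.symm hqd.symm
  have e4 : (s.sw b c).cp p q = (s.cp p q).sw b c := s.sw_cp hpb.symm hqb.symm hpc.symm hqc.symm
  have e5 : (s.sw c d).sw p q = (s.sw p q).sw c d := sw_sw_disj s hpc.symm hqc.symm hpd.symm hqd.symm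
  have e6 : (s.sw b c).sw p q = (s.sw p q).sw b c := sw_sw_disj s hpb.symm hqb.symm hpc.symm hqc.symm
  by_cases hp : s p = p
  · by_cases hq : s q = q
    · rw [g_ee hp hq, g_ee (a1.2 hp) (a2.2 hq), g_ee (b1.2 hp) (b2.2 hq), e1, e2]
      nlinarith [mul_le_mul_of_nonneg_left h0 hk, mul_le_mul_of_nonneg_left (hj hp hq) he]
    · have hne : s p ≠ q := fun h => hq (by rw [← h]; simp [hp])
      rw [g_eo hp hq, g_eo (a1.2 hp) (fun h => hq (a2.1 h)), g_eo (b1.2 hp) (fun h => hq (b2.1 h)), e5, e6]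
      nlinarith [mul_le_mul_of_nonneg_left h0 h6,
        mul_le_mul_of_nonneg_left (hs hne fun h => hq h.2) hw2]
  · by_cases hq : s q = q
    · have hne : s p ≠ q := fun h => hp (by
        have := s.inv p
        rw [h, hq] at this
        rw [h, this])
      rw [g_oe hp hq, g_oe (fun h => hp (a1.1 h)) (a2.2 hq), g_oe (fun h => hp (b1.1 h)) (b2.2 hq), e5, e6]
      nlinarith [mul_le_mul_of_nonneg_left h0 h6,
        mul_le_mul_of_nonneg_left (hs hne fun h => hp h.1) hw2]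
    · by_cases hl : s p = q
      · rw [g_jj hp hq hl, g_jj (fun h => hp (a1.1 h)) (fun h => hq (a2.1 h)) (a3.2 hl),
          g_jj (fun h => hp (b1.1 h)) (fun h => hq (b2.1 h)) (b3.2 hl)]
        nlinarith [mul_le_mul_of_nonneg_left h0 h8]
      · rw [g_oo hp hq hl, g_oo (fun h => hp (a1.1 h)) (fun h => hq (a2.1 h)) (fun h => hl (a3.1 h)),
          g_oo (fun h => hp (b1.1 h)) (fun h => hq (b2.1 h)) (fun h => hl (b3.1 h)), e3, e4, e5, e6]
        nlinarith [mul_le_mul_of_nonneg_left (hs hl fun h => hp h.1) h8,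
          mul_le_mul_of_nonneg_left (hc hp hq hl) h4]

end AB

variable {p q : ι} (hpq : p ≠ q) {s : St ι} {a b c d : ι} (hab : a ≠ b) (hac : a ≠ c) (had : a ≠ d) (hbc : b ≠ c)
  (hbd : b ≠ d) (hcd : c ≠ d) (h1 : s a = c) (h2 : s b = d)

include hk he h6 hw2 h8 h4 hF hU hpq hab hac had hbc hbd hcd h1 h2

/-- case A: `p`, `q` are different from the four labels -/
theorem caseA (hpa : p ≠ a) (hpb : p ≠ b) (hpc : p ≠ c) (hpd : p ≠ d)
    (hqa : q ≠ a) (hqb : q ≠ b) (hqc : q ≠ c) (hqd : q ≠ d) :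
    lopG k e w6 w2 w8 w4 p q F s ≤ lopG k e w6 w2 w8 w4 p q F (s.sw c d) +
      lopG k e w6 w2 w8 w4 p q F (s.sw b c) := by
  refine lop_of hk he h6 hw2 h8 h4 hpb hpc hpd hqb hqc hqd
    (hU s a b c d hab hac had hbc hbd hcd h1 h2) ?_ ?_ ?_
  · intro hp hq
    exact hU _ a b c d hab hac had hbc hbd hcd (by rw [s.jn_fix hpa hqa]; exact h1)
      (by rw [s.jn_fix hpb hqb]; exact h2)
  · intro _ _
    exact hU _ a b c d hab hac had hbc hbd hcd ((s.sw_fix hpa hqa hpc hqc).2 h1)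
      ((s.sw_fix hpb hqb hpd hqd).2 h2)
  · intro _ _ _
    exact hU _ a b c d hab hac had hbc hbd hcd (s.cp_arc hpa hqa hpc hqc h1)
      (s.cp_arc hpb hqb hpd hqd h2)

/-- case B: `p = a`, `q` is different from the four labels -/
theorem caseB (hqa : q ≠ a) (hqb : q ≠ b) (hqc : q ≠ c) (hqd : q ≠ d) :
    lopG k e w6 w2 w8 w4 a q F s ≤ lopG k e w6 w2 w8 w4 a q F (s.sw c d) +
      lopG k e w6 w2 w8 w4 a q F (s.sw b c) := by
  have h3 : s c = a := by rw [← h1]; simp
  have h5 : s d = b := by rw [← h2]; simp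
  refine lop_of hk he h6 hw2 h8 h4 hab hac had hqb hqc hqd
    (hU s a b c d hab hac had hbc hbd hcd h1 h2) ?_ ?_ ?_
  · intro hp hq
    exact absurd (h1.symm.trans hp) hac.symm
  · intro _ _
    refine hU _ q b c d hqb hqc hqd hbc hbd hcd ?_ ((s.sw_fix hab hqb had hqd).2 h2)
    rw [sw_ap']
    grind (splits := 40)
  · intro hp hq hl
    have i := s.inv q
    have k1 : s q ≠ a := fun h => hl (by rw [← h, i])
    have k2 : s q ≠ b := fun h => hqd (by rw [← i, h, h2])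
    have k3 : s q ≠ c := fun h => hqa (by rw [← i, h, h3])
    have k4 : s q ≠ d := fun h => hqb (by rw [← i, h, h5])
    refine hU _ (s q) b c d k2 k3 k4 hbc hbd hcd ?_ (s.cp_arc hab hqb had hqd h2)
    rw [s.cp_apply _ _ _ hp hq]
    grind (splits := 40)

/-- case C1: `p = a`, `q = c` are joined -/
theorem caseC1 : lopG k e w6 w2 w8 w4 a c F s ≤ lopG k e w6 w2 w8 w4 a c F (s.sw c d) +
      lopG k e w6 w2 w8 w4 a c F (s.sw b c) := by
  have h3 : s c = a := by rw [← h1]; simp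
  have h5 : s d = b := by rw [← h2]; simp
  obtain ⟨u1, u2, u3, u4⟩ := val_cd hab hac had hbc hbd hcd h1 h2
  obtain ⟨v1, v2, v3, v4⟩ := val_bc hab hac had hbc hbd hcd h1 h2
  have e1 : (s.sw c d).sw a c = s.sw b c := by
    ext x
    have i := s.inv x
    rw [sw_ap', sw_ap', sw_ap']
    grind (splits := 60)
  have e2 : (s.sw b c).sw a c = s.sw c d := by
    ext x
    have i := s.inv x
    rw [sw_ap', sw_ap', sw_ap']
    grind (splits := 60)
  rw [g_jj (by rw [h1]; exact hac.symm) (by rw [h3]; exact hac) h1,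
    g_oo (by rw [u1]; exact had.symm) (by rw [u3]; exact hbc) (by rw [u1]; exact hcd.symm),
    g_oo (by rw [v1]; exact hab.symm) (by rw [v3]; exact hcd.symm) (by rw [v1]; exact hbc), e1, e2]
  have t1 := hU s a b c d hab hac had hbc hbd hcd h1 h2
  have t2 := mul_nonneg h4 (hF ((s.sw c d).cp a c))
  have t3 := mul_nonneg h4 (hF ((s.sw b c).cp a c))
  nlinarith [mul_le_mul_of_nonneg_left t1 h8]

/-- case C2: `p = a`, `q = b` -/
theorem caseC2 : lopG k e w6 w2 w8 w4 a b F s ≤ lopG k e w6 w2 w8 w4 a b F (s.sw c d) +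
      lopG k e w6 w2 w8 w4 a b F (s.sw b c) := by
  have h3 : s c = a := by rw [← h1]; simp
  have h5 : s d = b := by rw [← h2]; simp
  obtain ⟨u1, u2, u3, u4⟩ := val_cd hab hac had hbc hbd hcd h1 h2
  obtain ⟨v1, v2, v3, v4⟩ := val_bc hab hac had hbc hbd hcd h1 h2
  have e0 : s.sw a b = s.sw c d := sw_ab hab hac had hbc hbd hcd h1 h2
  have e1 : (s.sw c d).sw a b = s := by
    ext x
    have i := s.inv x
    rw [sw_ap', sw_ap']
    grind (splits := 60)
  have p1 : s a ≠ a := by rw [h1]; exact hac.symm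
  have p2 : s b ≠ b := by rw [h2]; exact hbd.symm
  have p3 : (s.sw c d) a ≠ a := by rw [u1]; exact had.symm
  have p4 : (s.sw c d) b ≠ b := by rw [u2]; exact hbc.symm
  have e2 : (s.sw c d).cp a b = s.cp a b := by
    ext x
    have i := s.inv x
    rw [St.cp_apply _ _ _ _ p3 p4, St.cp_apply _ _ _ _ p1 p2, u1, u2, sw_ap']
    grind (splits := 60)
  have t1 := hU (s.sw c d) a b d c hab had hac hbd hbc hcd.symm u1 u2
  have e3 : (s.sw c d).sw d c = s := by
    rw [sw_comm]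
    exact sw_sw_cd hab hac had hbc hbd hcd h1 h2
  have e4 : (s.sw c d).sw b d = s.sw b c := by
    ext x
    have i := s.inv x
    rw [sw_ap', sw_ap', sw_ap']
    grind (splits := 60)
  rw [e3, e4] at t1
  rw [g_oo p1 p2 (by rw [h1]; exact hbc.symm), g_oo p3 p4 (by rw [u1]; exact hbd.symm),
    g_jj (by rw [v1]; exact hab.symm) (by rw [v2]; exact hab) v1, e0, e1, e2]
  nlinarith [mul_le_mul_of_nonneg_left t1 h8]

/-- case C3: `p = a`, `q = d` -/
theorem caseC3 : lopG k e w6 w2 w8 w4 a d F s ≤ lopG k e w6 w2 w8 w4 a d F (s.sw c d) +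
      lopG k e w6 w2 w8 w4 a d F (s.sw b c) := by
  have h3 : s c = a := by rw [← h1]; simp
  have h5 : s d = b := by rw [← h2]; simp
  have t := caseC2 hk he h6 hw2 h8 h4 hF hU hpq had hac hab hcd.symm hbd.symm hbc.symm h1 h5
  have e1 : s.sw c b = s.sw b c := sw_comm _ _ _
  have e2 : s.sw d c = s.sw c d := sw_comm _ _ _
  rw [e1, e2] at t
  linarith

/-- `p = a` -/
theorem case_a (haq : a ≠ q) : lopG k e w6 w2 w8 w4 a q F s ≤ lopG k e w6 w2 w8 w4 a q F (s.sw c d) +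
      lopG k e w6 w2 w8 w4 a q F (s.sw b c) := by
  by_cases q1 : q = b
  · subst q1
    exact caseC2 hk he h6 hw2 h8 h4 hF hU hpq hab hac had hbc hbd hcd h1 h2
  by_cases q2 : q = c
  · subst q2
    exact caseC1 hk he h6 hw2 h8 h4 hF hU hpq hab hac had hbc hbd hcd h1 h2
  by_cases q3 : q = d
  · subst q3
    exact caseC3 hk he h6 hw2 h8 h4 hF hU hpq hab hac had hbc hbd hcd h1 h2
  exact caseB hk he h6 hw2 h8 h4 hF hU hpq hab hac had hbc hbd hcd h1 h2 haq.symm q1 q2 q3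

/-- `p` is one of the four labels -/
theorem case_p (h : p = a ∨ p = b ∨ p = c ∨ p = d) :
    lopG k e w6 w2 w8 w4 p q F s ≤ lopG k e w6 w2 w8 w4 p q F (s.sw c d) +
      lopG k e w6 w2 w8 w4 p q F (s.sw b c) := by
  have h3 : s c = a := by rw [← h1]; simp
  have h5 : s d = b := by rw [← h2]; simp
  have f1 : s.sw a d = s.sw b c := sw_ad hab hac had hbc hbd hcd h1 h2
  have f2 : s.sw a b = s.sw c d := sw_ab hab hac had hbc hbd hcd h1 h2
  rcases h with h | h | h | h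
  · subst h
    exact case_a hk he h6 hw2 h8 h4 hF hU hpq hab hac had hbc hbd hcd h1 h2 hpq
  · subst h
    have t := case_a hk he h6 hw2 h8 h4 hF hU hpq hab.symm hbd hbc had hac hcd.symm h2 h1 hpq
    rw [sw_comm d c, f1] at t
    exact t
  · subst h
    have t := case_a hk he h6 hw2 h8 h4 hF hU hpq hbc.symm hac.symm hcd hab.symm hbd had h3 h2 hpq
    rw [f1, sw_comm b a, f2] at t
    linarith
  · subst h
    have t := case_a hk he h6 hw2 h8 h4 hF hU hpq had.symm hbd.symm hcd.symm hab hac hbc h5 h1 hpq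
    rw [f2] at t
    linarith

end main

/-- Local operators with non-negative weights preserve the uncrossing inequality. -/
theorem UncF.lop {k e w6 w2 w8 w4 : ℝ} (hk : 0 ≤ k) (he : 0 ≤ e) (h6 : 0 ≤ w6) (hw2 : 0 ≤ w2) (h8 : 0 ≤ w8)
    (h4 : 0 ≤ w4) {F : St ι → ℝ} (hF : ∀ m, 0 ≤ F m) (hU : UncF F) {p q : ι} (hpq : p ≠ q) :
    UncF (lopG k e w6 w2 w8 w4 p q F) := by
  intro s a b c d hab hac had hbc hbd hcd h1 h2
  by_cases hp : p = a ∨ p = b ∨ p = c ∨ p = d
  · exact case_p hk he h6 hw2 h8 h4 hF hU hpq hab hac had hbc hbd hcd h1 h2 hp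
  by_cases hq : q = a ∨ q = b ∨ q = c ∨ q = d
  · have t := case_p hk he h6 hw2 h8 h4 hF hU hpq.symm hab hac had hbc hbd hcd h1 h2 hq
    rw [lopG_comm _ _ _ _ _ _ q p, lopG_comm _ _ _ _ _ _ q p, lopG_comm _ _ _ _ _ _ q p] at t
    exact t
  push Not at hp hq
  exact caseA hk he h6 hw2 h8 h4 hF hU hpq hab hac had hbc hbd hcd h1 h2 hp.1 hp.2.1 hp.2.2.1 hp.2.2.2
    hq.1 hq.2.1 hq.2.2.1 hq.2.2.2

end Pool.Agent.BEX.Unc
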