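import Pool.Agent.BEX.AUnc1
import Pool.Agent.BEX.AFix2

/-!
# BEX: the uncrossing inequality, transfer matrix at `v = λ`, `U = 0`

`TR l F` is the real form of `Tt l lam 0 F`; it preserves the uncrossing inequality.
-/

set_option linter.unusedSectionVars false

namespace Pool.Agent.BEX.Unc

open Pool.Agent.BEX

variable {ι : Type*} [DecidableEq ι]

/-! ### caps and cups -/

noncomputable def capR [Fintype ι] (F : St ι → ℝ) (m : St (Option (Option ι))) : ℝ :=
  if m ax = ax then (if m ax' = ax' then F (res m) else 0)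
  else if m ax' = ax' then 0
  else if m ax = ax' then 0
  else F (res (m.cp ax ax'))

noncomputable def cupR (G : St (Option (Option ι)) → ℝ) (m : St ι) : ℝ := G (ext0 m) + G (ext1 m)

noncomputable def capR' [Fintype ι] (F : St ι → ℝ) (m : St (Option (Option ι))) : ℝ :=
  if m ax = ax ∧ m ax' = ax' then F (res m) else 0

theorem capR_eq [Fintype ι] (F : St ι → ℝ) : capR F = lopG 1 0 0 0 0 1 ax ax' (capR' F) := by
  funext m
  unfold capR lopG
  by_cases h1 : m ax = ax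
  · by_cases h2 : m ax' = ax'
    · simp [h1, h2, capR']
    · simp [h1, h2]
  · by_cases h2 : m ax' = ax'
    · simp [h1, h2]
    · by_cases h3 : m ax = ax'
      · simp [h2, h3]
      · have h4 := cp_ax h1 h2
        simp [h1, h2, h3, capR', h4.1, h4.2]

theorem ext0_sw (m : St ι) (p q : ι) : ext0 (m.sw p q) = (ext0 m).sw (lb p) (lb q) := by
  rw [ext0_eq, ext0_eq, Phi_sw]

theorem ext1_sw (m : St ι) (p q : ι) : ext1 (m.sw p q) = (ext1 m).sw (lb p) (lb q) := by
  rw [ext1_eq, ext1_eq, Phi_sw]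

theorem ext1_lb (m : St ι) (i : ι) : ext1 m (lb i) = lb (m i) := by
  rw [ext1_eq, Phi_apply]

theorem capR'_nonneg [Fintype ι] {F : St ι → ℝ} (hF : ∀ m, 0 ≤ F m) (m : St (Option (Option ι))) :
    0 ≤ capR' F m := by
  unfold capR'
  split_ifs
  · exact hF _
  · exact le_rfl

theorem UncF.capR' [Fintype ι] {F : St ι → ℝ} (hF : ∀ m, 0 ≤ F m) (hU : UncF F) : UncF (capR' F) := by
  intro M a b c d hab hac had hbc hbd hcd h1 h2
  by_cases h : M ax = ax ∧ M ax' = ax'
  · obtain ⟨g1, g2⟩ := h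
    obtain ⟨n, rfl⟩ : ∃ n, M = ext0 n := ⟨res M, (ext0_res M g1 g2).symm⟩
    have key : ∀ x y : Option (Option ι), ext0 n x = y → x ≠ y → ∃ i j, x = lb i ∧ y = lb j ∧ n i = j := by
      intro x y hxy hne
      rcases oo_cases x with rfl | rfl | ⟨i, rfl⟩
      · exact absurd hxy hne
      · exact absurd hxy hne
      · exact ⟨i, n i, rfl, hxy.symm, rfl⟩
    obtain ⟨a', c', rfl, rfl, k1⟩ := key a c h1 hac
    obtain ⟨b', d', rfl, rfl, k2⟩ := key b d h2 hbd
    have hne : ∀ {x y : ι}, (lb x : Option (Option ι)) ≠ lb y → x ≠ y := fun h h' => h (by rw [h'])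
    have t := hU n a' b' c' d' (hne hab) (hne hac) (hne had) (hne hbc) (hne hbd) (hne hcd) k1 k2
    have hv : ∀ n' : St ι, Unc.capR' F (ext0 n') = F n' := by
      intro n'
      unfold Unc.capR'
      rw [if_pos ⟨ext0_ax n', ext0_ax' n'⟩, res_ext0]
    rw [← ext0_sw, ← ext0_sw, hv, hv, hv]
    exact t
  · have e : Unc.capR' F M = 0 := by
      unfold Unc.capR'
      rw [if_neg h]
    rw [e]
    exact add_nonneg (capR'_nonneg hF _) (capR'_nonneg hF _)

theorem UncF.capR [Fintype ι] {F : St ι → ℝ} (hF : ∀ m, 0 ≤ F m) (hU : UncF F) : UncF (capR F) := by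
  rw [capR_eq]
  exact UncF.lop zero_le_one le_rfl le_rfl le_rfl le_rfl zero_le_one (capR'_nonneg hF) (UncF.capR' hF hU)
    ax_ne_ax'

theorem capR_nonneg [Fintype ι] {F : St ι → ℝ} (hF : ∀ m, 0 ≤ F m) (m : St (Option (Option ι))) :
    0 ≤ Unc.capR F m := by
  rw [capR_eq]
  exact lopG_nonneg zero_le_one le_rfl le_rfl le_rfl le_rfl zero_le_one (capR'_nonneg hF) m

theorem UncF.cupR {G : St (Option (Option ι)) → ℝ} (hU : UncF G) : UncF (cupR G) := by
  intro s a b c d hab hac had hbc hbd hcd h1 h2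
  have hL : ∀ {x y : ι}, x ≠ y → (lb x : Option (Option ι)) ≠ lb y := fun h h' => h (lb_inj h')
  have t0 := hU (ext0 s) (lb a) (lb b) (lb c) (lb d) (hL hab) (hL hac) (hL had) (hL hbc) (hL hbd) (hL hcd)
    (by rw [ext0_lb, h1]) (by rw [ext0_lb, h2])
  have t1 := hU (ext1 s) (lb a) (lb b) (lb c) (lb d) (hL hab) (hL hac) (hL had) (hL hbc) (hL hbd) (hL hcd)
    (by rw [ext1_lb, h1]) (by rw [ext1_lb, h2])
  unfold Unc.cupR
  rw [ext0_sw, ext0_sw, ext1_sw, ext1_sw]
  linarith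

/-! ### the weights at `λ` -/

noncomputable def rk : ℝ := Real.sin (3 * (Real.pi / 8)) * Real.sin (4 * (Real.pi / 8))
noncomputable def r2 : ℝ := Real.sin (2 * (Real.pi / 8)) * Real.sin (2 * (Real.pi / 8))
noncomputable def r4 : ℝ := Real.sin (2 * (Real.pi / 8)) * Real.sin (Real.pi / 8)

theorem rk_pos : 0 < rk := by
  have hpi := Real.pi_pos
  exact mul_pos (Real.sin_pos_of_pos_of_lt_pi (by linarith) (by linarith))
    (Real.sin_pos_of_pos_of_lt_pi (by linarith) (by linarith))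

theorem r2_pos : 0 < r2 := by
  have hpi := Real.pi_pos
  exact mul_pos (Real.sin_pos_of_pos_of_lt_pi (by linarith) (by linarith))
    (Real.sin_pos_of_pos_of_lt_pi (by linarith) (by linarith))

theorem r4_pos : 0 < r4 := by
  have hpi := Real.pi_pos
  exact mul_pos (Real.sin_pos_of_pos_of_lt_pi (by linarith) (by linarith))
    (Real.sin_pos_of_pos_of_lt_pi (by linarith) (by linarith))

theorem kk_lam : kk lam = (rk : ℂ) := by
  unfold kk lam rk
  push_cast
  rw [show (2 * ((Real.pi : ℂ) / 8) + (Real.pi : ℂ) / 8) = 3 * ((Real.pi : ℂ) / 8) by ring,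
    show (3 * ((Real.pi : ℂ) / 8) + (Real.pi : ℂ) / 8) = 4 * ((Real.pi : ℂ) / 8) by ring]

theorem w2_lam : w2 lam = (r2 : ℂ) := by
  unfold w2 lam r2
  push_cast
  rw [show (3 * ((Real.pi : ℂ) / 8) - (Real.pi : ℂ) / 8) = 2 * ((Real.pi : ℂ) / 8) by ring]

theorem w4_lam : w4 lam = (r4 : ℂ) := by
  unfold w4 lam r4
  push_cast
  ring

theorem w6_lam : w6 lam = (r4 : ℂ) := by
  unfold w6 lam r4
  push_cast
  rw [show (3 * ((Real.pi : ℂ) / 8) - (Real.pi : ℂ) / 8) = 2 * ((Real.pi : ℂ) / 8) by ring]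
  ring

theorem w8_lam : w8 lam = (r4 : ℂ) := by
  unfold w8 lam r4
  push_cast
  rw [show (3 * ((Real.pi : ℂ) / 8) - (Real.pi : ℂ) / 8) = 2 * ((Real.pi : ℂ) / 8) by ring,
    show (2 * ((Real.pi : ℂ) / 8) - (Real.pi : ℂ) / 8) = ((Real.pi : ℂ) / 8) by ring]
  ring

theorem w9_lam : w9 lam = 0 := by
  unfold w9
  simp

/-- The crossing at `λ`, real form. -/
noncomputable def hopR (p q : ι) (F : St ι → ℝ) : St ι → ℝ := lopG rk r4 r4 r2 r4 r4 p q F

theorem Rt_cast (p q : ι) (F : St ι → ℝ) (m : St ι) :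
    Rt p q lam (fun n => (F n : ℂ)) m = ((hopR p q F m : ℝ) : ℂ) := by
  unfold Rt hopR lopG
  simp only [kk_lam, w2_lam, w4_lam, w6_lam, w8_lam, w9_lam]
  split_ifs <;> push_cast <;> ring

theorem capF_cast [Fintype ι] (F : St ι → ℝ) (m : St (Option (Option ι))) :
    capF (fun n => (F n : ℂ)) m = ((capR F m : ℝ) : ℂ) := by
  unfold capF capR
  split_ifs <;> simp

theorem cupF_cast (G : St (Option (Option ι)) → ℝ) (m : St ι) :
    cupF (fun n => (G n : ℂ)) m = ((cupR G m : ℝ) : ℂ) := by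
  unfold cupF cupR
  push_cast
  ring

/-- Real form of `Tt l lam 0`. -/
noncomputable def FoR (l : List ι) (G : St (Option (Option ι)) → ℝ) : St (Option (Option ι)) → ℝ :=
  l.foldr (fun i H => hopR ax (lb i) H) G

noncomputable def TR [Fintype ι] (l : List ι) (F : St ι → ℝ) : St ι → ℝ := cupR (FoR l (capR F))

theorem Fo_cast (l : List ι) (G : St (Option (Option ι)) → ℝ) :
    Fo l lam (0 : ι → ℂ) (fun n => (G n : ℂ)) = fun n => ((FoR l G n : ℝ) : ℂ) := by
  induction l with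
  | nil => rfl
  | cons i l ih =>
    rw [Fo_cons, ih]
    funext m
    rw [Pi.zero_apply, sub_zero, Rt_cast]
    rfl

theorem Tt_cast [Fintype ι] (l : List ι) (F : St ι → ℝ) :
    Tt l lam (0 : ι → ℂ) (fun n => (F n : ℂ)) = fun n => ((TR l F n : ℝ) : ℂ) := by
  rw [Tt_eq]
  have h1 : capF (fun n => (F n : ℂ)) = fun m => ((capR F m : ℝ) : ℂ) := funext (capF_cast F)
  rw [h1, Fo_cast]
  funext m
  rw [cupF_cast]
  rfl

/-! ### preservation -/

theorem FoR_nonneg (l : List ι) {G : St (Option (Option ι)) → ℝ} (hG : ∀ m, 0 ≤ G m) :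
    ∀ m, 0 ≤ FoR l G m := by
  induction l with
  | nil => exact hG
  | cons i l ih =>
    intro m
    exact lopG_nonneg rk_pos.le r4_pos.le r4_pos.le r2_pos.le r4_pos.le r4_pos.le ih m

theorem UncF.FoR (l : List ι) {G : St (Option (Option ι)) → ℝ} (hG : ∀ m, 0 ≤ G m) (hU : UncF G) :
    UncF (FoR l G) := by
  induction l with
  | nil => exact hU
  | cons i l ih =>
    exact UncF.lop rk_pos.le r4_pos.le r4_pos.le r2_pos.le r4_pos.le r4_pos.le (FoR_nonneg l hG) ih
      (ax_ne i)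

theorem TR_nonneg [Fintype ι] (l : List ι) {F : St ι → ℝ} (hF : ∀ m, 0 ≤ F m) (m : St ι) :
    0 ≤ TR l F m :=
  add_nonneg (FoR_nonneg l (capR_nonneg hF) _) (FoR_nonneg l (capR_nonneg hF) _)

theorem UncF.TR [Fintype ι] (l : List ι) {F : St ι → ℝ} (hF : ∀ m, 0 ≤ F m) (hU : UncF F) :
    UncF (TR l F) :=
  UncF.cupR (UncF.FoR l (capR_nonneg hF) (UncF.capR hF hU))

end Pool.Agent.BEX.Unc
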