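import Pool.Agent.BEX.AUnc2

/-!
# BEX: the uncrossing inequality, conclusion

If the powers of the transfer matrix (at `v = λ`, `U = 0`) tend to `0` from every non-crossing non-empty state, then
from every non-empty state.
-/

set_option linter.unusedSectionVars false

namespace Pool.Agent.BEX.Unc

open Pool.Agent.BEX Filter Topology

variable {ι : Type*} [DecidableEq ι] [Fintype ι]

/-- No crossing with respect to the positions `pos`. -/
def NCr (pos : ι → ℕ) (m : St ι) : Prop :=
  ∀ a b, pos a < pos b → pos b < pos (m a) → pos (m a) < pos (m b) → False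

/-! ### the measure -/

/-- `d (N - d)` -/
def wgt (N : ℤ) (d : ℤ) : ℤ := d * (N - d)

def mea (N : ℤ) (pos : ι → ℕ) (m : St ι) : ℤ := ∑ i, wgt N |(pos (m i) : ℤ) - pos i|

theorem mea_nonneg {N : ℤ} {pos : ι → ℕ} (hN : ∀ i, (pos i : ℤ) < N) (m : St ι) : 0 ≤ mea N pos m := by
  refine Finset.sum_nonneg fun i _ => ?_
  unfold wgt
  have h1 := hN i
  have h2 := hN (m i)
  refine mul_nonneg (abs_nonneg _) ?_
  have h3 : |(pos (m i) : ℤ) - pos i| ≤ N := by
    rw [abs_le]
    constructor <;> omega
  omega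

theorem sum_four (g : ι → ℤ) {a b c d : ι} (hab : a ≠ b) (hac : a ≠ c) (had : a ≠ d) (hbc : b ≠ c)
    (hbd : b ≠ d) (hcd : c ≠ d) :
    ∑ i, g i = g a + g b + g c + g d + ∑ i ∈ Finset.univ \ {a, b, c, d}, g i := by
  rw [← Finset.sum_sdiff (Finset.subset_univ ({a, b, c, d} : Finset ι)), add_comm]
  congr 1
  rw [Finset.sum_insert (by simp [hab, hac, had]), Finset.sum_insert (by simp [hbc, hbd]),
    Finset.sum_insert (by simp [hcd]), Finset.sum_singleton]
  ring

theorem mea_lt {N : ℤ} {pos : ι → ℕ} (hN : ∀ i, (pos i : ℤ) < N) {s : St ι} {a b c d : ι}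
    (h1 : s a = c) (h2 : s b = d) (k1 : pos a < pos b) (k2 : pos b < pos c) (k3 : pos c < pos d) :
    mea N pos (s.sw c d) < mea N pos s ∧ mea N pos (s.sw b c) < mea N pos s := by
  have hab : a ≠ b := fun h => by subst h; omega
  have hac : a ≠ c := fun h => by subst h; omega
  have had : a ≠ d := fun h => by subst h; omega
  have hbc : b ≠ c := fun h => by subst h; omega
  have hbd : b ≠ d := fun h => by subst h; omega
  have hcd : c ≠ d := fun h => by subst h; omega
  have h3 : s c = a := by rw [← h1]; simp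
  have h5 : s d = b := by rw [← h2]; simp
  obtain ⟨u1, u2, u3, u4⟩ := val_cd hab hac had hbc hbd hcd h1 h2
  obtain ⟨v1, v2, v3, v4⟩ := val_bc hab hac had hbc hbd hcd h1 h2
  have r1 : ∀ i ∈ Finset.univ \ {a, b, c, d}, (s.sw c d) i = s i := by
    intro i hi
    simp only [Finset.mem_sdiff, Finset.mem_univ, true_and, Finset.mem_insert, Finset.mem_singleton,
      not_or] at hi
    obtain ⟨i1, i2, i3, i4⟩ := hi
    have i := s.inv i
    rw [sw_ap']
    grind (splits := 40)
  have r2 : ∀ i ∈ Finset.univ \ {a, b, c, d}, (s.sw b c) i = s i := by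
    intro i hi
    simp only [Finset.mem_sdiff, Finset.mem_univ, true_and, Finset.mem_insert, Finset.mem_singleton,
      not_or] at hi
    obtain ⟨i1, i2, i3, i4⟩ := hi
    have i := s.inv i
    rw [sw_ap']
    grind (splits := 40)
  have d0 := hN d
  have e1 : ∀ x y : ι, pos x < pos y → |(pos y : ℤ) - pos x| = pos y - pos x := by
    intro x y h
    rw [abs_of_pos]
    omega
  have e2 : ∀ x y : ι, pos x < pos y → |(pos x : ℤ) - pos y| = pos y - pos x := by
    intro x y h
    rw [abs_sub_comm]
    exact e1 x y h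
  have k4 : pos a < pos c := k1.trans k2
  have k5 : pos b < pos d := k2.trans k3
  have k6 : pos a < pos d := k4.trans k3
  unfold mea
  rw [sum_four (fun i => wgt N |(pos (s i) : ℤ) - pos i|) hab hac had hbc hbd hcd,
    sum_four (fun i => wgt N |(pos ((s.sw c d) i) : ℤ) - pos i|) hab hac had hbc hbd hcd,
    sum_four (fun i => wgt N |(pos ((s.sw b c) i) : ℤ) - pos i|) hab hac had hbc hbd hcd,
    Finset.sum_congr rfl fun i hi => by rw [r1 i hi],
    Finset.sum_congr (g := fun i => wgt N |(pos (s i) : ℤ) - pos i|) (s₁ := Finset.univ \ {a, b, c, d})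
      (f := fun i => wgt N |(pos ((s.sw b c) i) : ℤ) - pos i|) rfl fun i hi => by rw [r2 i hi]]
  simp only [u1, u2, u3, u4, v1, v2, v3, v4, h1, h2, h3, h5]
  rw [e1 a c k4, e1 b d k5, e2 a c k4, e2 b d k5, e1 a d k6, e1 b c k2, e2 b c k2, e2 a d k6, e1 a b k1,
    e2 a b k1, e1 c d k3, e2 c d k3]
  unfold wgt
  have m1 : (pos a : ℤ) < pos b := by exact_mod_cast k1
  have m2 : (pos b : ℤ) < pos c := by exact_mod_cast k2
  have m3 : (pos c : ℤ) < pos d := by exact_mod_cast k3
  have m4 : (pos d : ℤ) < N := d0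
  have m5 : (0 : ℤ) ≤ pos a := by positivity
  generalize (pos a : ℤ) = A at *
  generalize (pos b : ℤ) = B at *
  generalize (pos c : ℤ) = C at *
  generalize (pos d : ℤ) = D at *
  constructor
  · nlinarith [mul_pos (sub_pos.2 m1) (sub_pos.2 m3)]
  · nlinarith [mul_pos (sub_pos.2 m2) (sub_pos.2 (m1.trans (m2.trans m3))),
      mul_pos (sub_pos.2 m2) (by linarith : 0 < N - (D - A))]

/-- a sequence of non-negative functions with the uncrossing inequality tends to `0` at every non-empty state if it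
does so at every non-crossing one -/
theorem tendsto_of_unc {g : ℕ → St ι → ℝ} (hg : ∀ n m, 0 ≤ g n m) (hU : ∀ n, UncF (g n)) (pos : ι → ℕ)
    (h : ∀ m, m ≠ St.emp → NCr pos m → Tendsto (fun n => g n m) atTop (𝓝 0)) :
    ∀ m, m ≠ St.emp → Tendsto (fun n => g n m) atTop (𝓝 0) := by
  obtain ⟨N, hN⟩ : ∃ N : ℤ, ∀ i, (pos i : ℤ) < N := by
    refine ⟨(∑ i, (pos i : ℤ)) + 1, fun i => ?_⟩
    have : (pos i : ℤ) ≤ ∑ j, (pos j : ℤ) :=
      Finset.single_le_sum (f := fun j => (pos j : ℤ)) (fun j _ => by positivity) (Finset.mem_univ i)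
    omega
  have key : ∀ k : ℕ, ∀ m, (mea N pos m).toNat < k → m ≠ St.emp → Tendsto (fun n => g n m) atTop (𝓝 0) := by
    intro k
    induction k with
    | zero => intro m hm; omega
    | succ k ih =>
      intro m hm hne
      by_cases hc : NCr pos m
      · exact h m hne hc
      · unfold NCr at hc
        push Not at hc
        obtain ⟨a, b, k1, k2, k3, -⟩ := hc
        obtain ⟨c, h1⟩ : ∃ c, m a = c := ⟨_, rfl⟩
        obtain ⟨d, h2⟩ : ∃ d, m b = d := ⟨_, rfl⟩
        rw [h1] at k2 k3
        rw [h2] at k3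
        have hab : a ≠ b := fun h => by subst h; omega
        have hac : a ≠ c := fun h => by subst h; omega
        have had : a ≠ d := fun h => by subst h; omega
        have hbc : b ≠ c := fun h => by subst h; omega
        have hbd : b ≠ d := fun h => by subst h; omega
        have hcd : c ≠ d := fun h => by subst h; omega
        obtain ⟨u1, u2, u3, u4⟩ := val_cd hab hac had hbc hbd hcd h1 h2
        obtain ⟨v1, v2, v3, v4⟩ := val_bc hab hac had hbc hbd hcd h1 h2
        obtain ⟨l1, l2⟩ := mea_lt hN h1 h2 k1 k2 k3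
        have n1 := mea_nonneg hN (m.sw c d)
        have n2 := mea_nonneg hN (m.sw b c)
        have e1 : m.sw c d ≠ St.emp := by
          intro h
          rw [h] at u1
          exact had u1
        have e2 : m.sw b c ≠ St.emp := by
          intro h
          rw [h] at v1
          exact hab v1
        have t1 := ih (m.sw c d) (by omega) e1
        have t2 := ih (m.sw b c) (by omega) e2
        refine squeeze_zero (fun n => hg n m)
          (fun n => hU n m a b c d hab hac had hbc hbd hcd h1 h2) ?_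
        simpa using t1.add t2
  intro m hm
  exact key _ m (Nat.lt_succ_self _) hm

/-! ### the real matrix -/

/-- normalised real transfer matrix -/
noncomputable def MR (l : List ι) : Matrix (St ι) (St ι) ℝ :=
  Matrix.of fun m' m => (rk ^ l.length)⁻¹ * TR l (Pi.single m' 1) m

theorem nrm_eq (l : List ι) : nrm l (0 : ι → ℂ) = ((rk ^ l.length : ℝ) : ℂ) := by
  unfold nrm
  have h : ∀ i ∈ l, kk (lam - (0 : ι → ℂ) i) = (rk : ℂ) := by
    intro i _
    rw [Pi.zero_apply, sub_zero, kk_lam]
  rw [List.map_congr_left h]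
  simp

theorem single_cast (m' : St ι) :
    (Pi.single m' 1 : St ι → ℂ) = fun n => (((Pi.single m' 1 : St ι → ℝ) n : ℝ) : ℂ) := by
  funext n
  by_cases h : n = m'
  · subst h; simp
  · simp [h]

theorem MT_eq (l : List ι) : MT l (0 : ι → ℂ) = (MR l).map Complex.ofRealHom := by
  ext m' m
  simp only [MT, MR, Matrix.map_apply, Matrix.of_apply]
  rw [nrm_eq, single_cast, Tt_cast]
  simp

theorem MT_pow (l : List ι) (n : ℕ) : MT l (0 : ι → ℂ) ^ n = ((MR l) ^ n).map Complex.ofRealHom := by
  rw [MT_eq, ← Matrix.map_pow]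

theorem MT_pow_apply (l : List ι) (n : ℕ) (m' m : St ι) :
    (MT l (0 : ι → ℂ) ^ n) m' m = (((MR l ^ n) m' m : ℝ) : ℂ) := by
  rw [MT_pow]
  rfl

theorem MR_nonneg (l : List ι) (m' m : St ι) : 0 ≤ MR l m' m := by
  unfold MR
  simp only [Matrix.of_apply]
  refine mul_nonneg (inv_nonneg.2 (pow_nonneg rk_pos.le _)) (TR_nonneg l (fun n => ?_) m)
  by_cases h : n = m'
  · subst h; simp
  · simp [h]

theorem MR_pow_nonneg (l : List ι) (n : ℕ) (m' m : St ι) : 0 ≤ (MR l ^ n) m' m := by
  induction n generalizing m' m with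
  | zero =>
    rw [pow_zero, Matrix.one_apply]
    split_ifs
    · exact zero_le_one
    · exact le_rfl
  | succ n ih =>
    rw [pow_succ, Matrix.mul_apply]
    exact Finset.sum_nonneg fun k _ => mul_nonneg (ih _ _) (MR_nonneg l _ _)

theorem TR_expand (l : List ι) (F : St ι → ℝ) (m : St ι) :
    TR l F m = ∑ m', F m' * TR l (Pi.single m' 1) m := by
  have h := Tt_expand l lam (0 : ι → ℂ) (fun n => (F n : ℂ)) m
  have h1 := congrFun (Tt_cast l F) m
  rw [h1] at h
  have h2 : ∀ m', Tt l lam (0 : ι → ℂ) (Pi.single m' 1) m = ((TR l (Pi.single m' 1) m : ℝ) : ℂ) := by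
    intro m'
    rw [single_cast, Tt_cast]
  simp only [h2] at h
  exact_mod_cast h

/-- column sums of the powers -/
noncomputable def gg (l : List ι) (n : ℕ) (m : St ι) : ℝ := ∑ m', (MR l ^ n) m' m

theorem gg_succ (l : List ι) (n : ℕ) (m : St ι) :
    gg l (n + 1) m = (rk ^ l.length)⁻¹ * TR l (gg l n) m := by
  unfold gg
  rw [TR_expand, Finset.mul_sum]
  simp only [pow_succ, Matrix.mul_apply]
  rw [Finset.sum_comm]
  refine Finset.sum_congr rfl fun k _ => ?_
  rw [← Finset.sum_mul]
  unfold MR
  simp only [Matrix.of_apply]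
  ring

theorem gg_nonneg (l : List ι) (n : ℕ) (m : St ι) : 0 ≤ gg l n m :=
  Finset.sum_nonneg fun m' _ => MR_pow_nonneg l n m' m

theorem gg_unc (l : List ι) (n : ℕ) : UncF (gg l n) := by
  induction n with
  | zero =>
    intro s a b c d _ _ _ _ _ _ _ _
    have h : ∀ m, gg l 0 m = 1 := by
      intro m
      unfold gg
      simp [Matrix.one_apply]
    rw [h, h, h]
    norm_num
  | succ n ih =>
    intro s a b c d hab hac had hbc hbd hcd h1 h2
    have t := UncF.TR l (gg_nonneg l n) ih s a b c d hab hac had hbc hbd hcd h1 h2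
    rw [gg_succ, gg_succ, gg_succ, ← mul_add]
    exact mul_le_mul_of_nonneg_left t (inv_nonneg.2 (pow_nonneg rk_pos.le _))

theorem MR_pow_emp (l : List ι) (n : ℕ) {m : St ι} (hm : m ≠ St.emp) : (MR l ^ n) St.emp m = 0 := by
  have h : ∀ (n : ℕ) (m : St ι), (MT l (0 : ι → ℂ) ^ n) St.emp m = if m = St.emp then 1 else 0 := by
    intro n
    induction n with
    | zero =>
      intro m
      rw [pow_zero, Matrix.one_apply]
      simp only [eq_comm]
    | succ n ih =>
      intro m
      rw [pow_succ, Matrix.mul_apply]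
      simp only [ih, ite_mul, one_mul, zero_mul, Finset.sum_ite_eq', Finset.mem_univ, if_true]
      exact MT_row l 0 (nrm_zero_ne l) m
  have h1 := h n m
  rw [MT_pow_apply, if_neg hm] at h1
  exact_mod_cast h1

/-- Decay from the non-crossing states gives `PowZero`. -/
theorem PowZero_of_planar (l : List ι) (pos : ι → ℕ)
    (h : ∀ m : St ι, m ≠ St.emp → NCr pos m → ∀ m' : St ι, m' ≠ St.emp →
      Tendsto (fun n : ℕ => (MT l (0 : ι → ℂ) ^ n) m' m) atTop (𝓝 0)) : PowZero l := by
  have h1 : ∀ m, m ≠ St.emp → NCr pos m → Tendsto (fun n => gg l n m) atTop (𝓝 0) := by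
    intro m hm hc
    unfold gg
    have h2 : (0 : ℝ) = ∑ _m' : St ι, (0 : ℝ) := by simp
    rw [h2]
    refine tendsto_finsetSum _ fun m' _ => ?_
    by_cases hm' : m' = St.emp
    · subst hm'
      simp only [MR_pow_emp l _ hm]
      exact tendsto_const_nhds
    · have h3 := h m hm hc m' hm'
      simp only [MT_pow_apply] at h3
      have h4 := (Complex.continuous_re.tendsto _).comp h3
      simpa [Function.comp_def] using h4
  have h2 := tendsto_of_unc (gg_nonneg l) (gg_unc l) pos h1
  intro m' m _ hm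
  simp only [MT_pow_apply]
  have h3 : Tendsto (fun n => (MR l ^ n) m' m) atTop (𝓝 0) := by
    refine squeeze_zero (fun n => MR_pow_nonneg l n m' m) (fun n => ?_) (h2 m hm)
    exact Finset.single_le_sum (f := fun m' => (MR l ^ n) m' m) (fun k _ => MR_pow_nonneg l n k m)
      (Finset.mem_univ m')
  have h4 := (Complex.continuous_ofReal.tendsto 0).comp h3
  simpa [Function.comp_def] using h4

end Pool.Agent.BEX.Unc
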