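import Pool.Agent.BEX.ADef

/-!
# BEX, part A: naturality of the local operators

For an injective map `f : α → ι` whose image is stable under the state `m`, the state
`Phi f m ν` is `f ν f⁻¹` on the image of `f` and `m` outside. The operators on the labels
`f p`, `f q` act on `Phi f m ν` as the operators on `p`, `q` act on `ν`.
-/

namespace Pool.Agent.BEX

open Function

section Phi

variable {α ι : Type*}

/-- the image of `f` is stable under `m` -/
def Stab (f : α → ι) (m : St ι) : Prop := ∀ a, ∃ b, m (f a) = f b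

theorem Stab.not_mem {f : α → ι} {m : St ι} (h : Stab f m) {x : ι} (hx : ¬ ∃ a, f a = x) :
    ¬ ∃ a, f a = m x := by
  rintro ⟨a, ha⟩
  obtain ⟨b, hb⟩ := h a
  exact hx ⟨b, by rw [← hb, ha]; simp⟩

theorem phi_inv {f : α → ι} (hf : Injective f) {m : St ι} (h : Stab f m) (ν : St α) (x : ι) :
    extend f (f ∘ ν.1) m.1 (extend f (f ∘ ν.1) m.1 x) = x := by
  by_cases hx : ∃ a, f a = x
  · obtain ⟨a, rfl⟩ := hx
    rw [hf.extend_apply]
    simp only [comp_apply]
    rw [hf.extend_apply]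
    simp
  · rw [extend_apply' _ _ _ hx, extend_apply' _ _ _ (h.not_mem hx)]
    simp

/-- `f ν f⁻¹` on the image of `f`, and `m` outside -/
noncomputable def Phi (f : α → ι) (hf : Injective f) (m : St ι) (h : Stab f m) (ν : St α) : St ι :=
  ⟨extend f (f ∘ ν.1) m.1, phi_inv hf h ν⟩

variable {f : α → ι} (hf : Injective f) {m : St ι} (h : Stab f m)

@[simp] theorem Phi_apply (ν : St α) (a : α) : Phi f hf m h ν (f a) = f (ν a) := by
  show extend f (f ∘ ν.1) m.1 (f a) = _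
  rw [hf.extend_apply]; rfl

theorem Phi_out (ν : St α) {x : ι} (hx : ¬ ∃ a, f a = x) : Phi f hf m h ν x = m x :=
  extend_apply' _ _ _ hx

theorem Phi_self (ν : St α) (hν : ∀ a, m (f a) = f (ν a)) : Phi f hf m h ν = m := by
  ext x
  by_cases hx : ∃ a, f a = x
  · obtain ⟨a, rfl⟩ := hx
    rw [Phi_apply, hν]
  · rw [Phi_out _ _ _ hx]

variable [DecidableEq α] [DecidableEq ι]

theorem Phi_sw (p q : α) (ν : St α) :
    Phi f hf m h (ν.sw p q) = (Phi f hf m h ν).sw (f p) (f q) := by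
  ext x
  by_cases hx : ∃ a, f a = x
  · obtain ⟨a, rfl⟩ := hx
    rw [Phi_apply]
    show f (Equiv.swap p q (ν (Equiv.swap p q a))) =
      Equiv.swap (f p) (f q) (Phi f hf m h ν (Equiv.swap (f p) (f q) (f a)))
    rw [← hf.map_swap, Phi_apply, ← hf.map_swap]
  · rw [Phi_out _ _ _ hx]
    show _ = Equiv.swap (f p) (f q) (Phi f hf m h ν (Equiv.swap (f p) (f q) x))
    have h1 : x ≠ f p := fun e => hx ⟨p, e.symm⟩
    have h2 : x ≠ f q := fun e => hx ⟨q, e.symm⟩
    rw [Equiv.swap_apply_of_ne_of_ne h1 h2, Phi_out _ _ _ hx]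
    have hx' := h.not_mem hx
    have h3 : m x ≠ f p := fun e => hx' ⟨p, e.symm⟩
    have h4 : m x ≠ f q := fun e => hx' ⟨q, e.symm⟩
    rw [Equiv.swap_apply_of_ne_of_ne h3 h4]

theorem Phi_jn (p q : α) (ν : St α) :
    Phi f hf m h (ν.jn p q) = (Phi f hf m h ν).jn (f p) (f q) := by
  by_cases hc : ν p = p ∧ ν q = q
  · have hc' : Phi f hf m h ν (f p) = f p ∧ Phi f hf m h ν (f q) = f q := by
      simp [hc.1, hc.2]
    unfold St.jn
    rw [dif_pos hc, dif_pos hc']
    ext x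
    by_cases hx : ∃ a, f a = x
    · obtain ⟨a, rfl⟩ := hx
      rw [Phi_apply]
      show f (St.jnf p q ν a) = St.jnf (f p) (f q) (Phi f hf m h ν) (f a)
      unfold St.jnf
      rw [Phi_apply]
      by_cases h1 : a = p
      · subst h1; simp
      · by_cases h2 : a = q
        · subst h2; simp [h1, hf.eq_iff]
        · simp [h1, h2, hf.eq_iff]
    · rw [Phi_out _ _ _ hx]
      show _ = St.jnf (f p) (f q) (Phi f hf m h ν) x
      have h1 : x ≠ f p := fun e => hx ⟨p, e.symm⟩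
      have h2 : x ≠ f q := fun e => hx ⟨q, e.symm⟩
      unfold St.jnf
      rw [if_neg h1, if_neg h2, Phi_out _ _ _ hx]
  · have hc' : ¬ (Phi f hf m h ν (f p) = f p ∧ Phi f hf m h ν (f q) = f q) := by
      simpa [hf.eq_iff] using hc
    unfold St.jn
    rw [dif_neg hc, dif_neg hc']

theorem Phi_cp (p q : α) (ν : St α) :
    Phi f hf m h (ν.cp p q) = (Phi f hf m h ν).cp (f p) (f q) := by
  by_cases hc : ν p ≠ p ∧ ν q ≠ q
  · have hc' : Phi f hf m h ν (f p) ≠ f p ∧ Phi f hf m h ν (f q) ≠ f q := by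
      simpa [hf.eq_iff] using hc
    unfold St.cp
    rw [dif_pos hc, dif_pos hc']
    ext x
    by_cases hx : ∃ a, f a = x
    · obtain ⟨a, rfl⟩ := hx
      rw [Phi_apply]
      show f (St.cpf p q ν a) = St.cpf (f p) (f q) (Phi f hf m h ν) (f a)
      unfold St.cpf
      rw [Phi_apply, Phi_apply, Phi_apply]
      simp only [hf.eq_iff]
      split_ifs <;> rfl
    · rw [Phi_out _ _ _ hx]
      show _ = St.cpf (f p) (f q) (Phi f hf m h ν) x
      have h1 : x ≠ f p := fun e => hx ⟨p, e.symm⟩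
      have h2 : x ≠ f q := fun e => hx ⟨q, e.symm⟩
      have h3 : x ≠ f (ν p) := fun e => hx ⟨_, e.symm⟩
      have h4 : x ≠ f (ν q) := fun e => hx ⟨_, e.symm⟩
      unfold St.cpf
      rw [Phi_apply, Phi_apply, if_neg h1, if_neg h2, if_neg h3, if_neg h4, Phi_out _ _ _ hx]
  · have hc' : ¬ (Phi f hf m h ν (f p) ≠ f p ∧ Phi f hf m h ν (f q) ≠ f q) := by
      simpa [hf.eq_iff] using hc
    unfold St.cp
    rw [dif_neg hc, dif_neg hc']

/-- Naturality of the R-matrix. -/
theorem Rt_Phi (p q : α) (u : ℂ) (F : St ι → ℂ) (ν : St α) :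
    Rt (f p) (f q) u F (Phi f hf m h ν) = Rt p q u (fun μ => F (Phi f hf m h μ)) ν := by
  unfold Rt
  simp only [Phi_apply, hf.eq_iff, ← Phi_sw, ← Phi_jn, ← Phi_cp]

theorem Rt_Phi3 (p q r s t w : α) (x y z : ℂ) (F : St ι → ℂ) (ν : St α) :
    Rt (f p) (f q) x (Rt (f r) (f s) y (Rt (f t) (f w) z F)) (Phi f hf m h ν) =
      Rt p q x (Rt r s y (Rt t w z (fun μ => F (Phi f hf m h μ)))) ν := by
  rw [Rt_Phi]
  congr 1
  funext μ
  rw [Rt_Phi]
  congr 1
  funext κ
  rw [Rt_Phi]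

end Phi

end Pool.Agent.BEX
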