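import Pool.Agent.BEX.AYloc

/-! # BEX, part A: the Yang-Baxter equation `rt_ybe` (see `AYloc`) -/
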