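import Pool.Agent.BEX.ADef

/-!
# BEX, part A: the scalar identities of the Yang-Baxter equation

All weights are expressed by `pp = exp(iλ)`, `pp ^ 8 = -1`, and `E u = exp(iu)`; every identity is a multiple of
`pp ^ 8 + 1` (generated by a program).
-/

namespace Pool.Agent.BEX.AY

open Complex

/-- `exp(iu)` -/
noncomputable def E (u : ℂ) : ℂ := exp (u * I)

/-- `exp(iλ)` -/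
noncomputable def pp : ℂ := exp (lam * I)

theorem E_add (x y : ℂ) : E (x + y) = E x * E y := by
  unfold E
  rw [add_mul, exp_add]

theorem E_ne (x : ℂ) : E x ≠ 0 := exp_ne_zero _

theorem pp_ne : pp ≠ 0 := exp_ne_zero _

theorem pp8 : pp ^ 8 = -1 := by
  unfold pp lam
  rw [← exp_nat_mul, ← exp_pi_mul_I]
  congr 1
  push_cast
  ring

/-- common factor of all weights -/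
noncomputable def ka (u : ℂ) : ℂ := -(1 / 4) / (pp ^ 5 * E u ^ 2)

theorem sin_add' (n : ℕ) (u : ℂ) : sin (n * lam + u) = (1 / (pp ^ n * E u) - pp ^ n * E u) * I / 2 := by
  have h1 : exp ((n * lam + u) * I) = pp ^ n * E u := by
    unfold pp E
    rw [← exp_nat_mul, ← exp_add]
    congr 1
    ring
  have h2 : exp (-(n * lam + u) * I) = 1 / (pp ^ n * E u) := by
    rw [← h1, neg_mul, exp_neg, one_div]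
  unfold Complex.sin
  rw [h1, h2]

theorem sin_sub' (n : ℕ) (u : ℂ) : sin (n * lam - u) = (E u / pp ^ n - pp ^ n / E u) * I / 2 := by
  have h0 := E_ne u
  have h0' := pp_ne
  have h1 : exp ((n * lam - u) * I) = pp ^ n / E u := by
    unfold pp E
    rw [← exp_nat_mul, ← exp_sub]
    congr 1
    ring
  have h2 : exp (-(n * lam - u) * I) = E u / pp ^ n := by
    rw [neg_mul, exp_neg, h1, inv_div]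
  unfold Complex.sin
  rw [h1, h2]

theorem sin_E (u : ℂ) : sin u = (1 / E u - E u) * I / 2 := by
  have := sin_add' 0 u
  simpa using this

theorem s2_E : sin (2 * lam) = (1 / pp ^ 2 - pp ^ 2) * I / 2 := by
  have := sin_add' 2 0
  unfold E at this
  simpa using this

theorem kk_eq (u : ℂ) : kk u = ka u * ((pp ^ 4 * E u ^ 2 - 1) * (pp ^ 6 * E u ^ 2 - 1)) := by
  have h0 := E_ne u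
  have h0' := pp_ne
  have h2 := sin_add' 2 u
  have h3 := sin_add' 3 u
  push_cast at h2 h3
  unfold kk ka
  rw [h2, h3]
  field_simp
  linear_combination (4 * (pp ^ 4 * E u ^ 2 - 1) * (pp ^ 6 * E u ^ 2 - 1)) * I_sq

theorem w2_eq (u : ℂ) : w2 u = ka u * (E u * (pp ^ 4 - 1) * (pp ^ 6 - E u ^ 2)) := by
  have h0 := E_ne u
  have h0' := pp_ne
  have h3 := sin_sub' 3 u
  push_cast at h3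
  unfold w2 ka
  rw [h3, s2_E]
  field_simp
  linear_combination (4 * (pp ^ 4 - 1) * (pp ^ 6 - E u ^ 2)) * I_sq

theorem w4_eq (u : ℂ) : w4 u = ka u * (pp ^ 3 * E u * (pp ^ 4 - 1) * (E u ^ 2 - 1)) := by
  have h0 := E_ne u
  have h0' := pp_ne
  unfold w4 ka
  rw [sin_E u, s2_E]
  field_simp
  linear_combination (4 * (pp ^ 4 - 1) * (E u ^ 2 - 1)) * I_sq

theorem w6_eq (u : ℂ) : w6 u = ka u * (pp ^ 2 * (E u ^ 2 - 1) * (pp ^ 6 - E u ^ 2)) := by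
  have h0 := E_ne u
  have h0' := pp_ne
  have h3 := sin_sub' 3 u
  push_cast at h3
  unfold w6 ka
  rw [sin_E u, h3]
  field_simp
  linear_combination (4 * (E u ^ 2 - 1) * (pp ^ 6 - E u ^ 2)) * I_sq

theorem w8_eq (u : ℂ) : w8 u = ka u * ((pp ^ 4 - E u ^ 2) * (pp ^ 6 - E u ^ 2)) := by
  have h0 := E_ne u
  have h0' := pp_ne
  have h2 := sin_sub' 2 u
  have h3 := sin_sub' 3 u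
  push_cast at h2 h3
  unfold w8 ka
  rw [h2, h3]
  field_simp
  linear_combination (4 * (pp ^ 4 - E u ^ 2) * (pp ^ 6 - E u ^ 2)) * I_sq

theorem w9_eq (u : ℂ) : w9 u = ka u * (-(pp ^ 4 * (E u ^ 2 - 1) * (pp ^ 2 - E u ^ 2))) := by
  have h0 := E_ne u
  have h0' := pp_ne
  have h1 := sin_sub' 1 u
  push_cast at h1
  rw [one_mul] at h1
  unfold w9 ka
  rw [sin_E u, h1]
  field_simp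
  linear_combination (-(4 * (E u ^ 2 - 1) * (pp ^ 2 - E u ^ 2))) * I_sq

set_option linter.unusedSimpArgs false

theorem yb1 (x y : ℂ) : kk x * kk (x + y) * w4 y + w4 x * w2 (x + y) * w8 y =
    w2 x * w4 (x + y) * kk y + w6 x * w6 (x + y) * w4 y := by
  simp only [kk_eq, w2_eq, w4_eq, w6_eq, w8_eq, w9_eq, E_add]
  linear_combination (ka x * ka (x + y) * ka y * (pp ^ 3 * E y - pp ^ 3 * E y ^ 3 - pp ^ 3 * E x ^ 4 * E y + pp ^ 3 * E x ^ 4 * E y ^ 7 + pp ^ 3 * E x ^ 6 * E y ^ 3 - pp ^ 3 * E x ^ 6 * E y ^ 7 - pp ^ 7 * E y + pp ^ 7 * E y ^ 3 - pp ^ 7 * E x ^ 2 * E y + pp ^ 7 * E x ^ 2 * E y ^ 5 + 2 * pp ^ 7 * E x ^ 4 * E y - 2 * pp ^ 7 * E x ^ 4 * E y ^ 7 - pp ^ 7 * E x ^ 6 * E y ^ 3 + pp ^ 7 * E x ^ 6 * E y ^ 7 - pp ^ 7 * E x ^ 8 * E y ^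 5 + pp ^ 7 * E x ^ 8 * E y ^ 7 - pp ^ 11 * E y + pp ^ 11 * E y ^ 3 + pp ^ 11 * E x ^ 2 * E y - pp ^ 11 * E x ^ 2 * E y ^ 5 - pp ^ 11 * E x ^ 6 * E y ^ 3 + pp ^ 11 * E x ^ 6 * E y ^ 7 + pp ^ 11 * E x ^ 8 * E y ^ 5 - pp ^ 11 * E x ^ 8 * E y ^ 7 + pp ^ 15 * E y - pp ^ 15 * E y ^ 3 + pp ^ 15 * E x ^ 2 * E y - pp ^ 15 * E x ^ 2 * E y ^ 5 - 2 * pp ^ 15 * E x ^ 4 * E y + 2 * pp ^ 15 * E x ^ 4 * E y ^ 7 + pp ^ 15 * E x ^ 6 * E y ^ 3 - pp ^ 15 * E x ^ 6 * E y ^ 7 + pp ^ 15 * E x ^ 8 * E y ^ 5 - pp ^ 15 * E x ^ 8 * E y ^ 7 - pp ^ 19 * E x ^ 2 * E y + pp ^ 19 * E x ^ 2 * E y ^ 5 + pp ^ 19 * E x ^ 4 * E y - pp ^ 19 * E x ^ 4 * E y ^ 7 - pp ^ 19 * E x ^ 8 * E y ^ 5 + pp ^ 19 * E x ^ 8 * E y ^ 7)) * pp8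

theorem yb2 (x y : ℂ) : kk x * w4 (x + y) * w2 y + w4 x * w6 (x + y) * w6 y =
    w4 x * kk (x + y) * kk y + w8 x * w2 (x + y) * w4 y := by
  simp only [kk_eq, w2_eq, w4_eq, w6_eq, w8_eq, w9_eq, E_add]
  linear_combination (ka x * ka (x + y) * ka y * (-pp ^ 3 * E x + pp ^ 3 * E x * E y ^ 4 + pp ^ 3 * E x ^ 3 - pp ^ 3 * E x ^ 3 * E y ^ 6 - pp ^ 3 * E x ^ 7 * E y ^ 4 + pp ^ 3 * E x ^ 7 * E y ^ 6 + pp ^ 7 * E x + pp ^ 7 * E x * E y ^ 2 - 2 * pp ^ 7 * E x * E y ^ 4 - pp ^ 7 * E x ^ 3 + pp ^ 7 * E x ^ 3 * E y ^ 6 - pp ^ 7 * E x ^ 5 * E y ^ 2 + pp ^ 7 * E x ^ 5 * E y ^ 8 + 2 * pp ^ 7 * E x ^ 7 * E y ^ 4 - pp ^ 7 * E x ^ 7 * E y ^ 6 - pp ^ 7 * E x ^ 7 * E y ^ 8 + pp ^ 11 * E x - pp ^ 11 * E x * E y ^ 2 - pp ^ 11 * E x ^ 3 + pp ^ 11 * E x ^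 3 * E y ^ 6 + pp ^ 11 * E x ^ 5 * E y ^ 2 - pp ^ 11 * E x ^ 5 * E y ^ 8 - pp ^ 11 * E x ^ 7 * E y ^ 6 + pp ^ 11 * E x ^ 7 * E y ^ 8 - pp ^ 15 * E x - pp ^ 15 * E x * E y ^ 2 + 2 * pp ^ 15 * E x * E y ^ 4 + pp ^ 15 * E x ^ 3 - pp ^ 15 * E x ^ 3 * E y ^ 6 + pp ^ 15 * E x ^ 5 * E y ^ 2 - pp ^ 15 * E x ^ 5 * E y ^ 8 - 2 * pp ^ 15 * E x ^ 7 * E y ^ 4 + pp ^ 15 * E x ^ 7 * E y ^ 6 + pp ^ 15 * E x ^ 7 * E y ^ 8 + pp ^ 19 * E x * E y ^ 2 - pp ^ 19 * E x * E y ^ 4 - pp ^ 19 * E x ^ 5 * E y ^ 2 + pp ^ 19 * E x ^ 5 * E y ^ 8 + pp ^ 19 * E x ^ 7 * E y ^ 4 - pp ^ 19 * E x ^ 7 * E y ^ 8)) * pp8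

theorem yb3 (x y : ℂ) : kk x * w4 (x + y) * w6 y + w4 x * w6 (x + y) * w2 y =
    w2 x * w6 (x + y) * w4 y + w6 x * w4 (x + y) * kk y := by
  simp only [kk_eq, w2_eq, w4_eq, w6_eq, w8_eq, w9_eq, E_add]
  linear_combination (ka x * ka (x + y) * ka y * (pp ^ 5 * E x * E y ^ 3 - pp ^ 5 * E x * E y ^ 5 - pp ^ 5 * E x ^ 3 * E y + pp ^ 5 * E x ^ 3 * E y ^ 7 + pp ^ 5 * E x ^ 5 * E y - pp ^ 5 * E x ^ 5 * E y ^ 7 - pp ^ 5 * E x ^ 7 * E y ^ 3 + pp ^ 5 * E x ^ 7 * E y ^ 5 - pp ^ 9 * E x * E y ^ 3 + pp ^ 9 * E x * E y ^ 5 + pp ^ 9 * E x ^ 3 * E y - pp ^ 9 * E x ^ 3 * E y ^ 7 - pp ^ 9 * E x ^ 5 * E y + pp ^ 9 * E x ^ 5 * E y ^ 7 + pp ^ 9 * E x ^ 7 * E y ^ 3 - pp ^ 9 * E x ^ 7 * E y ^ 5 - pp ^ 13 * E x * E y ^ 3 + pp ^ 13 * E x * E y ^ 5 + pp ^ 13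 * E x ^ 3 * E y - pp ^ 13 * E x ^ 3 * E y ^ 7 - pp ^ 13 * E x ^ 5 * E y + pp ^ 13 * E x ^ 5 * E y ^ 7 + pp ^ 13 * E x ^ 7 * E y ^ 3 - pp ^ 13 * E x ^ 7 * E y ^ 5 + pp ^ 17 * E x * E y ^ 3 - pp ^ 17 * E x * E y ^ 5 - pp ^ 17 * E x ^ 3 * E y + pp ^ 17 * E x ^ 3 * E y ^ 7 + pp ^ 17 * E x ^ 5 * E y - pp ^ 17 * E x ^ 5 * E y ^ 7 - pp ^ 17 * E x ^ 7 * E y ^ 3 + pp ^ 17 * E x ^ 7 * E y ^ 5)) * pp8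

theorem yb4 (x y : ℂ) : w8 x * w2 (x + y) * w8 y =
    w2 x * w8 (x + y) * w2 y + w6 x * w2 (x + y) * w6 y := by
  simp only [kk_eq, w2_eq, w4_eq, w6_eq, w8_eq, w9_eq, E_add]
  ring

theorem yb5 (x y : ℂ) : w8 x * w6 (x + y) * w2 y =
    w2 x * w2 (x + y) * w6 y + w6 x * w8 (x + y) * w2 y := by
  simp only [kk_eq, w2_eq, w4_eq, w6_eq, w8_eq, w9_eq, E_add]
  ring

theorem yb6 (x y : ℂ) : w2 x * w6 (x + y) * w8 y =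
    w2 x * w8 (x + y) * w6 y + w6 x * w2 (x + y) * w2 y := by
  simp only [kk_eq, w2_eq, w4_eq, w6_eq, w8_eq, w9_eq, E_add]
  ring

theorem yb7 (x y : ℂ) : w2 x * kk (x + y) * w2 y + w6 x * w2 (x + y) * w6 y =
    kk x * w2 (x + y) * kk y + w4 x * w9 (x + y) * w4 y := by
  simp only [kk_eq, w2_eq, w4_eq, w6_eq, w8_eq, w9_eq, E_add]
  linear_combination (ka x * ka (x + y) * ka y * (-pp ^ 4 * E x ^ 3 * E y ^ 3 + pp ^ 4 * E x ^ 3 * E y ^ 5 + pp ^ 4 * E x ^ 5 * E y ^ 3 - pp ^ 4 * E x ^ 5 * E y ^ 7 - pp ^ 4 * E x ^ 7 * E y ^ 5 + pp ^ 4 * E x ^ 7 * E y ^ 7 + pp ^ 6 * E x * E y - pp ^ 6 * E x * E y ^ 3 - pp ^ 6 * E x ^ 3 * E y + pp ^ 6 * E x ^ 3 * E y ^ 5 + pp ^ 6 * E x ^ 5 * E y ^ 3 - pp ^ 6 * E x ^ 5 * E y ^ 5 + pp ^ 8 * E x ^ 3 * E y ^ 3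 - pp ^ 8 * E x ^ 3 * E y ^ 5 - pp ^ 8 * E x ^ 5 * E y ^ 3 + pp ^ 8 * E x ^ 5 * E y ^ 7 + pp ^ 8 * E x ^ 7 * E y ^ 5 - pp ^ 8 * E x ^ 7 * E y ^ 7 - pp ^ 10 * E x * E y + pp ^ 10 * E x * E y ^ 3 + pp ^ 10 * E x ^ 3 * E y - pp ^ 10 * E x ^ 3 * E y ^ 5 - pp ^ 10 * E x ^ 5 * E y ^ 3 + pp ^ 10 * E x ^ 5 * E y ^ 5 + pp ^ 12 * E x ^ 3 * E y ^ 3 - pp ^ 12 * E x ^ 3 * E y ^ 5 - pp ^ 12 * E x ^ 5 * E y ^ 3 + pp ^ 12 * E x ^ 5 * E y ^ 7 + pp ^ 12 * E x ^ 7 * E y ^ 5 - pp ^ 12 * E x ^ 7 * E y ^ 7 - pp ^ 14 * E x * E y + pp ^ 14 * E x * E y ^ 3 + pp ^ 14 * E x ^ 3 * E y - pp ^ 14 * E x ^ 3 * E y ^ 5 - pp ^ 14 * E x ^ 5 * E y ^ 3 + pp ^ 14 * E x ^ 5 * E y ^ 5 - pp ^ 16 * E x ^ 3 * E y ^ 3 + pp ^ 16 * E x ^ 3 * E y ^ 5 + pp ^ 16 * E x ^ 5 * E y ^ 3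 - pp ^ 16 * E x ^ 5 * E y ^ 7 - pp ^ 16 * E x ^ 7 * E y ^ 5 + pp ^ 16 * E x ^ 7 * E y ^ 7 + pp ^ 18 * E x * E y - pp ^ 18 * E x * E y ^ 3 - pp ^ 18 * E x ^ 3 * E y + pp ^ 18 * E x ^ 3 * E y ^ 5 + pp ^ 18 * E x ^ 5 * E y ^ 3 - pp ^ 18 * E x ^ 5 * E y ^ 5)) * pp8

theorem yb8 (x y : ℂ) : w2 x * kk (x + y) * w6 y + w6 x * w2 (x + y) * w2 y =
    w2 x * w6 (x + y) * kk y + w6 x * w4 (x + y) * w4 y := by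
  simp only [kk_eq, w2_eq, w4_eq, w6_eq, w8_eq, w9_eq, E_add]
  linear_combination (ka x * ka (x + y) * ka y * (pp ^ 2 * E x ^ 3 * E y ^ 2 - pp ^ 2 * E x ^ 3 * E y ^ 4 - pp ^ 2 * E x ^ 5 * E y ^ 2 + pp ^ 2 * E x ^ 5 * E y ^ 6 + pp ^ 2 * E x ^ 7 * E y ^ 4 - pp ^ 2 * E x ^ 7 * E y ^ 6 - pp ^ 6 * E x ^ 3 * E y ^ 2 + pp ^ 6 * E x ^ 3 * E y ^ 4 + pp ^ 6 * E x ^ 5 * E y ^ 2 - pp ^ 6 * E x ^ 5 * E y ^ 6 - pp ^ 6 * E x ^ 7 * E y ^ 4 + pp ^ 6 * E x ^ 7 * E y ^ 6 - pp ^ 8 * E x * E y ^ 2 + pp ^ 8 * E x * E y ^ 4 + pp ^ 8 * E x ^ 3 * E y ^ 2 - pp ^ 8 * E x ^ 3 * E y ^ 6 - pp ^ 8 * E x ^ 5 * E y ^ 4 + pp ^ 8 * E x ^ 5 * E y ^ 6 - pp ^ 10 * E x ^ 3 * E y ^ 2 + pp ^ 10 * E x ^ 3 * E y ^ 4 + pp ^ 10 * E x ^ 5 * E y ^ 2 - pp ^ 10 * E x ^ 5 * E y ^ 6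 - pp ^ 10 * E x ^ 7 * E y ^ 4 + pp ^ 10 * E x ^ 7 * E y ^ 6 + pp ^ 12 * E x * E y ^ 2 - pp ^ 12 * E x * E y ^ 4 - pp ^ 12 * E x ^ 3 * E y ^ 2 + pp ^ 12 * E x ^ 3 * E y ^ 6 + pp ^ 12 * E x ^ 5 * E y ^ 4 - pp ^ 12 * E x ^ 5 * E y ^ 6 + pp ^ 14 * E x ^ 3 * E y ^ 2 - pp ^ 14 * E x ^ 3 * E y ^ 4 - pp ^ 14 * E x ^ 5 * E y ^ 2 + pp ^ 14 * E x ^ 5 * E y ^ 6 + pp ^ 14 * E x ^ 7 * E y ^ 4 - pp ^ 14 * E x ^ 7 * E y ^ 6 + pp ^ 16 * E x * E y ^ 2 - pp ^ 16 * E x * E y ^ 4 - pp ^ 16 * E x ^ 3 * E y ^ 2 + pp ^ 16 * E x ^ 3 * E y ^ 6 + pp ^ 16 * E x ^ 5 * E y ^ 4 - pp ^ 16 * E x ^ 5 * E y ^ 6 - pp ^ 20 * E x * E y ^ 2 + pp ^ 20 * E x * E y ^ 4 + pp ^ 20 * E x ^ 3 * E y ^ 2 - pp ^ 20 * E x ^ 3 * E y ^ 6 - pp ^ 20 * E x ^ 5 * E y ^ 4 + pp ^ 20 * E x ^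 5 * E y ^ 6)) * pp8

theorem yb9 (x y : ℂ) : w2 x * w4 (x + y) * w8 y =
    w4 x * w2 (x + y) * kk y + w8 x * w8 (x + y) * w4 y + w9 x * w9 (x + y) * w4 y := by
  simp only [kk_eq, w2_eq, w4_eq, w6_eq, w8_eq, w9_eq, E_add]
  linear_combination (ka x * ka (x + y) * ka y * (-pp ^ 3 * E x ^ 4 * E y ^ 3 + pp ^ 3 * E x ^ 4 * E y ^ 5 + pp ^ 3 * E x ^ 6 * E y ^ 3 - pp ^ 3 * E x ^ 6 * E y ^ 7 - pp ^ 3 * E x ^ 8 * E y ^ 5 + pp ^ 3 * E x ^ 8 * E y ^ 7 + pp ^ 7 * E x ^ 4 * E y ^ 3 - pp ^ 7 * E x ^ 4 * E y ^ 5 - pp ^ 7 * E x ^ 6 * E y ^ 3 + pp ^ 7 * E x ^ 6 * E y ^ 7 + pp ^ 7 * E x ^ 8 * E y ^ 5 - pp ^ 7 * E x ^ 8 * E y ^ 7 + pp ^ 9 * E x ^ 2 * E y - pp ^ 9 * E x ^ 2 * E y ^ 5 - pp ^ 9 * E x ^ 4 * E y - pp ^ 9 * E x ^ 4 * E y ^ 3 + pp ^ 9 * E x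 ^ 4 * E y ^ 5 + pp ^ 9 * E x ^ 4 * E y ^ 7 + pp ^ 9 * E x ^ 6 * E y ^ 3 - pp ^ 9 * E x ^ 6 * E y ^ 7 - pp ^ 13 * E x ^ 2 * E y + pp ^ 13 * E x ^ 2 * E y ^ 5 + pp ^ 13 * E x ^ 4 * E y + pp ^ 13 * E x ^ 4 * E y ^ 3 - pp ^ 13 * E x ^ 4 * E y ^ 5 - pp ^ 13 * E x ^ 4 * E y ^ 7 - pp ^ 13 * E x ^ 6 * E y ^ 3 + pp ^ 13 * E x ^ 6 * E y ^ 7 - pp ^ 15 * E y + pp ^ 15 * E y ^ 3 + pp ^ 15 * E x ^ 2 * E y - pp ^ 15 * E x ^ 2 * E y ^ 5 - pp ^ 15 * E x ^ 4 * E y ^ 3 + pp ^ 15 * E x ^ 4 * E y ^ 5 + pp ^ 19 * E y - pp ^ 19 * E y ^ 3 - pp ^ 19 * E x ^ 2 * E y + pp ^ 19 * E x ^ 2 * E y ^ 5 + pp ^ 19 * E x ^ 4 * E y ^ 3 - pp ^ 19 * E x ^ 4 * E y ^ 5)) * pp8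

theorem yb10 (x y : ℂ) : w2 x * w4 (x + y) * w9 y + w6 x * w6 (x + y) * w4 y =
    w8 x * w9 (x + y) * w4 y := by
  simp only [kk_eq, w2_eq, w4_eq, w6_eq, w8_eq, w9_eq, E_add]
  ring

theorem yb11 (x y : ℂ) : w4 x * w6 (x + y) * w6 y + w9 x * w4 (x + y) * w2 y =
    w4 x * w9 (x + y) * w8 y := by
  simp only [kk_eq, w2_eq, w4_eq, w6_eq, w8_eq, w9_eq, E_add]
  ring

theorem yb12 (x y : ℂ) : w4 x * w6 (x + y) * w2 y + w9 x * w4 (x + y) * w6 y =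
    w6 x * w4 (x + y) * w8 y := by
  simp only [kk_eq, w2_eq, w4_eq, w6_eq, w8_eq, w9_eq, E_add]
  ring

theorem yb13 (x y : ℂ) : w4 x * w2 (x + y) * w4 y + w8 x * w8 (x + y) * w9 y + w9 x * w8 (x + y) * w8 y + w9 x * w9 (x + y) * w9 y =
    w8 x * w9 (x + y) * w8 y := by
  simp only [kk_eq, w2_eq, w4_eq, w6_eq, w8_eq, w9_eq, E_add]
  linear_combination (ka x * ka (x + y) * ka y * (pp ^ 4 * E x ^ 6 * E y ^ 6 - pp ^ 4 * E x ^ 6 * E y ^ 8 - pp ^ 4 * E x ^ 8 * E y ^ 6 + pp ^ 4 * E x ^ 8 * E y ^ 8 - pp ^ 6 * E x ^ 4 * E y ^ 6 + pp ^ 6 * E x ^ 4 * E y ^ 8 - pp ^ 6 * E x ^ 6 * E y ^ 4 + 2 * pp ^ 6 * E x ^ 6 * E y ^ 6 - pp ^ 6 * E x ^ 6 * E y ^ 8 + pp ^ 6 * E x ^ 8 * E y ^ 4 - pp ^ 6 * E x ^ 8 * E y ^ 6 + pp ^ 10 * E x ^ 2 * E y ^ 4 - pp ^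 10 * E x ^ 2 * E y ^ 6 + pp ^ 10 * E x ^ 4 * E y ^ 2 - 3 * pp ^ 10 * E x ^ 4 * E y ^ 4 + 2 * pp ^ 10 * E x ^ 4 * E y ^ 6 - pp ^ 10 * E x ^ 6 * E y ^ 2 + 2 * pp ^ 10 * E x ^ 6 * E y ^ 4 - pp ^ 10 * E x ^ 6 * E y ^ 6 - pp ^ 12 * E x ^ 2 * E y ^ 2 + 2 * pp ^ 12 * E x ^ 2 * E y ^ 4 - pp ^ 12 * E x ^ 2 * E y ^ 6 + 2 * pp ^ 12 * E x ^ 4 * E y ^ 2 - 3 * pp ^ 12 * E x ^ 4 * E y ^ 4 + pp ^ 12 * E x ^ 4 * E y ^ 6 - pp ^ 12 * E x ^ 6 * E y ^ 2 + pp ^ 12 * E x ^ 6 * E y ^ 4 - pp ^ 16 * E y ^ 2 + pp ^ 16 * E y ^ 4 - pp ^ 16 * E x ^ 2 + 2 * pp ^ 16 * E x ^ 2 * E y ^ 2 - pp ^ 16 * E x ^ 2 * E y ^ 4 + pp ^ 16 * E x ^ 4 - pp ^ 16 * E x ^ 4 * E y ^ 2 + pp ^ 18 - pp ^ 18 * E y ^ 2 - pp ^ 18 * E x ^ 2 + pp ^ 18 * E x ^ 2 * E y ^ 2)) * pp8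

theorem yb14 (x y : ℂ) : w2 x * w2 (x + y) * w6 y + w6 x * kk (x + y) * w2 y =
    kk x * w6 (x + y) * w2 y + w4 x * w4 (x + y) * w6 y := by
  simp only [kk_eq, w2_eq, w4_eq, w6_eq, w8_eq, w9_eq, E_add]
  linear_combination (ka x * ka (x + y) * ka y * (pp ^ 2 * E x ^ 2 * E y ^ 3 - pp ^ 2 * E x ^ 2 * E y ^ 5 - pp ^ 2 * E x ^ 4 * E y ^ 3 + pp ^ 2 * E x ^ 4 * E y ^ 7 + pp ^ 2 * E x ^ 6 * E y ^ 5 - pp ^ 2 * E x ^ 6 * E y ^ 7 - pp ^ 6 * E x ^ 2 * E y ^ 3 + pp ^ 6 * E x ^ 2 * E y ^ 5 + pp ^ 6 * E x ^ 4 * E y ^ 3 - pp ^ 6 * E x ^ 4 * E y ^ 7 - pp ^ 6 * E x ^ 6 * E y ^ 5 + pp ^ 6 * E x ^ 6 * E y ^ 7 - pp ^ 8 * E x ^ 2 * E y + pp ^ 8 * E x ^ 2 * E y ^ 3 + pp ^ 8 * E x ^ 4 * E y - pp ^ 8 * E x ^ 4 * E y ^ 5 - pp ^ 8 * E x ^ 6 * E y ^ 3 + pp ^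 8 * E x ^ 6 * E y ^ 5 - pp ^ 10 * E x ^ 2 * E y ^ 3 + pp ^ 10 * E x ^ 2 * E y ^ 5 + pp ^ 10 * E x ^ 4 * E y ^ 3 - pp ^ 10 * E x ^ 4 * E y ^ 7 - pp ^ 10 * E x ^ 6 * E y ^ 5 + pp ^ 10 * E x ^ 6 * E y ^ 7 + pp ^ 12 * E x ^ 2 * E y - pp ^ 12 * E x ^ 2 * E y ^ 3 - pp ^ 12 * E x ^ 4 * E y + pp ^ 12 * E x ^ 4 * E y ^ 5 + pp ^ 12 * E x ^ 6 * E y ^ 3 - pp ^ 12 * E x ^ 6 * E y ^ 5 + pp ^ 14 * E x ^ 2 * E y ^ 3 - pp ^ 14 * E x ^ 2 * E y ^ 5 - pp ^ 14 * E x ^ 4 * E y ^ 3 + pp ^ 14 * E x ^ 4 * E y ^ 7 + pp ^ 14 * E x ^ 6 * E y ^ 5 - pp ^ 14 * E x ^ 6 * E y ^ 7 + pp ^ 16 * E x ^ 2 * E y - pp ^ 16 * E x ^ 2 * E y ^ 3 - pp ^ 16 * E x ^ 4 * E y + pp ^ 16 * E x ^ 4 * E y ^ 5 + pp ^ 16 * E x ^ 6 * E y ^ 3 - pp ^ 16 * E x ^ 6 * E y ^ 5 - pp ^ 20 * E x ^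 2 * E y + pp ^ 20 * E x ^ 2 * E y ^ 3 + pp ^ 20 * E x ^ 4 * E y - pp ^ 20 * E x ^ 4 * E y ^ 5 - pp ^ 20 * E x ^ 6 * E y ^ 3 + pp ^ 20 * E x ^ 6 * E y ^ 5)) * pp8

theorem yb15 (x y : ℂ) : w2 x * w6 (x + y) * w4 y + w6 x * w4 (x + y) * w9 y =
    w8 x * w4 (x + y) * w6 y := by
  simp only [kk_eq, w2_eq, w4_eq, w6_eq, w8_eq, w9_eq, E_add]
  ring

theorem yb16 (x y : ℂ) : w4 x * w6 (x + y) * w6 y + w8 x * w4 (x + y) * w2 y + w9 x * w4 (x + y) * w2 y =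
    kk x * w2 (x + y) * w4 y + w4 x * w8 (x + y) * w8 y + w4 x * w9 (x + y) * w8 y + w4 x * w9 (x + y) * w9 y := by
  simp only [kk_eq, w2_eq, w4_eq, w6_eq, w8_eq, w9_eq, E_add]
  linear_combination (ka x * ka (x + y) * ka y * (-pp ^ 3 * E x ^ 3 * E y ^ 4 + pp ^ 3 * E x ^ 3 * E y ^ 6 + pp ^ 3 * E x ^ 5 * E y ^ 4 - pp ^ 3 * E x ^ 5 * E y ^ 8 - pp ^ 3 * E x ^ 7 * E y ^ 6 + pp ^ 3 * E x ^ 7 * E y ^ 8 + pp ^ 7 * E x ^ 3 * E y ^ 4 - pp ^ 7 * E x ^ 3 * E y ^ 6 - pp ^ 7 * E x ^ 5 * E y ^ 4 + pp ^ 7 * E x ^ 5 * E y ^ 8 + pp ^ 7 * E x ^ 7 * E y ^ 6 - pp ^ 7 * E x ^ 7 * E y ^ 8 + pp ^ 9 * E x * E y ^ 2 - pp ^ 9 * E x * E y ^ 4 - pp ^ 9 * E x ^ 3 * E y ^ 4 + pp ^ 9 * E x ^ 3 * E y ^ 6 - pp ^ 9 * E x ^ 5 * E y ^ 2 + pp ^ 9 * E x ^ 5 * E y ^ 4 +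 pp ^ 9 * E x ^ 7 * E y ^ 4 - pp ^ 9 * E x ^ 7 * E y ^ 6 - pp ^ 13 * E x * E y ^ 2 + pp ^ 13 * E x * E y ^ 4 + pp ^ 13 * E x ^ 3 * E y ^ 4 - pp ^ 13 * E x ^ 3 * E y ^ 6 + pp ^ 13 * E x ^ 5 * E y ^ 2 - pp ^ 13 * E x ^ 5 * E y ^ 4 - pp ^ 13 * E x ^ 7 * E y ^ 4 + pp ^ 13 * E x ^ 7 * E y ^ 6 - pp ^ 15 * E x + pp ^ 15 * E x * E y ^ 2 + pp ^ 15 * E x ^ 3 - pp ^ 15 * E x ^ 3 * E y ^ 4 - pp ^ 15 * E x ^ 5 * E y ^ 2 + pp ^ 15 * E x ^ 5 * E y ^ 4 + pp ^ 19 * E x - pp ^ 19 * E x * E y ^ 2 - pp ^ 19 * E x ^ 3 + pp ^ 19 * E x ^ 3 * E y ^ 4 + pp ^ 19 * E x ^ 5 * E y ^ 2 - pp ^ 19 * E x ^ 5 * E y ^ 4)) * pp8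

theorem yb17 (x y : ℂ) : w4 x * w6 (x + y) * w2 y + w8 x * w4 (x + y) * w6 y + w9 x * w4 (x + y) * w6 y =
    w2 x * w6 (x + y) * w4 y + w6 x * w4 (x + y) * w8 y + w6 x * w4 (x + y) * w9 y := by
  simp only [kk_eq, w2_eq, w4_eq, w6_eq, w8_eq, w9_eq, E_add]
  ring

theorem yb18 (x y : ℂ) : w8 x * w9 (x + y) * w8 y + w9 x * w9 (x + y) * w8 y =
    w4 x * w2 (x + y) * w4 y + w8 x * w8 (x + y) * w9 y + w9 x * w8 (x + y) * w8 y + w9 x * w9 (x + y) * w8 y + w9 x * w9 (x + y) * w9 y := by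
  simp only [kk_eq, w2_eq, w4_eq, w6_eq, w8_eq, w9_eq, E_add]
  linear_combination (ka x * ka (x + y) * ka y * (-pp ^ 4 * E x ^ 6 * E y ^ 6 + pp ^ 4 * E x ^ 6 * E y ^ 8 + pp ^ 4 * E x ^ 8 * E y ^ 6 - pp ^ 4 * E x ^ 8 * E y ^ 8 + pp ^ 6 * E x ^ 4 * E y ^ 6 - pp ^ 6 * E x ^ 4 * E y ^ 8 + pp ^ 6 * E x ^ 6 * E y ^ 4 - 2 * pp ^ 6 * E x ^ 6 * E y ^ 6 + pp ^ 6 * E x ^ 6 * E y ^ 8 - pp ^ 6 * E x ^ 8 * E y ^ 4 + pp ^ 6 * E x ^ 8 * E y ^ 6 - pp ^ 10 * E x ^ 2 * E y ^ 4 + pp ^ 10 * E x ^ 2 * E y ^ 6 - pp ^ 10 * E x ^ 4 * E y ^ 2 + 3 * pp ^ 10 * E x ^ 4 * E y ^ 4 - 2 * pp ^ 10 * E x ^ 4 * E y ^ 6 + pp ^ 10 * E x ^ 6 * E y ^ 2 - 2 * pp ^ 10 * E x ^ 6 * E y ^ 4 + pp ^ 10 * E x ^ 6 * E y ^ 6 + pp ^ 12 * E x ^ 2 * E y ^ 2 - 2 * pp ^ 12 * E x ^ 2 * E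 y ^ 4 + pp ^ 12 * E x ^ 2 * E y ^ 6 - 2 * pp ^ 12 * E x ^ 4 * E y ^ 2 + 3 * pp ^ 12 * E x ^ 4 * E y ^ 4 - pp ^ 12 * E x ^ 4 * E y ^ 6 + pp ^ 12 * E x ^ 6 * E y ^ 2 - pp ^ 12 * E x ^ 6 * E y ^ 4 + pp ^ 16 * E y ^ 2 - pp ^ 16 * E y ^ 4 + pp ^ 16 * E x ^ 2 - 2 * pp ^ 16 * E x ^ 2 * E y ^ 2 + pp ^ 16 * E x ^ 2 * E y ^ 4 - pp ^ 16 * E x ^ 4 + pp ^ 16 * E x ^ 4 * E y ^ 2 - pp ^ 18 + pp ^ 18 * E y ^ 2 + pp ^ 18 * E x ^ 2 - pp ^ 18 * E x ^ 2 * E y ^ 2)) * pp8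

theorem yb19 (x y : ℂ) : w4 x * w2 (x + y) * kk y + w8 x * w8 (x + y) * w4 y + w8 x * w9 (x + y) * w4 y + w9 x * w9 (x + y) * w4 y =
    w2 x * w4 (x + y) * w8 y + w2 x * w4 (x + y) * w9 y + w6 x * w6 (x + y) * w4 y := by
  simp only [kk_eq, w2_eq, w4_eq, w6_eq, w8_eq, w9_eq, E_add]
  linear_combination (ka x * ka (x + y) * ka y * (pp ^ 3 * E x ^ 4 * E y ^ 3 - pp ^ 3 * E x ^ 4 * E y ^ 5 - pp ^ 3 * E x ^ 6 * E y ^ 3 + pp ^ 3 * E x ^ 6 * E y ^ 7 + pp ^ 3 * E x ^ 8 * E y ^ 5 - pp ^ 3 * E x ^ 8 * E y ^ 7 - pp ^ 7 * E x ^ 4 * E y ^ 3 + pp ^ 7 * E x ^ 4 * E y ^ 5 + pp ^ 7 * E x ^ 6 * E y ^ 3 - pp ^ 7 * E x ^ 6 * E y ^ 7 - pp ^ 7 * E x ^ 8 * E y ^ 5 + pp ^ 7 * E x ^ 8 * E y ^ 7 - pp ^ 9 * E x ^ 2 * E y + pp ^ 9 * E x ^ 2 * E y ^ 5 + pp ^ 9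 * E x ^ 4 * E y + pp ^ 9 * E x ^ 4 * E y ^ 3 - pp ^ 9 * E x ^ 4 * E y ^ 5 - pp ^ 9 * E x ^ 4 * E y ^ 7 - pp ^ 9 * E x ^ 6 * E y ^ 3 + pp ^ 9 * E x ^ 6 * E y ^ 7 + pp ^ 13 * E x ^ 2 * E y - pp ^ 13 * E x ^ 2 * E y ^ 5 - pp ^ 13 * E x ^ 4 * E y - pp ^ 13 * E x ^ 4 * E y ^ 3 + pp ^ 13 * E x ^ 4 * E y ^ 5 + pp ^ 13 * E x ^ 4 * E y ^ 7 + pp ^ 13 * E x ^ 6 * E y ^ 3 - pp ^ 13 * E x ^ 6 * E y ^ 7 + pp ^ 15 * E y - pp ^ 15 * E y ^ 3 - pp ^ 15 * E x ^ 2 * E y + pp ^ 15 * E x ^ 2 * E y ^ 5 + pp ^ 15 * E x ^ 4 * E y ^ 3 - pp ^ 15 * E x ^ 4 * E y ^ 5 - pp ^ 19 * E y + pp ^ 19 * E y ^ 3 + pp ^ 19 * E x ^ 2 * E y - pp ^ 19 * E x ^ 2 * E y ^ 5 - pp ^ 19 * E x ^ 4 * E y ^ 3 + pp ^ 19 * E x ^ 4 * E y ^ 5)) * pp8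

theorem yb20 (x y : ℂ) : w4 x * w2 (x + y) * w4 y + w8 x * w8 (x + y) * w9 y + w8 x * w9 (x + y) * w9 y + w9 x * w8 (x + y) * w8 y + w9 x * w9 (x + y) * w9 y =
    w8 x * w9 (x + y) * w8 y + w8 x * w9 (x + y) * w9 y := by
  simp only [kk_eq, w2_eq, w4_eq, w6_eq, w8_eq, w9_eq, E_add]
  linear_combination (ka x * ka (x + y) * ka y * (pp ^ 4 * E x ^ 6 * E y ^ 6 - pp ^ 4 * E x ^ 6 * E y ^ 8 - pp ^ 4 * E x ^ 8 * E y ^ 6 + pp ^ 4 * E x ^ 8 * E y ^ 8 - pp ^ 6 * E x ^ 4 * E y ^ 6 + pp ^ 6 * E x ^ 4 * E y ^ 8 - pp ^ 6 * E x ^ 6 * E y ^ 4 + 2 * pp ^ 6 * E x ^ 6 * E y ^ 6 - pp ^ 6 * E x ^ 6 * E y ^ 8 + pp ^ 6 * E x ^ 8 * E y ^ 4 - pp ^ 6 * E x ^ 8 * E y ^ 6 + pp ^ 10 * E x ^ 2 * E y ^ 4 - pp ^ 10 * E x ^ 2 * E y ^ 6 + pp ^ 10 * E x ^ 4 * E y ^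 2 - 3 * pp ^ 10 * E x ^ 4 * E y ^ 4 + 2 * pp ^ 10 * E x ^ 4 * E y ^ 6 - pp ^ 10 * E x ^ 6 * E y ^ 2 + 2 * pp ^ 10 * E x ^ 6 * E y ^ 4 - pp ^ 10 * E x ^ 6 * E y ^ 6 - pp ^ 12 * E x ^ 2 * E y ^ 2 + 2 * pp ^ 12 * E x ^ 2 * E y ^ 4 - pp ^ 12 * E x ^ 2 * E y ^ 6 + 2 * pp ^ 12 * E x ^ 4 * E y ^ 2 - 3 * pp ^ 12 * E x ^ 4 * E y ^ 4 + pp ^ 12 * E x ^ 4 * E y ^ 6 - pp ^ 12 * E x ^ 6 * E y ^ 2 + pp ^ 12 * E x ^ 6 * E y ^ 4 - pp ^ 16 * E y ^ 2 + pp ^ 16 * E y ^ 4 - pp ^ 16 * E x ^ 2 + 2 * pp ^ 16 * E x ^ 2 * E y ^ 2 - pp ^ 16 * E x ^ 2 * E y ^ 4 + pp ^ 16 * E x ^ 4 - pp ^ 16 * E x ^ 4 * E y ^ 2 + pp ^ 18 - pp ^ 18 * E y ^ 2 - pp ^ 18 * E x ^ 2 + pp ^ 18 * E x ^ 2 * E y ^ 2)) * pp8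

theorem yb21 (x y : ℂ) : kk x * w2 (x + y) * w4 y + w4 x * w8 (x + y) * w8 y + w4 x * w9 (x + y) * w9 y =
    w8 x * w4 (x + y) * w2 y := by
  simp only [kk_eq, w2_eq, w4_eq, w6_eq, w8_eq, w9_eq, E_add]
  linear_combination (ka x * ka (x + y) * ka y * (pp ^ 3 * E x ^ 3 * E y ^ 4 - pp ^ 3 * E x ^ 3 * E y ^ 6 - pp ^ 3 * E x ^ 5 * E y ^ 4 + pp ^ 3 * E x ^ 5 * E y ^ 8 + pp ^ 3 * E x ^ 7 * E y ^ 6 - pp ^ 3 * E x ^ 7 * E y ^ 8 - pp ^ 7 * E x ^ 3 * E y ^ 4 + pp ^ 7 * E x ^ 3 * E y ^ 6 + pp ^ 7 * E x ^ 5 * E y ^ 4 - pp ^ 7 * E x ^ 5 * E y ^ 8 - pp ^ 7 * E x ^ 7 * E y ^ 6 + pp ^ 7 * E x ^ 7 * E y ^ 8 - pp ^ 9 * E x * E y ^ 2 + pp ^ 9 * E x * E y ^ 4 + pp ^ 9 * E x ^ 3 * E y ^ 4 - pp ^ 9 * E x ^ 3 * E y ^ 6 + pp ^ 9 * E x ^ 5 * E y ^ 2 - pp ^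 9 * E x ^ 5 * E y ^ 4 - pp ^ 9 * E x ^ 7 * E y ^ 4 + pp ^ 9 * E x ^ 7 * E y ^ 6 + pp ^ 13 * E x * E y ^ 2 - pp ^ 13 * E x * E y ^ 4 - pp ^ 13 * E x ^ 3 * E y ^ 4 + pp ^ 13 * E x ^ 3 * E y ^ 6 - pp ^ 13 * E x ^ 5 * E y ^ 2 + pp ^ 13 * E x ^ 5 * E y ^ 4 + pp ^ 13 * E x ^ 7 * E y ^ 4 - pp ^ 13 * E x ^ 7 * E y ^ 6 + pp ^ 15 * E x - pp ^ 15 * E x * E y ^ 2 - pp ^ 15 * E x ^ 3 + pp ^ 15 * E x ^ 3 * E y ^ 4 + pp ^ 15 * E x ^ 5 * E y ^ 2 - pp ^ 15 * E x ^ 5 * E y ^ 4 - pp ^ 19 * E x + pp ^ 19 * E x * E y ^ 2 + pp ^ 19 * E x ^ 3 - pp ^ 19 * E x ^ 3 * E y ^ 4 - pp ^ 19 * E x ^ 5 * E y ^ 2 + pp ^ 19 * E x ^ 5 * E y ^ 4)) * pp8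

theorem yb22 (x y : ℂ) : w4 x * kk (x + y) * w4 y + w8 x * w2 (x + y) * w9 y + w9 x * w2 (x + y) * w8 y =
    w2 x * w9 (x + y) * w2 y := by
  simp only [kk_eq, w2_eq, w4_eq, w6_eq, w8_eq, w9_eq, E_add]
  linear_combination (ka x * ka (x + y) * ka y * (pp ^ 4 * E x ^ 5 * E y ^ 5 - pp ^ 4 * E x ^ 5 * E y ^ 7 - pp ^ 4 * E x ^ 7 * E y ^ 5 + pp ^ 4 * E x ^ 7 * E y ^ 7 + pp ^ 6 * E x * E y - pp ^ 6 * E x * E y ^ 3 - pp ^ 6 * E x ^ 3 * E y + pp ^ 6 * E x ^ 3 * E y ^ 7 + pp ^ 6 * E x ^ 5 * E y ^ 5 - pp ^ 6 * E x ^ 5 * E y ^ 7 + pp ^ 6 * E x ^ 7 * E y ^ 3 - pp ^ 6 * E x ^ 7 * E y ^ 5 - 2 * pp ^ 10 * E x * E y + 2 * pp ^ 10 * E x * E y ^ 3 + 2 * pp ^ 10 * E x ^ 3 * E y - pp ^ 10 * E x ^ 3 * E y ^ 3 - pp ^ 10 * E x ^ 3 * E y ^ 7 - pp ^ 10 * E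 x ^ 5 * E y ^ 5 + pp ^ 10 * E x ^ 5 * E y ^ 7 - pp ^ 10 * E x ^ 7 * E y ^ 3 + pp ^ 10 * E x ^ 7 * E y ^ 5 + pp ^ 12 * E x * E y ^ 3 - pp ^ 12 * E x * E y ^ 5 + pp ^ 12 * E x ^ 3 * E y - pp ^ 12 * E x ^ 3 * E y ^ 3 - pp ^ 12 * E x ^ 5 * E y - pp ^ 12 * E x ^ 5 * E y ^ 5 + 2 * pp ^ 12 * E x ^ 5 * E y ^ 7 + 2 * pp ^ 12 * E x ^ 7 * E y ^ 5 - 2 * pp ^ 12 * E x ^ 7 * E y ^ 7 - pp ^ 16 * E x * E y ^ 3 + pp ^ 16 * E x * E y ^ 5 - pp ^ 16 * E x ^ 3 * E y + pp ^ 16 * E x ^ 3 * E y ^ 3 + pp ^ 16 * E x ^ 5 * E y - pp ^ 16 * E x ^ 5 * E y ^ 7 - pp ^ 16 * E x ^ 7 * E y ^ 5 + pp ^ 16 * E x ^ 7 * E y ^ 7 + pp ^ 18 * E x * E y - pp ^ 18 * E x * E y ^ 3 - pp ^ 18 * E x ^ 3 * E y + pp ^ 18 * E x ^ 3 * E y ^ 3)) * pp8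

theorem yb23 (x y : ℂ) : w4 x * w4 (x + y) * w6 y + w9 x * w6 (x + y) * w2 y =
    w6 x * w9 (x + y) * w2 y := by
  simp only [kk_eq, w2_eq, w4_eq, w6_eq, w8_eq, w9_eq, E_add]
  ring

theorem yb24 (x y : ℂ) : w2 x * w6 (x + y) * w9 y + w6 x * w4 (x + y) * w4 y =
    w2 x * w9 (x + y) * w6 y := by
  simp only [kk_eq, w2_eq, w4_eq, w6_eq, w8_eq, w9_eq, E_add]
  ring

end Pool.Agent.BEX.AY
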