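import Pool.Agent.BEX.AYb2

/-!
# BEX, part A: reduction of the Yang–Baxter equation to 14 local states
-/

namespace Pool.Agent.BEX

open Function

/-- The Yang–Baxter equation at the state `m`. -/
def YbeAt {ι : Type*} [DecidableEq ι] (p q r : ι) (m : St ι) : Prop :=
  ∀ (x y : ℂ) (F : St ι → ℂ),
    Rt p q x (Rt p r (x + y) (Rt q r y F)) m = Rt q r y (Rt p r (x + y) (Rt p q x F)) m

theorem YbeAt.of_map {α ι : Type*} [DecidableEq α] [DecidableEq ι] {p q r : α} {ν : St α}
    (hν : YbeAt p q r ν) (f : α → ι) (hf : Injective f) (m : St ι)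
    (hm : ∀ a, m (f a) = f (ν a)) : YbeAt (f p) (f q) (f r) m := by
  intro x y F
  have h : Stab f m := fun a => ⟨_, hm a⟩
  rw [← Phi_self hf h ν hm, Rt_Phi3, Rt_Phi3]
  exact hν x y _

/-- The 14 local states. -/
structure Loc : Prop where
  t30 : YbeAt (0 : Fin 3) 1 2 ⟨![0, 1, 2], by decide⟩
  t31 : YbeAt (0 : Fin 3) 1 2 ⟨![1, 0, 2], by decide⟩
  t32 : YbeAt (0 : Fin 3) 1 2 ⟨![2, 1, 0], by decide⟩
  t33 : YbeAt (0 : Fin 3) 1 2 ⟨![0, 2, 1], by decide⟩
  t40 : YbeAt (0 : Fin 4) 1 2 ⟨![3, 1, 2, 0], by decide⟩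
  t41 : YbeAt (0 : Fin 4) 1 2 ⟨![3, 2, 1, 0], by decide⟩
  t42 : YbeAt (0 : Fin 4) 1 2 ⟨![0, 3, 2, 1], by decide⟩
  t43 : YbeAt (0 : Fin 4) 1 2 ⟨![2, 3, 0, 1], by decide⟩
  t44 : YbeAt (0 : Fin 4) 1 2 ⟨![0, 1, 3, 2], by decide⟩
  t45 : YbeAt (0 : Fin 4) 1 2 ⟨![1, 0, 3, 2], by decide⟩
  t50 : YbeAt (0 : Fin 5) 1 2 ⟨![3, 4, 2, 0, 1], by decide⟩
  t51 : YbeAt (0 : Fin 5) 1 2 ⟨![3, 1, 4, 0, 2], by decide⟩
  t52 : YbeAt (0 : Fin 5) 1 2 ⟨![0, 3, 4, 1, 2], by decide⟩
  t60 : YbeAt (0 : Fin 6) 1 2 ⟨![3, 4, 5, 0, 1, 2], by decide⟩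

theorem inj3 {ι : Type*} {a b c : ι} (h1 : a ≠ b) (h2 : a ≠ c) (h3 : b ≠ c) :
    Injective ![a, b, c] := by
  intro i j
  fin_cases i <;> fin_cases j <;> simp [h1, h2, h3, h1.symm, h2.symm, h3.symm]

theorem inj4 {ι : Type*} {a b c d : ι} (h1 : a ≠ b) (h2 : a ≠ c) (h3 : b ≠ c) (h4 : a ≠ d)
    (h5 : b ≠ d) (h6 : c ≠ d) : Injective ![a, b, c, d] := by
  intro i j
  fin_cases i <;> fin_cases j <;>
    simp [h1, h2, h3, h1.symm, h2.symm, h3.symm, h4, h5, h6, h4.symm, h5.symm, h6.symm]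

theorem inj5 {ι : Type*} {a b c d e : ι} (h1 : a ≠ b) (h2 : a ≠ c) (h3 : b ≠ c) (h4 : a ≠ d)
    (h5 : b ≠ d) (h6 : c ≠ d) (h7 : a ≠ e) (h8 : b ≠ e) (h9 : c ≠ e) (h10 : d ≠ e) :
    Injective ![a, b, c, d, e] := by
  intro i j
  fin_cases i <;> fin_cases j <;>
    simp [h1, h2, h3, h1.symm, h2.symm, h3.symm, h4, h5, h6, h4.symm, h5.symm, h6.symm,
      h7, h8, h9, h10, h7.symm, h8.symm, h9.symm, h10.symm]

theorem inj6 {ι : Type*} {a b c d e g : ι} (h1 : a ≠ b) (h2 : a ≠ c) (h3 : b ≠ c) (h4 : a ≠ d)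
    (h5 : b ≠ d) (h6 : c ≠ d) (h7 : a ≠ e) (h8 : b ≠ e) (h9 : c ≠ e) (h10 : d ≠ e)
    (h11 : a ≠ g) (h12 : b ≠ g) (h13 : c ≠ g) (h14 : d ≠ g) (h15 : e ≠ g) :
    Injective ![a, b, c, d, e, g] := by
  intro i j
  fin_cases i <;> fin_cases j <;>
    simp [h1, h2, h3, h1.symm, h2.symm, h3.symm, h4, h5, h6, h4.symm, h5.symm, h6.symm,
      h7, h8, h9, h10, h7.symm, h8.symm, h9.symm, h10.symm, h11, h12, h13, h14, h15, h11.symm,
      h12.symm, h13.symm, h14.symm, h15.symm]

theorem St.ne_of_fix {ι : Type*} (m : St ι) {x y : ι} (hx : m x = x) (hxy : x ≠ y) : x ≠ m y :=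
  fun h => hxy (by rw [← hx, h]; simp)

theorem St.ne_symm {ι : Type*} (m : St ι) {x y : ι} (h : m x ≠ y) : m y ≠ x :=
  fun h' => h (by rw [← h']; simp)

theorem ybe_of_loc (L : Loc) {ι : Type*} [DecidableEq ι] {p q r : ι} (hpq : p ≠ q) (hpr : p ≠ r)
    (hqr : q ≠ r) (m : St ι) : YbeAt p q r m := by
  by_cases hp : m p = p
  · have hpmq := m.ne_of_fix hp hpq
    have hpmr := m.ne_of_fix hp hpr
    by_cases hq : m q = q
    · have hqmr := m.ne_of_fix hq hqr
      by_cases hr : m r = r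
      · exact L.t30.of_map ![p, q, r] (inj3 hpq hpr hqr) m
          (by intro a; fin_cases a <;> simp [hp, hq, hr])
      · exact L.t44.of_map ![p, q, r, m r] (inj4 hpq hpr hqr hpmr hqmr (Ne.symm hr)) m
          (by intro a; fin_cases a <;> simp [hp, hq])
    · by_cases hqr' : m q = r
      · have hrq : m r = q := by rw [← hqr']; simp
        exact L.t33.of_map ![p, q, r] (inj3 hpq hpr hqr) m
          (by intro a; fin_cases a <;> simp [hp, hqr', hrq])
      · by_cases hr : m r = r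
        · exact L.t42.of_map ![p, q, r, m q] (inj4 hpq hpr hqr hpmq (Ne.symm hq) (Ne.symm hqr')) m
            (by intro a; fin_cases a <;> simp [hp, hr])
        · exact L.t52.of_map ![p, q, r, m q, m r] (inj5 hpq hpr hqr hpmq (Ne.symm hq)
            (Ne.symm hqr') hpmr (Ne.symm (m.ne_symm hqr')) (Ne.symm hr)
            (fun h => hqr (m.inj h))) m
            (by intro a; fin_cases a <;> simp [hp])
  · by_cases hpq' : m p = q
    · have hqp : m q = p := by rw [← hpq']; simp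
      by_cases hr : m r = r
      · exact L.t31.of_map ![p, q, r] (inj3 hpq hpr hqr) m
          (by intro a; fin_cases a <;> simp [hpq', hqp, hr])
      · exact L.t45.of_map ![p, q, r, m r] (inj4 hpq hpr hqr
          (fun h => hqr (m.inj (hqp.trans h))) (fun h => hpr (m.inj (hpq'.trans h)))
          (Ne.symm hr)) m
          (by intro a; fin_cases a <;> simp [hpq', hqp])
    · by_cases hpr' : m p = r
      · have hrp : m r = p := by rw [← hpr']; simp
        by_cases hq : m q = q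
        · exact L.t32.of_map ![p, q, r] (inj3 hpq hpr hqr) m
            (by intro a; fin_cases a <;> simp [hpr', hrp, hq])
        · exact L.t43.of_map ![p, q, r, m q] (inj4 hpq hpr hqr
            (fun h => hqr.symm (m.inj (hrp.trans h))) (Ne.symm hq)
            (fun h => hpq (m.inj (hpr'.trans h)))) m
            (by intro a; fin_cases a <;> simp [hpr', hrp])
      · by_cases hq : m q = q
        · by_cases hr : m r = r
          · exact L.t40.of_map ![p, q, r, m p] (inj4 hpq hpr hqr (Ne.symm hp) (Ne.symm hpq')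
              (Ne.symm hpr')) m
              (by intro a; fin_cases a <;> simp [hq, hr])
          · exact L.t51.of_map ![p, q, r, m p, m r] (inj5 hpq hpr hqr (Ne.symm hp)
              (Ne.symm hpq') (Ne.symm hpr') (Ne.symm (m.ne_symm hpr')) (m.ne_of_fix hq hqr)
              (Ne.symm hr) (fun h => hpr (m.inj h))) m
              (by intro a; fin_cases a <;> simp [hq])
        · by_cases hqr' : m q = r
          · have hrq : m r = q := by rw [← hqr']; simp
            exact L.t41.of_map ![p, q, r, m p] (inj4 hpq hpr hqr (Ne.symm hp) (Ne.symm hpq')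
              (Ne.symm hpr')) m
              (by intro a; fin_cases a <;> simp [hqr', hrq])
          · by_cases hr : m r = r
            · exact L.t50.of_map ![p, q, r, m p, m q] (inj5 hpq hpr hqr (Ne.symm hp)
                (Ne.symm hpq') (Ne.symm hpr') (Ne.symm (m.ne_symm hpq')) (Ne.symm hq)
                (Ne.symm hqr') (fun h => hpq (m.inj h))) m
                (by intro a; fin_cases a <;> simp [hr])
            · exact L.t60.of_map ![p, q, r, m p, m q, m r] (inj6 hpq hpr hqr (Ne.symm hp)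
                (Ne.symm hpq') (Ne.symm hpr') (Ne.symm (m.ne_symm hpq')) (Ne.symm hq)
                (Ne.symm hqr') (fun h => hpq (m.inj h)) (Ne.symm (m.ne_symm hpr'))
                (Ne.symm (m.ne_symm hqr')) (Ne.symm hr) (fun h => hpr (m.inj h))
                (fun h => hqr (m.inj h))) m
                (by intro a; fin_cases a <;> simp)

end Pool.Agent.BEX
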