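import Pool.Agent.BEX.AYb1
import Pool.Agent.BEX.AYred

/-!
# BEX, part A: the 14 local states, and the Yang-Baxter equation
-/

namespace Pool.Agent.BEX

open AY

theorem loc : Loc where
  t30 := t3_012
  t31 := t3_102
  t32 := t3_210
  t33 := t3_021
  t40 := t4_3120
  t41 := t4_3210
  t42 := t4_0321
  t43 := t4_2301
  t44 := t4_0132
  t45 := t4_1032
  t50 := t5_34201
  t51 := t5_31402
  t52 := t5_03412
  t60 := t6_345012

/-- The Yang-Baxter equation (note 3044), for all states. -/
theorem rt_ybe {ι : Type*} [DecidableEq ι] {p q r : ι} (hpq : p ≠ q) (hpr : p ≠ r) (hqr : q ≠ r)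
    (x y : ℂ) (F : St ι → ℂ) :
    Rt p q x (Rt p r (x + y) (Rt q r y F)) = Rt q r y (Rt p r (x + y) (Rt p q x F)) :=
  funext fun m => ybe_of_loc loc hpq hpr hqr m x y F

end Pool.Agent.BEX
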