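import Pool.Agent.BEX.CUp

/-!
Project BEX, part C: milestone 1 in the form of the interface, and the total mass of the arcs.

PAPER PROOFS. `C1`: `C = 6 / xc²`, `xc = 1 / mu`. For `m ≥ 2`: `one_le m`, `bn (m / 2) = ms xE (Br (m / 2 - 1))` and
`xE ^ 2 * ms xE (Br k) ≤ ms xE (Br (k + 1))` (append `rt W :: [true]`: `join_Br`, `Br_true`; injective; `ms_cat`-like or `ms_inj`
is not enough (the length changes), use `ms_rel` or `ENNReal.tsum_comp_le_tsum_of_injective`). For `m ≤ 1`: `m / 2 = 0` and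
`xE ^ 2 ≤ ms xE (Br 0)` (`Br_zero`). `arc_total`: `HA_le`, `sn_c3`. `H_of`: let `t = c3 * (ms xE HA).toReal ≤ 1`. By `hD2` and
`SA L ⊆ HA`, `c3 * S L ≤ t`, so `(1 - t)² ≤ (1 - c3 S L)(1 - c3 S (L + 1)) ≤ C L^(-1/2)` for every `L ≥ 1`, hence `t = 1`.
-/

namespace Pool.Agent.BEX.C

open Pool.Agent.Hhelper14.SAW Pool.Agent.HHP Pool.Agent.HEP Pool.Agent.BEX
open scoped ENNReal

/-- One more column. -/
theorem Br_succ (k : ℕ) : xE ^ 2 * ms xE (Br k) ≤ ms xE (Br (k + 1)) := by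
  unfold ms
  rw [← ENNReal.tsum_mul_left]
  have hj : ∀ W : {W : List Bool // Br k W}, Br (k + 1) (W.1 ++ rt W.1 :: [true]) := fun W =>
    join_Br W.2 Br_true
  refine le_trans (le_of_eq ?_) (ENNReal.tsum_comp_le_tsum_of_injective
    (f := fun W : {W : List Bool // Br k W} =>
      (⟨W.1 ++ rt W.1 :: [true], hj W⟩ : {W : List Bool // Br (k + 1) W})) ?_ _)
  · refine tsum_congr fun W => ?_
    simp only [List.length_append, List.length_cons, List.length_nil]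
    rw [← pow_add]
    congr 1
    omega
  · intro W W' h
    have h1 : W.1 ++ rt W.1 :: [true] = W'.1 ++ rt W'.1 :: [true] := congrArg Subtype.val h
    have h2 := (List.append_inj' h1 (by simp)).1
    exact Subtype.ext h2

theorem C1 : ∃ C : ℝ, 0 < C ∧ ∀ m : ℕ,
    1 ≤ ENNReal.ofReal c3 * ms xE (TA m) + ENNReal.ofReal C * ms xE (Br (m / 2)) := by
  have hxc : 0 < xc := xc_pos
  have hx2 : 0 < xc ^ 2 := by positivity
  have hC : ENNReal.ofReal (6 / xc ^ 2) * xE ^ 2 = 6 := by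
    unfold xE
    rw [← ENNReal.ofReal_pow hxc.le, ← ENNReal.ofReal_mul (by positivity), div_mul_cancel₀ _ hx2.ne']
    norm_num
  refine ⟨6 / xc ^ 2, by positivity, fun m => ?_⟩
  rcases Nat.lt_or_ge m 2 with hm | hm
  · have h0 : m / 2 = 0 := by omega
    rw [h0]
    refine le_trans ?_ le_add_self
    calc (1 : ℝ≥0∞) ≤ 6 := by norm_num
      _ = ENNReal.ofReal (6 / xc ^ 2) * xE ^ 2 := hC.symm
      _ ≤ ENNReal.ofReal (6 / xc ^ 2) * ms xE (Br 0) := by gcongr; exact Br_zero xE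
  · have h1 := one_le m hm
    have h2 : 6 * bn (m / 2) ≤ ENNReal.ofReal (6 / xc ^ 2) * ms xE (Br (m / 2)) := by
      have h3 := Br_succ (m / 2 - 1)
      have h4 : m / 2 - 1 + 1 = m / 2 := by omega
      rw [h4] at h3
      calc 6 * bn (m / 2) = ENNReal.ofReal (6 / xc ^ 2) * (xE ^ 2 * ms xE (Br (m / 2 - 1))) := by
            rw [← mul_assoc, hC, bn]
        _ ≤ ENNReal.ofReal (6 / xc ^ 2) * ms xE (Br (m / 2)) := by gcongr
    rw [← sn_c3, add_comm]
    exact h1.trans (add_le_add h2 le_rfl)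

theorem arc_total : ENNReal.ofReal c3 * ms xE HA ≤ 1 := by
  rw [← sn_c3]
  exact HA_le

theorem H_of (S : ℕ → ℝ) (hS : ∀ L, 0 ≤ S L)
    (hD2 : ∀ L : ℕ, 1 ≤ L → ENNReal.ofReal (S L) ≤ ms xE (SA L))
    (hP : ∃ C : ℝ, 0 < C ∧ ∀ L : ℕ, 1 ≤ L → 0 < 1 - c3 * S L ∧
      (1 - c3 * S L) * (1 - c3 * S (L + 1)) ≤ C * (L : ℝ) ^ (-(1 / 2) : ℝ)) : ENNReal.ofReal c3 * ms xE HA = 1 := by
  obtain ⟨C, hC, hP⟩ := hP
  have hc3 : 0 < c3 := by
    have h := sn_pos
    rw [sn_c3, ENNReal.ofReal_pos] at h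
    exact h
  have htot := arc_total
  have hA : ms xE HA ≠ ∞ := by
    intro h
    rw [h, ENNReal.mul_top (ENNReal.ofReal_pos.2 hc3).ne'] at htot
    exact absurd htot (by simp)
  set t : ℝ := c3 * (ms xE HA).toReal with ht
  have htE : ENNReal.ofReal c3 * ms xE HA = ENNReal.ofReal t := by
    rw [ht, ENNReal.ofReal_mul hc3.le, ENNReal.ofReal_toReal hA]
  have ht1 : t ≤ 1 := by
    rw [htE] at htot
    exact ENNReal.ofReal_le_one.1 htot
  have hSt : ∀ L : ℕ, 1 ≤ L → c3 * S L ≤ t := by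
    intro L hL
    have h1 : ENNReal.ofReal (S L) ≤ ms xE HA := (hD2 L hL).trans (ms_mono fun W h => h.1)
    have h2 : S L ≤ (ms xE HA).toReal := (ENNReal.ofReal_le_iff_le_toReal hA).1 h1
    exact mul_le_mul_of_nonneg_left h2 hc3.le
  have hle : ∀ L : ℕ, 1 ≤ L → (1 - t) ^ 2 ≤ C * (L : ℝ) ^ (-(1 / 2) : ℝ) := by
    intro L hL
    have h1 := hSt L hL
    have h2 := hSt (L + 1) (by omega)
    refine le_trans ?_ (hP L hL).2
    rw [sq]
    exact mul_le_mul (by linarith) (by linarith) (by linarith) (by linarith)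
  have hlim : Filter.Tendsto (fun L : ℕ => C * (L : ℝ) ^ (-(1 / 2) : ℝ)) Filter.atTop (nhds 0) := by
    have h1 := (tendsto_rpow_neg_atTop (show (0 : ℝ) < 1 / 2 by norm_num)).comp
      tendsto_natCast_atTop_atTop
    have h2 := h1.const_mul C
    rw [mul_zero] at h2
    exact h2
  have h0 : (1 - t) ^ 2 ≤ 0 :=
    ge_of_tendsto hlim (Filter.eventually_atTop.2 ⟨1, fun L hL => hle L hL⟩)
  have h1 : 1 - t = 0 := by
    have := sq_nonneg (1 - t)
    exact pow_eq_zero_iff (two_ne_zero) |>.1 (le_antisymm h0 this)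
  rw [htE, show t = 1 by linarith, ENNReal.ofReal_one]

end Pool.Agent.BEX.C
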