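import Pool.Agent.BEX.Iface
import Pool.Agent.HEP.GFar
import Pool.Agent.HEP.GRefl
import Pool.Agent.HEP.GRev

/-!
Project BEX, part C (half plane). DEFINITIONS. Honeycomb lattice, words of turns (`V`, `E`, `Dr`, `Br`, `ms`, `xE` as in
`HHP/Defs`; `F0 z = 2 z.1 + z.2`, `F1 z = z.1 + 2 z.2`, `F5 z = z.1 - z.2 = F0 z - F1 z`; `HA`, `TA`, `SA`, `LA` as in `Iface`). The walks
start at `o`, heading `(1, 0)`, from the base leg `0` of the half plane `0 ≤ F0`. The base leg `k` ends at the vertex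
`(-k, 2 k)`, where `F0 = 0`, `F1 = 3 k`, `F5 = -3 k`. All masses are in `[0, ∞]`, weight `xE` per vertex.
`cs = cos (π / 8) = sin (3 π / 8)`, `sn = sin (π / 8) = cos (3 π / 8) = c3`.
-/

namespace Pool.Agent.BEX.C

open Pool.Agent.Hhelper14.SAW Pool.Agent.HHP Pool.Agent.HEP Pool.Agent.BEX
open scoped ENNReal

/-- `cos (π / 8)`. -/
noncomputable def cs : ℝ≥0∞ := ENNReal.ofReal (Real.cos (Real.pi / 8))

/-- `sin (π / 8) = cos (3 π / 8)`. -/
noncomputable def sn : ℝ≥0∞ := ENNReal.ofReal (Real.sin (Real.pi / 8))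

lemma sn_c3 : sn = ENNReal.ofReal c3 := by
  unfold sn c3
  rw [← Real.cos_pi_div_two_sub]
  congr 2
  ring

lemma sn_pos : 0 < sn := by
  unfold sn
  rw [ENNReal.ofReal_pos]
  exact Real.sin_pos_of_pos_of_lt_pi (by positivity) (by linarith [Real.pi_pos])

lemma sn_top : sn ≠ ∞ := ENNReal.ofReal_ne_top

lemma cs_pos : 0 < cs := by
  unfold cs
  rw [ENNReal.ofReal_pos]
  exact Real.cos_pos_of_mem_Ioo ⟨by linarith [Real.pi_pos], by linarith [Real.pi_pos]⟩

lemma cs_top : cs ≠ ∞ := ENNReal.ofReal_ne_top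

/-- Self-avoiding words of the trapezoid with `T + 1` columns, base legs `-b, ..., a`. -/
def Tz (T a b : ℕ) (W : List Bool) : Prop :=
  (V W).Nodup ∧ ∀ z ∈ V W, 0 ≤ F0 z ∧ F0 z ≤ 3 * T + 1 ∧ F1 z ≤ 3 * a ∧ F5 z ≤ 3 * b

/-- Self-avoiding words of the half plane. -/
def Hp (W : List Bool) : Prop := (V W).Nodup ∧ ∀ z ∈ V W, 0 ≤ F0 z

/-- Self-avoiding words of the wedge of 60 degrees with the base legs `k ≤ a`. -/
def Wg (a : ℕ) (W : List Bool) : Prop := Hp W ∧ ∀ z ∈ V W, F1 z ≤ 3 * a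

/-- The word ends on the base, at a leg `≠ 0`. -/
def EB (W : List Bool) : Prop := F0 (E W) = 0 ∧ W ≠ []

/-- The leg at which a word with `EB` ends. -/
def ee (W : List Bool) : ℤ := -(E W).1

lemma HA_iff (W : List Bool) : HA W ↔ Hp W ∧ EB W := by
  unfold HA Hp EB
  tauto

/-- Mass of the bridges of `N` columns, `N ≥ 1`. -/
noncomputable def bn (N : ℕ) : ℝ≥0∞ := ms xE (Br (N - 1))

lemma bn_le_one (N : ℕ) : bn N ≤ 1 := Br_one _

lemma bn_anti : Antitone bn := fun _ _ h => br_anti (Nat.sub_le_sub_right h 1)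

/-- Mass of the walks of the wedge which leave through the side. -/
noncomputable def Eg (a : ℕ) : ℝ≥0∞ := ms xE (fun W => Wg a W ∧ F1 (E W) = 3 * a)

/-- The same, leaving in the column `s`. -/
noncomputable def Gm (a s : ℕ) : ℝ≥0∞ := ms xE (fun W => Wg a W ∧ F1 (E W) = 3 * a ∧ F0 (E W) = 3 * s)

/-- Arcs which end at the leg `k` and are not contained in the wedge of the base legs `≤ a`. -/
noncomputable def mk (k : ℤ) (a : ℕ) : ℝ≥0∞ := ms xE (fun W => HA W ∧ ee W = k ∧ ∃ z ∈ V W, 3 * (a : ℤ) < F1 z)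

/-- Arcs which are not contained in the wedge of the base legs `≤ a`. -/
noncomputable def Mt (a : ℕ) : ℝ≥0∞ := ms xE (fun W => HA W ∧ ∃ z ∈ V W, 3 * (a : ℤ) < F1 z)

/-- Arcs with end at a leg `> K`. -/
noncomputable def Ag (K : ℕ) : ℝ≥0∞ := ms xE (fun W => HA W ∧ (K : ℤ) < ee W)

end Pool.Agent.BEX.C
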