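import Pool.Agent.BEX.CTot

/-!
Project BEX, part C: the telescoping argument.

PAPER PROOF. Let `P a`, `N a` be the two masses of `Mt_diff` (ends to the right and to the left). `P a = ∑' k ≥ 1, mk k a`,
`N a = ∑' k ≥ 1, mk (-k) a` (`ms_fiber` with `ee`; `ee W ≠ 0` since `E W ≠ o`). Sum `Mt_diff` over `a ∈ (R, 2 R]`, with
`Eg (2 R) ≤ Eg a` (`Eg_anti`): `cs * ∑ N a + R * (sn * Eg (2 R)) ≤ cs * ∑ P a`. For each `a`, `P a ≤ Ag K + ∑ 1 ≤ k ≤ K, mk k a` and
`mk k a = mk (-k) (a - k)` (`mk_rev`, `k ≤ K ≤ R ≤ a`). For `1 ≤ k ≤ K`: `∑ a ∈ (R, 2 R], mk (-k) (a - k) ≤ k * mk (-k) (R - K) +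
∑ a ∈ (R, 2 R], mk (-k) a` (the values `a - k ∈ (R - k, R]` are `k` terms, each `≤ mk (-k) (R - K)` as `mk (-k)` is antitone and
`R - k + 1 ≥ R - K`; the values in `(R, 2 R - k]` are in the second sum). Sum over `k`: `∑ k, k * mk (-k) (R - K) ≤ K * Mt (R - K)` and
`∑ k ∑ a, mk (-k) a ≤ ∑ a, N a`. So `cs * ∑ N a + R * (sn * Eg (2 R)) ≤ cs * (R * Ag K + K * Mt (R - K) + ∑ N a)`; all finite
(`HA_le`), cancel; multiply by `sn`, `Mt_eq`.
-/

namespace Pool.Agent.BEX.C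

open Pool.Agent.Hhelper14.SAW Pool.Agent.HHP Pool.Agent.HEP Pool.Agent.BEX
open scoped ENNReal

private lemma sum_ms_le {ι : Type*} (y : ℝ≥0∞) (s : Finset ι) (P : List Bool → Prop) (Q : ι → List Bool → Prop)
    (h : ∀ i ∈ s, ∀ W, Q i W → P W) (h' : ∀ i ∈ s, ∀ j ∈ s, ∀ W, Q i W → Q j W → i = j) :
    ∑ i ∈ s, ms y (Q i) ≤ ms y P := by
  classical
  simp only [ms_ind]
  rw [← Summable.tsum_finsetSum (fun i _ => ENNReal.summable)]
  refine ENNReal.tsum_le_tsum fun W => ?_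
  by_cases hQ : ∃ i ∈ s, Q i W
  · obtain ⟨i, hi, hQ⟩ := hQ
    rw [Finset.sum_eq_single_of_mem i hi, if_pos hQ, if_pos (h i hi W hQ)]
    intro j hj hji
    rw [if_neg fun hQ' => hji (h' j hj i hi W hQ' hQ)]
  · push Not at hQ
    rw [Finset.sum_eq_zero fun i hi => if_neg (hQ i hi)]
    exact bot_le

private lemma mk_anti (k : ℤ) : Antitone (mk k) := by
  intro a b hab
  refine ms_mono fun W hW => ?_
  obtain ⟨h1, h2, z, hz, h3⟩ := hW
  refine ⟨h1, h2, z, hz, ?_⟩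
  have : (a : ℤ) ≤ b := by exact_mod_cast hab
  linarith

private lemma shift_sum (g : ℕ → ℝ≥0∞) (hg : Antitone g) {K R k : ℕ} (hk : k ≤ K) (hK : K ≤ R) (n : ℕ) :
    ∑ i ∈ Finset.range n, g (R + 1 + i - k) ≤ k * g (R - K) + ∑ i ∈ Finset.range n, g (R + 1 + i) := by
  calc ∑ i ∈ Finset.range n, g (R + 1 + i - k) ≤ ∑ i ∈ Finset.range (k + n), g (R + 1 + i - k) :=
        Finset.sum_le_sum_of_subset (Finset.range_mono (Nat.le_add_left _ _))
    _ = ∑ i ∈ Finset.range k, g (R + 1 + i - k) + ∑ i ∈ Finset.range n, g (R + 1 + (k + i) - k) := by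
        rw [Finset.sum_range_add]
    _ ≤ ∑ i ∈ Finset.range k, g (R - K) + ∑ i ∈ Finset.range n, g (R + 1 + i) := by
        refine add_le_add (Finset.sum_le_sum fun i _ => hg (by omega)) (le_of_eq ?_)
        refine Finset.sum_congr rfl fun i _ => ?_
        congr 1
        omega
    _ = _ := by simp

theorem tel (H : sn * ms xE HA = 1) {K R : ℕ} (hK : K ≤ R) :
    R * (sn ^ 2 * Eg (2 * R)) ≤ cs * (R * (sn * Ag K) + K * (cs * Eg (R - K))) := by
  set P : ℕ → ℝ≥0∞ := fun a => ms xE (fun W => HA W ∧ 0 < ee W ∧ ∃ z ∈ V W, 3 * (a : ℤ) < F1 z) with hP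
  set N : ℕ → ℝ≥0∞ := fun a => ms xE (fun W => HA W ∧ ee W < 0 ∧ ∃ z ∈ V W, 3 * (a : ℤ) < F1 z) with hN
  have hHA : ms xE HA ≠ ∞ := by
    intro h
    rw [h, ENNReal.mul_top sn_pos.ne'] at H
    exact ENNReal.top_ne_one H
  have hNtop : ∀ a, N a ≠ ∞ := fun a => ne_top_of_le_ne_top hHA (ms_mono fun W hW => hW.1)
  have hPle : ∀ a, P a ≤ Ag K + ∑ j ∈ Finset.range K, mk ((j + 1 : ℕ) : ℤ) a := by
    intro a
    simp only [hP]
    rw [ms_split xE _ (fun W => (K : ℤ) < ee W)]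
    refine add_le_add (ms_mono fun W hW => ⟨hW.1.1, hW.2⟩) (ms_union _ ?_)
    rintro W ⟨⟨h1, h2, h3⟩, h4⟩
    refine ⟨(ee W).toNat - 1, ?_, h1, ?_, h3⟩
    · rw [Finset.mem_range]
      omega
    · omega
  have hNle : ∀ a, ∑ j ∈ Finset.range K, mk (-((j + 1 : ℕ) : ℤ)) a ≤ N a := by
    intro a
    refine sum_ms_le _ _ _ _ ?_ ?_
    · rintro j _ W ⟨h1, h2, h3⟩
      refine ⟨h1, ?_, h3⟩
      omega
    · rintro i _ j _ W ⟨_, h2, _⟩ ⟨_, h4, _⟩
      omega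
  have hMle : ∀ a, ∑ j ∈ Finset.range K, mk (-((j + 1 : ℕ) : ℤ)) a ≤ Mt a := by
    intro a
    refine (hNle a).trans (ms_mono fun W hW => ⟨hW.1, hW.2.2⟩)
  -- the sums over the columns
  have hS : ∑ i ∈ Finset.range R, P (R + 1 + i) ≤ R * Ag K + (K * Mt (R - K) + ∑ i ∈ Finset.range R, N (R + 1 + i)) := by
    calc ∑ i ∈ Finset.range R, P (R + 1 + i)
        ≤ ∑ i ∈ Finset.range R, (Ag K + ∑ j ∈ Finset.range K, mk ((j + 1 : ℕ) : ℤ) (R + 1 + i)) :=
          Finset.sum_le_sum fun i _ => hPle _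
      _ = R * Ag K + ∑ j ∈ Finset.range K, ∑ i ∈ Finset.range R, mk ((j + 1 : ℕ) : ℤ) (R + 1 + i) := by
          rw [Finset.sum_add_distrib, Finset.sum_comm]
          simp
      _ ≤ R * Ag K + ∑ j ∈ Finset.range K, ((K : ℝ≥0∞) * mk (-((j + 1 : ℕ) : ℤ)) (R - K) +
            ∑ i ∈ Finset.range R, mk (-((j + 1 : ℕ) : ℤ)) (R + 1 + i)) := by
          refine add_le_add le_rfl (Finset.sum_le_sum fun j hj => ?_)
          rw [Finset.mem_range] at hj
          have h1 : ∀ i ∈ Finset.range R, mk ((j + 1 : ℕ) : ℤ) (R + 1 + i) =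
              mk (-((j + 1 : ℕ) : ℤ)) (R + 1 + i - (j + 1)) := by
            intro i _
            exact mk_rev (j + 1) (R + 1 + i) (by omega) (by omega)
          rw [Finset.sum_congr rfl h1]
          refine (shift_sum _ (mk_anti _) (by omega : j + 1 ≤ K) hK R).trans (add_le_add ?_ le_rfl)
          refine mul_le_mul_left (by exact_mod_cast (by omega : j + 1 ≤ K)) _
      _ = R * Ag K + (K * ∑ j ∈ Finset.range K, mk (-((j + 1 : ℕ) : ℤ)) (R - K) +
            ∑ i ∈ Finset.range R, ∑ j ∈ Finset.range K, mk (-((j + 1 : ℕ) : ℤ)) (R + 1 + i)) := by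
          rw [Finset.sum_add_distrib, ← Finset.mul_sum, Finset.sum_comm]
      _ ≤ _ := by
          refine add_le_add le_rfl (add_le_add (mul_le_mul_right (hMle _) _) (Finset.sum_le_sum fun i _ => hNle _))
  have hE : R * (sn * Eg (2 * R)) ≤ ∑ i ∈ Finset.range R, sn * Eg (R + 1 + i) := by
    calc R * (sn * Eg (2 * R)) = ∑ i ∈ Finset.range R, sn * Eg (2 * R) := by simp
      _ ≤ _ := Finset.sum_le_sum fun i hi => mul_le_mul_right (Eg_anti (by
          rw [Finset.mem_range] at hi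
          omega)) _
  have hD : cs * ∑ i ∈ Finset.range R, P (R + 1 + i) =
      cs * ∑ i ∈ Finset.range R, N (R + 1 + i) + ∑ i ∈ Finset.range R, sn * Eg (R + 1 + i) := by
    rw [Finset.mul_sum, Finset.mul_sum, ← Finset.sum_add_distrib]
    exact Finset.sum_congr rfl fun i _ => Mt_diff H _
  have hmain : R * (sn * Eg (2 * R)) ≤ cs * (R * Ag K + K * Mt (R - K)) := by
    have hfin : cs * ∑ i ∈ Finset.range R, N (R + 1 + i) ≠ ∞ :=
      ENNReal.mul_ne_top cs_top (ENNReal.sum_ne_top.2 fun i _ => hNtop _)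
    refine (ENNReal.add_le_add_iff_left hfin).1 ?_
    calc cs * ∑ i ∈ Finset.range R, N (R + 1 + i) + R * (sn * Eg (2 * R))
        ≤ cs * ∑ i ∈ Finset.range R, P (R + 1 + i) := by
          rw [hD]
          exact add_le_add le_rfl hE
      _ ≤ cs * (R * Ag K + (K * Mt (R - K) + ∑ i ∈ Finset.range R, N (R + 1 + i))) := mul_le_mul_right hS _
      _ = _ := by ring
  calc R * (sn ^ 2 * Eg (2 * R)) = sn * (R * (sn * Eg (2 * R))) := by ring
    _ ≤ sn * (cs * (R * Ag K + K * Mt (R - K))) := mul_le_mul_right hmain _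
    _ = cs * (R * (sn * Ag K) + K * (sn * Mt (R - K))) := by ring
    _ = _ := by rw [Mt_eq H]

end Pool.Agent.BEX.C
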