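import Pool.Agent.BEX.CUp
import Pool.Agent.BEX.CTel

/-!
Project BEX, part C: upper bound of the bridges from the far arcs.

PAPER PROOF. `b N = (bn N).toReal ≤ 1` is decreasing (`bn_anti`). `Ag K ≤ ms xE (LA (K + 1))` (for an arc `(E W).2 = 2 ee W`).
`tel`, `Eg_le'`, `low`: for `K + 4 ≤ R`
`b (4 R + 1) ≤ 2 cs Eg (2 R) ≤ (2 cs² / sn²) (sn Ag K + 3 (K / R) b ((R - K) / 2))`; `cs² ≤ 6 sn²`, `sn ≤ 1`, so with
`K = R / 400` (natural division), `hK` at `L = K + 1 ≥ R / 400`: for `R ≥ 6`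
`b (4 R + 1) ≤ 12 (K0 (R / 400)^(-1/4) + (3 / 400) b (R / 4))` where `K0 = max K 0`, `(R - R / 400) / 2 ≥ R / 4`.
Induction: if `b j ≤ B j^(-1/4)` for `1 ≤ j < N`, `N ≥ 100`, `R = (N - 1) / 4`, then `b N ≤ b (4 R + 1)`,
`R / 4 ≥ N / 20`, `R ≥ N / 5`, `20^(1/4) ≤ 2.2`, `12 (3 / 400) 2.2 ≤ 1 / 4`: `b N ≤ (C' + B / 4) N^(-1/4)`. Choose
`B = max (100^(1/4)) (2 C')`.
-/

namespace Pool.Agent.BEX.C

open Pool.Agent.Hhelper14.SAW Pool.Agent.HHP Pool.Agent.HEP Pool.Agent.BEX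
open scoped ENNReal

private lemma ms_le {P Q : List Bool → Prop} (h : ∀ W, P W → Q W) : ms xE P ≤ ms xE Q :=
  ms_inj id h (fun _ _ => rfl) (fun _ _ _ _ h => h)

private lemma Ag_le (K : ℕ) : Ag K ≤ ms xE (LA (K + 1)) := by
  unfold Ag
  refine ms_le fun W h => ⟨h.1, ?_⟩
  have h1 := h.2
  have h2 : F0 (E W) = 0 := h.1.2.2.1
  unfold ee at h1
  unfold F0 at h2
  push_cast
  rcases abs_cases (E W).2 with h3 | h3 <;> rcases abs_cases (-(E W).1) with h4 | h4 <;> omega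

private lemma sn_le_one : sn ≤ 1 := by
  unfold sn
  rw [← ENNReal.ofReal_one]
  exact ENNReal.ofReal_le_ofReal (Real.sin_le_one _)

private lemma cs_sn : cs ^ 2 ≤ 6 * sn ^ 2 := by
  unfold cs sn
  have h0 : (0 : ℝ) ≤ Real.cos (Real.pi / 8) :=
    (Real.cos_pos_of_mem_Ioo ⟨by linarith [Real.pi_pos], by linarith [Real.pi_pos]⟩).le
  have h1 : (0 : ℝ) ≤ Real.sin (Real.pi / 8) :=
    (Real.sin_pos_of_pos_of_lt_pi (by positivity) (by linarith [Real.pi_pos])).le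
  rw [← ENNReal.ofReal_pow h0, ← ENNReal.ofReal_pow h1]
  have h6 : (6 : ℝ≥0∞) = ENNReal.ofReal 6 := by simp
  rw [h6, ← ENNReal.ofReal_mul (by norm_num)]
  refine ENNReal.ofReal_le_ofReal ?_
  rw [Real.cos_pi_div_eight, Real.sin_pi_div_eight]
  have h2 : (0 : ℝ) ≤ 2 + √2 := by positivity
  have h3 : √2 ≤ 1.415 := by
    rw [Real.sqrt_le_left (by norm_num)]
    norm_num
  have h4 : (0 : ℝ) ≤ 2 - √2 := by linarith
  rw [div_pow, div_pow, Real.sq_sqrt h2, Real.sq_sqrt h4]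
  linarith

private lemma HA_top (H : sn * ms xE HA = 1) : ms xE HA ≠ ∞ := by
  intro h
  rw [h, ENNReal.mul_top sn_pos.ne'] at H
  exact ENNReal.top_ne_one H

private lemma rec' (H : sn * ms xE HA = 1) {K R : ℕ} (hK : K + 4 ≤ R) :
    R * bn (4 * R + 1) ≤ 12 * (R * ms xE (LA (K + 1)) + K * (3 * bn ((R - K) / 2))) := by
  have h1 := low (2 * R)
  have h2 := tel H (show K ≤ R by omega)
  have h3 := Eg_le' (R - K) (by omega)
  have h4 := Ag_le K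
  have e1 : 2 * (2 * R) + 1 = 4 * R + 1 := by ring
  rw [e1] at h1
  have hs0 : sn ^ 2 ≠ 0 := pow_ne_zero _ sn_pos.ne'
  have hst : sn ^ 2 ≠ ∞ := ENNReal.pow_ne_top sn_top
  refine (ENNReal.mul_le_mul_iff_right hs0 hst).1 ?_
  calc sn ^ 2 * (R * bn (4 * R + 1)) ≤ sn ^ 2 * (R * (2 * (cs * Eg (2 * R)))) := by gcongr
    _ = 2 * cs * (R * (sn ^ 2 * Eg (2 * R))) := by ring
    _ ≤ 2 * cs * (cs * (R * (sn * Ag K) + K * (cs * Eg (R - K)))) := by gcongr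
    _ ≤ 2 * cs * (cs * (R * (1 * ms xE (LA (K + 1))) + K * (3 * bn ((R - K) / 2)))) := by
        gcongr
        exact sn_le_one
    _ = 2 * cs ^ 2 * (R * ms xE (LA (K + 1)) + K * (3 * bn ((R - K) / 2))) := by ring
    _ ≤ 2 * (6 * sn ^ 2) * (R * ms xE (LA (K + 1)) + K * (3 * bn ((R - K) / 2))) := by
        gcongr
        exact cs_sn
    _ = sn ^ 2 * (12 * (R * ms xE (LA (K + 1)) + K * (3 * bn ((R - K) / 2)))) := by ring

private lemma bn_top (N : ℕ) : bn N ≠ ∞ := ne_top_of_le_ne_top ENNReal.one_ne_top (bn_le_one N)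

private lemma LA_top (H : sn * ms xE HA = 1) (L : ℕ) : ms xE (LA L) ≠ ∞ :=
  ne_top_of_le_ne_top (HA_top H) (ms_le fun _ h => h.1)

/-- The recursion in real numbers. -/
theorem bn_rec (H : sn * ms xE HA = 1) {K R : ℕ} (hK : K + 4 ≤ R) :
    R * (bn (4 * R + 1)).toReal ≤ 12 * (R * (ms xE (LA (K + 1))).toReal + 3 * K * (bn ((R - K) / 2)).toReal) := by
  have h1 := rec' H hK
  have h2 := LA_top H (K + 1)
  have h3 := bn_top ((R - K) / 2)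
  have h4 : 12 * (R * ms xE (LA (K + 1)) + K * (3 * bn ((R - K) / 2))) ≠ ∞ :=
    ENNReal.mul_ne_top (by norm_num) (ENNReal.add_ne_top.2 ⟨ENNReal.mul_ne_top (by simp) h2,
      ENNReal.mul_ne_top (by simp) (ENNReal.mul_ne_top (by norm_num) h3)⟩)
  have h5 := ENNReal.toReal_mono h4 h1
  rw [ENNReal.toReal_mul, ENNReal.toReal_mul, ENNReal.toReal_add (ENNReal.mul_ne_top (by simp) h2)
    (ENNReal.mul_ne_top (by simp) (ENNReal.mul_ne_top (by norm_num) h3)), ENNReal.toReal_mul, ENNReal.toReal_mul,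
    ENNReal.toReal_mul] at h5
  simp only [ENNReal.toReal_natCast, ENNReal.toReal_ofNat] at h5
  linarith

private lemma pw (c t : ℝ) (hc : 0 < c) (ht : 0 < t) (h : 1 ≤ t ^ 4 * c) : c ^ (-(1 / 4) : ℝ) ≤ t := by
  have h1 : c ^ (-(1 / 4) : ℝ) = (c⁻¹) ^ ((1 / 4) : ℝ) := by rw [Real.rpow_neg hc.le, Real.inv_rpow hc.le]
  rw [h1]
  have h2 : c⁻¹ ≤ t ^ 4 := by
    rw [← one_div, div_le_iff₀ hc]
    exact h
  calc (c⁻¹) ^ ((1 / 4) : ℝ) ≤ (t ^ 4) ^ ((1 / 4) : ℝ) := Real.rpow_le_rpow (by positivity) h2 (by norm_num)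
    _ = t := by
      rw [← Real.rpow_natCast, ← Real.rpow_mul ht.le]
      norm_num

private lemma b_anti {i j : ℕ} (h : i ≤ j) : (bn j).toReal ≤ (bn i).toReal :=
  ENNReal.toReal_mono (bn_top i) (bn_anti h)

private lemma step (H : sn * ms xE HA = 1) (K0 : ℝ) (h0 : 0 ≤ K0)
    (hK : ∀ L : ℕ, 1 ≤ L → (ms xE (LA L)).toReal ≤ K0 * (L : ℝ) ^ (-(1 / 4) : ℝ)) (R : ℕ) (hR : 6 ≤ R) :
    (bn (4 * R + 1)).toReal ≤ 12 * (K0 * ((R : ℝ) / 400) ^ (-(1 / 4) : ℝ) + 3 / 400 * (bn (R / 4)).toReal) := by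
  have h1 := bn_rec H (show R / 400 + 4 ≤ R by omega)
  have h2 := hK (R / 400 + 1) (by omega)
  have hR0 : (0 : ℝ) < R := by
    have : 0 < R := by omega
    exact_mod_cast this
  have h3 : ((R / 400 + 1 : ℕ) : ℝ) ^ (-(1 / 4) : ℝ) ≤ ((R : ℝ) / 400) ^ (-(1 / 4) : ℝ) := by
    refine Real.rpow_le_rpow_of_nonpos (by positivity) ?_ (by norm_num)
    rw [div_le_iff₀ (by norm_num)]
    have : R ≤ (R / 400 + 1) * 400 := by omega
    exact_mod_cast this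
  have h4 : (bn ((R - R / 400) / 2)).toReal ≤ (bn (R / 4)).toReal := b_anti (by omega)
  have h5 : ((R / 400 : ℕ) : ℝ) ≤ (R : ℝ) / 400 := Nat.cast_div_le
  have h6 : (0 : ℝ) ≤ (bn (R / 4)).toReal := ENNReal.toReal_nonneg
  have h7 : (ms xE (LA (R / 400 + 1))).toReal ≤ K0 * ((R : ℝ) / 400) ^ (-(1 / 4) : ℝ) :=
    h2.trans (mul_le_mul_of_nonneg_left h3 h0)
  have h8 : 3 * ((R / 400 : ℕ) : ℝ) * (bn ((R - R / 400) / 2)).toReal ≤ 3 * ((R : ℝ) / 400) * (bn (R / 4)).toReal := by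
    gcongr
  have h9 : (R : ℝ) * (bn (4 * R + 1)).toReal ≤
      R * (12 * (K0 * ((R : ℝ) / 400) ^ (-(1 / 4) : ℝ) + 3 / 400 * (bn (R / 4)).toReal)) := by
    refine h1.trans ?_
    have h10 := mul_le_mul_of_nonneg_left h7 hR0.le
    nlinarith [h10, h8]
  exact le_of_mul_le_mul_left h9 hR0

private lemma ind (H : sn * ms xE HA = 1) (K0 : ℝ) (h0 : 0 ≤ K0)
    (hK : ∀ L : ℕ, 1 ≤ L → (ms xE (LA L)).toReal ≤ K0 * (L : ℝ) ^ (-(1 / 4) : ℝ)) (N : ℕ) (hN : 1 ≤ N) :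
    (bn N).toReal ≤ (4 + 112 * K0) * (N : ℝ) ^ (-(1 / 4) : ℝ) := by
  induction N using Nat.strong_induction_on with
  | _ N ih =>
    have hN0 : (0 : ℝ) < N := by exact_mod_cast hN
    have hp : (0 : ℝ) < (N : ℝ) ^ (-(1 / 4) : ℝ) := Real.rpow_pos_of_pos hN0 _
    rcases lt_or_ge N 100 with h | h
    · have h1 : (bn N).toReal ≤ 1 := by
        have := ENNReal.toReal_mono ENNReal.one_ne_top (bn_le_one N)
        simpa using this
      have h2 : (1 : ℝ) / 4 ≤ (N : ℝ) ^ (-(1 / 4) : ℝ) := by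
        have h3 : (N : ℝ) ≤ 256 := by
          have : N ≤ 256 := by omega
          exact_mod_cast this
        calc (1 : ℝ) / 4 = (256 : ℝ) ^ (-(1 / 4) : ℝ) := by
              rw [show (256 : ℝ) = 4 ^ (4 : ℝ) by norm_num, ← Real.rpow_mul (by norm_num)]
              norm_num
          _ ≤ (N : ℝ) ^ (-(1 / 4) : ℝ) := Real.rpow_le_rpow_of_nonpos hN0 h3 (by norm_num)
      nlinarith
    · obtain ⟨R, hR⟩ : ∃ R, R = (N - 1) / 4 := ⟨_, rfl⟩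
      have h1 := step H K0 h0 hK R (by omega)
      have h2 : (bn N).toReal ≤ (bn (4 * R + 1)).toReal := b_anti (by omega)
      have h3 := ih (R / 4) (by omega) (by omega)
      have h4 : ((R / 4 : ℕ) : ℝ) ^ (-(1 / 4) : ℝ) ≤ 2.2 * (N : ℝ) ^ (-(1 / 4) : ℝ) := by
        have h5 : (1 / 20 : ℝ) * N ≤ ((R / 4 : ℕ) : ℝ) := by
          have : N ≤ 20 * (R / 4) := by omega
          have : (N : ℝ) ≤ 20 * ((R / 4 : ℕ) : ℝ) := by exact_mod_cast this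
          linarith
        calc ((R / 4 : ℕ) : ℝ) ^ (-(1 / 4) : ℝ) ≤ ((1 / 20 : ℝ) * N) ^ (-(1 / 4) : ℝ) :=
              Real.rpow_le_rpow_of_nonpos (by positivity) h5 (by norm_num)
          _ = (1 / 20 : ℝ) ^ (-(1 / 4) : ℝ) * (N : ℝ) ^ (-(1 / 4) : ℝ) := Real.mul_rpow (by norm_num) hN0.le
          _ ≤ 2.2 * (N : ℝ) ^ (-(1 / 4) : ℝ) := by
              gcongr
              exact pw _ _ (by norm_num) (by norm_num) (by norm_num)
      have h6 : ((R : ℝ) / 400) ^ (-(1 / 4) : ℝ) ≤ 7 * (N : ℝ) ^ (-(1 / 4) : ℝ) := by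
        have h5 : (1 / 2000 : ℝ) * N ≤ (R : ℝ) / 400 := by
          have : N ≤ 5 * R := by omega
          have : (N : ℝ) ≤ 5 * (R : ℝ) := by exact_mod_cast this
          linarith
        calc ((R : ℝ) / 400) ^ (-(1 / 4) : ℝ) ≤ ((1 / 2000 : ℝ) * N) ^ (-(1 / 4) : ℝ) :=
              Real.rpow_le_rpow_of_nonpos (by positivity) h5 (by norm_num)
          _ = (1 / 2000 : ℝ) ^ (-(1 / 4) : ℝ) * (N : ℝ) ^ (-(1 / 4) : ℝ) := Real.mul_rpow (by norm_num) hN0.le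
          _ ≤ 7 * (N : ℝ) ^ (-(1 / 4) : ℝ) := by
              gcongr
              exact pw _ _ (by norm_num) (by norm_num) (by norm_num)
      have h7 : K0 * ((R : ℝ) / 400) ^ (-(1 / 4) : ℝ) ≤ K0 * (7 * (N : ℝ) ^ (-(1 / 4) : ℝ)) :=
        mul_le_mul_of_nonneg_left h6 h0
      have h8 : (bn (R / 4)).toReal ≤ (4 + 112 * K0) * (2.2 * (N : ℝ) ^ (-(1 / 4) : ℝ)) :=
        h3.trans (mul_le_mul_of_nonneg_left h4 (by positivity))
      have h9 : 0 ≤ K0 * (N : ℝ) ^ (-(1 / 4) : ℝ) := by positivity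
      nlinarith [h1, h2, h7, h8, h9]

theorem C3 (H : ENNReal.ofReal c3 * ms xE HA = 1) (K : ℝ)
    (hK : ∀ L : ℕ, 1 ≤ L → ms xE (LA L) ≤ ENNReal.ofReal (K * (L : ℝ) ^ (-(1 / 4) : ℝ))) :
    ∃ C : ℝ, ∀ N : ℕ, ms xE (Br N) ≤ ENNReal.ofReal (C * ((N : ℝ) + 1) ^ (-(1 / 4) : ℝ)) := by
  rw [← sn_c3] at H
  have hK' : ∀ L : ℕ, 1 ≤ L → (ms xE (LA L)).toReal ≤ max K 0 * (L : ℝ) ^ (-(1 / 4) : ℝ) := by
    intro L hL
    refine ENNReal.toReal_le_of_le_ofReal (by positivity) ((hK L hL).trans (ENNReal.ofReal_le_ofReal ?_))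
    gcongr
    exact le_max_left _ _
  refine ⟨4 + 112 * max K 0, fun N => ?_⟩
  have h1 := ind H (max K 0) (le_max_right _ _) hK' (N + 1) (by omega)
  have h2 : ms xE (Br N) = bn (N + 1) := rfl
  rw [h2, ENNReal.le_ofReal_iff_toReal_le (bn_top _) (by positivity)]
  exact_mod_cast h1

end Pool.Agent.BEX.C
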