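import Pool.Agent.BEX.CDefs

/-!
Project BEX, part C: general facts on the masses `ms`.
-/

namespace Pool.Agent.BEX.C

open Pool.Agent.Hhelper14.SAW Pool.Agent.HHP Pool.Agent.HEP
open scoped ENNReal

/-- Monotone convergence. -/
theorem ms_sup (y : ℝ≥0∞) (P : ℕ → List Bool → Prop) (hP : ∀ n W, P n W → P (n + 1) W) :
    ms y (fun W => ∃ n, P n W) = ⨆ n, ms y (P n) := by
  classical
  have hmono : ∀ W, Monotone (fun n => if P n W then y ^ (W.length + 1) else 0) := by
    intro W
    refine monotone_nat_of_le_succ fun n => ?_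
    by_cases h : P n W
    · simp [h, hP n W h]
    · simp [h]
  simp only [ms_ind]
  have h1 : ∀ W, (if ∃ n, P n W then y ^ (W.length + 1) else 0) = ⨆ n, if P n W then y ^ (W.length + 1) else 0 := by
    intro W
    by_cases h : ∃ n, P n W
    · obtain ⟨n, hn⟩ := h
      rw [if_pos ⟨n, hn⟩]
      refine le_antisymm ?_ (iSup_le fun k => ?_)
      · refine le_trans (le_of_eq ?_) (le_iSup _ n)
        rw [if_pos hn]
      · split_ifs <;> simp
    · rw [if_neg h]
      push Not at h
      simp [h]
  simp only [h1]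
  refine le_antisymm ?_ (iSup_le fun n => ENNReal.tsum_le_tsum fun W => le_iSup (fun n => if P n W then y ^ (W.length + 1) else 0) n)
  rw [ENNReal.tsum_eq_iSup_sum]
  refine iSup_le fun s => ?_
  rw [ENNReal.finsetSum_iSup_of_monotone (fun W => hmono W)]
  exact iSup_mono fun n => ENNReal.sum_le_tsum _

theorem ms_congr {y : ℝ≥0∞} {P Q : List Bool → Prop} (h : ∀ W, P W ↔ Q W) : ms y P = ms y Q := by
  have : P = Q := funext fun W => propext (h W)
  rw [this]

theorem ms_split (y : ℝ≥0∞) (P Q : List Bool → Prop) :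
    ms y P = ms y (fun W => P W ∧ Q W) + ms y (fun W => P W ∧ ¬ Q W) := by
  classical
  simp only [ms_ind]
  rw [← ENNReal.tsum_add]
  refine tsum_congr fun W => ?_
  by_cases h : P W <;> by_cases h' : Q W <;> simp [h, h']

theorem ms_fiber {ι : Type*} (y : ℝ≥0∞) (P : List Bool → Prop) (f : List Bool → ι) :
    ms y P = ∑' i, ms y (fun W => P W ∧ f W = i) := by
  classical
  simp only [ms_ind]
  rw [ENNReal.tsum_comm]
  refine tsum_congr fun W => ?_
  by_cases h : P W
  · simp only [h, true_and, if_true]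
    rw [tsum_eq_single (f W)]
    · simp
    · intro i hi
      rw [if_neg (fun h => hi h.symm)]
  · simp [h]

/-- An injection which keeps the length. -/
theorem ms_inj {y : ℝ≥0∞} {P Q : List Bool → Prop} (f : List Bool → List Bool) (h1 : ∀ W, P W → Q (f W))
    (h2 : ∀ W, P W → (f W).length = W.length) (h3 : ∀ W W', P W → P W' → f W = f W' → W = W') : ms y P ≤ ms y Q := by
  unfold ms
  refine le_trans (le_of_eq ?_) (ENNReal.tsum_comp_le_tsum_of_injective (f := fun W : {W : List Bool // P W} =>
    (⟨f W.1, h1 W.1 W.2⟩ : {W : List Bool // Q W})) ?_ _)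
  · refine tsum_congr fun W => ?_
    simp only [h2 W.1 W.2]
  · intro W W' h
    exact Subtype.ext (h3 W.1 W'.1 W.2 W'.2 (congrArg Subtype.val h))

end Pool.Agent.BEX.C
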