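import Pool.Agent.BEX.CMon

/-!
Project BEX, part C: reversal and reflection.

PAPER PROOFS. `mk_rev`: the reversed word `rvw W` (`rvw_spec`) of an arc is an arc: `V (rvw W)` are the vertices of `W`
minus `E W`, in reverse order, `E (rvw W) = - E W`, and for `E W = (-k, 2 k)` one has `F1 (z - E W) = F1 z - 3 k`,
`F0 (z - E W) = F0 z`. So `rvw` maps the words of `mk k a` injectively (`rvw (rvw W) = W`) to those of `mk (-k) (a - k)`, and
conversely. (`¬ hz (Dr W)` for an arc: `Br.not_hz` is similar; the last vertex has `F0 = 0`, the vertex before has `F0 ≥ 0`.)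
`HA_refl`: `W ↦ W.map not` (`ms_not`, `V_not`, `E_not`, `F0_sg`), `ee (W.map not) = - ee W` when `F0 (E W) = 0`.
-/

namespace Pool.Agent.BEX.C

open Pool.Agent.Hhelper14.SAW Pool.Agent.HHP Pool.Agent.HEP Pool.Agent.BEX
open scoped ENNReal

private lemma CRev_not_hz {W : List Bool} (h : HA W) : ¬ hz (Dr W) := by
  obtain ⟨hN, hin, hE, hne⟩ := h
  rcases List.eq_nil_or_concat W with rfl | ⟨W', b, rfl⟩
  · exact absurd rfl hne
  · rw [List.concat_eq_append] at *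
    have e1 : V (W' ++ [b]) = V W' ++ [E W' + tn b (Dr W')] := by rw [V_append]; rfl
    have e2 : E (W' ++ [b]) = E W' + tn b (Dr W') := by rw [E_append]; rfl
    have e3 : Dr (W' ++ [b]) = tn b (Dr W') := by rw [Dr_append]; rfl
    rw [e3]
    have h1 := hin (E W') (by rw [e1]; exact List.mem_append_left _ (E_mem W'))
    rw [e2, F0_add] at hE
    rintro (h2 | h2) <;> rw [h2] at hE <;> simp only [F0] at hE h1
    · omega
    · have h3 := V_hon (E_mem W')
      unfold hon at h3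
      omega

private lemma CRev_main {W : List Bool} (h : HA W) :
    HA (rvw W) ∧ ee (rvw W) = -ee W ∧ (∀ c : ℤ, (∃ z ∈ V W, c < F1 z) → ∃ z ∈ V (rvw W), c - 3 * ee W < F1 z) ∧
      (rvw W).length = W.length ∧ rvw (rvw W) = W := by
  have hd := CRev_not_hz h
  obtain ⟨hN, hin, hE, hne⟩ := h
  obtain ⟨hV, hEr, -, hl, hrr⟩ := rvw_spec (by rw [hE]; rfl) hd
  refine ⟨⟨?_, ?_, ?_, ?_⟩, ?_, ?_, hl, hrr⟩
  · rw [hV]
    refine List.Nodup.map (fun x y hxy => ?_) (List.nodup_reverse.2 hN)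
    simpa using hxy
  · intro z hz
    rw [hV, List.mem_map] at hz
    obtain ⟨y, hy, rfl⟩ := hz
    have := hin y (List.mem_reverse.1 hy)
    simp only [F0, Prod.fst_sub, Prod.snd_sub] at *
    omega
  · rw [hEr]
    simp only [F0, Prod.fst_neg, Prod.snd_neg] at *
    omega
  · intro h0
    rw [h0] at hl
    exact hne (List.length_eq_zero_iff.1 hl.symm)
  · unfold ee
    rw [hEr]
    simp
  · rintro c ⟨z, hz, hc⟩
    refine ⟨z - E W, ?_, ?_⟩
    · rw [hV, List.mem_map]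
      exact ⟨z, List.mem_reverse.2 hz, rfl⟩
    · unfold ee
      simp only [F0, F1, Prod.fst_sub, Prod.snd_sub] at *
      omega

theorem mk_rev (k a : ℕ) (hk : 1 ≤ k) (hka : k ≤ a) : mk (k : ℤ) a = mk (-(k : ℤ)) (a - k) := by
  unfold mk
  refine le_antisymm (ms_inj rvw ?_ ?_ ?_) (ms_inj rvw ?_ ?_ ?_)
  · rintro W ⟨h, he, hz⟩
    obtain ⟨h1, h2, h3, -, -⟩ := CRev_main h
    refine ⟨h1, by rw [h2, he], ?_⟩
    obtain ⟨z, hz1, hz2⟩ := h3 _ hz
    exact ⟨z, hz1, by rw [he] at hz2; push_cast [hka]; omega⟩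
  · rintro W ⟨h, -⟩
    exact (CRev_main h).2.2.2.1
  · rintro W W' ⟨h, -⟩ ⟨h', -⟩ e
    rw [← (CRev_main h).2.2.2.2, e, (CRev_main h').2.2.2.2]
  · rintro W ⟨h, he, hz⟩
    obtain ⟨h1, h2, h3, -, -⟩ := CRev_main h
    refine ⟨h1, by rw [h2, he, neg_neg], ?_⟩
    obtain ⟨z, hz1, hz2⟩ := h3 _ hz
    exact ⟨z, hz1, by rw [he] at hz2; push_cast [hka] at hz2; omega⟩
  · rintro W ⟨h, -⟩
    exact (CRev_main h).2.2.2.1
  · rintro W W' ⟨h, -⟩ ⟨h', -⟩ e
    rw [← (CRev_main h).2.2.2.2, e, (CRev_main h').2.2.2.2]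

private lemma CRev_HA_not {W : List Bool} (h : HA W) : HA (W.map (! ·)) ∧ ee (W.map (! ·)) = -ee W := by
  obtain ⟨hN, hin, hE, hne⟩ := h
  refine ⟨⟨?_, ?_, ?_, ?_⟩, ?_⟩
  · rw [V_not]
    exact hN.map sg_inj
  · intro z hz
    rw [V_not, List.mem_map] at hz
    obtain ⟨y, hy, rfl⟩ := hz
    rw [F0_sg]
    exact hin y hy
  · rw [E_not, F0_sg]
    exact hE
  · simpa using hne
  · unfold ee
    rw [E_not]
    simp only [F0, sg] at *
    omega

private lemma CRev_not_not (W : List Bool) : (W.map (! ·)).map (! ·) = W := by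
  rw [List.map_map]
  have : ((fun b : Bool => !b) ∘ fun b : Bool => !b) = id := by
    funext b; simp
  rw [this, List.map_id]

theorem HA_refl (Q : ℤ → Prop) : ms xE (fun W => HA W ∧ Q (ee W)) = ms xE (fun W => HA W ∧ Q (-ee W)) := by
  rw [← ms_not xE (fun W => HA W ∧ Q (ee W))]
  refine ms_congr fun W => ⟨?_, ?_⟩
  · rintro ⟨h, hQ⟩
    obtain ⟨h1, h2⟩ := CRev_HA_not h
    rw [CRev_not_not] at h1 h2
    exact ⟨h1, by rw [h2, neg_neg]; exact hQ⟩
  · rintro ⟨h, hQ⟩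
    obtain ⟨h1, h2⟩ := CRev_HA_not h
    exact ⟨h1, by rw [h2]; exact hQ⟩

end Pool.Agent.BEX.C
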