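import Pool.Agent.BEX.CMon

/-!
Project BEX, part C: symmetry of the wedge.

PAPER PROOF. `Gm_symm`: let `W = [t_1, ..., t_n]` be a word of `Gm d s`: it ends at `v` with `F1 v = 3 d`, `F0 v = 3 s`, and can be
left by a step `(0, 1)`, with the turn `t` (`Dr W` is `(1, 0)` or `(-1, 1)`, never `(0, -1)`: then the vertex before `v` would be
`v + (0, 1)`, with `F1 > 3 d`; for `W = []` it is `(1, 0)`; type of `v`: `F1 v % 3 = 0`). Put `rf W = (W ++ [t]).tail.reverse`. The walk
`rf W` is the image of the reversed walk under `ρ z = (v.2 - z.2, v.1 - z.1)`, which exchanges the two sides of the wedge: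
`F0 (ρ z) = F1 v - F1 z`, `F1 (ρ z) = F0 v - F0 z`. So `V (rf W) = ((V W).map ρ).reverse`, in the domain `F0 ≥ 0` (as
`F1 z ≤ 3 d`) and `F1 ≤ 3 s` (as `F0 z ≥ 0`); `E (rf W) = ρ o = (v.2, v.1)` has `F1 = F0 v = 3 s` and `F0 = F1 v = 3 d`: a word of
`Gm s d`. `rf (rf W) = W` (the exit turn of `rf W` is `t_1`, or `t` if `W = []`). Proof of the formula for `V (rf W)`: as for
`GRev_rev` in `HEP/GRev` (private, copy it), followed by the reflection `(x, y) ↦ (-y, -x)`, which changes all turns (as in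
`HEP/GRefl`).
-/

namespace Pool.Agent.BEX.C

open Pool.Agent.Hhelper14.SAW Pool.Agent.HHP Pool.Agent.HEP Pool.Agent.BEX
open scoped ENNReal

private lemma CRevG_tn (a : Bool) (d : ℤ × ℤ) : tn (!a) (tn a d) = d := by
  obtain ⟨x, y⟩ := d
  cases a <;> simp [tn, L, R]

/-- the reversal lemma -/
private lemma CRevG_rev (A : List Bool) : ∀ (p d : ℤ × ℤ) (b c : Bool) (T : List Bool), A ++ [b] = c :: T →
    vs (ep p d A) (-tn b (ed d A)) ((T.reverse).map (! ·)) = (vs p d A).reverse ∧
      ep (ep p d A) (-tn b (ed d A)) ((T.reverse).map (! ·)) = p ∧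
      ed (-tn b (ed d A)) ((T.reverse).map (! ·)) = -tn c d := by
  induction A with
  | nil =>
    intro p d b c T h
    simp only [List.nil_append, List.cons.injEq] at h
    obtain ⟨rfl, rfl⟩ := h
    simp [vs, ep, ed]
  | cons a A ih =>
    intro p d b c T h
    simp only [List.cons_append, List.cons.injEq] at h
    obtain ⟨rfl, rfl⟩ := h
    obtain ⟨a', T', hT⟩ : ∃ a' T', A ++ [b] = a' :: T' := by
      cases A with
      | nil => exact ⟨b, [], rfl⟩
      | cons x A => exact ⟨x, A ++ [b], rfl⟩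
    obtain ⟨h1, h2, h3⟩ := ih (p + tn a d) (tn a d) b a' T' hT
    have hX : ((A ++ [b]).reverse).map (! ·) = (T'.reverse).map (! ·) ++ [!a'] := by
      rw [hT, List.reverse_cons, List.map_append]
      rfl
    have e1 : ep p d (a :: A) = ep (p + tn a d) (tn a d) A := rfl
    have e2 : ed d (a :: A) = ed (tn a d) A := rfl
    have e3 : vs p d (a :: A) = p :: vs (p + tn a d) (tn a d) A := rfl
    have e4 : tn (!a') (-tn a' (tn a d)) = -tn a d := by rw [tn_neg, CRevG_tn]
    have e5 : p + tn a d + -tn a d = p := by rw [add_neg_cancel_right]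
    rw [hX, e1, e2, e3]
    refine ⟨?_, ?_, ?_⟩
    · rw [vs_append, h1, h2, h3, e4, e5, List.reverse_cons]
      rfl
    · rw [ep_append, h2, h3]
      show p + tn a d + tn (!a') (-tn a' (tn a d)) = p
      rw [e4, e5]
    · rw [ed_append, h3]
      show tn (!a') (-tn a' (tn a d)) = -tn a d
      exact e4

/-- the reflection -/
private def CRevG_r (z : ℤ × ℤ) : ℤ × ℤ := (-z.2, -z.1)

private lemma CRevG_r_tn (b : Bool) (d : ℤ × ℤ) : CRevG_r (tn b d) = tn (!b) (CRevG_r d) := by
  obtain ⟨x, y⟩ := d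
  cases b <;> simp [tn, L, R, CRevG_r]

private lemma CRevG_r_add (x y : ℤ × ℤ) : CRevG_r (x + y) = CRevG_r x + CRevG_r y := by
  ext <;> simp [CRevG_r] <;> ring

private lemma CRevG_r_neg (x : ℤ × ℤ) : CRevG_r (-x) = -CRevG_r x := by
  ext <;> simp [CRevG_r]

private lemma CRevG_vs (p d : ℤ × ℤ) (W : List Bool) :
    vs (CRevG_r p) (CRevG_r d) W = (vs p d (W.map (! ·))).map CRevG_r := by
  induction W generalizing p d with
  | nil => simp [vs]
  | cons b W ih =>
    simp only [List.map_cons, vs]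
    rw [← ih, CRevG_r_add, CRevG_r_tn, Bool.not_not]

private lemma CRevG_ep (p d : ℤ × ℤ) (W : List Bool) :
    ep (CRevG_r p) (CRevG_r d) W = CRevG_r (ep p d (W.map (! ·))) := by
  induction W generalizing p d with
  | nil => simp [ep]
  | cons b W ih =>
    simp only [List.map_cons, ep]
    rw [← ih, CRevG_r_add, CRevG_r_tn, Bool.not_not]

private lemma CRevG_ed (d : ℤ × ℤ) (W : List Bool) :
    ed (CRevG_r d) W = CRevG_r (ed d (W.map (! ·))) := by
  induction W generalizing d with
  | nil => simp [ed]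
  | cons b W ih =>
    simp only [List.map_cons, ed]
    rw [← ih, CRevG_r_tn, Bool.not_not]

/-- the exit turn in the direction `(0, 1)` -/
private def CRevG_x (W : List Bool) : Bool := decide (Dr W = (1, 0))

private lemma CRevG_x_uniq {W : List Bool} {b : Bool} (h : tn b (Dr W) = (0, 1)) : CRevG_x W = b := by
  unfold CRevG_x
  generalize Dr W = d at h ⊢
  obtain ⟨x, y⟩ := d
  cases b
  · simp only [tn, R, Prod.mk.injEq, Bool.false_eq_true, if_false] at h
    simp only [decide_eq_false_iff_not, Prod.mk.injEq, not_and]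
    omega
  · simp only [tn, L, Prod.mk.injEq, if_true] at h
    simp only [decide_eq_true_eq, Prod.mk.injEq]
    omega

/-- the words of the wedge which leave through the side -/
private def CRevG_P (a s : ℕ) (W : List Bool) : Prop := Wg a W ∧ F1 (E W) = 3 * a ∧ F0 (E W) = 3 * s

private lemma CRevG_x_spec {a s : ℕ} {W : List Bool} (h : CRevG_P a s W) : tn (CRevG_x W) (Dr W) = (0, 1) := by
  obtain ⟨h1, h2, h3⟩ := h
  rcases gd_std W with ⟨-, hd | hd | hd⟩ | ⟨h0, -⟩
  · unfold CRevG_x
    rw [hd]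
    decide
  · exfalso
    rcases List.eq_nil_or_concat W with rfl | ⟨X, c, rfl⟩
    · revert hd
      decide
    · rw [List.concat_eq_append] at *
      have hm : E X ∈ V (X ++ [c]) := by
        rw [V_snoc]
        exact List.mem_append_left _ (E_mem X)
      have hE : E (X ++ [c]) = E X + Dr (X ++ [c]) := by rw [E_snoc, Dr_snoc]
      have h4 := h1.2 _ hm
      rw [hE, hd] at h2
      unfold F1 at h2 h4
      simp only [Prod.fst_add, Prod.snd_add] at h2
      omega
  · unfold CRevG_x
    rw [hd]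
    decide
  · omega

/-- the reversed and reflected word -/
private def CRevG_f (W : List Bool) : List Bool := (W ++ [CRevG_x W]).tail.reverse

private lemma CRevG_spec {W : List Bool} (hx : tn (CRevG_x W) (Dr W) = (0, 1)) :
    V (CRevG_f W) = ((V W).reverse).map (fun z => ((E W).2 - z.2, (E W).1 - z.1)) ∧
      E (CRevG_f W) = ((E W).2, (E W).1) ∧ (CRevG_f W).length = W.length ∧ CRevG_f (CRevG_f W) = W := by
  obtain ⟨c, T, hT⟩ : ∃ c T, W ++ [CRevG_x W] = c :: T := by
    cases W with
    | nil => exact ⟨CRevG_x [], [], rfl⟩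
    | cons x A => exact ⟨x, A ++ [CRevG_x (x :: A)], rfl⟩
  have hr : CRevG_f W = T.reverse := by
    rw [CRevG_f, hT, List.tail_cons]
  obtain ⟨h1, h2, h3⟩ := CRevG_rev W (0, 0) (1, 0) (CRevG_x W) c T hT
  have e1 : ep (0, 0) (1, 0) W = E W := rfl
  have e2 : ed (1, 0) W = Dr W := rfl
  have e3 : vs (0, 0) (1, 0) W = V W := rfl
  rw [e1, e2, hx] at h1 h2
  rw [e2, hx] at h3
  rw [e3] at h1
  have hd : CRevG_r (-(0, 1)) = (1, 0) := by simp [CRevG_r]
  have hv := CRevG_vs (E W) (-(0, 1)) T.reverse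
  have hp := CRevG_ep (E W) (-(0, 1)) T.reverse
  have he := CRevG_ed (-(0, 1)) T.reverse
  rw [hd, h1, vs_right, ← hr] at hv
  rw [hd, h2, ep_right, ← hr] at hp
  rw [hd, h3, ← hr] at he
  have hV : V (CRevG_f W) = ((V W).reverse).map (fun z => ((E W).2 - z.2, (E W).1 - z.1)) := by
    have h5 := congrArg (List.map (fun z => z - CRevG_r (E W))) hv
    rw [List.map_map, List.map_map] at h5
    have h6 : ((fun z => z - CRevG_r (E W)) ∘ fun z => CRevG_r (E W) + z) = (id : ℤ × ℤ → ℤ × ℤ) := by
      funext z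
      simp
    rw [h6, List.map_id] at h5
    rw [h5]
    refine List.map_congr_left fun z _ => ?_
    ext <;> simp [CRevG_r] <;> ring
  have hE : E (CRevG_f W) = ((E W).2, (E W).1) := by
    have h5 : E (CRevG_f W) = CRevG_r (0, 0) - CRevG_r (E W) := by
      rw [← hp]
      simp
    rw [h5]
    ext <;> simp [CRevG_r]
  have hD : Dr (CRevG_f W) = tn (!c) (0, 1) := by
    have h5 : Dr (CRevG_f W) = CRevG_r (-tn c (1, 0)) := he
    rw [h5]
    cases c <;> simp [CRevG_r, tn, L, R]
  have hl : (CRevG_f W).length = W.length := by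
    rw [hr, List.length_reverse]
    have := congrArg List.length hT
    simp only [List.length_append, List.length_cons, List.length_nil] at this
    omega
  refine ⟨hV, hE, hl, ?_⟩
  have hx' : CRevG_x (CRevG_f W) = c := by
    apply CRevG_x_uniq
    rw [hD]
    have := CRevG_tn (!c) (0, 1)
    rwa [Bool.not_not] at this
  have hw : CRevG_f W ++ [CRevG_x (CRevG_f W)] = CRevG_x W :: W.reverse := by
    rw [hx', hr]
    have h5 : T.reverse ++ [c] = (c :: T).reverse := by rw [List.reverse_cons]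
    rw [h5, ← hT, List.reverse_append]
    rfl
  rw [CRevG_f, hw, List.tail_cons, List.reverse_reverse]

private lemma CRevG_mem {a s : ℕ} {W : List Bool} (h : CRevG_P a s W) : CRevG_P s a (CRevG_f W) := by
  obtain ⟨hV, hE, -, -⟩ := CRevG_spec (CRevG_x_spec h)
  obtain ⟨⟨⟨h1, h2⟩, h3⟩, h4, h5⟩ := h
  unfold F1 at h4
  unfold F0 at h5
  refine ⟨⟨⟨?_, ?_⟩, ?_⟩, ?_, ?_⟩
  · rw [hV]
    refine List.Nodup.map ?_ (List.nodup_reverse.2 h1)
    intro x y hxy
    simp only [Prod.mk.injEq] at hxy
    ext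
    · omega
    · omega
  · intro z hz
    rw [hV, List.mem_map] at hz
    obtain ⟨y, hy, rfl⟩ := hz
    have h6 := h3 y (List.mem_reverse.1 hy)
    unfold F1 at h6
    unfold F0
    simp only
    omega
  · intro z hz
    rw [hV, List.mem_map] at hz
    obtain ⟨y, hy, rfl⟩ := hz
    have h6 := h2 y (List.mem_reverse.1 hy)
    unfold F0 at h6
    unfold F1
    simp only
    omega
  · rw [hE]
    unfold F1
    simp only
    omega
  · rw [hE]
    unfold F0
    simp only
    omega

private lemma CRevG_le (a s : ℕ) : Gm a s ≤ Gm s a := by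
  refine ms_inj CRevG_f (fun W h => CRevG_mem h) (fun W h => (CRevG_spec (CRevG_x_spec h)).2.2.1) ?_
  intro W W' h h' he
  rw [← (CRevG_spec (CRevG_x_spec h)).2.2.2, ← (CRevG_spec (CRevG_x_spec h')).2.2.2, he]

theorem Gm_symm (a s : ℕ) : Gm a s = Gm s a := le_antisymm (CRevG_le a s) (CRevG_le s a)

end Pool.Agent.BEX.C
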