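import Pool.Agent.BEX.CWd
import Pool.Agent.BEX.CRev

/-!
Project BEX, part C: exact identities when the total mass of the arcs is `1 / sn`.

PAPER PROOF. Let `far M` be the sum of the first three terms (top and sides) of `tz_re M M M`; `far M = 1 - sn * ms (Tz M M M, EB)` tends to
`0` by `H` and `ms_sup` (`HA` is the increasing union of `Tz M M M ∧ EB`). For `a ≤ M` the top term of `tz_re M a M` and its
`F5`-term are `≤` those of `tz_re M M M`, hence tend to `0` as `M → ∞`. `tz_re M a M` gives in the limit (`ms_sup`, the terms increase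
with `M`) `cs * Eg a + sn * ms (HA, all F1 ≤ 3 a) = 1`, and `ms HA = ms (HA, all F1 ≤ 3 a) + Mt a` (`ms_split`): so `cs * Eg a = sn * Mt a`
(`Mt_eq`; everything is finite). `tz_im M a M` gives `sn * Eg a + cs * ms (HA, all F1 ≤ 3 a, 0 < ee) = cs * ms (HA, all F1 ≤ 3 a, ee < 0)`;
add `cs * ms (HA, 0 < ee, some F1 > 3 a)` and `cs * ms (HA, ee < 0, some F1 > 3 a)` on both sides and use `HA_refl` with `Q k := 0 < k`: `Mt_diff`.
-/

namespace Pool.Agent.BEX.C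

open Pool.Agent.Hhelper14.SAW Pool.Agent.HHP Pool.Agent.HEP Pool.Agent.BEX
open scoped ENNReal
open Filter Topology

private lemma bd_list (l : List (ℤ × ℤ)) : ∃ M : ℕ, ∀ z ∈ l, F0 z ≤ M ∧ F1 z ≤ M ∧ F5 z ≤ M := by
  induction l with
  | nil => exact ⟨0, by simp⟩
  | cons w l ih =>
    obtain ⟨M, hM⟩ := ih
    refine ⟨M + (F0 w).toNat + (F1 w).toNat + (F5 w).toNat, fun z hz => ?_⟩
    have h0 := Int.self_le_toNat (F0 w)
    have h1 := Int.self_le_toNat (F1 w)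
    have h5 := Int.self_le_toNat (F5 w)
    push_cast
    rcases List.mem_cons.1 hz with rfl | h
    · refine ⟨?_, ?_, ?_⟩ <;> omega
    · obtain ⟨a1, a2, a3⟩ := hM z h
      refine ⟨?_, ?_, ?_⟩ <;> omega

/-- The set of words `P` inside of the wedge is the increasing union of the sets in the trapezoids. -/
private lemma wg_sup (a : ℕ) (P : List Bool → Prop) :
    ms xE (fun W => (Hp W ∧ ∀ z ∈ V W, F1 z ≤ 3 * a) ∧ P W) = ⨆ M, ms xE (fun W => Tz M a M W ∧ P W) := by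
  rw [← ms_sup]
  · refine ms_congr fun W => ⟨?_, ?_⟩
    · rintro ⟨⟨⟨hn, h0⟩, h1⟩, hP⟩
      obtain ⟨M, hM⟩ := bd_list (V W)
      refine ⟨M, ⟨hn, fun z hz => ?_⟩, hP⟩
      obtain ⟨a1, a2, a3⟩ := hM z hz
      refine ⟨h0 z hz, by omega, h1 z hz, by omega⟩
    · rintro ⟨M, ⟨hn, h⟩, hP⟩
      exact ⟨⟨⟨hn, fun z hz => (h z hz).1⟩, fun z hz => (h z hz).2.2.1⟩, hP⟩
  · rintro M W ⟨⟨hn, h⟩, hP⟩
    refine ⟨⟨hn, fun z hz => ?_⟩, hP⟩
    obtain ⟨a1, a2, a3, a4⟩ := h z hz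
    push_cast
    refine ⟨a1, by omega, a3, by omega⟩

private lemma hp_sup (P : List Bool → Prop) :
    ms xE (fun W => Hp W ∧ P W) = ⨆ M, ms xE (fun W => Tz M M M W ∧ P W) := by
  rw [← ms_sup]
  · refine ms_congr fun W => ⟨?_, ?_⟩
    · rintro ⟨⟨hn, h0⟩, hP⟩
      obtain ⟨M, hM⟩ := bd_list (V W)
      refine ⟨M, ⟨hn, fun z hz => ?_⟩, hP⟩
      obtain ⟨a1, a2, a3⟩ := hM z hz
      refine ⟨h0 z hz, by omega, by omega, by omega⟩
    · rintro ⟨M, ⟨hn, h⟩, hP⟩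
      exact ⟨⟨hn, fun z hz => (h z hz).1⟩, hP⟩
  · rintro M W ⟨⟨hn, h⟩, hP⟩
    refine ⟨⟨hn, fun z hz => ?_⟩, hP⟩
    obtain ⟨a1, a2, a3, a4⟩ := h z hz
    push_cast
    refine ⟨a1, by omega, by omega, by omega⟩

private lemma tz_step {M a : ℕ} {W : List Bool} (h : Tz M a M W) : Tz (M + 1) a (M + 1) W := by
  obtain ⟨hn, h⟩ := h
  refine ⟨hn, fun z hz => ?_⟩
  obtain ⟨a1, a2, a3, a4⟩ := h z hz
  push_cast
  refine ⟨a1, by omega, a3, by omega⟩

private lemma tz_step' {M : ℕ} {W : List Bool} (h : Tz M M M W) : Tz (M + 1) (M + 1) (M + 1) W := by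
  obtain ⟨hn, h⟩ := h
  refine ⟨hn, fun z hz => ?_⟩
  obtain ⟨a1, a2, a3, a4⟩ := h z hz
  push_cast
  refine ⟨a1, by omega, by omega, by omega⟩

private lemma wg_tendsto (a : ℕ) (P : List Bool → Prop) :
    Tendsto (fun M => ms xE (fun W => Tz M a M W ∧ P W)) atTop
      (𝓝 (ms xE (fun W => (Hp W ∧ ∀ z ∈ V W, F1 z ≤ 3 * a) ∧ P W))) := by
  rw [wg_sup]
  exact tendsto_atTop_iSup (monotone_nat_of_le_succ fun M => ms_mono fun W h => ⟨tz_step h.1, h.2⟩)

private lemma hp_tendsto (P : List Bool → Prop) :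
    Tendsto (fun M => ms xE (fun W => Tz M M M W ∧ P W)) atTop (𝓝 (ms xE (fun W => Hp W ∧ P W))) := by
  rw [hp_sup]
  exact tendsto_atTop_iSup (monotone_nat_of_le_succ fun M => ms_mono fun W h => ⟨tz_step' h.1, h.2⟩)

private lemma tz_sub {M a : ℕ} (h : a ≤ M) {W : List Bool} (hW : Tz M a M W) : Tz M M M W := by
  obtain ⟨hn, hW⟩ := hW
  refine ⟨hn, fun z hz => ?_⟩
  obtain ⟨a1, a2, a3, a4⟩ := hW z hz
  refine ⟨a1, a2, ?_, a4⟩
  have : (a : ℤ) ≤ M := by exact_mod_cast h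
  omega

private lemma far_tendsto (H : sn * ms xE HA = 1) :
    Tendsto (fun M => ms xE (fun W => Tz M M M W ∧ F0 (E W) = 3 * M + 1) +
      cs * (ms xE (fun W => Tz M M M W ∧ F1 (E W) = 3 * M) + ms xE (fun W => Tz M M M W ∧ F5 (E W) = 3 * M)))
      atTop (𝓝 0) := by
  have h1 : Tendsto (fun M => sn * ms xE (fun W => Tz M M M W ∧ EB W)) atTop (𝓝 1) := by
    have h2 := (hp_tendsto EB)
    have h3 : ms xE (fun W => Hp W ∧ EB W) = ms xE HA := ms_congr fun W => (HA_iff W).symm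
    rw [h3] at h2
    have h4 := ENNReal.Tendsto.const_mul (a := sn) h2 (Or.inr sn_top)
    rwa [H] at h4
  have h5 : Tendsto (fun M => 1 - sn * ms xE (fun W => Tz M M M W ∧ EB W)) atTop (𝓝 (1 - 1)) :=
    ENNReal.Tendsto.sub tendsto_const_nhds h1 (Or.inl ENNReal.one_ne_top)
  rw [tsub_self] at h5
  refine h5.congr fun M => ?_
  have h6 := tz_re M M M
  have h7 : sn * ms xE (fun W => Tz M M M W ∧ EB W) ≠ ∞ := by
    intro h
    rw [h] at h6
    simp at h6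
  exact (ENNReal.eq_sub_of_add_eq h7 h6).symm

private lemma fin_HA (H : sn * ms xE HA = 1) : ms xE HA ≠ ∞ := by
  intro h
  rw [h, ENNReal.mul_top sn_pos.ne'] at H
  exact ENNReal.top_ne_one H

private lemma top_zero (H : sn * ms xE HA = 1) (a : ℕ) :
    Tendsto (fun M => ms xE (fun W => Tz M a M W ∧ F0 (E W) = 3 * M + 1)) atTop (𝓝 0) := by
  refine tendsto_of_tendsto_of_tendsto_of_le_of_le' tendsto_const_nhds (far_tendsto H)
    (Eventually.of_forall fun M => zero_le) ?_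
  filter_upwards [eventually_ge_atTop a] with M hM
  exact (ms_mono fun W h => ⟨tz_sub hM h.1, h.2⟩).trans le_self_add

private lemma side_zero (H : sn * ms xE HA = 1) (a : ℕ) (k : ℝ≥0∞) (hk : k ≤ cs) :
    Tendsto (fun M => k * ms xE (fun W => Tz M a M W ∧ F5 (E W) = 3 * M)) atTop (𝓝 0) := by
  refine tendsto_of_tendsto_of_tendsto_of_le_of_le' tendsto_const_nhds (far_tendsto H)
    (Eventually.of_forall fun M => zero_le) ?_
  filter_upwards [eventually_ge_atTop a] with M hM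
  refine le_trans ?_ le_add_self
  exact mul_le_mul' hk ((ms_mono fun W h => ⟨tz_sub hM h.1, h.2⟩).trans le_add_self)

private lemma sn_le_cs : sn ≤ cs := by
  unfold sn cs
  apply ENNReal.ofReal_le_ofReal
  rw [← Real.cos_pi_div_two_sub]
  exact Real.cos_le_cos_of_nonneg_of_le_pi (by positivity) (by linarith [Real.pi_pos]) (by linarith [Real.pi_pos])

theorem Mt_eq (H : sn * ms xE HA = 1) (a : ℕ) : sn * Mt a = cs * Eg a := by
  have h1 := wg_tendsto a (fun W => F1 (E W) = 3 * a)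
  have h2 := wg_tendsto a EB
  have h3 := (((top_zero H a).add ((ENNReal.Tendsto.const_mul (a := cs) h1 (Or.inr cs_top)).add
    (side_zero H a cs le_rfl))).add (ENNReal.Tendsto.const_mul (a := sn) h2 (Or.inr sn_top)))
  have h4 : Tendsto (fun M : ℕ => (1 : ℝ≥0∞)) atTop (𝓝 (0 + (cs * ms xE (fun W => (Hp W ∧ ∀ z ∈ V W, F1 z ≤ 3 * a) ∧ F1 (E W) = 3 * a) + 0)
      + sn * ms xE (fun W => (Hp W ∧ ∀ z ∈ V W, F1 z ≤ 3 * a) ∧ EB W))) := by
    refine h3.congr fun M => ?_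
    rw [← mul_add]
    exact tz_re M a M
  have h5 := tendsto_nhds_unique tendsto_const_nhds h4
  rw [zero_add, add_zero] at h5
  have h6 : ms xE HA = ms xE (fun W => (Hp W ∧ ∀ z ∈ V W, F1 z ≤ 3 * a) ∧ EB W) + Mt a := by
    rw [ms_split xE HA (fun W => ∀ z ∈ V W, F1 z ≤ 3 * a)]
    congr 1
    · exact ms_congr fun W => by rw [HA_iff]; tauto
    · exact ms_congr fun W => by push Not; rfl
  have h7 : ms xE (fun W => (Hp W ∧ ∀ z ∈ V W, F1 z ≤ 3 * a) ∧ EB W) ≠ ∞ := by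
    intro h
    rw [h, top_add] at h6
    exact fin_HA H h6
  rw [h6, mul_add, h5, add_comm (cs * _)] at H
  exact (ENNReal.add_right_inj (ENNReal.mul_ne_top sn_top h7)).1 H

theorem Mt_diff (H : sn * ms xE HA = 1) (a : ℕ) :
    cs * ms xE (fun W => HA W ∧ 0 < ee W ∧ ∃ z ∈ V W, 3 * (a : ℤ) < F1 z) =
      cs * ms xE (fun W => HA W ∧ ee W < 0 ∧ ∃ z ∈ V W, 3 * (a : ℤ) < F1 z) + sn * Eg a := by
  have h1 := wg_tendsto a (fun W => F1 (E W) = 3 * a)
  have hp := wg_tendsto a (fun W => EB W ∧ 0 < ee W)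
  have hn := wg_tendsto a (fun W => EB W ∧ ee W < 0)
  have h3 := (ENNReal.Tendsto.const_mul (a := sn) h1 (Or.inr sn_top)).add
    (ENNReal.Tendsto.const_mul (a := cs) hp (Or.inr cs_top))
  have h4 := (side_zero H a sn sn_le_cs).add (ENNReal.Tendsto.const_mul (a := cs) hn (Or.inr cs_top))
  have h5 := tendsto_nhds_unique (h3.congr fun M => tz_im M a M) h4
  rw [zero_add] at h5
  have sp : ∀ Q : ℤ → Prop, ms xE (fun W => HA W ∧ Q (ee W)) =
      ms xE (fun W => (Hp W ∧ ∀ z ∈ V W, F1 z ≤ 3 * a) ∧ (EB W ∧ Q (ee W))) +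
      ms xE (fun W => HA W ∧ Q (ee W) ∧ ∃ z ∈ V W, 3 * (a : ℤ) < F1 z) := by
    intro Q
    rw [ms_split xE (fun W => HA W ∧ Q (ee W)) (fun W => ∀ z ∈ V W, F1 z ≤ 3 * a)]
    congr 1
    · exact ms_congr fun W => by rw [HA_iff]; tauto
    · exact ms_congr fun W => by push Not; tauto
  have hP := sp (fun k => 0 < k)
  have hN := sp (fun k => k < 0)
  have hR := HA_refl (fun k => 0 < k)
  have hR2 : ms xE (fun W => HA W ∧ 0 < -ee W) = ms xE (fun W => HA W ∧ ee W < 0) :=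
    ms_congr fun W => by rw [Left.neg_pos_iff]
  rw [hR2, hP, hN] at hR
  have hfin : ms xE (fun W => (Hp W ∧ ∀ z ∈ V W, F1 z ≤ 3 * a) ∧ (EB W ∧ 0 < ee W)) ≠ ∞ := by
    refine ne_top_of_le_ne_top (fin_HA H) (ms_mono fun W h => ?_)
    rw [HA_iff]
    exact ⟨h.1.1, h.2.1⟩
  have h6 := congrArg (fun x => cs * x) hR
  simp only [mul_add] at h6
  rw [← h5] at h6
  refine (ENNReal.add_right_inj (ENNReal.mul_ne_top cs_top hfin)).1 ?_
  have hE : ms xE (fun W => (Hp W ∧ ∀ z ∈ V W, F1 z ≤ 3 * (a : ℤ)) ∧ F1 (E W) = 3 * (a : ℤ)) = Eg a := rfl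
  rw [h6, hE]
  ring

end Pool.Agent.BEX.C
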