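import Pool.Agent.BEX.CMon
import Pool.Agent.Hhelper14.SAW.TnLow
import Pool.Agent.Hhelper14.SAW.Refl

/-!
Project BEX, part C: the Duminil-Copin - Smirnov identity in a trapezoid.

The trapezoid is the domain `D c` of the SAW library for `c = ⟨T, a, a + 1, 0, b, b + 1, 0⟩`; the masses of the exits are
translated into masses of words, then the real and the imaginary part of `mass_ident` are taken.
-/

namespace Pool.Agent.BEX.C

open Pool.Agent.Hhelper14.SAW Pool.Agent.HHP Pool.Agent.HEP Pool.Agent.BEX Finset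
open scoped ENNReal

/-- Parameters of the trapezoid. -/
def pr (T a b : ℕ) : Par := ⟨T, a, a + 1, 0, b, b + 1, 0⟩

lemma pr_iff {T a b : ℕ} {z : ℤ × ℤ} (hz : hon z) :
    D (pr T a b) z ↔ 0 ≤ F0 z ∧ F0 z ≤ 3 * T + 1 ∧ F1 z ≤ 3 * a ∧ F5 z ≤ 3 * b := by
  constructor
  · rintro ⟨h1, h2, h3, h4, h5, h6, h7⟩
    simp only [pr, F0, F1, F2, F3, F4, F5] at *
    rcases lt_or_ge z.2 0 with h | h
    · have := h7 h; push_cast at *; omega
    · have := h6 h; push_cast at *; omega
  · rintro ⟨h1, h2, h3, h4⟩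
    refine ⟨hz, ?_, ?_, ?_, ?_, ?_, ?_⟩
    · simp only [slit, F0] at *; omega
    · simpa [pr] using h2
    · simpa [pr] using h3
    · simpa [pr] using h4
    · intro h
      simp only [pr, F0, F1, F2, F3, F4, F5] at *
      push_cast
      omega
    · intro h
      simp only [pr, F0, F1, F2, F3, F4, F5] at *
      push_cast
      omega

lemma Tz_iff {T a b : ℕ} {W : List Bool} : Tz T a b W ↔ (V W).Nodup ∧ ∀ z ∈ V W, D (pr T a b) z := by
  unfold Tz
  refine and_congr_right fun _ => forall₂_congr fun z hz => ?_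
  exact (pr_iff (V_hon hz)).symm

private lemma count_le {P : List Bool → Prop} (F : ℕ → Finset (List (ℤ × ℤ)))
    (h : ∀ n, ∀ Q ∈ F n, ∃ W, W.length = n ∧ P W ∧ toL W = Q) {x : ℝ} (hx : 0 ≤ x) (B : ℕ) :
    ENNReal.ofReal (∑ n ∈ range B, x ^ (n + 1) * ((F n).card : ℝ)) ≤ ms (ENNReal.ofReal x) P := by
  classical
  have hex : ∀ q : (_ : ℕ) × List (ℤ × ℤ), ∃ W : List Bool, q ∈ (range B).sigma F →
      W.length = q.1 ∧ P W ∧ toL W = q.2 := by
    intro q
    by_cases hq : q ∈ (range B).sigma F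
    · obtain ⟨W, h2, h3, h4⟩ := h q.1 q.2 (Finset.mem_sigma.1 hq).2
      exact ⟨W, fun _ => ⟨h2, h3, h4⟩⟩
    · exact ⟨[], fun h => absurd h hq⟩
  choose φ hφ using hex
  have h1 : ENNReal.ofReal (∑ n ∈ range B, x ^ (n + 1) * ((F n).card : ℝ)) =
      ∑ q ∈ (range B).sigma F, ENNReal.ofReal x ^ ((φ q).length + 1) := by
    rw [ENNReal.ofReal_sum_of_nonneg (fun n _ => by positivity), Finset.sum_sigma]
    refine Finset.sum_congr rfl fun n hn => ?_
    have h2 : ∀ Q ∈ F n, ENNReal.ofReal x ^ ((φ ⟨n, Q⟩).length + 1) = ENNReal.ofReal x ^ (n + 1) := by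
      intro Q hQ
      rw [(hφ ⟨n, Q⟩ (Finset.mem_sigma.2 ⟨hn, hQ⟩)).1]
    rw [Finset.sum_congr rfl h2, Finset.sum_const, nsmul_eq_mul,
      ENNReal.ofReal_mul (by positivity), ENNReal.ofReal_pow hx, ENNReal.ofReal_natCast, mul_comm]
  rw [h1]
  have hinj : ∀ q ∈ (range B).sigma F, ∀ q' ∈ (range B).sigma F, φ q = φ q' → q = q' := by
    intro q hq q' hq' he
    have a := hφ q hq
    have b := hφ q' hq'
    obtain ⟨n, Q⟩ := q
    obtain ⟨n', Q'⟩ := q'
    have e1 : n = n' := by
      have h3 := a.1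
      have h4 := b.1
      simp only at h3 h4
      rw [← h3, ← h4, he]
    have e2 : Q = Q' := by
      have h3 := a.2.2
      have h4 := b.2.2
      simp only at h3 h4
      rw [← h3, ← h4, he]
    subst e1 e2
    rfl
  rw [ms_ind]
  calc ∑ q ∈ (range B).sigma F, ENNReal.ofReal x ^ ((φ q).length + 1)
      = ∑ q ∈ (range B).sigma F,
          (fun W => if P W then ENNReal.ofReal x ^ (W.length + 1) else 0) (φ q) := by
        refine Finset.sum_congr rfl fun q hq => ?_
        simp only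
        rw [if_pos (hφ q hq).2.1]
    _ = ∑ W ∈ ((range B).sigma F).image φ,
          (if P W then ENNReal.ofReal x ^ (W.length + 1) else 0) :=
        (Finset.sum_image (f := fun W => if P W then ENNReal.ofReal x ^ (W.length + 1) else 0)
          fun q hq q' hq' he => hinj q hq q' hq' he).symm
    _ ≤ _ := by
        refine (ENNReal.sum_le_tsum _).trans (le_of_eq (tsum_congr fun W => ?_))
        congr

/-- Translation of a mass of exits into a mass of words. -/
lemma mass_ms {c : Par} {k : ℤ} {e : ℤ × ℤ} {X : List Bool → Prop} (he : U e)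
    (h1 : ∀ u v, D c v → Adj u v → ExitKind c u v k → u = v + e)
    (h2 : ∀ W, (∀ z ∈ V W, D c z) → (V W).Nodup → X W → hon (E W + e) ∧ ¬ D c (E W + e) ∧ (W = [] → e ≠ (-1, 0)) ∧
      ∀ k', ExitKind c (E W + e) (E W) k' → k' = k)
    (h3 : ∀ W u, (∀ z ∈ V W, D c z) → Adj u (E W) → ExitKind c u (E W) k → X W) :
    ENNReal.ofReal (mass c k) = ms xE (fun W => ((V W).Nodup ∧ ∀ z ∈ V W, D c z) ∧ X W) := by
  classical
  obtain ⟨B, hB⟩ := saw_empty' c
  set F : ℕ → Finset (List (ℤ × ℤ)) := fun n => (ex c k n).image List.tail with hF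
  have hcons : ∀ n, ∀ Q ∈ ex c k n, Q = (Q.tail.headI + e) :: Q.tail := by
    intro n Q hQ
    obtain ⟨u, v, w, r, rfl, g1, g2, g3, g4, g5, g6, g7⟩ := ex_kind hQ
    simp only [List.tail_cons, List.headI_cons]
    rw [h1 u v g6 g2 g7]
  have hcard : ∀ n, ((F n).card : ℝ) = ((ex c k n).card : ℝ) := by
    intro n
    rw [hF]
    simp only
    rw [Finset.card_image_of_injOn]
    intro Q hQ Q' hQ' h
    have h' : Q.tail = Q'.tail := h
    rw [hcons n Q hQ, hcons n Q' hQ', h']
  have hmem : ∀ W, ((V W).Nodup ∧ ∀ z ∈ V W, D c z) ∧ X W → toL W ∈ F W.length := by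
    rintro W ⟨⟨g1, g2⟩, g3⟩
    obtain ⟨k1, k2, k3, k4⟩ := h2 W g2 g1 g3
    have hS := isSaw_toL (D_dom c) g1 g2
    obtain ⟨r, hr⟩ := toL_cases W
    have hadj : Adj (E W + e) (E W) := ⟨k1, V_hon (E_mem W), by rw [add_sub_cancel_left]; exact he⟩
    have hne : E W + e ≠ E W - Dr W := by
      intro hh
      rcases List.eq_nil_or_concat W with rfl | ⟨W', b, rfl⟩
      · rw [E_nil, Dr_nil] at hh
        apply k3 rfl
        rw [← add_right_inj (0, 0), hh]
        decide
      · rw [List.concat_eq_append] at *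
        rw [V_snoc] at g2
        have h5 : E W' ∈ V W' ++ [E W' + tn b (Dr W')] := List.mem_append_left _ (E_mem W')
        have h6 := g2 _ h5
        have h7 : E (W' ++ [b]) - Dr (W' ++ [b]) = E W' := by
          rw [HHP.E_snoc, HHP.Dr_snoc]; ring
        rw [h7] at hh
        rw [hh] at k2
        exact k2 h6
    rw [hF]
    simp only
    rw [Finset.mem_image]
    refine ⟨(E W + e) :: toL W, ?_, rfl⟩
    rw [mem_ex]
    rw [hr] at hS ⊢
    refine ⟨_, _, _, r, rfl, hS, hadj, hne, k2, ?_⟩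
    exact k4 _ (exit_class hS hadj hne k2)
  have hsurj : ∀ n, ∀ Q ∈ F n, ∃ W, W.length = n ∧ (((V W).Nodup ∧ ∀ z ∈ V W, D c z) ∧ X W) ∧ toL W = Q := by
    intro n Q hQ
    rw [hF] at hQ
    simp only at hQ
    rw [Finset.mem_image] at hQ
    obtain ⟨Q', hQ', rfl⟩ := hQ
    obtain ⟨u, v, w, r, rfl, g1, g2, g3, g4, g5, g6, g7⟩ := ex_kind hQ'
    simp only [List.tail_cons]
    obtain ⟨W, k1, k2, k3, k4⟩ := toL_surj (D_dom c) g1
    have hv : E W = v := by
      rw [← toL_headI W, k4]; rfl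
    refine ⟨W, k1, ⟨⟨k2, k3⟩, h3 W u k3 ?_ ?_⟩, k4⟩
    · rw [hv]; exact g2
    · rw [hv]; exact g7
  apply le_antisymm
  · rw [mass_eq hB]
    have h4 : ∑ n ∈ range B, xc ^ (n + 1) * ((ex c k n).card : ℝ) =
        ∑ n ∈ range B, xc ^ (n + 1) * ((F n).card : ℝ) := Finset.sum_congr rfl fun n _ => by rw [hcard n]
    rw [h4]
    exact count_le F hsurj xc_pos.le B
  · refine ms_le_of_count F hmem xc_pos.le fun N => ?_
    rw [mass_eq (B := max B N) (fun n hn => hB n (le_trans (le_max_left _ _) hn))]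
    have hx := xc_pos
    refine (Finset.sum_le_sum_of_subset_of_nonneg (t := range (max B N)) ?_ fun n _ _ => by positivity).trans (le_of_eq ?_)
    · intro n hn
      rw [Finset.mem_range] at *
      exact lt_of_lt_of_le hn (le_max_right _ _)
    · exact Finset.sum_congr rfl fun n _ => by rw [hcard n]

lemma not_slit {u : ℤ × ℤ} (h : -1 ≤ F0 u) : ¬ slit u := by
  intro hs
  simp only [slit, F0] at *
  omega

section cases

variable {T a b : ℕ}

lemma m0 : ENNReal.ofReal (mass (pr T a b) 0) = ms xE (fun W => Tz T a b W ∧ F0 (E W) = 3 * T + 1) := by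
  rw [mass_ms (e := (1, 0)) (X := fun W => F0 (E W) = 3 * T + 1) (by simp [U])]
  · exact ms_congr fun W => by rw [Tz_iff]
  · intro u v hv hadj hk
    have : u - v = (1, 0) := by simp [ExitKind] at hk; exact hk.2.2
    rw [← this]; ring
  · intro W hW hn hX
    have h1 := V_hon (E_mem W)
    obtain ⟨g1, g2, g3, g4⟩ := (pr_iff h1).1 (hW _ (E_mem W))
    refine ⟨?_, ?_, ?_, ?_⟩
    · simp only [hon, F0, Prod.fst_add, Prod.snd_add] at *; omega
    · intro hD
      have := hD.2.2.1
      simp only [pr, F0, Prod.fst_add, Prod.snd_add] at *; omega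
    · simp
    · intro k' hk
      simp only [ExitKind, add_sub_cancel_left, Prod.mk.injEq] at hk
      omega
  · intro W u hW hadj hk
    have h1 := V_hon (E_mem W)
    obtain ⟨g1, g2, g3, g4⟩ := (pr_iff h1).1 (hW _ (E_mem W))
    have hu := hadj.1
    simp [ExitKind, pr] at hk
    have h2 : u - E W = (1, 0) := hk.2.2
    have h3 : u = E W + (1, 0) := by rw [← h2]; ring
    rw [h3] at hk hu
    simp only [hon, F0, Prod.fst_add, Prod.snd_add] at *
    omega

lemma m1 : ENNReal.ofReal (mass (pr T a b) 1) = ms xE (fun W => Tz T a b W ∧ F1 (E W) = 3 * a) := by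
  rw [mass_ms (e := (0, 1)) (X := fun W => F1 (E W) = 3 * a) (by simp [U])]
  · exact ms_congr fun W => by rw [Tz_iff]
  · intro u v hv hadj hk
    have : u - v = (0, 1) := by simp [ExitKind] at hk; exact hk.2.2
    rw [← this]; ring
  · intro W hW hn hX
    have h1 := V_hon (E_mem W)
    obtain ⟨g1, g2, g3, g4⟩ := (pr_iff h1).1 (hW _ (E_mem W))
    refine ⟨?_, ?_, ?_, ?_⟩
    · simp only [hon, F1, Prod.fst_add, Prod.snd_add] at *; omega
    · intro hD
      have := hD.2.2.2.1
      simp only [pr, F1, Prod.fst_add, Prod.snd_add] at *; omega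
    · simp
    · intro k' hk
      have hs : ¬ slit (E W + (0, 1)) := not_slit (by
        simp only [F0, Prod.fst_add, Prod.snd_add] at *; omega)
      simp [ExitKind, hs] at hk
      omega
  · intro W u hW hadj hk
    have h1 := V_hon (E_mem W)
    obtain ⟨g1, g2, g3, g4⟩ := (pr_iff h1).1 (hW _ (E_mem W))
    have hu := hadj.1
    simp [ExitKind, pr] at hk
    have h2 : u - E W = (0, 1) := hk.2.2
    have h3 : u = E W + (0, 1) := by rw [← h2]; ring
    rw [h3] at hk hu
    simp only [hon, F1, Prod.fst_add, Prod.snd_add] at *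
    omega

lemma m1' : ENNReal.ofReal (mass (pr T a b) (-1)) = ms xE (fun W => Tz T a b W ∧ F5 (E W) = 3 * b) := by
  rw [mass_ms (e := (1, -1)) (X := fun W => F5 (E W) = 3 * b) (by simp [U])]
  · exact ms_congr fun W => by rw [Tz_iff]
  · intro u v hv hadj hk
    have : u - v = (1, -1) := by simp [ExitKind] at hk; exact hk.2.2
    rw [← this]; ring
  · intro W hW hn hX
    have h1 := V_hon (E_mem W)
    obtain ⟨g1, g2, g3, g4⟩ := (pr_iff h1).1 (hW _ (E_mem W))
    refine ⟨?_, ?_, ?_, ?_⟩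
    · simp only [hon, F5, Prod.fst_add, Prod.snd_add] at *; omega
    · intro hD
      have := hD.2.2.2.2.1
      simp only [pr, F5, Prod.fst_add, Prod.snd_add] at *; omega
    · simp
    · intro k' hk
      have hs : ¬ slit (E W + (1, -1)) := not_slit (by
        simp only [F0, Prod.fst_add, Prod.snd_add] at *; omega)
      simp [ExitKind, hs] at hk
      omega
  · intro W u hW hadj hk
    have h1 := V_hon (E_mem W)
    obtain ⟨g1, g2, g3, g4⟩ := (pr_iff h1).1 (hW _ (E_mem W))
    have hu := hadj.1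
    simp [ExitKind, pr] at hk
    have h2 : u - E W = (1, -1) := hk.2.2
    have h3 : u = E W + (1, -1) := by rw [← h2]; ring
    rw [h3] at hk hu
    simp only [hon, F5, Prod.fst_add, Prod.snd_add] at *
    omega

lemma E_ne {W : List Bool} (hn : (V W).Nodup) (hW : W ≠ []) : E W ≠ (0, 0) := by
  intro h
  cases W with
  | nil => exact hW rfl
  | cons b W =>
    have h1 : V (b :: W) = (0, 0) :: vs ((0, 0) + tn b (1, 0)) (tn b (1, 0)) W := rfl
    rw [h1, List.nodup_cons] at hn
    apply hn.1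
    have h2 : ep ((0, 0) + tn b (1, 0)) (tn b (1, 0)) W ∈ vs ((0, 0) + tn b (1, 0)) (tn b (1, 0)) W := ep_mem _ _ _
    have h3 : E (b :: W) = ep ((0, 0) + tn b (1, 0)) (tn b (1, 0)) W := rfl
    rw [← h3, h] at h2
    exact h2

lemma m3 : ENNReal.ofReal (mass (pr T a b) 3) = ms xE (fun W => Tz T a b W ∧ EB W ∧ 0 < ee W) := by
  rw [mass_ms (e := (-1, 0)) (X := fun W => EB W ∧ 0 < ee W) (by simp [U])]
  · exact ms_congr fun W => by rw [Tz_iff]
  · intro u v hv hadj hk
    have : u - v = (-1, 0) := by simp [ExitKind] at hk; exact hk.2.2.2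
    rw [← this]; ring
  · rintro W hW hn ⟨⟨hX, hX1⟩, hX2⟩
    have h1 := V_hon (E_mem W)
    obtain ⟨g1, g2, g3, g4⟩ := (pr_iff h1).1 (hW _ (E_mem W))
    refine ⟨?_, ?_, ?_, ?_⟩
    · simp only [hon, F0, Prod.fst_add, Prod.snd_add] at *; omega
    · intro hD
      have := ((pr_iff hD.1).1 hD).1
      simp only [F0, Prod.fst_add, Prod.snd_add] at *; omega
    · intro h; exact absurd h hX1
    · intro k' hk
      simp only [ExitKind, add_sub_cancel_left, Prod.mk.injEq, ee, F0, Prod.snd_add] at *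
      omega
  · intro W u hW hadj hk
    have h1 := V_hon (E_mem W)
    obtain ⟨g1, g2, g3, g4⟩ := (pr_iff h1).1 (hW _ (E_mem W))
    have hu := hadj.1
    simp [ExitKind, pr] at hk
    have h2 : u - E W = (-1, 0) := hk.2.2.2
    have h3 : u = E W + (-1, 0) := by rw [← h2]; ring
    rw [h3] at hk hu
    have h4 : 0 < (E W).2 := by simp only [Prod.snd_add] at hk; omega
    have h5 : W ≠ [] := by rintro rfl; simp [E_nil] at h4
    refine ⟨⟨?_, h5⟩, ?_⟩ <;>
    · simp only [hon, F0, F3, ee, Prod.fst_add, Prod.snd_add] at *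
      omega

lemma m3' : ENNReal.ofReal (mass (pr T a b) (-3)) = ms xE (fun W => Tz T a b W ∧ EB W ∧ ee W < 0) := by
  rw [mass_ms (e := (-1, 0)) (X := fun W => EB W ∧ ee W < 0) (by simp [U])]
  · exact ms_congr fun W => by rw [Tz_iff]
  · intro u v hv hadj hk
    have : u - v = (-1, 0) := by simp [ExitKind] at hk; exact hk.2.2.2
    rw [← this]; ring
  · rintro W hW hn ⟨⟨hX, hX1⟩, hX2⟩
    have h1 := V_hon (E_mem W)
    obtain ⟨g1, g2, g3, g4⟩ := (pr_iff h1).1 (hW _ (E_mem W))
    refine ⟨?_, ?_, ?_, ?_⟩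
    · simp only [hon, F0, Prod.fst_add, Prod.snd_add] at *; omega
    · intro hD
      have := ((pr_iff hD.1).1 hD).1
      simp only [F0, Prod.fst_add, Prod.snd_add] at *; omega
    · intro h; exact absurd h hX1
    · intro k' hk
      simp only [ExitKind, add_sub_cancel_left, Prod.mk.injEq, ee, F0, Prod.snd_add] at *
      omega
  · intro W u hW hadj hk
    have h1 := V_hon (E_mem W)
    obtain ⟨g1, g2, g3, g4⟩ := (pr_iff h1).1 (hW _ (E_mem W))
    have hu := hadj.1
    simp [ExitKind, pr] at hk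
    have h2 : u - E W = (-1, 0) := hk.2.2.2
    have h3 : u = E W + (-1, 0) := by rw [← h2]; ring
    rw [h3] at hk hu
    have h4 : (E W).2 < 0 := by simp only [Prod.snd_add] at hk; omega
    have h5 : W ≠ [] := by rintro rfl; simp [E_nil] at h4
    refine ⟨⟨?_, h5⟩, ?_⟩ <;>
    · simp only [hon, F0, F3, ee, Prod.fst_add, Prod.snd_add] at *
      omega

lemma EB_split : ms xE (fun W => Tz T a b W ∧ EB W) =
    ms xE (fun W => Tz T a b W ∧ EB W ∧ 0 < ee W) + ms xE (fun W => Tz T a b W ∧ EB W ∧ ee W < 0) := by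
  rw [ms_split xE _ (fun W => 0 < ee W)]
  congr 1
  · exact ms_congr fun W => by tauto
  · refine ms_congr fun W => ?_
    constructor
    · rintro ⟨⟨h1, h2⟩, h3⟩
      refine ⟨h1, h2, ?_⟩
      have h4 := E_ne h1.1 h2.2
      have h5 := h2.1
      simp only [F0, ee, ne_eq] at *
      rcases lt_trichotomy ((E W).1) 0 with h | h | h
      · omega
      · exact absurd (Prod.ext h (by omega : (E W).2 = 0)) h4
      · omega
    · rintro ⟨h1, h2, h3⟩
      exact ⟨⟨h1, h2⟩, by omega⟩

lemma mass_two : mass (pr T a b) 2 = 0 ∧ mass (pr T a b) (-2) = 0 := by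
  refine ⟨kill2 _ (by simp [pr]), ?_⟩
  rw [mass_refl]
  exact kill2 _ (by simp [pr, Par.refl])

lemma mass_four {k : ℤ} (hk : 3 < k ∨ k < -3) : mass (pr T a b) k = 0 := no_slit _ rfl rfl hk

lemma cos_three : Real.cos (3 * (Real.pi / 8)) = Real.sin (Real.pi / 8) := by
  rw [← Real.cos_pi_div_two_sub]; congr 1; ring

lemma sin_three : Real.sin (3 * (Real.pi / 8)) = Real.cos (Real.pi / 8) := by
  rw [← Real.sin_pi_div_two_sub]; congr 1; ring

lemma ident_re : mass (pr T a b) 0 + Real.cos (Real.pi / 8) * (mass (pr T a b) 1 + mass (pr T a b) (-1)) +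
    Real.sin (Real.pi / 8) * (mass (pr T a b) 3 + mass (pr T a b) (-3)) = 1 := by
  have h := congrArg Complex.re (mass_ident (pr T a b))
  rw [sum_Icc_five] at h
  simp only [Complex.add_re, Complex.re_mul_ofReal, zt_re, Complex.one_re] at h
  rw [mass_two.1, mass_two.2, mass_four (k := 4) (by norm_num), mass_four (k := 5) (by norm_num),
    mass_four (k := -4) (by norm_num), mass_four (k := -5) (by norm_num)] at h
  push_cast at h
  simp only [neg_mul, Real.cos_neg, one_mul, zero_mul, Real.cos_zero, mul_zero, add_zero, zero_add,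
    cos_three] at h
  linarith

lemma ident_im : Real.sin (Real.pi / 8) * mass (pr T a b) 1 + Real.cos (Real.pi / 8) * mass (pr T a b) 3 =
    Real.sin (Real.pi / 8) * mass (pr T a b) (-1) + Real.cos (Real.pi / 8) * mass (pr T a b) (-3) := by
  have h := congrArg Complex.im (mass_ident (pr T a b))
  rw [sum_Icc_five] at h
  simp only [Complex.add_im, Complex.im_mul_ofReal, zt_im, Complex.one_im] at h
  rw [mass_two.1, mass_two.2, mass_four (k := 4) (by norm_num), mass_four (k := 5) (by norm_num),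
    mass_four (k := -4) (by norm_num), mass_four (k := -5) (by norm_num)] at h
  push_cast at h
  simp only [neg_mul, Real.sin_neg, one_mul, zero_mul, Real.sin_zero, mul_zero, add_zero, zero_add,
    sin_three] at h
  linarith

end cases

lemma cpos : 0 ≤ Real.cos (Real.pi / 8) :=
  (Real.cos_pos_of_mem_Ioo ⟨by linarith [Real.pi_pos], by linarith [Real.pi_pos]⟩).le

lemma spos : 0 ≤ Real.sin (Real.pi / 8) :=
  (Real.sin_pos_of_pos_of_lt_pi (by positivity) (by linarith [Real.pi_pos])).le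

/-- Real part. -/
theorem tz_re (T a b : ℕ) :
    ms xE (fun W => Tz T a b W ∧ F0 (E W) = 3 * T + 1) +
      cs * (ms xE (fun W => Tz T a b W ∧ F1 (E W) = 3 * a) + ms xE (fun W => Tz T a b W ∧ F5 (E W) = 3 * b)) +
      sn * ms xE (fun W => Tz T a b W ∧ EB W) = 1 := by
  have hm := fun k => mass_nonneg (pr T a b) k
  have c := cpos
  have s := spos
  rw [EB_split, ← m0, ← m1, ← m1', ← m3, ← m3']
  unfold cs sn
  rw [← ENNReal.ofReal_add (hm _) (hm _), ← ENNReal.ofReal_add (hm _) (hm _), ← ENNReal.ofReal_mul c,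
    ← ENNReal.ofReal_mul s, ← ENNReal.ofReal_add (hm _) (mul_nonneg c (add_nonneg (hm _) (hm _))),
    ← ENNReal.ofReal_add (add_nonneg (hm _) (mul_nonneg c (add_nonneg (hm _) (hm _))))
      (mul_nonneg s (add_nonneg (hm _) (hm _))), ident_re, ENNReal.ofReal_one]

/-- Imaginary part. -/
theorem tz_im (T a b : ℕ) :
    sn * ms xE (fun W => Tz T a b W ∧ F1 (E W) = 3 * a) + cs * ms xE (fun W => Tz T a b W ∧ EB W ∧ 0 < ee W) =
      sn * ms xE (fun W => Tz T a b W ∧ F5 (E W) = 3 * b) + cs * ms xE (fun W => Tz T a b W ∧ EB W ∧ ee W < 0) := by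
  have hm := fun k => mass_nonneg (pr T a b) k
  have c := cpos
  have s := spos
  rw [← m1, ← m1', ← m3, ← m3']
  unfold cs sn
  rw [← ENNReal.ofReal_mul s, ← ENNReal.ofReal_mul s, ← ENNReal.ofReal_mul c, ← ENNReal.ofReal_mul c,
    ← ENNReal.ofReal_add (mul_nonneg s (hm _)) (mul_nonneg c (hm _)),
    ← ENNReal.ofReal_add (mul_nonneg s (hm _)) (mul_nonneg c (hm _)), ident_im]

end Pool.Agent.BEX.C
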