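import Pool.Agent.BEX.CWd
import Pool.Agent.BEX.CRevG

/-!
Project BEX, part C: upper bound of the wedge mass by the bridges (flux trick).

PAPER PROOF. `Eg a = ∑' s, Gm a s` (`ms_fiber` with the column of the end; on the side `F1 = 3 a` the ends have `F0 % 3 = 0`, `F0 ≥ 0`).
`r * (cs * Eg (2 r)) ≤ ∑ d in [r, 2 r), cs * Eg d` (`Eg_anti`), and for each `d` split the sum over `s` at `2 r`:
`∑' s ≥ 2 r, cs * Gm d s ≤ bn (2 r) ≤ bn r` (`flux d (2 r)`, `br_anti`), and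
`∑ d in [r, 2 r), ∑ s < 2 r, cs * Gm d s = ∑ s < 2 r, ∑ d in [r, 2 r), cs * Gm s d ≤ ∑ s < 2 r, bn r` (`Gm_symm`, `flux s r`).
So `r * (cs * Eg (2 r)) ≤ r * bn r + 2 r * bn r`. `Eg_le'`: `a ≥ 2 (a / 2)`, `Eg_anti`. `one_le`: `tri`.
-/

namespace Pool.Agent.BEX.C

open Pool.Agent.Hhelper14.SAW Pool.Agent.HHP Pool.Agent.HEP Pool.Agent.BEX
open scoped ENNReal

/-- The column of the end. -/
private def CUp_f (W : List Bool) : ℕ := (F0 (E W)).toNat / 3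

private theorem CUp_f_iff {a : ℕ} {W : List Bool} (h : Wg a W ∧ F1 (E W) = 3 * a) (i : ℕ) :
    CUp_f W = i ↔ F0 (E W) = 3 * i := by
  have h0 : 0 ≤ F0 (E W) := h.1.1.2 _ (E_mem W)
  have h1 := h.2
  unfold CUp_f
  unfold F1 at h1
  unfold F0 at h0 ⊢
  omega

private theorem CUp_Gm_eq (a i : ℕ) :
    Gm a i = ms xE (fun W => (Wg a W ∧ F1 (E W) = 3 * a) ∧ CUp_f W = i) := by
  unfold Gm
  refine ms_congr fun W => ?_
  constructor
  · rintro ⟨h1, h2, h3⟩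
    exact ⟨⟨h1, h2⟩, (CUp_f_iff ⟨h1, h2⟩ i).2 h3⟩
  · rintro ⟨h1, h2⟩
    exact ⟨h1.1, h1.2, (CUp_f_iff h1 i).1 h2⟩

/-- The ends in the columns `< 2 r`. -/
private theorem CUp_near (d r : ℕ) :
    ms xE (fun W => (Wg d W ∧ F1 (E W) = 3 * d) ∧ ¬ 3 * ((2 * r : ℕ) : ℤ) ≤ F0 (E W)) ≤
      ∑ s ∈ Finset.range (2 * r), Gm d s := by
  rw [ms_fiber xE _ CUp_f, tsum_eq_sum (s := Finset.range (2 * r))]
  · refine Finset.sum_le_sum fun s _ => ?_
    rw [CUp_Gm_eq]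
    exact ms_mono fun W h => ⟨h.1.1, h.2⟩
  · intro i hi
    rw [Finset.mem_range, not_lt] at hi
    have h0 : ms xE (fun W => ((Wg d W ∧ F1 (E W) = 3 * d) ∧ ¬ 3 * ((2 * r : ℕ) : ℤ) ≤ F0 (E W)) ∧ CUp_f W = i) =
        ms xE (fun _ => False) := by
      refine ms_congr fun W => ?_
      constructor
      · rintro ⟨⟨h1, h2⟩, h3⟩
        have h4 := (CUp_f_iff h1 i).1 h3
        omega
      · exact False.elim
    rw [h0]
    unfold ms
    exact tsum_empty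

/-- The ends in the columns of `[r, 2 r)`. -/
private theorem CUp_far (s r : ℕ) :
    ∑ d ∈ Finset.Ico r (2 * r), Gm s d ≤
      ms xE (fun W => Wg s W ∧ F1 (E W) = 3 * s ∧ 3 * (r : ℤ) ≤ F0 (E W)) := by
  rw [ms_fiber xE _ CUp_f]
  refine le_trans (Finset.sum_le_sum fun d hd => ?_)
    (ENNReal.sum_le_tsum (f := fun i => ms xE (fun W => (Wg s W ∧ F1 (E W) = 3 * s ∧ 3 * (r : ℤ) ≤ F0 (E W)) ∧
      CUp_f W = i)) (Finset.Ico r (2 * r)))
  rw [CUp_Gm_eq]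
  refine ms_mono fun W h => ⟨⟨h.1.1, h.1.2, ?_⟩, h.2⟩
  have h4 := (CUp_f_iff h.1 d).1 h.2
  have h5 := (Finset.mem_Ico.1 hd).1
  omega

private theorem CUp_step (d r : ℕ) (hr : 1 ≤ r) :
    cs * Eg d ≤ bn r + cs * ∑ s ∈ Finset.range (2 * r), Gm d s := by
  have h1 : Eg d = ms xE (fun W => (Wg d W ∧ F1 (E W) = 3 * d) ∧ 3 * ((2 * r : ℕ) : ℤ) ≤ F0 (E W)) +
      ms xE (fun W => (Wg d W ∧ F1 (E W) = 3 * d) ∧ ¬ 3 * ((2 * r : ℕ) : ℤ) ≤ F0 (E W)) :=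
    ms_split xE _ _
  rw [h1, mul_add]
  refine add_le_add ?_ (mul_le_mul_right (CUp_near d r) _)
  have h2 := flux d (2 * r) (by omega)
  have h3 : ms xE (fun W => (Wg d W ∧ F1 (E W) = 3 * d) ∧ 3 * ((2 * r : ℕ) : ℤ) ≤ F0 (E W)) =
      ms xE (fun W => Wg d W ∧ F1 (E W) = 3 * d ∧ 3 * ((2 * r : ℕ) : ℤ) ≤ F0 (E W)) :=
    ms_congr fun W => and_assoc
  rw [h3]
  exact h2.trans (bn_anti (by omega))

theorem Eg_le (r : ℕ) (hr : 1 ≤ r) : cs * Eg (2 * r) ≤ 3 * bn r := by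
  have hcard : (Finset.Ico r (2 * r)).card = r := by
    rw [Nat.card_Ico]
    omega
  have h1 : (r : ℝ≥0∞) * (cs * Eg (2 * r)) ≤ ∑ d ∈ Finset.Ico r (2 * r), cs * Eg d := by
    rw [← nsmul_eq_mul]
    have := Finset.card_nsmul_le_sum (Finset.Ico r (2 * r)) (fun d => cs * Eg d) (cs * Eg (2 * r))
      (fun d hd => mul_le_mul_right (Eg_anti (by have := (Finset.mem_Ico.1 hd).2; omega)) _)
    rwa [hcard] at this
  have h2 : ∑ d ∈ Finset.Ico r (2 * r), cs * Eg d ≤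
      ∑ d ∈ Finset.Ico r (2 * r), (bn r + cs * ∑ s ∈ Finset.range (2 * r), Gm d s) :=
    Finset.sum_le_sum fun d _ => CUp_step d r hr
  have h3 : ∑ d ∈ Finset.Ico r (2 * r), (bn r + cs * ∑ s ∈ Finset.range (2 * r), Gm d s) =
      r * bn r + ∑ s ∈ Finset.range (2 * r), cs * ∑ d ∈ Finset.Ico r (2 * r), Gm s d := by
    rw [Finset.sum_add_distrib, Finset.sum_const, hcard, nsmul_eq_mul]
    congr 1
    rw [← Finset.mul_sum, ← Finset.mul_sum, Finset.sum_comm]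
    congr 1
    refine Finset.sum_congr rfl fun s _ => Finset.sum_congr rfl fun d _ => Gm_symm d s
  have h4 : ∑ s ∈ Finset.range (2 * r), cs * ∑ d ∈ Finset.Ico r (2 * r), Gm s d ≤ (2 * r : ℕ) * bn r := by
    have := Finset.sum_le_card_nsmul (Finset.range (2 * r))
      (fun s => cs * ∑ d ∈ Finset.Ico r (2 * r), Gm s d) (bn r)
      (fun s _ => (mul_le_mul_right (CUp_far s r) _).trans (flux s r hr))
    rwa [Finset.card_range, nsmul_eq_mul] at this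
  have h5 : (r : ℝ≥0∞) * (cs * Eg (2 * r)) ≤ r * (3 * bn r) := by
    refine (h1.trans h2).trans ?_
    rw [h3]
    refine (add_le_add le_rfl h4).trans (le_of_eq ?_)
    push_cast
    ring
  have hr0 : (r : ℝ≥0∞) ≠ 0 := by
    have : r ≠ 0 := by omega
    exact_mod_cast this
  exact (ENNReal.mul_le_mul_iff_right hr0 (ENNReal.natCast_ne_top r)).1 h5

theorem Eg_le' (a : ℕ) (ha : 2 ≤ a) : cs * Eg a ≤ 3 * bn (a / 2) := by
  have h1 : Eg a ≤ Eg (2 * (a / 2)) := Eg_anti (by omega)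
  exact (mul_le_mul_right h1 _).trans (Eg_le (a / 2) (by omega))

/-- Milestone 1 of part C. -/
theorem one_le (r : ℕ) (hr : 2 ≤ r) : 1 ≤ 6 * bn (r / 2) + sn * ms xE (TA r) := by
  refine (tri r).trans (add_le_add ?_ le_rfl)
  calc 2 * (cs * Eg r) ≤ 2 * (3 * bn (r / 2)) := mul_le_mul_right (Eg_le' r hr) _
    _ = 6 * bn (r / 2) := by ring

end Pool.Agent.BEX.C
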