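import Pool.Agent.BEX.CTz

/-!
Project BEX, part C: wedge, triangle and strip.

PAPER PROOFS. Everything from `tz_re` and monotonicity (`ms_mono`); all terms of `tz_re` are finite (`≤ 1 / sn`), so they can be
cancelled. A set of words of an infinite domain is the increasing union of the sets of words of finite domains (`ms_sup`).
* `Eg_anti`: for `a ≤ a'` the terms of `tz_re T a b` other than `F1 (E W) = 3 a` are `≤` the corresponding terms of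
  `tz_re T a' b`. So `ms (Tz T a' b, F1 = 3 a') ≤ ms (Tz T a b, F1 = 3 a) ≤ Eg a`; supremum over `T = b`.
* `HA_le`: `sn * ms (Tz M M M, EB) ≤ 1`, supremum.
* `strip`: `tz_re (N - 1) M M`, `Tz N-1 M M` and `F0 (E W) = 3 (N - 1) + 1` increase to `Br (N - 1)`.
* `tri`: `tz_re (2 a) a a`: the top term is `0` (`F0 = F1 + F5 ≤ 6 a`), the two sides are each `≤ Eg a` (for `F5`: reflection
  `W ↦ W.map not`, `V_not`, `E_not`, `F1 (sg z) = F5 z`), the last term is `≤ sn * ms xE (TA a)`.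
* `low`: the arcs of `TA a` are in the strip of `2 a + 1` columns (`F0 = F1 + F5 ≤ 6 a`), so
  `bn (2 a + 1) + sn * ms xE (TA a) ≤ 1 ≤ 2 * cs * Eg a + sn * ms xE (TA a)`; cancel.
* `flux`: `R ≥ 1`, `T ≥ R`. In `tz_re (R - 1) a b` and `tz_re T a b` all terms but the first increase with the first
  parameter, and the set `Tz T a b, F1 (E W) = 3 a` contains the disjoint sets `Tz (R - 1) a b, F1 (E W) = 3 a` (there
  `F0 (E W) ≤ 3 (R - 1)`) and `Tz T a b, F1 (E W) = 3 a, 3 R ≤ F0 (E W)`. So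
  `cs * ms (the last set) ≤ ms (Tz (R - 1) a b, F0 = 3 (R - 1) + 1) ≤ bn R`; supremum over `T = b`.
-/

namespace Pool.Agent.BEX.C

open Pool.Agent.Hhelper14.SAW Pool.Agent.HHP Pool.Agent.HEP Pool.Agent.BEX
open scoped ENNReal

private lemma bd (l : List (ℤ × ℤ)) : ∃ n : ℕ, ∀ z ∈ l, F0 z ≤ 3 * (n : ℤ) + 1 ∧ F1 z ≤ 3 * n ∧ F5 z ≤ 3 * n := by
  induction l with
  | nil => exact ⟨0, by simp⟩
  | cons x l ih =>
    obtain ⟨n, hn⟩ := ih
    refine ⟨n + (F0 x).toNat + (F1 x).toNat + (F5 x).toNat, ?_⟩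
    have h0 := Int.self_le_toNat (F0 x)
    have h1 := Int.self_le_toNat (F1 x)
    have h5 := Int.self_le_toNat (F5 x)
    intro z hz
    push_cast
    rcases List.mem_cons.1 hz with rfl | hz
    · refine ⟨?_, ?_, ?_⟩ <;> omega
    · obtain ⟨a, b, c⟩ := hn z hz
      refine ⟨?_, ?_, ?_⟩ <;> omega

private lemma tz_mono {T a b T' a' b' : ℕ} (h1 : T ≤ T') (h2 : a ≤ a') (h3 : b ≤ b') {W : List Bool}
    (h : Tz T a b W) : Tz T' a' b' W := by
  refine ⟨h.1, fun z hz => ?_⟩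
  obtain ⟨h4, h5, h6, h7⟩ := h.2 z hz
  refine ⟨h4, ?_, ?_, ?_⟩ <;> omega

private lemma wg_ex {a : ℕ} (k : ℕ) {W : List Bool} : Wg a W ↔ ∃ n, Tz (n + k) a (n + k) W := by
  constructor
  · rintro ⟨⟨h1, h2⟩, h3⟩
    obtain ⟨n, hn⟩ := bd (V W)
    refine ⟨n, h1, fun z hz => ⟨h2 z hz, ?_, h3 z hz, ?_⟩⟩
    · have := (hn z hz).1
      push_cast
      omega
    · have := (hn z hz).2.2
      push_cast
      omega
  · rintro ⟨n, h1, h2⟩
    exact ⟨⟨h1, fun z hz => (h2 z hz).1⟩, fun z hz => (h2 z hz).2.2.1⟩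

private lemma hp_ex {W : List Bool} : Hp W ↔ ∃ n, Tz n n n W := by
  constructor
  · rintro ⟨h1, h2⟩
    obtain ⟨n, hn⟩ := bd (V W)
    exact ⟨n, h1, fun z hz => ⟨h2 z hz, (hn z hz).1, (hn z hz).2.1, (hn z hz).2.2⟩⟩
  · rintro ⟨n, h1, h2⟩
    exact ⟨h1, fun z hz => (h2 z hz).1⟩

private lemma in_ex {N : ℕ} {W : List Bool} : ((V W).Nodup ∧ ∀ z ∈ V W, 0 ≤ F0 z ∧ F0 z ≤ 3 * (N : ℤ) + 1) ↔
    ∃ n, Tz N n n W := by
  constructor
  · rintro ⟨h1, h2⟩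
    obtain ⟨n, hn⟩ := bd (V W)
    exact ⟨n, h1, fun z hz => ⟨(h2 z hz).1, (h2 z hz).2, (hn z hz).2.1, (hn z hz).2.2⟩⟩
  · rintro ⟨n, h1, h2⟩
    exact ⟨h1, fun z hz => ⟨(h2 z hz).1, (h2 z hz).2.1⟩⟩

private lemma sn_le (T a b : ℕ) : sn * ms xE (fun W => Tz T a b W ∧ EB W) ≤ 1 := by
  rw [← tz_re T a b]
  exact le_add_self

private lemma cs_le (T a b : ℕ) : cs * ms xE (fun W => Tz T a b W ∧ F5 (E W) = 3 * b) ≤ 1 := by
  rw [← tz_re T a b]
  refine le_trans ?_ le_self_add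
  refine le_trans ?_ le_add_self
  exact mul_le_mul_right le_add_self _

private lemma t0_le (T a b : ℕ) : ms xE (fun W => Tz T a b W ∧ F0 (E W) = 3 * T + 1) ≤ 1 := by
  rw [← tz_re T a b]
  exact le_trans le_self_add le_self_add

theorem Eg_anti : Antitone Eg := by
  intro a a' haa
  have key : ∀ n : ℕ, ms xE (fun W => Tz n a' n W ∧ F1 (E W) = 3 * a') ≤ Eg a := by
    intro n
    have h1 := tz_re n a n
    have h2 := tz_re n a' n
    have h3 : ms xE (fun W => Tz n a n W ∧ F0 (E W) = 3 * n + 1) ≤ ms xE (fun W => Tz n a' n W ∧ F0 (E W) = 3 * n + 1) :=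
      ms_mono fun W h => ⟨tz_mono le_rfl haa le_rfl h.1, h.2⟩
    have h4 : ms xE (fun W => Tz n a n W ∧ F5 (E W) = 3 * n) ≤ ms xE (fun W => Tz n a' n W ∧ F5 (E W) = 3 * n) :=
      ms_mono fun W h => ⟨tz_mono le_rfl haa le_rfl h.1, h.2⟩
    have h5 : ms xE (fun W => Tz n a n W ∧ EB W) ≤ ms xE (fun W => Tz n a' n W ∧ EB W) :=
      ms_mono fun W h => ⟨tz_mono le_rfl haa le_rfl h.1, h.2⟩
    have h6 : ms xE (fun W => Tz n a n W ∧ F1 (E W) = 3 * a) ≤ Eg a :=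
      ms_mono fun W h => ⟨(wg_ex 0).2 ⟨n, h.1⟩, h.2⟩
    have f0 := t0_le n a n
    have f5 := cs_le n a n
    have fb := sn_le n a n
    generalize ms xE (fun W => Tz n a n W ∧ F0 (E W) = 3 * n + 1) = A0 at *
    generalize ms xE (fun W => Tz n a' n W ∧ F0 (E W) = 3 * n + 1) = A0' at *
    generalize ms xE (fun W => Tz n a n W ∧ F5 (E W) = 3 * n) = A5 at *
    generalize ms xE (fun W => Tz n a' n W ∧ F5 (E W) = 3 * n) = A5' at *
    generalize ms xE (fun W => Tz n a n W ∧ EB W) = Ab at *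
    generalize ms xE (fun W => Tz n a' n W ∧ EB W) = Ab' at *
    generalize ms xE (fun W => Tz n a n W ∧ F1 (E W) = 3 * a) = A1 at *
    generalize ms xE (fun W => Tz n a' n W ∧ F1 (E W) = 3 * a') = A1' at *
    refine le_trans ?_ h6
    have h7 : (A0 + cs * A5 + sn * Ab) + cs * A1' ≤ (A0 + cs * A5 + sn * Ab) + cs * A1 := by
      calc (A0 + cs * A5 + sn * Ab) + cs * A1' ≤ (A0' + cs * A5' + sn * Ab') + cs * A1' := by gcongr
        _ = 1 := by rw [← h2]; ring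
        _ = (A0 + cs * A5 + sn * Ab) + cs * A1 := by rw [← h1]; ring
    have h8 : A0 + cs * A5 + sn * Ab ≠ ∞ := by
      refine ENNReal.add_ne_top.2 ⟨ENNReal.add_ne_top.2 ⟨?_, ?_⟩, ?_⟩
      · exact ne_top_of_le_ne_top ENNReal.one_ne_top f0
      · exact ne_top_of_le_ne_top ENNReal.one_ne_top f5
      · exact ne_top_of_le_ne_top ENNReal.one_ne_top fb
    have h9 := (ENNReal.add_le_add_iff_left h8).1 h7
    exact (ENNReal.mul_le_mul_iff_right cs_pos.ne' cs_top).1 h9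
  have h : Eg a' = ms xE (fun W => ∃ n, Tz n a' n W ∧ F1 (E W) = 3 * a') :=
    ms_congr fun W => by
      rw [wg_ex 0]
      simp
  rw [h, ms_sup xE (fun n W => Tz n a' n W ∧ F1 (E W) = 3 * a')
    (fun n W h => ⟨tz_mono (Nat.le_succ n) le_rfl (Nat.le_succ n) h.1, h.2⟩)]
  exact iSup_le key

theorem HA_le : sn * ms xE HA ≤ 1 := by
  have h : ms xE HA = ms xE (fun W => ∃ n, Tz n n n W ∧ EB W) :=
    ms_congr fun W => by
      rw [HA_iff, hp_ex]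
      simp
  rw [h, ms_sup xE (fun n W => Tz n n n W ∧ EB W)
    (fun n W h => ⟨tz_mono (Nat.le_succ n) (Nat.le_succ n) (Nat.le_succ n) h.1, h.2⟩), ENNReal.mul_iSup]
  exact iSup_le fun n => sn_le n n n

theorem strip (N : ℕ) (hN : 1 ≤ N) :
    bn N + sn * ms xE (fun W => HA W ∧ ∀ z ∈ V W, F0 z ≤ 3 * ((N - 1 : ℕ) : ℤ) + 1) ≤ 1 := by
  obtain ⟨M, rfl⟩ : ∃ M, N = M + 1 := ⟨N - 1, by omega⟩
  simp only [Nat.add_sub_cancel]
  have h1 : bn (M + 1) = ms xE (fun W => ∃ n, Tz M n n W ∧ F0 (E W) = 3 * M + 1) :=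
    ms_congr fun W => by
      rw [Nat.add_sub_cancel]
      unfold Br In
      rw [in_ex]
      simp
  have h2 : ms xE (fun W => HA W ∧ ∀ z ∈ V W, F0 z ≤ 3 * (M : ℤ) + 1) = ms xE (fun W => ∃ n, Tz M n n W ∧ EB W) :=
    ms_congr fun W => by
      rw [HA_iff]
      unfold Hp
      have := @in_ex M W
      constructor
      · rintro ⟨⟨⟨h3, h4⟩, h5⟩, h6⟩
        obtain ⟨n, hn⟩ := this.1 ⟨h3, fun z hz => ⟨h4 z hz, h6 z hz⟩⟩
        exact ⟨n, hn, h5⟩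
      · rintro ⟨n, hn, h5⟩
        obtain ⟨h3, h4⟩ := this.2 ⟨n, hn⟩
        exact ⟨⟨⟨h3, fun z hz => (h4 z hz).1⟩, h5⟩, fun z hz => (h4 z hz).2⟩
  have m1 : ∀ n W, (Tz M n n W ∧ F0 (E W) = 3 * M + 1) → (Tz M (n + 1) (n + 1) W ∧ F0 (E W) = 3 * M + 1) :=
    fun n W h => ⟨tz_mono le_rfl (Nat.le_succ n) (Nat.le_succ n) h.1, h.2⟩
  have m2 : ∀ n W, (Tz M n n W ∧ EB W) → (Tz M (n + 1) (n + 1) W ∧ EB W) :=
    fun n W h => ⟨tz_mono le_rfl (Nat.le_succ n) (Nat.le_succ n) h.1, h.2⟩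
  rw [h1, h2, ms_sup xE (fun n W => Tz M n n W ∧ F0 (E W) = 3 * M + 1) m1,
    ms_sup xE (fun n W => Tz M n n W ∧ EB W) m2, ENNReal.mul_iSup, ENNReal.iSup_add_iSup_of_monotone
      (monotone_nat_of_le_succ fun n => ms_mono (m1 n))
      (monotone_nat_of_le_succ fun n => mul_le_mul_right (ms_mono (m2 n)) _)]
  refine iSup_le fun n => ?_
  rw [← tz_re M n n]
  gcongr
  exact le_self_add

private lemma refl_le (T a b : ℕ) : ms xE (fun W => Tz T a b W ∧ F5 (E W) = 3 * b) ≤ Eg b := by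
  rw [← ms_not]
  refine ms_mono fun W h => ?_
  obtain ⟨⟨h1, h2⟩, h3⟩ := h
  have hE : F5 (E (W.map (! ·))) = F1 (E W) := by
    rw [E_not]
    simp only [sg, F1, F5]
    ring
  have hV : ∀ z ∈ V W, 0 ≤ F0 z ∧ F1 z ≤ 3 * b := by
    intro z hz
    have h4 := h2 (sg z) (by rw [V_not]; exact List.mem_map_of_mem hz)
    refine ⟨?_, ?_⟩
    · rw [← F0_sg]
      exact h4.1
    · have h5 := h4.2.2.2
      have h6 : F5 (sg z) = F1 z := by
        simp only [sg, F1, F5]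
        ring
      omega
  refine ⟨⟨⟨?_, fun z hz => (hV z hz).1⟩, fun z hz => (hV z hz).2⟩, ?_⟩
  · rw [V_not] at h1
    exact List.Nodup.of_map _ h1
  · rw [← hE]
    exact h3

private lemma f015 (z : ℤ × ℤ) : F0 z = F1 z + F5 z := by
  simp only [F0, F1, F5]
  ring

theorem tri (a : ℕ) : 1 ≤ 2 * (cs * Eg a) + sn * ms xE (TA a) := by
  have h := tz_re (2 * a) a a
  have h0 : ms xE (fun W => Tz (2 * a) a a W ∧ F0 (E W) = 3 * ((2 * a : ℕ) : ℤ) + 1) = 0 := by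
    have h1 : ∀ W, (Tz (2 * a) a a W ∧ F0 (E W) = 3 * ((2 * a : ℕ) : ℤ) + 1) ↔ False := by
      intro W
      refine ⟨fun h1 => ?_, fun h => h.elim⟩
      have h2 := h1.1.2 _ (E_mem W)
      have h3 := f015 (E W)
      have h4 := h1.2
      push_cast at h4
      omega
    rw [ms_congr h1]
    unfold ms
    haveI : IsEmpty {W : List Bool // False} := ⟨fun h => h.2⟩
    exact tsum_empty
  have h1 : ms xE (fun W => Tz (2 * a) a a W ∧ F1 (E W) = 3 * a) ≤ Eg a :=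
    ms_mono fun W h => ⟨⟨⟨h.1.1, fun z hz => (h.1.2 z hz).1⟩, fun z hz => (h.1.2 z hz).2.2.1⟩, h.2⟩
  have h5 := refl_le (2 * a) a a
  have hb : ms xE (fun W => Tz (2 * a) a a W ∧ EB W) ≤ ms xE (TA a) := by
    refine ms_mono fun W h => ⟨(HA_iff W).2 ⟨⟨h.1.1, fun z hz => (h.1.2 z hz).1⟩, h.2⟩, fun z hz => ?_⟩
    have h6 := h.1.2 z hz
    simp only [F1, F5] at h6
    exact ⟨h6.2.2.1, h6.2.2.2⟩
  rw [h0, zero_add] at h
  calc (1 : ℝ≥0∞) = _ := h.symm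
    _ ≤ cs * (Eg a + Eg a) + sn * ms xE (TA a) := by gcongr
    _ = 2 * (cs * Eg a) + sn * ms xE (TA a) := by ring

theorem low (a : ℕ) : bn (2 * a + 1) ≤ 2 * (cs * Eg a) := by
  have h1 := strip (2 * a + 1) (by omega)
  have h2 := tri a
  have h3 : ms xE (TA a) ≤ ms xE (fun W => HA W ∧ ∀ z ∈ V W, F0 z ≤ 3 * ((2 * a + 1 - 1 : ℕ) : ℤ) + 1) := by
    refine ms_mono fun W h => ⟨h.1, fun z hz => ?_⟩
    have h4 := h.2 z hz
    simp only [F0, Nat.add_sub_cancel]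
    push_cast
    omega
  have h4 : sn * ms xE (TA a) ≠ ∞ := by
    refine ne_top_of_le_ne_top ENNReal.one_ne_top (le_trans ?_ HA_le)
    exact mul_le_mul_right (ms_mono fun W h => h.1) _
  refine (ENNReal.add_le_add_iff_right h4).1 ?_
  calc bn (2 * a + 1) + sn * ms xE (TA a) ≤ _ := by gcongr
    _ ≤ 1 := h1
    _ ≤ _ := h2

theorem flux (a R : ℕ) (hR : 1 ≤ R) :
    cs * ms xE (fun W => Wg a W ∧ F1 (E W) = 3 * a ∧ 3 * (R : ℤ) ≤ F0 (E W)) ≤ bn R := by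
  obtain ⟨M, rfl⟩ : ∃ M, R = M + 1 := ⟨R - 1, by omega⟩
  have h : ms xE (fun W => Wg a W ∧ F1 (E W) = 3 * a ∧ 3 * ((M + 1 : ℕ) : ℤ) ≤ F0 (E W)) =
      ms xE (fun W => ∃ n, Tz (n + M) a (n + M) W ∧ F1 (E W) = 3 * a ∧ 3 * ((M + 1 : ℕ) : ℤ) ≤ F0 (E W)) :=
    ms_congr fun W => by
      rw [wg_ex M]
      simp
  rw [h, ms_sup xE (fun n W => Tz (n + M) a (n + M) W ∧ F1 (E W) = 3 * a ∧ 3 * ((M + 1 : ℕ) : ℤ) ≤ F0 (E W))
    (fun n W h => ⟨tz_mono (by omega) le_rfl (by omega) h.1, h.2⟩), ENNReal.mul_iSup]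
  refine iSup_le fun n => ?_
  have h1 := tz_re M a (n + M)
  have h2 := tz_re (n + M) a (n + M)
  have h4 : ms xE (fun W => Tz M a (n + M) W ∧ F5 (E W) = 3 * ((n + M : ℕ) : ℤ)) ≤
      ms xE (fun W => Tz (n + M) a (n + M) W ∧ F5 (E W) = 3 * ((n + M : ℕ) : ℤ)) :=
    ms_mono fun W h => ⟨tz_mono (by omega) le_rfl le_rfl h.1, h.2⟩
  have h5 : ms xE (fun W => Tz M a (n + M) W ∧ EB W) ≤ ms xE (fun W => Tz (n + M) a (n + M) W ∧ EB W) :=
    ms_mono fun W h => ⟨tz_mono (by omega) le_rfl le_rfl h.1, h.2⟩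
  have h6 : ms xE (fun W => Tz M a (n + M) W ∧ F1 (E W) = 3 * a) +
      ms xE (fun W => Tz (n + M) a (n + M) W ∧ F1 (E W) = 3 * a ∧ 3 * ((M + 1 : ℕ) : ℤ) ≤ F0 (E W)) ≤
      ms xE (fun W => Tz (n + M) a (n + M) W ∧ F1 (E W) = 3 * a) := by
    rw [ms_split xE (fun W => Tz (n + M) a (n + M) W ∧ F1 (E W) = 3 * a)
      (fun W => 3 * ((M + 1 : ℕ) : ℤ) ≤ F0 (E W)), add_comm]
    refine add_le_add (ms_mono fun W h => ⟨⟨h.1, h.2.1⟩, h.2.2⟩) (ms_mono fun W h => ?_)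
    refine ⟨⟨tz_mono (by omega) le_rfl le_rfl h.1, h.2⟩, ?_⟩
    have h7 := (h.1.2 _ (E_mem W)).2.1
    push_cast
    omega
  have h7 : ms xE (fun W => Tz M a (n + M) W ∧ F0 (E W) = 3 * M + 1) ≤ bn (M + 1) := by
    refine ms_mono fun W h => ?_
    rw [Nat.add_sub_cancel]
    exact ⟨⟨h.1.1, fun z hz => ⟨(h.1.2 z hz).1, (h.1.2 z hz).2.1⟩⟩, h.2⟩
  have f1 : cs * (ms xE (fun W => Tz M a (n + M) W ∧ F1 (E W) = 3 * a) +
      ms xE (fun W => Tz M a (n + M) W ∧ F5 (E W) = 3 * ((n + M : ℕ) : ℤ))) ≤ 1 := by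
    rw [← h1]
    exact le_trans le_add_self le_self_add
  have fb := sn_le M a (n + M)
  generalize ms xE (fun W => Tz M a (n + M) W ∧ F0 (E W) = 3 * M + 1) = A0 at *
  generalize ms xE (fun W => Tz (n + M) a (n + M) W ∧ F0 (E W) = 3 * ((n + M : ℕ) : ℤ) + 1) = A0' at *
  generalize ms xE (fun W => Tz M a (n + M) W ∧ F5 (E W) = 3 * ((n + M : ℕ) : ℤ)) = A5 at *
  generalize ms xE (fun W => Tz (n + M) a (n + M) W ∧ F5 (E W) = 3 * ((n + M : ℕ) : ℤ)) = A5' at *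
  generalize ms xE (fun W => Tz M a (n + M) W ∧ EB W) = Ab at *
  generalize ms xE (fun W => Tz (n + M) a (n + M) W ∧ EB W) = Ab' at *
  generalize ms xE (fun W => Tz M a (n + M) W ∧ F1 (E W) = 3 * a) = A1 at *
  generalize ms xE (fun W => Tz (n + M) a (n + M) W ∧ F1 (E W) = 3 * a) = A1' at *
  generalize ms xE (fun W => Tz (n + M) a (n + M) W ∧ F1 (E W) = 3 * a ∧ 3 * ((M + 1 : ℕ) : ℤ) ≤ F0 (E W)) = X at *
  refine le_trans ?_ h7
  have h8 : cs * (A1 + A5) + sn * Ab ≠ ∞ := by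
    refine ENNReal.add_ne_top.2 ⟨?_, ?_⟩
    · exact ne_top_of_le_ne_top ENNReal.one_ne_top f1
    · exact ne_top_of_le_ne_top ENNReal.one_ne_top fb
  refine (ENNReal.add_le_add_iff_right h8).1 ?_
  calc cs * X + (cs * (A1 + A5) + sn * Ab) = cs * ((A1 + X) + A5) + sn * Ab := by ring
    _ ≤ cs * (A1' + A5') + sn * Ab' := by gcongr
    _ ≤ A0' + cs * (A1' + A5') + sn * Ab' := by
      rw [add_assoc]
      exact le_add_self
    _ = 1 := h2
    _ = A0 + cs * (A1 + A5) + sn * Ab := h1.symm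
    _ = A0 + (cs * (A1 + A5) + sn * Ab) := by ring

end Pool.Agent.BEX.C
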