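import Pool.Agent.BEX.Iface

/-!
# BEX, part E: assembly. From the parts A, B, C, D to `c N^{-1/4} ≤ b_N ≤ C N^{-1/4}`.
-/

namespace Pool.Agent.BEX

open Pool.Agent.Hhelper14.SAW Pool.Agent.HHP
open scoped ENNReal

lemma c3_pos : 0 < c3 := by
  unfold c3
  refine Real.cos_pos_of_mem_Ioo ⟨by linarith [Real.pi_pos], by linarith [Real.pi_pos]⟩

lemma rpow_half {x : ℝ} (hx : 0 ≤ x) : (x ^ (-(1 / 4) : ℝ)) ^ 2 = x ^ (-(1 / 2) : ℝ) := by
  rw [← Real.rpow_natCast, ← Real.rpow_mul hx]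
  norm_num

/-- Lower bound (milestone 1). -/
theorem lower_of (S : ℕ → ℝ) (hS : ∀ L, 0 ≤ S L)
    (hC1 : ∃ C : ℝ, 0 < C ∧ ∀ m : ℕ, 1 ≤ ENNReal.ofReal c3 * ms xE (TA m) + ENNReal.ofReal C * ms xE (Br (m / 2)))
    (hD1 : ∀ m L : ℕ, 2 * m + 1 ≤ L → ms xE (TA m) ≤ ENNReal.ofReal (S L))
    (hP : ∃ c : ℝ, 0 < c ∧ ∀ L : ℕ, 1 ≤ L → 0 < 1 - c3 * S L ∧
      c * (L : ℝ) ^ (-(1 / 2) : ℝ) ≤ (1 - c3 * S L) * (1 - c3 * S (L + 1))) :
    ∃ c : ℝ, 0 < c ∧ ∀ N : ℕ, ENNReal.ofReal (c * ((N : ℝ) + 1) ^ (-(1 / 4) : ℝ)) ≤ ms xE (Br N) := by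
  obtain ⟨C, hC, hC1⟩ := hC1
  obtain ⟨c, hc, hP⟩ := hP
  have hfin : ∀ N, ms xE (Br N) ≠ ∞ := fun N => ne_top_of_le_ne_top ENNReal.one_ne_top (Br_one _)
  have key : ∀ m L : ℕ, 2 * m + 1 ≤ L → 1 - c3 * S L ≤ C * (ms xE (Br (m / 2))).toReal := by
    intro m L hL
    have h1 := hC1 m
    have h2 : ENNReal.ofReal c3 * ms xE (TA m) ≤ ENNReal.ofReal (c3 * S L) := by
      rw [ENNReal.ofReal_mul c3_pos.le]
      exact mul_le_mul_right (hD1 m L hL) _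
    have h3 : ENNReal.ofReal C * ms xE (Br (m / 2)) = ENNReal.ofReal (C * (ms xE (Br (m / 2))).toReal) := by
      rw [ENNReal.ofReal_mul hC.le, ENNReal.ofReal_toReal (hfin _)]
    have h4 : (1 : ℝ≥0∞) ≤ ENNReal.ofReal (c3 * S L + C * (ms xE (Br (m / 2))).toReal) := by
      rw [ENNReal.ofReal_add (mul_nonneg c3_pos.le (hS L)) (mul_nonneg hC.le ENNReal.toReal_nonneg), ← h3]
      exact h1.trans (add_le_add_left h2 _)
    rw [ENNReal.one_le_ofReal] at h4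
    linarith
  refine ⟨Real.sqrt (c / 2) / C, by positivity, fun N => ?_⟩
  set b := (ms xE (Br N)).toReal with hb
  have hb0 : 0 ≤ b := ENNReal.toReal_nonneg
  have hm : (2 * N) / 2 = N := by omega
  obtain ⟨p1, p2⟩ := hP (4 * N + 1) (by omega)
  obtain ⟨p3, -⟩ := hP (4 * N + 2) (by omega)
  have k1 := key (2 * N) (4 * N + 1) (by omega)
  have k2 := key (2 * N) (4 * N + 2) (by omega)
  rw [hm, ← hb] at k1 k2
  have h5 : c * ((4 * N + 1 : ℕ) : ℝ) ^ (-(1 / 2) : ℝ) ≤ (C * b) ^ 2 := by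
    refine p2.trans ?_
    rw [sq]
    exact mul_le_mul k1 k2 p3.le (mul_nonneg hC.le hb0)
  have h7 : (1 / 2) * ((N : ℝ) + 1) ^ (-(1 / 2) : ℝ) ≤ ((4 * N + 1 : ℕ) : ℝ) ^ (-(1 / 2) : ℝ) := by
    have h6 : (4 * ((N : ℝ) + 1)) ^ (-(1 / 2) : ℝ) = (1 / 2) * ((N : ℝ) + 1) ^ (-(1 / 2) : ℝ) := by
      rw [Real.mul_rpow (by norm_num) (by positivity)]
      congr 1
      rw [show (4 : ℝ) = 2 ^ (2 : ℝ) by norm_num, ← Real.rpow_mul (by norm_num)]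
      norm_num
      try rw [Real.rpow_neg_one]
    rw [← h6]
    refine Real.rpow_le_rpow_of_nonpos (by positivity) (by push_cast; nlinarith) (by norm_num)
  have h8 : c / 2 * ((N : ℝ) + 1) ^ (-(1 / 2) : ℝ) ≤ (C * b) ^ 2 := by
    refine le_trans ?_ h5
    calc c / 2 * ((N : ℝ) + 1) ^ (-(1 / 2) : ℝ) = c * (1 / 2 * ((N : ℝ) + 1) ^ (-(1 / 2) : ℝ)) := by ring
      _ ≤ _ := mul_le_mul_of_nonneg_left h7 hc.le
  have h9 : (Real.sqrt (c / 2) * ((N : ℝ) + 1) ^ (-(1 / 4) : ℝ)) ^ 2 ≤ (C * b) ^ 2 := by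
    rw [mul_pow, Real.sq_sqrt (by positivity), rpow_half (by positivity)]
    exact h8
  have h10 := abs_le_of_sq_le_sq h9 (mul_nonneg hC.le hb0)
  rw [← ENNReal.ofReal_toReal (hfin N), ← hb]
  refine ENNReal.ofReal_le_ofReal ?_
  rw [div_mul_eq_mul_div, div_le_iff₀ hC, mul_comm b C]
  exact (le_abs_self _).trans h10

lemma ms_split (L : ℕ) : ms xE (SA L) + ms xE (LA L) = ms xE HA := by
  classical
  simp only [ms_ind]
  rw [← ENNReal.tsum_add]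
  refine tsum_congr fun W => ?_
  by_cases h1 : HA W
  · by_cases h2 : |(E W).2| < 2 * (L : ℤ)
    · have h3 : SA L W := ⟨h1, h2⟩
      have h4 : ¬ LA L W := fun h => by have := h.2; omega
      simp [h1, h3, h4]
    · have h3 : ¬ SA L W := fun h => h2 h.2
      have h4 : LA L W := ⟨h1, not_lt.1 h2⟩
      simp [h1, h3, h4]
  · have h3 : ¬ SA L W := fun h => h1 h.1
    have h4 : ¬ LA L W := fun h => h1 h.1
    simp [h1, h3, h4]

/-- Upper bound. -/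
theorem upper_of (S : ℕ → ℝ) (hS : ∀ L, 0 ≤ S L)
    (htot : ENNReal.ofReal c3 * ms xE HA ≤ 1)
    (hC3 : ∀ K : ℝ, (∀ L : ℕ, 1 ≤ L → ms xE (LA L) ≤ ENNReal.ofReal (K * (L : ℝ) ^ (-(1 / 4) : ℝ))) →
      ∃ C : ℝ, ∀ N : ℕ, ms xE (Br N) ≤ ENNReal.ofReal (C * ((N : ℝ) + 1) ^ (-(1 / 4) : ℝ)))
    (hD2 : ∀ L : ℕ, 1 ≤ L → ENNReal.ofReal (S L) ≤ ms xE (SA L))
    (hP : ∃ C : ℝ, 0 < C ∧ ∀ L : ℕ, 1 ≤ L → 0 < 1 - c3 * S L ∧
      (1 - c3 * S L) * (1 - c3 * S (L + 1)) ≤ C * (L : ℝ) ^ (-(1 / 2) : ℝ)) :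
    ∃ C : ℝ, ∀ N : ℕ, ms xE (Br N) ≤ ENNReal.ofReal (C * ((N : ℝ) + 1) ^ (-(1 / 4) : ℝ)) := by
  obtain ⟨C, hC, hP⟩ := hP
  have hHA : ms xE HA ≠ ∞ := by
    intro h
    rw [h, ENNReal.mul_top (ENNReal.ofReal_pos.2 c3_pos).ne'] at htot
    exact absurd htot (by simp)
  have hLA : ∀ L, ms xE (LA L) ≠ ∞ := fun L =>
    ne_top_of_le_ne_top hHA ((ms_split L).symm ▸ le_add_self)
  have hSA : ∀ L, ms xE (SA L) ≠ ∞ := fun L =>
    ne_top_of_le_ne_top hHA ((ms_split L).symm ▸ le_self_add)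
  set l : ℕ → ℝ := fun L => (ms xE (LA L)).toReal with hl
  have hl0 : ∀ L, 0 ≤ l L := fun L => ENNReal.toReal_nonneg
  have htot' : c3 * (ms xE HA).toReal ≤ 1 := by
    have := ENNReal.toReal_mono ENNReal.one_ne_top htot
    rwa [ENNReal.toReal_mul, ENNReal.toReal_ofReal c3_pos.le, ENNReal.toReal_one] at this
  have key : ∀ L, 1 ≤ L → c3 * l L ≤ 1 - c3 * S L := by
    intro L hL
    have h1 : S L ≤ (ms xE (SA L)).toReal := by
      have := ENNReal.toReal_mono (hSA L) (hD2 L hL)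
      rwa [ENNReal.toReal_ofReal (hS L)] at this
    have h2 : (ms xE (SA L)).toReal + l L = (ms xE HA).toReal := by
      rw [← ms_split L, ENNReal.toReal_add (hSA L) (hLA L)]
    have h3 := mul_le_mul_of_nonneg_left h1 c3_pos.le
    rw [← h2, mul_add] at htot'
    linarith
  have mono : ∀ L, l (L + 1) ≤ l L := by
    intro L
    refine ENNReal.toReal_mono (hLA L) (ms_mono ?_)
    rintro W ⟨h1, h2⟩
    refine ⟨h1, ?_⟩
    push_cast at h2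
    omega
  have hbd : ∀ L, l (L + 1) ≤ Real.sqrt C / c3 * ((L + 1 : ℕ) : ℝ) ^ (-(1 / 4) : ℝ) * (2 : ℝ) ^ (1 / 4 : ℝ) + 0 ∨ L = 0 := by
    intro L
    rcases Nat.eq_zero_or_pos L with hL | hL
    · right; exact hL
    left
    obtain ⟨p1, p2⟩ := hP L hL
    obtain ⟨p3, -⟩ := hP (L + 1) (by omega)
    have k1 := key L hL
    have k2 := key (L + 1) (by omega)
    have h4 : (c3 * l (L + 1)) ^ 2 ≤ C * (L : ℝ) ^ (-(1 / 2) : ℝ) := by
      refine le_trans ?_ p2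
      rw [sq]
      refine mul_le_mul ((mul_le_mul_of_nonneg_left (mono L) c3_pos.le).trans k1) k2
        (mul_nonneg c3_pos.le (hl0 _)) p1.le
    have h5 : (L : ℝ) ^ (-(1 / 4) : ℝ) ≤ ((L + 1 : ℕ) : ℝ) ^ (-(1 / 4) : ℝ) * (2 : ℝ) ^ (1 / 4 : ℝ) := by
      have hL' : (0 : ℝ) < L := by exact_mod_cast hL
      have h6 : (((L + 1 : ℕ) : ℝ) / 2) ^ (-(1 / 4) : ℝ) = ((L + 1 : ℕ) : ℝ) ^ (-(1 / 4) : ℝ) * (2 : ℝ) ^ (1 / 4 : ℝ) := by
        rw [Real.div_rpow (by positivity) (by norm_num), Real.rpow_neg (by norm_num : (0 : ℝ) ≤ 2), div_inv_eq_mul]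
      rw [← h6]
      refine Real.rpow_le_rpow_of_nonpos (by positivity) ?_ (by norm_num)
      have : (1 : ℝ) ≤ L := by exact_mod_cast hL
      push_cast
      linarith
    have h7 : (c3 * l (L + 1)) ^ 2 ≤ (Real.sqrt C * (L : ℝ) ^ (-(1 / 4) : ℝ)) ^ 2 := by
      rw [mul_pow (Real.sqrt C), Real.sq_sqrt hC.le, rpow_half (by positivity)]
      exact h4
    have h8 := abs_le_of_sq_le_sq h7 (by positivity)
    have h9 : c3 * l (L + 1) ≤ Real.sqrt C * (L : ℝ) ^ (-(1 / 4) : ℝ) := (le_abs_self _).trans h8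
    rw [add_zero, mul_assoc, div_mul_eq_mul_div, le_div_iff₀ c3_pos, mul_comm (l (L + 1))]
    exact h9.trans (mul_le_mul_of_nonneg_left h5 (Real.sqrt_nonneg _))
  set K : ℝ := max (Real.sqrt C / c3 * (2 : ℝ) ^ (1 / 4 : ℝ)) (ms xE HA).toReal with hK
  refine hC3 K ?_
  intro L hL
  rw [← ENNReal.ofReal_toReal (hLA L)]
  refine ENNReal.ofReal_le_ofReal ?_
  obtain ⟨M, rfl⟩ : ∃ M, L = M + 1 := ⟨L - 1, by omega⟩
  rcases hbd M with h | h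
  · refine h.trans ?_
    rw [add_zero, mul_right_comm]
    exact mul_le_mul_of_nonneg_right (le_max_left _ _) (by positivity)
  · subst h
    simp only [zero_add, Nat.cast_one, Real.one_rpow, mul_one]
    refine le_trans ?_ (le_max_right _ _)
    refine ENNReal.toReal_mono hHA ?_
    rw [← ms_split 1]
    exact le_add_self

end Pool.Agent.BEX
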