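import Pool.Agent.HEP.RnSeq

/-!
Regularity of the renewal masses, abstract form (used by BEX/Reg and by the files of PLY).

`Alph.Quarter A` : `c (N+1)^(-1/4) ≤ b N ≤ C (N+1)^(-1/4)` for every `N`; it implies
`U N` of order `(N+1)^(3/4)` (`U_ge`, `U_le`), `Lam N` of order `(N+1)^(-3/4)` (`Lam_ge`, `Lam_le`), `U N ≤ C (N+1) b N` (`b_reg`),
`U_ratio`, `b_ratio` (comparison of any two values), `reg` (the hypothesis `reg` of PLY/Ch/Defs with `ρ = 2 ^ (-3/4)`).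
-/

namespace Pool.Agent.HEP

open scoped ENNReal
open Finset

private lemma pow_step (n : ℕ) : (3 / 4) * ((n : ℝ) + 1) ^ (-(1 / 4) : ℝ) ≤ ((n : ℝ) + 1) ^ (3 / 4 : ℝ) - (n : ℝ) ^ (3 / 4 : ℝ) := by
  have hn : (0 : ℝ) ≤ n := Nat.cast_nonneg n
  have h0 : (0 : ℝ) < (n : ℝ) + 1 := by positivity
  have h1 : (n : ℝ) = ((n : ℝ) + 1) * (1 + -(1 / ((n : ℝ) + 1))) := by field_simp; ring
  have h2 : (1 + -(1 / ((n : ℝ) + 1))) ^ (3 / 4 : ℝ) ≤ 1 + (3 / 4) * -(1 / ((n : ℝ) + 1)) := by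
    have h6 : 1 / ((n : ℝ) + 1) ≤ 1 := by rw [div_le_one h0]; linarith
    exact rpow_one_add_le_one_add_mul_self (by linarith) (by norm_num) (by norm_num)
  have h3 : (0 : ℝ) ≤ 1 + -(1 / ((n : ℝ) + 1)) := by
    have : 1 / ((n : ℝ) + 1) ≤ 1 := by rw [div_le_one h0]; linarith
    linarith
  have h4 : ((n : ℝ) + 1) ^ (-(1 / 4) : ℝ) = ((n : ℝ) + 1) ^ (3 / 4 : ℝ) * (1 / ((n : ℝ) + 1)) := by
    rw [one_div ((n : ℝ) + 1), ← Real.rpow_neg_one, ← Real.rpow_add h0]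
    norm_num
  have h5 : (n : ℝ) ^ (3 / 4 : ℝ) ≤ ((n : ℝ) + 1) ^ (3 / 4 : ℝ) * (1 + (3 / 4) * -(1 / ((n : ℝ) + 1))) := by
    calc (n : ℝ) ^ (3 / 4 : ℝ) = (((n : ℝ) + 1) * (1 + -(1 / ((n : ℝ) + 1)))) ^ (3 / 4 : ℝ) := by rw [← h1]
      _ = ((n : ℝ) + 1) ^ (3 / 4 : ℝ) * (1 + -(1 / ((n : ℝ) + 1))) ^ (3 / 4 : ℝ) := Real.mul_rpow h0.le h3
      _ ≤ _ := mul_le_mul_of_nonneg_left h2 (by positivity)
  rw [h4]
  nlinarith

private lemma sum_pow (n : ℕ) : ∑ k ∈ range n, ((k : ℝ) + 1) ^ (-(1 / 4) : ℝ) ≤ (4 / 3) * (n : ℝ) ^ (3 / 4 : ℝ) := by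
  induction n with
  | zero => simp
  | succ n ih =>
    rw [sum_range_succ]
    push_cast
    have := pow_step n
    linarith

private lemma pow_step' (n : ℕ) : (1 / 4) * ((n : ℝ) + 1) ^ (-(3 / 4) : ℝ) ≤ ((n : ℝ) + 1) ^ (1 / 4 : ℝ) - (n : ℝ) ^ (1 / 4 : ℝ) := by
  have hn : (0 : ℝ) ≤ n := Nat.cast_nonneg n
  have h0 : (0 : ℝ) < (n : ℝ) + 1 := by positivity
  have h1 : (n : ℝ) = ((n : ℝ) + 1) * (1 + -(1 / ((n : ℝ) + 1))) := by field_simp; ring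
  have h2 : (1 + -(1 / ((n : ℝ) + 1))) ^ (1 / 4 : ℝ) ≤ 1 + (1 / 4) * -(1 / ((n : ℝ) + 1)) := by
    have h6 : 1 / ((n : ℝ) + 1) ≤ 1 := by rw [div_le_one h0]; linarith
    exact rpow_one_add_le_one_add_mul_self (by linarith) (by norm_num) (by norm_num)
  have h3 : (0 : ℝ) ≤ 1 + -(1 / ((n : ℝ) + 1)) := by
    have : 1 / ((n : ℝ) + 1) ≤ 1 := by rw [div_le_one h0]; linarith
    linarith
  have h4 : ((n : ℝ) + 1) ^ (-(3 / 4) : ℝ) = ((n : ℝ) + 1) ^ (1 / 4 : ℝ) * (1 / ((n : ℝ) + 1)) := by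
    rw [one_div ((n : ℝ) + 1), ← Real.rpow_neg_one, ← Real.rpow_add h0]
    norm_num
  have h5 : (n : ℝ) ^ (1 / 4 : ℝ) ≤ ((n : ℝ) + 1) ^ (1 / 4 : ℝ) * (1 + (1 / 4) * -(1 / ((n : ℝ) + 1))) := by
    calc (n : ℝ) ^ (1 / 4 : ℝ) = (((n : ℝ) + 1) * (1 + -(1 / ((n : ℝ) + 1)))) ^ (1 / 4 : ℝ) := by rw [← h1]
      _ = ((n : ℝ) + 1) ^ (1 / 4 : ℝ) * (1 + -(1 / ((n : ℝ) + 1))) ^ (1 / 4 : ℝ) := Real.mul_rpow h0.le h3
      _ ≤ _ := mul_le_mul_of_nonneg_left h2 (by positivity)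
  rw [h4]
  nlinarith

private lemma sum_pow' (n : ℕ) : ∑ k ∈ range n, ((k : ℝ) + 1) ^ (-(3 / 4) : ℝ) ≤ 4 * (n : ℝ) ^ (1 / 4 : ℝ) := by
  induction n with
  | zero => simp
  | succ n ih =>
    rw [sum_range_succ]
    push_cast
    have := pow_step' n
    linarith

namespace Alph

variable (A : Alph)

/-- The renewal masses are of order `N^(-1/4)`. -/
def Quarter : Prop := ∃ c C : ℝ, 0 < c ∧ 0 < C ∧ ∀ N : ℕ,
  ENNReal.ofReal (c * ((N : ℝ) + 1) ^ (-(1 / 4) : ℝ)) ≤ A.b N ∧ A.b N ≤ ENNReal.ofReal (C * ((N : ℝ) + 1) ^ (-(1 / 4) : ℝ))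

variable {A}

/-- Lower bound of the renewal function. -/
theorem Quarter.U_ge (h : A.Quarter) (hA : Antitone A.b) : ∃ c : ℝ, 0 < c ∧ ∀ N : ℕ,
    ENNReal.ofReal (c * ((N : ℝ) + 1) ^ (3 / 4 : ℝ)) ≤ A.U N := by
  obtain ⟨c, C, hc, hC, h⟩ := h
  refine ⟨c, hc, fun N => ?_⟩
  have h0 : (0 : ℝ) < (N : ℝ) + 1 := by positivity
  have h1 : ((N : ℝ) + 1) ^ (3 / 4 : ℝ) = ((N : ℝ) + 1) * ((N : ℝ) + 1) ^ (-(1 / 4) : ℝ) := by
    rw [← Real.rpow_one_add' h0.le (by norm_num)]; norm_num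
  calc ENNReal.ofReal (c * ((N : ℝ) + 1) ^ (3 / 4 : ℝ))
      = ENNReal.ofReal (((N : ℝ) + 1) * (c * ((N : ℝ) + 1) ^ (-(1 / 4) : ℝ))) := by rw [h1]; congr 1; ring
    _ = ((N + 1 : ℕ) : ℝ≥0∞) * ENNReal.ofReal (c * ((N : ℝ) + 1) ^ (-(1 / 4) : ℝ)) := by
        rw [ENNReal.ofReal_mul h0.le]
        congr 1
        rw [show ((N : ℝ) + 1) = ((N + 1 : ℕ) : ℝ) by push_cast; ring, ENNReal.ofReal_natCast]
    _ ≤ ((N + 1 : ℕ) : ℝ≥0∞) * A.b N := by gcongr; exact (h N).1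
    _ = ∑ k ∈ range (N + 1), A.b N := by rw [sum_const, card_range, nsmul_eq_mul]
    _ ≤ A.U N := sum_le_sum fun k hk => hA (by rw [mem_range] at hk; omega)

/-- Upper bound of the renewal function. -/
theorem Quarter.U_le (h : A.Quarter) : ∃ C : ℝ, 0 < C ∧ ∀ N : ℕ,
    A.U N ≤ ENNReal.ofReal (C * ((N : ℝ) + 1) ^ (3 / 4 : ℝ)) := by
  obtain ⟨c, C, hc, hC, h⟩ := h
  refine ⟨C * (4 / 3), by positivity, fun N => ?_⟩
  calc A.U N ≤ ∑ k ∈ range (N + 1), ENNReal.ofReal (C * ((k : ℝ) + 1) ^ (-(1 / 4) : ℝ)) :=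
        sum_le_sum fun k _ => (h k).2
    _ = ENNReal.ofReal (∑ k ∈ range (N + 1), C * ((k : ℝ) + 1) ^ (-(1 / 4) : ℝ)) := by
        rw [ENNReal.ofReal_sum_of_nonneg fun k _ => by positivity]
    _ ≤ _ := by
        apply ENNReal.ofReal_le_ofReal
        rw [← mul_sum, mul_assoc]
        have := sum_pow (N + 1)
        push_cast at this
        exact mul_le_mul_of_nonneg_left this hC.le

/-- Regularity: `U N ≤ C (N + 1) b N`. -/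
theorem Quarter.b_reg (h : A.Quarter) : ∃ C : ℕ, ∀ N : ℕ, A.U N ≤ (C : ℝ≥0∞) * ((N + 1 : ℕ) : ℝ≥0∞) * A.b N := by
  obtain ⟨C', hC', hU⟩ := h.U_le
  obtain ⟨c, C, hc, hC, h⟩ := h
  obtain ⟨K, hK⟩ := exists_nat_ge (C' / c)
  refine ⟨K, fun N => (hU N).trans ?_⟩
  have h0 : (0 : ℝ) < (N : ℝ) + 1 := by positivity
  have h1 : ((N : ℝ) + 1) ^ (3 / 4 : ℝ) = ((N : ℝ) + 1) * ((N : ℝ) + 1) ^ (-(1 / 4) : ℝ) := by
    rw [← Real.rpow_one_add' h0.le (by norm_num)]; norm_num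
  have h2 : C' ≤ K * c := by rwa [div_le_iff₀ hc] at hK
  calc ENNReal.ofReal (C' * ((N : ℝ) + 1) ^ (3 / 4 : ℝ))
      ≤ ENNReal.ofReal ((K : ℝ) * ((N + 1 : ℕ) : ℝ) * (c * ((N : ℝ) + 1) ^ (-(1 / 4) : ℝ))) := by
        apply ENNReal.ofReal_le_ofReal
        rw [h1]
        push_cast
        have h3 : 0 ≤ ((N : ℝ) + 1) * ((N : ℝ) + 1) ^ (-(1 / 4) : ℝ) := by positivity
        calc C' * (((N : ℝ) + 1) * ((N : ℝ) + 1) ^ (-(1 / 4) : ℝ))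
            ≤ (K * c) * (((N : ℝ) + 1) * ((N : ℝ) + 1) ^ (-(1 / 4) : ℝ)) := mul_le_mul_of_nonneg_right h2 h3
          _ = _ := by ring
    _ = (K : ℝ≥0∞) * ((N + 1 : ℕ) : ℝ≥0∞) * ENNReal.ofReal (c * ((N : ℝ) + 1) ^ (-(1 / 4) : ℝ)) := by
        rw [ENNReal.ofReal_mul (by positivity), ENNReal.ofReal_mul (by positivity), ENNReal.ofReal_natCast,
          ENNReal.ofReal_natCast]
    _ ≤ _ := by gcongr; exact (h N).1

/-- Upper bound of the tail of the height of a block. -/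
theorem Quarter.Lam_le (h : A.Quarter) (hA : Antitone A.b) : ∃ C : ℝ, 0 < C ∧ ∀ N : ℕ,
    A.Lam N ≤ ENNReal.ofReal (C * ((N : ℝ) + 1) ^ (-(3 / 4) : ℝ)) := by
  obtain ⟨c, hc, hU⟩ := h.U_ge hA
  refine ⟨1 / c, by positivity, fun N => (A.Lam_le_div N).trans ?_⟩
  have h0 : (0 : ℝ) < (N : ℝ) + 1 := by positivity
  have h1 : 0 < c * ((N : ℝ) + 1) ^ (3 / 4 : ℝ) := by positivity
  calc (A.U N)⁻¹ ≤ (ENNReal.ofReal (c * ((N : ℝ) + 1) ^ (3 / 4 : ℝ)))⁻¹ := ENNReal.inv_le_inv.2 (hU N)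
    _ = ENNReal.ofReal (c * ((N : ℝ) + 1) ^ (3 / 4 : ℝ))⁻¹ := (ENNReal.ofReal_inv_of_pos h1).symm
    _ = _ := by
        congr 1
        rw [mul_inv, ← Real.rpow_neg h0.le, one_div]

/-- Lower bound of the tail of the height of a block. -/
theorem Quarter.Lam_ge (h : A.Quarter) (hA : Antitone A.b) : ∃ c : ℝ, 0 < c ∧ ∀ N : ℕ,
    ENNReal.ofReal (c * ((N : ℝ) + 1) ^ (-(3 / 4) : ℝ)) ≤ A.Lam N := by
  obtain ⟨C₁, hC₁, hL⟩ := h.Lam_le hA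
  obtain ⟨C₂, hC₂, hU⟩ := h.U_le
  obtain ⟨c, C, hc, hC, h⟩ := h
  obtain ⟨K, hK1, hK⟩ : ∃ K : ℕ, 1 ≤ K ∧ (4 * C * C₁) * (K : ℝ) ^ (-(1 / 4) : ℝ) ≤ 1 / 2 := by
    have h : Filter.Tendsto (fun K : ℕ => (4 * C * C₁) * (K : ℝ) ^ (-(1 / 4) : ℝ)) Filter.atTop (nhds ((4 * C * C₁) * 0)) :=
      Filter.Tendsto.const_mul _
        ((tendsto_rpow_neg_atTop (by norm_num : (0 : ℝ) < 1 / 4)).comp tendsto_natCast_atTop_atTop)
    rw [mul_zero] at h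
    have h2 := (h.eventually (gt_mem_nhds (by norm_num : (0 : ℝ) < 1 / 2))).and (Filter.eventually_ge_atTop 1)
    obtain ⟨K, h3, h4⟩ := h2.exists
    exact ⟨K, h4, h3.le⟩
  set D : ℝ := 2 * C₂ * ((K : ℝ) + 2) ^ (3 / 4 : ℝ) with hD
  have hD0 : 0 < D := by positivity
  refine ⟨1 / D, by positivity, fun N => ?_⟩
  have h0 : (0 : ℝ) < (N : ℝ) + 1 := by positivity
  -- the renewal identity at `K (N + 1) + N`
  set M : ℕ := K * (N + 1) with hM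
  have hren := A.ren (M + N)
  have h1 : 1 ≤ A.U M * A.Lam N + A.b M * ∑ q ∈ range (N + 1), A.Lam q := by
    calc (1 : ℝ≥0∞) = ∑ p ∈ range (M + (N + 1)), A.b p * A.Lam (M + N - p) := hren.symm
      _ = ∑ p ∈ range M, A.b p * A.Lam (M + N - p) + ∑ q ∈ range (N + 1), A.b (M + q) * A.Lam (M + N - (M + q)) :=
          sum_range_add _ _ _
      _ ≤ ∑ p ∈ range M, A.b p * A.Lam N + ∑ q ∈ range (N + 1), A.b M * A.Lam (N - q) := by
          refine add_le_add (sum_le_sum fun p hp => mul_le_mul' le_rfl (A.Lam_anti ?_))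
            (sum_le_sum fun q hq => mul_le_mul' (hA (Nat.le_add_right M q)) (le_of_eq ?_))
          · have hp' := mem_range.1 hp
            clear_value M
            omega
          · rw [Nat.add_sub_add_left]
      _ = (∑ p ∈ range M, A.b p) * A.Lam N + A.b M * ∑ q ∈ range (N + 1), A.Lam q := by
          rw [sum_mul, ← mul_sum]
          congr 2
          have := sum_range_reflect A.Lam (N + 1)
          rw [← this]
          refine sum_congr rfl fun q hq => ?_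
          congr 1
      _ ≤ _ := by
          gcongr
          unfold U
          exact sum_le_sum_of_subset (range_mono (Nat.le_succ M))
  have hMr : (M : ℝ) = K * ((N : ℝ) + 1) := by rw [hM]; push_cast; ring
  have hK0 : (1 : ℝ) ≤ K := by exact_mod_cast hK1
  -- the second term
  have h2 : A.b M * ∑ q ∈ range (N + 1), A.Lam q ≤ ENNReal.ofReal (1 / 2) := by
    have h3 : ∑ q ∈ range (N + 1), A.Lam q ≤ ENNReal.ofReal (C₁ * (4 * ((N : ℝ) + 1) ^ (1 / 4 : ℝ))) := by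
      calc ∑ q ∈ range (N + 1), A.Lam q ≤ ∑ q ∈ range (N + 1), ENNReal.ofReal (C₁ * ((q : ℝ) + 1) ^ (-(3 / 4) : ℝ)) :=
            sum_le_sum fun q _ => hL q
        _ = ENNReal.ofReal (∑ q ∈ range (N + 1), C₁ * ((q : ℝ) + 1) ^ (-(3 / 4) : ℝ)) := by
            rw [ENNReal.ofReal_sum_of_nonneg fun k _ => by positivity]
        _ ≤ _ := by
            apply ENNReal.ofReal_le_ofReal
            rw [← mul_sum]
            have := sum_pow' (N + 1)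
            push_cast at this
            exact mul_le_mul_of_nonneg_left this hC₁.le
    have h4 : A.b M ≤ ENNReal.ofReal (C * ((K : ℝ) ^ (-(1 / 4) : ℝ) * ((N : ℝ) + 1) ^ (-(1 / 4) : ℝ))) := by
      refine (h M).2.trans (ENNReal.ofReal_le_ofReal (mul_le_mul_of_nonneg_left ?_ hC.le))
      rw [← Real.mul_rpow (by positivity) h0.le, ← hMr]
      refine Real.rpow_le_rpow_of_nonpos (by rw [hMr]; positivity) (by linarith) (by norm_num)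
    calc A.b M * ∑ q ∈ range (N + 1), A.Lam q
        ≤ ENNReal.ofReal (C * ((K : ℝ) ^ (-(1 / 4) : ℝ) * ((N : ℝ) + 1) ^ (-(1 / 4) : ℝ))) *
            ENNReal.ofReal (C₁ * (4 * ((N : ℝ) + 1) ^ (1 / 4 : ℝ))) := mul_le_mul' h4 h3
      _ = ENNReal.ofReal ((4 * C * C₁) * (K : ℝ) ^ (-(1 / 4) : ℝ)) := by
          rw [← ENNReal.ofReal_mul (by positivity)]
          congr 1
          have h5 : ((N : ℝ) + 1) ^ (-(1 / 4) : ℝ) * ((N : ℝ) + 1) ^ (1 / 4 : ℝ) = 1 := by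
            rw [← Real.rpow_add h0]; norm_num
          calc _ = (4 * C * C₁) * (K : ℝ) ^ (-(1 / 4) : ℝ) * (((N : ℝ) + 1) ^ (-(1 / 4) : ℝ) * ((N : ℝ) + 1) ^ (1 / 4 : ℝ)) := by ring
            _ = _ := by rw [h5, mul_one]
      _ ≤ _ := ENNReal.ofReal_le_ofReal hK
  -- the first term
  have h3 : A.U M ≤ ENNReal.ofReal (C₂ * (((K : ℝ) + 2) ^ (3 / 4 : ℝ) * ((N : ℝ) + 1) ^ (3 / 4 : ℝ))) := by
    refine (hU M).trans (ENNReal.ofReal_le_ofReal (mul_le_mul_of_nonneg_left ?_ hC₂.le))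
    rw [← Real.mul_rpow (by positivity) h0.le]
    refine Real.rpow_le_rpow (by positivity) ?_ (by norm_num)
    rw [hMr]
    nlinarith
  have hLt : A.Lam N ≠ ∞ := A.Lam_ne_top N
  have h4 : (1 : ℝ) ≤ C₂ * (((K : ℝ) + 2) ^ (3 / 4 : ℝ) * ((N : ℝ) + 1) ^ (3 / 4 : ℝ)) * (A.Lam N).toReal + 1 / 2 := by
    have h5 : (1 : ℝ≥0∞) ≤ ENNReal.ofReal (C₂ * (((K : ℝ) + 2) ^ (3 / 4 : ℝ) * ((N : ℝ) + 1) ^ (3 / 4 : ℝ)) * (A.Lam N).toReal + 1 / 2) := by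
      calc (1 : ℝ≥0∞) ≤ A.U M * A.Lam N + A.b M * ∑ q ∈ range (N + 1), A.Lam q := h1
        _ ≤ ENNReal.ofReal (C₂ * (((K : ℝ) + 2) ^ (3 / 4 : ℝ) * ((N : ℝ) + 1) ^ (3 / 4 : ℝ))) * ENNReal.ofReal (A.Lam N).toReal +
            ENNReal.ofReal (1 / 2) := by
            rw [ENNReal.ofReal_toReal hLt]
            gcongr
        _ = _ := by rw [← ENNReal.ofReal_mul (by positivity), ← ENNReal.ofReal_add (by positivity) (by norm_num)]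
    rwa [← ENNReal.ofReal_one, ENNReal.ofReal_le_ofReal_iff (by positivity)] at h5
  rw [ENNReal.ofReal_le_iff_le_toReal hLt, one_div, ← div_eq_inv_mul, div_le_iff₀ hD0, Real.rpow_neg h0.le,
    inv_le_iff_one_le_mul₀ (by positivity)]
  rw [hD]
  nlinarith

/-- Comparison of two values of the renewal function (all `m`, `M`). -/
theorem Quarter.U_ratio (h : A.Quarter) (hA : Antitone A.b) : ∃ C : ℝ, 0 < C ∧ ∀ m M : ℕ,
    A.U m ≤ ENNReal.ofReal (C * (((m : ℝ) + 1) / ((M : ℝ) + 1)) ^ (3 / 4 : ℝ)) * A.U M := by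
  obtain ⟨c, hc, h1⟩ := h.U_ge hA
  obtain ⟨C, hC, h2⟩ := h.U_le
  refine ⟨C / c, by positivity, fun m M => ?_⟩
  calc A.U m ≤ ENNReal.ofReal (C * ((m : ℝ) + 1) ^ (3 / 4 : ℝ)) := h2 m
    _ = ENNReal.ofReal (C / c * (((m : ℝ) + 1) / ((M : ℝ) + 1)) ^ (3 / 4 : ℝ)) *
          ENNReal.ofReal (c * ((M : ℝ) + 1) ^ (3 / 4 : ℝ)) := by
        rw [← ENNReal.ofReal_mul (by positivity)]
        congr 1
        rw [Real.div_rpow (by positivity) (by positivity)]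
        have h0 : 0 < ((M : ℝ) + 1) ^ (3 / 4 : ℝ) := by positivity
        field_simp
    _ ≤ _ := by gcongr; exact h1 M

/-- Comparison of two renewal masses (all `m`, `M`). -/
theorem Quarter.b_ratio (h : A.Quarter) : ∃ C : ℝ, 0 < C ∧ ∀ m M : ℕ,
    A.b m ≤ ENNReal.ofReal (C * (((m : ℝ) + 1) / ((M : ℝ) + 1)) ^ (-(1 / 4) : ℝ)) * A.b M := by
  obtain ⟨c, C, hc, hC, h⟩ := h
  refine ⟨C / c, by positivity, fun m M => ?_⟩
  calc A.b m ≤ ENNReal.ofReal (C * ((m : ℝ) + 1) ^ (-(1 / 4) : ℝ)) := (h m).2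
    _ = ENNReal.ofReal (C / c * (((m : ℝ) + 1) / ((M : ℝ) + 1)) ^ (-(1 / 4) : ℝ)) *
          ENNReal.ofReal (c * ((M : ℝ) + 1) ^ (-(1 / 4) : ℝ)) := by
        rw [← ENNReal.ofReal_mul (by positivity)]
        congr 1
        rw [Real.div_rpow (by positivity) (by positivity)]
        have h0 : 0 < ((M : ℝ) + 1) ^ (-(1 / 4) : ℝ) := by positivity
        field_simp
    _ ≤ _ := by gcongr; exact (h M).1

/-- The hypothesis `reg` of PLY/Ch/Defs, with `ρ = 2 ^ (-3/4)`. -/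
theorem Quarter.reg (h : A.Quarter) (hA : Antitone A.b) : ∃ K : ℝ≥0∞, K ≠ ∞ ∧ ∀ j k : ℕ, j ≤ k →
    A.U (2 ^ j) ≤ K * (ENNReal.ofReal ((2 : ℝ) ^ (-(3 / 4) : ℝ))) ^ (k - j) * A.U (2 ^ k) := by
  obtain ⟨C, hC, h⟩ := h.U_ratio hA
  refine ⟨ENNReal.ofReal (2 * C), ENNReal.ofReal_ne_top, fun j k hjk => (h (2 ^ j) (2 ^ k)).trans ?_⟩
  gcongr
  rw [← ENNReal.ofReal_pow (by positivity), ← ENNReal.ofReal_mul (by positivity)]
  apply ENNReal.ofReal_le_ofReal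
  obtain ⟨d, rfl⟩ := Nat.exists_eq_add_of_le hjk
  rw [Nat.add_sub_cancel_left]
  have h2j : (0 : ℝ) < 2 ^ j := by positivity
  have h2d : (0 : ℝ) < 2 ^ d := by positivity
  have e1 : (((2 ^ j : ℕ) : ℝ) + 1) / (((2 ^ (j + d) : ℕ) : ℝ) + 1) ≤ 2 * (1 / 2 ^ d) := by
    push_cast
    rw [div_le_iff₀ (by positivity), pow_add]
    have h1 : (1 : ℝ) ≤ 2 ^ j := one_le_pow₀ (by norm_num)
    have : 2 * (1 / 2 ^ d) * ((2 : ℝ) ^ j * 2 ^ d + 1) = 2 * 2 ^ j + 2 / 2 ^ d := by field_simp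
    rw [this]
    have : 0 < (2 : ℝ) / 2 ^ d := by positivity
    linarith
  have e2 : (((2 ^ j : ℕ) : ℝ) + 1) / (((2 ^ (j + d) : ℕ) : ℝ) + 1) ≥ 0 := by positivity
  calc C * ((((2 ^ j : ℕ) : ℝ) + 1) / (((2 ^ (j + d) : ℕ) : ℝ) + 1)) ^ (3 / 4 : ℝ)
      ≤ C * (2 * (1 / 2 ^ d)) ^ (3 / 4 : ℝ) :=
        mul_le_mul_of_nonneg_left (Real.rpow_le_rpow e2 e1 (by norm_num)) hC.le
    _ = C * (2 ^ (3 / 4 : ℝ) * (1 / 2 ^ d) ^ (3 / 4 : ℝ)) := by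
        rw [Real.mul_rpow (by norm_num) (by positivity)]
    _ ≤ C * (2 * (1 / 2 ^ d) ^ (3 / 4 : ℝ)) := by
        gcongr
        calc (2 : ℝ) ^ (3 / 4 : ℝ) ≤ 2 ^ (1 : ℝ) := Real.rpow_le_rpow_of_exponent_le (by norm_num) (by norm_num)
          _ = 2 := Real.rpow_one 2
    _ = 2 * C * ((2 : ℝ) ^ (-(3 / 4) : ℝ)) ^ d := by
        have : ((1 : ℝ) / 2 ^ d) ^ (3 / 4 : ℝ) = ((2 : ℝ) ^ (-(3 / 4) : ℝ)) ^ d := by
          rw [one_div, Real.inv_rpow (by positivity), ← Real.rpow_natCast 2 d, ← Real.rpow_mul (by norm_num),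
            ← Real.rpow_natCast ((2 : ℝ) ^ (-(3 / 4) : ℝ)) d, ← Real.rpow_mul (by norm_num),
            ← Real.rpow_neg (by norm_num)]
          congr 1
          ring
        rw [this]
        ring

end Alph

end Pool.Agent.HEP
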