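import Pool.Agent.BEX.Final
import Pool.Agent.BEX.Quart
import Pool.Agent.GAP.ISys

/-!
BEX: regularity of the renewal masses of the honeycomb lattice, for the systems `hsI` (GAP/ISys) and `hs n` (HEP/GSys):
`hsI_quarter`, `hs_quarter`. The consequences (`U_ge`, `U_le`, `Lam_ge`, `Lam_le`, `b_reg`, `U_ratio`, `b_ratio`, `reg`) are in BEX/Quart.
-/

namespace Pool.Agent.HEP

open scoped ENNReal
open Finset

/-- The renewal masses of the honeycomb lattice. -/
theorem hsI_quarter : hsI.Quarter := by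
  obtain ⟨c, hc, hlow⟩ := Pool.Agent.BEX.bridge_lower
  obtain ⟨C, hup⟩ := Pool.Agent.BEX.bridge_upper
  refine ⟨min c 1, max (2 * C) 1, lt_min hc one_pos, lt_max_of_lt_right one_pos, fun N => ?_⟩
  cases N with
  | zero =>
    rw [hsI_b_zero]
    simp only [Nat.cast_zero, zero_add, Real.one_rpow, mul_one]
    exact ⟨ENNReal.ofReal_le_one.2 (min_le_right _ _), ENNReal.one_le_ofReal.2 (le_max_right _ _)⟩
  | succ k =>
    rw [hsI_b]
    have hk : (0 : ℝ) < (k : ℝ) + 1 := by positivity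
    push_cast
    constructor
    · refine le_trans (ENNReal.ofReal_le_ofReal ?_) (hlow k)
      refine mul_le_mul (min_le_left _ _) ?_ (by positivity) hc.le
      exact Real.rpow_le_rpow_of_nonpos hk (by linarith) (by norm_num)
    · refine (hup k).trans (ENNReal.ofReal_le_ofReal ?_)
      have h1 : ((k : ℝ) + 1) ^ (-(1 / 4) : ℝ) ≤ 2 * ((k : ℝ) + 1 + 1) ^ (-(1 / 4) : ℝ) := by
        rw [Real.rpow_neg hk.le, Real.rpow_neg (by positivity), ← div_eq_mul_inv, inv_eq_one_div,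
          div_le_div_iff₀ (by positivity) (by positivity), one_mul]
        calc ((k : ℝ) + 1 + 1) ^ (1 / 4 : ℝ) ≤ (2 * ((k : ℝ) + 1)) ^ (1 / 4 : ℝ) :=
              Real.rpow_le_rpow (by positivity) (by linarith [Nat.cast_nonneg (α := ℝ) k]) (by norm_num)
          _ = 2 ^ (1 / 4 : ℝ) * ((k : ℝ) + 1) ^ (1 / 4 : ℝ) := Real.mul_rpow (by norm_num) hk.le
          _ ≤ 2 * ((k : ℝ) + 1) ^ (1 / 4 : ℝ) := by
              refine mul_le_mul_of_nonneg_right ?_ (by positivity)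
              calc (2 : ℝ) ^ (1 / 4 : ℝ) ≤ 2 ^ (1 : ℝ) := Real.rpow_le_rpow_of_exponent_le (by norm_num) (by norm_num)
                _ = 2 := Real.rpow_one 2
      have h2 : (0 : ℝ) ≤ ((k : ℝ) + 1 + 1) ^ (-(1 / 4) : ℝ) := by positivity
      rcases le_or_gt C 0 with hC | hC
      · calc C * ((k : ℝ) + 1) ^ (-(1 / 4) : ℝ) ≤ 0 := mul_nonpos_of_nonpos_of_nonneg hC (by positivity)
          _ ≤ _ := mul_nonneg (le_trans zero_le_one (le_max_right _ _)) h2
      · calc C * ((k : ℝ) + 1) ^ (-(1 / 4) : ℝ) ≤ C * (2 * ((k : ℝ) + 1 + 1) ^ (-(1 / 4) : ℝ)) :=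
              mul_le_mul_of_nonneg_left h1 hC.le
          _ = (2 * C) * ((k : ℝ) + 1 + 1) ^ (-(1 / 4) : ℝ) := by ring
          _ ≤ _ := mul_le_mul_of_nonneg_right (le_max_left _ _) h2

theorem hs_quarter (n : ℕ) : (hs n).Quarter := hsI_quarter

end Pool.Agent.HEP
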