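import Pool.Agent.BEX.AB
import Pool.Agent.BEX.EFinal
import Pool.Agent.BEX.CC1
import Pool.Agent.BEX.CInd
import Pool.Agent.BEX.D.D0
import Pool.Agent.QL.Main
import Pool.Agent.BEX.F.FMain
import Pool.Agent.BEX.F.TrB

/-!
# BEX: the critical bridge exponent of the honeycomb lattice, and the half-plane form of Q1.
-/

namespace Pool.Agent.BEX

open Pool.Agent.Hhelper14.SAW Pool.Agent.HHP
open scoped ENNReal
open Filter Topology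

theorem powZero (L : ℕ) : PowZero (List.finRange L) :=
  PowZero_of_bdd L (fun M i j h => QL.Rm_ars_le L M i j h)

/-- Lower bound of the bridge masses. -/
theorem bridge_lower : ∃ c : ℝ, 0 < c ∧
    ∀ N : ℕ, ENNReal.ofReal (c * ((N : ℝ) + 1) ^ (-(1 / 4) : ℝ)) ≤ ms xE (Br N) := by
  obtain ⟨c, D, hc, hD, h⟩ := prod_bounds_of (fun L _ => powZero L)
  exact lower_of S QL.S_nonneg C.C1 QL.D1 ⟨c, hc, fun L hL => ⟨(h L hL).1, (h L hL).2.1⟩⟩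

/-- Upper bound of the bridge masses. -/
theorem bridge_upper : ∃ C : ℝ,
    ∀ N : ℕ, ms xE (Br N) ≤ ENNReal.ofReal (C * ((N : ℝ) + 1) ^ (-(1 / 4) : ℝ)) := by
  obtain ⟨c, D, hc, hD, h⟩ := prod_bounds_of (fun L _ => powZero L)
  have hP : ∃ D : ℝ, 0 < D ∧ ∀ L : ℕ, 1 ≤ L → 0 < 1 - c3 * S L ∧
      (1 - c3 * S L) * (1 - c3 * S (L + 1)) ≤ D * (L : ℝ) ^ (-(1 / 2) : ℝ) :=
    ⟨D, hD, fun L hL => ⟨(h L hL).1, (h L hL).2.2⟩⟩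
  have H := C.H_of S QL.S_nonneg QL.D2 hP
  exact upper_of S QL.S_nonneg C.arc_total (fun K hK => C.C3 H K hK) QL.D2 hP

/-- The half-plane form of Q1. -/
theorem half_main :
    (∀ N : ℕ, 1 ≤ N → ∑' w : Half.Stopped N, Half.wt w = 1) ∧
    (∃ c : ℝ, 0 < c ∧ ∀ N : ℕ, 1 ≤ N → c * (N : ℝ) ^ (-(3 / 4) : ℝ) ≤ Half.P N) ∧
    (∀ ε : ℝ, 0 < ε → ∃ C : ℝ, 0 < C ∧ ∀ N : ℕ, 1 ≤ N → Half.P N ≤ C * (N : ℝ) ^ (-(3 / 4) + ε : ℝ)) ∧
    Tendsto (fun N : ℕ => Real.log (Half.P N) / Real.log N) atTop (𝓝 (-(3 / 4))) :=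
  F.half_of bridge_lower bridge_upper

/-- The critical bridge exponent. -/
theorem bridge_main : ∃ c C : ℝ, 0 < c ∧ 0 < C ∧ ∀ M : ℕ, 1 ≤ M →
    c * (M : ℝ) ^ (-(1 / 4) : ℝ) ≤ ∑' w : Half.Bridge M, Half.wt w ∧
      ∑' w : Half.Bridge M, Half.wt w ≤ C * (M : ℝ) ^ (-(1 / 4) : ℝ) :=
  F.bridge_of bridge_lower bridge_upper

end Pool.Agent.BEX
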