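import Pool.Agent.HHP.Mass

/-!
# BEX (bridge exponent of the honeycomb lattice), interface: masses in the half plane.

Half plane = columns `0, 1, 2, ...` (`0 ≤ F0 z`), start `o = (0,0)` entered from the left leg. The left leg number `k` of
the half plane hangs at the vertex `(-k, 2 k)`; translation by one leg = `(-1, 2)`.
`xE = x_c`, `ms xE P = ∑ x_c ^ (number of vertices)`. `c3 = cos (3π/8)`. Bridges of `N + 1` columns: `Br N`.
-/

namespace Pool.Agent.BEX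

open Pool.Agent.Hhelper14.SAW Pool.Agent.HHP
open scoped ENNReal

/-- `cos (3π/8)`. -/
noncomputable def c3 : ℝ := Real.cos (3 * Real.pi / 8)

/-- Arcs of the half plane (they end at a left leg other than the one of `o`). -/
def HA (W : List Bool) : Prop := (V W).Nodup ∧ (∀ z ∈ V W, 0 ≤ F0 z) ∧ F0 (E W) = 0 ∧ W ≠ []

/-- Arcs inside the triangle whose base carries the left legs `-m, ..., m`. -/
def TA (m : ℕ) (W : List Bool) : Prop :=
  HA W ∧ ∀ z ∈ V W, z.1 + 2 * z.2 ≤ 3 * m ∧ z.1 - z.2 ≤ 3 * m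

/-- Arcs whose end leg `k` has `|k| < L`. -/
def SA (L : ℕ) (W : List Bool) : Prop := HA W ∧ |(E W).2| < 2 * L

/-- Arcs whose end leg `k` has `|k| ≥ L`. -/
def LA (L : ℕ) (W : List Bool) : Prop := HA W ∧ 2 * (L : ℤ) ≤ |(E W).2|

/-
STATEMENTS OF THE PARTS (S L : ℝ is the number `∑_k R_{0k}` of the row operator, part D).

part C (architects helper62, helper82), files BEX/C*.lean:
theorem arc_total : ENNReal.ofReal c3 * ms xE HA ≤ 1
theorem C1 : ∃ C : ℝ, 0 < C ∧ ∀ m : ℕ, 1 ≤ ENNReal.ofReal c3 * ms xE (TA m) + ENNReal.ofReal C * ms xE (Br (m / 2))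
theorem C3 (K : ℝ) (hK : ∀ L : ℕ, 1 ≤ L → ms xE (LA L) ≤ ENNReal.ofReal (K * (L : ℝ) ^ (-(1 / 4) : ℝ))) :
  ∃ C : ℝ, ∀ N : ℕ, ms xE (Br N) ≤ ENNReal.ofReal (C * ((N : ℝ) + 1) ^ (-(1 / 4) : ℝ))

part D (architect helper55), files QL/*.lean:
theorem S_nonneg (L : ℕ) : 0 ≤ S L
theorem D1 (m L : ℕ) (h : 2 * m + 1 ≤ L) : ms xE (TA m) ≤ ENNReal.ofReal (S L)
theorem D2 (L : ℕ) (h : 1 ≤ L) : ENNReal.ofReal (S L) ≤ ms xE (SA L)

parts A (helper82, helper79; A3 helper63) and B (helper68, helper57):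
theorem prod_bounds : ∃ c C : ℝ, 0 < c ∧ 0 < C ∧ ∀ L : ℕ, 1 ≤ L → 0 < 1 - c3 * S L ∧
  c * (L : ℝ) ^ (-(1 / 2) : ℝ) ≤ (1 - c3 * S L) * (1 - c3 * S (L + 1)) ∧
  (1 - c3 * S L) * (1 - c3 * S (L + 1)) ≤ C * (L : ℝ) ^ (-(1 / 2) : ℝ)

part E (helper45): `EFinal.lean`, `lower_of`, `upper_of`: proved.
-/

end Pool.Agent.BEX
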