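import Mathlib

/-!
# BEX (bridge exponent of the honeycomb lattice), part B: orthogonal polynomials. Definitions and target statements.

`kap t = sinh t / (cosh t + h)`, `h = 1/√2`; `wt k = cosh (π k / 4) / sinh (π k)`;
`ip p q = ∫_{k>0} p(k²) q(k²) 2 k wt k dk`.

PAPER PROOF (note 3028, Theorem 2).
(B0) `kap t = 2 ∫_{k>0} sin (k t) wt k dk`; in derivatives: `kap_deriv` (`OPMom.lean`). Proof by the partial fractions of
`tanh` (Mathlib: `cot_series_rep`) and `wt k = Σ_m (e^{-((2m+1)π-θ)k} + e^{-((2m+1)π+θ)k})`, `θ = π/4`.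
(B1) `wt k = r k / sinh (3πk/4)`, `r k = (1 + 1/(2 cosh (πk/2)))/2 ∈ [1/2, 3/4]`.
(B2) Meixner–Pollaczek: `x = 3k/4`, `(m+1) P_{m+1} = 2 x P_m - (m+1) P_{m-1}`, `P_0 = 1`, `P_{-1} = 0`. With `F a = sec² (a/2)/2`,
`T = tan (a/2)`: `P_m(D) F = (m+1) T^m F` (induction: `T' = (1+T²)/2`, `F' = T F`), so for the functional
`ℓ(x^n) = F^{(n)}(0) = ∫_ℝ x^n x/sinh(πx) dx` the `P_m` are orthogonal, `ℓ(P_m²) = (m+1)/2`.
At `x = iξ`: `P_m(iξ) = i^m c_m(ξ)`, `c_m(ξ) = [t^m] (1-t)^{-1-ξ} (1+t)^{-1+ξ}`; `(m+1) c_{m+1} = 2 ξ c_m + (m+1) c_{m-1}`.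
`c_{2l}(0) = 1`; `c_m(3/4) ≍ m^{3/4}` (`k = i` is `ξ = 3/4`, `y = k² = -1`).
(B3) `K_n(a,a;ν) = max q(a)²/∫q²dν`; comparison `ν/2 ≤ μ ≤ 3ν/4`.
(B4) `odd_lower`, `even_upper`.
-/

namespace Pool.Agent.BEX

open Polynomial MeasureTheory

/-- The kernel function. -/
noncomputable def kap (t : ℝ) : ℝ := Real.sinh t / (Real.cosh t + Real.sqrt 2 / 2)

/-- The weight. -/
noncomputable def wt (k : ℝ) : ℝ := Real.cosh (Real.pi * k / 4) / Real.sinh (Real.pi * k)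

/-- The inner product of `μ` (in the variable `y = k²`). -/
noncomputable def ip (p q : ℝ[X]) : ℝ :=
  ∫ k in Set.Ioi (0 : ℝ), p.eval (k ^ 2) * q.eval (k ^ 2) * (2 * k * wt k)

end Pool.Agent.BEX
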