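import Pool.Agent.BEX.OPMP

/-!
# BEX part B, module OPGrow: growth of `E_l(-1)`

PAPER PROOF. `c_{2l} := E_l(-1)`, `c_{2l+1} := -(3/4) O_l(-1)`: the recursion of `EO` at `y = -1` becomes
`c_{m+2} = c_m + (3/2)/(m+2) c_{m+1}`, `c_0 = 1`, `c_1 = 3/2` (all positive, `c_m = [t^m] (1-t)^(-7/4) (1+t)^(-1/4)`).
Bounds `c (m+1)^(3/4) ≤ c_m ≤ C (m+1)^(3/4)`: e.g. compare with `g_m = Γ(m+7/4)/(Γ(7/4) m!) = [t^m](1-t)^(-7/4)`
(`g_{m+1} = g_m (m+7/4)/(m+1)`), or put `s_m = c_m + c_{m+1}`: `s_{m+1} = c_{m+1} + c_m + (3/2)/(m+2) c_{m+1}`, so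
`s_{m+1}/s_m = 1 + (3/2)/(m+2) · c_{m+1}/s_m`, and show `|c_{m+1}/s_m - 1/2| ≤ K/(m+1)`; or use
`s_m (1 + (3/4)/(m+2) - K/(m+2)^2) ≤ s_{m+1} ≤ s_m (1 + (3/4)/(m+2) + K/(m+2)^2)`. Any proof is fine.
(Generating function check: (1-t)^(-7/4)(1+t)^(-1/4).) Simplest: `(1+t)^(-1/4)(1-t)^(-1/4) = (1-t²)^(-1/4)` has coefficients
`h_{2i} = (1/4)_i/i! ≥ 0` and `(1-t)^(-3/2)` has increasing positive coefficients `≍ (m+1)^(1/2)`:
`c_m = Σ_i h_{2i} f_{m-2i}`, `Σ_{i ≤ m/2} h_{2i} ≍ (m+1)^(1/4)`: upper bound `f_m Σ h`, lower bound from `i ≤ m/4`.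
-/

set_option autoImplicit false

namespace Pool.Agent.BEX

open Polynomial MeasureTheory

private lemma grow_k1 {x : ℝ} (hx : 0 < x) :
    (x + 2) ^ (3 / 4 : ℝ) ≤ x ^ (3 / 4 : ℝ) + 3 / 2 / x * (x + 1) ^ (3 / 4 : ℝ) := by
  have h1 : (x + 2) ^ (3 / 4 : ℝ) = x ^ (3 / 4 : ℝ) * (1 + 2 / x) ^ (3 / 4 : ℝ) := by
    rw [← Real.mul_rpow hx.le (by positivity)]
    congr 1
    field_simp
  have h2 : (1 + 2 / x) ^ (3 / 4 : ℝ) ≤ 1 + 3 / 4 * (2 / x) :=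
    rpow_one_add_le_one_add_mul_self (by linarith [show (0 : ℝ) ≤ 2 / x by positivity])
      (by norm_num) (by norm_num)
  have h3 : x ^ (3 / 4 : ℝ) ≤ (x + 1) ^ (3 / 4 : ℝ) :=
    Real.rpow_le_rpow hx.le (by linarith) (by norm_num)
  have h4 : 0 ≤ x ^ (3 / 4 : ℝ) := Real.rpow_nonneg hx.le _
  calc (x + 2) ^ (3 / 4 : ℝ) ≤ x ^ (3 / 4 : ℝ) * (1 + 3 / 4 * (2 / x)) := by
        rw [h1]; exact mul_le_mul_of_nonneg_left h2 h4
    _ = x ^ (3 / 4 : ℝ) + 3 / 2 / x * x ^ (3 / 4 : ℝ) := by field_simp; ring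
    _ ≤ _ := by
        have : 0 ≤ 3 / 2 / x := by positivity
        linarith [mul_le_mul_of_nonneg_left h3 this]

private lemma grow_k2 {x : ℝ} (hx : 0 ≤ x) :
    x ^ (3 / 4 : ℝ) + 3 / 2 / (x + 2) * (x + 1) ^ (3 / 4 : ℝ) ≤ (x + 2) ^ (3 / 4 : ℝ) := by
  have hx2 : 0 < x + 2 := by linarith
  have h1 : x ^ (3 / 4 : ℝ) = (x + 2) ^ (3 / 4 : ℝ) * (1 + -(2 / (x + 2))) ^ (3 / 4 : ℝ) := by
    rw [← Real.mul_rpow hx2.le]
    · congr 1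
      field_simp
      ring
    · have : 2 / (x + 2) ≤ 1 := by rw [div_le_one hx2]; linarith
      linarith
  have h2 : (1 + -(2 / (x + 2))) ^ (3 / 4 : ℝ) ≤ 1 + 3 / 4 * -(2 / (x + 2)) :=
    rpow_one_add_le_one_add_mul_self
      (by have : 2 / (x + 2) ≤ 1 := by rw [div_le_one hx2]; linarith
          linarith)
      (by norm_num) (by norm_num)
  have h3 : (x + 1) ^ (3 / 4 : ℝ) ≤ (x + 2) ^ (3 / 4 : ℝ) :=
    Real.rpow_le_rpow (by linarith) (by linarith) (by norm_num)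
  have h4 : 0 ≤ (x + 2) ^ (3 / 4 : ℝ) := Real.rpow_nonneg hx2.le _
  have h5 : x ^ (3 / 4 : ℝ) ≤ (x + 2) ^ (3 / 4 : ℝ) - 3 / 2 / (x + 2) * (x + 2) ^ (3 / 4 : ℝ) := by
    calc x ^ (3 / 4 : ℝ) ≤ (x + 2) ^ (3 / 4 : ℝ) * (1 + 3 / 4 * -(2 / (x + 2))) := by
          rw [h1]; exact mul_le_mul_of_nonneg_left h2 h4
      _ = _ := by field_simp; ring
  have : 0 ≤ 3 / 2 / (x + 2) := by positivity
  linarith [mul_le_mul_of_nonneg_left h3 this]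

private lemma grow_recE (l : ℕ) : (EO (l + 1)).1.eval (-1) =
    (EO l).1.eval (-1) + 3 / 2 / (2 * (l : ℝ) + 2) * (-(3 / 4) * (EO l).2.eval (-1)) := by
  have : (l : ℝ) + 1 ≠ 0 := by positivity
  have h2 : 2 * (l : ℝ) + 2 ≠ 0 := by positivity
  simp only [EO, eval_add, eval_mul, eval_C, eval_X]
  field_simp
  ring

private lemma grow_recO (l : ℕ) : -(3 / 4) * (EO (l + 1)).2.eval (-1) =
    -(3 / 4) * (EO l).2.eval (-1) + 3 / 2 / (2 * (l : ℝ) + 3) * (EO (l + 1)).1.eval (-1) := by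
  have h2 : 2 * (l : ℝ) + 3 ≠ 0 := by positivity
  have h : (EO (l + 1)).2 = (EO l).2 - C (2 / (2 * (l : ℝ) + 3)) * (EO (l + 1)).1 := rfl
  rw [h, eval_sub, eval_mul, eval_C]
  field_simp
  ring

private lemma grow_lower (l : ℕ) :
    1 / 2 * (2 * (l : ℝ) + 2) ^ (3 / 4 : ℝ) ≤ (EO l).1.eval (-1) ∧
      1 / 2 * (2 * (l : ℝ) + 3) ^ (3 / 4 : ℝ) ≤ -(3 / 4) * (EO l).2.eval (-1) := by
  induction l with
  | zero =>
    have h1 : ∀ x : ℝ, 1 ≤ x → x ^ (3 / 4 : ℝ) ≤ x := fun x hx => by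
      conv_rhs => rw [← Real.rpow_one x]
      exact Real.rpow_le_rpow_of_exponent_le hx (by norm_num)
    have h2 := h1 2 (by norm_num)
    have h3 := h1 3 (by norm_num)
    simp only [EO, eval_one, eval_C, Nat.cast_zero, mul_zero, zero_add]
    constructor <;> linarith
  | succ l ih =>
    obtain ⟨h1, h2⟩ := ih
    have hl : (0 : ℝ) ≤ l := Nat.cast_nonneg l
    have h3 : 1 / 2 * (2 * ((l + 1 : ℕ) : ℝ) + 2) ^ (3 / 4 : ℝ) ≤ (EO (l + 1)).1.eval (-1) := by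
      rw [grow_recE]
      have k := grow_k1 (show 0 < 2 * (l : ℝ) + 2 by positivity)
      have e1 : 2 * ((l + 1 : ℕ) : ℝ) + 2 = 2 * (l : ℝ) + 2 + 2 := by push_cast; ring
      have e2 : 2 * (l : ℝ) + 3 = 2 * (l : ℝ) + 2 + 1 := by ring
      rw [e2] at h2
      rw [e1]
      have := mul_le_mul_of_nonneg_left h2 (show 0 ≤ 3 / 2 / (2 * (l : ℝ) + 2) by positivity)
      linarith
    refine ⟨h3, ?_⟩
    rw [grow_recO]
    have k := grow_k1 (show 0 < 2 * (l : ℝ) + 3 by positivity)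
    have e1 : 2 * ((l + 1 : ℕ) : ℝ) + 3 = 2 * (l : ℝ) + 3 + 2 := by push_cast; ring
    have e2 : 2 * ((l + 1 : ℕ) : ℝ) + 2 = 2 * (l : ℝ) + 3 + 1 := by push_cast; ring
    rw [e2] at h3
    rw [e1]
    have := mul_le_mul_of_nonneg_left h3 (show 0 ≤ 3 / 2 / (2 * (l : ℝ) + 3) by positivity)
    linarith

private lemma grow_upper (l : ℕ) :
    -(3 / 4) * (EO l).2.eval (-1) ≤ 3 * (2 * (l : ℝ) + 1) ^ (3 / 4 : ℝ) ∧
      (EO (l + 1)).1.eval (-1) ≤ 3 * (2 * (l : ℝ) + 2) ^ (3 / 4 : ℝ) := by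
  induction l with
  | zero =>
    have h1 : (1 : ℝ) ≤ 2 ^ (3 / 4 : ℝ) := Real.one_le_rpow (by norm_num) (by norm_num)
    rw [grow_recE]
    simp only [EO, eval_one, eval_C, Nat.cast_zero, mul_zero, zero_add, Real.one_rpow]
    constructor <;> linarith
  | succ l ih =>
    obtain ⟨h1, h2⟩ := ih
    have hl : (0 : ℝ) ≤ l := Nat.cast_nonneg l
    have h3 : -(3 / 4) * (EO (l + 1)).2.eval (-1) ≤
        3 * (2 * ((l + 1 : ℕ) : ℝ) + 1) ^ (3 / 4 : ℝ) := by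
      rw [grow_recO]
      have k := grow_k2 (show 0 ≤ 2 * (l : ℝ) + 1 by positivity)
      have e1 : 2 * ((l + 1 : ℕ) : ℝ) + 1 = 2 * (l : ℝ) + 1 + 2 := by push_cast; ring
      have e2 : 2 * (l : ℝ) + 2 = 2 * (l : ℝ) + 1 + 1 := by ring
      have e3 : 2 * (l : ℝ) + 3 = 2 * (l : ℝ) + 1 + 2 := by ring
      rw [e2] at h2
      rw [e1, e3]
      have := mul_le_mul_of_nonneg_left h2 (show 0 ≤ 3 / 2 / (2 * (l : ℝ) + 1 + 2) by positivity)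
      linarith
    refine ⟨h3, ?_⟩
    rw [grow_recE]
    have k := grow_k2 (show 0 ≤ 2 * (l : ℝ) + 2 by positivity)
    have e1 : 2 * ((l + 1 : ℕ) : ℝ) + 2 = 2 * (l : ℝ) + 2 + 2 := by push_cast; ring
    have e2 : 2 * ((l + 1 : ℕ) : ℝ) + 1 = 2 * (l : ℝ) + 2 + 1 := by push_cast; ring
    rw [e2] at h3
    rw [e1]
    have := mul_le_mul_of_nonneg_left h3 (show 0 ≤ 3 / 2 / (2 * (l : ℝ) + 2 + 2) by positivity)
    linarith

theorem E_neg_one_bounds : ∃ c C : ℝ, 0 < c ∧ ∀ l : ℕ,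
    c * ((l : ℝ) + 1) ^ (3 / 4 : ℝ) ≤ (EO l).1.eval (-1) ∧
      (EO l).1.eval (-1) ≤ C * ((l : ℝ) + 1) ^ (3 / 4 : ℝ) := by
  refine ⟨1 / 2, 6, by norm_num, fun l => ⟨?_, ?_⟩⟩
  · refine le_trans ?_ (grow_lower l).1
    apply mul_le_mul_of_nonneg_left _ (by norm_num)
    exact Real.rpow_le_rpow (by positivity) (by linarith [Nat.cast_nonneg (α := ℝ) l]) (by norm_num)
  · cases l with
    | zero =>
      simp only [EO, eval_one, Nat.cast_zero, zero_add, Real.one_rpow]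
      norm_num
    | succ l =>
      have hl : (0 : ℝ) ≤ l := Nat.cast_nonneg l
      refine (grow_upper l).2.trans ?_
      have h1 : (2 * (l : ℝ) + 2) ^ (3 / 4 : ℝ) ≤ (2 * ((l + 1 : ℕ) + 1 : ℝ)) ^ (3 / 4 : ℝ) :=
        Real.rpow_le_rpow (by positivity) (by push_cast; linarith) (by norm_num)
      rw [Real.mul_rpow (by norm_num) (by positivity)] at h1
      have h2 : (2 : ℝ) ^ (3 / 4 : ℝ) ≤ 2 := by
        conv_rhs => rw [← Real.rpow_one 2]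
        exact Real.rpow_le_rpow_of_exponent_le (by norm_num) (by norm_num)
      have h3 : (0 : ℝ) ≤ ((l + 1 : ℕ) + 1 : ℝ) ^ (3 / 4 : ℝ) := by positivity
      nlinarith [mul_le_mul_of_nonneg_right h2 h3]

end Pool.Agent.BEX
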