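import Pool.Agent.BEX.OPSer

/-!
# BEX part B, module OPInt: the moments of `cosh (θ k) / sinh (π k)`

PAPER PROOF. For `k > 0`: `1/sinh (π k) = 2 Σ_n e^{-(2n+1)πk}` (geometric series), so
`2 cosh (θ k)/sinh (π k) = 2 Σ_n (e^{-aa_n k} + e^{-bb_n k})`. `∫_{k>0} k^(2j+1) e^{-ak} dk = (2j+1)!/a^(2j+2)`
(`integral_rpow_mul_exp_neg_mul_Ioi` / Gamma). All terms are nonnegative and the sum of the integrals converges
(`summable_aabb`), so sum and integral can be interchanged and the sum is integrable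
(`hasSum_integral_of_summable_integral_norm`, integrability from `lintegral` or
`MeasureTheory.integrable_tsum`-type lemmas; or bound the function directly).
-/

set_option autoImplicit false

namespace Pool.Agent.BEX

open Polynomial MeasureTheory

private theorem OPInt_aa_pos {θ : ℝ} (h1 : θ < Real.pi) (n : ℕ) : 0 < opaa θ n := by
  unfold opaa
  have : 0 ≤ 2 * Real.pi * n := by positivity
  linarith

private theorem OPInt_bb_pos {θ : ℝ} (h0 : 0 ≤ θ) (n : ℕ) : 0 < opbb θ n := by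
  unfold opbb
  have : 0 ≤ 2 * Real.pi * n := by positivity
  linarith [Real.pi_pos]

private theorem OPInt_exp_integrable (m : ℕ) {a : ℝ} (ha : 0 < a) :
    IntegrableOn (fun k : ℝ => k ^ m * Real.exp (-(a * k))) (Set.Ioi (0 : ℝ)) := by
  have h := integrableOn_rpow_mul_exp_neg_mul_rpow (p := 1) (s := (m : ℝ)) (b := a)
    (by have : (0 : ℝ) ≤ m := by positivity
        linarith) one_pos ha
  refine h.congr_fun (fun k hk => ?_) measurableSet_Ioi
  simp only [Real.rpow_one, Real.rpow_natCast, neg_mul]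

private theorem OPInt_exp_integral (m : ℕ) {a : ℝ} (ha : 0 < a) :
    ∫ k in Set.Ioi (0 : ℝ), k ^ m * Real.exp (-(a * k)) = (m.factorial : ℝ) * (1 / a ^ (m + 1)) := by
  have h := Real.integral_rpow_mul_exp_neg_mul_Ioi (a := ((m + 1 : ℕ) : ℝ)) (r := a) (by positivity) ha
  rw [Real.rpow_natCast] at h
  have e : (((m + 1 : ℕ) : ℝ) - 1) = (m : ℝ) := by push_cast; ring
  rw [e] at h
  have e2 : Real.Gamma ((m + 1 : ℕ) : ℝ) = (m.factorial : ℝ) := by
    rw [Nat.cast_add, Nat.cast_one, Real.Gamma_nat_eq_factorial]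
  rw [e2] at h
  simp only [Real.rpow_natCast] at h
  rw [h, one_div, inv_pow, one_div, mul_comm]

/-- The terms. -/
private noncomputable def OPInt_F (θ : ℝ) (j n : ℕ) (k : ℝ) : ℝ :=
  2 * (k ^ (2 * j + 1) * Real.exp (-(opaa θ n * k)) + k ^ (2 * j + 1) * Real.exp (-(opbb θ n * k)))

private theorem OPInt_F_integrable {θ : ℝ} (h0 : 0 ≤ θ) (h1 : θ < Real.pi) (j n : ℕ) :
    Integrable (OPInt_F θ j n) (volume.restrict (Set.Ioi (0 : ℝ))) := by
  have ha := OPInt_exp_integrable (2 * j + 1) (OPInt_aa_pos h1 n)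
  have hb := OPInt_exp_integrable (2 * j + 1) (OPInt_bb_pos h0 n)
  exact (ha.add hb).const_mul 2

private theorem OPInt_F_integral {θ : ℝ} (h0 : 0 ≤ θ) (h1 : θ < Real.pi) (j n : ℕ) :
    ∫ k in Set.Ioi (0 : ℝ), OPInt_F θ j n k = 2 * ((2 * j + 1).factorial : ℝ) *
      (1 / opaa θ n ^ (2 * j + 2) + 1 / opbb θ n ^ (2 * j + 2)) := by
  have ha := OPInt_exp_integrable (2 * j + 1) (OPInt_aa_pos h1 n)
  have hb := OPInt_exp_integrable (2 * j + 1) (OPInt_bb_pos h0 n)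
  unfold OPInt_F
  rw [integral_const_mul, integral_add ha hb, OPInt_exp_integral _ (OPInt_aa_pos h1 n),
    OPInt_exp_integral _ (OPInt_bb_pos h0 n)]
  ring

private theorem OPInt_F_nonneg (θ : ℝ) (j n : ℕ) {k : ℝ} (hk : 0 < k) : 0 ≤ OPInt_F θ j n k := by
  unfold OPInt_F
  positivity

private theorem OPInt_F_norm {θ : ℝ} (h0 : 0 ≤ θ) (h1 : θ < Real.pi) (j n : ℕ) :
    ∫ k in Set.Ioi (0 : ℝ), ‖OPInt_F θ j n k‖ = 2 * ((2 * j + 1).factorial : ℝ) *
      (1 / opaa θ n ^ (2 * j + 2) + 1 / opbb θ n ^ (2 * j + 2)) := by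
  rw [← OPInt_F_integral h0 h1]
  refine setIntegral_congr_fun measurableSet_Ioi (fun k hk => ?_)
  exact Real.norm_of_nonneg (OPInt_F_nonneg θ j n hk)

private theorem OPInt_F_summable {θ : ℝ} (h0 : 0 ≤ θ) (h1 : θ < Real.pi) (j : ℕ) :
    Summable (fun n : ℕ => ∫ k in Set.Ioi (0 : ℝ), ‖OPInt_F θ j n k‖) := by
  simp only [OPInt_F_norm h0 h1]
  exact (summable_aabb h0 h1 j).mul_left _

private theorem OPInt_F_hasSum (θ : ℝ) (j : ℕ) {k : ℝ} (hk : 0 < k) :
    HasSum (fun n : ℕ => OPInt_F θ j n k)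
      (2 * k ^ (2 * j + 1) * (Real.cosh (θ * k) / Real.sinh (Real.pi * k))) := by
  have hpk : 0 < Real.pi * k := mul_pos Real.pi_pos hk
  set q : ℝ := Real.exp (-(2 * (Real.pi * k))) with hq
  have hq0 : 0 ≤ q := (Real.exp_pos _).le
  have hq1 : q < 1 := by
    rw [hq, Real.exp_lt_one_iff]
    linarith
  have hg := hasSum_geometric_of_lt_one hq0 hq1
  have h2 := hg.mul_left (2 * k ^ (2 * j + 1) * (Real.exp (-(Real.pi * k)) * (2 * Real.cosh (θ * k))))
  have hf : (fun n : ℕ => OPInt_F θ j n k) = fun n : ℕ =>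
      2 * k ^ (2 * j + 1) * (Real.exp (-(Real.pi * k)) * (2 * Real.cosh (θ * k))) * q ^ n := by
    funext n
    have e1 : q ^ n = Real.exp (-(2 * Real.pi * n * k)) := by
      rw [hq, ← Real.exp_nat_mul]
      congr 1
      ring
    have e2 : Real.exp (-(opaa θ n * k)) = Real.exp (θ * k) * (Real.exp (-(Real.pi * k)) * q ^ n) := by
      rw [e1, ← Real.exp_add, ← Real.exp_add]
      congr 1
      unfold opaa
      ring
    have e3 : Real.exp (-(opbb θ n * k)) = Real.exp (-(θ * k)) * (Real.exp (-(Real.pi * k)) * q ^ n) := by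
      rw [e1, ← Real.exp_add, ← Real.exp_add]
      congr 1
      unfold opbb
      ring
    unfold OPInt_F
    rw [e2, e3, Real.cosh_eq]
    ring
  have hv : 2 * k ^ (2 * j + 1) * (Real.cosh (θ * k) / Real.sinh (Real.pi * k)) =
      2 * k ^ (2 * j + 1) * (Real.exp (-(Real.pi * k)) * (2 * Real.cosh (θ * k))) * (1 - q)⁻¹ := by
    have hs : Real.sinh (Real.pi * k) = Real.exp (Real.pi * k) * (1 - q) / 2 := by
      rw [Real.sinh_eq, hq, mul_sub, mul_one, ← Real.exp_add]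
      congr 2
      ring_nf
    have h1q : (1 - q) ≠ 0 := by linarith [sub_pos.2 hq1]
    have hE : Real.exp (-(Real.pi * k)) = (Real.exp (Real.pi * k))⁻¹ := Real.exp_neg _
    have hE0 := (Real.exp_pos (Real.pi * k)).ne'
    rw [hs, hE]
    field_simp
  rw [hf, hv]
  exact h2

theorem mom_integrable {θ : ℝ} (h0 : 0 ≤ θ) (h1 : θ < Real.pi) (j : ℕ) :
    IntegrableOn (fun k : ℝ => 2 * k ^ (2 * j + 1) * (Real.cosh (θ * k) / Real.sinh (Real.pi * k)))
      (Set.Ioi (0 : ℝ)) := by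
  have hint := OPInt_F_integrable h0 h1 j
  have hsum := OPInt_F_summable h0 h1 j
  refine ⟨(Measurable.aestronglyMeasurable (by fun_prop)), ?_⟩
  have hE : ∀ n : ℕ, ∫⁻ k in Set.Ioi (0 : ℝ), ‖OPInt_F θ j n k‖ₑ =
      ENNReal.ofReal (∫ k in Set.Ioi (0 : ℝ), ‖OPInt_F θ j n k‖) := by
    intro n
    rw [ofReal_integral_norm_eq_lintegral_enorm (hint n)]
  have key : ∫⁻ k in Set.Ioi (0 : ℝ),
      ‖2 * k ^ (2 * j + 1) * (Real.cosh (θ * k) / Real.sinh (Real.pi * k))‖ₑ ≤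
      ∫⁻ k in Set.Ioi (0 : ℝ), ∑' n : ℕ, ‖OPInt_F θ j n k‖ₑ := by
    refine setLIntegral_mono_ae' measurableSet_Ioi (Filter.Eventually.of_forall (fun k hk => ?_))
    have hs := OPInt_F_hasSum θ j (k := k) hk
    rw [← hs.tsum_eq]
    exact enorm_tsum_le_tsum_enorm
  have hlt : ∫⁻ k in Set.Ioi (0 : ℝ), ∑' n : ℕ, ‖OPInt_F θ j n k‖ₑ < ⊤ := by
    rw [lintegral_tsum (fun n => (hint n).1.enorm)]
    simp only [hE]
    rw [← ENNReal.ofReal_tsum_of_nonneg (fun n => integral_nonneg (fun k => norm_nonneg _)) hsum]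
    exact ENNReal.ofReal_lt_top
  exact key.trans_lt hlt

theorem mom_eq {θ : ℝ} (h0 : 0 ≤ θ) (h1 : θ < Real.pi) (j : ℕ) :
    ∫ k in Set.Ioi (0 : ℝ), 2 * k ^ (2 * j + 1) * (Real.cosh (θ * k) / Real.sinh (Real.pi * k)) =
      2 * ((2 * j + 1).factorial : ℝ) *
        ∑' n : ℕ, (1 / opaa θ n ^ (2 * j + 2) + 1 / opbb θ n ^ (2 * j + 2)) := by
  have h := hasSum_integral_of_summable_integral_norm (OPInt_F_integrable h0 h1 j) (OPInt_F_summable h0 h1 j)
  have h2 : ∫ k in Set.Ioi (0 : ℝ), (∑' n : ℕ, OPInt_F θ j n k) =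
      ∫ k in Set.Ioi (0 : ℝ), 2 * k ^ (2 * j + 1) * (Real.cosh (θ * k) / Real.sinh (Real.pi * k)) :=
    setIntegral_congr_fun measurableSet_Ioi (fun k hk => (OPInt_F_hasSum θ j hk).tsum_eq)
  rw [← h2, ← h.tsum_eq, ← tsum_mul_left]
  exact tsum_congr (fun n => OPInt_F_integral h0 h1 j n)

end Pool.Agent.BEX
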