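import Pool.Agent.BEX.OPTanh
import Pool.Agent.BEX.OPMom
import Pool.Agent.BEX.OPPos

/-!
# BEX part B, module OPMP: the even Meixner-Pollaczek polynomials

`EO l = (E_l, O_l)` (polynomials in `y = k²`; `x = 3k/4`, `z = D² = -(9/16) y`), `E_0 = 1`, `O_0 = -2`,
`E_{l+1} = E_l + (9/(16(l+1))) y O_l`, `O_{l+1} = O_l - (2/(2l+3)) E_{l+1}`.

PAPER PROOF. Write `f ⋆ u = aeval (-(16/9) dl²) f u` for `f, u ∈ ℝ[X]` (`aeval` in `Module.End ℝ ℝ[X]`).
(1) `U m = (m+1) g^m F` (`g = X`, `F = FF = (1-g²)/2`): `U (m+2) = U m - (2/(m+2)) dl (U (m+1))`; and `dl (-2 F) = U 1`.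
(2) By induction `E_l ⋆ F = U (2l)` and `dl (O_l ⋆ F) = U (2l+1)`.
(3) Moments (`kth_mom` for `θ = 0`, substitution `k = 4x/3`, `tanh_iter`): for every polynomial `f`,
`ipn f 1 = (16/9) (f ⋆ F).eval 0`: for `f = X^n`: `∫_{k>0} k^(2n) 2k/sinh(3πk/4) dk = (16/9)(16/9)^n ∫_{x>0} 2 x^(2n+1)/sinh(πx) dx
= (16/9) (16/9)^n (-1)^n iteratedDeriv (2n+1) (kth 0) 0`.
(4) `ipn f E_l = (16/9) (f ⋆ U (2l)).eval 0` (`ipn_mul_left`, `map_mul`). `dl` lowers the order of vanishing at `g = 0` by at most `1`, and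
`(dl^(2l) (g^(2l) h)).eval 0 = (2l)! 2^(-2l) h.eval 0`. So `ipn f E_l = 0` if `deg f < l`, and `E_l` has degree `l` with leading coefficient
`(-9/4)^l/(2l)!` (`e_{l+1} = (9/(16(l+1))) o_l`, `o_l = -(2/(2l+1)) e_l`), which gives
`ipn E_l E_l = (16/9) ((-9/4)^l/(2l)!) (-16/9)^l (2l+1) (2l)! 4^(-l)/2 = (8/9)(2l+1)`.
-/

set_option autoImplicit false

namespace Pool.Agent.BEX

open Polynomial MeasureTheory

/-- The polynomials `(E_l, O_l)`. -/
noncomputable def EO : ℕ → ℝ[X] × ℝ[X]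
  | 0 => (1, C (-2))
  | l + 1 =>
    let e : ℝ[X] := (EO l).1 + C (9 / (16 * ((l : ℝ) + 1))) * (X * (EO l).2)
    (e, (EO l).2 - C (2 / (2 * (l : ℝ) + 3)) * e)

theorem EO_succ_fst (l : ℕ) : (EO (l + 1)).1 =
    (EO l).1 + C (9 / (16 * ((l : ℝ) + 1))) * (X * (EO l).2) := rfl

theorem EO_succ_snd (l : ℕ) : (EO (l + 1)).2 =
    (EO l).2 - C (2 / (2 * (l : ℝ) + 3)) * (EO (l + 1)).1 := rfl

theorem E_zero (l : ℕ) : (EO l).1.eval 0 = 1 := by
  induction l with
  | zero => simp [EO]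
  | succ l ih =>
    rw [EO_succ_fst, eval_add, eval_mul, eval_mul, eval_X, ih]
    ring

/-! ### Degrees and leading coefficients -/

theorem EO_natDegree_le (l : ℕ) : (EO l).1.natDegree ≤ l ∧ (EO l).2.natDegree ≤ l := by
  induction l with
  | zero =>
    refine ⟨?_, ?_⟩
    · show (1 : ℝ[X]).natDegree ≤ 0
      rw [natDegree_one]
    · show (C (-2) : ℝ[X]).natDegree ≤ 0
      rw [natDegree_C]
  | succ l ih =>
    have h1 : (EO (l + 1)).1.natDegree ≤ l + 1 := by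
      rw [EO_succ_fst]
      refine natDegree_add_le_of_degree_le (by omega) ((natDegree_C_mul_le _ _).trans ?_)
      refine natDegree_mul_le.trans ?_
      rw [natDegree_X]
      omega
    refine ⟨h1, ?_⟩
    rw [EO_succ_snd]
    refine (natDegree_sub_le _ _).trans (max_le (by omega) ((natDegree_C_mul_le _ _).trans h1))

theorem EO_lead (l : ℕ) : (EO l).1.coeff l = (-9 / 4) ^ l / ((2 * l).factorial : ℝ) ∧
    (EO l).2.coeff l = -(2 / (2 * (l : ℝ) + 1)) * ((-9 / 4) ^ l / ((2 * l).factorial : ℝ)) := by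
  induction l with
  | zero =>
    refine ⟨?_, ?_⟩
    · show (1 : ℝ[X]).coeff 0 = _
      simp
    · show (C (-2) : ℝ[X]).coeff 0 = _
      simp
  | succ l ih =>
    have hd := EO_natDegree_le l
    have h1 : (EO (l + 1)).1.coeff (l + 1) = (-9 / 4) ^ (l + 1) / ((2 * (l + 1)).factorial : ℝ) := by
      rw [EO_succ_fst, coeff_add, coeff_C_mul, coeff_X_mul, ih.2,
        coeff_eq_zero_of_natDegree_lt (Nat.lt_succ_of_le hd.1)]
      have e : 2 * (l + 1) = (2 * l + 1) + 1 := by ring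
      rw [e, Nat.factorial_succ, Nat.factorial_succ]
      have h2 : ((2 * l).factorial : ℝ) ≠ 0 := by positivity
      have h3 : (2 * (l : ℝ) + 1) ≠ 0 := by positivity
      have h4 : ((l : ℝ) + 1) ≠ 0 := by positivity
      push_cast
      have h5 : (2 * (l : ℝ) + 1 + 1) ≠ 0 := by positivity
      field_simp
      ring
    refine ⟨h1, ?_⟩
    rw [EO_succ_snd, coeff_sub, coeff_C_mul, h1,
      coeff_eq_zero_of_natDegree_lt (Nat.lt_succ_of_le hd.2)]
    push_cast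
    ring

theorem E_lead_ne (l : ℕ) : (EO l).1.coeff l ≠ 0 := by
  rw [(EO_lead l).1]
  exact div_ne_zero (pow_ne_zero _ (by norm_num)) (by positivity)

theorem E_natDegree (l : ℕ) : (EO l).1.natDegree = l :=
  le_antisymm (EO_natDegree_le l).1 (le_natDegree_of_ne_zero (E_lead_ne l))

/-! ### The action -/

/-- The operator `-(16/9) dl²`. -/
noncomputable def Dz : Module.End ℝ ℝ[X] := (-(16 / 9) : ℝ) • (dl ^ 2 : Module.End ℝ ℝ[X])

/-- `(m+1) X^m F`. -/
noncomputable def UU (m : ℕ) : ℝ[X] := C ((m : ℝ) + 1) * (X ^ m * FF)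

theorem dl_apply (p : ℝ[X]) : dl p = C (1 / 2) * (1 - X ^ 2) * derivative p := rfl

theorem two_FF : (2 : ℝ[X]) * FF = 1 - X ^ 2 := by
  have h : (2 : ℝ[X]) = C 2 := rfl
  rw [FF, h, ← mul_assoc, ← C_mul]
  norm_num

theorem derivative_FF : derivative FF = -X := by
  unfold FF
  rw [derivative_C_mul, derivative_sub, derivative_one, derivative_X_pow, zero_sub]
  have h : (C ((2 : ℕ) : ℝ) : ℝ[X]) = C 2 := by norm_num
  rw [h, mul_neg, ← mul_assoc, ← C_mul]
  norm_num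

theorem dl_X_pow (i : ℕ) (g : ℝ[X]) : dl (X ^ (i + 1) * g) =
    X ^ i * (FF * (C ((i : ℝ) + 1) * g + X * derivative g)) := by
  rw [dl_apply, derivative_mul, derivative_X_pow, FF]
  have e : i + 1 - 1 = i := by omega
  rw [e]
  push_cast
  ring

theorem dl_C_mul (c : ℝ) (g : ℝ[X]) : dl (C c * g) = C c * dl g := by
  rw [← smul_eq_C_mul, map_smul, smul_eq_C_mul]

theorem UU_rec (m : ℕ) : UU (m + 2) = UU m - C (2 / ((m : ℝ) + 2)) * dl (UU (m + 1)) := by
  have hm : ((m : ℝ) + 2) ≠ 0 := by positivity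
  have e1 : (C (2 / ((m : ℝ) + 2)) : ℝ[X]) * C (((m + 1 : ℕ) : ℝ) + 1) = 2 := by
    have h : (2 : ℝ[X]) = C 2 := rfl
    rw [← C_mul, h]
    congr 1
    push_cast
    field_simp
    ring
  have e2 : (C (((m + 2 : ℕ) : ℝ) + 1) : ℝ[X]) = C ((m : ℝ) + 1) + 2 := by
    have h : (2 : ℝ[X]) = C 2 := rfl
    rw [h, ← C_add]
    congr 1
    push_cast
    ring
  have h1 : C (2 / ((m : ℝ) + 2)) * dl (UU (m + 1)) =
      X ^ m * FF * (C ((m : ℝ) + 1) * (1 - X ^ 2) - 2 * X ^ 2) := by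
    rw [UU, dl_C_mul, ← mul_assoc, e1, dl_X_pow, derivative_FF, ← two_FF]
    have e3 : (2 : ℝ[X]) * X ^ 2 = 2 * X ^ 2 := rfl
    ring
  rw [h1, UU, UU, e2]
  ring

/-! ### `E_l ⋆ F = U (2l)` -/

theorem star_mul (f g u : ℝ[X]) : aeval Dz (f * g) u = aeval Dz f (aeval Dz g u) := by
  rw [map_mul]
  rfl

theorem star_add (f g u : ℝ[X]) : aeval Dz (f + g) u = aeval Dz f u + aeval Dz g u := by
  rw [map_add]
  rfl

theorem star_sub (f g u : ℝ[X]) : aeval Dz (f - g) u = aeval Dz f u - aeval Dz g u := by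
  rw [map_sub]
  rfl

theorem star_C (c : ℝ) (u : ℝ[X]) : aeval Dz (C c) u = C c * u := by
  rw [aeval_C, ← smul_eq_C_mul]
  rfl

theorem star_X (u : ℝ[X]) : aeval Dz (X : ℝ[X]) u = C (-(16 / 9)) * dl (dl u) := by
  rw [aeval_X, Dz, ← smul_eq_C_mul]
  rfl

theorem star_EO (l : ℕ) : aeval Dz (EO l).1 FF = UU (2 * l) ∧
    dl (aeval Dz (EO l).2 FF) = UU (2 * l + 1) := by
  induction l with
  | zero =>
    refine ⟨?_, ?_⟩
    · show aeval Dz (1 : ℝ[X]) FF = _
      rw [map_one, UU]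
      simp
    · show dl (aeval Dz (C (-2)) FF) = _
      rw [star_C, dl_C_mul]
      have h := dl_X_pow 0 FF
      have h2 : dl FF = FF * derivative FF := by
        rw [dl_apply, FF]
      rw [h2, derivative_FF, UU]
      have h3 : (C (-2) : ℝ[X]) = -2 := by
        have h : (2 : ℝ[X]) = C 2 := rfl
        rw [h, ← C_neg]
      have h4 : (C (((2 * 0 + 1 : ℕ) : ℝ) + 1) : ℝ[X]) = 2 := by
        have h : (2 : ℝ[X]) = C 2 := rfl
        rw [h]
        norm_num
      rw [h3, h4]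
      ring
  | succ l ih =>
    have h1 : aeval Dz (EO (l + 1)).1 FF = UU (2 * (l + 1)) := by
      rw [EO_succ_fst, star_add, star_mul, star_C, star_mul, star_X, ih.1, ih.2]
      have e : 2 * (l + 1) = 2 * l + 2 := by ring
      rw [e, UU_rec, ← mul_assoc, ← C_mul]
      have e2 : 9 / (16 * ((l : ℝ) + 1)) * (-(16 / 9)) = -(2 / (((2 * l : ℕ) : ℝ) + 2)) := by
        push_cast
        have : (l : ℝ) + 1 ≠ 0 := by positivity
        have : 2 * (l : ℝ) + 2 ≠ 0 := by positivity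
        field_simp
      rw [e2, C_neg]
      ring
    refine ⟨h1, ?_⟩
    rw [EO_succ_snd, star_sub, star_mul, star_C, h1, map_sub, ih.2, dl_C_mul]
    have e : 2 * (l + 1) + 1 = (2 * l + 1) + 2 := by ring
    have e3 : 2 * (l + 1) = (2 * l + 1) + 1 := by ring
    rw [e, UU_rec, e3]
    congr 3
    push_cast
    ring

/-! ### Values at `0` -/

theorem dl_low (j m : ℕ) (h : ℝ[X]) (hj : j < m) : ((dl ^ j) (X ^ m * h)).eval 0 = 0 := by
  induction j generalizing m h with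
  | zero =>
    rw [pow_zero, Module.End.one_apply, eval_mul, eval_pow, eval_X, zero_pow (by omega), zero_mul]
  | succ j ih =>
    obtain ⟨m', rfl⟩ : ∃ m', m = m' + 1 := ⟨m - 1, by omega⟩
    rw [pow_succ, Module.End.mul_apply, dl_X_pow]
    exact ih m' _ (by omega)

theorem FF_eval : FF.eval 0 = 1 / 2 := by
  unfold FF
  simp

theorem dl_top (m : ℕ) (h : ℝ[X]) :
    ((dl ^ m) (X ^ m * h)).eval 0 = (m.factorial : ℝ) * (1 / 2) ^ m * h.eval 0 := by
  induction m generalizing h with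
  | zero =>
    rw [pow_zero, Module.End.one_apply, pow_zero, one_mul]
    simp
  | succ m ih =>
    rw [pow_succ, Module.End.mul_apply, dl_X_pow, ih, eval_mul, eval_add, eval_mul, eval_mul,
      eval_X, eval_C, FF_eval, Nat.factorial_succ]
    push_cast
    ring

theorem Dz_pow (n : ℕ) (u : ℝ[X]) : (Dz ^ n) u = C ((-(16 / 9)) ^ n) * (dl ^ (2 * n)) u := by
  rw [Dz, _root_.smul_pow, ← pow_mul, ← smul_eq_C_mul]
  rfl

theorem star_eval (n : ℕ) (f : ℝ[X]) (hf : f.natDegree ≤ n) :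
    (aeval Dz f (UU (2 * n))).eval 0 =
      f.coeff n * (-(16 / 9)) ^ n * (2 * (n : ℝ) + 1) * ((2 * n).factorial : ℝ) *
        (1 / 2) ^ (2 * n) * (1 / 2) := by
  rw [aeval_eq_sum_range' (Nat.lt_succ_of_le hf), LinearMap.sum_apply, eval_finsetSum,
    Finset.sum_range_succ]
  have h1 : ∑ i ∈ Finset.range n, ((f.coeff i • Dz ^ i) (UU (2 * n))).eval 0 = 0 := by
    refine Finset.sum_eq_zero fun i hi => ?_
    have hi' := Finset.mem_range.1 hi
    rw [LinearMap.smul_apply, Dz_pow, UU, eval_smul, eval_mul]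
    have h2 : (dl ^ (2 * i)) (C (((2 * n : ℕ) : ℝ) + 1) * (X ^ (2 * n) * FF)) =
        C (((2 * n : ℕ) : ℝ) + 1) * (dl ^ (2 * i)) (X ^ (2 * n) * FF) := by
      rw [← smul_eq_C_mul, map_smul, smul_eq_C_mul]
    rw [h2, eval_mul, dl_low _ _ _ (by omega)]
    simp
  rw [h1, zero_add, LinearMap.smul_apply, Dz_pow, UU, eval_smul, eval_mul]
  have h2 : (dl ^ (2 * n)) (C (((2 * n : ℕ) : ℝ) + 1) * (X ^ (2 * n) * FF)) =
      C (((2 * n : ℕ) : ℝ) + 1) * (dl ^ (2 * n)) (X ^ (2 * n) * FF) := by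
    rw [← smul_eq_C_mul, map_smul, smul_eq_C_mul]
  rw [h2, eval_mul, dl_top, eval_C, eval_C, FF_eval, smul_eq_mul]
  push_cast
  ring

/-! ### The functional -/

theorem ipn_moment (n : ℕ) : ipn (X ^ n) 1 = 16 / 9 * (aeval Dz (X ^ n : ℝ[X]) FF).eval 0 := by
  have hpi := Real.pi_pos
  have h1 := kth_mom (θ := 0) le_rfl hpi n
  rw [tanh_iter] at h1
  have h2 := integral_comp_mul_left_Ioi (fun x : ℝ => 2 * x ^ (2 * n + 1) *
    (Real.cosh (0 * x) / Real.sinh (Real.pi * x))) 0 (show (0 : ℝ) < 3 / 4 by norm_num)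
  rw [mul_zero, smul_eq_mul] at h2
  have h3 : ipn (X ^ n) 1 = (4 / 3) ^ (2 * n + 1) * ∫ x in Set.Ioi (0 : ℝ),
      (fun x : ℝ => 2 * x ^ (2 * n + 1) * (Real.cosh (0 * x) / Real.sinh (Real.pi * x)))
        (3 / 4 * x) := by
    unfold ipn
    rw [← integral_const_mul]
    refine setIntegral_congr_fun measurableSet_Ioi fun k _ => ?_
    simp only [eval_pow, eval_X, eval_one, mul_one, zero_mul, Real.cosh_zero]
    rw [show Real.pi * (3 / 4 * k) = 3 * Real.pi * k / 4 by ring, mul_pow, ← pow_mul]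
    have e : ((4 : ℝ) / 3) ^ (2 * n + 1) * (3 / 4) ^ (2 * n + 1) = 1 := by
      rw [← mul_pow]
      norm_num
    calc k ^ (2 * n) * (2 * k / Real.sinh (3 * Real.pi * k / 4))
        = (((4 : ℝ) / 3) ^ (2 * n + 1) * (3 / 4) ^ (2 * n + 1)) *
            (k ^ (2 * n) * (2 * k / Real.sinh (3 * Real.pi * k / 4))) := by rw [e, one_mul]
      _ = _ := by ring
  rw [h3, h2, map_pow, aeval_X, Dz_pow, eval_mul, eval_C]
  have h4 : (∫ x in Set.Ioi (0 : ℝ), 2 * x ^ (2 * n + 1) *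
      (Real.cosh (0 * x) / Real.sinh (Real.pi * x))) = (-1) ^ n * ((dl ^ (2 * n)) FF).eval 0 := by
    rw [h1, ← mul_assoc, ← mul_pow]
    norm_num
  rw [h4, neg_pow (16 / 9 : ℝ) n]
  have e5 : ((4 : ℝ) / 3) ^ (2 * n + 1) = (16 / 9) ^ n * (4 / 3) := by
    rw [pow_succ, pow_mul]
    norm_num
  rw [e5]
  ring

theorem ipn_zero_left (q : ℝ[X]) : ipn 0 q = 0 := by
  have h := ipn_smul_left 0 0 q
  rwa [C_0, zero_mul, zero_mul] at h

theorem ipn_one (f : ℝ[X]) : ipn f 1 = 16 / 9 * (aeval Dz f FF).eval 0 := by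
  induction f using Polynomial.induction_on' with
  | add p q hp hq => rw [ipn_add_left, star_add, eval_add, hp, hq, mul_add]
  | monomial n a =>
    rw [← C_mul_X_pow_eq_monomial, ipn_smul_left, ipn_moment, star_mul, star_C, eval_mul, eval_C]
    ring

theorem ipn_E (l : ℕ) (f : ℝ[X]) : ipn f (EO l).1 = 16 / 9 * (aeval Dz f (UU (2 * l))).eval 0 := by
  have h1 : ipn f (EO l).1 = ipn (f * (EO l).1) 1 := by
    rw [mul_comm, ipn_mul_left, mul_one, ipn_comm]
  rw [h1, ipn_one, star_mul, (star_EO l).1]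

theorem ipn_E_low (l : ℕ) (q : ℝ[X]) (hq : q.natDegree < l) : ipn (EO l).1 q = 0 := by
  rw [ipn_comm, ipn_E, star_eval l q hq.le, coeff_eq_zero_of_natDegree_lt hq]
  ring

theorem ipn_E_E (l : ℕ) : ipn (EO l).1 (EO l).1 = 8 / 9 * (2 * (l : ℝ) + 1) := by
  rw [ipn_E, star_eval l _ (EO_natDegree_le l).1, (EO_lead l).1]
  have h : ((2 * l).factorial : ℝ) ≠ 0 := by positivity
  have e : ((-9 / 4 : ℝ)) ^ l * (-(16 / 9)) ^ l * (1 / 2) ^ (2 * l) = 1 := by
    rw [pow_mul, ← mul_pow, ← mul_pow]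
    norm_num
  calc 16 / 9 * ((-9 / 4 : ℝ) ^ l / ((2 * l).factorial : ℝ) * (-(16 / 9)) ^ l * (2 * (l : ℝ) + 1) *
        ((2 * l).factorial : ℝ) * (1 / 2) ^ (2 * l) * (1 / 2))
      = 8 / 9 * (2 * (l : ℝ) + 1) * ((-9 / 4 : ℝ) ^ l * (-(16 / 9)) ^ l * (1 / 2) ^ (2 * l)) *
          (((2 * l).factorial : ℝ) / ((2 * l).factorial : ℝ)) := by ring
    _ = 8 / 9 * (2 * (l : ℝ) + 1) := by rw [e, div_self h]; ring

/-- Every polynomial of degree `≤ n` is a combination of `E_0, …, E_n`. -/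
theorem E_expand (n : ℕ) (q : ℝ[X]) (hq : q.natDegree ≤ n) :
    ∃ c : ℕ → ℝ, q = ∑ l ∈ Finset.range (n + 1), C (c l) * (EO l).1 := by
  classical
  induction n generalizing q with
  | zero =>
    refine ⟨fun _ => q.coeff 0, ?_⟩
    rw [Finset.sum_range_one]
    show q = C (q.coeff 0) * (1 : ℝ[X])
    rw [mul_one]
    exact eq_C_of_natDegree_le_zero hq
  | succ n ih =>
    set a : ℝ := q.coeff (n + 1) / (EO (n + 1)).1.coeff (n + 1) with ha
    have h1 : (q - C a * (EO (n + 1)).1).natDegree ≤ n := by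
      rw [natDegree_le_iff_coeff_eq_zero]
      intro m hm
      rw [coeff_sub, coeff_C_mul]
      rcases Nat.eq_or_lt_of_le (Nat.succ_le_of_lt hm) with h2 | h2
      · rw [← h2]
        show q.coeff (n + 1) - a * (EO (n + 1)).1.coeff (n + 1) = 0
        rw [ha, div_mul_cancel₀ _ (E_lead_ne (n + 1)), sub_self]
      · rw [coeff_eq_zero_of_natDegree_lt (lt_of_le_of_lt hq h2),
          coeff_eq_zero_of_natDegree_lt (lt_of_le_of_lt (EO_natDegree_le (n + 1)).1 h2), mul_zero,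
          sub_zero]
    obtain ⟨c, hc⟩ := ih _ h1
    refine ⟨fun l => if l = n + 1 then a else c l, ?_⟩
    rw [Finset.sum_range_succ]
    show q = _ + C (if n + 1 = n + 1 then a else c (n + 1)) * (EO (n + 1)).1
    rw [if_pos rfl]
    have h3 : ∑ l ∈ Finset.range (n + 1), C (if l = n + 1 then a else c l) * (EO l).1 =
        ∑ l ∈ Finset.range (n + 1), C (c l) * (EO l).1 := by
      refine Finset.sum_congr rfl fun l hl => ?_
      rw [if_neg (by have := Finset.mem_range.1 hl; omega)]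
    rw [h3, ← hc]
    ring

/-- Parseval. -/
theorem ipn_expand (n : ℕ) (c : ℕ → ℝ) :
    ipn (∑ l ∈ Finset.range n, C (c l) * (EO l).1) (∑ l ∈ Finset.range n, C (c l) * (EO l).1) =
      ∑ l ∈ Finset.range n, c l ^ 2 * (8 / 9 * (2 * (l : ℝ) + 1)) := by
  induction n with
  | zero =>
    rw [Finset.sum_range_zero, Finset.sum_range_zero, ipn_zero_left]
  | succ n ih =>
    rw [Finset.sum_range_succ, Finset.sum_range_succ]
    set A : ℝ[X] := ∑ l ∈ Finset.range n, C (c l) * (EO l).1 with hA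
    have hAB : ipn (EO n).1 A = 0 := by
      rcases Nat.eq_zero_or_pos n with h0 | h0
      · subst h0
        rw [hA, Finset.sum_range_zero, ipn_comm, ipn_zero_left]
      · refine ipn_E_low n A (lt_of_le_of_lt (natDegree_sum_le_of_forall_le (n := n - 1) _ _
          fun l hl => ?_) (by omega))
        refine (natDegree_C_mul_le _ _).trans ((EO_natDegree_le l).1.trans ?_)
        have := Finset.mem_range.1 hl
        omega
    rw [ipn_add_left, ipn_comm A, ipn_add_left, ipn_smul_left, hAB, ipn_smul_left,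
      ipn_comm (EO n).1 (A + C (c n) * (EO n).1), ipn_add_left, ipn_comm A (EO n).1, hAB,
      ipn_smul_left, ipn_E_E, ih]
    ring

/-! ### The odd family: `O_l` is orthogonal for the weight `y` -/

theorem O_lead_ne (l : ℕ) : (EO l).2.coeff l ≠ 0 := by
  rw [(EO_lead l).2]
  refine mul_ne_zero (neg_ne_zero.2 (by positivity)) (div_ne_zero (pow_ne_zero _ (by norm_num)) (by positivity))

theorem O_natDegree (l : ℕ) : (EO l).2.natDegree = l :=
  le_antisymm (EO_natDegree_le l).2 (le_natDegree_of_ne_zero (O_lead_ne l))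

theorem star_eval_odd (n : ℕ) (f : ℝ[X]) (hf : f.natDegree ≤ n) :
    (aeval Dz (X * f) (aeval Dz (EO n).2 FF)).eval 0 =
      f.coeff n * (-(16 / 9)) ^ (n + 1) * (2 * (n : ℝ) + 2) * ((2 * n + 1).factorial : ℝ) *
        (1 / 2) ^ (2 * n + 1) * (1 / 2) := by
  rw [mul_comm, star_mul, star_X, (star_EO n).2]
  have h0 : (aeval Dz f (C (-(16 / 9)) * dl (UU (2 * n + 1)))) =
      C (-(16 / 9)) * aeval Dz f (dl (UU (2 * n + 1))) := by
    rw [← smul_eq_C_mul, map_smul, smul_eq_C_mul]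
  rw [h0, eval_mul, eval_C, aeval_eq_sum_range' (Nat.lt_succ_of_le hf), LinearMap.sum_apply,
    eval_finsetSum, Finset.sum_range_succ]
  have hU : ∀ i : ℕ, (dl ^ (2 * i)) (dl (UU (2 * n + 1))) =
      C (((2 * n + 1 : ℕ) : ℝ) + 1) * (dl ^ (2 * i + 1)) (X ^ (2 * n + 1) * FF) := by
    intro i
    have e : (dl ^ (2 * i + 1)) (X ^ (2 * n + 1) * FF) = (dl ^ (2 * i)) (dl (X ^ (2 * n + 1) * FF)) := by
      rw [pow_succ dl (2 * i)]
      rfl
    rw [UU, dl_C_mul, ← smul_eq_C_mul, map_smul, smul_eq_C_mul, e]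
  have h1 : ∑ i ∈ Finset.range n, ((f.coeff i • Dz ^ i) (dl (UU (2 * n + 1)))).eval 0 = 0 := by
    refine Finset.sum_eq_zero fun i hi => ?_
    have hi' := Finset.mem_range.1 hi
    rw [LinearMap.smul_apply, Dz_pow, hU, eval_smul, eval_mul, eval_mul, dl_low _ _ _ (by omega)]
    simp
  rw [h1, zero_add, LinearMap.smul_apply, Dz_pow, hU, eval_smul, eval_mul, eval_mul, dl_top, eval_C,
    eval_C, FF_eval, smul_eq_mul]
  push_cast
  ring

theorem ipn_XO (l : ℕ) (f : ℝ[X]) : ipn (X * f) (EO l).2 =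
    16 / 9 * (aeval Dz (X * f) (aeval Dz (EO l).2 FF)).eval 0 := by
  have h1 : ipn (X * f) (EO l).2 = ipn (X * f * (EO l).2) 1 := by
    have h2 := ipn_mul_left (EO l).2 (X * f) 1
    rw [mul_one] at h2
    rw [← h2, mul_comm (EO l).2]
  rw [h1, ipn_one, star_mul]

theorem ipn_XO_low (l : ℕ) (q : ℝ[X]) (hq : q.natDegree < l) : ipn (X * q) (EO l).2 = 0 := by
  rw [ipn_XO, star_eval_odd l q hq.le, coeff_eq_zero_of_natDegree_lt hq]
  ring

theorem ipn_XO_O (l : ℕ) : ipn (X * (EO l).2) (EO l).2 = 256 / 81 * ((l : ℝ) + 1) := by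
  rw [ipn_XO, star_eval_odd l _ (EO_natDegree_le l).2, (EO_lead l).2, Nat.factorial_succ]
  have h : ((2 * l).factorial : ℝ) ≠ 0 := by positivity
  have h2 : (2 * (l : ℝ) + 1) ≠ 0 := by positivity
  have e : ((-9 / 4 : ℝ)) ^ l * (-(16 / 9)) ^ l * (1 / 2) ^ (2 * l) = 1 := by
    rw [pow_mul, ← mul_pow, ← mul_pow]
    norm_num
  push_cast
  calc 16 / 9 * (-(2 / (2 * (l : ℝ) + 1)) * ((-9 / 4 : ℝ) ^ l / ((2 * l).factorial : ℝ)) *
        (-(16 / 9)) ^ (l + 1) * (2 * (l : ℝ) + 2) * ((2 * (l : ℝ) + 1) * ((2 * l).factorial : ℝ)) *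
        (1 / 2) ^ (2 * l + 1) * (1 / 2))
      = 256 / 81 * ((l : ℝ) + 1) * ((-9 / 4 : ℝ) ^ l * (-(16 / 9)) ^ l * (1 / 2) ^ (2 * l)) *
          (((2 * l).factorial : ℝ) / ((2 * l).factorial : ℝ)) *
          ((2 * (l : ℝ) + 1) / (2 * (l : ℝ) + 1)) := by ring
    _ = 256 / 81 * ((l : ℝ) + 1) := by rw [e, div_self h, div_self h2]; ring

theorem O_expand (n : ℕ) (q : ℝ[X]) (hq : q.natDegree ≤ n) :
    ∃ c : ℕ → ℝ, q = ∑ l ∈ Finset.range (n + 1), C (c l) * (EO l).2 := by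
  classical
  induction n generalizing q with
  | zero =>
    refine ⟨fun _ => -(q.coeff 0) / 2, ?_⟩
    rw [Finset.sum_range_one]
    show q = C (-(q.coeff 0) / 2) * (C (-2) : ℝ[X])
    rw [← C_mul]
    have e : -(q.coeff 0) / 2 * -2 = q.coeff 0 := by ring
    rw [e]
    exact eq_C_of_natDegree_le_zero hq
  | succ n ih =>
    set a : ℝ := q.coeff (n + 1) / (EO (n + 1)).2.coeff (n + 1) with ha
    have h1 : (q - C a * (EO (n + 1)).2).natDegree ≤ n := by
      rw [natDegree_le_iff_coeff_eq_zero]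
      intro m hm
      rw [coeff_sub, coeff_C_mul]
      rcases Nat.eq_or_lt_of_le (Nat.succ_le_of_lt hm) with h2 | h2
      · rw [← h2]
        show q.coeff (n + 1) - a * (EO (n + 1)).2.coeff (n + 1) = 0
        rw [ha, div_mul_cancel₀ _ (O_lead_ne (n + 1)), sub_self]
      · rw [coeff_eq_zero_of_natDegree_lt (lt_of_le_of_lt hq h2),
          coeff_eq_zero_of_natDegree_lt (lt_of_le_of_lt (EO_natDegree_le (n + 1)).2 h2), mul_zero,
          sub_zero]
    obtain ⟨c, hc⟩ := ih _ h1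
    refine ⟨fun l => if l = n + 1 then a else c l, ?_⟩
    rw [Finset.sum_range_succ]
    show q = _ + C (if n + 1 = n + 1 then a else c (n + 1)) * (EO (n + 1)).2
    rw [if_pos rfl]
    have h3 : ∑ l ∈ Finset.range (n + 1), C (if l = n + 1 then a else c l) * (EO l).2 =
        ∑ l ∈ Finset.range (n + 1), C (c l) * (EO l).2 := by
      refine Finset.sum_congr rfl fun l hl => ?_
      rw [if_neg (by have := Finset.mem_range.1 hl; omega)]
    rw [h3, ← hc]
    ring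

/-- Parseval for the odd family. -/
theorem ipn_X_expand (n : ℕ) (c : ℕ → ℝ) :
    ipn (X * ∑ l ∈ Finset.range n, C (c l) * (EO l).2) (∑ l ∈ Finset.range n, C (c l) * (EO l).2) =
      ∑ l ∈ Finset.range n, c l ^ 2 * (256 / 81 * ((l : ℝ) + 1)) := by
  induction n with
  | zero =>
    rw [Finset.sum_range_zero, Finset.sum_range_zero, mul_zero, ipn_zero_left]
  | succ n ih =>
    rw [Finset.sum_range_succ, Finset.sum_range_succ]
    set A : ℝ[X] := ∑ l ∈ Finset.range n, C (c l) * (EO l).2 with hA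
    have hAB : ipn (X * A) (EO n).2 = 0 := by
      rcases Nat.eq_zero_or_pos n with h0 | h0
      · subst h0
        rw [hA, Finset.sum_range_zero, mul_zero, ipn_zero_left]
      · refine ipn_XO_low n A (lt_of_le_of_lt (natDegree_sum_le_of_forall_le (n := n - 1) _ _
          fun l hl => ?_) (by omega))
        refine (natDegree_C_mul_le _ _).trans ((EO_natDegree_le l).2.trans ?_)
        have := Finset.mem_range.1 hl
        omega
    have hBA : ipn (X * (EO n).2) A = 0 := by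
      rw [ipn_mul_left, ipn_comm, hAB]
    have e1 : X * (A + C (c n) * (EO n).2) = X * A + C (c n) * (X * (EO n).2) := by ring
    rw [e1, ipn_add_left, ipn_smul_left, ipn_comm (X * A), ipn_add_left, ipn_smul_left,
      ipn_comm A, ipn_comm (EO n).2 (X * A), hAB, ipn_comm (X * (EO n).2), ipn_add_left,
      ipn_smul_left, ipn_comm A, hBA, ipn_comm (EO n).2 (X * (EO n).2), ipn_XO_O, ih]
    ring

end Pool.Agent.BEX
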