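import Pool.Agent.BEX.OPDefs

/-!
# BEX part B, module OPSer: partial fractions and Taylor coefficients of `sinh t / (cosh t + cos θ)`

PAPER PROOF.
(1) `kth_hasSum`. Let `α = (π-θ)/(2π)`, `0 < α ≤ 1/2`, `z = α + i t/(2π)` (not an integer: `0 < re z < 1`).
`Im cot (π z) = - sinh t / (cosh t - cos (2 π α)) = - kth θ t` (`2πα = π - θ`; cot (x+iy) = (sin 2x - i sinh 2y)/(cosh 2y - cos 2x)).
Mathlib `cot_series_rep' / cot_series_rep` : `π cot (π z) - 1/z = Σ_{n ≥ 1} (1/(z-n) + 1/(z+n))`; imaginary parts, with `τ = t/(2π)`: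
`Im 1/(z+n) = -τ/((α+n)²+τ²)`, `Im 1/(z-n) = -τ/((n-α)²+τ²)`. Hence
`kth θ t = (1/π) [ τ/(α²+τ²) + Σ_{n≥1} (τ/((n-α)²+τ²) + τ/((n+α)²+τ²)) ] = Σ_{n≥0} (2t/(t²+(2πn+π-θ)²) + 2t/(t²+(2πn+π+θ)²))`
(regroup: `(2π)²(n+α)² = (2πn+π-θ)²`, `(2π)²(n+1-α)² = (2πn+π+θ)²`; all terms have the sign of `t`, so everything is summable).
(2) Put `opaa θ n = 2πn+π-θ`, `opbb θ n = 2πn+π+θ` (positive, `≥ 2πn + (π-θ)`). For `|t| < π-θ` expand
`2t/(t²+a²) = Σ_j 2(-1)^j t^(2j+1)/a^(2j+2)`, sum of absolute values `2|t|/(a²-t²)`, summable over `n`; so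
`kth θ t = Σ_j (-1)^j (2 Σ_n (1/a_n^(2j+2) + 1/b_n^(2j+2))) t^(2j+1)` near `0`: power series at `0`
(`HasFPowerSeriesOnBall` with `FormalMultilinearSeries.ofScalars`, or any other way), which gives all derivatives at `0`.
-/

set_option autoImplicit false

namespace Pool.Agent.BEX

open Polynomial MeasureTheory

/-- The general kernel function: `kap = kth (π/4)`, `tanh (t/2) = kth 0`. -/
noncomputable def kth (θ t : ℝ) : ℝ := Real.sinh t / (Real.cosh t + Real.cos θ)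

/-- `2πn + π - θ`. -/
noncomputable def opaa (θ : ℝ) (n : ℕ) : ℝ := 2 * Real.pi * n + Real.pi - θ

/-- `2πn + π + θ`. -/
noncomputable def opbb (θ : ℝ) (n : ℕ) : ℝ := 2 * Real.pi * n + Real.pi + θ

private lemma hs_congr {f g : ℕ → ℝ} {a : ℝ} (h : ∀ n, f n = g n) : HasSum f a ↔ HasSum g a := by
  rw [show f = g from funext h]

private lemma aa_ge {θ : ℝ} (h0 : 0 ≤ θ) (h1 : θ < Real.pi) (n : ℕ) :
    (Real.pi - θ) * (n + 1) ≤ opaa θ n := by
  unfold opaa
  have hn : (0 : ℝ) ≤ n := Nat.cast_nonneg n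
  have hp := Real.pi_pos
  nlinarith [mul_nonneg hn (by linarith : (0 : ℝ) ≤ Real.pi + θ)]

private lemma aa_pos {θ : ℝ} (h0 : 0 ≤ θ) (h1 : θ < Real.pi) (n : ℕ) : 0 < opaa θ n :=
  lt_of_lt_of_le (mul_pos (by linarith) (by positivity)) (aa_ge h0 h1 n)

private lemma aa_le_bb {θ : ℝ} (h0 : 0 ≤ θ) (n : ℕ) : opaa θ n ≤ opbb θ n := by
  unfold opaa opbb; linarith

private lemma bb_pos {θ : ℝ} (h0 : 0 ≤ θ) (h1 : θ < Real.pi) (n : ℕ) : 0 < opbb θ n :=
  (aa_pos h0 h1 n).trans_le (aa_le_bb h0 n)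

private lemma summable_aa {θ : ℝ} (h0 : 0 ≤ θ) (h1 : θ < Real.pi) (j : ℕ) :
    Summable (fun n : ℕ => 1 / opaa θ n ^ (2 * j + 2)) := by
  have hc : 0 < Real.pi - θ := by linarith
  have hs : Summable (fun n : ℕ => 1 / (Real.pi - θ) ^ (2 * j + 2) * (1 / ((n : ℝ) + 1) ^ 2)) := by
    apply Summable.mul_left
    have := (summable_nat_add_iff 1).2 (Real.summable_one_div_nat_pow.2 (by norm_num : 1 < 2))
    simpa using this
  refine Summable.of_nonneg_of_le (fun n => by have := aa_pos h0 h1 n; positivity) (fun n => ?_) hs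
  have h2 := aa_ge h0 h1 n
  have h3 := aa_pos h0 h1 n
  have h4 : (0 : ℝ) < n + 1 := by positivity
  rw [one_div_mul_one_div_rev]
  apply one_div_le_one_div_of_le (by positivity)
  calc ((n : ℝ) + 1) ^ 2 * (Real.pi - θ) ^ (2 * j + 2)
      ≤ ((n : ℝ) + 1) ^ (2 * j + 2) * (Real.pi - θ) ^ (2 * j + 2) := by
        apply mul_le_mul_of_nonneg_right _ (by positivity)
        apply pow_le_pow_right₀ (by linarith [Nat.cast_nonneg (α := ℝ) n]) (by omega)
    _ = ((Real.pi - θ) * (n + 1)) ^ (2 * j + 2) := by rw [mul_pow]; ring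
    _ ≤ opaa θ n ^ (2 * j + 2) := pow_le_pow_left₀ (by positivity) h2 _

private lemma summable_bb {θ : ℝ} (h0 : 0 ≤ θ) (h1 : θ < Real.pi) (j : ℕ) :
    Summable (fun n : ℕ => 1 / opbb θ n ^ (2 * j + 2)) := by
  refine Summable.of_nonneg_of_le (fun n => by have := bb_pos h0 h1 n; positivity) (fun n => ?_)
    (summable_aa h0 h1 j)
  have h3 := aa_pos h0 h1 n
  exact one_div_le_one_div_of_le (by positivity) (pow_le_pow_left₀ h3.le (aa_le_bb h0 n) _)

theorem summable_aabb {θ : ℝ} (h0 : 0 ≤ θ) (h1 : θ < Real.pi) (j : ℕ) :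
    Summable (fun n : ℕ => 1 / opaa θ n ^ (2 * j + 2) + 1 / opbb θ n ^ (2 * j + 2)) :=
  (summable_aa h0 h1 j).add (summable_bb h0 h1 j)

private lemma im_div' (a b c d e f g h : ℝ) :
    (((a : ℂ) * b - (c : ℂ) * d * Complex.I) / ((e : ℂ) * f + (g : ℂ) * h * Complex.I)).im =
      (- (c * d) * (e * f) - (a * b) * (g * h)) / ((e * f) ^ 2 + (g * h) ^ 2) := by
  have e2 : Complex.normSq ((e : ℂ) * f + (g : ℂ) * h * Complex.I) = (e * f) ^ 2 + (g * h) ^ 2 := by
    simp [Complex.normSq_apply]; ring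
  rw [Complex.div_im, e2, ← sub_div]
  simp

private lemma im_cot (x y : ℝ) (h : 0 < Real.cosh (2 * y) - Real.cos (2 * x)) :
    (Complex.cot (x + y * Complex.I)).im = - Real.sinh (2 * y) / (Real.cosh (2 * y) - Real.cos (2 * x)) := by
  rw [Complex.cot, Complex.cos_add_mul_I, Complex.sin_add_mul_I, ← Complex.ofReal_cos,
    ← Complex.ofReal_sin, ← Complex.ofReal_cosh, ← Complex.ofReal_sinh, im_div']
  have h1 := Real.cosh_sq y
  have h2 := Real.cos_sq' x
  have e1 : Real.cosh (2 * y) - Real.cos (2 * x) = 2 * (Real.sinh y ^ 2 + Real.sin x ^ 2) := by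
    rw [Real.cosh_two_mul, Real.cos_two_mul]; linarith
  have e2 : (Real.sin x * Real.cosh y) ^ 2 + (Real.cos x * Real.sinh y) ^ 2
      = Real.sinh y ^ 2 + Real.sin x ^ 2 := by
    linear_combination (Real.sin x ^ 2) * h1 + (Real.sinh y ^ 2) * h2
  rw [e1] at h
  have h3 : 0 < Real.sinh y ^ 2 + Real.sin x ^ 2 := by linarith
  rw [e1, e2, Real.sinh_two_mul]
  rw [div_eq_div_iff h3.ne' (by positivity)]
  linear_combination (-2 * (Real.sinh y ^ 2 + Real.sin x ^ 2) * Real.sinh y * Real.cosh y) * h2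

private lemma im_inv (x y : ℝ) :
    (1 / ((x : ℂ) + y * Complex.I)).im = - y / (x ^ 2 + y ^ 2) := by
  rw [one_div, Complex.inv_im]
  simp [Complex.normSq_apply]
  ring

private lemma summable_frac {f : ℕ → ℝ} (hf : Summable (fun n : ℕ => 1 / f n ^ (2 * 0 + 2))) (t : ℝ)
    (hp : ∀ n, 0 < f n) : Summable (fun n : ℕ => 2 * t / (t ^ 2 + f n ^ 2)) := by
  refine Summable.of_norm_bounded (hf.mul_left (2 * |t|)) (fun n => ?_)
  have h := hp n
  rw [norm_div, norm_mul, Real.norm_eq_abs t, Real.norm_of_nonneg (by norm_num : (0 : ℝ) ≤ 2),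
    Real.norm_of_nonneg (by positivity : 0 ≤ t ^ 2 + f n ^ 2), mul_one_div]
  apply div_le_div_of_nonneg_left (by positivity) (by positivity)
  norm_num
  positivity

theorem kth_hasSum {θ : ℝ} (h0 : 0 ≤ θ) (h1 : θ < Real.pi) (t : ℝ) :
    HasSum (fun n : ℕ => 2 * t / (t ^ 2 + opaa θ n ^ 2) + 2 * t / (t ^ 2 + opbb θ n ^ 2)) (kth θ t) := by
  have hp := Real.pi_pos
  set α : ℝ := (Real.pi - θ) / (2 * Real.pi) with hα
  set τ : ℝ := t / (2 * Real.pi) with hτ
  have hα0 : 0 < α := div_pos (by linarith) (by positivity)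
  have hα1 : α < 1 := by rw [hα, div_lt_one (by positivity)]; linarith
  have hz : ((α : ℂ) + τ * Complex.I) ∈ Complex.integerComplement := by
    rintro ⟨n, hn⟩
    have h2 := congrArg Complex.re hn
    simp at h2
    rw [← h2] at hα0 hα1
    have h3 : (0 : ℤ) < n := by exact_mod_cast hα0
    have h4 : n < (1 : ℤ) := by exact_mod_cast hα1
    omega
  have hs := (summable_cotTerm hz).hasSum
  rw [show (∑' n, cotTerm ((α : ℂ) + τ * Complex.I) n) = _ from (cot_series_rep' hz).symm] at hs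
  have hs2 := Complex.hasSum_im hs
  have hbpos := bb_pos h0 h1
  have hapos := aa_pos h0 h1
  -- the terms
  have ht : ∀ n : ℕ, (cotTerm ((α : ℂ) + τ * Complex.I) n).im =
      - Real.pi * (2 * t / (t ^ 2 + opbb θ n ^ 2) + 2 * t / (t ^ 2 + opaa θ (n + 1) ^ 2)) := by
    intro n
    have e1 : ((α : ℂ) + τ * Complex.I) - (n + 1) = ((α - (n + 1) : ℝ) : ℂ) + τ * Complex.I := by
      push_cast; ring
    have e2 : ((α : ℂ) + τ * Complex.I) + (n + 1) = ((α + (n + 1) : ℝ) : ℂ) + τ * Complex.I := by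
      push_cast; ring
    rw [cotTerm, Complex.add_im, e1, e2, im_inv, im_inv]
    have e3 : (α - (n + 1)) ^ 2 + τ ^ 2 = (t ^ 2 + opbb θ n ^ 2) / (2 * Real.pi) ^ 2 := by
      rw [hα, hτ, opbb]; field_simp; ring
    have e4 : (α + (n + 1)) ^ 2 + τ ^ 2 = (t ^ 2 + opaa θ (n + 1) ^ 2) / (2 * Real.pi) ^ 2 := by
      rw [hα, hτ, opaa]; push_cast; field_simp; ring
    rw [e3, e4, hτ]
    have := hbpos n
    have := hapos (n + 1)
    field_simp
    ring
  have hl : ((Real.pi : ℂ) * Complex.cot (Real.pi * ((α : ℂ) + τ * Complex.I))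
      - 1 / ((α : ℂ) + τ * Complex.I)).im =
      - Real.pi * (kth θ t - 2 * t / (t ^ 2 + opaa θ 0 ^ 2)) := by
    have e1 : (Real.pi : ℂ) * ((α : ℂ) + τ * Complex.I) =
        (((Real.pi - θ) / 2 : ℝ) : ℂ) + ((t / 2 : ℝ) : ℂ) * Complex.I := by
      rw [hα, hτ]; push_cast
      have : (Real.pi : ℂ) ≠ 0 := by exact_mod_cast hp.ne'
      field_simp
    have e5 : 2 * ((Real.pi - θ) / 2) = Real.pi - θ := by ring
    have e6 : 2 * (t / 2) = t := by ring
    have hc : 0 < Real.cosh (2 * (t / 2)) - Real.cos (2 * ((Real.pi - θ) / 2)) := by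
      rw [e5, e6, Real.cos_pi_sub]
      have h2 := Real.one_le_cosh t
      have h3 : -1 < Real.cos θ := by
        rw [← Real.cos_pi]
        exact Real.cos_lt_cos_of_nonneg_of_le_pi h0 le_rfl h1
      linarith
    rw [e1, Complex.sub_im, im_inv, Complex.im_ofReal_mul, im_cot _ _ hc, e5, e6, Real.cos_pi_sub]
    have e4 : α ^ 2 + τ ^ 2 = (t ^ 2 + opaa θ 0 ^ 2) / (2 * Real.pi) ^ 2 := by
      rw [hα, hτ, opaa]; push_cast; field_simp; ring
    rw [e4, hτ, kth]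
    have h7 := hapos 0
    have h8 : 0 < t ^ 2 + opaa θ 0 ^ 2 := by positivity
    have h9 : 0 < Real.cosh t + Real.cos θ := by
      rw [e5, e6, Real.cos_pi_sub] at hc; linarith
    rw [sub_neg_eq_add]
    field_simp
    ring
  rw [hl] at hs2
  have hu : Summable (fun n : ℕ => 2 * t / (t ^ 2 + opaa θ n ^ 2)) :=
    summable_frac (summable_aa h0 h1 0) t hapos
  have hv : Summable (fun n : ℕ => 2 * t / (t ^ 2 + opbb θ n ^ 2)) :=
    summable_frac (summable_bb h0 h1 0) t hbpos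
  have hs3 : HasSum (fun n : ℕ => 2 * t / (t ^ 2 + opbb θ n ^ 2) + 2 * t / (t ^ 2 + opaa θ (n + 1) ^ 2))
      (kth θ t - 2 * t / (t ^ 2 + opaa θ 0 ^ 2)) := by
    have h5 := hs2.mul_left (- Real.pi)⁻¹
    have hpn : (- Real.pi) ≠ 0 := neg_ne_zero.2 hp.ne'
    rw [inv_mul_cancel_left₀ hpn] at h5
    refine (hs_congr (fun n => ?_)).1 h5
    rw [ht n, inv_mul_cancel_left₀ hpn]
  have hs4 := hv.hasSum.add ((hasSum_nat_add_iff' 1).2 hu.hasSum)
  have hs5 := hs4.unique hs3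
  have hs6 := hu.hasSum.add hv.hasSum
  rw [Finset.sum_range_one] at hs5
  rwa [show (∑' n : ℕ, 2 * t / (t ^ 2 + opaa θ n ^ 2)) + (∑' n : ℕ, 2 * t / (t ^ 2 + opbb θ n ^ 2)) = kth θ t by
    linarith] at hs6

/-- Taylor coefficients from a convergent power series. -/
private lemma iteratedDeriv_of_hasSum {f : ℝ → ℝ} {A : ℕ → ℝ} {r : ℝ} (hr : 0 < r)
    (h : ∀ t, |t| < r → HasSum (fun k => A k * t ^ k) (f t)) (k : ℕ) :
    iteratedDeriv k f 0 = k.factorial * A k := by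
  have hr2 : 0 < r / 2 := by positivity
  set s : NNReal := ⟨r / 2, hr2.le⟩ with hs
  have hsr : (s : ℝ) = r / 2 := rfl
  have hb : HasFPowerSeriesOnBall f (FormalMultilinearSeries.ofScalars ℝ A) 0 (s : ENNReal) := by
    refine ⟨?_, ?_, ?_⟩
    · apply FormalMultilinearSeries.le_radius_of_summable
      have h1 := (h (r / 2) (by rw [abs_of_pos hr2]; linarith)).summable.norm
      refine h1.congr (fun n => ?_)
      rw [FormalMultilinearSeries.ofScalars_norm, norm_mul, norm_pow, hsr, Real.norm_of_nonneg hr2.le]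
    · exact ENNReal.coe_pos.2 (by rw [← NNReal.coe_pos, hsr]; exact hr2)
    · intro y hy
      have hy2 : |y| < r := by
        rw [Metric.mem_eball, edist_zero_right, enorm_eq_nnnorm, ENNReal.coe_lt_coe, ← NNReal.coe_lt_coe,
          coe_nnnorm, hsr, Real.norm_eq_abs] at hy
        linarith
      rw [zero_add]
      refine (hs_congr (fun n => ?_)).1 (h y hy2)
      rw [FormalMultilinearSeries.ofScalars_apply_eq, smul_eq_mul]
  have h2 := hb.factorial_smul 1 k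
  rw [iteratedDeriv_eq_iteratedFDeriv]
  rw [FormalMultilinearSeries.ofScalars_apply_eq, one_pow, smul_eq_mul, mul_one, nsmul_eq_mul] at h2
  exact h2.symm

/-- The Taylor coefficients of `kth θ`. -/
private noncomputable def kc (θ : ℝ) (k : ℕ) : ℝ :=
  if k % 2 = 0 then 0 else (-1) ^ (k / 2) * (2 * ∑' n : ℕ, (1 / opaa θ n ^ (2 * (k / 2) + 2) + 1 / opbb θ n ^ (2 * (k / 2) + 2)))

private lemma geom_frac {t a : ℝ} (ha : 0 < a) (h : |t| < a) :
    HasSum (fun j : ℕ => 2 * (-1) ^ j * t ^ (2 * j + 1) * (1 / a ^ (2 * j + 2))) (2 * t / (t ^ 2 + a ^ 2)) := by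
  have h1 : |-(t / a) ^ 2| < 1 := by
    rw [abs_neg, abs_pow, abs_div, abs_of_pos ha]
    have : |t| / a < 1 := (div_lt_one ha).2 h
    exact pow_lt_one₀ (by positivity) this (by norm_num)
  have h2 := (hasSum_geometric_of_abs_lt_one h1).mul_left (2 * t / a ^ 2)
  have e1 : 2 * t / a ^ 2 * (1 - -(t / a) ^ 2)⁻¹ = 2 * t / (t ^ 2 + a ^ 2) := by
    have h3 : 0 < t ^ 2 + a ^ 2 := by positivity
    have h4 : (1 - -(t / a) ^ 2) = (t ^ 2 + a ^ 2) / a ^ 2 := by field_simp; ring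
    rw [h4]
    field_simp
  rw [e1] at h2
  refine (hs_congr (fun j => ?_)).1 h2
  rw [neg_pow, div_pow, div_pow, ← pow_mul, ← pow_mul, pow_succ, pow_add]
  field_simp
  ring

private lemma kth_series {θ : ℝ} (h0 : 0 ≤ θ) (h1 : θ < Real.pi) (t : ℝ) (ht : |t| < Real.pi - θ) :
    HasSum (fun k : ℕ => kc θ k * t ^ k) (kth θ t) := by
  have hapos := aa_pos h0 h1
  have hbpos := bb_pos h0 h1
  have hr : 0 < Real.pi - θ := sub_pos.2 h1
  have har : ∀ n, Real.pi - θ ≤ opaa θ n := fun n => by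
    have := aa_ge h0 h1 n
    have hn : (0 : ℝ) ≤ n := Nat.cast_nonneg n
    nlinarith
  have hrow : ∀ n : ℕ, HasSum (fun j : ℕ => 2 * (-1) ^ j * t ^ (2 * j + 1) *
      (1 / opaa θ n ^ (2 * j + 2) + 1 / opbb θ n ^ (2 * j + 2)))
      (2 * t / (t ^ 2 + opaa θ n ^ 2) + 2 * t / (t ^ 2 + opbb θ n ^ 2)) := by
    intro n
    have h2 := (geom_frac (hapos n) (ht.trans_le (har n))).add
      (geom_frac (hbpos n) (ht.trans_le ((har n).trans (aa_le_bb h0 n))))
    refine (hs_congr (fun j => ?_)).1 h2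
    ring
  have hcol : ∀ j : ℕ, HasSum (fun n : ℕ => 2 * (-1) ^ j * t ^ (2 * j + 1) *
      (1 / opaa θ n ^ (2 * j + 2) + 1 / opbb θ n ^ (2 * j + 2)))
      (kc θ (2 * j + 1) * t ^ (2 * j + 1)) := by
    intro j
    have h2 := (summable_aabb h0 h1 j).hasSum.mul_left (2 * (-1) ^ j * t ^ (2 * j + 1))
    have e : kc θ (2 * j + 1) * t ^ (2 * j + 1) = 2 * (-1) ^ j * t ^ (2 * j + 1) *
        ∑' n : ℕ, (1 / opaa θ n ^ (2 * j + 2) + 1 / opbb θ n ^ (2 * j + 2)) := by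
      rw [kc, if_neg (by omega), show (2 * j + 1) / 2 = j by omega]
      ring
    rw [e]
    exact h2
  -- absolute summability
  have habs : Summable (fun p : ℕ × ℕ => 2 * (-1) ^ p.2 * t ^ (2 * p.2 + 1) *
      (1 / opaa θ p.1 ^ (2 * p.2 + 2) + 1 / opbb θ p.1 ^ (2 * p.2 + 2))) := by
    have hρ0 : 0 ≤ t ^ 2 / (Real.pi - θ) ^ 2 := by positivity
    have hρ1 : t ^ 2 / (Real.pi - θ) ^ 2 < 1 := by
      rw [div_lt_one (by positivity), ← sq_abs t]
      exact pow_lt_pow_left₀ ht (abs_nonneg t) (by norm_num)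
    have hg := summable_geometric_of_lt_one hρ0 hρ1
    have hA := (summable_aabb h0 h1 0).mul_left (2 * |t|)
    have hprod := hA.mul_of_nonneg hg
      (fun n => by have := hapos n; have := hbpos n; positivity) (fun j => pow_nonneg hρ0 j)
    refine Summable.of_norm_bounded hprod (fun p => ?_)
    obtain ⟨n, j⟩ := p
    have ha := hapos n
    have hb := hbpos n
    have hrb : Real.pi - θ ≤ opbb θ n := (har n).trans (aa_le_bb h0 n)
    have key : ∀ x : ℝ, Real.pi - θ ≤ x → 1 / x ^ (2 * j + 2) ≤ 1 / (Real.pi - θ) ^ (2 * j) * (1 / x ^ (2 * 0 + 2)) := by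
      intro x hx
      have hx0 : 0 < x := hr.trans_le hx
      rw [one_div_mul_one_div]
      apply one_div_le_one_div_of_le (by positivity)
      rw [show 2 * 0 + 2 = 2 by norm_num, pow_add]
      exact mul_le_mul_of_nonneg_right (pow_le_pow_left₀ hr.le hx _) (by positivity)
    have k1 := key _ (har n)
    have k2 := key _ hrb
    dsimp only
    rw [norm_mul, norm_mul, norm_mul, norm_pow, norm_pow, norm_neg, norm_one, one_pow, mul_one,
      Real.norm_of_nonneg (by norm_num : (0 : ℝ) ≤ 2), Real.norm_eq_abs t,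
      Real.norm_of_nonneg (by positivity : 0 ≤ 1 / opaa θ n ^ (2 * j + 2) + 1 / opbb θ n ^ (2 * j + 2))]
    calc 2 * |t| ^ (2 * j + 1) * (1 / opaa θ n ^ (2 * j + 2) + 1 / opbb θ n ^ (2 * j + 2))
        ≤ 2 * |t| ^ (2 * j + 1) * (1 / (Real.pi - θ) ^ (2 * j) * (1 / opaa θ n ^ (2 * 0 + 2))
          + 1 / (Real.pi - θ) ^ (2 * j) * (1 / opbb θ n ^ (2 * 0 + 2))) := by
          apply mul_le_mul_of_nonneg_left (by linarith) (by positivity)
      _ = 2 * |t| * (1 / opaa θ n ^ (2 * 0 + 2) + 1 / opbb θ n ^ (2 * 0 + 2)) *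
          (t ^ 2 / (Real.pi - θ) ^ 2) ^ j := by
          rw [div_pow, ← pow_mul, ← pow_mul, pow_succ, pow_mul |t| 2 j, sq_abs, ← pow_mul]
          ring
  have hS := habs.hasSum
  have h3 := hS.prod_fiberwise hrow
  have h4 := h3.unique (kth_hasSum h0 h1 t)
  rw [h4] at hS
  have h5 := ((Equiv.prodComm ℕ ℕ).hasSum_iff.2 hS).prod_fiberwise hcol
  have h6 : HasSum (fun j : ℕ => kc θ (2 * j) * t ^ (2 * j)) 0 := by
    refine (hs_congr (fun j => ?_)).1 hasSum_zero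
    rw [kc, if_pos (by omega), zero_mul]
  have h7 := HasSum.even_add_odd (f := fun k => kc θ k * t ^ k) h6 h5
  rwa [zero_add] at h7

theorem kth_odd_deriv {θ : ℝ} (h0 : 0 ≤ θ) (h1 : θ < Real.pi) (j : ℕ) :
    iteratedDeriv (2 * j + 1) (kth θ) 0 = (-1) ^ j * (2 * ((2 * j + 1).factorial : ℝ) *
      ∑' n : ℕ, (1 / opaa θ n ^ (2 * j + 2) + 1 / opbb θ n ^ (2 * j + 2))) := by
  rw [iteratedDeriv_of_hasSum (sub_pos.2 h1) (kth_series h0 h1), kc, if_neg (by omega),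
    show (2 * j + 1) / 2 = j by omega]
  ring

theorem kth_even_deriv {θ : ℝ} (h0 : 0 ≤ θ) (h1 : θ < Real.pi) (j : ℕ) :
    iteratedDeriv (2 * j) (kth θ) 0 = 0 := by
  rw [iteratedDeriv_of_hasSum (sub_pos.2 h1) (kth_series h0 h1), kc, if_pos (by omega), mul_zero]

end Pool.Agent.BEX
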