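import Pool.Agent.BEX.OPSer

/-!
# BEX part B, module OPTanh: derivatives of `tanh (t/2)` as polynomials

`G t = kth 0 t = sinh t / (cosh t + 1) = tanh (t/2)`, `G' = (1 - G²)/2`. With the derivation
`dl p = (1/2) (1 - X²) p'` of `ℝ[X]`: `(d/dt) p(G(t)) = (dl p)(G(t))`, so all derivatives of `G` at `0` are
values at `G 0 = 0` of iterates of `dl`.
-/

set_option autoImplicit false

namespace Pool.Agent.BEX

open Polynomial

/-- The derivation `(1/2)(1-X²) d/dX`. -/
noncomputable def dl : ℝ[X] →ₗ[ℝ] ℝ[X] where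
  toFun p := C (1 / 2) * (1 - X ^ 2) * derivative p
  map_add' p q := by simp only [derivative_add]; ring
  map_smul' c p := by
    simp only [RingHom.id_apply, smul_eq_C_mul, derivative_C_mul]
    ring

/-- `F = (1-X²)/2 = dl X`. -/
noncomputable def FF : ℝ[X] := C (1 / 2) * (1 - X ^ 2)

private lemma Tanh_G (t : ℝ) : HasDerivAt (kth 0) (FF.eval (kth 0 t)) t := by
  have h1 : 0 < Real.cosh t + 1 := by
    have := Real.one_le_cosh t
    linarith
  have h2 : HasDerivAt (fun t => Real.sinh t / (Real.cosh t + 1))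
      ((Real.cosh t * (Real.cosh t + 1) - Real.sinh t * Real.sinh t) / (Real.cosh t + 1) ^ 2) t :=
    (Real.hasDerivAt_sinh t).div ((Real.hasDerivAt_cosh t).add_const 1) h1.ne'
  have e1 : kth 0 = fun t => Real.sinh t / (Real.cosh t + 1) := by
    funext t
    simp [kth]
  have e2 : FF.eval (kth 0 t) =
      (Real.cosh t * (Real.cosh t + 1) - Real.sinh t * Real.sinh t) / (Real.cosh t + 1) ^ 2 := by
    rw [e1]
    simp only [FF, eval_mul, eval_C, eval_sub, eval_one, eval_pow, eval_X]
    have h3 := Real.cosh_sq t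
    field_simp
    linear_combination (-1 : ℝ) * h3
  rw [e2, e1]
  exact h2

private lemma Tanh_p (p : ℝ[X]) (t : ℝ) :
    HasDerivAt (fun t => p.eval (kth 0 t)) ((dl p).eval (kth 0 t)) t := by
  have h := (p.hasDerivAt (kth 0 t)).comp t (Tanh_G t)
  have e : (dl p).eval (kth 0 t) = p.derivative.eval (kth 0 t) * FF.eval (kth 0 t) := by
    change (C (1 / 2) * (1 - X ^ 2) * derivative p).eval (kth 0 t) = _
    rw [eval_mul, mul_comm]
    rfl
  rw [e]
  exact h

private lemma Tanh_iter (n : ℕ) :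
    iteratedDeriv (n + 1) (kth 0) = fun t => ((dl ^ n) FF).eval (kth 0 t) := by
  induction n with
  | zero =>
    rw [zero_add, iteratedDeriv_one]
    funext t
    rw [(Tanh_G t).deriv, pow_zero]
    rfl
  | succ n ih =>
    rw [iteratedDeriv_succ, ih]
    funext t
    rw [(Tanh_p _ t).deriv, pow_succ', Module.End.mul_apply]

theorem tanh_iter (n : ℕ) : iteratedDeriv (n + 1) (kth 0) 0 = ((dl ^ n) FF).eval 0 := by
  rw [Tanh_iter]
  simp [kth]

end Pool.Agent.BEX
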