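import Pool.Agent.BEX.Iface
import Pool.Agent.BEX.ADef

/-!
# BEX, the row operator of the honeycomb cylinder on matchings, and the numbers `S L`.

A state on a set `Λ` of labels (lines, open legs) is an involution `f : Λ → Λ`: `f a = a` means that the leg `a` is not
used, `f a = b ≠ a` that `a` and `b` are the ends of a path. Planarity is not part of the definition.

The row: the lines `0, ..., L - 1` are crossed from left to right by an auxiliary line (label `b`); its left end is kept
as the label `a` and is joined to its right end in the end. The crossing of the line `j` is two honeycomb vertices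
`P1` (legs: auxiliary line coming in from the left, line `j` going up, rung) and `P2` (legs: line `j` coming from below,
auxiliary line going out to the right, rung). This is `R_{bj}(λ) / k(λ)` at `λ = π/8`, with the weight `x` per used
vertex and `0` for closed loops: rung not used (`r = false`): both strands change the line (conjugation by the
transposition, `x` for each strand); rung used: weight `x ^ 2`, both empty: new arc; one used: the strand follows its line;
both used: the two strands are joined.
-/

namespace Pool.Agent.BEX

open Pool.Agent.Hhelper14.SAW

section Ops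

variable {Λ : Type*} [DecidableEq Λ]

/-- Exchange of the labels `a` and `b`. -/
def cj (a b : Λ) (f : Λ → Λ) : Λ → Λ := fun z => Equiv.swap a b (f (Equiv.swap a b z))

/-- New arc between the (empty) labels `a` and `b`. -/
def ar (a b : Λ) (f : Λ → Λ) : Λ → Λ := fun z => if z = a then b else if z = b then a else f z

/-- The strands which end in `a` and `b` are joined, `a` and `b` become empty. -/
def ct (a b : Λ) (f : Λ → Λ) : Λ → Λ := fun z =>
  if z = a then a else if z = b then b else if z = f a then f b else if z = f b then f a else f z

/-- The crossing at `λ`: auxiliary line `b`, line `j`, rung used or not. Second component: number of used vertices. -/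
def hop (r : Bool) (b j : Λ) (f : Λ → Λ) : Option ((Λ → Λ) × ℕ) :=
  if r = false then some (cj b j f, (if f b = b then 0 else 1) + (if f j = j then 0 else 1))
  else if f b = b then
    if f j = j then some (ar b j f, 2) else some (f, 2)
  else if f j = j then some (f, 2)
  else if f b = j then none
  else some (ct b j f, 2)

/-- The two ends of the auxiliary line are identified. -/
def cap (a b : Λ) (f : Λ → Λ) : Option (Λ → Λ) :=
  if f a = a then (if f b = b then some f else none)
  else if f b = b then none
  else if f a = b then none
  else some (ct a b f)

/-- A list of crossings. -/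
def hops (b : Λ) : List (Bool × Λ) → (Λ → Λ) → Option ((Λ → Λ) × ℕ)
  | [], f => some (f, 0)
  | p :: l, f => (hop p.1 b p.2 f).bind (fun g => (hops b l g.1).map (fun h => (h.1, g.2 + h.2)))

end Ops

/-- The states on `L` lines. -/
abbrev StL (L : ℕ) : Type := St (Fin L)

/-- The empty state. -/
def em (L : ℕ) : StL L := ⟨id, fun _ => rfl⟩

/-- One row with given choices: `q` = the seam edge is used, `r j` = the rung `j` is used. -/
def row {L : ℕ} (q : Bool) (r : Fin L → Bool) (f : Fin L → Fin L) : Option ((Fin L → Fin L) × ℕ) :=
  let f0 : Fin L ⊕ Bool → Fin L ⊕ Bool := Sum.map f id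
  let f1 := if q then ar (Sum.inr false) (Sum.inr true) f0 else f0
  (hops (Sum.inr true) ((List.finRange L).map (fun j => (r j, Sum.inl j))) f1).bind fun g =>
    (cap (Sum.inr false) (Sum.inr true) g.1).map fun h =>
      ((fun j => match h (Sum.inl j) with
        | Sum.inl i => i
        | Sum.inr _ => j), g.2)

/-- The row operator (transition weights `σ → τ`). -/
noncomputable def K (L : ℕ) : Matrix (StL L) (StL L) ℝ := fun σ τ =>
  ∑ q : Bool, ∑ r : Fin L → Bool,
    match row q r σ.1 with
    | none => 0
    | some g => if g.1 = τ.1 then xc ^ g.2 else 0

/-- Masses of the arc systems of the cylinder with `M` rows. -/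
noncomputable def Rm (L M : ℕ) (σ : StL L) : ℝ := (K L ^ M) (em L) σ

/-- Masses of the arc systems of the half-infinite cylinder. -/
noncomputable def Ri (L : ℕ) (σ : StL L) : ℝ := ⨆ M : ℕ, Rm L M σ

/-- The state with the single arc `{i, j}`, `i ≠ j`. -/
def ars {L : ℕ} (i j : Fin L) (h : i ≠ j) : StL L := ⟨ar i j id, fun z => by
  unfold ar
  by_cases h1 : z = i
  · subst h1; simp [h.symm]
  · by_cases h2 : z = j
    · subst h2; simp [h1]
    · simp [h1, h2]⟩

/-- Total mass of the single arcs which end in the leg `0`. -/
noncomputable def S (L : ℕ) : ℝ := ∑ k : Fin L,
  if h : (⟨0, k.pos⟩ : Fin L) ≠ k then Ri L (ars ⟨0, k.pos⟩ k h) else 0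

end Pool.Agent.BEX
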